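import Pool.Agent.ThF.Tw

/-! # The automorphism `x_r(a) ↦ x_(sg r)(η_r τ(a))` -/

namespace Pool.Agent.ThF

open ThE ThK ThR

variable {K : Type*} [Field K] {G : Type*} [Group G]

theorem eps_map {L : Type*} [Field L] (f : K →+* L) {n : ℕ} (v w : Vec n) : f (eps K v w) = eps L v w := by
  simp only [eps, ep, Units.val_zpow_eq_zpow_val, map_zpow₀, Units.val_neg, Units.val_one, map_neg, map_one]

theorem nn_tw (x : Root 6 → K → G) (τ : K →+* K) (r : Root 6) (a : K) :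
    ThK.nn (fun (r : Root 6) (a : K) => x (sr r) (et K r.1 * τ a)) r a = ThK.nn x (sr r) (et K r.1 * τ a) := by
  have h1 : et K (-r : Root 6).1 = et K r.1 := et_neg r.1
  have h2 : (et K r.1)⁻¹ = et K r.1 := by
    exact inv_eq_of_mul_eq_one_left (et_sq r.1)
  unfold ThK.nn
  beta_reduce
  rw [h1, sr_neg, map_inv₀, mul_inv, h2]

theorem hh_tw {x : Root 6 → K → G} (h : Stb K 6 x) (τ : K →+* K) (r : Root 6) {a : K} (ha : a ≠ 0) :
    hh (fun (r : Root 6) (a : K) => x (sr r) (et K r.1 * τ a)) r a = hh x (sr r) (τ a) := by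
  have h1 : hh (fun (r : Root 6) (a : K) => x (sr r) (et K r.1 * τ a)) r a = ThK.nn x (sr r) (et K r.1 * τ a) * ThK.nn x (sr r) (-et K r.1) := by
    unfold hh
    rw [nn_tw, nn_tw, map_neg, map_one, mul_neg, mul_one]
  have h2 : τ a ≠ 0 := (map_ne_zero τ).2 ha
  have h3 := h.tor (sr r) (τ a) (et K r.1) h2 (et_ne r.1)
  rw [mul_comm] at h3
  have h4 : ThK.nn x (sr r) (-et K r.1) = (ThK.nn x (sr r) (et K r.1))⁻¹ := (nn_inv h _ _).symm
  rw [h1, h4, ← mul_right_cancel_iff (a := hh x (sr r) (et K r.1)), ← h3]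
  unfold hh
  group

/-- the relations for the twisted family -/
theorem stb_tw {x : Root 6 → K → G} (h : Stb K 6 x) (τ : K →+* K) (hτ : ∀ a, τ (τ a) = a) : Stb K 6 (fun (r : Root 6) (a : K) => x (sr r) (et K r.1 * τ a)) := by
  refine ⟨fun r a b => ?_, fun r s t ht a b => ?_, fun r s h0 h1 a b => ?_, fun r a b ha hb => ?_, ?_⟩
  · rw [map_add, mul_add, h.add]
  · have h1 : (sr t).1 = (sr r).1 + (sr s).1 := by rw [sr_val, sr_val, sr_val, ht, sg_add]
    rw [h.sum _ _ _ h1]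
    have h2 := et_add (K := K) ht
    have h3 : τ (eps K r.1 s.1) = eps K r.1 s.1 := eps_map τ r.1 s.1
    have h4 : et K r.1 * et K s.1 * ((ep K (sr r).1 (sr s).1 : Kˣ) : K) = et K t.1 * ((ep K r.1 s.1 : Kˣ) : K) := h2.symm
    have h5 : τ ((ep K r.1 s.1 : Kˣ) : K) = ((ep K r.1 s.1 : Kˣ) : K) := h3
    rw [map_mul, map_mul, h5]
    refine congrArg (x (sr t)) ?_
    linear_combination (τ a * τ b) * h4
  · refine h.comm _ _ (fun h2 => h0 ?_) (fun t h2 => h1 (sr t) ?_) _ _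
    · rw [sr_val, sr_val, ← sg_add] at h2
      rw [← sg_sg (r.1 + s.1), h2]
      exact Prod.ext rfl (funext fun i => by simp [sg])
    · rw [sr_val, h2, sr_val, sr_val, ← sg_add, sg_sg]
  · rw [hh_tw h τ r (mul_ne_zero ha hb), hh_tw h τ r ha, hh_tw h τ r hb, map_mul, h.tor _ _ _ ((map_ne_zero τ).2 ha) ((map_ne_zero τ).2 hb)]
  · rw [eq_top_iff, ← h.gen]
    apply Subgroup.closure_mono
    rintro _ ⟨r, a, rfl⟩
    refine ⟨sr r, τ (et K r.1 * a), ?_⟩
    rw [sr_sr, hτ, et_sr, ← mul_assoc, et_sq, one_mul]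

end Pool.Agent.ThF
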