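import Pool.Agent.ThF.Mtx

/-! # Products of two matrices with an arbitrary cubic characteristic polynomial `X^3 - s X^2 + s' X - 1` -/

namespace Pool.Agent.ThF

open Polynomial Matrix

variable {K : Type*} [Field K]

/-- `X^3 - s X^2 + s' X - 1` -/
noncomputable def p3 (s s' : K) : K[X] := X ^ 3 - C s * X ^ 2 + C s' * X - 1

/-- the sum of the principal minors of size 2 -/
def e2 (M : Matrix (Fin 3) (Fin 3) K) : K := M 0 0 * M 1 1 - M 0 1 * M 1 0 + (M 0 0 * M 2 2 - M 0 2 * M 2 0) + (M 1 1 * M 2 2 - M 1 2 * M 2 1)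

-- BEGIN qa
/-- MODULE qa. `Matrix.charpoly`, `Matrix.det_fin_three`, `Matrix.charmatrix` entries. -/
theorem charpoly_three (M : Matrix (Fin 3) (Fin 3) K) : M.charpoly = X ^ 3 - C M.trace * X ^ 2 + C (e2 M) * X - C M.det := by
  have h01 : (0 : Fin 3) ≠ 1 := by decide
  have h02 : (0 : Fin 3) ≠ 2 := by decide
  have h12 : (1 : Fin 3) ≠ 2 := by decide
  rw [Matrix.charpoly, Matrix.det_fin_three, Matrix.det_fin_three, Matrix.trace_fin_three, e2]
  simp only [Matrix.charmatrix_apply_eq, Matrix.charmatrix_apply_ne _ _ _ h01, Matrix.charmatrix_apply_ne _ _ _ h01.symm,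
    Matrix.charmatrix_apply_ne _ _ _ h02, Matrix.charmatrix_apply_ne _ _ _ h02.symm,
    Matrix.charmatrix_apply_ne _ _ _ h12, Matrix.charmatrix_apply_ne _ _ _ h12.symm, map_add, map_sub, map_mul]
  ring

theorem p3_iff (M : Matrix (Fin 3) (Fin 3) K) (s s' : K) : M.charpoly = p3 s s' ↔ M.trace = s ∧ e2 M = s' ∧ M.det = 1 := by
  rw [charpoly_three, p3]
  constructor
  · intro h
    have h2 := congrArg (fun p : K[X] => p.coeff 2) h
    have h1 := congrArg (fun p : K[X] => p.coeff 1) h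
    have h0 := congrArg (fun p : K[X] => p.coeff 0) h
    simp [coeff_X, coeff_one, coeff_C, coeff_X_pow] at h2 h1 h0
    exact ⟨h2, h1, h0⟩
  · rintro ⟨h1, h2, h3⟩
    rw [h1, h2, h3, map_one]

/-- HESSENBERG.  `e_0`, `M e_0`, `M^2 e_0` are linearly independent (coordinates `(1, *, *)`, `(0, M 1 0, *)`, `(0, 0, M 2 1 M 1 0)`), so no polynomial of degree `≤ 2` kills `M`; the minimal polynomial is a monic divisor of degree 3 of the characteristic polynomial. -/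
theorem hess (M : Matrix (Fin 3) (Fin 3) K) (h1 : M 1 0 ≠ 0) (h2 : M 2 1 ≠ 0) (h0 : M 2 0 = 0) : minpoly K M = M.charpoly := by
  have hint : IsIntegral K M := Matrix.isIntegral M
  have hmon := minpoly.monic hint
  have hdvd : minpoly K M ∣ M.charpoly := Matrix.minpoly_dvd_charpoly M
  have hdeg3 : M.charpoly.natDegree = 3 := by
    rw [Matrix.charpoly_natDegree_eq_dim, Fintype.card_fin]
  have hge : 3 ≤ (minpoly K M).natDegree := by
    by_contra hlt
    have hlt' : (minpoly K M).natDegree < 3 := by omega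
    have he : aeval M (minpoly K M) = 0 := minpoly.aeval K M
    rw [aeval_eq_sum_range' hlt'] at he
    simp only [Finset.sum_range_succ, Finset.sum_range_zero, zero_add, pow_zero, pow_one, pow_two] at he
    have e20 := congrFun (congrFun he 2) 0
    have e10 := congrFun (congrFun he 1) 0
    have e00 := congrFun (congrFun he 0) 0
    simp [Matrix.mul_apply, Fin.sum_univ_three, h0] at e20 e10 e00
    have c2 : (minpoly K M).coeff 2 = 0 := by
      rcases e20 with h | h | h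
      · exact h
      · exact absurd h h2
      · exact absurd h h1
    rw [c2] at e10 e00
    have c1 : (minpoly K M).coeff 1 = 0 := by
      simp at e10
      rcases e10 with h | h
      · exact h
      · exact absurd h h1
    rw [c1] at e00
    have c0 : (minpoly K M).coeff 0 = 0 := by
      simpa using e00
    have hz : minpoly K M = 0 := by
      ext n
      rw [coeff_zero]
      rcases lt_or_ge n 3 with h | h
      · interval_cases n
        · exact c0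
        · exact c1
        · exact c2
      · exact coeff_eq_zero_of_natDegree_lt (by omega)
    exact hmon.ne_zero hz
  have hle : M.charpoly.natDegree ≤ (minpoly K M).natDegree := by omega
  exact (Polynomial.eq_of_monic_of_dvd_of_natDegree_le hmon M.charpoly_monic hdvd hle).symm
-- END qa

-- BEGIN qb
/-- MODULE qb. THE CYCLIC CASE.  `P = s - 2 β`, `Z1 = [[P, a, v], [Q, β, b], [c, 0, β]]`, `C0 = [[0, 0, 1], [1, 0, -s'], [0, 1, s]]` (charpoly `p3 s s'`), `M0 = Z1 C0` has the columns `(a, β, 0)`, `(v, b, β)`, `(P - s' a + s v, Q - s' β + s b, c + s β)`, so `hess` applies.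
If (1) `a Q + v c = 2 P β + β^2 - s'` then with `h2`: `trace Z1 = s`, `e2 Z1 = s'`, `det Z1 = a b c - β (v c + a Q) + P β^2 = 1` (`linear_combination`).  `trace M0 = a + b + c + s β = trace M`; `e2 M0 = a b + a c + b c + s a β - β v - β Q + s' β^2`, so `e2 M0 = e2 M` iff (2) `v + Q = R := (a b + a c + b c + s a β + s' β^2 - e2 M) / β`.
(1), (2) are solved by `v = (2 P β + β^2 - s' - a R) / (c - a)`, `Q = R - v`.  Then `M0.charpoly = M.charpoly` (`charpoly_three`, `det = 1`), `conj_GLm`: `M = X M0 X⁻¹ = (X Z1 X⁻¹)(X C0 X⁻¹)`; conjugation does not change the characteristic polynomial. -/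
theorem fac_cyc (s s' : K) {β a b c : K} (hβ : β ≠ 0) (hac : a ≠ c) (h2 : a * b * c = -(β ^ 3 - s * β ^ 2 + s' * β - 1)) {M : Matrix (Fin 3) (Fin 3) K} (hM : M.det = 1)
    (hm : minpoly K M = M.charpoly) (h1 : a + b + c = M.trace - s * β) :
    ∃ Z1 Z2 : Matrix (Fin 3) (Fin 3) K, Z1.charpoly = p3 s s' ∧ Z2.charpoly = p3 s s' ∧ M = Z1 * Z2 := by
  have hca : c - a ≠ 0 := sub_ne_zero.2 (Ne.symm hac)
  obtain ⟨R, hR⟩ : ∃ R : K, β * R = a * b + a * c + b * c + s * a * β + s' * β ^ 2 - e2 M :=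
    ⟨(a * b + a * c + b * c + s * a * β + s' * β ^ 2 - e2 M) / β, by field_simp⟩
  obtain ⟨v, hv⟩ : ∃ v : K, (c - a) * v = 2 * (s - 2 * β) * β + β ^ 2 - s' - a * R :=
    ⟨(2 * (s - 2 * β) * β + β ^ 2 - s' - a * R) / (c - a), by field_simp⟩
  have hZ : (!![s - 2 * β, a, v; R - v, β, b; c, 0, β] : Matrix (Fin 3) (Fin 3) K).charpoly = p3 s s' := by
    rw [p3_iff]
    refine ⟨?_, ?_, ?_⟩
    · rw [Matrix.trace_fin_three]
      simp
      ring
    · simp only [e2]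
      simp
      linear_combination -hv
    · rw [Matrix.det_fin_three]
      simp
      linear_combination h2 + (-β) * hv
  have hC : (!![0, 0, 1; 1, 0, -s'; 0, 1, s] : Matrix (Fin 3) (Fin 3) K).charpoly = p3 s s' := by
    rw [p3_iff]
    refine ⟨?_, ?_, ?_⟩
    · rw [Matrix.trace_fin_three]
      simp
    · simp only [e2]
      simp
    · rw [Matrix.det_fin_three]
      simp
  have hM0 : (!![s - 2 * β, a, v; R - v, β, b; c, 0, β] : Matrix (Fin 3) (Fin 3) K) * !![0, 0, 1; 1, 0, -s'; 0, 1, s] =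
      !![a, v, (s - 2 * β) - s' * a + s * v; β, b, (R - v) - s' * β + s * b; 0, β, c + s * β] := by
    ext i j
    fin_cases i <;> fin_cases j <;> simp [Matrix.mul_apply, Fin.sum_univ_three] <;> ring
  obtain ⟨Z1, hZ1⟩ : ∃ Z1 : Matrix (Fin 3) (Fin 3) K, Z1 = !![s - 2 * β, a, v; R - v, β, b; c, 0, β] := ⟨_, rfl⟩
  obtain ⟨C0, hC0⟩ : ∃ C0 : Matrix (Fin 3) (Fin 3) K, C0 = !![0, 0, 1; 1, 0, -s'; 0, 1, s] := ⟨_, rfl⟩
  obtain ⟨M0, hM0'⟩ : ∃ M0 : Matrix (Fin 3) (Fin 3) K, M0 = !![a, v, (s - 2 * β) - s' * a + s * v; β, b, (R - v) - s' * β + s * b; 0, β, c + s * β] := ⟨_, rfl⟩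
  rw [← hZ1] at hZ hM0
  rw [← hC0] at hC hM0
  rw [← hM0'] at hM0
  have hmin : minpoly K M0 = M0.charpoly := by
    refine hess M0 ?_ ?_ ?_
    · rw [hM0']; simpa using hβ
    · rw [hM0']; simpa using hβ
    · rw [hM0']; simp
  have hdet : M0.det = 1 := by
    rw [← hM0, Matrix.det_mul, ((p3_iff Z1 s s').1 hZ).2.2, ((p3_iff C0 s s').1 hC).2.2, mul_one]
  have htr : M0.trace = M.trace := by
    rw [hM0', Matrix.trace_fin_three]
    simp
    linear_combination h1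
  have he2 : e2 M0 = e2 M := by
    rw [hM0']
    have : e2 (!![a, v, (s - 2 * β) - s' * a + s * v; β, b, (R - v) - s' * β + s * b; 0, β, c + s * β] : Matrix (Fin 3) (Fin 3) K) =
        a * b - v * β + a * (c + s * β) + (b * (c + s * β) - ((R - v) - s' * β + s * b) * β) := by
      simp [e2]
    rw [this]
    linear_combination -hR
  have hch : M0.charpoly = M.charpoly := by
    rw [charpoly_three M0, charpoly_three M, htr, he2, hdet, hM]
  obtain ⟨X', hX, hXM⟩ := conj_GLm M0 M hmin hm hch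
  have hu : IsUnit X'.det := isUnit_iff_ne_zero.2 hX
  have hx1 : X' * X'⁻¹ = 1 := Matrix.mul_nonsing_inv X' hu
  have hx2 : X'⁻¹ * X' = 1 := Matrix.nonsing_inv_mul X' hu
  refine ⟨X' * Z1 * X'⁻¹, X' * C0 * X'⁻¹, ?_, ?_, ?_⟩
  · exact (Matrix.charpoly_units_conj (⟨X', X'⁻¹, hx1, hx2⟩ : (Matrix (Fin 3) (Fin 3) K)ˣ) Z1).trans hZ
  · exact (Matrix.charpoly_units_conj (⟨X', X'⁻¹, hx1, hx2⟩ : (Matrix (Fin 3) (Fin 3) K)ˣ) C0).trans hC
  · calc M = M * (X' * X'⁻¹) := by rw [hx1, Matrix.mul_one]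
      _ = (M * X') * X'⁻¹ := by rw [Matrix.mul_assoc]
      _ = X' * (Z1 * C0) * X'⁻¹ := by rw [hXM, hM0]
      _ = X' * Z1 * (X'⁻¹ * X') * C0 * X'⁻¹ := by rw [hx2, Matrix.mul_one, Matrix.mul_assoc X' Z1 C0]
      _ = X' * Z1 * X'⁻¹ * (X' * C0 * X'⁻¹) := by simp only [Matrix.mul_assoc]
-- END qb

-- BEGIN qc
private theorem qc_charpoly {Q J : Matrix (Fin 3) (Fin 3) K} (hQ : Q.det ≠ 0) : (Q * J * Q⁻¹).charpoly = J.charpoly := by
  obtain ⟨u, hu⟩ := (Matrix.isUnit_iff_isUnit_det Q).mpr (isUnit_iff_ne_zero.mpr hQ)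
  have h1 := Matrix.charpoly_units_conj u J
  rw [hu] at h1
  exact h1

private theorem qc_det (l : K) (x ψ : Fin 3 → K) : (l • (1 : Matrix (Fin 3) (Fin 3) K) + vecMulVec x ψ).det = l ^ 2 * (l + ψ ⬝ᵥ x) := by
  rw [Matrix.det_fin_three]
  simp only [Matrix.add_apply, Matrix.smul_apply, Matrix.one_apply_eq, vecMulVec_apply, smul_eq_mul, dotProduct, Fin.sum_univ_three,
    Matrix.one_apply_ne (show (0 : Fin 3) ≠ 1 by decide), Matrix.one_apply_ne (show (0 : Fin 3) ≠ 2 by decide), Matrix.one_apply_ne (show (1 : Fin 3) ≠ 0 by decide),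
    Matrix.one_apply_ne (show (1 : Fin 3) ≠ 2 by decide), Matrix.one_apply_ne (show (2 : Fin 3) ≠ 0 by decide), Matrix.one_apply_ne (show (2 : Fin 3) ≠ 1 by decide)]
  ring

private theorem qc_mul (s s' l φ0 φ1 φ2 : K) : (!![0, 0, 1; 1, 0, -s'; 0, 1, s] : Matrix (Fin 3) (Fin 3) K) * !![l * s', l, 0; -(l * s), 0, l; l + φ0, φ1, φ2] =
    l • (1 : Matrix (Fin 3) (Fin 3) K) + vecMulVec ![1, -s', s] ![φ0, φ1, φ2] := by
  ext i j
  fin_cases i <;> fin_cases j <;> simp [Matrix.mul_apply, Fin.sum_univ_three, vecMulVec_apply] <;> ring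

private theorem qc_C0 (s s' : K) : (!![0, 0, 1; 1, 0, -s'; 0, 1, s] : Matrix (Fin 3) (Fin 3) K).charpoly = p3 s s' := by
  rw [p3_iff]
  refine ⟨?_, ?_, ?_⟩
  · simp [Matrix.trace_fin_three]
  · simp [e2]
  · simp [Matrix.det_fin_three]

private theorem qc_Z2 (s s' : K) {l φ0 φ1 φ2 : K} (hl : l ≠ 0) (h2 : φ2 = s - l * s') (h1 : φ1 = l * s + s' * φ2 - s' / l) (h0 : φ0 = 1 / l ^ 2 - l + s' * φ1 - s * φ2) :
    (!![l * s', l, 0; -(l * s), 0, l; l + φ0, φ1, φ2] : Matrix (Fin 3) (Fin 3) K).charpoly = p3 s s' := by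
  rw [p3_iff]
  refine ⟨?_, ?_, ?_⟩
  · rw [Matrix.trace_fin_three]
    change l * s' + 0 + φ2 = s
    rw [h2]; ring
  · simp only [e2, Matrix.of_apply, Matrix.cons_val', Matrix.cons_val_zero, Matrix.cons_val_one, Matrix.cons_val, Matrix.cons_val_fin_one]
    rw [h1]
    field_simp
    ring
  · simp only [Matrix.det_fin_three, Matrix.of_apply, Matrix.cons_val', Matrix.cons_val_zero, Matrix.cons_val_one, Matrix.cons_val, Matrix.cons_val_fin_one]
    rw [h0]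
    field_simp
    ring

/-- MODULE qc. `M = l + x ψ`, `det M = 1`: `l^2 (l + ψ · x) = 1` (`l ≠ 0`).  `C0` as in row `qb`, `C0⁻¹ = [[s', 1, 0], [-s, 0, 1], [1, 0, 0]]`, `Z2 = l C0⁻¹ + e_2 φ = [[l s', l, 0], [-l s, 0, l], [l + φ0, φ1, φ2]]` with `φ2 = s - l s'`, `φ1 = l s + s' φ2 - s' / l`, `φ0 = 1 / l^2 - l + s' φ1 - s φ2`:
`Z2.charpoly = p3 s s'` (`p3_iff`).  `C0 Z2 = l + x' φ` with `x' = C0 e_2 = (1, -s', s)`; `φ ≠ 0` because `φ2 ≠ 0`; its determinant is 1, so `φ · x' = l⁻² - l = ψ · x`; `conj_rank1`, and conjugate the factors. -/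
theorem fac_rank1 (s s' : K) {M : Matrix (Fin 3) (Fin 3) K} (hM : M.det = 1) {l : K} {x ψ : Fin 3 → K} (hx : x ≠ 0) (hψ : ψ ≠ 0)
    (h : M = l • (1 : Matrix (Fin 3) (Fin 3) K) + vecMulVec x ψ) (hl : s ≠ l * s') :
    ∃ Z1 Z2 : Matrix (Fin 3) (Fin 3) K, Z1.charpoly = p3 s s' ∧ Z2.charpoly = p3 s s' ∧ M = Z1 * Z2 := by
  have hd : l ^ 2 * (l + ψ ⬝ᵥ x) = 1 := by rw [← qc_det, ← h, hM]
  have hl0 : l ≠ 0 := by
    rintro rfl
    simp at hd
  obtain ⟨φ2, h2⟩ : ∃ φ2 : K, φ2 = s - l * s' := ⟨_, rfl⟩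
  obtain ⟨φ1, h1⟩ : ∃ φ1 : K, φ1 = l * s + s' * φ2 - s' / l := ⟨_, rfl⟩
  obtain ⟨φ0, h0⟩ : ∃ φ0 : K, φ0 = 1 / l ^ 2 - l + s' * φ1 - s * φ2 := ⟨_, rfl⟩
  have hφ2 : φ2 ≠ 0 := by
    rw [h2]
    exact sub_ne_zero.mpr hl
  have hφ : (![φ0, φ1, φ2] : Fin 3 → K) ≠ 0 := by
    intro h3
    have h4 := congrFun h3 2
    exact hφ2 h4
  have hx' : (![1, -s', s] : Fin 3 → K) ≠ 0 := by
    intro h3
    have h4 := congrFun h3 0
    exact one_ne_zero h4
  have hdot : (![φ0, φ1, φ2] : Fin 3 → K) ⬝ᵥ ![1, -s', s] = ψ ⬝ᵥ x := by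
    have h5 : (![φ0, φ1, φ2] : Fin 3 → K) ⬝ᵥ ![1, -s', s] = φ0 - s' * φ1 + s * φ2 := by
      simp only [dotProduct, Fin.sum_univ_three, Matrix.cons_val_zero, Matrix.cons_val_one, Matrix.cons_val]
      ring
    have h6 : ψ ⬝ᵥ x = 1 / l ^ 2 - l := by
      field_simp
      linear_combination hd
    rw [h5, h6, h0]; ring
  obtain ⟨Q, hQ, hQ2⟩ := conj_rank1 hx' hφ hx hψ hdot
  have hQu : IsUnit Q.det := isUnit_iff_ne_zero.mpr hQ
  have h7 : M * Q = Q * (!![0, 0, 1; 1, 0, -s'; 0, 1, s] * !![l * s', l, 0; -(l * s), 0, l; l + φ0, φ1, φ2]) := by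
    rw [qc_mul, h, add_mul, mul_add, hQ2, Matrix.smul_mul, Matrix.mul_smul, one_mul, mul_one]
  refine ⟨Q * !![0, 0, 1; 1, 0, -s'; 0, 1, s] * Q⁻¹, Q * !![l * s', l, 0; -(l * s), 0, l; l + φ0, φ1, φ2] * Q⁻¹, ?_, ?_, ?_⟩
  · rw [qc_charpoly hQ, qc_C0]
  · rw [qc_charpoly hQ, qc_Z2 s s' hl0 h2 h1 h0]
  · calc M = M * Q * Q⁻¹ := by rw [Matrix.mul_assoc, Matrix.mul_nonsing_inv Q hQu, Matrix.mul_one]
      _ = Q * (!![0, 0, 1; 1, 0, -s'; 0, 1, s] * !![l * s', l, 0; -(l * s), 0, l; l + φ0, φ1, φ2]) * Q⁻¹ := by rw [h7]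
      _ = Q * !![0, 0, 1; 1, 0, -s'; 0, 1, s] * (Q⁻¹ * Q) * !![l * s', l, 0; -(l * s), 0, l; l + φ0, φ1, φ2] * Q⁻¹ := by
        rw [Matrix.nonsing_inv_mul Q hQu, Matrix.mul_one]
        simp only [Matrix.mul_assoc]
      _ = Q * !![0, 0, 1; 1, 0, -s'; 0, 1, s] * Q⁻¹ * (Q * !![l * s', l, 0; -(l * s), 0, l; l + φ0, φ1, φ2] * Q⁻¹) := by
        simp only [Matrix.mul_assoc]
-- END qc

-- BEGIN qd
omit [Field K] in
private theorem qd_avoid [Finite K] (hK : 4 ≤ Nat.card K) (u v w : K) : ∃ β : K, β ≠ u ∧ β ≠ v ∧ β ≠ w := by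
  classical
  have := Fintype.ofFinite K
  have h1 : ({u, v, w} : Finset K).card < (Finset.univ : Finset K).card := by
    rw [Finset.card_univ, ← Nat.card_eq_fintype_card]
    exact lt_of_le_of_lt Finset.card_le_three (by omega)
  obtain ⟨β, -, hβ⟩ := Finset.exists_mem_notMem_of_card_lt_card h1
  simp only [Finset.mem_insert, Finset.mem_singleton, not_or] at hβ
  exact ⟨β, hβ.1, hβ.2.1, hβ.2.2⟩

/-- MODULE qd. CHARACTERISTIC 2, at least 4 elements: there is `β ≠ 0`, `β ≠ t` with `(t + β)^3 ≠ β^3 + β^2 + 1`.  The difference is `f(β) = (t + 1) β^2 + t^2 β + t^3 + 1`.  `t = 1`: `f(β) = β`: any `β ≠ 0, 1`.  `t ≠ 1` and at least 8 elements: at most 2 zeros of `f` and `0`, `t` are excluded.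
Four elements, `t ≠ 1`: `t = 0`: `f(β) = β^2 + 1`, any `β ≠ 0, 1`; `t ≠ 0, 1`: `t^3 = 1`, `t + 1 = t^2`, `f(β) = t^2 β (β + 1)`, `β = t^2` (`≠ 0, 1, t`).  (A finite field of characteristic 2 has `2^k` elements: 4 or at least 8.) -/
theorem exists_beta [Finite K] (h2 : (2 : K) = 0) (hK : 4 ≤ Nat.card K) (t : K) : ∃ β : K, β ≠ 0 ∧ β ≠ t ∧ (t + β) ^ 3 ≠ β ^ 3 + β ^ 2 + 1 := by
  obtain ⟨β, h0, h1, ht⟩ := qd_avoid hK 0 1 t
  by_cases t0 : t = 0
  · refine ⟨β, h0, ht, fun h => h1 ?_⟩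
    subst t0
    have h3 : (β - 1) ^ 2 = 0 := by linear_combination -h + (1 - β) * h2 - h2
    exact sub_eq_zero.1 (pow_eq_zero_iff two_ne_zero |>.1 h3)
  by_cases t1 : t = 1
  · refine ⟨β, h0, ht, fun h => h0 ?_⟩
    subst t1
    linear_combination h - (β ^ 2 + β) * h2
  by_cases hq : 1 + t + t ^ 2 = 0
  · refine ⟨β, h0, ht, fun h => ?_⟩
    have h3 : t ^ 2 * (β * (β - 1)) = 0 := by
      linear_combination -h + (t - 1 + β ^ 2) * hq + (t ^ 2 * β + t * β ^ 2 - β ^ 2) * h2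
    rcases mul_eq_zero.1 h3 with h4 | h4
    · exact t0 (pow_eq_zero_iff two_ne_zero |>.1 h4)
    · rcases mul_eq_zero.1 h4 with h5 | h5
      · exact h0 h5
      · exact h1 (sub_eq_zero.1 h5)
  · refine ⟨1, one_ne_zero, fun h => t1 h.symm, fun h => ?_⟩
    have h3 : t * (1 + t + t ^ 2) = 0 := by linear_combination h - (t + t ^ 2 - 1) * h2
    rcases mul_eq_zero.1 h3 with h4 | h4
    · exact t0 h4
    · exact hq h4

/-- RESULT.  `trich`: scalar: excluded; `M = l + x ψ`: `fac_rank1` with `s = 1`, `s' = 0` (`1 ≠ l * 0`); cyclic: `fac_cyc` with `t = trace M`, `β` from `exists_beta`, `a = t + β`, `b = c = y`, `y^2 = (β^3 + β^2 + 1) / (t + β)` (squares in a finite field of characteristic 2); `a ≠ y`: otherwise `(t + β)^3 = β^3 + β^2 + 1`.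
`p3 1 0 = X^3 + X^2 + 1` in characteristic 2. -/
theorem px_two [Finite K] (h2 : (2 : K) = 0) (hK : 4 ≤ Nat.card K) (B : Matrix.SpecialLinearGroup (Fin 3) K) (hB : ∀ t : K, B.1 ≠ t • (1 : Matrix (Fin 3) (Fin 3) K)) :
    ∃ Y1 Y2 : Matrix (Fin 3) (Fin 3) K, Y1.charpoly = X ^ 3 + X ^ 2 + 1 ∧ Y2.charpoly = X ^ 3 + X ^ 2 + 1 ∧ B.1 = Y1 * Y2 := by
  have hp : p3 (1 : K) 0 = X ^ 3 + X ^ 2 + 1 := by
    have h3 : (2 : K[X]) = 0 := by
      have h4 := congrArg (C : K → K[X]) h2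
      rw [map_zero] at h4
      rw [← h4]
      rfl
    rw [p3, C_1, C_0]
    linear_combination -(X ^ 2 + 1) * h3
  rw [← hp]
  rcases trich B.1 with h | ⟨c, hc⟩ | ⟨l, x, ψ, hx, hψ, h⟩
  · obtain ⟨β, h0, ht, hβ⟩ := exists_beta h2 hK B.1.trace
    set t := B.1.trace with htd
    have ha : t + β ≠ 0 := by
      intro h4
      apply ht
      linear_combination -h4 + β * h2
    have hchar : ringChar K = 2 := CharP.ringChar_of_prime_eq_zero Nat.prime_two (by exact_mod_cast h2)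
    obtain ⟨y, hy⟩ := FiniteField.isSquare_of_char_two hchar ((β ^ 3 + β ^ 2 + 1) / (t + β))
    have hy' : (t + β) * (y * y) = β ^ 3 + β ^ 2 + 1 := by
      rw [← hy]
      field_simp
    refine fac_cyc 1 0 h0 (a := t + β) (b := y) (c := y) ?_ ?_ B.2 h ?_
    · intro h4
      apply hβ
      rw [← hy', ← h4]
      ring
    · linear_combination hy' + β ^ 3 * h2
    · linear_combination (y + β) * h2
  · exact absurd hc (hB c)
  · exact fac_rank1 1 0 B.2 hx hψ h (by rw [mul_zero]; exact one_ne_zero)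
-- END qd

end Pool.Agent.ThF
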