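import Pool.Agent.ThF.Tw

/-! # The filtration of the twisted unipotent radical (compare `Pool/Agent/ThK/Lev.lean`) -/

namespace Pool.Agent.ThF

open ThE ThK ThR

variable {K : Type*} [Field K] {G : Type*} [Group G] {x : Root 6 → K → G} {τ : K →+* K} {l : Vec 6 → ℤ}

/-- the filtration -/
def Uy (x : Root 6 → K → G) (τ : K →+* K) (l : Vec 6 → ℤ) (k : ℕ) : Subgroup G := Sy x τ fun r => (k : ℤ) ≤ l r.1

/-- `l` is invariant under the graph automorphism -/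
def Sgl (l : Vec 6 → ℤ) : Prop := ∀ r : Root 6, l (sg r.1) = l r.1

/-- `b` normalizes the filtration -/
def Nrm (x : Root 6 → K → G) (τ : K →+* K) (l : Vec 6 → ℤ) (b : G) : Prop :=
  ∀ k : ℕ, 1 ≤ k → ∀ g ∈ Uy x τ l k, b * g * b⁻¹ ∈ Uy x τ l k ∧ b⁻¹ * g * b ∈ Uy x τ l k

/-- `1 - b` is surjective on the section -/
def SurY (x : Root 6 → K → G) (τ : K →+* K) (l : Vec 6 → ℤ) (b : G) (k : ℕ) : Prop :=
  ∀ v ∈ Uy x τ l k, ∃ y ∈ Uy x τ l k, y⁻¹ * v * (b * y * b⁻¹) ∈ Uy x τ l (k + 1)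

-- BEGIN ba
/-- MODULE ba. (`Sy.mono`; `Sy.conj` with `p r = k ≤ l r`: `l (-s) = - l s ≤ 0 < k`; `Sy.conj_all`.)  `Uy.comm`: for `u = y_r(a)`, `1 ≤ l r`: by closure induction in `v` from `Sy.comm_gen` with `q t = k + 1 ≤ l t` (`[u, v v'] = [u, v] v [u, v'] v⁻¹`); then closure induction in `u`
(`[u u', v] = u [u', v] u⁻¹ [u, v]`; inverses: `[u⁻¹, v] = u⁻¹ [u, v]⁻¹ u`). -/
theorem Uy.anti (x : Root 6 → K → G) (τ : K →+* K) (l : Vec 6 → ℤ) {j k : ℕ} (h : j ≤ k) : Uy x τ l k ≤ Uy x τ l j :=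
  Sy.mono x τ fun _ hr => le_trans (Int.ofNat_le.2 h) hr

theorem Uy.top {k : ℕ} (hk : ∀ r : Root 6, l r.1 < k) : Uy x τ l k = ⊥ := by
  refine Subgroup.closure_eq_bot_iff.2 ?_
  rintro g ⟨r, a, hr, -, -⟩
  exact absurd hr (not_le.2 (hk r))

private theorem ba_sr (hs : Sgl l) (r : Root 6) : l (sr r).1 = l r.1 := hs r

private theorem ba_ne (hl : Addl l) {k : ℕ} (hk : 1 ≤ k) {r s : Root 6} (hr : 0 ≤ l r.1) (h : (k : ℤ) ≤ l s.1) : s ≠ -r := by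
  rintro rfl
  rw [neg_val, hl.neg] at h
  omega

theorem Uy.conj_root (h : Stb K 6 x) (hτ : ∀ a, τ (τ a) = a) (hl : Addl l) (hs : Sgl l) {k : ℕ} (hk : 1 ≤ k) {s : Root 6} (h0 : 0 ≤ l s.1) {a : K} (ha : Ok τ s a)
    {g : G} (hg : g ∈ Uy x τ l k) : yt x τ s a * g * (yt x τ s a)⁻¹ ∈ Uy x τ l k := by
  refine Sy.conj h hτ (p := fun r => (k : ℤ) ≤ l r.1) ?_ ?_ ?_ ?_ ha hg
  · intro t ht
    show (k : ℤ) ≤ l (sr t).1
    rw [ba_sr hs]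
    exact ht
  · intro t u v ht hu hv
    show (k : ℤ) ≤ l v.1
    rw [hv, hl]
    have h1 : (k : ℤ) ≤ l t.1 := ht
    have h2 : (k : ℤ) ≤ l u.1 := hu
    omega
  · intro t ht
    refine ⟨ba_ne hl hk h0 ht, ba_ne hl hk ?_ ht⟩
    rw [ba_sr hs]
    exact h0
  · intro t u ht hu
    show (k : ℤ) ≤ l u.1
    have h1 : (k : ℤ) ≤ l t.1 := ht
    rcases hu with hu | hu
    · rw [hu, hl]
      omega
    · rw [hu, hl, ba_sr hs]
      omega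

theorem Uy.conj_U (h : Stb K 6 x) (hτ : ∀ a, τ (τ a) = a) (hl : Addl l) (hs : Sgl l) {k : ℕ} (hk : 1 ≤ k) {u g : G} (hu : u ∈ Uy x τ l 1) (hg : g ∈ Uy x τ l k) :
    u * g * u⁻¹ ∈ Uy x τ l k := by
  refine Sy.conj_all h (q := fun r => ((1 : ℕ) : ℤ) ≤ l r.1) ?_ hu hg
  intro r hr a ha g hg
  have hr' : ((1 : ℕ) : ℤ) ≤ l r.1 := hr
  exact Uy.conj_root h hτ hl hs hk (by omega) ha hg

private theorem ba_comm_root (h : Stb K 6 x) (hτ : ∀ a, τ (τ a) = a) (hl : Addl l) (hs : Sgl l) {k : ℕ} (hk : 1 ≤ k) {r : Root 6} (hr : 1 ≤ l r.1) {a : K}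
    (ha : Ok τ r a) {v : G} (hv : v ∈ Uy x τ l k) : yt x τ r a * v * (yt x τ r a)⁻¹ * v⁻¹ ∈ Uy x τ l (k + 1) := by
  have hr0 : 0 ≤ l r.1 := by omega
  refine Subgroup.closure_induction (p := fun v _ => yt x τ r a * v * (yt x τ r a)⁻¹ * v⁻¹ ∈ Uy x τ l (k + 1)) ?_ ?_ ?_ ?_ hv
  · rintro v ⟨s, b, hks, hb, rfl⟩
    have hks' : (k : ℤ) ≤ l s.1 := hks
    refine Sy.comm_gen h hτ (ba_ne hl hk hr0 hks) (ba_ne hl hk (by rw [ba_sr hs]; exact hr0) hks) ?_ ?_ ha hb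
    · intro t ht
      show ((k + 1 : ℕ) : ℤ) ≤ l t.1
      rcases ht with ht | ht
      · rw [ht, hl]
        push_cast
        omega
      · rw [ht, hl, hs s]
        push_cast
        omega
    · intro t u ht hu
      show ((k + 1 : ℕ) : ℤ) ≤ l u.1
      rcases hu with hu | hu
      · rw [hu, hl, ht, hl, hs s]
        push_cast
        omega
      · rw [hu, hl, ht, hl, hs r]
        push_cast
        omega
  · rw [mul_one, mul_inv_cancel, inv_one, mul_one]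
    exact Subgroup.one_mem _
  · intro v w hv' _ hv1 hw1
    have e : yt x τ r a * (v * w) * (yt x τ r a)⁻¹ * (v * w)⁻¹ =
        (yt x τ r a * v * (yt x τ r a)⁻¹ * v⁻¹) * (v * (yt x τ r a * w * (yt x τ r a)⁻¹ * w⁻¹) * v⁻¹) := by group
    rw [e]
    exact Subgroup.mul_mem _ hv1 (Uy.conj_U h hτ hl hs (by omega) (Uy.anti x τ l hk hv') hw1)
  · intro v hv' hv1
    have e : yt x τ r a * v⁻¹ * (yt x τ r a)⁻¹ * (v⁻¹)⁻¹ =
        v⁻¹ * (yt x τ r a * v * (yt x τ r a)⁻¹ * v⁻¹)⁻¹ * (v⁻¹)⁻¹ := by group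
    rw [e]
    exact Uy.conj_U h hτ hl hs (by omega) (Subgroup.inv_mem _ (Uy.anti x τ l hk hv')) (Subgroup.inv_mem _ hv1)

theorem Uy.comm (h : Stb K 6 x) (hτ : ∀ a, τ (τ a) = a) (hl : Addl l) (hs : Sgl l) {k : ℕ} (hk : 1 ≤ k) {u v : G} (hu : u ∈ Uy x τ l 1) (hv : v ∈ Uy x τ l k) :
    u * v * u⁻¹ * v⁻¹ ∈ Uy x τ l (k + 1) := by
  refine Subgroup.closure_induction (p := fun u _ => u * v * u⁻¹ * v⁻¹ ∈ Uy x τ l (k + 1)) ?_ ?_ ?_ ?_ hu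
  · rintro u ⟨r, a, hr, ha, rfl⟩
    have hr' : ((1 : ℕ) : ℤ) ≤ l r.1 := hr
    exact ba_comm_root h hτ hl hs hk (by omega) ha hv
  · rw [one_mul, inv_one, mul_one, mul_inv_cancel]
    exact Subgroup.one_mem _
  · intro u w hu' _ hu1 hw1
    have e : u * w * v * (u * w)⁻¹ * v⁻¹ = (u * (w * v * w⁻¹ * v⁻¹) * u⁻¹) * (u * v * u⁻¹ * v⁻¹) := by group
    rw [e]
    exact Subgroup.mul_mem _ (Uy.conj_U h hτ hl hs (by omega) hu' hw1) hu1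
  · intro u hu' hu1
    have e : u⁻¹ * v * (u⁻¹)⁻¹ * v⁻¹ = u⁻¹ * (u * v * u⁻¹ * v⁻¹)⁻¹ * (u⁻¹)⁻¹ := by group
    rw [e]
    exact Uy.conj_U h hτ hl hs (by omega) (Subgroup.inv_mem _ hu') (Subgroup.inv_mem _ hu1)
-- END ba

-- BEGIN bb
/-- MODULE bb. `y_s(a)`, `l s = 0`, normalizes (`yt_inv`); `Nrm` is closed under products and inverses. -/
theorem Nrm.of_root (h : Stb K 6 x) (hτ : ∀ a, τ (τ a) = a) (hl : Addl l) (hs : Sgl l) {s : Root 6} (h0 : l s.1 = 0) {a : K} (ha : Ok τ s a) : Nrm x τ l (yt x τ s a) := by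
  intro k hk g hg
  refine ⟨Uy.conj_root h hτ hl hs hk h0.ge ha hg, ?_⟩
  have h1 := Uy.conj_root h hτ hl hs hk h0.ge (Ok.neg ha) hg
  rwa [← yt_inv h, inv_inv] at h1

theorem Nrm.one (x : Root 6 → K → G) (τ : K →+* K) (l : Vec 6 → ℤ) : Nrm x τ l 1 := by
  intro k _ g hg
  rw [one_mul, inv_one, mul_one, one_mul, mul_one]
  exact ⟨hg, hg⟩

theorem Nrm.mul {b c : G} (hb : Nrm x τ l b) (hc : Nrm x τ l c) : Nrm x τ l (b * c) := by
  intro k hk g hg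
  have e1 : b * c * g * (b * c)⁻¹ = b * (c * g * c⁻¹) * b⁻¹ := by group
  have e2 : (b * c)⁻¹ * g * (b * c) = c⁻¹ * (b⁻¹ * g * b) * c := by group
  rw [e1, e2]
  exact ⟨(hb k hk _ (hc k hk g hg).1).1, (hc k hk _ (hb k hk g hg).2).2⟩

theorem Nrm.inv {b : G} (hb : Nrm x τ l b) : Nrm x τ l b⁻¹ := by
  intro k hk g hg
  rw [inv_inv]
  exact ⟨(hb k hk g hg).2, (hb k hk g hg).1⟩

/-- For `v ∈ Uy k` apply `SurY` to `c⁻¹ v c` and conjugate the result with `c`. -/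
theorem SurY.conj {k : ℕ} (hk : 1 ≤ k) {b c : G} (hc : Nrm x τ l c) (hs : SurY x τ l b k) : SurY x τ l (c * b * c⁻¹) k := by
  intro v hv
  obtain ⟨y, hy, h1⟩ := hs _ (hc k hk v hv).2
  refine ⟨c * y * c⁻¹, (hc k hk y hy).1, ?_⟩
  have e1 : (c * y * c⁻¹)⁻¹ * v * (c * b * c⁻¹ * (c * y * c⁻¹) * (c * b * c⁻¹)⁻¹) =
      c * (y⁻¹ * (c⁻¹ * v * c) * (b * y * b⁻¹)) * c⁻¹ := by group
  rw [e1]
  exact (hc (k + 1) (Nat.le_add_left 1 k) _ h1).1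

/-- in the section, written additively: for all `v` there is `y` with `v = (1 - b) y`; so `v = (1 - b⁻¹) (- b y)`. (As `ThK.Sur.inv`, with `Uy.comm`, `Uy.conj_U`.) -/
theorem SurY.inv (h : Stb K 6 x) (hτ : ∀ a, τ (τ a) = a) (hl : Addl l) (hs : Sgl l) {k : ℕ} (hk : 1 ≤ k) {b : G} (hb : Nrm x τ l b) (hS : SurY x τ l b k) :
    SurY x τ l b⁻¹ k := by
  intro v hv
  obtain ⟨y, hy, h1⟩ := hS v hv
  have hw : b * y * b⁻¹ ∈ Uy x τ l k := (hb k hk y hy).1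
  refine ⟨(b * y * b⁻¹)⁻¹, (Uy x τ l k).inv_mem hw, ?_⟩
  have e1 : (b * y * b⁻¹)⁻¹⁻¹ * v * (b⁻¹ * (b * y * b⁻¹)⁻¹ * b⁻¹⁻¹) =
      ((b * y * b⁻¹ * y) * (y⁻¹ * v * (b * y * b⁻¹)) * (b * y * b⁻¹ * y)⁻¹) *
        (b * y * b⁻¹ * y * (b * y * b⁻¹)⁻¹ * y⁻¹) := by group
  rw [e1]
  have h2 : b * y * b⁻¹ * y ∈ Uy x τ l 1 := Uy.anti x τ l hk ((Uy x τ l k).mul_mem hw hy)
  exact (Uy x τ l (k + 1)).mul_mem (Uy.conj_U h hτ hl hs (Nat.le_add_left 1 k) h2 h1)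
    (Uy.comm h hτ hl hs hk (Uy.anti x τ l hk hw) hy)
-- END bb

-- BEGIN bc
private theorem bc_aux {m : ℕ} (hm : ∀ r : Root 6, l r.1 < m) {b : G} (hs : ∀ k, 1 ≤ k → SurY x τ l b k) :
    ∀ j k : ℕ, 1 ≤ k → m ≤ k + j → ∀ v ∈ Uy x τ l k, ∃ y ∈ Uy x τ l k, y⁻¹ * (v * b) * y = b := by
  intro j
  induction j with
  | zero =>
    intro k hk hmk v hv
    have h1 : Uy x τ l k = ⊥ := Uy.top fun r => lt_of_lt_of_le (hm r) (by exact_mod_cast hmk)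
    rw [h1, Subgroup.mem_bot] at hv
    exact ⟨1, one_mem _, by rw [hv]; simp⟩
  | succ j ih =>
    intro k hk hmk v hv
    obtain ⟨y, hy, hw⟩ := hs k hk v hv
    obtain ⟨y', hy', h2⟩ := ih (k + 1) (by omega) (by omega) _ hw
    refine ⟨y * y', mul_mem hy (Uy.anti x τ l (Nat.le_succ k) hy'), ?_⟩
    refine Eq.trans ?_ h2
    group

/-- MODULE bc. Copy of `ThK.conj_left`, `ThK.conj_right` (descending induction on `k`). -/
theorem conj_leftY {m : ℕ} (hm : ∀ r : Root 6, l r.1 < m) {b : G} (hs : ∀ k, 1 ≤ k → SurY x τ l b k) {v : G} (hv : v ∈ Uy x τ l 1) :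
    ∃ y ∈ Uy x τ l 1, y⁻¹ * (v * b) * y = b :=
  bc_aux hm hs m 1 le_rfl (by omega) v hv

theorem conj_rightY {m : ℕ} (hm : ∀ r : Root 6, l r.1 < m) {b : G} (hb : Nrm x τ l b) (hs : ∀ k, 1 ≤ k → SurY x τ l b k) {v : G} (hv : v ∈ Uy x τ l 1) :
    ∃ y ∈ Uy x τ l 1, y⁻¹ * (b * v) * y = b := by
  obtain ⟨y, hy, h⟩ := conj_leftY hm hs (hb 1 le_rfl v hv).1
  refine ⟨y, hy, ?_⟩
  have h1 : b * v * b⁻¹ * b = b * v := by group
  rw [h1] at h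
  exact h
-- END bc

-- BEGIN bd
private theorem bd_fix (r : Root 6) : sr (-r) = -r ↔ sr r = r := by
  rw [sr_neg]
  constructor
  · intro h
    apply Subtype.ext
    have h2 : -(sr r).1 = -r.1 := congrArg Subtype.val h
    exact neg_injective h2
  · intro h
    rw [h]

private theorem bd_ok (τ : K →+* K) (r : Root 6) (a : K) : Ok τ (-r) a ↔ Ok τ r a := by
  unfold Ok
  rw [bd_fix]

private theorem bd_nn (r : Root 6) : -(-r) = r := Subtype.ext (neg_neg r.1)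

/-- MODULE bd. The opposite system: `yt (op x) τ r a = yt x τ (-r) a` (`et_neg`, `sr_neg`), so `Sy (op x) τ p = Sy x τ (p ∘ neg)`. -/
theorem yt_op (x : Root 6 → K → G) (τ : K →+* K) (r : Root 6) (a : K) : yt (op x) τ r a = yt x τ (-r) a := by
  by_cases h : sr r = r
  · rw [yt_fix _ _ h, yt_fix _ _ ((bd_fix r).2 h)]
    rfl
  · rw [yt_mov _ _ h, yt_mov _ _ (fun h2 => h ((bd_fix r).1 h2))]
    show x (-r) a * x (-sr r) (et K r.1 * τ a) = x (-r) a * x (sr (-r)) (et K (-r.1) * τ a)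
    rw [sr_neg, et_neg]

theorem Sy_op (x : Root 6 → K → G) (τ : K →+* K) (p : Root 6 → Prop) : Sy (op x) τ p = Sy x τ fun r => p (-r) := by
  unfold Sy
  congr 1
  ext g
  constructor
  · rintro ⟨r, a, h1, h2, rfl⟩
    exact ⟨-r, a, by show p (-(-r)); rw [bd_nn]; exact h1, (bd_ok τ r a).2 h2, yt_op x τ r a⟩
  · rintro ⟨r, a, h1, h2, rfl⟩
    refine ⟨-r, a, h1, (bd_ok τ r a).2 h2, ?_⟩
    rw [yt_op, bd_nn]

/-- the section as a commutative group (as `ThK.Uk.quo`, row `lf`: the quotient of `Uy k` by the normal subgroup `(Uy (k + 1)).subgroupOf (Uy k)`, commutative by `Uy.comm`) -/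
theorem exists_piY.{u, w} {K : Type w} [Field K] {G : Type u} [Group G] {x : Root 6 → K → G} {τ : K →+* K} {l : Vec 6 → ℤ} (h : Stb K 6 x) (hτ : ∀ a, τ (τ a) = a) (hl : Addl l)
    (hs : Sgl l) {k : ℕ} (hk : 1 ≤ k) : ∃ (A : Type u) (_ : CommGroup A) (π : Uy x τ l k →* A), ∀ v, π v = 1 ↔ (v : G) ∈ Uy x τ l (k + 1) := by
  have hnor : ((Uy x τ l (k + 1)).subgroupOf (Uy x τ l k)).Normal := by
    constructor
    intro n hn g
    rw [Subgroup.mem_subgroupOf] at hn ⊢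
    exact Uy.conj_U h hτ hl hs (by omega) (Uy.anti x τ l hk g.2) hn
  have hcm : ∀ a b : Uy x τ l k ⧸ (Uy x τ l (k + 1)).subgroupOf (Uy x τ l k), a * b = b * a := by
    intro a b
    obtain ⟨a, rfl⟩ := QuotientGroup.mk_surjective a
    obtain ⟨b, rfl⟩ := QuotientGroup.mk_surjective b
    rw [← QuotientGroup.mk_mul, ← QuotientGroup.mk_mul, QuotientGroup.eq, Subgroup.mem_subgroupOf]
    have h1 := Uy.comm h hτ hl hs hk (u := ((b⁻¹ : Uy x τ l k) : G)) (v := ((a⁻¹ : Uy x τ l k) : G)) (Uy.anti x τ l hk (b⁻¹).2) (a⁻¹).2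
    have e : ((b⁻¹ : Uy x τ l k) : G) * ((a⁻¹ : Uy x τ l k) : G) * ((b⁻¹ : Uy x τ l k) : G)⁻¹ * ((a⁻¹ : Uy x τ l k) : G)⁻¹ =
        (((a * b)⁻¹ * (b * a) : Uy x τ l k) : G) := by
      push_cast
      group
    rwa [e] at h1
  let gq : CommGroup (Uy x τ l k ⧸ (Uy x τ l (k + 1)).subgroupOf (Uy x τ l k)) :=
    { (inferInstance : Group (Uy x τ l k ⧸ (Uy x τ l (k + 1)).subgroupOf (Uy x τ l k))) with mul_comm := hcm }
  refine ⟨Uy x τ l k ⧸ (Uy x τ l (k + 1)).subgroupOf (Uy x τ l k), gq,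
    QuotientGroup.mk' ((Uy x τ l (k + 1)).subgroupOf (Uy x τ l k)), ?_⟩
  intro g
  show (QuotientGroup.mk g : Uy x τ l k ⧸ (Uy x τ l (k + 1)).subgroupOf (Uy x τ l k)) = 1 ↔ _
  rw [QuotientGroup.eq_one_iff, Subgroup.mem_subgroupOf]
-- END bd

end Pool.Agent.ThF
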