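import Pool.Agent.ThF.Fit
import Pool.Agent.ThF.Cub

/-! # The final theorem for the twisted group and for `F_4` -/

namespace Pool.Agent.ThF

open ThE ThK ThR

variable {K : Type*} [Field K] {G : Type*} [Group G] {x : Root 6 → K → G} {τ : K →+* K}

theorem two_of_card [Finite K] (h : Nat.card K = 4 ∨ Nat.card K = 16) : (2 : K) = 0 := by
  haveI := Fintype.ofFinite K
  have h1 : ((Nat.card K : ℕ) : K) = 0 := by
    rw [Nat.card_eq_fintype_card]
    exact Nat.cast_card_eq_zero K
  rcases h with h | h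
  · rw [h] at h1
    have h2 : (2 : K) ^ 2 = 0 := by
      rw [← h1]
      norm_num
    exact pow_eq_zero_iff (two_ne_zero) |>.1 h2
  · rw [h] at h1
    have h2 : (2 : K) ^ 4 = 0 := by
      rw [← h1]
      norm_num
    exact pow_eq_zero_iff (by norm_num) |>.1 h2

/-- THE TWISTED GROUP modulo its centre is the square of a conjugacy class. -/
theorem twisted_main [Finite K] (h : Stb K 6 x) (hτ : ∀ a, τ (τ a) = a) (h3 : 3 ≤ Nat.card (Fx τ)) :
    ∃ g : Hh x τ ⧸ Subgroup.center (Hh x τ), ∀ z : Hh x τ ⧸ Subgroup.center (Hh x τ), ∃ a b, IsConj g a ∧ IsConj g b ∧ a * b = z :=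
  quot_good (good_all (fun hc => px_two (two_of_card hc) (by rcases hc with hc | hc <;> omega)) h hτ h3)

end Pool.Agent.ThF
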