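import Pool.Agent.ThPL.Main

/-! # Matrices of size 2 and 3: conjugacy in `SL_n`, products of two matrices with given characteristic polynomials -/

namespace Pool.Agent.ThF

open Polynomial Matrix

variable {K : Type*} [Field K] {L : Type*} [Field L] {n : ℕ}

-- BEGIN ma
private theorem ma_root {m : ℕ} (Z : Matrix (Fin m) (Fin m) L) {l : L} (h : Z.charpoly.IsRoot l) : (minpoly L Z).IsRoot l := by
  have h1 : l ∈ spectrum L Z := Matrix.mem_spectrum_iff_isRoot_charpoly.2 h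
  have h2 : l ∈ spectrum L (Matrix.toLin' Z) := by rwa [Matrix.spectrum_toLin']
  have h3 := Module.End.hasEigenvalue_iff_mem_spectrum.2 h2
  have h4 := Module.End.hasEigenvalue_iff_isRoot.1 h3
  rwa [Matrix.minpoly_toLin'] at h4

private theorem ma_ann (Z : Matrix (Fin n) (Fin n) K) (ι : K →+* L) :
    aeval (Z.map ι) ((minpoly K Z).map ι) = 0 := by
  have h0 : ι.mapMatrix (eval₂ (algebraMap K (Matrix (Fin n) (Fin n) K)) Z (minpoly K Z)) = 0 := by
    have : eval₂ (algebraMap K (Matrix (Fin n) (Fin n) K)) Z (minpoly K Z) = 0 := minpoly.aeval K Z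
    rw [this, map_zero]
  rw [Polynomial.hom_eval₂] at h0
  rw [Polynomial.aeval_def, Polynomial.eval₂_map]
  have h1 : (algebraMap L (Matrix (Fin n) (Fin n) L)).comp ι = (ι.mapMatrix).comp (algebraMap K (Matrix (Fin n) (Fin n) K)) := by
    ext a i j
    simp only [RingHom.comp_apply, RingHom.mapMatrix_apply, Matrix.map_apply, Matrix.algebraMap_matrix_apply, Algebra.algebraMap_self, RingHom.id_apply]
    split_ifs <;> simp
  rw [h1]
  exact h0

/-- MODULE ma. If the characteristic polynomial has `n` different roots in an extension field then it is the minimal polynomial.  Every `D i` is an eigenvalue of `Z.map ι` (`Matrix.charpoly_map`), so it is a root of `(minpoly K Z).map ι` (which annihilates `Z.map ι`); so `minpoly K Z` has degree `≥ n`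
(`Polynomial.card_roots'`, or `∏ (X - D i)` divides it: `Finset.prod_dvd_of_coprime`), it divides `Z.charpoly` (`Matrix.minpoly_dvd_charpoly`), both are monic. -/
theorem minpoly_sep (Z : Matrix (Fin n) (Fin n) K) (ι : K →+* L) {D : Fin n → L} (hD : Function.Injective D) (h : Z.charpoly.map ι = ∏ i, (X - C (D i))) :
    minpoly K Z = Z.charpoly := by
  have hc : (Z.map ι).charpoly = ∏ i, (X - C (D i)) := by
    rw [Matrix.charpoly_map, h]
  have hd : minpoly L (Z.map ι) ∣ (minpoly K Z).map ι := minpoly.dvd _ _ (ma_ann Z ι)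
  have hr : ∀ i, (X - C (D i)) ∣ (minpoly K Z).map ι := by
    intro i
    refine dvd_trans (Polynomial.dvd_iff_isRoot.2 (ma_root (Z.map ι) ?_)) hd
    rw [hc, ← Polynomial.dvd_iff_isRoot]
    exact Finset.dvd_prod_of_mem _ (Finset.mem_univ i)
  have hp : Z.charpoly.map ι ∣ (minpoly K Z).map ι := by
    rw [h]
    exact Finset.prod_dvd_of_coprime (fun i _ j _ hij => Polynomial.pairwise_coprime_X_sub_C hD hij) (fun i _ => hr i)
  have hmm : (minpoly K Z).Monic := minpoly.monic (Matrix.isIntegral Z)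
  have hcm : Z.charpoly.Monic := Matrix.charpoly_monic Z
  have hle : Z.charpoly.natDegree ≤ (minpoly K Z).natDegree := by
    have h1 := Polynomial.natDegree_le_of_dvd hp ((hmm.map ι).ne_zero)
    rwa [Polynomial.natDegree_map, Polynomial.natDegree_map] at h1
  exact (Polynomial.eq_of_monic_of_dvd_of_natDegree_le hmm hcm (Matrix.minpoly_dvd_charpoly Z) hle).symm
-- END ma

-- BEGIN mb
/-- MODULE mb. `ThPL.mg_ex` for `Z` and `Z'`, as in `ThPL.conj_GL`. -/
theorem conj_GLm (Z Z' : Matrix (Fin n) (Fin n) K) (h1 : minpoly K Z = Z.charpoly) (h2 : minpoly K Z' = Z'.charpoly) (h : Z.charpoly = Z'.charpoly) :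
    ∃ P : Matrix (Fin n) (Fin n) K, P.det ≠ 0 ∧ Z' * P = P * Z := by
  obtain ⟨A, hA, hA1⟩ := ThPL.mg_ex Z h1
  obtain ⟨B, hB, hB1⟩ := ThPL.mg_ex Z' h2
  rw [← h] at hB1
  have hu : IsUnit A.det := isUnit_iff_ne_zero.mpr hA
  refine ⟨B * A⁻¹, ?_, ?_⟩
  · rw [Matrix.det_mul]
    refine mul_ne_zero hB ?_
    intro h0
    have := congrArg Matrix.det (Matrix.mul_nonsing_inv A hu)
    rw [Matrix.det_mul, h0, mul_zero, Matrix.det_one] at this
    exact zero_ne_one this
  · have h3 : A⁻¹ * Z = ThPL.mg_cmp n Z.charpoly * A⁻¹ := by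
      calc A⁻¹ * Z = A⁻¹ * (Z * (A * A⁻¹)) := by rw [Matrix.mul_nonsing_inv A hu, Matrix.mul_one]
        _ = A⁻¹ * ((Z * A) * A⁻¹) := by rw [Matrix.mul_assoc]
        _ = (A⁻¹ * A) * (ThPL.mg_cmp n Z.charpoly * A⁻¹) := by rw [hA1, Matrix.mul_assoc, Matrix.mul_assoc]
        _ = ThPL.mg_cmp n Z.charpoly * A⁻¹ := by rw [Matrix.nonsing_inv_mul A hu, Matrix.one_mul]
    rw [Matrix.mul_assoc, h3, ← Matrix.mul_assoc, ← Matrix.mul_assoc, hB1]

/-- the centraliser of `Z` has elements of every determinant `≠ 0` -/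
def CD (Z : Matrix (Fin n) (Fin n) K) : Prop := ∀ c : K, c ≠ 0 → ∃ D : Matrix (Fin n) (Fin n) K, D.det = c ∧ Z * D = D * Z

/-- as in `ThPL.conj_SL` -/
theorem conj_SLm {Z Z' : Matrix (Fin n) (Fin n) K} (h1 : minpoly K Z = Z.charpoly) (h2 : minpoly K Z' = Z'.charpoly) (h : Z.charpoly = Z'.charpoly) (hc : CD Z) :
    ∃ P : SpecialLinearGroup (Fin n) K, Z' = P.1 * Z * (P⁻¹).1 := by
  obtain ⟨P, hP0, hP⟩ := conj_GLm Z Z' h1 h2 h
  obtain ⟨D, hD, hwD⟩ := hc (P.det)⁻¹ (inv_ne_zero hP0)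
  have hdet : (P * D).det = 1 := by
    rw [Matrix.det_mul, hD, mul_inv_cancel₀ hP0]
  let Q : SpecialLinearGroup (Fin n) K := ⟨P * D, hdet⟩
  refine ⟨Q, ?_⟩
  have h1' : Z' * Q.1 = Q.1 * Z := by
    have h2' : Q.1 = P * D := rfl
    rw [h2', ← Matrix.mul_assoc, hP, Matrix.mul_assoc, hwD, ← Matrix.mul_assoc]
  have h3 : Q.1 * (Q⁻¹).1 = 1 := by
    have h4 : (Q * Q⁻¹).1 = (1 : SpecialLinearGroup (Fin n) K).1 := by
      rw [mul_inv_cancel]
    exact h4
  rw [← h1', Matrix.mul_assoc, h3, Matrix.mul_one]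
-- END mb

-- BEGIN mc
/-- MODULE mc. As `ThPL.cent_det` (block matrix `fromBlocks l 0 0 (cpm f)`); the block matrix has the minimal polynomial `(X - l) f` by `minpoly_sep`, `Z` also; `conj_GLm`. -/
theorem cd_root (Z : Matrix (Fin n) (Fin n) K) {f : K[X]} {l : K} (hm : f.Monic) (h : Z.charpoly = (X - C l) * f) (ι : K →+* L) {D : Fin n → L} (hD : Function.Injective D)
    (h2 : Z.charpoly.map ι = ∏ i, (X - C (D i))) : CD Z := by
  classical
  intro c _
  have hn : n = 1 + f.natDegree := by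
    have h1 := congrArg natDegree h
    rw [Matrix.charpoly_natDegree_eq_dim, (monic_X_sub_C l).natDegree_mul hm, natDegree_X_sub_C, Fintype.card_fin] at h1
    exact h1
  let e : Unit ⊕ Fin f.natDegree ≃ Fin n := Fintype.equivOfCardEq (by simp [hn])
  let Z0 : Matrix (Unit ⊕ Fin f.natDegree) (Unit ⊕ Fin f.natDegree) K := fromBlocks (l • (1 : Matrix Unit Unit K)) 0 0 (ThPL.cpm f.natDegree f)
  let D0 : Matrix (Unit ⊕ Fin f.natDegree) (Unit ⊕ Fin f.natDegree) K := fromBlocks (c • (1 : Matrix Unit Unit K)) 0 0 1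
  have hcomm : Z0 * D0 = D0 * Z0 := by
    have h5 : (l • (1 : Matrix Unit Unit K)) * (c • 1) = (c • 1) * (l • (1 : Matrix Unit Unit K)) := by
      rw [smul_mul_smul_comm, smul_mul_smul_comm, mul_comm l c]
    simp only [Z0, D0, fromBlocks_multiply, h5]
    simp
  have hdet0 : D0.det = c := by
    simp [D0]
  have hch0 : Z0.charpoly = (X - C l) * f := by
    have h2 : (l • (1 : Matrix Unit Unit K)).charpoly = X - C l := by
      simp [Matrix.charpoly, Matrix.charmatrix, Matrix.det_unique]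
    have h3 : Z0.charpoly = (l • (1 : Matrix Unit Unit K)).charpoly * (ThPL.cpm f.natDegree f).charpoly :=
      Matrix.charpoly_fromBlocks_zero₂₁ _ _ _
    rw [h3, h2, ThPL.cpm_charpoly hm rfl]
  have hch : (reindex e e Z0).charpoly = Z.charpoly := by
    rw [Matrix.charpoly_reindex, hch0, h]
  obtain ⟨P, hP, hZP⟩ := conj_GLm (reindex e e Z0) Z (minpoly_sep (reindex e e Z0) ι hD (by rw [hch]; exact h2)) (minpoly_sep Z ι hD h2) hch
  have hPu : IsUnit P.det := isUnit_iff_ne_zero.mpr hP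
  have hcomm' : reindex e e Z0 * reindex e e D0 = reindex e e D0 * reindex e e Z0 := by
    simp only [reindex_apply, submatrix_mul_equiv]
    rw [hcomm]
  have hZ : Z = P * reindex e e Z0 * P⁻¹ := by
    rw [← hZP, Matrix.mul_assoc, Matrix.mul_nonsing_inv _ hPu, Matrix.mul_one]
  refine ⟨P * reindex e e D0 * P⁻¹, ?_, ?_⟩
  · rw [det_mul, det_mul, mul_right_comm, ← det_mul, Matrix.mul_nonsing_inv _ hPu, det_one, one_mul, det_reindex_self, hdet0]
  · have hl : Z * (P * reindex e e D0 * P⁻¹) = P * (reindex e e Z0 * reindex e e D0) * P⁻¹ := by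
      rw [← Matrix.mul_assoc, ← Matrix.mul_assoc, hZP]
      simp only [Matrix.mul_assoc]
    have hr : (P * reindex e e D0 * P⁻¹) * Z = P * (reindex e e D0 * reindex e e Z0) * P⁻¹ := by
      have h4 : P⁻¹ * Z = reindex e e Z0 * P⁻¹ := by
        rw [hZ, ← Matrix.mul_assoc, ← Matrix.mul_assoc, Matrix.nonsing_inv_mul _ hPu, Matrix.one_mul]
      rw [Matrix.mul_assoc, h4]
      simp only [Matrix.mul_assoc]
    rw [hl, hr, hcomm']
-- END mc

-- BEGIN md
private theorem md_aux {E : Type*} [Field E] [Algebra K E] [Finite E] (Z : Matrix (Fin n) (Fin n) K) (h : Irreducible Z.charpoly) (pb : PowerBasis K E) (hdim : pb.dim = n)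
    (hroot : minpoly K pb.gen = Z.charpoly) (c : K) : ∃ D : Matrix (Fin n) (Fin n) K, D.det = c ∧ Z * D = D * Z := by
  have hne : Nonempty (Fin n) := by
    by_contra hh
    rw [not_nonempty_iff] at hh
    exact h.not_isUnit (by rw [Matrix.charpoly_isEmpty]; exact isUnit_one)
  have hmin : minpoly K Z = Z.charpoly :=
    (minpoly.eq_of_irreducible_of_monic h (Matrix.aeval_self_charpoly Z) (Matrix.charpoly_monic Z)).symm
  obtain ⟨Z0, M, hcp, hM, hcomm⟩ : ∃ Z0 M : Matrix (Fin n) (Fin n) K, Z0.charpoly = Z.charpoly ∧ M.det = c ∧ Z0 * M = M * Z0 := by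
    obtain ⟨u, hu⟩ := FiniteField.norm_surjective K E c
    refine ⟨Algebra.leftMulMatrix (pb.basis.reindex (finCongr hdim)) pb.gen, Algebra.leftMulMatrix (pb.basis.reindex (finCongr hdim)) u, ?_, ?_, ?_⟩
    · rw [Algebra.leftMulMatrix_apply, LinearMap.charpoly_toMatrix, ← LinearMap.charpoly_toMatrix _ pb.basis, ← Algebra.leftMulMatrix_apply]
      exact (charpoly_leftMulMatrix pb).trans hroot
    · rw [← hu, Algebra.norm_eq_matrix_det (pb.basis.reindex (finCongr hdim))]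
    · rw [← map_mul, ← map_mul, mul_comm]
  have hirr : Irreducible Z0.charpoly := by
    rw [hcp]
    exact h
  have hmin0 : minpoly K Z0 = Z0.charpoly :=
    (minpoly.eq_of_irreducible_of_monic hirr (Matrix.aeval_self_charpoly Z0) (Matrix.charpoly_monic Z0)).symm
  obtain ⟨P, hP, hPZ⟩ := conj_GLm Z0 Z hmin0 hmin hcp
  have hPu : IsUnit P.det := isUnit_iff_ne_zero.mpr hP
  have h1 := Matrix.mul_nonsing_inv P hPu
  have h2 := Matrix.nonsing_inv_mul P hPu
  have h3 : Z0 * P⁻¹ = P⁻¹ * Z := by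
    calc Z0 * P⁻¹ = (P⁻¹ * P) * Z0 * P⁻¹ := by rw [h2, Matrix.one_mul]
      _ = P⁻¹ * (P * Z0) * P⁻¹ := by simp only [Matrix.mul_assoc]
      _ = P⁻¹ * Z * (P * P⁻¹) := by rw [← hPZ]; simp only [Matrix.mul_assoc]
      _ = P⁻¹ * Z := by rw [h1, Matrix.mul_one]
  refine ⟨P * M * P⁻¹, ?_, ?_⟩
  · rw [Matrix.det_mul, Matrix.det_mul, hM, mul_comm P.det c, mul_assoc, ← Matrix.det_mul, h1, Matrix.det_one, mul_one]
  · calc Z * (P * M * P⁻¹) = Z * P * M * P⁻¹ := by simp only [Matrix.mul_assoc]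
      _ = P * (Z0 * M) * P⁻¹ := by rw [hPZ]; simp only [Matrix.mul_assoc]
      _ = P * M * (Z0 * P⁻¹) := by rw [hcomm]; simp only [Matrix.mul_assoc]
      _ = P * M * P⁻¹ * Z := by rw [h3]; simp only [Matrix.mul_assoc]

/-- MODULE md. `χ = Z.charpoly` irreducible, `K` finite: `minpoly K Z = χ` (it is a monic divisor, not `1`).  `E = AdjoinRoot χ`, a finite field, `AdjoinRoot.powerBasis`; `Z0 = Algebra.leftMulMatrix pb.basis (root χ)` has `charpoly_leftMulMatrix`: characteristic polynomial `minpoly K root = χ` (dimension `n`; reindex the basis to `Fin n`).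
`c = Algebra.norm K u` (`FiniteField.norm_surjective`, Mathlib.FieldTheory.Finite.GaloisField) `= det (leftMulMatrix u)`; `leftMulMatrix u` commutes with `Z0`.  Transport to `Z` by `conj_GLm`. -/
theorem cd_irr [Finite K] (Z : Matrix (Fin n) (Fin n) K) (h : Irreducible Z.charpoly) : CD Z := by
  intro c _
  have hne : Nonempty (Fin n) := by
    by_contra hh
    rw [not_nonempty_iff] at hh
    exact h.not_isUnit (by rw [Matrix.charpoly_isEmpty]; exact isUnit_one)
  have hmon := Matrix.charpoly_monic Z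
  have hdim : (Z.charpoly).natDegree = n := by rw [Matrix.charpoly_natDegree_eq_dim, Fintype.card_fin]
  have hFact : Fact (Irreducible Z.charpoly) := ⟨h⟩
  have hfin : Module.Finite K (AdjoinRoot Z.charpoly) := hmon.finite_adjoinRoot
  have hfin' : Finite (AdjoinRoot Z.charpoly) := Module.finite_of_finite K
  have hroot : minpoly K (AdjoinRoot.root Z.charpoly) = Z.charpoly := by
    rw [AdjoinRoot.minpoly_root h.ne_zero, hmon.leadingCoeff, inv_one, C_1, mul_one]
  exact md_aux Z h (AdjoinRoot.powerBasis h.ne_zero) hdim hroot c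

/-- `D = d • 1`, `d ^ 3 = c`: the Frobenius of a finite field of characteristic `3` is surjective -/
theorem cd_three [Finite K] (h3 : (3 : K) = 0) (Z : Matrix (Fin 3) (Fin 3) K) : CD Z := by
  intro c _
  have hinj : Function.Injective fun x : K => x ^ 3 := by
    intro x y hxy
    have hxy' : x ^ 3 = y ^ 3 := hxy
    have e : (x - y) ^ 3 = 0 := by linear_combination hxy' + (-(x ^ 2 * y) + x * y ^ 2) * h3
    exact sub_eq_zero.mp ((pow_eq_zero_iff three_ne_zero).mp e)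
  obtain ⟨d, hd⟩ := Finite.surjective_of_injective hinj c
  refine ⟨d • (1 : Matrix (Fin 3) (Fin 3) K), ?_, ?_⟩
  · rw [Matrix.det_smul, Matrix.det_one, mul_one, Fintype.card_fin]
    exact hd
  · rw [Matrix.mul_smul, Matrix.smul_mul, Matrix.mul_one, Matrix.one_mul]
-- END md

-- BEGIN me
/-- MODULE me. DIAGONALISATION with `P ∈ SL` (as row `eg` of ThR, `exists_diag`): eigenvectors `x_i`, linearly independent, scale one of them. -/
theorem exists_diagM (Z : Matrix (Fin (n + 1)) (Fin (n + 1)) L) {D : Fin (n + 1) → L} (hD : Function.Injective D) (h : Z.charpoly = ∏ i, (X - C (D i))) :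
    ∃ P : SpecialLinearGroup (Fin (n + 1)) L, Z = P.1 * Matrix.diagonal D * (P⁻¹).1 := by
  have hx : ∀ i, ∃ v : Fin (n + 1) → L, v ≠ 0 ∧ Z.mulVec v = D i • v := by
    intro i
    have h1 : (Matrix.scalar (Fin (n + 1)) (D i) - Z).det = 0 := by
      rw [← Matrix.eval_charpoly, h, Polynomial.eval_prod]
      exact Finset.prod_eq_zero (Finset.mem_univ i) (by simp)
    obtain ⟨v, hv, h2⟩ := Matrix.exists_mulVec_eq_zero_iff.mpr h1
    refine ⟨v, hv, ?_⟩
    rw [Matrix.sub_mulVec, sub_eq_zero] at h2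
    rw [← h2, Matrix.scalar_apply]
    funext j
    rw [Matrix.mulVec_diagonal, Pi.smul_apply, smul_eq_mul]
  choose x hx0 hx using hx
  have hli : LinearIndependent L x := by
    refine Module.End.eigenvectors_linearIndependent' (Matrix.toLin' Z) D hD x fun i => ?_
    rw [Module.End.hasEigenvector_iff]
    refine ⟨?_, hx0 i⟩
    rw [Module.End.mem_eigenspace_iff, Matrix.toLin'_apply]
    exact hx i
  let P : Matrix (Fin (n + 1)) (Fin (n + 1)) L := Matrix.of fun a i => x i a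
  have hP : IsUnit P := by
    rw [← Matrix.linearIndependent_cols_iff_isUnit]
    exact hli
  have hPd : P.det ≠ 0 := ((Matrix.isUnit_iff_isUnit_det P).mp hP).ne_zero
  have hZP : Z * P = P * Matrix.diagonal D := by
    ext a i
    rw [Matrix.mul_diagonal, Matrix.mul_apply]
    have h3 := congrFun (hx i) a
    rw [Matrix.mulVec, Pi.smul_apply, smul_eq_mul] at h3
    change (∑ j, Z a j * x i j) = x i a * D i
    rw [mul_comm (x i a)]
    exact h3
  let E : Matrix (Fin (n + 1)) (Fin (n + 1)) L := Matrix.diagonal fun i => if i = 0 then (P.det)⁻¹ else 1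
  have hdet : (P * E).det = 1 := by
    rw [Matrix.det_mul, Matrix.det_diagonal, Finset.prod_ite_eq' Finset.univ (0 : Fin (n + 1)) fun _ => (P.det)⁻¹]
    rw [if_pos (Finset.mem_univ _), mul_inv_cancel₀ hPd]
  let g : SpecialLinearGroup (Fin (n + 1)) L := ⟨P * E, hdet⟩
  have h5 : Z * g.1 = g.1 * Matrix.diagonal D := by
    change Z * (P * E) = P * E * Matrix.diagonal D
    rw [← Matrix.mul_assoc, hZP, Matrix.mul_assoc, Matrix.mul_assoc, Matrix.diagonal_mul_diagonal, Matrix.diagonal_mul_diagonal]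
    congr 2
    funext i
    rw [mul_comm]
  have h6 : g.1 * (g⁻¹).1 = 1 := congrArg Subtype.val (mul_inv_cancel g)
  refine ⟨g, ?_⟩
  rw [← h5, Matrix.mul_assoc, h6, Matrix.mul_one]
-- END me

/-- the polynomial `X^2 - s X - 1` -/
noncomputable def p2 (s : K) : K[X] := X ^ 2 - C s * X - 1

-- BEGIN mf
/-- MODULE mf. `Matrix.charpoly_fin_two` or so (`Z.charpoly = X^2 - C Z.trace * X + C Z.det`). -/
theorem p2_iff (Z : Matrix (Fin 2) (Fin 2) K) (s : K) : Z.charpoly = p2 s ↔ Z.trace = s ∧ Z.det = -1 := by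
  rw [Matrix.charpoly_fin_two, p2]
  constructor
  · intro h
    have h0 := congrArg (fun p : K[X] => p.eval 0) h
    have h1 := congrArg (fun p : K[X] => p.eval 1) h
    simp only [eval_add, eval_sub, eval_pow, eval_X, eval_mul, eval_C, eval_one] at h0 h1
    have h2 : Z.det = -1 := by linear_combination h0
    refine ⟨?_, h2⟩
    rw [h2] at h1
    linear_combination -h1
  · rintro ⟨h1, h2⟩
    rw [h1, h2, C_neg, C_1]
    ring

/-- for the transpose and the inverse: `Z⁻¹ = Z - s` (`Z (Z - s) = 1`) has trace `- s` and determinant `-1`; conjugation by a diagonal matrix of signs does not change trace and determinant -/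
theorem p2_inv {Z : Matrix (Fin 2) (Fin 2) K} {s : K} (h : Z.charpoly = p2 s) : (Z⁻¹).charpoly = p2 (-s) := by
  rw [p2_iff] at h ⊢
  obtain ⟨h1, h2⟩ := h
  have h3 : Z⁻¹ = !![-Z 1 1, Z 0 1; Z 1 0, -Z 0 0] := by
    apply Matrix.inv_eq_right_inv
    rw [Matrix.det_fin_two] at h2
    ext i j
    fin_cases i <;> fin_cases j <;> simp [Matrix.mul_apply, Fin.sum_univ_two]
    · linear_combination -h2
    · ring
    · ring
    · linear_combination -h2
  rw [Matrix.trace_fin_two] at h1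
  rw [Matrix.det_fin_two] at h2
  rw [h3, Matrix.trace_fin_two, Matrix.det_fin_two]
  simp only [Matrix.of_apply, Matrix.cons_val_zero, Matrix.cons_val_one, Matrix.cons_val', Matrix.cons_val_fin_one]
  constructor
  · linear_combination -h1
  · linear_combination h2

/-- SCALAR `A`: `A = ε`, `ε = ± 1`.  `Z1 = [[0, 1], [1, s]]`, `Z2 = ε (Z1 - s)`, `Z1 (Z1 - s) = 1`; trace `- ε s`, `e = - ε`. -/
theorem prod2_scalar (s : K) {A : Matrix (Fin 2) (Fin 2) K} (hA : A.det = 1) {c : K} (hc : A = c • (1 : Matrix (Fin 2) (Fin 2) K)) :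
    ∃ (e : K) (Z1 Z2 : Matrix (Fin 2) (Fin 2) K), (e = 1 ∨ e = -1) ∧ Z1.charpoly = p2 s ∧ Z2.charpoly = p2 (e * s) ∧ A = Z1 * Z2 := by
  have h1 : c * c = 1 := by
    rw [hc, Matrix.det_fin_two] at hA
    simpa using hA
  have h2 : c = 1 ∨ c = -1 := mul_self_eq_one_iff.1 h1
  refine ⟨-c, !![0, 1; 1, s], !![-(c * s), c; c, 0], ?_, ?_, ?_, ?_⟩
  · rcases h2 with h2 | h2
    · right; rw [h2]
    · left; rw [h2, neg_neg]
  · rw [p2_iff, Matrix.trace_fin_two, Matrix.det_fin_two]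
    simp
  · rw [p2_iff, Matrix.trace_fin_two, Matrix.det_fin_two]
    simp [h1]
  · rw [hc]
    ext i j
    fin_cases i <;> fin_cases j <;> simp [Matrix.mul_apply, Fin.sum_univ_two, mul_comm]

private theorem mf_conj {P Z : Matrix (Fin 2) (Fin 2) K} (hP : P.det ≠ 0) {s : K} (h : Z.charpoly = p2 s) : (P * Z * P⁻¹).charpoly = p2 s := by
  have hu : IsUnit P.det := isUnit_iff_ne_zero.2 hP
  rw [p2_iff] at h ⊢
  constructor
  · rw [Matrix.trace_mul_comm, ← Matrix.mul_assoc, Matrix.nonsing_inv_mul P hu, Matrix.one_mul, h.1]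
  · rw [Matrix.det_mul, Matrix.det_mul, mul_comm P.det, mul_assoc, ← Matrix.det_mul, Matrix.mul_nonsing_inv P hu, Matrix.det_one, mul_one, h.2]

private theorem mf_cyc {A : Matrix (Fin 2) (Fin 2) K} (hA : A.det = 1) (hc : ∀ c : K, A ≠ c • (1 : Matrix (Fin 2) (Fin 2) K)) :
    ∃ P : Matrix (Fin 2) (Fin 2) K, P.det ≠ 0 ∧ A * P = P * !![0, -1; 1, A.trace] := by
  have key : ∃ v w : K, v * (A 1 0 * v + A 1 1 * w) - (A 0 0 * v + A 0 1 * w) * w ≠ 0 := by
    by_contra hcon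
    push Not at hcon
    have h1 := hcon 1 0
    have h2 := hcon 0 1
    have h3 := hcon 1 1
    refine hc (A 0 0) ?_
    ext i j
    fin_cases i <;> fin_cases j
    · simp
    · simp
      linear_combination -h2
    · simp
      linear_combination h1
    · simp
      linear_combination h3 - h1 - h2
  obtain ⟨v, w, h⟩ := key
  refine ⟨!![v, A 0 0 * v + A 0 1 * w; w, A 1 0 * v + A 1 1 * w], ?_, ?_⟩
  · rw [Matrix.det_fin_two]
    simpa using h
  · rw [Matrix.det_fin_two] at hA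
    rw [Matrix.trace_fin_two]
    ext i j
    fin_cases i <;> fin_cases j <;> simp [Matrix.mul_apply, Fin.sum_univ_two]
    · linear_combination (-v) * hA
    · linear_combination (-w) * hA

/-- `A` NOT SCALAR: `A` is conjugate in `GL_2` to `[[0, -1], [1, t]]`, `t = tr A` (basis `v, A v`; one of `e_0, e_1, e_0 + e_1` is not an eigenvector; or `conj_GLm`).  `Z1 = [[x, b], [c, s - x]]`, `Z2 = Z1⁻¹ A = - [[s - x, -b], [-c, x]] A` has trace `b - c - x t` and determinant `-1`.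
So it is enough to solve `c = b - x t - e s` and `x (s - x) - b c = -1`, i.e. `b^2 - (x t + e s) b + x^2 - s x - 1 = 0`. -/
theorem prod2_of (s : K) {A : Matrix (Fin 2) (Fin 2) K} (hA : A.det = 1) (hc : ∀ c : K, A ≠ c • (1 : Matrix (Fin 2) (Fin 2) K)) {e : K} (x b : K)
    (h : b * b - (x * A.trace + e * s) * b + x * x - s * x - 1 = 0) :
    ∃ Z1 Z2 : Matrix (Fin 2) (Fin 2) K, Z1.charpoly = p2 s ∧ Z2.charpoly = p2 (e * s) ∧ A = Z1 * Z2 := by
  obtain ⟨P, hP, h1⟩ := mf_cyc hA hc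
  have hu : IsUnit P.det := isUnit_iff_ne_zero.2 hP
  generalize A.trace = t at h h1
  have h2 : (!![x, b; b - x * t - e * s, s - x] : Matrix (Fin 2) (Fin 2) K).charpoly = p2 s := by
    rw [p2_iff, Matrix.trace_fin_two, Matrix.det_fin_two]
    constructor
    · simp
    · simp
      linear_combination -h
  have h3 : (!![b, s - x + b * t; -x, -(b - x * t - e * s) - x * t] : Matrix (Fin 2) (Fin 2) K).charpoly = p2 (e * s) := by
    rw [p2_iff, Matrix.trace_fin_two, Matrix.det_fin_two]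
    constructor
    · simp
      ring
    · simp
      linear_combination -h
  have h4 : (!![0, -1; 1, t] : Matrix (Fin 2) (Fin 2) K) = !![x, b; b - x * t - e * s, s - x] * !![b, s - x + b * t; -x, -(b - x * t - e * s) - x * t] := by
    ext i j
    fin_cases i <;> fin_cases j <;> simp [Matrix.mul_apply, Fin.sum_univ_two]
    · ring
    · linear_combination h
    · linear_combination -h
    · linear_combination (-t) * h
  refine ⟨_, _, mf_conj hP h2, mf_conj hP h3, ?_⟩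
  have h5 : A = P * !![0, -1; 1, t] * P⁻¹ := by
    rw [← h1, Matrix.mul_assoc, Matrix.mul_nonsing_inv P hu, Matrix.mul_one]
  rw [h5, h4]
  simp only [Matrix.mul_assoc]
  rw [← Matrix.mul_assoc P⁻¹ P, Matrix.nonsing_inv_mul P hu, Matrix.one_mul]
-- END mf

-- BEGIN mg
/-- MODULE mg. `K` finite. CHARACTERISTIC 2, `e = 1`: `t ≠ 0`: `x = s / t`, so `x t + s = 0` and `b^2 = - (x^2 - s x - 1)` has a solution (Frobenius); `t = 0`: `x = 0`, `b^2 - s b - 1 = 0`, `b = r`.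
ODD: the discriminant in `b` is `Δ(x) = (x t + e s)^2 - 4 (x^2 - s x - 1) = (t^2 - 4) x^2 + (2 e s t + 4 s) x + s^2 + 4`; it is enough that it is a square `w^2` for some `x`, then `b = (x t + e s + w) / 2`.  `t^2 ≠ 4` (`e = 1`): `FiniteField.exists_root_sum_quadratic` for `Δ` and `- X^2`.
`t^2 = 4`: `t = 2 ε`, `ε = ± 1`, take `e = ε`: `Δ` is linear with the coefficient `2 s (e t + 2) = 8 s ≠ 0`, `Δ(x) = 0` has a solution, `w = 0`. -/
theorem solve2 [Finite K] {s : K} (hs : s ≠ 0) (h2 : (2 : K) = 0 → ∃ r : K, r * r - s * r - 1 = 0) (t : K) :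
    ∃ e x b : K, (e = 1 ∨ e = -1) ∧ b * b - (x * t + e * s) * b + x * x - s * x - 1 = 0 := by
  have := Fintype.ofFinite K
  by_cases h20 : (2 : K) = 0
  · by_cases ht : t = 0
    · obtain ⟨r, hr⟩ := h2 h20
      refine ⟨1, 0, r, Or.inl rfl, ?_⟩
      linear_combination hr
    · have hch : ringChar K = 2 := by
        have h3 : CharP K 2 := by
          have h4 : ((2 : ℕ) : K) = 0 := by exact_mod_cast h20
          exact CharTwo.of_one_ne_zero_of_two_eq_zero one_ne_zero h20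
        exact ringChar.eq K 2 ▸ rfl
      obtain ⟨b, hb⟩ := FiniteField.isSquare_of_char_two hch (-(s / t * (s / t) - s * (s / t) - 1))
      refine ⟨1, s / t, b, Or.inl rfl, ?_⟩
      have h5 : s / t * t = s := div_mul_cancel₀ s ht
      linear_combination -hb - b * h5 - s * b * h20
  · have key : ∀ e x w : K, (x * t + e * s) * (x * t + e * s) - 4 * (x * x - s * x - 1) = w * w →
        (x * t + e * s + w) / 2 * ((x * t + e * s + w) / 2) - (x * t + e * s) * ((x * t + e * s + w) / 2) + x * x - s * x - 1 = 0 := by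
      intro e x w h
      field_simp
      linear_combination -h
    by_cases ht : t * t = 4
    · have h3 : (t - 2) * (t + 2) = 0 := by linear_combination ht
      have h8 : (8 : K) ≠ 0 := by
        have : (8 : K) = 2 * 2 * 2 := by norm_num
        rw [this]
        exact mul_ne_zero (mul_ne_zero h20 h20) h20
      have main : ∀ e : K, e * e = 1 → t = 2 * e → ∃ x w : K, (x * t + e * s) * (x * t + e * s) - 4 * (x * x - s * x - 1) = w * w := by
        intro e he hte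
        have h9 : (s * s + 4) / (8 * s) * (8 * s) = s * s + 4 := div_mul_cancel₀ _ (mul_ne_zero h8 hs)
        refine ⟨-((s * s + 4) / (8 * s)), 0, ?_⟩
        rw [hte]
        generalize (s * s + 4) / (8 * s) = y at h9
        linear_combination (4 * y * y - 4 * y * s + s * s) * he - h9
      rcases mul_eq_zero.1 h3 with h4 | h4
      · obtain ⟨x, w, h⟩ := main 1 (by ring) (by linear_combination h4)
        exact ⟨1, x, _, Or.inl rfl, key 1 x w h⟩
      · obtain ⟨x, w, h⟩ := main (-1) (by ring) (by linear_combination h4)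
        exact ⟨-1, x, _, Or.inr rfl, key (-1) x w h⟩
    · have h4 : t * t - 4 ≠ 0 := sub_ne_zero.2 ht
      have hch : ringChar K ≠ 2 := by
        intro h
        apply h20
        have h5 := ringChar.Nat.cast_ringChar (R := K)
        rw [h] at h5
        exact_mod_cast h5
      have hd1 : (C (t * t - 4) * X ^ 2 + C (2 * s * t + 4 * s) * X + C (s * s + 4) : K[X]).degree = 2 := Polynomial.degree_quadratic h4
      have hd2 : (C (-1) * X ^ 2 + C 0 * X + C 0 : K[X]).degree = 2 := Polynomial.degree_quadratic (neg_ne_zero.2 one_ne_zero)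
      obtain ⟨x, w, h⟩ := FiniteField.exists_root_sum_quadratic hd1 hd2 (FiniteField.odd_card_of_char_ne_two hch)
      simp only [eval_add, eval_mul, eval_C, eval_pow, eval_X] at h
      exact ⟨1, x, _, Or.inl rfl, key 1 x w (by linear_combination h)⟩
-- END mg

/-- every matrix of determinant 1 is a product -/
theorem prod2 [Finite K] {s : K} (hs : s ≠ 0) (h2 : (2 : K) = 0 → ∃ r : K, r * r - s * r - 1 = 0) {A : Matrix (Fin 2) (Fin 2) K} (hA : A.det = 1) :
    ∃ (e : K) (Z1 Z2 : Matrix (Fin 2) (Fin 2) K), (e = 1 ∨ e = -1) ∧ Z1.charpoly = p2 s ∧ Z2.charpoly = p2 (e * s) ∧ A = Z1 * Z2 := by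
  by_cases hc : ∃ c : K, A = c • (1 : Matrix (Fin 2) (Fin 2) K)
  · obtain ⟨c, hc⟩ := hc
    exact prod2_scalar s hA hc
  · obtain ⟨e, x, b, he, h⟩ := solve2 hs h2 A.trace
    obtain ⟨Z1, Z2, h3, h4, h5⟩ := prod2_of s hA (fun c hc' => hc ⟨c, hc'⟩) x b h
    exact ⟨e, Z1, Z2, he, h3, h4, h5⟩

-- BEGIN mh
/-- two different vectors `p` with `ψ · p = 1` -/
private theorem mh_two {ψ : Fin 3 → K} (hψ : ψ ≠ 0) : ∃ p q : Fin 3 → K, ψ ⬝ᵥ p = 1 ∧ ψ ⬝ᵥ q = 1 ∧ p ≠ q := by
  have key : ∀ i j : Fin 3, i ≠ j → ψ i ≠ 0 → ∃ p q : Fin 3 → K, ψ ⬝ᵥ p = 1 ∧ ψ ⬝ᵥ q = 1 ∧ p ≠ q := by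
    intro i j hij hi
    refine ⟨Pi.single i (ψ i)⁻¹, Pi.single i ((ψ i)⁻¹ * (1 - ψ j)) + Pi.single j 1, ?_, ?_, ?_⟩
    · rw [dotProduct_single, mul_inv_cancel₀ hi]
    · rw [dotProduct_add, dotProduct_single, dotProduct_single, ← mul_assoc, mul_inv_cancel₀ hi]
      ring
    · intro h
      have h1 := congrFun h j
      rw [Pi.add_apply, Pi.single_eq_of_ne hij.symm, Pi.single_eq_of_ne hij.symm, Pi.single_eq_same, zero_add] at h1
      exact zero_ne_one h1
  obtain ⟨i, hi⟩ : ∃ i, ψ i ≠ 0 := by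
    by_contra hcon
    push Not at hcon
    exact hψ (funext hcon)
  fin_cases i
  · exact key 0 1 (by decide) hi
  · exact key 1 0 (by decide) hi
  · exact key 2 0 (by decide) hi

/-- the normal form `P e_0 = x`, `ψ P = (ψ · x, 0, 1)` -/
private theorem mh_norm {x ψ : Fin 3 → K} (hx : x ≠ 0) (hψ : ψ ≠ 0) :
    ∃ P : Matrix (Fin 3) (Fin 3) K, P.det ≠ 0 ∧ P *ᵥ ![1, 0, 0] = x ∧ ψ ᵥ* P = ![ψ ⬝ᵥ x, 0, 1] := by
  obtain ⟨p, h1, h2⟩ : ∃ p : Fin 3 → K, ψ ⬝ᵥ p = 1 ∧ x - (ψ ⬝ᵥ x) • p ≠ 0 := by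
    obtain ⟨p, q, h1, h2, h3⟩ := mh_two hψ
    by_cases h4 : x - (ψ ⬝ᵥ x) • p = 0
    · refine ⟨q, h2, fun h5 => ?_⟩
      have h6 : ψ ⬝ᵥ x ≠ 0 := by
        intro h7
        rw [h7, zero_smul, sub_zero] at h4
        exact hx h4
      have h8 : (ψ ⬝ᵥ x) • p = (ψ ⬝ᵥ x) • q := by
        rw [← sub_eq_zero.1 h4, ← sub_eq_zero.1 h5]
      exact h3 (smul_right_injective _ h6 h8)
    · exact ⟨p, h1, h4⟩
  obtain ⟨i, hi⟩ : ∃ i, (x - (ψ ⬝ᵥ x) • p) i ≠ 0 := by
    by_contra hcon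
    push Not at hcon
    exact h2 (funext hcon)
  have key : ∀ a0 a1 a2 : K, a0 * (x 0 - (ψ ⬝ᵥ x) * p 0) + a1 * (x 1 - (ψ ⬝ᵥ x) * p 1) + a2 * (x 2 - (ψ ⬝ᵥ x) * p 2) ≠ 0 →
      ∃ P : Matrix (Fin 3) (Fin 3) K, P.det ≠ 0 ∧ P *ᵥ ![1, 0, 0] = x ∧ ψ ᵥ* P = ![ψ ⬝ᵥ x, 0, 1] := by
    intro a0 a1 a2 ha
    refine ⟨!![x 0, ψ 1 * a2 - ψ 2 * a1, p 0; x 1, ψ 2 * a0 - ψ 0 * a2, p 1; x 2, ψ 0 * a1 - ψ 1 * a0, p 2], ?_, ?_, ?_⟩
    · intro h3
      apply ha
      rw [Matrix.det_fin_three] at h3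
      simp only [Matrix.of_apply, Matrix.cons_val', Matrix.cons_val, Matrix.cons_val_zero, Matrix.cons_val_one, Matrix.cons_val_fin_one] at h3
      rw [dotProduct, Fin.sum_univ_three] at h1 ⊢
      linear_combination h3 - (a0 * x 0 + a1 * x 1 + a2 * x 2) * (h1)
    · ext i
      fin_cases i <;> simp [Matrix.mulVec, dotProduct, Fin.sum_univ_three]
    · rw [dotProduct, Fin.sum_univ_three] at h1 ⊢
      ext i
      fin_cases i
      · simp [Matrix.vecMul, dotProduct, Fin.sum_univ_three]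
      · simp [Matrix.vecMul, dotProduct, Fin.sum_univ_three]
        ring
      · simp [Matrix.vecMul, dotProduct, Fin.sum_univ_three]
        exact h1
  simp only [Pi.sub_apply, Pi.smul_apply, smul_eq_mul] at hi
  fin_cases i
  · exact key 1 0 0 (by simpa using hi)
  · exact key 0 1 0 (by simpa using hi)
  · exact key 0 0 1 (by simpa using hi)

/-- MODULE mh. `x`, `ψ` vectors of length 3, `x ≠ 0`, `ψ ≠ 0`, and the same for `x'`, `ψ'`, with the same value `ψ · x = ψ' · x'`: the matrices `x ψ`, `x' ψ'` of rank one are conjugate.  Normal form: `t = ψ · x ≠ 0`: basis `x, y, z` with `y, z` a basis of the kernel of `ψ`: the matrix is `t E_00`;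
`t = 0`: basis `x, y, z` with `x, y` a basis of the kernel of `ψ`, `ψ · z = 1`: the matrix is `E_02`. -/
theorem conj_rank1 {x ψ x' ψ' : Fin 3 → K} (hx : x ≠ 0) (hψ : ψ ≠ 0) (hx' : x' ≠ 0) (hψ' : ψ' ≠ 0) (h : ψ ⬝ᵥ x = ψ' ⬝ᵥ x') :
    ∃ P : Matrix (Fin 3) (Fin 3) K, P.det ≠ 0 ∧ vecMulVec x' ψ' * P = P * vecMulVec x ψ := by
  obtain ⟨P, hP, h1, h2⟩ := mh_norm hx hψ
  obtain ⟨P', hP', h1', h2'⟩ := mh_norm hx' hψ'
  have hu : IsUnit P.det := isUnit_iff_ne_zero.2 hP
  refine ⟨P' * P⁻¹, ?_, ?_⟩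
  · rw [Matrix.det_mul, Matrix.det_nonsing_inv, Ring.inverse_eq_inv']
    exact mul_ne_zero hP' (inv_ne_zero hP)
  · rw [Matrix.mul_vecMulVec, Matrix.vecMulVec_mul, ← Matrix.vecMul_vecMul, h2', ← h, ← h2, Matrix.vecMul_vecMul, Matrix.mul_nonsing_inv P hu, Matrix.vecMul_one,
      ← Matrix.mulVec_mulVec]
    congr 1
    conv_rhs => rw [← h1]
    rw [Matrix.mulVec_mulVec _ P⁻¹ P, Matrix.nonsing_inv_mul P hu, Matrix.one_mulVec, h1']
-- END mh

-- BEGIN mi
private theorem mi_rank {A : Matrix (Fin 3) (Fin 3) K} (h : A.rank ≤ 1) : ∃ x ψ : Fin 3 → K, A = vecMulVec x ψ := by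
  obtain ⟨v, hv⟩ := finrank_le_one_iff.mp h
  choose c hc using fun j : Fin 3 => hv ⟨A.mulVecLin (Pi.single j 1), LinearMap.mem_range_self _ _⟩
  refine ⟨v.1, c, ?_⟩
  ext i j
  have h1 := congrFun (congrArg Subtype.val (hc j)) i
  have h2 : (A.mulVecLin (Pi.single j 1)) i = A i j := by
    rw [Matrix.mulVecLin_apply, Matrix.mulVec_single_one]
    rfl
  rw [vecMulVec_apply, mul_comm, ← h2]
  exact h1.symm

private theorem mi_fin {M A : Matrix (Fin 3) (Fin 3) K} {l : K} (hM : M = l • (1 : Matrix (Fin 3) (Fin 3) K) + A) (h : A.rank ≤ 1) :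
    (∃ c : K, M = c • (1 : Matrix (Fin 3) (Fin 3) K)) ∨
    ∃ (l : K) (x ψ : Fin 3 → K), x ≠ 0 ∧ ψ ≠ 0 ∧ M = l • (1 : Matrix (Fin 3) (Fin 3) K) + vecMulVec x ψ := by
  obtain ⟨x, ψ, rfl⟩ := mi_rank h
  by_cases hx : x = 0
  · left
    refine ⟨l, ?_⟩
    rw [hM, hx, Matrix.zero_vecMulVec, add_zero]
  · by_cases hψ : ψ = 0
    · left
      refine ⟨l, ?_⟩
      rw [hM, hψ, Matrix.vecMulVec_zero, add_zero]
    · exact Or.inr ⟨l, x, ψ, hx, hψ, hM⟩

/-- MODULE mi. `μ = minpoly K M` divides `χ = M.charpoly` (degree 3); degree 3: equal (monic); degree 1: `M` is scalar; degree 2: `χ = μ (X - l)` and `l` is a root of `χ`, so of `μ` (eigenvalue), `μ = (X - l)(X - m)`, `(M - l)(M - m) = 0`, so one of `M - l`, `M - m` has rank `≤ 1`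
(`rank A + rank B ≤ 3` if `A B = 0`: the image of `B` is in the kernel of `A`), and a matrix of rank `≤ 1` is `x ψ`. -/
theorem trich (M : Matrix (Fin 3) (Fin 3) K) : minpoly K M = M.charpoly ∨ (∃ c : K, M = c • (1 : Matrix (Fin 3) (Fin 3) K)) ∨
    ∃ (l : K) (x ψ : Fin 3 → K), x ≠ 0 ∧ ψ ≠ 0 ∧ M = l • (1 : Matrix (Fin 3) (Fin 3) K) + vecMulVec x ψ := by
  have hi : IsIntegral K M := Matrix.isIntegral M
  have hμ : (minpoly K M).Monic := minpoly.monic hi
  obtain ⟨ρ, hρ⟩ := Matrix.minpoly_dvd_charpoly M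
  have hχ : M.charpoly.Monic := Matrix.charpoly_monic M
  have hρm : ρ.Monic := Polynomial.Monic.of_mul_monic_left hμ (hρ ▸ hχ)
  have hd : (minpoly K M).natDegree + ρ.natDegree = 3 := by
    rw [← hμ.natDegree_mul hρm, ← hρ, Matrix.charpoly_natDegree_eq_dim, Fintype.card_fin]
  have hpos := minpoly.natDegree_pos hi
  have hcase : (minpoly K M).natDegree = 3 ∨ (minpoly K M).natDegree = 1 ∨ ρ.natDegree = 1 := by omega
  rcases hcase with h3 | h1 | h2
  · left
    have h0 : ρ.natDegree = 0 := by omega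
    rw [hρ, (hρm.natDegree_eq_zero).1 h0, mul_one]
  · right
    left
    have h4 := hμ.eq_X_add_C h1
    have h5 := minpoly.aeval K M
    rw [h4, map_add, aeval_X, aeval_C, Algebra.algebraMap_eq_smul_one] at h5
    exact ⟨-(minpoly K M).coeff 0, by rw [neg_smul]; exact eq_neg_of_add_eq_zero_left h5⟩
  · right
    obtain ⟨b, hb⟩ : ∃ b, b = ρ.coeff 0 := ⟨_, rfl⟩
    have h4 : ρ = X + C b := by rw [hb]; exact hρm.eq_X_add_C h2
    have h5 : M.charpoly.eval (-b) = 0 := by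
      rw [hρ, h4, eval_mul, eval_add, eval_X, eval_C, neg_add_cancel, mul_zero]
    rw [Matrix.eval_charpoly] at h5
    obtain ⟨v, hv, hv0⟩ := Matrix.exists_mulVec_eq_zero_iff.2 h5
    have hMv : M *ᵥ v = (-b) • v := by
      rw [Matrix.sub_mulVec] at hv0
      have h6 : (Matrix.scalar (Fin 3)) (-b) *ᵥ v = (-b) • v := by
        ext i
        rw [Matrix.scalar_apply, Matrix.mulVec_diagonal, Pi.smul_apply, smul_eq_mul]
      rw [← h6]
      exact (sub_eq_zero.1 hv0).symm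
    have hE : Module.End.HasEigenvector (Matrix.toLin' M) (-b) v := by
      refine ⟨Module.End.mem_eigenspace_iff.2 ?_, hv⟩
      rw [Matrix.toLin'_apply, hMv]
    have h7 := Module.End.isRoot_of_hasEigenvalue (Module.End.hasEigenvalue_of_hasEigenvector hE)
    rw [Matrix.minpoly_toLin'] at h7
    obtain ⟨σ, hσ⟩ := dvd_iff_isRoot.2 h7
    have hσm : σ.Monic := Polynomial.Monic.of_mul_monic_left (monic_X_sub_C _) (hσ ▸ hμ)
    have hσd : σ.natDegree = 1 := by
      have := (monic_X_sub_C (-b)).natDegree_mul hσm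
      rw [← hσ, natDegree_X_sub_C] at this
      omega
    obtain ⟨m, hm⟩ : ∃ m, m = σ.coeff 0 := ⟨_, rfl⟩
    have h8 : σ = X + C m := by rw [hm]; exact hσm.eq_X_add_C hσd
    have h9 := minpoly.aeval K M
    rw [hσ, h8, map_mul, map_sub, map_add, aeval_X, aeval_C, aeval_C, Algebra.algebraMap_eq_smul_one, Algebra.algebraMap_eq_smul_one] at h9
    have h10 := Matrix.rank_add_rank_le_card_of_mul_eq_zero h9
    rw [Fintype.card_fin] at h10
    rcases (by omega : (M - (-b) • (1 : Matrix (Fin 3) (Fin 3) K)).rank ≤ 1 ∨ (M + m • (1 : Matrix (Fin 3) (Fin 3) K)).rank ≤ 1) with h11 | h11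
    · exact mi_fin (l := -b) (by abel) h11
    · exact mi_fin (l := -m) (by rw [neg_smul]; abel) h11
-- END mi

/-- regular unipotent -/
def RU (J : Matrix (Fin 3) (Fin 3) K) : Prop := J.charpoly = (X - C 1) ^ 3 ∧ minpoly K J = J.charpoly

-- BEGIN mj
private theorem mj_of {J : Matrix (Fin 3) (Fin 3) K} (h : J.charpoly = (X - C 1) ^ 3) (h2 : (J - 1) * (J - 1) ≠ 0) : RU J := by
  refine ⟨h, ?_⟩
  have h3 : minpoly K J ∣ (X - C 1) ^ 3 := h ▸ Matrix.minpoly_dvd_charpoly J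
  obtain ⟨k, hk, hk2⟩ := (dvd_prime_pow (prime_X_sub_C (1 : K)) 3).1 h3
  have h4 : minpoly K J = (X - C 1) ^ k :=
    eq_of_monic_of_associated (minpoly.monic (Algebra.IsIntegral.isIntegral J)) ((monic_X_sub_C 1).pow k) hk2
  have h5 : k = 3 := by
    by_contra hne
    have h6 : k ≤ 2 := by omega
    apply h2
    have h7 : minpoly K J ∣ (X - C 1) ^ 2 := h4 ▸ pow_dvd_pow _ h6
    have h8 : aeval J ((X - C 1) ^ 2 : K[X]) = 0 := by
      obtain ⟨q, hq⟩ := h7
      rw [hq, map_mul, minpoly.aeval, zero_mul]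
    simpa [pow_two] using h8
  rw [h4, h, h5]

private theorem mj_ne {J : Matrix (Fin 3) (Fin 3) K} (h : RU J) : (J - 1) * (J - 1) ≠ 0 := by
  intro h0
  have h8 : aeval J ((X - C 1) ^ 2 : K[X]) = 0 := by
    simpa [pow_two] using h0
  have h9 := minpoly.dvd K J h8
  rw [h.2, h.1] at h9
  have h10 := (pow_dvd_pow_iff (X_sub_C_ne_zero (1 : K)) (prime_X_sub_C (1 : K)).not_isUnit).1 h9
  omega

/-- MODULE mj. `J = [[1, a, c], [0, 1, b], [0, 0, 1]]`, `a, b ≠ 0`: `J.charpoly = (X - 1)^3` (upper triangular), `(J - 1)^2 ≠ 0` (entry `a b`), so the minimal polynomial, a monic divisor `(X - 1)^k` (`dvd_prime_pow`), has `k = 3`.  Transpose and conjugates. -/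
theorem ru_upper {a b : K} (ha : a ≠ 0) (hb : b ≠ 0) (c : K) : RU (!![1, a, c; 0, 1, b; 0, 0, 1] : Matrix (Fin 3) (Fin 3) K) := by
  refine mj_of ?_ ?_
  · rw [Matrix.charpoly, Matrix.det_fin_three]
    simp
    ring
  · intro h
    have h1 := congrFun (congrFun h 0) 2
    simp [Matrix.mul_apply, Fin.sum_univ_three, Matrix.sub_apply, Matrix.one_apply] at h1
    rcases h1 with h1 | h1
    · exact ha h1
    · exact hb h1

theorem ru_lower {a b : K} (ha : a ≠ 0) (hb : b ≠ 0) (c : K) : RU (!![1, 0, 0; a, 1, 0; c, b, 1] : Matrix (Fin 3) (Fin 3) K) := by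
  refine mj_of ?_ ?_
  · rw [Matrix.charpoly, Matrix.det_fin_three]
    simp
    ring
  · intro h
    have h1 := congrFun (congrFun h 2) 0
    simp [Matrix.mul_apply, Fin.sum_univ_three, Matrix.sub_apply, Matrix.one_apply] at h1
    rcases h1 with h1 | h1
    · exact hb h1
    · exact ha h1

/-- conjugate matrices have the same characteristic and minimal polynomial -/
theorem RU.conj {J P : Matrix (Fin 3) (Fin 3) K} (h : RU J) (hP : P.det ≠ 0) : RU (P * J * P⁻¹) := by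
  have hu : IsUnit P.det := isUnit_iff_ne_zero.2 hP
  have h1 : P * P⁻¹ = 1 := Matrix.mul_nonsing_inv P hu
  have h2 : P⁻¹ * P = 1 := Matrix.nonsing_inv_mul P hu
  refine mj_of ?_ ?_
  · have h3 := Matrix.charpoly_units_conj (⟨P, P⁻¹, h1, h2⟩ : (Matrix (Fin 3) (Fin 3) K)ˣ) J
    exact h3.trans h.1
  · intro h0
    apply mj_ne h
    have h3 : P * J * P⁻¹ - 1 = P * (J - 1) * P⁻¹ := by
      rw [Matrix.mul_sub, Matrix.sub_mul, Matrix.mul_one, h1]
    rw [h3] at h0
    have h4 : (J - 1) * (J - 1) = P⁻¹ * (P * (J - 1) * P⁻¹ * (P * (J - 1) * P⁻¹)) * P := by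
      simp only [Matrix.mul_assoc, h2, Matrix.mul_one]
      rw [← Matrix.mul_assoc P⁻¹ P, h2, Matrix.one_mul, ← Matrix.mul_assoc P⁻¹ P, h2, Matrix.one_mul]
    rw [h4, h0, Matrix.mul_zero, Matrix.zero_mul]

theorem RU.conj_prod {J1 J2 M P : Matrix (Fin 3) (Fin 3) K} (h1 : RU J1) (h2 : RU J2) (hP : P.det ≠ 0) (h : M * P = P * (J1 * J2)) :
    ∃ Z1 Z2 : Matrix (Fin 3) (Fin 3) K, RU Z1 ∧ RU Z2 ∧ M = Z1 * Z2 := by
  have hu : IsUnit P.det := isUnit_iff_ne_zero.2 hP
  have h3 : P * P⁻¹ = 1 := Matrix.mul_nonsing_inv P hu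
  have h4 : P⁻¹ * P = 1 := Matrix.nonsing_inv_mul P hu
  refine ⟨P * J1 * P⁻¹, P * J2 * P⁻¹, h1.conj hP, h2.conj hP, ?_⟩
  have h5 : M = P * (J1 * J2) * P⁻¹ := by
    rw [← h, Matrix.mul_assoc, h3, Matrix.mul_one]
  rw [h5]
  simp only [Matrix.mul_assoc]
  rw [← Matrix.mul_assoc P⁻¹ P, h4, Matrix.one_mul]
-- END mj

-- BEGIN mk
private theorem mk_cp (N : Matrix (Fin 3) (Fin 3) K) : N.charpoly = X ^ 3 - C (N 0 0 + N 1 1 + N 2 2) * X ^ 2
    + C (N 0 0 * N 1 1 - N 0 1 * N 1 0 + (N 0 0 * N 2 2 - N 0 2 * N 2 0) + (N 1 1 * N 2 2 - N 1 2 * N 2 1)) * X - C N.det := by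
  rw [Matrix.charpoly, Matrix.det_fin_three, Matrix.det_fin_three]
  simp [Matrix.charmatrix_apply]
  ring

private theorem mk_min {N : Matrix (Fin 3) (Fin 3) K} (h10 : N 1 0 = 1) (h20 : N 2 0 = 0) (h21 : N 2 1 = 1) : minpoly K N = N.charpoly := by
  have hi : IsIntegral K N := Matrix.isIntegral N
  have hm : (minpoly K N).Monic := minpoly.monic hi
  have hcm : N.charpoly.Monic := Matrix.charpoly_monic N
  refine (Polynomial.eq_of_monic_of_dvd_of_natDegree_le hm hcm (Matrix.minpoly_dvd_charpoly N) ?_).symm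
  rw [Matrix.charpoly_natDegree_eq_dim, Fintype.card_fin]
  by_contra hlt
  have hle : (minpoly K N).degree ≤ 2 := by
    have : (minpoly K N).natDegree ≤ 2 := by omega
    exact Polynomial.natDegree_le_iff_degree_le.1 this
  have hq := Polynomial.eq_quadratic_of_degree_le_two hle
  generalize (minpoly K N).coeff 2 = a at hq
  generalize (minpoly K N).coeff 1 = b at hq
  generalize (minpoly K N).coeff 0 = c at hq
  have h0 := minpoly.aeval K N
  rw [hq] at h0
  simp only [map_add, map_mul, map_pow, aeval_C, aeval_X, Algebra.algebraMap_eq_smul_one, pow_two, Matrix.smul_mul, Matrix.one_mul] at h0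
  have e2 := congrFun (congrFun h0 2) 0
  have e1 := congrFun (congrFun h0 1) 0
  have e0 := congrFun (congrFun h0 0) 0
  simp [Matrix.mul_apply, Fin.sum_univ_three, h10, h20, h21] at e2 e1 e0
  subst e2
  simp at e1 e0
  subst e1
  simp at e0
  subst e0
  have : (minpoly K N) = 0 := by rw [hq]; simp
  exact hm.ne_zero this

/-- MODULE mk. `M` with `minpoly = charpoly`, `det M = 1`, `K` with a third element.  `L = [[1,0,0],[1,1,0],[0,1,1]]`, `U = [[1,p,e],[0,1,r],[0,0,1]]`, `L U = [[1, p, e], [1, p + 1, e + r], [0, 1, r + 1]]`: characteristic polynomial `X^3 - t X^2 + u X - 1` with `t = 3 + p + r`, `u = 3 + 2 p + 2 r + p r - e - ..`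
(compute: sum of the principal minors `1 + (r + 1) + ((p + 1)(r + 1) - (e + r)) = 3 + p + r + p r - e`), so `p` with `p ≠ 0`, `p ≠ t - 3`, `r = t - 3 - p`, `e = 3 + p + r + p r - u`.  `L U` is a Hessenberg matrix with subdiagonal `1, 1`: `e_0, (LU) e_0, (LU)^2 e_0` are linearly independent, so its minimal polynomial is
its characteristic polynomial (a polynomial of degree `< 3` which kills it kills `e_0`).  `conj_GLm`, `RU.conj_prod`. -/
theorem prodJ_cyc (hK : ∃ d : K, d ≠ 0 ∧ d ≠ 1) {M : Matrix (Fin 3) (Fin 3) K} (hM : M.det = 1) (h : minpoly K M = M.charpoly) :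
    ∃ Z1 Z2 : Matrix (Fin 3) (Fin 3) K, RU Z1 ∧ RU Z2 ∧ M = Z1 * Z2 := by
  obtain ⟨d, hd0, hd1⟩ := hK
  obtain ⟨t, ht⟩ : ∃ t, t = M 0 0 + M 1 1 + M 2 2 := ⟨_, rfl⟩
  obtain ⟨u, hu⟩ : ∃ u, u = M 0 0 * M 1 1 - M 0 1 * M 1 0 + (M 0 0 * M 2 2 - M 0 2 * M 2 0) + (M 1 1 * M 2 2 - M 1 2 * M 2 1) := ⟨_, rfl⟩
  obtain ⟨p, hp0, hp1⟩ : ∃ p : K, p ≠ 0 ∧ p ≠ t - 3 := by
    by_cases h1 : (1 : K) = t - 3
    · exact ⟨d, hd0, fun h2 => hd1 (h2.trans h1.symm)⟩
    · exact ⟨1, one_ne_zero, h1⟩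
  obtain ⟨r, hr⟩ : ∃ r, r = t - 3 - p := ⟨_, rfl⟩
  obtain ⟨e, he⟩ : ∃ e, e = 3 + p + r + p * r - u := ⟨_, rfl⟩
  have hr0 : r ≠ 0 := by
    rw [hr]
    exact fun h1 => hp1 (sub_eq_zero.1 h1).symm
  have hL : RU (!![1, 0, 0; 1, 1, 0; 0, 1, 1] : Matrix (Fin 3) (Fin 3) K) := ru_lower one_ne_zero one_ne_zero 0
  have hU : RU (!![1, p, e; 0, 1, r; 0, 0, 1] : Matrix (Fin 3) (Fin 3) K) := ru_upper hp0 hr0 e
  have hN : (!![1, 0, 0; 1, 1, 0; 0, 1, 1] : Matrix (Fin 3) (Fin 3) K) * !![1, p, e; 0, 1, r; 0, 0, 1] = !![1, p, e; 1, p + 1, e + r; 0, 1, r + 1] := by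
    ext i j
    fin_cases i <;> fin_cases j <;> simp [Matrix.mul_apply, Fin.sum_univ_three]
  have hmin : minpoly K (!![1, p, e; 1, p + 1, e + r; 0, 1, r + 1] : Matrix (Fin 3) (Fin 3) K) = (!![1, p, e; 1, p + 1, e + r; 0, 1, r + 1] : Matrix (Fin 3) (Fin 3) K).charpoly :=
    mk_min (by simp) (by simp) (by simp)
  have hdet : (!![1, p, e; 1, p + 1, e + r; 0, 1, r + 1] : Matrix (Fin 3) (Fin 3) K).det = 1 := by
    rw [Matrix.det_fin_three]
    simp
    ring
  have hcp : (!![1, p, e; 1, p + 1, e + r; 0, 1, r + 1] : Matrix (Fin 3) (Fin 3) K).charpoly = M.charpoly := by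
    rw [mk_cp, mk_cp M, hdet, hM, ← ht, ← hu]
    have h1 : (!![1, p, e; 1, p + 1, e + r; 0, 1, r + 1] : Matrix (Fin 3) (Fin 3) K) 0 0 + (!![1, p, e; 1, p + 1, e + r; 0, 1, r + 1] : Matrix (Fin 3) (Fin 3) K) 1 1
        + (!![1, p, e; 1, p + 1, e + r; 0, 1, r + 1] : Matrix (Fin 3) (Fin 3) K) 2 2 = t := by
      simp
      rw [hr]
      ring
    have h2 : (!![1, p, e; 1, p + 1, e + r; 0, 1, r + 1] : Matrix (Fin 3) (Fin 3) K) 0 0 * (!![1, p, e; 1, p + 1, e + r; 0, 1, r + 1] : Matrix (Fin 3) (Fin 3) K) 1 1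
        - (!![1, p, e; 1, p + 1, e + r; 0, 1, r + 1] : Matrix (Fin 3) (Fin 3) K) 0 1 * (!![1, p, e; 1, p + 1, e + r; 0, 1, r + 1] : Matrix (Fin 3) (Fin 3) K) 1 0
        + ((!![1, p, e; 1, p + 1, e + r; 0, 1, r + 1] : Matrix (Fin 3) (Fin 3) K) 0 0 * (!![1, p, e; 1, p + 1, e + r; 0, 1, r + 1] : Matrix (Fin 3) (Fin 3) K) 2 2
        - (!![1, p, e; 1, p + 1, e + r; 0, 1, r + 1] : Matrix (Fin 3) (Fin 3) K) 0 2 * (!![1, p, e; 1, p + 1, e + r; 0, 1, r + 1] : Matrix (Fin 3) (Fin 3) K) 2 0)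
        + ((!![1, p, e; 1, p + 1, e + r; 0, 1, r + 1] : Matrix (Fin 3) (Fin 3) K) 1 1 * (!![1, p, e; 1, p + 1, e + r; 0, 1, r + 1] : Matrix (Fin 3) (Fin 3) K) 2 2
        - (!![1, p, e; 1, p + 1, e + r; 0, 1, r + 1] : Matrix (Fin 3) (Fin 3) K) 1 2 * (!![1, p, e; 1, p + 1, e + r; 0, 1, r + 1] : Matrix (Fin 3) (Fin 3) K) 2 1) = u := by
      simp
      rw [he]
      ring
    rw [h1, h2]
  obtain ⟨P, hP, hPP⟩ := conj_GLm _ M hmin h hcp
  exact RU.conj_prod hL hU hP (by rw [hN]; exact hPP)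
-- END mk

-- BEGIN ml
/-- the determinant of `l + x ψ` -/
private theorem ml_det (l : K) (x ψ : Fin 3 → K) : (l • (1 : Matrix (Fin 3) (Fin 3) K) + vecMulVec x ψ).det = l ^ 2 * (l + ψ ⬝ᵥ x) := by
  rw [Matrix.det_fin_three]
  simp [vecMulVec_apply, dotProduct, Fin.sum_univ_three]
  ring

/-- the transport of a product along a conjugacy of the parts of rank one -/
private theorem ml_transport {M : Matrix (Fin 3) (Fin 3) K} {l : K} {x ψ x' ψ' : Fin 3 → K} (hx : x ≠ 0) (hψ : ψ ≠ 0) (hx' : x' ≠ 0) (hψ' : ψ' ≠ 0) (he : ψ' ⬝ᵥ x' = ψ ⬝ᵥ x)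
    (h : M = l • (1 : Matrix (Fin 3) (Fin 3) K) + vecMulVec x ψ) {J1 J2 : Matrix (Fin 3) (Fin 3) K} (h1 : RU J1) (h2 : RU J2)
    (h' : J1 * J2 = l • (1 : Matrix (Fin 3) (Fin 3) K) + vecMulVec x' ψ') : ∃ Z1 Z2 : Matrix (Fin 3) (Fin 3) K, RU Z1 ∧ RU Z2 ∧ M = Z1 * Z2 := by
  obtain ⟨P, hP, hPP⟩ := conj_rank1 hx' hψ' hx hψ he
  refine RU.conj_prod h1 h2 hP ?_
  rw [h, h', add_mul, mul_add, hPP]
  simp

/-- MODULE ml. `M = l + x ψ`, `det M = l^2 (l + ψ · x) = 1`.  `ψ · x = 0`: `l^3 = 1`, `l = 1` (characteristic 3: `(l - 1)^3 = 0`), `x ψ` is conjugate to `E_02` (`conj_rank1`), and `1 + E_02 = J J'` with `J = [[1,1,0],[0,1,1],[0,0,1]]`, `J' = J⁻¹ (1 + E_02)` upper triangular with superdiagonal `-1, -1`.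
`ψ · x ≠ 0`: `l ≠ 1` (otherwise `ψ · x = 0`), `ψ · x = l⁻² - l`.  `L = [[1,0,0],[1,1,0],[c,1,1]]`, `U = [[1,p,e],[0,1,r],[0,0,1]]` with `c = 1/(1-l)`, `p = r = (1-l)^2/l`, `e = (1-l)^3/l^2`: `L U - l` has rank one: `U - l L⁻¹` has the rows `(1-l, p, e)`, `(l, 1-l, r)`, `(-l (1-c), l, 1-l)`, all multiples of the second one:
first `= (1-l)/l` times the second, third `= l/(1-l)` times the second; so `L U = l + x' ψ'`, and `det (L U) = 1` gives `ψ' · x' = l⁻² - l`; `conj_rank1`. -/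
theorem prodJ_rank1 (h3 : (3 : K) = 0) {M : Matrix (Fin 3) (Fin 3) K} (hM : M.det = 1) {l : K} {x ψ : Fin 3 → K} (hx : x ≠ 0) (hψ : ψ ≠ 0)
    (h : M = l • (1 : Matrix (Fin 3) (Fin 3) K) + vecMulVec x ψ) : ∃ Z1 Z2 : Matrix (Fin 3) (Fin 3) K, RU Z1 ∧ RU Z2 ∧ M = Z1 * Z2 := by
  have hd : l ^ 2 * (l + ψ ⬝ᵥ x) = 1 := by rw [← ml_det, ← h, hM]
  have hl0 : l ≠ 0 := by
    rintro rfl
    simp at hd
  by_cases h0 : ψ ⬝ᵥ x = 0
  · have hl1 : l = 1 := by
      have h5 : (l - 1) ^ 3 = 0 := by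
        rw [h0] at hd
        linear_combination hd - (l ^ 2 - l) * h3
      have h6 := pow_eq_zero_iff (n := 3) (by norm_num) |>.mp h5
      exact sub_eq_zero.mp h6
    subst hl1
    have hx' : (![1, 0, 0] : Fin 3 → K) ≠ 0 := fun hh => by
      have := congrFun hh 0
      simp at this
    have hψ' : (![0, 0, 1] : Fin 3 → K) ≠ 0 := fun hh => by
      have := congrFun hh 2
      simp at this
    have hm1 : (-1 : K) ≠ 0 := neg_ne_zero.mpr one_ne_zero
    refine ml_transport hx hψ hx' hψ' ?_ h (ru_upper (K := K) one_ne_zero one_ne_zero 0) (ru_upper hm1 hm1 2) ?_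
    · rw [h0]
      simp [dotProduct, Fin.sum_univ_three]
    · ext i j
      fin_cases i <;> fin_cases j <;> simp [Matrix.mul_apply, Fin.sum_univ_three, vecMulVec_apply] <;> norm_num
  · have hl1 : 1 - l ≠ 0 := by
      intro hh
      have : l = 1 := (sub_eq_zero.mp hh).symm
      subst this
      apply h0
      linear_combination hd
    have hx' : (![(1 - l) / l, 1 / l, 1 / (l * (1 - l))] : Fin 3 → K) ≠ 0 := fun hh => by
      have := congrFun hh 0
      simp only [Matrix.cons_val_zero, Pi.zero_apply] at this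
      exact div_ne_zero hl1 hl0 this
    have hψ' : (![l, 1 - l, (1 - l) ^ 2 / l] : Fin 3 → K) ≠ 0 := fun hh => by
      have := congrFun hh 0
      simp only [Matrix.cons_val_zero, Pi.zero_apply] at this
      exact hl0 this
    have hp : (1 - l) ^ 2 / l ≠ 0 := div_ne_zero (pow_ne_zero _ hl1) hl0
    refine ml_transport hx hψ hx' hψ' ?_ h (ru_lower (K := K) one_ne_zero one_ne_zero (1 / (1 - l))) (ru_upper hp hp ((1 - l) ^ 3 / l ^ 2)) ?_
    · have h7 : ψ ⬝ᵥ x = 1 / l ^ 2 - l := by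
        rw [eq_sub_iff_add_eq, eq_div_iff (pow_ne_zero _ hl0)]
        linear_combination hd
      rw [h7]
      simp [dotProduct, Fin.sum_univ_three]
      field_simp
      ring
    · ext i j
      fin_cases i <;> fin_cases j <;> simp [Matrix.mul_apply, Fin.sum_univ_three, vecMulVec_apply] <;> field_simp <;> ring
-- END ml

-- BEGIN mm
/-- MODULE mm. CHARACTERISTIC 3: every matrix of determinant 1 is a product of two regular unipotent ones. `trich`, `prodJ_cyc` (`d = -1`), `prodJ_rank1`; `M` scalar: `c^3 = 1`, `c = 1`, `M = 1 = J J⁻¹`, `J⁻¹ = [[1,-1,1],[0,1,-1],[0,0,1]]`. -/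
theorem prodJ (h3 : (3 : K) = 0) {M : Matrix (Fin 3) (Fin 3) K} (hM : M.det = 1) : ∃ Z1 Z2 : Matrix (Fin 3) (Fin 3) K, RU Z1 ∧ RU Z2 ∧ M = Z1 * Z2 := by
  rcases trich M with h | ⟨c, hc⟩ | ⟨l, x, ψ, hx, hψ, h⟩
  · refine prodJ_cyc ⟨-1, neg_ne_zero.2 one_ne_zero, fun h1 => ?_⟩ hM h
    exact one_ne_zero (α := K) (by linear_combination h3 + h1)
  · have hd : c ^ 3 = 1 := by
      rw [hc, Matrix.det_smul, Matrix.det_one, mul_one, Fintype.card_fin] at hM
      exact hM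
    have h1 : (c - 1) ^ 3 = 0 := by linear_combination hd + (c - c ^ 2) * h3
    have h2 : c = 1 := sub_eq_zero.1 (pow_eq_zero_iff (three_ne_zero) |>.1 h1)
    refine ⟨!![1, 1, 0; 0, 1, 1; 0, 0, 1], !![1, -1, 1; 0, 1, -1; 0, 0, 1], ru_upper one_ne_zero one_ne_zero 0,
      ru_upper (neg_ne_zero.2 one_ne_zero) (neg_ne_zero.2 one_ne_zero) 1, ?_⟩
    rw [hc, h2, one_smul, Matrix.one_fin_three]
    ext i j
    fin_cases i <;> fin_cases j <;> simp [Matrix.mul_apply, Fin.sum_univ_three]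
  · exact prodJ_rank1 h3 hM hx hψ h
-- END mm

end Pool.Agent.ThF
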