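import Pool.Agent.ThF.Gin
import Pool.Agent.ThF.Mtx

/-! # Assembly for the twisted groups -/

namespace Pool.Agent.ThF

open ThE ThK Polynomial
open ThR hiding X

variable {K : Type*} [Field K] {L : Type*} [Field L] {G : Type*} [Group G] {x : Root 6 → K → G} {τ : K →+* K}

/-- conjugate by an element of `SL_n` -/
def Sim {n : ℕ} (Z Y : Matrix (Fin n) (Fin n) K) : Prop := ∃ Q : Matrix.SpecialLinearGroup (Fin n) K, Y = Q.1 * Z * (Q⁻¹).1

-- BEGIN pa
private theorem pa_inv_mul {n : ℕ} (Q : Matrix.SpecialLinearGroup (Fin n) K) : (Q⁻¹).1 * Q.1 = 1 := by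
  have h := congrArg Subtype.val (inv_mul_cancel Q)
  exact h

private theorem pa_mul_inv {n : ℕ} (Q : Matrix.SpecialLinearGroup (Fin n) K) : Q.1 * (Q⁻¹).1 = 1 := by
  have h := congrArg Subtype.val (mul_inv_cancel Q)
  exact h

/-- MODULE pa. -/
theorem Sim.refl {n : ℕ} (Z : Matrix (Fin n) (Fin n) K) : Sim Z Z := by
  refine ⟨1, ?_⟩
  rw [inv_one]
  change Z = 1 * Z * 1
  rw [one_mul, mul_one]

theorem Sim.symm {n : ℕ} {Z Y : Matrix (Fin n) (Fin n) K} (h : Sim Z Y) : Sim Y Z := by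
  obtain ⟨Q, hQ⟩ := h
  refine ⟨Q⁻¹, ?_⟩
  rw [inv_inv, hQ]
  calc Z = 1 * Z * 1 := by rw [one_mul, mul_one]
    _ = (Q⁻¹).1 * Q.1 * Z * ((Q⁻¹).1 * Q.1) := by rw [pa_inv_mul Q]
    _ = (Q⁻¹).1 * (Q.1 * Z * (Q⁻¹).1) * Q.1 := by simp only [mul_assoc]

theorem Sim.trans {n : ℕ} {Z Y W : Matrix (Fin n) (Fin n) K} (h : Sim Z Y) (h' : Sim Y W) : Sim Z W := by
  obtain ⟨Q, hQ⟩ := h
  obtain ⟨R, hR⟩ := h'
  refine ⟨R * Q, ?_⟩
  rw [mul_inv_rev]
  change W = R.1 * Q.1 * Z * ((Q⁻¹).1 * (R⁻¹).1)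
  rw [hR, hQ]
  simp only [mul_assoc]

theorem Sim.det {n : ℕ} {Z Y : Matrix (Fin n) (Fin n) K} (h : Sim Z Y) : Y.det = Z.det := by
  obtain ⟨Q, hQ⟩ := h
  rw [hQ, Matrix.det_mul, Matrix.det_mul, Q.2, (Q⁻¹).2, one_mul, mul_one]

/-- for the inverses -/
theorem Sim.inv {n : ℕ} {Z Z' Y Y' : Matrix (Fin n) (Fin n) K} (h : Sim Z Y) (h1 : Z * Z' = 1) (h2 : Y * Y' = 1) : Sim Z' Y' := by
  obtain ⟨Q, hQ⟩ := h
  refine ⟨Q, ?_⟩
  have h3 : Y' * Y = 1 := mul_eq_one_comm.mp h2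
  have h4 : Y * (Q.1 * Z' * (Q⁻¹).1) = 1 := by
    rw [hQ]
    calc Q.1 * Z * (Q⁻¹).1 * (Q.1 * Z' * (Q⁻¹).1) = Q.1 * Z * ((Q⁻¹).1 * Q.1) * Z' * (Q⁻¹).1 := by simp only [mul_assoc]
      _ = Q.1 * (Z * Z') * (Q⁻¹).1 := by rw [pa_inv_mul, mul_one]; simp only [mul_assoc]
      _ = 1 := by rw [h1, mul_one, pa_mul_inv]
  calc Y' = Y' * (Y * (Q.1 * Z' * (Q⁻¹).1)) := by rw [h4, mul_one]
    _ = Y' * Y * (Q.1 * Z' * (Q⁻¹).1) := (mul_assoc _ _ _).symm
    _ = Q.1 * Z' * (Q⁻¹).1 := by rw [h3, one_mul]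

private theorem pa_p2_natDegree (s : K) : (p2 s).natDegree = 2 := by
  unfold p2
  compute_degree!

private theorem pa_p2_monic (s : K) : (p2 s).Monic := by
  unfold p2
  monicity!

private theorem pa_p2_fac {F : Type*} [Field F] {a b t : F} (h1 : a + b = t) (h2 : a * b = -1) : (p2 t : F[X]) = (X - C a) * (X - C b) := by
  have h3 : (C t : F[X]) = C a + C b := by rw [← h1, C_add]
  have h4 : (C a * C b : F[X]) = -1 := by rw [← C_mul, h2, C_neg, C_1]
  unfold p2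
  rw [h3]
  linear_combination -h4

private theorem pa_roots {s : K} (hs : s * s + 4 ≠ 0) : ∃ D : Fin 2 → AlgebraicClosure K, Function.Injective D ∧ (p2 s).map (algebraMap K (AlgebraicClosure K)) = ∏ i, (X - C (D i)) := by
  have h0 : (p2 (algebraMap K (AlgebraicClosure K) s)).degree ≠ 0 := by
    intro h
    have h1 := pa_p2_natDegree (algebraMap K (AlgebraicClosure K) s)
    rw [natDegree_eq_of_degree_eq_some h] at h1
    exact absurd h1 (by norm_num)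
  obtain ⟨a, ha⟩ := IsAlgClosed.exists_root _ h0
  have ha1 : a * a - algebraMap K (AlgebraicClosure K) s * a - 1 = 0 := by
    have h1 : eval a (p2 (algebraMap K (AlgebraicClosure K) s)) = 0 := ha
    unfold p2 at h1
    simp only [eval_sub, eval_pow, eval_X, eval_mul, eval_C, eval_one] at h1
    rw [← h1]; ring
  have h2 : a * (algebraMap K (AlgebraicClosure K) s - a) = -1 := by linear_combination -ha1
  have h3 : a ≠ algebraMap K (AlgebraicClosure K) s - a := by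
    intro h
    have h4 : algebraMap K (AlgebraicClosure K) (s * s + 4) = 0 := by
      rw [map_add, map_mul, map_ofNat]
      have h5 : algebraMap K (AlgebraicClosure K) s = 2 * a := by linear_combination -h
      rw [h5]
      rw [h5] at ha1
      linear_combination -4 * ha1
    exact hs ((map_eq_zero _).mp h4)
  refine ⟨![a, algebraMap K (AlgebraicClosure K) s - a], ?_, ?_⟩
  · intro i j hij
    fin_cases i <;> fin_cases j
    · rfl
    · exact absurd hij h3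
    · exact absurd hij.symm h3
    · rfl
  · have h6 : (p2 s).map (algebraMap K (AlgebraicClosure K)) = p2 (algebraMap K (AlgebraicClosure K) s) := by
      unfold p2
      simp only [Polynomial.map_sub, Polynomial.map_pow, map_X, Polynomial.map_mul, map_C, Polynomial.map_one]
    rw [h6, Fin.prod_univ_two, pa_p2_fac (a := a) (b := algebraMap K (AlgebraicClosure K) s - a) (by ring) h2]
    rfl

private theorem pa_cd [Finite K] {s : K} (hs : s * s + 4 ≠ 0) {Z : Matrix (Fin 2) (Fin 2) K} (h : Z.charpoly = p2 s) : CD Z := by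
  obtain ⟨D, hD, hD2⟩ := pa_roots hs
  by_cases hr : ∃ r : K, r * r - s * r - 1 = 0
  · obtain ⟨r, hr⟩ := hr
    refine cd_root Z (f := X - C (s - r)) (l := r) (monic_X_sub_C _) ?_ (algebraMap K (AlgebraicClosure K)) hD (by rw [h, hD2])
    rw [h, pa_p2_fac (a := r) (b := s - r) (by ring) (by linear_combination -hr)]
  · apply cd_irr
    rw [h, (pa_p2_monic s).irreducible_iff_roots_eq_zero_of_degree_le_three (by rw [pa_p2_natDegree]) (by rw [pa_p2_natDegree]; norm_num)]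
    rw [Multiset.eq_zero_iff_forall_notMem]
    intro r hr2
    apply hr
    refine ⟨r, ?_⟩
    have h1 : eval r (p2 s) = 0 := (mem_roots'.mp hr2).2
    unfold p2 at h1
    simp only [eval_sub, eval_pow, eval_X, eval_mul, eval_C, eval_one] at h1
    rw [← h1]; ring

/-- `K` finite, `s^2 + 4 ≠ 0`: two matrices with characteristic polynomial `X^2 - s X - 1` are conjugate by an element of `SL_2(K)`.  Such a matrix `Z` is not scalar (`Z = c` gives `s = 2 c`, `c^2 = -1`, `s^2 + 4 = 0`), so its minimal polynomial has degree 2 and is the characteristic polynomial.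
`CD Z`: if `X^2 - s X - 1` has a root `r` in `K`: it is `(X - r)(X - r')`, `r ≠ r'` (`(r - r')^2 = s^2 + 4`), `cd_root` with `ι = id`, `f = X - C r'`; otherwise it is irreducible (degree 2): `cd_irr`.  `conj_SLm`. -/
theorem good2 [Finite K] {s : K} (hs : s * s + 4 ≠ 0) {Z Z' : Matrix (Fin 2) (Fin 2) K} (h : Z.charpoly = p2 s) (h' : Z'.charpoly = p2 s) : Sim Z Z' := by
  obtain ⟨D, hD, hD2⟩ := pa_roots hs
  have h1 : minpoly K Z = Z.charpoly := minpoly_sep Z (algebraMap K (AlgebraicClosure K)) hD (by rw [h, hD2])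
  have h2 : minpoly K Z' = Z'.charpoly := minpoly_sep Z' (algebraMap K (AlgebraicClosure K)) hD (by rw [h', hD2])
  exact conj_SLm h1 h2 (h.trans h'.symm) (pa_cd hs h)
-- END pa

-- BEGIN pb
/-- MODULE pb. `L` algebraically closed: roots `a`, `b` of `X^2 - ι s X - 1`, `a + b = ι s`, `a b = -1`, `a ≠ b` (`(a - b)^2 = ι (s^2 + 4)`), `exists_diagM` (`n + 1 = 2`), `Matrix.charpoly_map`. -/
theorem exists_diag2 [IsAlgClosed L] (ι : K →+* L) {s : K} (hs : s * s + 4 ≠ 0) {Z : Matrix (Fin 2) (Fin 2) K} (h : Z.charpoly = p2 s) :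
    ∃ (P : Matrix.SpecialLinearGroup (Fin 2) L) (D : Fin 2 → Lˣ), Z.map ι = P.1 * Matrix.diagonal (fun i => (D i : L)) * (P⁻¹).1 ∧ (D 0 : L) + D 1 = ι s ∧ (D 0 : L) * D 1 = -1 := by
  have hdeg : (X ^ 2 - C (ι s) * X - 1 : L[X]).degree ≠ 0 := by
    have : (X ^ 2 - C (ι s) * X - 1 : L[X]).natDegree = 2 := by
      compute_degree!
    intro h0
    have h1 : (X ^ 2 - C (ι s) * X - 1 : L[X]).natDegree = 0 := Polynomial.natDegree_eq_of_degree_eq_some h0
    rw [this] at h1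
    exact absurd h1 (by norm_num)
  obtain ⟨a, ha⟩ := IsAlgClosed.exists_root _ hdeg
  have ha' : a * a - ι s * a - 1 = 0 := by
    have := ha
    simp only [Polynomial.IsRoot, Polynomial.eval_sub, Polynomial.eval_pow, Polynomial.eval_X, Polynomial.eval_mul, Polynomial.eval_C, Polynomial.eval_one] at this
    linear_combination this
  obtain ⟨b, hb⟩ : ∃ b : L, a + b = ι s := ⟨ι s - a, by ring⟩
  have hab : a * b = -1 := by
    have : b = ι s - a := by rw [← hb]; ring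
    rw [this]; linear_combination -ha'
  have ha0 : a ≠ 0 := by
    rintro rfl
    rw [zero_mul] at hab
    exact one_ne_zero (neg_eq_zero.1 hab.symm)
  have hb0 : b ≠ 0 := by
    rintro rfl
    rw [mul_zero] at hab
    exact one_ne_zero (neg_eq_zero.1 hab.symm)
  have hne : a ≠ b := by
    rintro rfl
    apply hs
    apply ι.injective
    rw [map_zero, map_add, map_mul, ← hb]
    have h4 : ι 4 = 4 := map_ofNat ι 4
    rw [h4]
    linear_combination 4 * hab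
  have hinj : Function.Injective (fun i : Fin 2 => (((![Units.mk0 a ha0, Units.mk0 b hb0] : Fin 2 → Lˣ) i : Lˣ) : L)) := by
    intro i j hij
    fin_cases i <;> fin_cases j <;> simp at hij ⊢
    · exact hne hij
    · exact hne hij.symm
  have hcp : (Z.map ι).charpoly = ∏ i : Fin 2, (X - C (((![Units.mk0 a ha0, Units.mk0 b hb0] : Fin 2 → Lˣ) i : Lˣ) : L)) := by
    rw [Matrix.charpoly_map, h, p2, Fin.prod_univ_two]
    simp only [Matrix.cons_val_zero, Matrix.cons_val_one, Units.val_mk0, Polynomial.map_sub, Polynomial.map_pow, Polynomial.map_X, Polynomial.map_mul, Polynomial.map_C, Polynomial.map_one]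
    rw [← hb, map_add]
    have : (C a * C b : L[X]) = -1 := by rw [← map_mul, hab, map_neg, map_one]
    linear_combination -this
  obtain ⟨P, hP⟩ := exists_diagM (n := 1) (Z.map ι) hinj hcp
  exact ⟨P, ![Units.mk0 a ha0, Units.mk0 b hb0], hP, by simpa using hb, by simpa using hab⟩

private theorem pb_pow {n : ℕ} {Z D : Matrix (Fin n) (Fin n) K} (hD : D * D = 1) (k : ℕ) :
    (D * Z.transpose * D) ^ k = D * (Z ^ k).transpose * D := by
  induction k with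
  | zero => simp [hD]
  | succ k ih =>
    rw [pow_succ, ih, pow_succ', Matrix.transpose_mul]
    calc D * (Z ^ k).transpose * D * (D * Z.transpose * D)
        = D * (Z ^ k).transpose * (D * D) * Z.transpose * D := by simp only [Matrix.mul_assoc]
      _ = D * ((Z ^ k).transpose * Z.transpose) * D := by rw [hD]; simp only [Matrix.mul_assoc, Matrix.one_mul]

private theorem pb_aeval {n : ℕ} {Z D : Matrix (Fin n) (Fin n) K} (hD : D * D = 1) (p : K[X]) :
    aeval (D * Z.transpose * D) p = D * (aeval Z p).transpose * D := by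
  rw [Polynomial.aeval_eq_sum_range, Polynomial.aeval_eq_sum_range, Matrix.transpose_sum, Matrix.mul_sum, Matrix.sum_mul]
  refine Finset.sum_congr rfl fun k _ => ?_
  rw [pb_pow hD, Matrix.transpose_smul, Matrix.mul_smul, Matrix.smul_mul]

private theorem pb_cancel {n : ℕ} {M D : Matrix (Fin n) (Fin n) K} (hD : D * D = 1) (h : D * M * D = 0) : M = 0 := by
  calc M = (D * D) * M * (D * D) := by rw [hD, Matrix.one_mul, Matrix.mul_one]
    _ = D * (D * M * D) * D := by simp only [Matrix.mul_assoc]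
    _ = 0 := by rw [h, Matrix.mul_zero, Matrix.zero_mul]

/-- TRANSPOSE.  `diag(d) Zᵀ diag(d)` has the characteristic and the minimal polynomial of `Z` (`Matrix.charpoly_transpose`, conjugation; `aeval Zᵀ p = (aeval Z p)ᵀ`); `conj_SLm`. -/
theorem sim_transpose {n : ℕ} {Z : Matrix (Fin n) (Fin n) K} (h1 : minpoly K Z = Z.charpoly) (hc : CD Z) (d : Fin n → Kˣ) (hd : ∀ i, d i * d i = 1) :
    Sim Z (Matrix.diagonal (fun i => (d i : K)) * Z.transpose * Matrix.diagonal (fun i => (d i : K))) := by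
  have hD : Matrix.diagonal (fun i => (d i : K)) * Matrix.diagonal (fun i => (d i : K)) = 1 := by
    rw [Matrix.diagonal_mul_diagonal, ← Matrix.diagonal_one]
    congr 1
    funext i
    have := congrArg (fun u : Kˣ => (u : K)) (hd i)
    simpa using this
  have hch : Z.charpoly = (Matrix.diagonal (fun i => (d i : K)) * Z.transpose * Matrix.diagonal (fun i => (d i : K))).charpoly := by
    rw [Matrix.charpoly_mul_comm, ← Matrix.mul_assoc, hD, Matrix.one_mul, Matrix.charpoly_transpose]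
  have hann : aeval Z (minpoly K (Matrix.diagonal (fun i => (d i : K)) * Z.transpose * Matrix.diagonal (fun i => (d i : K)))) = 0 := by
    have h2 := minpoly.aeval K (Matrix.diagonal (fun i => (d i : K)) * Z.transpose * Matrix.diagonal (fun i => (d i : K)))
    rw [pb_aeval hD] at h2
    exact Matrix.transpose_eq_zero.1 (pb_cancel hD h2)
  have hdv : minpoly K Z ∣ minpoly K (Matrix.diagonal (fun i => (d i : K)) * Z.transpose * Matrix.diagonal (fun i => (d i : K))) := minpoly.dvd _ _ hann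
  have h2 : minpoly K (Matrix.diagonal (fun i => (d i : K)) * Z.transpose * Matrix.diagonal (fun i => (d i : K)))
      = (Matrix.diagonal (fun i => (d i : K)) * Z.transpose * Matrix.diagonal (fun i => (d i : K))).charpoly := by
    refine Polynomial.eq_of_monic_of_associated (minpoly.monic (Matrix.isIntegral _)) (Matrix.charpoly_monic _) (associated_of_dvd_dvd (Matrix.minpoly_dvd_charpoly _) ?_)
    rw [← hch, ← h1]
    exact hdv
  exact conj_SLm h1 h2 hch hc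
-- END pb

/-- the matrix `[[0, 1], [1, s]]` -/
def z2 (s : K) : Matrix (Fin 2) (Fin 2) K := !![0, 1; 1, s]

theorem z2_det (s : K) : (z2 s).det = -1 := by
  simp [z2, Matrix.det_fin_two]

variable {F1 F2 : Matrix.SpecialLinearGroup (Fin 3) K →* G} {F3 : Matrix.SpecialLinearGroup (Fin 2) K →* G}

/-- the element `w` -/
def wT (x : Root 6 → K → G) (F1 F2 : Matrix.SpecialLinearGroup (Fin 3) K →* G) (F3 : Matrix.SpecialLinearGroup (Fin 2) K →* G) (s : Fx τ) (Z3 : Matrix (Fin 3) (Fin 3) K) (e3 : Z3.det = -1) : G :=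
  WW x τ F1 F2 F3 (m2 (z2 s) (z2_det s)) (m3 Z3 e3)

-- BEGIN pc
/-- MODULE pc. REALITY: `n0_real` with `Z2' = (z2 s)⁻¹ = [[-s, 1], [1, 0]]`; `P` from `sim_transpose` for `z2 s` (`CD (z2 s)` and `minpoly = charpoly` as in `good2`; or: `diag(d2) (z2 s)ᵀ diag(d2)` has trace `s` and determinant `-1`, so `good2`), `Q` from `sim_transpose` for `Z3`, then `Sim.inv`. -/
theorem wT_real [Finite K] (h : Stb K 6 x) (hτ : ∀ a, τ (τ a) = a) (H : L3 x F1 F2 F3) {s : Fx τ} (hs4 : s * s + 4 ≠ 0) {Z3 Z3' : Matrix (Fin 3) (Fin 3) K} (e3 : Z3.det = -1) (i3 : Z3 * Z3' = 1)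
    (hZ : Z3.map τ = Z3) (hm : minpoly K Z3 = Z3.charpoly) (c3 : CD Z3) :
    ∃ q ∈ Sy x τ fun r => l6 r.1 = 0, n0 x * wT x F1 F2 F3 s Z3 e3 * (n0 x)⁻¹ = q * (wT x F1 F2 F3 s Z3 e3)⁻¹ * q⁻¹ := by
  have i2 : z2 s * !![-s, 1; 1, 0] = 1 := by
    ext i j
    fin_cases i <;> fin_cases j <;> simp [z2, Matrix.mul_apply, Fin.sum_univ_two]
  have hp : Sim (!![-s, 1; 1, 0] : Matrix (Fin 2) (Fin 2) (Fx τ))
      (Matrix.diagonal (fun i => (d2 (Fx τ) i : Fx τ)) * (!![-s, 1; 1, 0] : Matrix (Fin 2) (Fin 2) (Fx τ)).transpose * Matrix.diagonal (fun i => (d2 (Fx τ) i : Fx τ))) := by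
    refine good2 (s := -s) (by simpa using hs4) ((p2_iff _ _).2 ⟨?_, ?_⟩) ((p2_iff _ _).2 ⟨?_, ?_⟩)
    · simp [Matrix.trace_fin_two]
    · simp [Matrix.det_fin_two]
    · simp [Matrix.trace_fin_two, d2, Matrix.mul_apply, Fin.sum_univ_two, Matrix.transpose_apply]
    · simp [Matrix.det_fin_two, d2, Matrix.transpose_apply]
  obtain ⟨P, hP⟩ := hp
  have hsD : ∀ i, sD K i * sD K i = 1 := by
    intro i
    fin_cases i <;> simp [sD]
  have hD : Matrix.diagonal (fun i => (sD K i : K)) * Matrix.diagonal (fun i => (sD K i : K)) = 1 := by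
    rw [Matrix.diagonal_mul_diagonal, ← Matrix.diagonal_one]
    congr 1
    funext i
    have := congrArg (fun u : Kˣ => (u : K)) (hsD i)
    simpa using this
  have hq := (sim_transpose hm c3 (sD K) hsD).inv i3
    (Y' := Matrix.diagonal (fun i => (sD K i : K)) * Z3'.transpose * Matrix.diagonal (fun i => (sD K i : K))) (by
      have h5 : Z3.transpose * Z3'.transpose = 1 := by
        rw [← Matrix.transpose_mul, mul_eq_one_comm.1 i3, Matrix.transpose_one]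
      calc Matrix.diagonal (fun i => (sD K i : K)) * Z3.transpose * Matrix.diagonal (fun i => (sD K i : K)) *
            (Matrix.diagonal (fun i => (sD K i : K)) * Z3'.transpose * Matrix.diagonal (fun i => (sD K i : K)))
          = Matrix.diagonal (fun i => (sD K i : K)) * (Z3.transpose * ((Matrix.diagonal (fun i => (sD K i : K)) * Matrix.diagonal (fun i => (sD K i : K))) * Z3'.transpose)) * Matrix.diagonal (fun i => (sD K i : K)) := by
            simp only [Matrix.mul_assoc]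
        _ = 1 := by rw [hD, Matrix.one_mul, h5, Matrix.mul_one, hD])
  obtain ⟨Q, hQ⟩ := hq
  exact n0_real h hτ H (z2_det s) i2 e3 i3 hZ hP hQ
-- END pc

-- BEGIN pd
/-- MODULE pd. `surY_W` with `exists_diag2` for `z2 s` and `ι.comp (Fx τ).subtype` (`p2_iff` for the characteristic polynomial; the `D i` are roots of `X^2 - s X - 1`, `1` is not a root because `s ≠ 0`); `surY_op` with `wT_real`, `nrm_WW`. -/
theorem wT_sur [Finite K] [IsAlgClosed L] (h : Stb K 6 x) (hτ : ∀ a, τ (τ a) = a) (H : L3 x F1 F2 F3) {s : Fx τ} (hs : s ≠ 0) (hs4 : s * s + 4 ≠ 0) {Z3 Z3' : Matrix (Fin 3) (Fin 3) K}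
    (e3 : Z3.det = -1) (i3 : Z3 * Z3' = 1) (hZ : Z3.map τ = Z3) (hm : minpoly K Z3 = Z3.charpoly) (c3 : CD Z3) (ι : K →+* L) {P3 U : Matrix.SpecialLinearGroup (Fin 3) L} {D3 : Fin 3 → Lˣ} (hU : UT U)
    (q3 : Z3.map ι = P3.1 * (Matrix.diagonal (fun i => (D3 i : L)) * U.1) * (P3⁻¹).1) (N2 : ∀ i j, D3 i * D3 j ≠ -1)
    (N1 : ∀ a : Lˣ, (a : L) * a - ι (s : K) * a - 1 = 0 → ∀ i j, a ≠ D3 i * D3 j) {k : ℕ} (hk : 1 ≤ k) :
    SurY x τ l6 (wT x F1 F2 F3 s Z3 e3) k ∧ SurY (op x) τ l6 (wT x F1 F2 F3 s Z3 e3) k := by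
  have hzp : (z2 s : Matrix (Fin 2) (Fin 2) (Fx τ)).charpoly = p2 s := (p2_iff _ _).2 ⟨by simp [z2, Matrix.trace_fin_two], z2_det s⟩
  obtain ⟨P2, D2, q2, hsum, hprod⟩ := exists_diag2 (ι.comp (Fx τ).subtype) hs4 hzp
  have hsum' : (D2 0 : L) + D2 1 = ι (s : K) := hsum
  have hroot : ∀ i : Fin 2, (D2 i : L) * D2 i - ι (s : K) * D2 i - 1 = 0 := by
    intro i
    rw [← hsum']
    fin_cases i
    · show (D2 0 : L) * D2 0 - ((D2 0 : L) + D2 1) * D2 0 - 1 = 0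
      linear_combination -hprod
    · show (D2 1 : L) * D2 1 - ((D2 0 : L) + D2 1) * D2 1 - 1 = 0
      linear_combination -hprod
  have N3 : ∀ i : Fin 2, D2 i ≠ 1 := by
    intro i hi
    have h1 := hroot i
    rw [hi, Units.val_one, mul_one, mul_one] at h1
    have h2 : ι (s : K) = 0 := by linear_combination -h1
    have h3 : (s : K) = 0 := (map_eq_zero ι).1 h2
    exact hs (Subtype.ext h3)
  have hsur : SurY x τ l6 (wT x F1 F2 F3 s Z3 e3) k :=
    surY_W h hτ H ι (z2_det s) e3 hZ q2 hU q3 (fun i a b => N1 _ (hroot i) a b) N2 N3 hk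
  obtain ⟨q, hq, hn⟩ := wT_real h hτ H hs4 e3 i3 hZ hm c3
  exact ⟨hsur, surY_op h hτ hq (nrm_WW h hτ H _ _).2 hn hk hsur⟩
-- END pd

-- BEGIN pe
private theorem pe_conj (h : Stb K 6 x) (H : L3 x F1 F2 F3) {Z Z' : Matrix (Fin 2) (Fin 2) (Fx τ)} {Y Y' : Matrix (Fin 3) (Fin 3) K} (hZ : Z.det = -1) (hZ' : Z'.det = -1) (hY : Y.det = -1)
    (hY' : Y'.det = -1) (hs : Sim Z Z') (ht : Sim Y Y') :
    ∃ q ∈ Sy x τ fun r => l6 r.1 = 0, WW x τ F1 F2 F3 (m2 Z' hZ') (m3 Y' hY') = q * WW x τ F1 F2 F3 (m2 Z hZ) (m3 Y hY) * q⁻¹ := by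
  obtain ⟨P, hP⟩ := hs
  obtain ⟨Q, hQ⟩ := ht
  refine ⟨gf τ F3 P * gg τ F1 F2 Q, Subgroup.mul_mem _ (gf_mem h H P) (gg_mem h H Q), ?_⟩
  rw [WW_conj h H, m2_cj hZ hZ' hP, m3_cj hY hY' hQ]

private theorem pe_char (s : Fx τ) : (z2 s).charpoly = p2 s :=
  (p2_iff _ _).2 ⟨by simp [z2, Matrix.trace_fin_two], z2_det s⟩

private theorem pe_two (s : Fx τ) : (!![-s, 1; 1, 0] : Matrix (Fin 2) (Fin 2) (Fx τ)).charpoly = p2 (-s) :=
  (p2_iff _ _).2 ⟨by simp [Matrix.trace_fin_two], by simp [Matrix.det_fin_two]⟩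

private theorem pe_mul (s : Fx τ) : z2 s * (!![-s, 1; 1, 0] : Matrix (Fin 2) (Fin 2) (Fx τ)) = 1 := by
  ext i j
  fin_cases i <;> fin_cases j <;> simp [z2, Matrix.mul_apply, Fin.sum_univ_two]

/-- MODULE pe. THE PRODUCT.  `prod2` for `A.1`: `A = Z1 Z2`, charpolys `p2 s`, `p2 (e s)`; `B.1 = Y1 Y2`; `WW_mul`, `m2_mul`, `m3_mul`: `gf A * gg B = WW (m2 Z1) (m3 Y1) * WW (m2 Z2) (m3 Y2)` (determinants: `p2_iff`, `Sim.det`).  The first factor is `p w p⁻¹`: `good2`, `WW_conj`, `m2_cj`, `m3_cj`.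
The second: `e = 1` (or `2 = 0`, then `-1 = 1`): the same; `e = -1`, `2 ≠ 0`: `w⁻¹ = WW (m2 Z2') (m3 Z3')` (`WW_inv`, `m2_inv`, `m3_inv`), `Z2'` the inverse of `z2 s` has charpoly `p2 (-s)` (`p2_inv`), `good2` for `-s`; `Sim Z3' Y2` from `Sim Z3 Z3'`, `Sim Z3 Y2`. -/
theorem wT_prod [Finite K] (h : Stb K 6 x) (H : L3 x F1 F2 F3) {s : Fx τ} (hs : s ≠ 0) (hs4 : s * s + 4 ≠ 0) (h2 : (2 : Fx τ) = 0 → ∃ r : Fx τ, r * r - s * r - 1 = 0)
    {Z3 Z3' : Matrix (Fin 3) (Fin 3) K} (e3 : Z3.det = -1) (i3 : Z3 * Z3' = 1) (hi : (2 : K) = 0 ∨ Sim Z3 Z3') (A : Matrix.SpecialLinearGroup (Fin 2) (Fx τ)) (B : Matrix.SpecialLinearGroup (Fin 3) K)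
    {Y1 Y2 : Matrix (Fin 3) (Fin 3) K} (s1 : Sim Z3 Y1) (s2 : Sim Z3 Y2) (hB : B.1 = Y1 * Y2) :
    ∃ p ∈ Sy x τ fun r => l6 r.1 = 0, ∃ q ∈ Sy x τ fun r => l6 r.1 = 0, gf τ F3 A * gg τ F1 F2 B = p * wT x F1 F2 F3 s Z3 e3 * p⁻¹ * (q * wT x F1 F2 F3 s Z3 e3 * q⁻¹) ∨
      gf τ F3 A * gg τ F1 F2 B = p * wT x F1 F2 F3 s Z3 e3 * p⁻¹ * (q * (wT x F1 F2 F3 s Z3 e3)⁻¹ * q⁻¹) := by
  obtain ⟨e, Z1, Z2, he, c1, c2, hA⟩ := prod2 hs h2 A.2
  have d1 : Z1.det = -1 := ((p2_iff _ _).1 c1).2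
  have d2' : Z2.det = -1 := ((p2_iff _ _).1 c2).2
  have y1 : Y1.det = -1 := s1.det.trans e3
  have y2 : Y2.det = -1 := s2.det.trans e3
  have hprod : gf τ F3 A * gg τ F1 F2 B = WW x τ F1 F2 F3 (m2 Z1 d1) (m3 Y1 y1) * WW x τ F1 F2 F3 (m2 Z2 d2') (m3 Y2 y2) := by
    rw [WW_mul h H, m2_mul d1 d2' hA, m3_mul y1 y2 hB]
  obtain ⟨p, hp, ep⟩ := pe_conj h H (z2_det s) d1 e3 y1 (good2 hs4 (pe_char s) c1) s1
  have hcase : (Z2.charpoly = p2 s) ∨ (Z2.charpoly = p2 (-s) ∧ Sim Z3 Z3') := by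
    rcases he with rfl | rfl
    · left
      rw [c2, one_mul]
    · rcases hi with h0 | h0
      · left
        have h3 : (-1 : Fx τ) = 1 := by
          refine Subtype.ext ?_
          show (-1 : K) = 1
          have h4 : (1 : K) + 1 = 0 := by rw [one_add_one_eq_two, h0]
          exact (eq_neg_of_add_eq_zero_left h4).symm
        rw [c2, h3, one_mul]
      · right
        exact ⟨by rw [c2, neg_one_mul], h0⟩
  rcases hcase with c | ⟨c, h0⟩
  · obtain ⟨q, hq, eq⟩ := pe_conj h H (z2_det s) d2' e3 y2 (good2 hs4 (pe_char s) c) s2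
    refine ⟨p, hp, q, hq, Or.inl ?_⟩
    rw [hprod, ep, eq]
    rfl
  · have z3 : Z3'.det = -1 := by
      have h5 := congrArg Matrix.det i3
      rw [Matrix.det_mul, e3, Matrix.det_one] at h5
      linear_combination -h5
    have z2' : (!![-s, 1; 1, 0] : Matrix (Fin 2) (Fin 2) (Fx τ)).det = -1 := ((p2_iff _ _).1 (pe_two s)).2
    have hs4' : (-s) * (-s) + 4 ≠ 0 := by rw [neg_mul_neg]; exact hs4
    obtain ⟨q, hq, eq⟩ := pe_conj h H z2' d2' z3 y2 (good2 hs4' (pe_two s) c) (h0.symm.trans s2)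
    refine ⟨p, hp, q, hq, Or.inr ?_⟩
    have hinv : (wT x F1 F2 F3 s Z3 e3)⁻¹ = WW x τ F1 F2 F3 (m2 _ z2') (m3 Z3' z3) := by
      unfold wT
      rw [WW_inv h H, m2_inv (z2_det s) z2' (pe_mul s), m3_inv e3 z3 i3]
    rw [hprod, ep, eq, hinv]
    rfl
-- END pe

-- BEGIN pf
/-- MODULE pf. MAIN THEOREM, abstract form.  `g` not central: `hG`: `c g c⁻¹ = v (gf A * gg B) u`, `hP`, `wT_prod`: `= (v * (p w p⁻¹)) * ((q w^(± 1) q⁻¹) * u)`; `absorbY` for `w` and for `w⁻¹` (`SurY.inv` for `x` and `op x`, `Nrm.inv`, `nrm_WW`): both factors are conjugate to `w`, `w^(± 1)`; `w⁻¹` is conjugate to `w` in `Hh` (`wT_real`, `n0_mem`, `Sy.mono`). -/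
theorem mainT [Finite K] [IsAlgClosed L] (h : Stb K 6 x) (hτ : ∀ a, τ (τ a) = a) (H : L3 x F1 F2 F3) {s : Fx τ} (hs : s ≠ 0) (hs4 : s * s + 4 ≠ 0) (h2 : (2 : Fx τ) = 0 → ∃ r : Fx τ, r * r - s * r - 1 = 0)
    {Z3 Z3' : Matrix (Fin 3) (Fin 3) K} (e3 : Z3.det = -1) (i3 : Z3 * Z3' = 1) (hZ : Z3.map τ = Z3) (hm : minpoly K Z3 = Z3.charpoly) (c3 : CD Z3) (hi : (2 : K) = 0 ∨ Sim Z3 Z3')
    (ι : K →+* L) {P3 U : Matrix.SpecialLinearGroup (Fin 3) L} {D3 : Fin 3 → Lˣ} (hU : UT U)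
    (q3 : Z3.map ι = P3.1 * (Matrix.diagonal (fun i => (D3 i : L)) * U.1) * (P3⁻¹).1) (N2 : ∀ i j, D3 i * D3 j ≠ -1)
    (N1 : ∀ a : Lˣ, (a : L) * a - ι (s : K) * a - 1 = 0 → ∀ i j, a ≠ D3 i * D3 j)
    {PB : Matrix.SpecialLinearGroup (Fin 3) K → Prop} (hP : ∀ B, PB B → ∃ Y1 Y2 : Matrix (Fin 3) (Fin 3) K, Sim Z3 Y1 ∧ Sim Z3 Y2 ∧ B.1 = Y1 * Y2)
    (hG : ∀ g ∈ Hh x τ, (∃ u ∈ Hh x τ, u * g ≠ g * u) → ∃ c ∈ Hh x τ, ∃ v ∈ Uy (op x) τ l6 1, ∃ u ∈ Uy x τ l6 1, ∃ (A : Matrix.SpecialLinearGroup (Fin 2) (Fx τ)) (B : Matrix.SpecialLinearGroup (Fin 3) K),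
      PB B ∧ c * g * c⁻¹ = v * (gf τ F3 A * gg τ F1 F2 B) * u) :
    ∃ w ∈ Hh x τ, (∀ g ∈ Hh x τ, (∃ u ∈ Hh x τ, u * g ≠ g * u) → ∃ a ∈ Hh x τ, ∃ c ∈ Hh x τ, g = a * w * a⁻¹ * (c * w * c⁻¹)) ∧ ∃ c ∈ Hh x τ, c * w * c⁻¹ = w⁻¹ := by
  have hsur : ∀ k, 1 ≤ k → SurY x τ l6 (wT x F1 F2 F3 s Z3 e3) k ∧ SurY (op x) τ l6 (wT x F1 F2 F3 s Z3 e3) k :=
    fun k hk => wT_sur h hτ H hs hs4 e3 i3 hZ hm c3 ι hU q3 N2 N1 hk
  have hN : Nrm x τ l6 (wT x F1 F2 F3 s Z3 e3) ∧ Nrm (op x) τ l6 (wT x F1 F2 F3 s Z3 e3) := nrm_WW h hτ H _ _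
  have hw : wT x F1 F2 F3 s Z3 e3 ∈ Hh x τ := WW_mem h H _ _
  obtain ⟨q0, hq0, hreal⟩ := wT_real h hτ H hs4 e3 i3 hZ hm c3
  generalize hwdef : wT x F1 F2 F3 s Z3 e3 = w at hsur hN hw hreal
  have hq0' : q0 ∈ Hh x τ := Sy.mono x τ (fun _ _ => trivial) hq0
  have hn0 : n0 x ∈ Hh x τ := n0_mem x τ
  have hc0 : q0⁻¹ * n0 x ∈ Hh x τ := mul_mem (inv_mem hq0') hn0
  have hinv : q0⁻¹ * n0 x * w * (q0⁻¹ * n0 x)⁻¹ = w⁻¹ := by
    calc q0⁻¹ * n0 x * w * (q0⁻¹ * n0 x)⁻¹ = q0⁻¹ * (n0 x * w * (n0 x)⁻¹) * q0 := by group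
      _ = w⁻¹ := by rw [hreal]; group
  refine ⟨w, hw, fun g hg hcen => ?_, q0⁻¹ * n0 x, hc0, hinv⟩
  obtain ⟨c, hc, v, hv, u, hu, A, B, hB, he⟩ := hG g hg hcen
  obtain ⟨Y1, Y2, s1, s2, hBe⟩ := hP B hB
  obtain ⟨p, hp, q, hq, hor⟩ := wT_prod h H hs hs4 h2 e3 i3 hi A B s1 s2 hBe
  rw [hwdef] at hor
  obtain ⟨c1, hc1, e1⟩ := (absorbY h hτ hN.1 hp (fun k hk => (hsur k hk).1) (fun k hk => (hsur k hk).2)).1 v hv
  have hg : g = c⁻¹ * (c * g * c⁻¹) * c := by group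
  rcases hor with ho | ho
  · obtain ⟨c2, hc2, e2⟩ := (absorbY h hτ hN.1 hq (fun k hk => (hsur k hk).1) (fun k hk => (hsur k hk).2)).2 u hu
    refine ⟨c⁻¹ * c1, mul_mem (inv_mem hc) hc1, c⁻¹ * c2, mul_mem (inv_mem hc) hc2, ?_⟩
    calc g = c⁻¹ * (c * g * c⁻¹) * c := hg
      _ = c⁻¹ * ((v * (p * w * p⁻¹)) * (q * w * q⁻¹ * u)) * c := by rw [he, ho]; group
      _ = c⁻¹ * ((c1 * w * c1⁻¹) * (c2 * w * c2⁻¹)) * c := by rw [e1, e2]
      _ = _ := by group
  · obtain ⟨c2, hc2, e2⟩ := (absorbY h hτ (Nrm.inv hN.1) hq (fun k hk => SurY.inv h hτ addl6 sgl6 hk hN.1 (hsur k hk).1)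
      (fun k hk => SurY.inv (Stb.op h) hτ addl6 sgl6 hk hN.2 (hsur k hk).2)).2 u hu
    refine ⟨c⁻¹ * c1, mul_mem (inv_mem hc) hc1, c⁻¹ * (c2 * (q0⁻¹ * n0 x)), mul_mem (inv_mem hc) (mul_mem hc2 hc0), ?_⟩
    calc g = c⁻¹ * (c * g * c⁻¹) * c := hg
      _ = c⁻¹ * ((v * (p * w * p⁻¹)) * (q * w⁻¹ * q⁻¹ * u)) * c := by rw [he, ho]; group
      _ = c⁻¹ * ((c1 * w * c1⁻¹) * (c2 * w⁻¹ * c2⁻¹)) * c := by rw [e1, e2]
      _ = c⁻¹ * ((c1 * w * c1⁻¹) * (c2 * (q0⁻¹ * n0 x * w * (q0⁻¹ * n0 x)⁻¹) * c2⁻¹)) * c := by rw [hinv]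
      _ = _ := by group
-- END pf

/-- the conclusion -/
def Good (x : Root 6 → K → G) (τ : K →+* K) : Prop :=
  ∃ w ∈ Hh x τ, (∀ g ∈ Hh x τ, (∃ u ∈ Hh x τ, u * g ≠ g * u) → ∃ a ∈ Hh x τ, ∃ c ∈ Hh x τ, g = a * w * a⁻¹ * (c * w * c⁻¹)) ∧ ∃ c ∈ Hh x τ, c * w * c⁻¹ = w⁻¹

-- BEGIN pg
/-- MODULE pg. SEPARABLE CLASSES.  `Z3` with `Z3.charpoly.map ι = ∏ (X - D3 i)`, `D3` injective, `ι : K → L`: `minpoly_sep`, `exists_diagM` (over `L`, `U = 1`), `CD Z3`: given; every matrix `Y` with the same characteristic polynomial is `Sim Z3 Y` (`minpoly_sep` for `Y`, `conj_SLm`). -/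
theorem sim_sep {n : ℕ} {ι : K →+* L} {Z Y : Matrix (Fin n) (Fin n) K} {D : Fin n → L} (hD : Function.Injective D) (h : Z.charpoly.map ι = ∏ i, (X - C (D i))) (hc : CD Z) (hY : Y.charpoly = Z.charpoly) :
    Sim Z Y := by
  have h1 : minpoly K Z = Z.charpoly := minpoly_sep Z ι hD h
  have h2 : minpoly K Y = Y.charpoly := minpoly_sep Y ι hD (by rw [hY]; exact h)
  obtain ⟨P, hP⟩ := conj_SLm h1 h2 hY.symm hc
  exact ⟨P, hP⟩

theorem diag_sep {n : ℕ} {ι : K →+* L} {Z : Matrix (Fin (n + 1)) (Fin (n + 1)) K} {D : Fin (n + 1) → Lˣ} (hD : Function.Injective D) (h : Z.charpoly.map ι = ∏ i, (X - C (D i : L))) :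
    ∃ P : Matrix.SpecialLinearGroup (Fin (n + 1)) L, Z.map ι = P.1 * (Matrix.diagonal (fun i => (D i : L)) * (1 : Matrix.SpecialLinearGroup (Fin (n + 1)) L).1) * (P⁻¹).1 := by
  have hD' : Function.Injective fun i => (D i : L) := fun i j hij => hD (Units.ext hij)
  have h' : (Z.map ι).charpoly = ∏ i, (X - C ((fun i => (D i : L)) i)) := by
    rw [Matrix.charpoly_map]
    exact h
  obtain ⟨P, hP⟩ := exists_diagM (Z.map ι) hD' h'
  refine ⟨P, ?_⟩
  have e1 : (1 : Matrix.SpecialLinearGroup (Fin (n + 1)) L).1 = (1 : Matrix (Fin (n + 1)) (Fin (n + 1)) L) := rfl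
  rw [e1, mul_one]
  exact hP

theorem ut_one {n : ℕ} : UT (1 : Matrix.SpecialLinearGroup (Fin n) L) := by
  refine ⟨fun i j hij => ?_, fun i => ?_⟩
  · exact Matrix.one_apply_ne hij.ne'
  · exact Matrix.one_apply_eq i

/-- roots of a quadratic polynomial in an algebraically closed field: `X^2 - e X + c = (X - a)(X - b)` -/
theorem exists_quad [IsAlgClosed L] (e c : L) : ∃ a b : L, a + b = e ∧ a * b = c := by
  have hdeg : (X ^ 2 - C e * X + C c : L[X]).degree ≠ 0 := by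
    have h1 : (X ^ 2 - C e * X + C c : L[X]).natDegree = 2 := by
      compute_degree!
    intro h0
    have h2 := natDegree_eq_of_degree_eq_some (n := 0) h0
    omega
  obtain ⟨a, ha⟩ := IsAlgClosed.exists_root _ hdeg
  refine ⟨a, e - a, by ring, ?_⟩
  have h3 : a ^ 2 - e * a + c = 0 := by
    have := ha
    simpa [IsRoot.def] using this
  linear_combination -h3
-- END pg

/-- the matrix `diag(l, [[0, -c], [1, e]])` with characteristic polynomial `(X - l)(X^2 - e X + c)` -/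
def z3 (l c e : K) : Matrix (Fin 3) (Fin 3) K := !![l, 0, 0; 0, 0, -c; 0, 1, e]

-- BEGIN ph
/-- MODULE ph. -/
theorem z3_det (l c e : K) : (z3 l c e).det = l * c := by
  rw [z3, Matrix.det_fin_three]
  simp

theorem z3_charpoly (l c e : K) : (z3 l c e).charpoly = (X - C l) * (X ^ 2 - C e * X + C c) := by
  rw [Matrix.charpoly, Matrix.det_fin_three]
  simp only [z3, Matrix.charmatrix_apply, Matrix.diagonal_apply, Matrix.of_apply, Matrix.cons_val', Matrix.cons_val_zero, Matrix.cons_val_one, Matrix.cons_val_two,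
    Matrix.head_cons, Matrix.tail_cons, Matrix.head_fin_const, Matrix.cons_val_fin_one]
  simp
  ring

theorem z3_split {ι : K →+* L} {l c e : K} {a b : L} (h1 : a + b = ι e) (h2 : a * b = ι c) : (z3 l c e).charpoly.map ι = ∏ i, (X - C ((![ι l, a, b] : Fin 3 → L) i)) := by
  rw [z3_charpoly, Fin.prod_univ_three]
  simp only [Polynomial.map_mul, Polynomial.map_sub, Polynomial.map_add, Polynomial.map_pow, Polynomial.map_X, Polynomial.map_C, ← h1, ← h2,
    Matrix.cons_val_zero, Matrix.cons_val_one, Matrix.cons_val, C_add, C_mul]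
  ring

/-- `cd_root` -/
theorem z3_cd {ι : K →+* L} {l c e : K} {a b : L} (h1 : a + b = ι e) (h2 : a * b = ι c) (hD : Function.Injective (![ι l, a, b] : Fin 3 → L)) : CD (z3 l c e) :=
  cd_root (z3 l c e) (f := X ^ 2 - C e * X + C c) (l := l) (by monicity!) (z3_charpoly l c e) ι hD (z3_split h1 h2)

/-- THEOREM P: `ThPL.prodM` with `l1 = l2 = l`, `f1 = f2 = X^2 - e X + c`, `(l c)^2 = 1`; `sim_sep` -/
theorem z3_prod [Finite K] (hK : 4 ≤ Nat.card K) {ι : K →+* L} {l c e : K} (hlc : l * c = -1) {a b : L} (h1 : a + b = ι e) (h2 : a * b = ι c) (hD : Function.Injective (![ι l, a, b] : Fin 3 → L))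
    (B : Matrix.SpecialLinearGroup (Fin 3) K) (hB : ∀ t : K, B.1 ≠ t • (1 : Matrix (Fin 3) (Fin 3) K)) :
    ∃ Y1 Y2 : Matrix (Fin 3) (Fin 3) K, Sim (z3 l c e) Y1 ∧ Sim (z3 l c e) Y2 ∧ B.1 = Y1 * Y2 := by
  have hd : ∃ d : K, d ≠ 0 ∧ d ≠ 1 := by
    classical
    have := Fintype.ofFinite K
    by_contra hcon
    push Not at hcon
    have hs : (Finset.univ : Finset K) ⊆ {0, 1} := by
      intro t _
      by_cases h0 : t = 0
      · simp [h0]
      · simp [hcon t h0]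
    have h3 := (Finset.card_le_card hs).trans Finset.card_le_two
    rw [Finset.card_univ, ← Nat.card_eq_fintype_card] at h3
    omega
  have hf : (X ^ 2 - C e * X + C c : K[X]).Monic := by monicity!
  have hn : (X ^ 2 - C e * X + C c : K[X]).natDegree = 2 := by compute_degree!
  have h0 : (X ^ 2 - C e * X + C c : K[X]).coeff 0 = c := by simp
  obtain ⟨Y1, Y2, e1, e2, he⟩ := ThPL.prodM (n := 3) hd (Or.inr hK) B.1 hB hf hf (by rw [hn]) (by rw [hn]) (l1 := l) (l2 := l)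
    (by rw [h0, B.2]; linear_combination (l * c - 1) * hlc) (by rw [B.2]; exact one_ne_zero)
  exact ⟨Y1, Y2, sim_sep hD (z3_split h1 h2) (z3_cd h1 h2 hD) (e1.trans (z3_charpoly l c e).symm),
    sim_sep hD (z3_split h1 h2) (z3_cd h1 h2 hD) (e2.trans (z3_charpoly l c e).symm), he⟩
-- END ph

-- BEGIN pi
/-- MODULE pi. ODD CHARACTERISTIC, `|K_0| ≥ 5`.  Parameters: `s ∈ K_0` such that `X^2 - s X - 1` has no root in `K_0` (a root `r` gives `s = r - r⁻¹`; `r ↦ r - r⁻¹` from the units to `K_0` is not surjective: `|K_0| - 1 < |K_0|`), `e ∈ K_0`, `e ≠ 0, 2, -2`. -/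
theorem exists_s {F : Type*} [Field F] [Finite F] : ∃ s : F, ∀ r : F, r * r - s * r - 1 ≠ 0 := by
  classical
  by_contra hne
  push Not at hne
  have _ := Fintype.ofFinite F
  have hs : Function.Surjective fun u : Fˣ => (u : F) - ((u⁻¹ : Fˣ) : F) := by
    intro s
    obtain ⟨r, hr⟩ := hne s
    have hr0 : r ≠ 0 := by
      rintro rfl
      simp at hr
    refine ⟨Units.mk0 r hr0, ?_⟩
    simp only [Units.val_mk0, Units.val_inv_eq_inv_val]
    field_simp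
    linear_combination hr
  have h1 : Fintype.card F ≤ Fintype.card Fˣ := Fintype.card_le_of_surjective _ hs
  rw [Fintype.card_units] at h1
  have h2 : 0 < Fintype.card F := Fintype.card_pos
  omega

/-- `s ≠ 0` (`1` would be a root), `s^2 + 4 ≠ 0` (`2 ≠ 0`: `s / 2` would be a root) -/
theorem s_ne {F : Type*} [Field F] (h2 : (2 : F) ≠ 0) {s : F} (hs : ∀ r : F, r * r - s * r - 1 ≠ 0) : s ≠ 0 ∧ s * s + 4 ≠ 0 := by
  constructor
  · rintro rfl
    exact hs 1 (by ring)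
  · intro h
    refine hs (s / 2) ?_
    field_simp
    linear_combination -h

theorem exists_e {F : Type*} [Field F] [Finite F] (hF : 5 ≤ Nat.card F) (T : Finset F) (hT : T.card ≤ 3) : ∃ e : F, e ∉ T ∧ e ≠ 0 := by
  classical
  have _ := Fintype.ofFinite F
  by_contra hne
  push Not at hne
  have h1 : (Finset.univ : Finset F) ⊆ insert 0 T := by
    intro e _
    by_cases he : e ∈ T
    · exact Finset.mem_insert_of_mem he
    · rw [hne e he]
      exact Finset.mem_insert_self _ _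
  have h2 := Finset.card_le_card h1
  have h3 := Finset.card_insert_le (0 : F) T
  rw [Finset.card_univ, ← Nat.card_eq_fintype_card] at h2
  omega
-- END pi

-- BEGIN pj
private theorem pj_inj {M : Type*} {p a b : M} (h1 : p ≠ a) (h2 : p ≠ b) (h3 : a ≠ b) : Function.Injective (![p, a, b] : Fin 3 → M) := by
  intro i j h
  fin_cases i <;> fin_cases j <;>
    first
    | rfl
    | exact absurd h h1
    | exact absurd h h2
    | exact absurd h h3
    | exact absurd h.symm h1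
    | exact absurd h.symm h2
    | exact absurd h.symm h3

/-- the inverse of `z3 (-1) 1 e` -/
private def pj_z (e : K) : Matrix (Fin 3) (Fin 3) K := !![-1, 0, 0; 0, e, 1; 0, -1, 0]

private theorem pj_mul (e : K) : z3 (-1) 1 e * pj_z e = 1 := by
  ext i j
  fin_cases i <;> fin_cases j <;> simp [z3, pj_z, Matrix.mul_apply, Fin.sum_univ_three]

private theorem pj_cp (e : K) : (pj_z e).charpoly = (z3 (-1) 1 e).charpoly := by
  have h : pj_z e = Matrix.reindex (Equiv.swap (1 : Fin 3) 2) (Equiv.swap (1 : Fin 3) 2) (z3 (-1) 1 e) := by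
    have e1 : (Equiv.swap (1 : Fin 3) 2) 0 = 0 := by decide
    have e2 : (Equiv.swap (1 : Fin 3) 2) 1 = 2 := by decide
    have e3 : (Equiv.swap (1 : Fin 3) 2) 2 = 1 := by decide
    ext i j
    rw [Matrix.reindex_apply, Matrix.submatrix_apply, Equiv.symm_swap]
    fin_cases i <;> fin_cases j <;> simp [z3, pj_z, e1, e2, e3]
  rw [h, Matrix.charpoly_reindex]

private theorem pj_rel {F : Type*} [Field F] (κ : F →+* L) (h2 : (2 : F) ≠ 0) {e : F} (he0 : e ≠ 0) (he2 : e ≠ 2) {a b : L} (h1 : a + b = κ e) (hab : a * b = 1) {D : Fin 3 → Lˣ}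
    (d0 : (D 0 : L) = -1) (d1 : (D 1 : L) = a) (d2 : (D 2 : L) = b) (i j : Fin 3) :
    ∃ r : F, r ≠ -2 ∧ ((D i : L) * D j) * ((D i : L) * D j) + 1 = κ r * ((D i : L) * D j) := by
  have r2 : (2 : F) ≠ -2 := by
    intro h
    have h4 : (2 : F) * 2 = 0 := by linear_combination h
    rcases mul_eq_zero.1 h4 with h' | h' <;> exact h2 h'
  have re : -e ≠ (-2 : F) := fun h => he2 (neg_injective h)
  have ree : e * e - 2 ≠ (-2 : F) := by
    intro h
    have h4 : e * e = 0 := by linear_combination h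
    rcases mul_eq_zero.1 h4 with h' | h' <;> exact he0 h'
  fin_cases i <;> fin_cases j
  · refine ⟨2, r2, ?_⟩
    show ((D 0 : L) * D 0) * ((D 0 : L) * D 0) + 1 = κ 2 * ((D 0 : L) * D 0)
    rw [d0, map_ofNat]; ring
  · refine ⟨-e, re, ?_⟩
    show ((D 0 : L) * D 1) * ((D 0 : L) * D 1) + 1 = κ (-e) * ((D 0 : L) * D 1)
    rw [d0, d1, map_neg, ← h1]; linear_combination (-1 : L) * hab
  · refine ⟨-e, re, ?_⟩
    show ((D 0 : L) * D 2) * ((D 0 : L) * D 2) + 1 = κ (-e) * ((D 0 : L) * D 2)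
    rw [d0, d2, map_neg, ← h1]; linear_combination (-1 : L) * hab
  · refine ⟨-e, re, ?_⟩
    show ((D 1 : L) * D 0) * ((D 1 : L) * D 0) + 1 = κ (-e) * ((D 1 : L) * D 0)
    rw [d0, d1, map_neg, ← h1]; linear_combination (-1 : L) * hab
  · refine ⟨e * e - 2, ree, ?_⟩
    show ((D 1 : L) * D 1) * ((D 1 : L) * D 1) + 1 = κ (e * e - 2) * ((D 1 : L) * D 1)
    rw [d1, map_sub, map_mul, map_ofNat, ← h1]; linear_combination (-(a * b) - 1 - 2 * a ^ 2 + 0 : L) * hab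
  · refine ⟨2, r2, ?_⟩
    show ((D 1 : L) * D 2) * ((D 1 : L) * D 2) + 1 = κ 2 * ((D 1 : L) * D 2)
    rw [d1, d2, hab, map_ofNat]; ring
  · refine ⟨-e, re, ?_⟩
    show ((D 2 : L) * D 0) * ((D 2 : L) * D 0) + 1 = κ (-e) * ((D 2 : L) * D 0)
    rw [d0, d2, map_neg, ← h1]; linear_combination (-1 : L) * hab
  · refine ⟨2, r2, ?_⟩
    show ((D 2 : L) * D 1) * ((D 2 : L) * D 1) + 1 = κ 2 * ((D 2 : L) * D 1)
    rw [d1, d2, mul_comm b a, hab, map_ofNat]; ring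
  · refine ⟨e * e - 2, ree, ?_⟩
    show ((D 2 : L) * D 2) * ((D 2 : L) * D 2) + 1 = κ (e * e - 2) * ((D 2 : L) * D 2)
    rw [d2, map_sub, map_mul, map_ofNat, ← h1]; linear_combination (-(a * b) - 1 - 2 * b ^ 2 + 0 : L) * hab

/-- MODULE pj. CASE II (odd, `|K_0| ≥ 5`): `Z3 = z3 (-1) 1 e`, `Z3' = ` its inverse, `hi`: the inverse has the same characteristic polynomial (`(X + 1)(X^2 - e X + 1)`; `Z3' = diag(-1, [[e, 1], [-1, 0]])`), `sim_sep`; `L` = algebraic closure of `K`, `a + b = e`, `a b = 1` (`exists_quad`); `![-1, a, b]` is injective: `e ≠ ± 2`.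
`N2`: the products are `1`, `-a`, `-b`, `a^2`, `b^2`, `1`: `a^2 = -1` gives `e = a + a⁻¹ = 0`; `-a = -1` gives `e = 2`.  `N1`: `u` a root of `X^2 - s X - 1` in `L`, `u - u⁻¹ = s`; every product `μ` satisfies `μ + μ⁻¹ ∈ K_0` (`2`, `-e`, `e^2 - 2`), so `u = μ` gives `2 u ∈ K_0`, a root of `X^2 - s X - 1` in `K_0`.
`hP`: `z3_prod`; `hG`: `gaussA`.  `Z3.map τ = Z3`: `e ∈ K_0`. -/
theorem caseII [Finite K] (h : Stb K 6 x) (hτ : ∀ a, τ (τ a) = a) (h2 : (2 : K) ≠ 0) (hK : 5 ≤ Nat.card (Fx τ)) : Good x τ := by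
  classical
  obtain ⟨F1, F2, F3, H⟩ := exists_L3 h
  obtain ⟨s, hs⟩ := exists_s (F := Fx τ)
  have h2' : (2 : Fx τ) ≠ 0 := by
    intro h0
    apply h2
    have h3 := congrArg (Fx τ).subtype h0
    rwa [map_ofNat, map_zero] at h3
  obtain ⟨hs0, hs4⟩ := s_ne h2' hs
  obtain ⟨e, heT, he0⟩ := exists_e hK ({2, -2} : Finset (Fx τ)) ((Finset.card_le_two).trans (by norm_num))
  have he2 : e ≠ 2 := fun h' => heT (by rw [h']; exact Finset.mem_insert_self _ _)
  have hem2 : e ≠ -2 := fun h' => heT (by rw [h']; exact Finset.mem_insert_of_mem (Finset.mem_singleton_self _))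
  let L := AlgebraicClosure K
  let ι : K →+* L := algebraMap K L
  let κ : Fx τ →+* L := ι.comp (Fx τ).subtype
  have hκ : Function.Injective κ := κ.injective
  have hκ1 : ∀ y : Fx τ, κ y = ι (y : K) := fun _ => rfl
  have hL2 : (2 : L) ≠ 0 := by
    intro h0
    apply h2'
    apply hκ
    rw [map_ofNat, map_zero, h0]
  obtain ⟨a, b, hab, hab1⟩ := exists_quad (ι (e : K)) (1 : L)
  have hab' : a + b = κ e := hab
  have ha0 : a ≠ 0 := fun h0 => by rw [h0, zero_mul] at hab1; exact zero_ne_one hab1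
  have hb0 : b ≠ 0 := fun h0 => by rw [h0, mul_zero] at hab1; exact zero_ne_one hab1
  have n1 : ι (-1) ≠ a := by
    intro h0
    rw [map_neg, map_one] at h0
    rw [← h0] at hab1 hab'
    have hb : b = -1 := by linear_combination (-1 : L) * hab1
    apply hem2
    apply hκ
    rw [map_neg, map_ofNat, ← hab', hb]; ring
  have n2 : ι (-1) ≠ b := by
    intro h0
    rw [map_neg, map_one] at h0
    rw [← h0] at hab1 hab'
    have ha : a = -1 := by linear_combination (-1 : L) * hab1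
    apply hem2
    apply hκ
    rw [map_neg, map_ofNat, ← hab', ha]; ring
  have n3 : a ≠ b := by
    intro h0
    rw [← h0] at hab1 hab'
    have h3 : (a - 1) * (a + 1) = 0 := by linear_combination hab1
    rcases mul_eq_zero.1 h3 with h4 | h4
    · apply he2
      apply hκ
      rw [map_ofNat, ← hab', sub_eq_zero.1 h4]; norm_num
    · apply hem2
      apply hκ
      rw [map_neg, map_ofNat, ← hab', eq_neg_of_add_eq_zero_left h4]; ring
  have hD : Function.Injective (![ι (-1), a, b] : Fin 3 → L) := pj_inj n1 n2 n3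
  have q1 : a + b = ι (e : K) := hab
  have q2 : a * b = ι 1 := by rw [hab1, map_one]
  have split := z3_split (ι := ι) (l := (-1 : K)) (c := 1) (e := (e : K)) q1 q2
  have c3 : CD (z3 (-1 : K) 1 (e : K)) := z3_cd q1 q2 hD
  have hm : minpoly K (z3 (-1 : K) 1 (e : K)) = (z3 (-1 : K) 1 (e : K)).charpoly := minpoly_sep _ ι hD split
  have hi : Sim (z3 (-1 : K) 1 (e : K)) (pj_z (e : K)) := sim_sep hD split c3 (pj_cp _)
  have e3 : (z3 (-1 : K) 1 (e : K)).det = -1 := by rw [z3_det, mul_one]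
  have hZ : (z3 (-1 : K) 1 (e : K)).map τ = z3 (-1 : K) 1 (e : K) := by
    have he : τ (e : K) = (e : K) := mem_Fx.1 e.2
    ext i j
    fin_cases i <;> fin_cases j <;> simp [z3, he]
  let D3 : Fin 3 → Lˣ := ![-1, Units.mk0 a ha0, Units.mk0 b hb0]
  have d0 : (D3 0 : L) = -1 := by show (((-1 : Lˣ)) : L) = -1; rw [Units.val_neg, Units.val_one]
  have d1 : (D3 1 : L) = a := rfl
  have d2' : (D3 2 : L) = b := rfl
  have hcoe : ∀ i, (D3 i : L) = (![ι (-1), a, b] : Fin 3 → L) i := by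
    intro i
    fin_cases i
    · show (D3 0 : L) = ι (-1)
      rw [d0, map_neg, map_one]
    · rfl
    · rfl
  have hD' : Function.Injective D3 := fun i j hij => hD (by rw [← hcoe, ← hcoe, hij])
  obtain ⟨P, q3⟩ := diag_sep (n := 2) (ι := ι) (Z := z3 (-1 : K) 1 (e : K)) hD' (by
    rw [split]
    exact Finset.prod_congr rfl fun i _ => by rw [hcoe])
  have rel := pj_rel κ h2' he0 he2 hab' hab1 d0 d1 d2'
  have N2 : ∀ i j, D3 i * D3 j ≠ -1 := by
    intro i j hij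
    obtain ⟨r, hr, e1⟩ := rel i j
    have e2 : (D3 i : L) * D3 j = -1 := by
      have := congrArg (fun y : Lˣ => (y : L)) hij
      simpa using this
    rw [e2] at e1
    apply hr
    apply hκ
    rw [map_neg, map_ofNat]
    linear_combination e1
  have N1 : ∀ u : Lˣ, (u : L) * u - ι (s : K) * u - 1 = 0 → ∀ i j, u ≠ D3 i * D3 j := by
    intro u hu i j hij
    obtain ⟨r, -, e1⟩ := rel i j
    have e2 : (D3 i : L) * D3 j = u := by rw [hij, Units.val_mul]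
    rw [e2] at e1
    have e4 : (2 * (u : L) - (κ s + κ r)) * u = 0 := by
      rw [hκ1 s]
      linear_combination hu + e1
    have e5 : 2 * (u : L) = κ (s + r) := by
      rw [map_add]
      exact sub_eq_zero.1 ((mul_eq_zero.1 e4).resolve_right u.ne_zero)
    have e6 : κ ((s + r) / 2) = u := by
      rw [map_div₀, map_ofNat, ← e5, mul_div_assoc, mul_div_cancel₀ _ hL2]
    apply hs ((s + r) / 2)
    apply hκ
    rw [map_sub, map_sub, map_mul, map_mul, map_one, map_zero, e6, hκ1 s]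
    exact hu
  have hK4 : 4 ≤ Nat.card K := by
    have : Nat.card (Fx τ) ≤ Nat.card K := Nat.card_le_card_of_injective (fun y : Fx τ => (y : K)) Subtype.val_injective
    omega
  exact mainT (L := L) h hτ H hs0 hs4 (fun h0 => absurd h0 h2') e3 (pj_mul _) hZ hm c3 (Or.inr hi) ι ut_one q3 N2 N1
    (PB := fun B => ∀ t : K, B.1 ≠ t • (1 : Matrix (Fin 3) (Fin 3) K)) (fun B hB => z3_prod hK4 (by rw [mul_one]) q1 q2 hD B hB)
    (fun g hg hc => gaussA h hτ H (by omega) hg hc)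
-- END pj

-- BEGIN pk
private theorem pk_sq {L : Type*} [Field L] (h2 : (2 : L) = 0) {u v : L} (h : u * u = v * v) : u = v := by
  have h1 : (u - v) * (u - v) = 0 := by linear_combination h + (v * v - u * v) * h2
  exact sub_eq_zero.1 (mul_self_eq_zero.1 h1)

private theorem pk_root {L : Type*} [Field L] (h2 : (2 : L) = 0) {B E r r' : L} (hB : B ≠ 0) (hE : E ≠ 0)
    (f1 : (1 : L) * 1 - E * 1 + (B ^ 4)⁻¹ ≠ 0) (f2 : B ^ 2 * B ^ 2 - E * B ^ 2 + (B ^ 4)⁻¹ ≠ 0) (f3 : B * B - E * B + (B ^ 4)⁻¹ ≠ 0) (f4 : B⁻¹ * B⁻¹ - E * B⁻¹ + (B ^ 4)⁻¹ ≠ 0)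
    (h1 : r + r' = E) (hp : r * r' = (B ^ 4)⁻¹) :
    (B ^ 4 * r ≠ 1 ∧ B ^ 4 * r ≠ B ^ 2 ∧ B ^ 4 * r ≠ (B ^ 2)⁻¹) ∧ r * r ≠ 1 ∧ r * r ≠ B ^ 2 ∧ r * r ≠ (B ^ 2)⁻¹ := by
  have hB2 : B ^ 2 ≠ 0 := pow_ne_zero _ hB
  have hB4 : B ^ 4 ≠ 0 := pow_ne_zero _ hB
  have hr : r * r - E * r + (B ^ 4)⁻¹ = 0 := by rw [← hp, ← h1]; ring
  have hr' : r' * r' - E * r' + (B ^ 4)⁻¹ = 0 := by rw [← hp, ← h1]; ring
  have hm : B ^ 4 * r * r' = 1 := by rw [mul_assoc, hp, mul_inv_cancel₀ hB4]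
  refine ⟨⟨fun h => ?_, fun h => ?_, fun h => ?_⟩, fun h => ?_, fun h => ?_, fun h => ?_⟩
  · rw [h, one_mul] at hm
    rw [hm] at hr'
    exact f1 hr'
  · rw [h] at hm
    have h3 : B ^ 2 * (B ^ 2 * r) = B ^ 2 * 1 := by
      calc B ^ 2 * (B ^ 2 * r) = B ^ 4 * r := by ring
        _ = B ^ 2 * 1 := by rw [h, mul_one]
    have h4 : B ^ 2 * r = 1 := mul_left_cancel₀ hB2 h3
    have h5 : r = r' := mul_left_cancel₀ hB2 (h4.trans hm.symm)
    apply hE
    rw [← h1, ← h5]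
    linear_combination r * h2
  · rw [h] at hm
    have h3 : r' = B ^ 2 := by
      have h4 : B ^ 2 * ((B ^ 2)⁻¹ * r') = r' := by rw [← mul_assoc, mul_inv_cancel₀ hB2, one_mul]
      rw [hm, mul_one] at h4
      exact h4.symm
    rw [h3] at hr'
    exact f2 hr'
  · have h3 : r = 1 := pk_sq h2 (h.trans (one_mul 1).symm)
    rw [h3] at hr
    exact f1 hr
  · have h3 : r = B := pk_sq h2 (h.trans (pow_two B))
    rw [h3] at hr
    exact f3 hr
  · have h3 : r = B⁻¹ := pk_sq h2 (by rw [h, pow_two, mul_inv])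
    rw [h3] at hr
    exact f4 hr

private theorem pk_core {L : Type*} [Field L] (h2 : (2 : L) = 0) {B E r r' : L} (hB : B ≠ 0) (hk : ∀ k : ℕ, 1 ≤ k → k ≤ 5 → B ^ k ≠ 1) (hE : E ≠ 0)
    (f1 : (1 : L) * 1 - E * 1 + (B ^ 4)⁻¹ ≠ 0) (f2 : B ^ 2 * B ^ 2 - E * B ^ 2 + (B ^ 4)⁻¹ ≠ 0) (f3 : B * B - E * B + (B ^ 4)⁻¹ ≠ 0) (f4 : B⁻¹ * B⁻¹ - E * B⁻¹ + (B ^ 4)⁻¹ ≠ 0)
    (h1 : r + r' = E) (hp : r * r' = (B ^ 4)⁻¹) (i j : Fin 3) :
    (![B ^ 4, r, r'] : Fin 3 → L) i * (![B ^ 4, r, r'] : Fin 3 → L) j ≠ 1 ∧ (![B ^ 4, r, r'] : Fin 3 → L) i * (![B ^ 4, r, r'] : Fin 3 → L) j ≠ B ^ 2 ∧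
      (![B ^ 4, r, r'] : Fin 3 → L) i * (![B ^ 4, r, r'] : Fin 3 → L) j ≠ (B ^ 2)⁻¹ := by
  have hB2 : B ^ 2 ≠ 0 := pow_ne_zero _ hB
  have hB4 : B ^ 4 ≠ 0 := pow_ne_zero _ hB
  have R := pk_root h2 hB hE f1 f2 f3 f4 h1 hp
  have R' := pk_root h2 hB hE f1 f2 f3 f4 ((add_comm r' r).trans h1) ((mul_comm r' r).trans hp)
  have h6 : B ^ 6 ≠ 1 := fun h => hk 3 (by norm_num) (by norm_num) (pk_sq h2 (by rw [one_mul, ← h]; ring))
  have h10 : B ^ 10 ≠ 1 := fun h => hk 5 (by norm_num) (by norm_num) (pk_sq h2 (by rw [one_mul, ← h]; ring))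
  have e00 : B ^ 4 * B ^ 4 ≠ 1 ∧ B ^ 4 * B ^ 4 ≠ B ^ 2 ∧ B ^ 4 * B ^ 4 ≠ (B ^ 2)⁻¹ := by
    refine ⟨fun h => ?_, fun h => ?_, fun h => ?_⟩
    · exact hk 4 (by norm_num) (by norm_num) (pk_sq h2 (by rw [one_mul]; exact h))
    · apply h6
      refine mul_left_cancel₀ hB2 ?_
      rw [mul_one]
      calc B ^ 2 * B ^ 6 = B ^ 4 * B ^ 4 := by ring
        _ = B ^ 2 := h
    · apply h10
      calc B ^ 10 = B ^ 2 * (B ^ 4 * B ^ 4) := by ring
        _ = 1 := by rw [h, mul_inv_cancel₀ hB2]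
  have e12 : r * r' ≠ 1 ∧ r * r' ≠ B ^ 2 ∧ r * r' ≠ (B ^ 2)⁻¹ := by
    rw [hp]
    refine ⟨fun h => ?_, fun h => ?_, fun h => ?_⟩
    · exact hk 4 (by norm_num) (by norm_num) (inv_eq_one.1 h)
    · apply h6
      calc B ^ 6 = B ^ 4 * B ^ 2 := by ring
        _ = 1 := by rw [← h, mul_inv_cancel₀ hB4]
    · apply hk 2 (by norm_num) (by norm_num)
      have h3 : B ^ 4 = B ^ 2 := inv_injective h
      refine mul_left_cancel₀ hB2 ?_
      rw [mul_one]
      calc B ^ 2 * B ^ 2 = B ^ 4 := by ring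
        _ = B ^ 2 := h3
  have hi : ∀ i : Fin 3, i = 0 ∨ i = 1 ∨ i = 2 := by decide
  rcases hi i with rfl | rfl | rfl <;> rcases hi j with rfl | rfl | rfl
  · exact e00
  · exact R.1
  · exact R'.1
  · show r * B ^ 4 ≠ 1 ∧ r * B ^ 4 ≠ B ^ 2 ∧ r * B ^ 4 ≠ (B ^ 2)⁻¹
    rw [mul_comm r (B ^ 4)]
    exact R.1
  · exact R.2
  · exact e12
  · show r' * B ^ 4 ≠ 1 ∧ r' * B ^ 4 ≠ B ^ 2 ∧ r' * B ^ 4 ≠ (B ^ 2)⁻¹
    rw [mul_comm r' (B ^ 4)]
    exact R'.1
  · show r' * r ≠ 1 ∧ r' * r ≠ B ^ 2 ∧ r' * r ≠ (B ^ 2)⁻¹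
    rw [mul_comm r' r]
    exact e12
  · exact R'.2

/-- MODULE pk. CHARACTERISTIC 2, `|K_0| ≥ 8`.  Parameters: `b ∈ K_0` with `b^k ≠ 1` for `1 ≤ k ≤ 5` (a generator of the cyclic group of the units, order `≥ 7`), and `e ∈ K_0`, `e ≠ 0`, such that `f(X) = X^2 - e X + b^(-4)` is not zero at `b^4`, `1`, `b^2`, `b`, `b^(-1)` (each excludes one `e`; 6 excluded values). -/
theorem exists_be {F : Type*} [Field F] [Finite F] (hF : 8 ≤ Nat.card F) : ∃ b e : F, b ≠ 0 ∧ (∀ k : ℕ, 1 ≤ k → k ≤ 5 → b ^ k ≠ 1) ∧ e ≠ 0 ∧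
    ∀ t ∈ [b ^ 4, 1, b ^ 2, b, b⁻¹], t * t - e * t + (b ^ 4)⁻¹ ≠ 0 := by
  classical
  have hfin : Fintype F := Fintype.ofFinite F
  rw [Nat.card_eq_fintype_card] at hF
  obtain ⟨β, hβ⟩ := IsCyclic.exists_ofOrder_eq_natCard (α := Fˣ)
  have hord : 7 ≤ orderOf β := by
    rw [hβ, Nat.card_eq_fintype_card, Fintype.card_units]
    omega
  have hb : ∀ k : ℕ, 1 ≤ k → k ≤ 5 → ((β : F)) ^ k ≠ 1 := by
    intro k h1 h5 h
    have h2 : β ^ k = 1 := by
      refine Units.ext ?_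
      rw [Units.val_pow_eq_pow_val, h, Units.val_one]
    have h3 := Nat.le_of_dvd (by omega) (orderOf_dvd_of_pow_eq_one h2)
    omega
  have hβ0 : (β : F) ≠ 0 := β.ne_zero
  let T : Finset F := insert 0 (([(β : F) ^ 4, 1, (β : F) ^ 2, (β : F), (β : F)⁻¹].map fun t => (t * t + ((β : F) ^ 4)⁻¹) / t).toFinset)
  have hT : T.card < (Finset.univ : Finset F).card := by
    have h1 : T.card ≤ ([(β : F) ^ 4, 1, (β : F) ^ 2, (β : F), (β : F)⁻¹].map fun t => (t * t + ((β : F) ^ 4)⁻¹) / t).toFinset.card + 1 := Finset.card_insert_le _ _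
    have h2 := List.toFinset_card_le ([(β : F) ^ 4, 1, (β : F) ^ 2, (β : F), (β : F)⁻¹].map fun t => (t * t + ((β : F) ^ 4)⁻¹) / t)
    rw [List.length_map] at h2
    have h3 : [(β : F) ^ 4, 1, (β : F) ^ 2, (β : F), (β : F)⁻¹].length = 5 := rfl
    rw [h3] at h2
    rw [Finset.card_univ]
    omega
  obtain ⟨e, -, he⟩ := Finset.exists_mem_notMem_of_card_lt_card hT
  refine ⟨(β : F), e, hβ0, hb, ?_, ?_⟩
  · rintro rfl
    exact he (Finset.mem_insert_self _ _)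
  · intro t ht h
    apply he
    refine Finset.mem_insert_of_mem ?_
    rw [List.mem_toFinset, List.mem_map]
    refine ⟨t, ht, ?_⟩
    have ht0 : t ≠ 0 := by
      simp only [List.mem_cons, List.not_mem_nil, or_false] at ht
      rcases ht with rfl | rfl | rfl | rfl | rfl
      · exact pow_ne_zero _ hβ0
      · exact one_ne_zero
      · exact pow_ne_zero _ hβ0
      · exact hβ0
      · exact inv_ne_zero hβ0
    rw [div_eq_iff ht0]
    linear_combination h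

/-- CASE III: `g = b^2`, `s = g + g⁻¹`, (`-1 = 1`), `X^2 - s X - 1 = (X - g)(X - g⁻¹)`, `Z3 = z3 (g^2) (g^2)⁻¹ e`; `a + a' = e`, `a a' = g^(-2)` in the algebraic closure.  `![g^2, a, a']` is injective: `e ≠ 0`, `f(g^2) ≠ 0`.  Products: `g^4`, `g^2 a`, `g^2 a'`, `a^2`, `a'^2`, `a a' = g^(-2)`.
`N2` (`≠ 1`): `g^4 = 1` no; `g^2 a = 1`: `a = g^(-2)`, `a' = 1`, `f(1) = 0`; `a^2 = 1`: `a = 1`; `g^2 = 1` no.  `N1` (`≠ g`, `≠ g⁻¹`): `g^4 = g^(± 1)`: `g^3 = 1` or `g^5 = 1`, i.e. `b^6 = 1`, `b^10 = 1` (in characteristic 2: `b^3 = 1`, `b^5 = 1`); `g^2 a = g`: `a = g⁻¹ = a'`, `e = 0`; `g^2 a = g⁻¹`: `a = g^(-3)`, `a' = g = b^2`;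
`a^2 = g`: `a = b`; `a^2 = g⁻¹`: `a = b⁻¹`; `g^(-2) = g^(± 1)`: `g^3 = 1` or `g = 1`.  `hP`: `z3_prod`; `hG`: `gaussA`; `h2`: `r = g`. -/
theorem caseIII [Finite K] (h : Stb K 6 x) (hτ : ∀ a, τ (τ a) = a) (h2 : (2 : K) = 0) (hK : 8 ≤ Nat.card (Fx τ)) : Good x τ := by
  classical
  have hfinF : Finite (Fx τ) := Subtype.finite
  obtain ⟨b, e, hb0, hbk, he0, hf⟩ := exists_be (F := Fx τ) hK
  obtain ⟨F1, F2, F3, H⟩ := exists_L3 h
  let ι : K →+* AlgebraicClosure K := algebraMap K (AlgebraicClosure K)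
  have hιinj : Function.Injective ι := ι.injective
  have h2F : (2 : Fx τ) = 0 := by
    refine Subtype.ext ?_
    show ((2 : Fx τ) : K) = 0
    rw [show ((2 : Fx τ) : K) = 2 from rfl, h2]
  have h2L : (2 : AlgebraicClosure K) = 0 := by
    have h3 := congrArg ι h2
    rwa [map_ofNat, map_zero] at h3
  let jj : Fx τ →+* AlgebraicClosure K := ι.comp (Fx τ).subtype
  have hjinj : Function.Injective jj := jj.injective
  have hj0 : ∀ t : Fx τ, t ≠ 0 → jj t ≠ 0 := fun t ht => (map_ne_zero jj).2 ht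
  have hf' : ∀ t ∈ [b ^ 4, 1, b ^ 2, b, b⁻¹], jj t * jj t - jj e * jj t + (jj b ^ 4)⁻¹ ≠ 0 := by
    intro t ht h0
    apply hf t ht
    apply hjinj
    rw [map_zero, map_add, map_sub, map_mul, map_mul, map_inv₀, map_pow]
    exact h0
  have hB : jj b ≠ 0 := hj0 b hb0
  have hkB : ∀ k : ℕ, 1 ≤ k → k ≤ 5 → jj b ^ k ≠ 1 := by
    intro k h1 h5 h0
    apply hbk k h1 h5
    apply hjinj
    rw [map_pow, map_one]
    exact h0
  have hE : jj e ≠ 0 := hj0 e he0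
  have hb2 : b ^ 2 ≠ 0 := pow_ne_zero _ hb0
  have hs0 : b ^ 2 + (b ^ 2)⁻¹ ≠ 0 := by
    intro h0
    apply hbk 4 (by norm_num) (by norm_num)
    have h3 : b ^ 2 * (b ^ 2 + (b ^ 2)⁻¹) = b ^ 4 + 1 := by
      rw [mul_add, mul_inv_cancel₀ hb2]
      ring
    rw [h0, mul_zero] at h3
    linear_combination -h3 - h2F
  have hs4 : (b ^ 2 + (b ^ 2)⁻¹) * (b ^ 2 + (b ^ 2)⁻¹) + 4 ≠ 0 := by
    have h3 : (4 : Fx τ) = 0 := by linear_combination 2 * h2F
    rw [h3, add_zero]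
    exact mul_ne_zero hs0 hs0
  have hroot : (2 : Fx τ) = 0 → ∃ r : Fx τ, r * r - (b ^ 2 + (b ^ 2)⁻¹) * r - 1 = 0 := by
    intro _
    refine ⟨b ^ 2, ?_⟩
    have h3 : (b ^ 2)⁻¹ * b ^ 2 = 1 := inv_mul_cancel₀ hb2
    linear_combination -h3 - h2F
  obtain ⟨a, a', ha1, ha2⟩ := exists_quad (jj e) ((jj b ^ 4)⁻¹)
  have hle : ι ((b : K) ^ 4) = jj b ^ 4 := map_pow ι _ _
  have hce : ι (((b : K) ^ 4)⁻¹) = (jj b ^ 4)⁻¹ := by rw [map_inv₀, hle]
  have hB4 : jj b ^ 4 ≠ 0 := pow_ne_zero _ hB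
  have hane : a ≠ 0 := by
    rintro rfl
    rw [zero_mul] at ha2
    exact inv_ne_zero hB4 ha2.symm
  have ha'ne : a' ≠ 0 := by
    rintro rfl
    rw [mul_zero] at ha2
    exact inv_ne_zero hB4 ha2.symm
  have hra : a * a - jj e * a + (jj b ^ 4)⁻¹ = 0 := by rw [← ha2, ← ha1]; ring
  have hra' : a' * a' - jj e * a' + (jj b ^ 4)⁻¹ = 0 := by rw [← ha2, ← ha1]; ring
  have hf4 : jj b ^ 4 * jj b ^ 4 - jj e * jj b ^ 4 + (jj b ^ 4)⁻¹ ≠ 0 := by
    have h3 := hf' (b ^ 4) (by simp)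
    rwa [map_pow] at h3
  have hne1 : jj b ^ 4 ≠ a := by
    intro h0
    rw [← h0] at hra
    exact hf4 hra
  have hne2 : jj b ^ 4 ≠ a' := by
    intro h0
    rw [← h0] at hra'
    exact hf4 hra'
  have hne3 : a ≠ a' := by
    intro h0
    apply hE
    rw [← ha1, ← h0]
    linear_combination a * h2L
  have hD : Function.Injective (![ι ((b : K) ^ 4), a, a'] : Fin 3 → AlgebraicClosure K) := by
    have hi : ∀ i : Fin 3, i = 0 ∨ i = 1 ∨ i = 2 := by decide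
    intro i j hij
    rcases hi i with rfl | rfl | rfl <;> rcases hi j with rfl | rfl | rfl
    · rfl
    · exact absurd (hle.symm.trans hij) hne1
    · exact absurd (hle.symm.trans hij) hne2
    · exact absurd (hle.symm.trans hij.symm) hne1
    · rfl
    · exact absurd hij hne3
    · exact absurd (hle.symm.trans hij.symm) hne2
    · exact absurd hij.symm hne3
    · rfl
  have q1 : a + a' = ι (e : K) := ha1
  have q2 : a * a' = ι (((b : K) ^ 4)⁻¹) := ha2.trans hce.symm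
  have hbK : (b : K) ≠ 0 := fun h0 => hb0 (Subtype.ext h0)
  have hlc : (b : K) ^ 4 * ((b : K) ^ 4)⁻¹ = -1 := by
    rw [mul_inv_cancel₀ (pow_ne_zero _ hbK)]
    linear_combination h2
  have e3 : (z3 ((b : K) ^ 4) (((b : K) ^ 4)⁻¹) (e : K)).det = -1 := by rw [z3_det, hlc]
  have hsplit := z3_split (l := (b : K) ^ 4) q1 q2
  have hm := minpoly_sep (z3 ((b : K) ^ 4) (((b : K) ^ 4)⁻¹) (e : K)) ι hD hsplit
  have c3 : CD (z3 ((b : K) ^ 4) (((b : K) ^ 4)⁻¹) (e : K)) := z3_cd q1 q2 hD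
  have i3 : z3 ((b : K) ^ 4) (((b : K) ^ 4)⁻¹) (e : K) * (z3 ((b : K) ^ 4) (((b : K) ^ 4)⁻¹) (e : K))⁻¹ = 1 := by
    refine Matrix.mul_nonsing_inv _ ?_
    rw [e3]
    exact isUnit_one.neg
  have hτb : τ (b : K) = b := b.2
  have hτe : τ (e : K) = e := e.2
  have hZ : (z3 ((b : K) ^ 4) (((b : K) ^ 4)⁻¹) (e : K)).map τ = z3 ((b : K) ^ 4) (((b : K) ^ 4)⁻¹) (e : K) := by
    ext i j
    have hi : ∀ i : Fin 3, i = 0 ∨ i = 1 ∨ i = 2 := by decide
    rcases hi i with rfl | rfl | rfl <;> rcases hi j with rfl | rfl | rfl <;> simp [z3, hτb, hτe]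
  let D3 : Fin 3 → (AlgebraicClosure K)ˣ := ![Units.mk0 (ι ((b : K) ^ 4)) (by rw [hle]; exact hB4), Units.mk0 a hane, Units.mk0 a' ha'ne]
  have hDv : ∀ i, ((D3 i : (AlgebraicClosure K)ˣ) : AlgebraicClosure K) = (![ι ((b : K) ^ 4), a, a'] : Fin 3 → AlgebraicClosure K) i := by
    have hi : ∀ i : Fin 3, i = 0 ∨ i = 1 ∨ i = 2 := by decide
    intro i
    rcases hi i with rfl | rfl | rfl <;> rfl
  have hD3 : Function.Injective D3 := by
    intro i j hij
    apply hD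
    rw [← hDv i, ← hDv j, hij]
  have hsplit3 : (z3 ((b : K) ^ 4) (((b : K) ^ 4)⁻¹) (e : K)).charpoly.map ι = ∏ i, (X - C ((D3 i : (AlgebraicClosure K)ˣ) : AlgebraicClosure K)) := by
    rw [hsplit]
    exact Finset.prod_congr rfl fun i _ => by rw [hDv i]
  obtain ⟨P3, q3⟩ := diag_sep hD3 hsplit3
  have f1 := hf' 1 (by simp)
  rw [map_one] at f1
  have f2 := hf' (b ^ 2) (by simp)
  rw [map_pow] at f2
  have f3 := hf' b (by simp)
  have f4 := hf' b⁻¹ (by simp)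
  rw [map_inv₀] at f4
  have core := pk_core h2L hB hkB hE f1 f2 f3 f4 ha1 ha2
  have hprod : ∀ i j, ((D3 i * D3 j : (AlgebraicClosure K)ˣ) : AlgebraicClosure K) =
      (![jj b ^ 4, a, a'] : Fin 3 → AlgebraicClosure K) i * (![jj b ^ 4, a, a'] : Fin 3 → AlgebraicClosure K) j := by
    intro i j
    rw [Units.val_mul, hDv i, hDv j, hle]
  have N2 : ∀ i j, D3 i * D3 j ≠ -1 := by
    intro i j h0
    apply (core i j).1
    rw [← hprod i j, h0, Units.val_neg, Units.val_one]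
    linear_combination -h2L
  have N1 : ∀ u : (AlgebraicClosure K)ˣ, (u : AlgebraicClosure K) * u - ι (((b ^ 2 + (b ^ 2)⁻¹ : Fx τ) : K)) * u - 1 = 0 → ∀ i j, u ≠ D3 i * D3 j := by
    intro u hu i j h0
    have hsv : ι (((b ^ 2 + (b ^ 2)⁻¹ : Fx τ) : K)) = jj b ^ 2 + (jj b ^ 2)⁻¹ := by
      show jj (b ^ 2 + (b ^ 2)⁻¹) = _
      rw [map_add, map_inv₀, map_pow]
    rw [hsv] at hu
    have hB2 : jj b ^ 2 ≠ 0 := pow_ne_zero _ hB
    have h3 : ((u : AlgebraicClosure K) - jj b ^ 2) * (u - (jj b ^ 2)⁻¹) = 0 := by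
      have h4 : jj b ^ 2 * (jj b ^ 2)⁻¹ = 1 := mul_inv_cancel₀ hB2
      linear_combination hu + h4 + h2L
    rcases mul_eq_zero.1 h3 with h4 | h4
    · apply (core i j).2.1
      rw [← hprod i j, ← h0]
      exact sub_eq_zero.1 h4
    · apply (core i j).2.2
      rw [← hprod i j, ← h0]
      exact sub_eq_zero.1 h4
  have hcardK : 4 ≤ Nat.card K := by
    have h3 : Nat.card (Fx τ) ≤ Nat.card K := Nat.card_le_card_of_injective (fun t : Fx τ => (t : K)) Subtype.val_injective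
    omega
  exact mainT h hτ H hs0 hs4 hroot e3 i3 hZ hm c3 (Or.inl h2) ι ut_one q3 N2 N1
    (PB := fun B => ∀ t : K, B.1 ≠ t • (1 : Matrix (Fin 3) (Fin 3) K))
    (fun B hBn => z3_prod hcardK hlc q1 q2 hD B hBn)
    (fun g hg hc => gaussA h hτ H (by omega) hg hc)
-- END pk

-- BEGIN pl
private theorem pl_neg {Y : Matrix (Fin 3) (Fin 3) K} (h : RU Y) : minpoly K (-Y) = (-Y).charpoly ∧ (-Y).charpoly = (X + C 1) ^ 3 := by
  have hm : minpoly K Y = (X - C 1) ^ 3 := h.2.trans h.1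
  have e1 : minpoly K (-Y) = (X + C 1) ^ 3 := by
    rw [minpoly.neg, hm, (monic_X_sub_C (1 : K)).natDegree_pow, natDegree_X_sub_C]
    simp only [pow_comp, sub_comp, X_comp, C_comp]
    ring
  have hi : IsIntegral K (-Y) := Matrix.isIntegral _
  have e2 : minpoly K (-Y) = (-Y).charpoly := by
    refine (eq_of_monic_of_dvd_of_natDegree_le (minpoly.monic hi) (Matrix.charpoly_monic _) (Matrix.minpoly_dvd_charpoly _) ?_).symm
    rw [Matrix.charpoly_natDegree_eq_dim, e1, (monic_X_add_C (1 : K)).natDegree_pow, natDegree_X_add_C]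
    simp
  exact ⟨e2, e2 ▸ e1⟩

private theorem pl_sim [Finite K] (h3 : (3 : K) = 0) {Y Z : Matrix (Fin 3) (Fin 3) K} (hY : RU Y) (hZ : RU Z) : Sim (-Y) (-Z) :=
  conj_SLm (pl_neg hY).1 (pl_neg hZ).1 ((pl_neg hY).2.trans (pl_neg hZ).2.symm) (cd_three h3 _)

/-- MODULE pl. CASE I: `|K_0| = 3`: `K_0 = {0, 1, -1}`, characteristic 3, `s = 1`, `s^2 + 4 = 5 ≠ 0`; `Z3 = -J`, `J = [[1,1,0],[0,1,1],[0,0,1]]`; `RU J` (`ru_upper`), `-J` has characteristic polynomial `(X + 1)^3` = minimal polynomial (`aeval (-J) p = aeval J (p.comp (-X))`), `CD`: `cd_three`; if `RU Y` then `Sim Z3 (-Y)` (`conj_SLm`).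
`hi`: `Z3' = -J⁻¹`, `J⁻¹ = [[1,-1,1],[0,1,-1],[0,0,1]]`, `RU`.  `hP`: `prodJ`: `B = J1 J2 = (-J1)(-J2)`.  `q3`: `P3 = 1`, `D3 = -1`, `U = J`.  `N2`: `1 ≠ -1`; `N1`: `a = 1` is not a root (`s ≠ 0`).  `hG`: `gaussB`. -/
theorem caseI [Finite K] (h : Stb K 6 x) (hτ : ∀ a, τ (τ a) = a) (h3 : Nat.card (Fx τ) = 3) : Good x τ := by
  have t3 : (3 : Fx τ) = 0 := by
    have h0 := card_nsmul_eq_zero' (x := (1 : Fx τ))
    rw [h3] at h0
    simpa using h0
  have k3 : (3 : K) = 0 := by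
    have h0 := congrArg (Fx τ).subtype t3
    rwa [map_ofNat, map_zero] at h0
  have k2 : (2 : K) ≠ 0 := fun h2 => one_ne_zero (α := K) (by linear_combination k3 - h2)
  have f2 : (2 : Fx τ) ≠ 0 := fun h2 => one_ne_zero (α := Fx τ) (by linear_combination t3 - h2)
  have k11 : (-1 : K) ≠ 1 := fun h1 => k2 (by linear_combination -h1)
  have hF : ∀ a : K, a ∈ Fx τ → a = 0 ∨ a = 1 ∨ a = -1 := by
    intro a ha
    have : Fintype (Fx τ) := Fintype.ofFinite _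
    have h0 := FiniteField.pow_card (⟨a, ha⟩ : Fx τ)
    rw [← Nat.card_eq_fintype_card, h3] at h0
    have h1 : a ^ 3 = a := congrArg (Fx τ).subtype h0
    have h4 : a * ((a - 1) * (a + 1)) = 0 := by linear_combination h1
    rcases mul_eq_zero.1 h4 with h5 | h5
    · exact Or.inl h5
    · rcases mul_eq_zero.1 h5 with h6 | h6
      · exact Or.inr (Or.inl (sub_eq_zero.1 h6))
      · exact Or.inr (Or.inr (eq_neg_of_add_eq_zero_left h6))
  obtain ⟨F1, F2, F3, H⟩ := exists_L3 h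
  have hJ : RU (!![1, 1, 0; 0, 1, 1; 0, 0, 1] : Matrix (Fin 3) (Fin 3) K) := ru_upper one_ne_zero one_ne_zero 0
  have hJ' : RU (!![1, -1, 1; 0, 1, -1; 0, 0, 1] : Matrix (Fin 3) (Fin 3) K) := ru_upper (neg_ne_zero.2 one_ne_zero) (neg_ne_zero.2 one_ne_zero) 1
  have e3 : (-(!![1, 1, 0; 0, 1, 1; 0, 0, 1] : Matrix (Fin 3) (Fin 3) K)).det = -1 := by
    rw [Matrix.det_fin_three]; simp
  have i3 : -(!![1, 1, 0; 0, 1, 1; 0, 0, 1] : Matrix (Fin 3) (Fin 3) K) * -(!![1, -1, 1; 0, 1, -1; 0, 0, 1] : Matrix (Fin 3) (Fin 3) K) = 1 := by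
    ext i j; fin_cases i <;> fin_cases j <;> simp [Matrix.mul_apply, Fin.sum_univ_three]
  have hZ : (-(!![1, 1, 0; 0, 1, 1; 0, 0, 1] : Matrix (Fin 3) (Fin 3) K)).map τ = -(!![1, 1, 0; 0, 1, 1; 0, 0, 1] : Matrix (Fin 3) (Fin 3) K) := by
    ext i j; fin_cases i <;> fin_cases j <;> simp
  have hs4 : (1 : Fx τ) * 1 + 4 ≠ 0 := fun h0 => f2 (by linear_combination h0 - t3)
  have l2 : (2 : AlgebraicClosure K) ≠ 0 := by
    intro h0
    refine k2 ((algebraMap K (AlgebraicClosure K)).injective ?_)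
    rw [map_ofNat, map_zero, h0]
  refine mainT (L := AlgebraicClosure K) (s := 1) h hτ H one_ne_zero hs4 (fun h0 => absurd h0 f2) e3 i3 hZ (pl_neg hJ).1 (cd_three k3 _) (Or.inr (pl_sim k3 hJ hJ')) (algebraMap K (AlgebraicClosure K))
    (P3 := 1) (U := ⟨!![1, 1, 0; 0, 1, 1; 0, 0, 1], by rw [Matrix.det_fin_three]; simp⟩) (D3 := fun _ => -1) ?_ ?_ ?_ ?_ (PB := fun _ => True) ?_ ?_
  · refine ⟨fun i j hij => ?_, fun i => ?_⟩
    · fin_cases i <;> fin_cases j <;> simp at hij ⊢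
    · fin_cases i <;> simp
  · rw [inv_one, Matrix.SpecialLinearGroup.coe_one, one_mul, mul_one]
    ext i j; fin_cases i <;> fin_cases j <;> simp
  · intro i j h0
    have h1 := congrArg Units.val h0
    simp only [Units.val_mul, Units.val_neg, Units.val_one] at h1
    exact l2 (by linear_combination h1)
  · intro a ha i j h0
    rw [h0] at ha
    simp at ha
  · intro B _
    obtain ⟨J1, J2, h1, h2, h4⟩ := prodJ k3 B.2
    exact ⟨-J1, -J2, pl_sim k3 hJ h1, pl_sim k3 hJ h2, by rw [neg_mul_neg]; exact h4⟩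
  · intro g hg hc
    obtain ⟨c, hc', v, hv, u, hu, A, B, e⟩ := gaussB h hτ H hF k11 hg hc
    exact ⟨c, hc', v, hv, u, hu, A, B, trivial, e⟩
-- END pl

/-- the exceptional product theorem for the fields with 4 and 16 elements -/
def Px (K : Type*) [Field K] : Prop := ∀ B : Matrix.SpecialLinearGroup (Fin 3) K, (∀ t : K, B.1 ≠ t • (1 : Matrix (Fin 3) (Fin 3) K)) →
  ∃ Y1 Y2 : Matrix (Fin 3) (Fin 3) K, Y1.charpoly = X ^ 3 + X ^ 2 + 1 ∧ Y2.charpoly = X ^ 3 + X ^ 2 + 1 ∧ B.1 = Y1 * Y2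

-- BEGIN pm
private theorem pm_step (hτ : ∀ a, τ (τ a) = a) (α : K) : ∃ t n : Fx τ, α * α = t * α - n := by
  refine ⟨⟨α + τ α, ?_⟩, ⟨α * τ α, ?_⟩, ?_⟩
  · show τ (α + τ α) = RingHom.id K (α + τ α)
    rw [map_add, hτ, RingHom.id_apply, add_comm]
  · show τ (α * τ α) = RingHom.id K (α * τ α)
    rw [map_mul, hτ, RingHom.id_apply, mul_comm]
  · show α * α = (α + τ α) * α - α * τ α
    ring

private theorem pm_seven {F : Type*} [CommRing F] (h2 : (2 : F) = 0) {a : F} (ha : a ^ 3 + a ^ 2 + 1 = 0) : a ^ 7 = 1 := by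
  linear_combination (a ^ 4 + a ^ 3 + a ^ 2 + 1) * ha - (a ^ 6 + a ^ 5 + a ^ 4 + a ^ 3 + a ^ 2 + 1) * h2

/-- the companion matrix of `X^3 - X^2 - 1` -/
private def pmZ (K : Type*) [Field K] : Matrix (Fin 3) (Fin 3) K := !![0, 0, 1; 1, 0, 0; 0, 1, 1]

private theorem pm_charpoly (h2 : (2 : K) = 0) : (pmZ K).charpoly = X ^ 3 + X ^ 2 + 1 := by
  have h2X : (2 : K[X]) = 0 := by
    calc (2 : K[X]) = C (2 : K) := (map_ofNat C 2).symm
      _ = 0 := by rw [h2, C_0]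
  rw [Matrix.charpoly, Matrix.det_fin_three]
  simp [pmZ]
  linear_combination -(X ^ 2 + 1) * h2X

/-- MODULE pm. `|K_0| = 4`: `K` has 4 or 16 elements (`τ = 1`, or `[K : K_0] = 2`: `K` is a vector space over `K_0` of dimension `≤ 2`: every `a ∈ K` is a root of `(X - a)(X - τ a) ∈ K_0[X]`; `card K = 4^d`, and an automorphism of order two of a finite field has a fixed field of index two: the Frobenius generates, or
Artin: `FixedPoints`, `IntermediateField.finrank_fixedField_eq_card`). -/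
theorem card_four [Finite K] (hτ : ∀ a, τ (τ a) = a) (h4 : Nat.card (Fx τ) = 4) : Nat.card K = 4 ∨ Nat.card K = 16 := by
  obtain ⟨α, hα⟩ := IsCyclic.exists_generator (α := Kˣ)
  obtain ⟨t, n, htn⟩ := pm_step hτ (α : K)
  have hpow : ∀ k : ℕ, ∃ a b : Fx τ, ((α : K)) ^ k = (a : K) + (b : K) * α := by
    intro k
    induction k with
    | zero => exact ⟨1, 0, by simp⟩
    | succ k ih =>
      obtain ⟨a, b, h⟩ := ih
      refine ⟨-(b * n), a + b * t, ?_⟩
      rw [pow_succ, h, Subfield.coe_neg, Subfield.coe_add, Subfield.coe_mul, Subfield.coe_mul]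
      linear_combination (b : K) * htn
  have hsur : Function.Surjective (fun p : Fx τ × Fx τ => (p.1 : K) + (p.2 : K) * α) := by
    intro y
    by_cases hy : y = 0
    · exact ⟨(0, 0), by simp [hy]⟩
    · obtain ⟨k, hk⟩ := (mem_powers_iff_mem_zpowers (x := α) (y := Units.mk0 y hy)).mpr (hα _)
      obtain ⟨a, b, h⟩ := hpow k
      refine ⟨(a, b), ?_⟩
      show (a : K) + (b : K) * α = y
      rw [← h, ← Units.val_pow_eq_pow_val]
      have := congrArg Units.val hk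
      simpa using this
  have hle : Nat.card K ≤ Nat.card (Fx τ × Fx τ) := Nat.card_le_card_of_surjective _ hsur
  rw [Nat.card_prod, h4] at hle
  have hd := Module.natCard_eq_pow_finrank (K := Fx τ) (V := K)
  rw [h4] at hd
  have h1 : 1 < Nat.card K := Finite.one_lt_card
  generalize Module.finrank (Fx τ) K = d at hd
  rcases d with _ | _ | _ | d
  · simp at hd
    omega
  · left
    simpa using hd
  · right
    simpa using hd
  · exfalso
    have : 4 ^ 3 ≤ 4 ^ (d + 3) := Nat.pow_le_pow_right (by norm_num) (by omega)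
    have h5 : Nat.card K = 4 ^ (d + 3) := hd
    omega

/-- `X^3 + X^2 + 1` is irreducible over a field with 4 or 16 elements: a root `a` has `a^7 = 1` (`(a^3 + a^2 + 1)(a^4 + a^3 + a^2 + 1) = a^7 + 1` in characteristic 2), `a ≠ 0`, `a^3 = 1` or `a^15 = 1`, so `a = a^15 = 1` resp. (`gcd(7, 3) = 1`, `gcd(7, 15) = 1`) `a = 1`, not a root -/
theorem irr_cubic [Finite K] (h2 : (2 : K) = 0) (hK : Nat.card K = 4 ∨ Nat.card K = 16) : Irreducible (X ^ 3 + X ^ 2 + 1 : K[X]) := by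
  classical
  have := Fintype.ofFinite K
  have hdeg : (X ^ 3 + X ^ 2 + 1 : K[X]).natDegree = 3 := by compute_degree!
  have hnr : ∀ a : K, ¬ IsRoot (X ^ 3 + X ^ 2 + 1 : K[X]) a := by
    intro a ha
    have ha' : a ^ 3 + a ^ 2 + 1 = 0 := by simpa [IsRoot] using ha
    have h7 := pm_seven h2 ha'
    have ha0 : a ≠ 0 := by
      rintro rfl
      norm_num at ha'
    have hq := FiniteField.pow_card_sub_one_eq_one a ha0
    rw [← Nat.card_eq_fintype_card] at hq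
    have h1 : a = 1 := by
      rcases hK with hK | hK <;> rw [hK] at hq <;> norm_num at hq
      · calc a = a ^ 7 := by rw [show a ^ 7 = a ^ 3 * a ^ 3 * a by ring, hq]; ring
          _ = 1 := h7
      · calc a = a ^ 15 := by rw [show a ^ 15 = a ^ 7 * a ^ 7 * a by ring, h7]; ring
          _ = 1 := hq
    rw [h1] at ha'
    have : (1 : K) = 0 := by linear_combination ha' - h2
    exact one_ne_zero this
  exact irreducible_of_degree_le_three_of_not_isRoot (by rw [hdeg]; simp) hnr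

/-- CASE IV.  `s = 1`, `X^2 - X - 1` has a root in `K_0` (a generator of the units), `s^2 + 4 = 1`; `Z3 = [[0,0,1],[1,0,0],[0,1,1]]`, characteristic polynomial `X^3 + X^2 + 1` (`-1 = 1`), determinant `1 = -1`; `CD`: `cd_irr`.  In the algebraic closure the roots are `a`, `a^2`, `a^4` with `a^7 = 1`, `a ≠ 1` (`X^3 + X^2 + 1 = (X - a)(X - a^2)(X - a^4)`:
compare coefficients, `a + a^2 + a^4 = 1`, using `a^3 = a^2 + 1`), different; the products are `a^2, a^4, a, a^3, a^5, a^6`, all `≠ 1`; `N1`: a root `u` of `X^2 + X + 1` has `u^3 = 1`, `u ≠ 1`, and `u^7 = u ≠ 1`, but the products have 7th power `1`.  `hP`: `Px K` and `sim_sep`; `hG`: `gaussA`. -/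
theorem caseIV [Finite K] (hP : Px K) (h : Stb K 6 x) (hτ : ∀ a, τ (τ a) = a) (h4 : Nat.card (Fx τ) = 4) : Good x τ := by
  classical
  have h2F : (2 : Fx τ) = 0 := by
    have := Fintype.ofFinite (Fx τ)
    have h := Nat.cast_card_eq_zero (Fx τ)
    rw [← Nat.card_eq_fintype_card, h4] at h
    have h' : (2 : Fx τ) * 2 = 0 := by
      have e : ((4 : ℕ) : Fx τ) = 2 * 2 := by norm_num
      rw [← e]
      exact h
    rcases mul_eq_zero.mp h' with h' | h' <;> exact h'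
  have h2 : (2 : K) = 0 := by
    calc (2 : K) = ((2 : Fx τ) : K) := rfl
      _ = 0 := by rw [h2F]; rfl
  have hK := card_four hτ h4
  have hirr := irr_cubic h2 hK
  obtain ⟨F1, F2, F3, H⟩ := exists_L3 h
  let L := AlgebraicClosure K
  let ι : K →+* L := algebraMap K L
  have h2L : (2 : L) = 0 := by
    have h := congrArg ι h2
    rwa [map_ofNat, map_zero] at h
  obtain ⟨a, ha⟩ : ∃ a : L, a ^ 3 + a ^ 2 + 1 = 0 := by
    obtain ⟨a, ha⟩ := IsAlgClosed.exists_root (X ^ 3 + X ^ 2 + 1 : L[X]) (by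
      have hd : (X ^ 3 + X ^ 2 + 1 : L[X]).degree = 3 := by compute_degree!
      rw [hd]
      norm_num)
    exact ⟨a, by simpa [IsRoot] using ha⟩
  have ha7 := pm_seven h2L ha
  have ha0 : a ≠ 0 := by
    rintro rfl
    norm_num at ha
  have hone : (1 : L) + 1 + 1 ≠ 0 := by
    intro h
    have : (1 : L) = 0 := by linear_combination h - h2L
    exact one_ne_zero this
  let u : Lˣ := Units.mk0 a ha0
  have hu1 : u ≠ 1 := by
    intro h
    have : a = 1 := congrArg Units.val h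
    rw [this] at ha
    exact hone (by linear_combination ha)
  have hu7 : u ^ 7 = 1 := Units.ext (by simpa [u] using ha7)
  have hord : orderOf u = 7 := by
    have := Fact.mk (by norm_num : Nat.Prime 7)
    exact orderOf_eq_prime hu7 hu1
  have hpow : ∀ k : ℕ, u ^ k = 1 → 7 ∣ k := fun k hk => hord ▸ orderOf_dvd_of_pow_eq_one hk
  set D : Fin 3 → Lˣ := ![u, u ^ 2, u ^ 4] with hDdef
  have hDinj : Function.Injective (fun i => (D i : L)) := by
    have key : ∀ m k : ℕ, u ^ (m + k) = u ^ m → 7 ∣ k := fun m k hmk => hpow k (by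
      rw [pow_add] at hmk
      exact mul_eq_left.mp hmk)
    intro i j hij
    have hij' : D i = D j := Units.ext hij
    fin_cases i <;> fin_cases j <;> simp only [hDdef] at hij' ⊢
    · exact absurd (key 1 1 (by simpa using hij'.symm)) (by decide)
    · exact absurd (key 1 3 (by simpa using hij'.symm)) (by decide)
    · exact absurd (key 1 1 (by simpa using hij')) (by decide)
    · exact absurd (key 2 2 (by simpa using hij'.symm)) (by decide)
    · exact absurd (key 1 3 (by simpa using hij')) (by decide)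
    · exact absurd (key 2 2 (by simpa using hij')) (by decide)
  have hprod : ∀ i j, ∃ k : ℕ, D i * D j = u ^ k ∧ ¬ 7 ∣ k := by
    intro i j
    fin_cases i <;> fin_cases j
    · exact ⟨2, Units.ext (by simp [hDdef]; ring), by decide⟩
    · exact ⟨3, Units.ext (by simp [hDdef]; ring), by decide⟩
    · exact ⟨5, Units.ext (by simp [hDdef]; ring), by decide⟩
    · exact ⟨3, Units.ext (by simp [hDdef]; ring), by decide⟩
    · exact ⟨4, Units.ext (by simp [hDdef]; ring), by decide⟩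
    · exact ⟨6, Units.ext (by simp [hDdef]; ring), by decide⟩
    · exact ⟨5, Units.ext (by simp [hDdef]; ring), by decide⟩
    · exact ⟨6, Units.ext (by simp [hDdef]; ring), by decide⟩
    · exact ⟨8, Units.ext (by simp [hDdef]; ring), by decide⟩
  have hcp : (pmZ K).charpoly = X ^ 3 + X ^ 2 + 1 := pm_charpoly h2
  have hsplit : (pmZ K).charpoly.map ι = ∏ i, (X - C ((D i : Lˣ) : L)) := by
    rw [hcp, Fin.prod_univ_three]
    have e1 : a + a ^ 2 + a ^ 4 = -1 := by linear_combination (a - 1) * ha + (a ^ 2 + 1) * h2L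
    have e2 : a ^ 3 + a ^ 5 + a ^ 6 = 0 := by linear_combination a ^ 3 * ha
    have c1 : (C a + C a ^ 2 + C a ^ 4 : L[X]) = -1 := by
      rw [← C_pow, ← C_pow, ← C_add, ← C_add, e1, C_neg, C_1]
    have c2 : (C a ^ 3 + C a ^ 5 + C a ^ 6 : L[X]) = 0 := by
      rw [← C_pow, ← C_pow, ← C_pow, ← C_add, ← C_add, e2, C_0]
    have c3 : (C a ^ 7 : L[X]) = 1 := by rw [← C_pow, ha7, C_1]
    have c4 : (2 : L[X]) = 0 := by
      calc (2 : L[X]) = C (2 : L) := (map_ofNat C 2).symm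
        _ = 0 := by rw [h2L, C_0]
    have d0 : ((D 0 : Lˣ) : L) = a := rfl
    have d1 : ((D 1 : Lˣ) : L) = a ^ 2 := rfl
    have d2 : ((D 2 : Lˣ) : L) = a ^ 4 := rfl
    rw [d0, d1, d2, C_pow, C_pow, Polynomial.map_add, Polynomial.map_add, Polynomial.map_pow, Polynomial.map_pow, map_X, Polynomial.map_one]
    linear_combination X ^ 2 * c1 - X * c2 + c3 + c4
  have hmin := minpoly_sep (pmZ K) ι hDinj hsplit
  have hcd : CD (pmZ K) := cd_irr _ (by rw [hcp]; exact hirr)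
  obtain ⟨P3, q3⟩ := diag_sep (n := 2) (ι := ι) (Z := pmZ K) (D := D) (fun i j hij => hDinj (congrArg Units.val hij)) hsplit
  have hmap : (pmZ K).map τ = pmZ K := by
    ext i j
    fin_cases i <;> fin_cases j <;> simp [pmZ]
  have hneg : (-1 : K) = 1 := by linear_combination -h2
  have hr : ∃ r : Fx τ, r * r - 1 * r - 1 = 0 := by
    have hc : 1 < Nat.card (Fx τ)ˣ := by rw [Nat.card_units, h4]; norm_num
    have : Finite (Fx τ)ˣ := inferInstance
    have : Nontrivial (Fx τ)ˣ := Finite.one_lt_card_iff_nontrivial.mp hc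
    obtain ⟨r, hr1⟩ := exists_ne (1 : (Fx τ)ˣ)
    have hr3 : r ^ 3 = 1 := by
      have h := pow_card_eq_one' (x := r)
      rwa [Nat.card_units, h4] at h
    refine ⟨r, ?_⟩
    have h3 : ((r : Fx τ) - 1) * ((r : Fx τ) * r + r + 1) = 0 := by
      have h := congrArg Units.val hr3
      rw [Units.val_pow_eq_pow_val, Units.val_one] at h
      linear_combination h
    rcases mul_eq_zero.mp h3 with h0 | h0
    · exact absurd (Units.ext (sub_eq_zero.mp h0)) hr1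
    · linear_combination h0 - ((r : Fx τ) + 1) * h2F
  refine mainT (L := L) h hτ H (s := 1) one_ne_zero ?_ (fun _ => hr) (Z3 := pmZ K) (Z3' := !![0, 1, 0; -1, 0, 1; 1, 0, 0]) ?_ ?_ hmap hmin hcd (Or.inl h2) ι ut_one q3 ?_ ?_
    (PB := fun B => ∀ t : K, B.1 ≠ t • (1 : Matrix (Fin 3) (Fin 3) K)) ?_ (fun g hg hc => gaussA h hτ H (by rw [h4]) hg hc)
  · intro h
    have : (1 : Fx τ) = 0 := by linear_combination h - 2 * h2F
    exact one_ne_zero this
  · rw [hneg]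
    simp [pmZ, Matrix.det_fin_three]
  · ext i j
    fin_cases i <;> fin_cases j <;> simp [pmZ, Matrix.mul_apply, Fin.sum_univ_three]
  · intro i j hij
    obtain ⟨k, hk, h7⟩ := hprod i j
    apply h7
    apply hpow
    rw [← hk, hij]
    apply Units.ext
    rw [Units.val_neg, Units.val_one]
    linear_combination -h2L
  · intro v hv i j hvij
    obtain ⟨k, hk, -⟩ := hprod i j
    have hv' : (v : L) * v - v - 1 = 0 := by
      rw [OneMemClass.coe_one, map_one] at hv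
      linear_combination hv
    have hv7 : v ^ 7 = 1 := by
      rw [hvij, hk, ← pow_mul, mul_comm, pow_mul, hu7, one_pow]
    have hv3 : (v : L) ^ 3 = 1 := by linear_combination ((v : L) - 1) * hv' + ((v : L) ^ 2 - 1) * h2L
    have hv7' : (v : L) ^ 7 = 1 := by rw [← Units.val_pow_eq_pow_val, hv7, Units.val_one]
    have hv1 : (v : L) = 1 := by
      calc (v : L) = (v : L) ^ 7 := by rw [show (v : L) ^ 7 = (v : L) ^ 3 * (v : L) ^ 3 * v by ring, hv3]; ring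
        _ = 1 := hv7'
    rw [hv1] at hv'
    exact one_ne_zero (by linear_combination -hv' : (1 : L) = 0)
  · intro B hB
    obtain ⟨Y1, Y2, hY1, hY2, hBY⟩ := hP B hB
    exact ⟨Y1, Y2, sim_sep hDinj hsplit hcd (hY1.trans hcp.symm), sim_sep hDinj hsplit hcd (hY2.trans hcp.symm), hBY⟩
-- END pm

-- BEGIN pn
/-- MODULE pn. ALL CASES (`card = p^k`: `|K_0| ≥ 5` odd, or `≥ 8` even, or `3`, or `4`; `2 = 0` in `K` iff in `K_0`; a field of characteristic 2 has `2^k` elements). -/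
theorem good_all [Finite K] (hP : (Nat.card K = 4 ∨ Nat.card K = 16) → Px K) (h : Stb K 6 x) (hτ : ∀ a, τ (τ a) = a) (h3 : 3 ≤ Nat.card (Fx τ)) : Good x τ := by
  have : Fintype (Fx τ) := Fintype.ofFinite _
  have hsub : ∀ n : ℕ, ((n : Fx τ) = 0 ↔ (n : K) = 0) := by
    intro n
    rw [← map_natCast (Fx τ).subtype n, map_eq_zero]
  obtain ⟨p, hc, n, hp, hn⟩ := FiniteField.card' (Fx τ)
  rw [← Nat.card_eq_fintype_card] at hn
  by_cases h2 : (2 : K) = 0
  · have f2 : ((2 : ℕ) : Fx τ) = 0 := (hsub 2).2 (by exact_mod_cast h2)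
    have hp2 : p = 2 := (Nat.prime_dvd_prime_iff_eq hp Nat.prime_two).1 ((CharP.cast_eq_zero_iff (Fx τ) p 2).1 f2)
    rw [hp2] at hn
    have hn1 : 1 ≤ (n : ℕ) := n.2
    rcases Nat.lt_or_ge (n : ℕ) 3 with hlt | hge
    · have hn2 : (n : ℕ) = 1 ∨ (n : ℕ) = 2 := by omega
      rcases hn2 with hn2 | hn2
      · rw [hn2] at hn; omega
      · rw [hn2] at hn
        exact caseIV (hP (card_four hτ hn)) h hτ hn
    · have h8 : 2 ^ 3 ≤ 2 ^ (n : ℕ) := Nat.pow_le_pow_right (by norm_num) hge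
      exact caseIII h hτ h2 (by omega)
  · rcases Nat.lt_or_ge (Nat.card (Fx τ)) 5 with hlt | hge
    · have h34 : Nat.card (Fx τ) = 3 ∨ Nat.card (Fx τ) = 4 := by omega
      rcases h34 with h34 | h34
      · exact caseI h hτ h34
      · exfalso
        have hd : p ∣ 2 ^ 2 := by
          rw [show (2 : ℕ) ^ 2 = p ^ (n : ℕ) by omega]
          exact dvd_pow_self p n.2.ne'
        have hp2 : p = 2 := (Nat.prime_dvd_prime_iff_eq hp Nat.prime_two).1 (hp.dvd_of_dvd_pow hd)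
        have f2 : ((2 : ℕ) : Fx τ) = 0 := (CharP.cast_eq_zero_iff (Fx τ) p 2).2 (by rw [hp2])
        exact h2 (by exact_mod_cast (hsub 2).1 f2)
    · exact caseII h hτ h2 hge

/-- the quotient by the centre; `1 = w w⁻¹` is a product of two conjugates of `w` because `w⁻¹` is conjugate to `w` -/
theorem quot_good (h : Good x τ) : ∃ g : Hh x τ ⧸ Subgroup.center (Hh x τ), ∀ z : Hh x τ ⧸ Subgroup.center (Hh x τ), ∃ a b, IsConj g a ∧ IsConj g b ∧ a * b = z := by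
  obtain ⟨w, hw, hall, c, hc, e⟩ := h
  refine ⟨QuotientGroup.mk ⟨w, hw⟩, fun z => ?_⟩
  obtain ⟨y, rfl⟩ := QuotientGroup.mk_surjective z
  by_cases hy : y ∈ Subgroup.center (Hh x τ)
  · refine ⟨QuotientGroup.mk ⟨w, hw⟩, (QuotientGroup.mk ⟨w, hw⟩)⁻¹, IsConj.refl _, ?_, ?_⟩
    · rw [isConj_iff]
      refine ⟨QuotientGroup.mk ⟨c, hc⟩, ?_⟩
      rw [← QuotientGroup.mk_inv, ← QuotientGroup.mk_inv, ← QuotientGroup.mk_mul, ← QuotientGroup.mk_mul]
      exact congrArg _ (Subtype.ext e)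
    · rw [mul_inv_cancel]
      exact ((QuotientGroup.eq_one_iff y).2 hy).symm
  · rw [Subgroup.mem_center_iff] at hy
    push Not at hy
    obtain ⟨u, hu⟩ := hy
    obtain ⟨a, ha, b, hb, e'⟩ := hall y.1 y.2 ⟨u.1, u.2, fun h0 => hu (Subtype.ext h0)⟩
    refine ⟨QuotientGroup.mk (⟨a, ha⟩ * ⟨w, hw⟩ * ⟨a, ha⟩⁻¹), QuotientGroup.mk (⟨b, hb⟩ * ⟨w, hw⟩ * ⟨b, hb⟩⁻¹), ?_, ?_, ?_⟩
    · rw [isConj_iff]
      exact ⟨QuotientGroup.mk ⟨a, ha⟩, rfl⟩
    · rw [isConj_iff]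
      exact ⟨QuotientGroup.mk ⟨b, hb⟩, rfl⟩
    · rw [← QuotientGroup.mk_mul]
      exact congrArg _ (Subtype.ext e'.symm)
-- END pn

end Pool.Agent.ThF
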