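import Pool.Agent.ThF.Grt

/-! # The twisted group as an instance of the abstract systems of `ThK/Gau.lean`; combinatorics of the torus elements -/

namespace Pool.Agent.ThF

open ThE ThK ThR

variable {K : Type*} [Field K] {G : Type*} [Group G] {x : Root 6 → K → G} {τ : K →+* K}

/-- the twisted group -/
def Hh (x : Root 6 → K → G) (τ : K →+* K) : Subgroup G := Sy x τ fun _ => True

-- BEGIN ja
/-- MODULE ja. -/
theorem yt_mem (x : Root 6 → K → G) (τ : K →+* K) {r : Root 6} {a : K} (ha : Ok τ r a) : yt x τ r a ∈ Hh x τ :=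
  Sy.mem (p := fun _ => True) trivial ha

private theorem ja_im {r : Root 6} {S : Subfield K} {t : ThG.SL2 S →* G} (ht : IsY x τ r S t) (hS : ∀ a : S, Ok τ r (a : K)) (M : ThG.SL2 S) : t M ∈ Hh x τ := by
  have hM : M ∈ Subgroup.closure {g : ThG.SL2 S | ∃ a, g = ThG.up a ∨ g = ThG.lo a} := by
    rw [ThG.sl2_gen]
    exact Subgroup.mem_top M
  induction hM using Subgroup.closure_induction with
  | mem g hg =>
    obtain ⟨a, rfl | rfl⟩ := hg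
    · rw [ht.up]
      exact yt_mem x τ (hS a)
    · rw [ht.lo]
      refine yt_mem x τ fun h => ?_
      rw [sr_neg] at h
      have h2 : -(sr r).1 = -r.1 := congrArg Subtype.val h
      rw [map_neg, hS a (Subtype.ext (neg_injective h2))]
  | one =>
    rw [map_one]
    exact Subgroup.one_mem _
  | mul a b _ _ iha ihb =>
    rw [map_mul]
    exact Subgroup.mul_mem _ iha ihb
  | inv a _ iha =>
    rw [map_inv]
    exact Subgroup.inv_mem _ iha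

/-- `exists_isY` with `S = ⊤` (moved) resp. `S = Fx τ` (fixed): `SL_2` is generated by the `up a`, `lo a` (`ThG.sl2_gen`), `hy x τ r c` is the image of `dg c` -/
theorem hy_mem (h : Stb K 6 x) (r : Root 6) {c : K} (hc : c ≠ 0) (ho : Ok τ r c) : hy x τ r c ∈ Hh x τ := by
  by_cases hr : sr r = r
  · obtain ⟨t, ht⟩ := exists_isY (τ := τ) h r (Fx τ) fun _ a ha => mem_Fx.1 ha
    have hc' : (⟨c, mem_Fx.2 (ho hr)⟩ : Fx τ) ≠ 0 := fun e => hc (congrArg Subtype.val e)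
    have := ja_im ht (fun a _ => mem_Fx.1 a.2) (ThG.dg (Units.mk0 _ hc'))
    rw [ht.dg] at this
    exact this
  · obtain ⟨t, ht⟩ := exists_isY (τ := τ) h r ⊤ fun e => absurd e hr
    have hc' : (⟨c, Subfield.mem_top c⟩ : (⊤ : Subfield K)) ≠ 0 := fun e => hc (congrArg Subtype.val e)
    have := ja_im ht (fun a => Ok.of_ne hr _) (ThG.dg (Units.mk0 _ hc'))
    rw [ht.dg] at this
    exact this

theorem hz_mem (h : Stb K 6 x) (z : ∀ i : Fin 4, (Sf τ i)ˣ) : hz x τ z ∈ Hh x τ := by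
  have key : ∀ i : Fin 4, hy x τ (sn i) ((z i : Sf τ i) : K) ∈ Hh x τ := fun i =>
    hy_mem h (sn i) (fun e => (z i).ne_zero (Subtype.ext e)) (Sf_ok i _)
  exact Subgroup.mul_mem _ (Subgroup.mul_mem _ (Subgroup.mul_mem _ (key 0) (key 1)) (key 2)) (key 3)

/-- `ny_eq` -/
theorem ny_mem (h : Stb K 6 x) (τ : K →+* K) (i : Fin 4) : ny x (sn i) ∈ Hh x τ := by
  have h1 : ∀ r : Root 6, yt x τ r 1 ∈ Hh x τ := fun r => yt_mem x τ fun _ => map_one τ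
  rw [ny_eq (τ := τ) h i]
  exact Subgroup.mul_mem _ (Subgroup.mul_mem _ (h1 _) (h1 _)) (h1 _)

theorem Sy_le_Hh (x : Root 6 → K → G) (τ : K →+* K) (p : Root 6 → Prop) : Sy x τ p ≤ Hh x τ :=
  Sy.mono x τ fun _ _ => trivial

/-- `Sy_op` -/
theorem Sy_op_le_Hh (x : Root 6 → K → G) (τ : K →+* K) (p : Root 6 → Prop) : Sy (op x) τ p ≤ Hh x τ := by
  rw [Sy_op]
  exact Sy_le_Hh x τ _

/-- `exists_isY` and `MonoidHom.codRestrict` (`ThG.sl2_gen`: the image of every element is in `Hh`) -/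
theorem exists_thH (h : Stb K 6 x) : ∃ th : ∀ i : Fin 4, ThG.SL2 (Sf τ i) →* Hh x τ, ∀ i, IsY x τ (sn i) (Sf τ i) ((Hh x τ).subtype.comp (th i)) := by
  have key : ∀ i : Fin 4, ∃ t : ThG.SL2 (Sf τ i) →* G, IsY x τ (sn i) (Sf τ i) t := fun i =>
    exists_isY h (sn i) (Sf τ i) fun e a ha => Sf_fix ((sn_fix i).1 e) ⟨a, ha⟩
  choose t ht using key
  exact ⟨fun i => (t i).codRestrict (Hh x τ) fun M => ja_im (ht i) (Sf_ok i) M, fun i => ⟨(ht i).up, (ht i).lo, (ht i).dg⟩⟩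
-- END ja

/-- the torus element in `Hh` -/
def hzH (h : Stb K 6 x) (τ : K →+* K) (z : ∀ i : Fin 4, (Sf τ i)ˣ) : Hh x τ := ⟨hz x τ z, hz_mem h z⟩

-- BEGIN jb
private theorem jb_ok (hτ : ∀ a, τ (τ a) = a) (z : ∀ i : Fin 4, (Sf τ i)ˣ) {s : Root 6} {b : K} (hb : Ok τ s b) : Ok τ s (chY τ s.1 z * b) := by
  unfold chY
  rw [mul_assoc, mul_assoc, mul_assoc]
  exact cy_ok hτ _ _ (Sf_ok 0 _) (cy_ok hτ _ _ (Sf_ok 1 _) (cy_ok hτ _ _ (Sf_ok 2 _) (cy_ok hτ _ _ (Sf_ok 3 _) hb)))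

private theorem jb_hz (h : Stb K 6 x) (hτ : ∀ a, τ (τ a) = a) (z : ∀ i : Fin 4, (Sf τ i)ˣ) (p : Root 6 → Prop) {u : G} (hu : u ∈ Sy x τ p) : hz x τ z * u * (hz x τ z)⁻¹ ∈ Sy x τ p := by
  unfold Sy at hu
  induction hu using Subgroup.closure_induction with
  | mem g hg =>
    obtain ⟨r, a, h1, h2, rfl⟩ := hg
    rw [hzY_conj h hτ]
    exact Sy.mem h1 (jb_ok hτ z h2)
  | one =>
    rw [mul_one, mul_inv_cancel]
    exact Subgroup.one_mem _
  | mul a b _ _ ha hb =>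
    have h1 : hz x τ z * (a * b) * (hz x τ z)⁻¹ = (hz x τ z * a * (hz x τ z)⁻¹) * (hz x τ z * b * (hz x τ z)⁻¹) := by group
    rw [h1]
    exact Subgroup.mul_mem _ ha hb
  | inv a _ ha =>
    have h1 : hz x τ z * a⁻¹ * (hz x τ z)⁻¹ = (hz x τ z * a * (hz x τ z)⁻¹)⁻¹ := by group
    rw [h1]
    exact Subgroup.inv_mem _ ha

private theorem jb_cy (i : Fin 4) (c : K) : cy τ (sn i).1 (sn i).1 c = c * c := by
  unfold cy
  split_ifs with h1
  · rw [bf_sn, if_pos rfl, zpow_ofNat, pow_two]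
  · have h2 : ¬ (i : ℕ) < 2 := fun h3 => h1 (congrArg Subtype.val ((sn_fix i).2 h3))
    rw [bf_sn, if_pos rfl, bf_sg_sn, if_neg h2, if_neg (by omega), zpow_ofNat, pow_two, zpow_zero, mul_one]

private theorem jb_cy_mul (r s : Vec 6) (a b : K) : cy τ r s (a * b) = cy τ r s a * cy τ r s b := by
  unfold cy
  split_ifs with h1
  · rw [mul_zpow]
  · rw [map_mul, mul_zpow, mul_zpow]
    ring

private theorem jb_upd0 (s : Vec 6) (t : (Sf τ 0)ˣ) (z : ∀ i : Fin 4, (Sf τ i)ˣ) : chY τ s (Function.update z 0 (t * z 0)) = cy τ (sn 0).1 s ((t : Sf τ 0) : K) * chY τ s z := by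
  unfold chY
  show cy τ (sn 0).1 s (((t * z 0 : (Sf τ 0)ˣ) : Sf τ 0) : K) * cy τ (sn 1).1 s ((z 1 : Sf τ 1) : K) * cy τ (sn 2).1 s ((z 2 : Sf τ 2) : K) * cy τ (sn 3).1 s ((z 3 : Sf τ 3) : K) = _
  rw [Units.val_mul, Subfield.coe_mul, jb_cy_mul]
  ring

private theorem jb_upd1 (s : Vec 6) (t : (Sf τ 1)ˣ) (z : ∀ i : Fin 4, (Sf τ i)ˣ) : chY τ s (Function.update z 1 (t * z 1)) = cy τ (sn 1).1 s ((t : Sf τ 1) : K) * chY τ s z := by
  unfold chY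
  show cy τ (sn 0).1 s ((z 0 : Sf τ 0) : K) * cy τ (sn 1).1 s (((t * z 1 : (Sf τ 1)ˣ) : Sf τ 1) : K) * cy τ (sn 2).1 s ((z 2 : Sf τ 2) : K) * cy τ (sn 3).1 s ((z 3 : Sf τ 3) : K) = _
  rw [Units.val_mul, Subfield.coe_mul, jb_cy_mul]
  ring

private theorem jb_upd2 (s : Vec 6) (t : (Sf τ 2)ˣ) (z : ∀ i : Fin 4, (Sf τ i)ˣ) : chY τ s (Function.update z 2 (t * z 2)) = cy τ (sn 2).1 s ((t : Sf τ 2) : K) * chY τ s z := by
  unfold chY
  show cy τ (sn 0).1 s ((z 0 : Sf τ 0) : K) * cy τ (sn 1).1 s ((z 1 : Sf τ 1) : K) * cy τ (sn 2).1 s (((t * z 2 : (Sf τ 2)ˣ) : Sf τ 2) : K) * cy τ (sn 3).1 s ((z 3 : Sf τ 3) : K) = _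
  rw [Units.val_mul, Subfield.coe_mul, jb_cy_mul]
  ring

private theorem jb_upd3 (s : Vec 6) (t : (Sf τ 3)ˣ) (z : ∀ i : Fin 4, (Sf τ i)ˣ) : chY τ s (Function.update z 3 (t * z 3)) = cy τ (sn 3).1 s ((t : Sf τ 3) : K) * chY τ s z := by
  unfold chY
  show cy τ (sn 0).1 s ((z 0 : Sf τ 0) : K) * cy τ (sn 1).1 s ((z 1 : Sf τ 1) : K) * cy τ (sn 2).1 s ((z 2 : Sf τ 2) : K) * cy τ (sn 3).1 s (((t * z 3 : (Sf τ 3)ˣ) : Sf τ 3) : K) = _
  rw [Units.val_mul, Subfield.coe_mul, jb_cy_mul]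
  ring

private theorem jb_upd (i : Fin 4) (s : Vec 6) (t : (Sf τ i)ˣ) (z : ∀ i : Fin 4, (Sf τ i)ˣ) : chY τ s (Function.update z i (t * z i)) = cy τ (sn i).1 s ((t : Sf τ i) : K) * chY τ s z :=
  match i, t with
  | 0, t => jb_upd0 s t z
  | 1, t => jb_upd1 s t z
  | 2, t => jb_upd2 s t z
  | 3, t => jb_upd3 s t z

/-- MODULE jb. The axioms of `ThG.Dat` for the twisted group. -/
theorem datY (h : Stb K 6 x) (hτ : ∀ a, τ (τ a) = a) {th : ∀ i : Fin 4, ThG.SL2 (Sf τ i) →* Hh x τ} (hth : ∀ i, IsY x τ (sn i) (Sf τ i) ((Hh x τ).subtype.comp (th i)))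
    {χ : ∀ j : Fin 4, (∀ i : Fin 4, (Sf τ i)ˣ) → (Sf τ j)ˣ} (hχ : ∀ j z, ((χ j z : Sf τ j) : K) = chY τ (sn j).1 z) :
    ThG.Dat (ι := Fin 4) (F := fun i => Sf τ i) th (hzH h τ) χ ((Sy x τ fun r => 0 < ht r.1).subgroupOf (Hh x τ)) ((Sy (op x) τ fun r => 0 < ht r.1).subgroupOf (Hh x τ))
      (fun i => (Sy x τ (Pi' i)).subgroupOf (Hh x τ)) (fun i => (Sy (op x) τ (Pi' i)).subgroupOf (Hh x τ)) := by
  have eup : ∀ i (a : Sf τ i), ((th i (ThG.up a) : Hh x τ) : G) = yt x τ (sn i) (a : K) := fun i a => (hth i).up a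
  have elo : ∀ i (a : Sf τ i), ((th i (ThG.lo a) : Hh x τ) : G) = yt x τ (-sn i) (-(a : K)) := fun i a => (hth i).lo a
  have edg : ∀ i (c : (Sf τ i)ˣ), ((th i (ThG.dg c) : Hh x τ) : G) = hy x τ (sn i) ((c : Sf τ i) : K) := fun i c => (hth i).dg c
  have eup' : ∀ i (a : K), yt x τ (sn i) a = yt (op x) τ (-sn i) a := fun i a => by
    rw [yt_op]
    exact congrArg (fun r => yt x τ r a) (neg_neg' (sn i)).symm
  have elo' : ∀ i (a : K), yt x τ (-sn i) a = yt (op x) τ (sn i) a := fun i a => by rw [yt_op]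
  have hpos : ∀ i, 0 < ht (sn i).1 := fun i => by rw [sn_ht]; exact one_pos
  refine
    { gen := ?_
      Uup := fun i a u hu => ?_
      Ulo := fun i a u hu => ?_
      Vup := fun i a v hv => ?_
      Vlo := fun i a v hv => ?_
      Uh := fun i z u hu => ?_
      Vh := fun i z v hv => ?_
      UiU := fun i => ?_
      ViV := fun i => ?_
      upU := fun i a => ?_
      loV := fun i a => ?_
      sU := fun i u hu => ?_
      sV := fun i v hv => ?_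
      mul := fun z w => Subtype.ext (hzY_mul h z w)
      aup := fun i z a => Subtype.ext ?_
      alo := fun i z a => Subtype.ext ?_
      upd := fun i z t => Subtype.ext ?_
      cup := fun i z t => ?_ }
  · apply Subgroup.map_injective (Hh x τ).subtype_injective
    rw [← MonoidHom.range_eq_map, Subgroup.range_subtype, MonoidHom.map_closure]
    refine Eq.trans ?_ (gen_Sy h hτ).symm
    refine congrArg Subgroup.closure (Set.ext fun g => ⟨?_, ?_⟩)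
    · rintro ⟨_, ⟨i, a, rfl | rfl⟩, rfl⟩
      · exact ⟨i, a, Sf_ok i a, Or.inl (eup i a)⟩
      · exact ⟨i, -a, Ok.neg (Sf_ok i a), Or.inr (elo i a)⟩
    · rintro ⟨i, a, ha, rfl | rfl⟩
      · obtain ⟨b, rfl⟩ := Sf_of ha
        exact ⟨_, ⟨i, b, Or.inl rfl⟩, eup i b⟩
      · obtain ⟨b, rfl⟩ := Sf_of ha
        refine ⟨_, ⟨i, -b, Or.inr rfl⟩, ?_⟩
        refine (elo i (-b)).trans ?_
        rw [Subfield.coe_neg, neg_neg]
  · rw [Subgroup.mem_subgroupOf] at hu ⊢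
    have h1 := Pi_up h hτ i (Sf_ok i a) hu
    rw [← eup] at h1
    exact h1
  · rw [Subgroup.mem_subgroupOf] at hu ⊢
    have h1 := Pi_lo h hτ i (Ok.neg (Sf_ok i a)) hu
    rw [← elo] at h1
    exact h1
  · rw [Subgroup.mem_subgroupOf] at hv ⊢
    have h1 := Pi_lo h.op hτ i (Sf_ok i a) hv
    rw [← eup', ← eup] at h1
    exact h1
  · rw [Subgroup.mem_subgroupOf] at hv ⊢
    have h1 := Pi_up h.op hτ i (Ok.neg (Sf_ok i a)) hv
    rw [← elo', ← elo] at h1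
    exact h1
  · rw [Subgroup.mem_subgroupOf] at hu ⊢
    exact jb_hz h hτ z _ hu
  · rw [Subgroup.mem_subgroupOf, Sy_op] at hv ⊢
    exact jb_hz h hτ z _ hv
  · exact fun g hg => Sy.mono x τ (fun r hr => hr.1) hg
  · exact fun g hg => Sy.mono (op x) τ (fun r hr => hr.1) hg
  · rw [Subgroup.mem_subgroupOf, eup]
    exact Sy.mem (hpos i) (Sf_ok i a)
  · rw [Subgroup.mem_subgroupOf, elo, elo']
    exact Sy.mem (hpos i) (Ok.neg (Sf_ok i a))
  · rw [Subgroup.mem_subgroupOf] at hu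
    obtain ⟨a, ha, u', hu', h1⟩ := Pi_split h hτ i hu
    obtain ⟨b, rfl⟩ := Sf_of ha
    refine ⟨b, ⟨u', Sy_le_Hh x τ _ hu'⟩, hu', Subtype.ext ?_⟩
    show (u : G) = (th i (ThG.up b) : G) * u'
    rw [eup, h1]
  · rw [Subgroup.mem_subgroupOf] at hv
    obtain ⟨a, ha, u', hu', h1⟩ := Pi_split h.op hτ i hv
    obtain ⟨b, rfl⟩ := Sf_of ha
    refine ⟨-b, ⟨u', Sy_op_le_Hh x τ _ hu'⟩, hu', Subtype.ext ?_⟩
    show (v : G) = (th i (ThG.lo (-b)) : G) * u'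
    rw [elo, h1, Subfield.coe_neg, neg_neg, elo']
  · show hz x τ z * (th i (ThG.up a) : G) * (hz x τ z)⁻¹ = (th i (ThG.up ((χ i z : Sf τ i) * a)) : G)
    rw [eup, eup, hzY_conj h hτ, Subfield.coe_mul, hχ]
  · show hz x τ z * (th i (ThG.lo a) : G) * (hz x τ z)⁻¹ = (th i (ThG.lo ((((χ i z)⁻¹ : (Sf τ i)ˣ) : Sf τ i) * a)) : G)
    have h1 : ((((χ i z)⁻¹ : (Sf τ i)ˣ) : Sf τ i) : K) = (chY τ (sn i).1 z)⁻¹ := by
      rw [← hχ, Units.val_inv_eq_inv_val, Subfield.coe_inv]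
    rw [elo, elo, hzY_conj h hτ, Subfield.coe_mul, h1]
    have h2 : chY τ (-sn i : Root 6).1 z = (chY τ (sn i).1 z)⁻¹ := chY_neg hτ (sn i).1 z
    rw [h2, mul_neg]
  · show (th i (ThG.dg t) : G) * hz x τ z = hz x τ (Function.update z i (t * z i))
    rw [edg, hzY_upd h]
  · apply Units.ext
    apply Subtype.ext
    rw [hχ, jb_upd, Units.val_mul, Units.val_mul, Subfield.coe_mul, Subfield.coe_mul, hχ, jb_cy i]
-- END jb

/-- the root elements `≠ 1` -/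
def XY (x y : Root 6 → K → G) (τ : K →+* K) (r : Root 6) : Set (Hh x τ) := {g | ∃ b : K, b ≠ 0 ∧ Ok τ r b ∧ (g : G) = yt y τ r b}

-- BEGIN jc
private theorem jc_ok_neg {r : Root 6} {a : K} (ha : Ok τ r a) : Ok τ (-r) a := by
  intro hr
  refine ha ?_
  rw [sr_neg] at hr
  have h1 := congrArg Subtype.val hr
  rw [neg_val, neg_val] at h1
  exact Subtype.ext (neg_injective h1)

private theorem jc_op_mem (x : Root 6 → K → G) (τ : K →+* K) (r : Root 6) (a : K) (ha : Ok τ r a) : yt (op x) τ r a ∈ Hh x τ := by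
  rw [yt_op]
  exact yt_mem x τ (jc_ok_neg ha)

private theorem jc_move {y : Root 6 → K → G} (hy : Stb K 6 y) (hτ : ∀ a, τ (τ a) = a) {t s : Root 6} (hts : t = s ∨ t = sr s) {b : K} (hb : b ≠ 0)
    (ho : Ok τ t b) : ∃ c : K, c ≠ 0 ∧ Ok τ s c ∧ yt y τ t b = yt y τ s c := by
  by_cases hs : t = s
  · subst hs
    exact ⟨b, hb, ho, rfl⟩
  · have h1 : t = sr s := hts.resolve_left hs
    have h2 : sr s ≠ s := fun h3 => hs (h1.trans h3)
    have h3 : sr t = s := by rw [h1, sr_sr]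
    have h4 : sr t ≠ t := by
      rw [h3]
      exact Ne.symm hs
    refine ⟨et K t.1 * τ b, mul_ne_zero (et_ne _) ?_, fun h5 => absurd h5 h2, ?_⟩
    · intro h5
      rw [← hτ b, h5, map_zero] at hb
      exact hb rfl
    · rw [← yt_sr hy hτ h4 b, h3]

private theorem jc_rr_or (s : Root 6) : s = rr s ∨ s = sr (rr s) := by
  rcases rr_or s with h1 | h1
  · exact Or.inl h1.symm
  · right
    rw [h1, sr_sr]

private theorem jc_nf {y : Root 6 → K → G} (hy : Stb K 6 y) (hτ : ∀ a, τ (τ a) = a) (hm : ∀ r a, Ok τ r a → yt y τ r a ∈ Hh x τ) {u : Hh x τ}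
    (hu : (u : G) ∈ Sy y τ fun r => 0 < ht r.1) :
    ∃ L : List (Root 6 × Hh x τ), (L.map Prod.fst).Nodup ∧ (∀ p ∈ L, (0 < ht p.1.1 ∧ rp p.1.1) ∧ p.2 ∈ XY x y τ p.1) ∧ u = (L.map Prod.snd).prod := by
  classical
  obtain ⟨L, h1, h2, h3⟩ := Up_listY hy hτ hu
  let f : Root 6 × K → Hh x τ := fun p => if hp : yt y τ p.1 p.2 ∈ Hh x τ then ⟨yt y τ p.1 p.2, hp⟩ else 1
  have hf : ∀ p ∈ L, (f p : G) = yt y τ p.1 p.2 := by
    intro p hp
    have h4 : yt y τ p.1 p.2 ∈ Hh x τ := hm _ _ (h2 p hp).2.2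
    show ((if hp : yt y τ p.1 p.2 ∈ Hh x τ then (⟨yt y τ p.1 p.2, hp⟩ : Hh x τ) else 1 : Hh x τ) : G) = _
    rw [dif_pos h4]
  refine ⟨L.map fun p => (p.1, f p), ?_, ?_, ?_⟩
  · rw [List.map_map]
    exact h1
  · intro q hq
    obtain ⟨p, hp, rfl⟩ := List.mem_map.1 hq
    exact ⟨(h2 p hp).1, p.2, (h2 p hp).2.1, (h2 p hp).2.2, hf p hp⟩
  · refine Subtype.ext ?_
    have h5 : (((L.map fun p => (p.1, f p)).map Prod.snd).prod : G) = (Hh x τ).subtype ((L.map fun p => (p.1, f p)).map Prod.snd).prod := rfl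
    rw [h5, map_list_prod, List.map_map, List.map_map, h3]
    congr 1
    exact List.map_congr_left fun p hp => (hf p hp).symm

private theorem jc_ne {i : Fin 4} {r : Root 6} (hr : rp r.1) (h : r ≠ rr (sn i)) : r ≠ sn i ∧ r ≠ sr (sn i) := by
  constructor
  · intro h1
    exact h (rr_eq hr (rr_rp _) (h1 ▸ jc_rr_or (sn i)))
  · intro h1
    refine h (rr_eq hr (rr_rp _) ?_)
    rw [h1]
    rcases rr_or (sn i) with h2 | h2
    · right
      rw [h2]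
    · left
      exact h2.symm

private theorem jc_conj {y : Root 6 → K → G} (hy : Stb K 6 y) (hτ : ∀ a, τ (τ a) = a) {i : Fin 4} {n : Hh x τ}
    (hn : ∀ s : Root 6, ∃ c : K, c * c = 1 ∧ τ c = c ∧ ∀ b, (n : G) * yt y τ s b * (n : G)⁻¹ = yt y τ (wf (sn i) s) (c * b))
    (r : Root 6) {g : Hh x τ} (hg : g ∈ XY x y τ r) : n * g * n⁻¹ ∈ XY x y τ (rr (wf (sn i) r)) := by
  obtain ⟨b, hb, ho, h1⟩ := hg
  obtain ⟨c, hc, hc', h2⟩ := hn r
  have hc0 : c ≠ 0 := by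
    rintro rfl
    rw [mul_zero] at hc
    exact zero_ne_one hc
  have ho' : Ok τ (wf (sn i) r) (c * b) := by
    intro h3
    rw [← wf_sr] at h3
    have h4 := congrArg (wf (sn i)) h3
    rw [wf_wf, wf_wf] at h4
    rw [map_mul, hc', ho h4]
  obtain ⟨b', hb', ho2, h5⟩ := jc_move hy hτ (jc_rr_or (wf (sn i) r)) (mul_ne_zero hc0 hb) ho'
  refine ⟨b', hb', ho2, ?_⟩
  rw [← h5, ← h2 b, ← h1]
  rfl

/-- MODULE jc. Compare row `wb` of mods_thg.  `XY x y τ (rr r) = XY x y τ r` (`yt_sr`).  `nfU`, `nfV`: `Up_listY` for `x` and `op x`; `nX`, `nY`: `ny_conj` (`wf_neg`, `yt_op`); `wp`: `wf_pos`, `rr_ht`, `rr_rp`; `wi`: `rr_iff`, `wf_wf`, `wf_sr`, `rr_eq`; `wh`: `exists_desc`;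
`XU`, `YV`: `Sy.mem` (`r ≠ rr (sn i)` and `rp r` give `r ≠ sn i`, `r ≠ sr (sn i)`: `rr_eq`, `rr_rp`); `Xa`, `Ya`: `Sf_of`, `hth`; `nh`: `ny_hz`. -/
theorem letY (h : Stb K 6 x) (hτ : ∀ a, τ (τ a) = a) {th : ∀ i : Fin 4, ThG.SL2 (Sf τ i) →* Hh x τ} (hth : ∀ i, IsY x τ (sn i) (Sf τ i) ((Hh x τ).subtype.comp (th i))) :
    ThG.Let (ι := Fin 4) (F := fun i => Sf τ i) (R := Root 6) th (hzH h τ) ((Sy x τ fun r => 0 < ht r.1).subgroupOf (Hh x τ)) ((Sy (op x) τ fun r => 0 < ht r.1).subgroupOf (Hh x τ))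
      (fun i => (Sy x τ (Pi' i)).subgroupOf (Hh x τ)) (fun i => (Sy (op x) τ (Pi' i)).subgroupOf (Hh x τ)) (fun r => 0 < ht r.1 ∧ rp r.1) (fun r => (ht r.1).toNat) (fun i => rr (sn i))
      (fun i r => rr (wf (sn i) r)) (fun i => ⟨ny x (sn i), ny_mem h τ i⟩) (XY x x τ) (XY x (op x) τ) where
  nfU := fun u hu => jc_nf h hτ (fun r a ha => yt_mem x τ ha) (Subgroup.mem_subgroupOf.1 hu)
  nfV := fun u hu => jc_nf h.op hτ (jc_op_mem x τ) (Subgroup.mem_subgroupOf.1 hu)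
  nX := fun i r _ _ g hg => jc_conj h hτ (fun s => ny_conj h i s) r hg
  nY := fun i r _ _ g hg => jc_conj h.op hτ (fun s => by
    obtain ⟨c, hc, hc', h1⟩ := ny_conj (τ := τ) h i (-s)
    refine ⟨c, hc, hc', fun b => ?_⟩
    rw [yt_op, yt_op, ← wf_neg]
    exact h1 b) r hg
  wp := by
    intro i r h1 h2
    obtain ⟨h3, h4⟩ := jc_ne h1.2 h2
    refine ⟨?_, rr_rp _⟩
    rw [rr_ht]
    exact (wf_pos i h1.1 h3 h4).1
  wi := by
    intro i r s hr hs _ _ h1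
    rcases (rr_iff _ _).1 h1 with h2 | h2
    · have h3 := congrArg (wf (sn i)) h2
      rw [wf_wf, wf_wf] at h3
      exact h3
    · rw [← wf_sr] at h2
      have h3 := congrArg (wf (sn i)) h2
      rw [wf_wf, wf_wf] at h3
      exact rr_eq hr.2 hs.2 (Or.inr h3)
  wh := by
    intro r hr
    right
    obtain ⟨i, hi⟩ := exists_desc hr.1
    refine ⟨i, ?_⟩
    show (ht (rr (wf (sn i) r)).1).toNat < (ht r.1).toNat
    rw [rr_ht]
    have h1 := hr.1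
    omega
  XU := by
    rintro i r h1 h2 g ⟨b, _, ho, h3⟩
    obtain ⟨h4, h5⟩ := jc_ne h1.2 h2
    rw [Subgroup.mem_subgroupOf, h3]
    exact Sy.mem (p := Pi' i) ⟨h1.1, h4, h5⟩ ho
  YV := by
    rintro i r h1 h2 g ⟨b, _, ho, h3⟩
    obtain ⟨h4, h5⟩ := jc_ne h1.2 h2
    rw [Subgroup.mem_subgroupOf, h3]
    exact Sy.mem (p := Pi' i) ⟨h1.1, h4, h5⟩ ho
  Xa := by
    rintro i g ⟨b, hb, ho, h1⟩
    obtain ⟨c, hc, ho', h2⟩ := jc_move h hτ (rr_or (sn i)) hb ho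
    obtain ⟨d, hd⟩ := Sf_of ho'
    refine ⟨d, ?_, ?_⟩
    · rintro rfl
      exact hc hd.symm
    · refine Subtype.ext ?_
      rw [h1, h2, ← hd]
      exact ((hth i).up d).symm
  Ya := by
    rintro i g ⟨b, hb, ho, h1⟩
    obtain ⟨c, hc, ho', h2⟩ := jc_move h.op hτ (rr_or (sn i)) hb ho
    obtain ⟨d, hd⟩ := Sf_of ho'
    refine ⟨-d, ?_, ?_⟩
    · rw [neg_ne_zero]
      rintro rfl
      exact hc hd.symm
    · refine Subtype.ext ?_
      rw [h1, h2, ← hd, yt_op]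
      have h3 := (hth i).lo (-d)
      rw [NegMemClass.coe_neg, neg_neg] at h3
      exact h3.symm
  nh := by
    intro i z
    obtain ⟨z', hz'⟩ := ny_hz h hτ i z
    exact ⟨z', Subtype.ext hz'⟩
-- END jc

/-- not scalar at the node `j` -/
def NY (x : Root 6 → K → G) (τ : K →+* K) (j : Fin 4) (g : G) (z : ∀ i : Fin 4, (Sf τ i)ˣ) : Prop :=
  ∃ v ∈ Sy (op x) τ (Pi' j), ∃ u ∈ Sy x τ (Pi' j), ∃ c b : Sf τ j, g = v * yt x τ (-sn j) (c : K) * hz x τ z * yt x τ (sn j) (b : K) * u ∧ ¬ (c = 0 ∧ b = 0 ∧ chY τ (sn j).1 z = 1)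

-- BEGIN jd
/-- MODULE jd. `exists_thH`, `exists_ch`, `datY`, `letY`, `ThG.reach` for `⟨g, hg⟩ : Hh x τ` (`Subgroup.mem_center_iff`); `ThG.NS` gives `NY` (`hth i`: `lo c ↦ yt x τ (-sn i) (-c)`). -/
theorem reachY (h : Stb K 6 x) (hτ : ∀ a, τ (τ a) = a) {g : G} (hg : g ∈ Hh x τ) (hc : ∃ u ∈ Hh x τ, u * g ≠ g * u) {P : Fin 4 → (∀ i : Fin 4, (Sf τ i)ˣ) → Prop}
    (hP : ∀ S : Fin 4 → (∀ i : Fin 4, (Sf τ i)ˣ) → Prop, (∀ i z t, S i z → S i (Function.update z i t)) → (∀ i j z, S i z → chY τ (sn j).1 z ≠ 1 → S j z) →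
      ∀ i z, S i z → ∃ j z', S j z' ∧ P j z') : ∃ c ∈ Hh x τ, ∃ (j : Fin 4) (z : ∀ i : Fin 4, (Sf τ i)ˣ), P j z ∧ NY x τ j (c * g * c⁻¹) z := by
  obtain ⟨th, hth⟩ := exists_thH (τ := τ) h
  obtain ⟨χ, hχ⟩ := exists_ch hτ
  have hone : ∀ j z, χ j z = 1 ↔ chY τ (sn j).1 z = 1 := by
    intro j z
    rw [← hχ j z]
    constructor
    · intro e
      rw [e]
      rfl
    · intro e
      exact Units.ext (Subtype.ext e)
  have hgc : (⟨g, hg⟩ : Hh x τ) ∉ Subgroup.center (Hh x τ) := by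
    rw [Subgroup.mem_center_iff]
    intro hcen
    obtain ⟨u, hu, hne⟩ := hc
    exact hne (congrArg Subtype.val (hcen ⟨u, hu⟩))
  obtain ⟨c, j, z, hp, v, hv, u, hu, c', b, e, hne⟩ := ThG.reach (datY h hτ hth hχ) (letY h hτ hth) hgc (P := P)
    (fun S h1 h2 => hP S h1 fun i j z hS hz => h2 i j z hS fun e => hz ((hone j z).1 e))
  refine ⟨c.1, c.2, j, z, hp, v.1, hv, u.1, hu, -c', b, ?_, fun hh => hne ⟨neg_eq_zero.mp hh.1, hh.2.1, (hone j z).2 hh.2.2⟩⟩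
  have e1 := congrArg Subtype.val e
  have e2 : ((th j (ThG.lo c') : Hh x τ) : G) = yt x τ (-sn j) (-(c' : K)) := (hth j).lo c'
  have e3 : ((th j (ThG.up b) : Hh x τ) : G) = yt x τ (sn j) (b : K) := (hth j).up b
  have e4 : c.1 * g * c.1⁻¹ = v.1 * ((th j (ThG.lo c') : Hh x τ) : G) * hz x τ z * ((th j (ThG.up b) : Hh x τ) : G) * u.1 := e1
  rw [e4, e2, e3]
  rfl
-- END jd

-- BEGIN je
private theorem je_mem {i : Fin 4} {t : K} (ht : t ∈ Fx τ) : t ∈ Sf τ i := by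
  unfold Sf
  split_ifs
  · exact ht
  · exact Subfield.mem_top t

private theorem je_unit (i : Fin 4) {t : K} (ht : t ∈ Fx τ) (h0 : t ≠ 0) : ∃ u : (Sf τ i)ˣ, ((u : Sf τ i) : K) = t :=
  ⟨Units.mk0 ⟨t, je_mem ht⟩ (fun h => h0 (congrArg Subtype.val h)), rfl⟩

private theorem je_ne (i : Fin 4) (u : (Sf τ i)ˣ) : ((u : Sf τ i) : K) ≠ 0 := by
  intro h
  exact u.ne_zero (Subtype.ext h)

private theorem je_fix {i : Fin 4} (hi : (i : ℕ) < 2) (u : (Sf τ i)ˣ) : ((u : Sf τ i) : K) ∈ Fx τ := by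
  have hS : Sf τ i = Fx τ := if_pos hi
  have h : ∀ b : K, b ∈ Sf τ i → b ∈ Fx τ := fun b hb => by rwa [hS] at hb
  exact h _ (u : Sf τ i).2

private theorem je_pick (hK : ∃ d : K, d ∈ Fx τ ∧ d ≠ 0 ∧ d ≠ 1) (a b : K) : ∃ t : K, t ∈ Fx τ ∧ t ≠ 0 ∧ a * t⁻¹ * b ≠ 1 := by
  obtain ⟨d, hd, h0, h1⟩ := hK
  by_cases h : a * b = 1
  · refine ⟨d, hd, h0, fun hh => h1 ?_⟩
    have : a * d⁻¹ * b = d⁻¹ := by
      rw [mul_right_comm, h, one_mul]
    rw [this] at hh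
    rw [← inv_inv d, hh, inv_one]
  · exact ⟨1, (Fx τ).one_mem, one_ne_zero, by rwa [inv_one, mul_one]⟩

private theorem je_out {α : Type*} [Finite α] (h : 4 ≤ Nat.card α) (a b c : α) : ∃ t : α, t ≠ a ∧ t ≠ b ∧ t ≠ c := by
  classical
  by_contra hn
  push Not at hn
  have := Fintype.ofFinite α
  have h2 : (Finset.univ : Finset α) ⊆ {a, b, c} := by
    intro t _
    by_cases ha : t = a
    · simp [ha]
    · by_cases hb : t = b
      · simp [hb]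
      · simp [hn t ha hb]
  have h3 := Finset.card_le_card h2
  have h4 : ({a, b, c} : Finset α).card ≤ 3 := Finset.card_le_three
  rw [Finset.card_univ, ← Nat.card_eq_fintype_card] at h3
  omega

/-- MODULE je. TRAVEL TO THE NODE 2 (`chY_one`, `chY_two`).  From `0`: `z 0 := t` with `χ_1 = z1^2 / (t N(z2)) ≠ 1` (two units of `K_0`: `1`, `d`), step to `1`; from `1`: `z 1 := t` with `χ_2 = z2^2 / (t z3) ≠ 1`, step to `2`; from `3`: `z 3 := t` with `χ_2 ≠ 1`.  (`Function.update` at another index does not change the other factors.) -/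
theorem travelY (hK : ∃ d : K, d ∈ Fx τ ∧ d ≠ 0 ∧ d ≠ 1) (S : Fin 4 → (∀ i : Fin 4, (Sf τ i)ˣ) → Prop) (h1 : ∀ i z t, S i z → S i (Function.update z i t))
    (h2 : ∀ i j z, S i z → chY τ (sn j).1 z ≠ 1 → S j z) {i : Fin 4} {z : ∀ i : Fin 4, (Sf τ i)ˣ} (h : S i z) : ∃ z', S 2 z' := by
  have n01 : (1 : Fin 4) ≠ 0 := by decide
  have n02 : (2 : Fin 4) ≠ 0 := by decide
  have n12 : (2 : Fin 4) ≠ 1 := by decide
  have n13 : (3 : Fin 4) ≠ 1 := by decide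
  have n32 : (2 : Fin 4) ≠ 3 := by decide
  have n31 : (1 : Fin 4) ≠ 3 := by decide
  have key1 : ∀ z : ∀ i : Fin 4, (Sf τ i)ˣ, S 1 z → ∃ z', S 2 z' := by
    intro z hz
    obtain ⟨t, ht, ht0, hne⟩ := je_pick hK (((z 2 : Sf τ 2) : K) ^ 2) ((((z 3 : Sf τ 3) : K))⁻¹)
    obtain ⟨u, hu⟩ := je_unit (τ := τ) 1 ht ht0
    refine ⟨Function.update z 1 u, h2 1 2 _ (h1 1 z u hz) ?_⟩
    rw [chY_two, Function.update_self, Function.update_of_ne n12, Function.update_of_ne n13, hu]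
    exact hne
  have key0 : ∀ z : ∀ i : Fin 4, (Sf τ i)ˣ, S 0 z → ∃ z', S 2 z' := by
    intro z hz
    obtain ⟨t, ht, ht0, hne⟩ := je_pick hK (((z 1 : Sf τ 1) : K) ^ 2) ((((z 2 : Sf τ 2) : K) * τ ((z 2 : Sf τ 2) : K))⁻¹)
    obtain ⟨u, hu⟩ := je_unit (τ := τ) 0 ht ht0
    refine key1 (Function.update z 0 u) (h2 0 1 _ (h1 0 z u hz) ?_)
    rw [chY_one, Function.update_self, Function.update_of_ne n01, Function.update_of_ne n02, hu]
    exact hne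
  have key3 : ∀ z : ∀ i : Fin 4, (Sf τ i)ˣ, S 3 z → ∃ z', S 2 z' := by
    intro z hz
    obtain ⟨t, ht, ht0, hne⟩ := je_pick hK (((z 2 : Sf τ 2) : K) ^ 2 * (((z 1 : Sf τ 1) : K))⁻¹) 1
    obtain ⟨u, hu⟩ := je_unit (τ := τ) 3 ht ht0
    refine ⟨Function.update z 3 u, h2 3 2 _ (h1 3 z u hz) ?_⟩
    rw [chY_two, Function.update_self, Function.update_of_ne n32, Function.update_of_ne n31, hu]
    rwa [mul_one] at hne
  match i, h with
  | 0, h => exact key0 z h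
  | 1, h => exact key1 z h
  | 2, h => exact ⟨z, h⟩
  | 3, h => exact key3 z h

/-- AT LEAST 4 ELEMENTS IN `K_0`.  For `c, e ∈ K`, `e ≠ 0` (here `c = z1^2 / z0`, in `K_0`) there is `t ∈ K_0`, `t ≠ 0`, with `t^2 ≠ c` and `t ≠ e`: at most 2 solutions of `t^2 = c` and one of `t = e`, and 0: at most 4 excluded values; if `|K_0| = 4` the characteristic is 2 and `t^2 = c` has at most one solution (`|K_0| ≥ 5` otherwise). -/
theorem exists_tt [Finite K] (hK : 4 ≤ Nat.card (Fx τ)) (c e : K) : ∃ t : K, t ∈ Fx τ ∧ t ≠ 0 ∧ t * t ≠ c ∧ t ≠ e := by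
  classical
  obtain ⟨e', he'⟩ : ∃ e' : Fx τ, ∀ t : Fx τ, (t : K) = e → t = e' := by
    by_cases he : e ∈ Fx τ
    · exact ⟨⟨e, he⟩, fun t ht => Subtype.ext ht⟩
    · exact ⟨0, fun t ht => absurd (ht ▸ t.2) he⟩
  by_cases hs : ∃ s : Fx τ, s ≠ 0 ∧ (s : K) * s = c ∧ s ≠ e'
  · obtain ⟨s, hs0, hsc, hse⟩ := hs
    obtain ⟨t, ht0, hte, hts⟩ := je_out hK 0 e' s
    by_cases htc : (t : K) * t = c
    · -- t = -s
      have hsq : (t : K) * t = (s : K) * s := htc.trans hsc.symm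
      have hcase := mul_self_eq_mul_self_iff.1 hsq
      have htn : (t : K) = -(s : K) := by
        rcases hcase with h | h
        · exact absurd (Subtype.ext h) hts
        · exact h
      have h2 : (s : K) ≠ -(s : K) := fun h => hts (Subtype.ext (htn.trans h.symm))
      have h2' : (2 : K) ≠ 0 := by
        intro h20
        apply h2
        have : (s : K) + s = 0 := by rw [← two_mul, h20, zero_mul]
        exact eq_neg_of_add_eq_zero_left this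
      by_cases he0 : e' = 0
      · obtain ⟨u, hu0, hus, hut⟩ := je_out hK 0 s t
        refine ⟨u, u.2, fun h => hu0 (Subtype.ext h), fun huc => ?_, fun hue => ?_⟩
        · rcases mul_self_eq_mul_self_iff.1 (huc.trans hsc.symm) with h | h
          · exact hus (Subtype.ext h)
          · exact hut (Subtype.ext (h.trans htn.symm))
        · exact hu0 ((he' u hue).trans he0)
      · refine ⟨-(e' : K), (Fx τ).neg_mem e'.2, ?_, ?_, ?_⟩
        · intro h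
          exact he0 (Subtype.ext (neg_eq_zero.1 h))
        · intro h
          rw [neg_mul_neg] at h
          rcases mul_self_eq_mul_self_iff.1 (h.trans hsc.symm) with h | h
          · exact hse (Subtype.ext h.symm)
          · exact hte (Subtype.ext (htn.trans h.symm))
        · intro h
          have h3 := he' (-e') (by rw [Subfield.coe_neg]; exact h)
          have h4 : -(e' : K) = (e' : K) := by
            have := congrArg (Subtype.val) h3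
            rwa [Subfield.coe_neg] at this
          have h5 : (2 : K) * (e' : K) = 0 := by
            rw [two_mul]
            nth_rewrite 1 [← h4]
            exact neg_add_cancel _
          rcases mul_eq_zero.1 h5 with h6 | h6
          · exact h2' h6
          · exact he0 (Subtype.ext h6)
    · exact ⟨t, t.2, fun h => ht0 (Subtype.ext h), htc, fun h => hte (he' t h)⟩
  · push Not at hs
    obtain ⟨t, ht0, hte, _⟩ := je_out hK 0 e' 0
    exact ⟨t, t.2, fun h => ht0 (Subtype.ext h), fun h => hte (hs t ht0 h), fun h => hte (he' t h)⟩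

/-- THE TARGET, `|K_0| ≥ 4`.  `travelY`; at the node 2 put `z 2 := t ∈ K_0` with `N(t) = t^2 ≠ z1^2 / z0` and `t ≠ z3^2` (`exists_tt`); then `χ_1 ≠ 1`: step to `1`, `z 1 := 1`; if `χ_2 = t^2 / z3 ≠ 1`: step to `2`, done; otherwise `z3 = t^2`; if `χ_3 = z3^2 / t ≠ 1`: step to `3`, done; and `z3^2 = t` is excluded. -/
theorem combA [Finite K] (hK : 4 ≤ Nat.card (Fx τ)) (S : Fin 4 → (∀ i : Fin 4, (Sf τ i)ˣ) → Prop) (h1 : ∀ i z t, S i z → S i (Function.update z i t))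
    (h2 : ∀ i j z, S i z → chY τ (sn j).1 z ≠ 1 → S j z) (i : Fin 4) (z : ∀ i : Fin 4, (Sf τ i)ˣ) (h : S i z) : ∃ j z', S j z' ∧ (2 ≤ (j : ℕ) ∧ z' 1 = 1) := by
  have n02 : (0 : Fin 4) ≠ 2 := by decide
  have n12 : (1 : Fin 4) ≠ 2 := by decide
  have n21 : (2 : Fin 4) ≠ 1 := by decide
  have n31 : (3 : Fin 4) ≠ 1 := by decide
  have n32 : (3 : Fin 4) ≠ 2 := by decide
  have hd : ∃ d : K, d ∈ Fx τ ∧ d ≠ 0 ∧ d ≠ 1 := by
    obtain ⟨d, hd0, hd1, _⟩ := je_out hK 0 1 0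
    exact ⟨d, d.2, fun h => hd0 (Subtype.ext h), fun h => hd1 (Subtype.ext h)⟩
  obtain ⟨z₀, hz₀⟩ := travelY hd S h1 h2 h
  obtain ⟨t, ht, ht0, htc, hte⟩ := exists_tt hK (((z₀ 1 : Sf τ 1) : K) ^ 2 * (((z₀ 0 : Sf τ 0) : K))⁻¹) (((z₀ 3 : Sf τ 3) : K) ^ 2)
  obtain ⟨u, hu⟩ := je_unit (τ := τ) 2 ht ht0
  have hz1 : S 2 (Function.update z₀ 2 u) := h1 2 z₀ u hz₀
  have hz2 : S 1 (Function.update z₀ 2 u) := by
    refine h2 2 1 _ hz1 ?_
    rw [chY_one, Function.update_self, Function.update_of_ne n12, Function.update_of_ne n02, hu, (mem_Fx.1 ht)]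
    intro hh
    exact htc ((mul_inv_eq_one₀ (mul_ne_zero ht0 ht0)).1 hh).symm
  have hz3 := h1 1 _ 1 hz2
  have e3 := je_ne 3 (z₀ 3)
  by_cases hc2 : chY τ (sn 2).1 (Function.update (Function.update z₀ 2 u) 1 1) = 1
  · by_cases hc3 : chY τ (sn 3).1 (Function.update (Function.update z₀ 2 u) 1 1) = 1
    · exfalso
      rw [chY_three, Function.update_of_ne n31, Function.update_of_ne n32, Function.update_of_ne n21, Function.update_self, hu] at hc3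
      exact hte ((mul_inv_eq_one₀ ht0).1 hc3).symm
    · exact ⟨3, _, h2 1 3 _ hz3 hc3, by decide, Function.update_self _ _ _⟩
  · exact ⟨2, _, h2 1 2 _ hz3 hc2, by decide, Function.update_self _ _ _⟩

/-- THREE ELEMENTS IN `K_0` (units `1`, `-1`, all squares are 1).  If `z 1 = 1`: done.  Otherwise `z 1 = -1` and `χ_0 = z0^2 / z1 = -1 ≠ 1`, so `S 0 z` (whatever `i` is); `z 0 := t` with `χ_1 = 1 / (t N(z2)) ≠ 1` (`N(z2) = ± 1`), step to `1`, `z 1 := 1`. -/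
theorem combB (h3 : ∀ a : K, a ∈ Fx τ → a = 0 ∨ a = 1 ∨ a = -1) (h4 : (-1 : K) ≠ 1) (hτ : ∀ a, τ (τ a) = a) (S : Fin 4 → (∀ i : Fin 4, (Sf τ i)ˣ) → Prop) (h1 : ∀ i z t, S i z → S i (Function.update z i t))
    (h2 : ∀ i j z, S i z → chY τ (sn j).1 z ≠ 1 → S j z) (i : Fin 4) (z : ∀ i : Fin 4, (Sf τ i)ˣ) (h : S i z) : ∃ j z', S j z' ∧ z' 1 = 1 := by
  have n10 : (1 : Fin 4) ≠ 0 := by decide
  have n20 : (2 : Fin 4) ≠ 0 := by decide
  by_cases hz : z 1 = 1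
  · exact ⟨i, z, h, hz⟩
  · have hv1 : ((z 1 : Sf τ 1) : K) = -1 := by
      rcases h3 _ (je_fix (τ := τ) (i := 1) (by decide) (z 1)) with hh | hh | hh
      · exact absurd hh (je_ne 1 (z 1))
      · exact absurd (Units.ext (Subtype.ext hh)) hz
      · exact hh
    have hv0 : ((z 0 : Sf τ 0) : K) ^ 2 = 1 := by
      rcases h3 _ (je_fix (τ := τ) (i := 0) (by decide) (z 0)) with hh | hh | hh
      · exact absurd hh (je_ne 0 (z 0))
      · rw [hh, one_pow]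
      · rw [hh, neg_one_sq]
    have hS0 : S 0 z := by
      refine h2 i 0 z h ?_
      rw [chY_zero, hv0, hv1, one_mul, inv_neg, inv_one]
      exact h4
    have hd : ∃ d : K, d ∈ Fx τ ∧ d ≠ 0 ∧ d ≠ 1 :=
      ⟨-1, (Fx τ).neg_mem (Fx τ).one_mem, neg_ne_zero.2 one_ne_zero, h4⟩
    obtain ⟨t, ht, ht0, hne⟩ := je_pick hd (((z 1 : Sf τ 1) : K) ^ 2) ((((z 2 : Sf τ 2) : K) * τ ((z 2 : Sf τ 2) : K))⁻¹)
    obtain ⟨u, hu⟩ := je_unit (τ := τ) 0 ht ht0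
    have hS1 : S 1 (Function.update z 0 u) := by
      refine h2 0 1 _ (h1 0 z u hS0) ?_
      rw [chY_one, Function.update_self, Function.update_of_ne n10, Function.update_of_ne n20, hu]
      exact hne
    exact ⟨1, _, h1 1 _ 1 hS1, Function.update_self _ _ _⟩
-- END je

-- BEGIN jf
private theorem jf_split (h : Stb K 6 x) (hτ : ∀ a, τ (τ a) = a) {p : Root 6 → Prop} (hp : ∀ r, p r → 0 ≤ l6 r.1) {u : G} (hu : u ∈ Sy x τ p) :
    ∃ u₁ ∈ Sy x τ (fun r => p r ∧ l6 r.1 = 0), ∃ u₂ ∈ Uy x τ l6 1, u = u₁ * u₂ := by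
  have step : ∀ r a, p r → Ok τ r a → ∀ y : G, (∃ u₁ ∈ Sy x τ (fun r => p r ∧ l6 r.1 = 0), ∃ u₂ ∈ Uy x τ l6 1, y = u₁ * u₂) →
      ∃ u₁ ∈ Sy x τ (fun r => p r ∧ l6 r.1 = 0), ∃ u₂ ∈ Uy x τ l6 1, yt x τ r a * y = u₁ * u₂ := by
    rintro r a hr ha y ⟨u₁, hu₁, u₂, hu₂, rfl⟩
    rcases (hp r hr).eq_or_lt with h0 | h0
    · exact ⟨yt x τ r a * u₁, Subgroup.mul_mem _ (Sy.mem (p := fun r => p r ∧ l6 r.1 = 0) ⟨hr, h0.symm⟩ ha) hu₁, u₂, hu₂, by rw [mul_assoc]⟩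
    · have hx : yt x τ r a ∈ Uy x τ l6 1 := by
        refine Sy.mem (p := fun r : Root 6 => (((1 : ℕ) : ℤ) ≤ l6 r.1)) ?_ ha
        push_cast
        omega
      have hb : u₁ ∈ Sy x τ fun r => l6 r.1 = 0 := Sy.mono x τ (fun r hr => hr.2) hu₁
      have hc := ((nrm_mem h hτ hb).1 1 le_rfl _ hx).2
      refine ⟨u₁, hu₁, u₁⁻¹ * yt x τ r a * u₁ * u₂, Subgroup.mul_mem _ hc hu₂, ?_⟩
      group
  unfold Sy at hu
  induction hu using Subgroup.closure_induction_left with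
  | one => exact ⟨1, Subgroup.one_mem _, 1, Subgroup.one_mem _, (mul_one 1).symm⟩
  | mul_left g hg y _ ih =>
    obtain ⟨r, a, hr, ha, rfl⟩ := hg
    exact step r a hr ha y ih
  | inv_mul_cancel g hg y _ ih =>
    obtain ⟨r, a, hr, ha, rfl⟩ := hg
    rw [yt_inv h]
    exact step r (-a) hr ha.neg y ih

/-- MODULE jf. LEVI SPLIT, as row `xa` of mods_thg (`Sg_split`, `Sg_split'`), with `Uy.conj_root`. -/
theorem Sy_split (h : Stb K 6 x) (hτ : ∀ a, τ (τ a) = a) {p : Root 6 → Prop} (hp : ∀ r, p r → 0 ≤ l6 r.1) {u : G} (hu : u ∈ Sy x τ p) :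
    (∃ u₁ ∈ Sy x τ (fun r => p r ∧ l6 r.1 = 0), ∃ u₂ ∈ Uy x τ l6 1, u = u₁ * u₂) ∧ ∃ u₂ ∈ Uy x τ l6 1, ∃ u₁ ∈ Sy x τ (fun r => p r ∧ l6 r.1 = 0), u = u₂ * u₁ := by
  have h1 := jf_split h hτ hp hu
  refine ⟨h1, ?_⟩
  obtain ⟨u₁, hu₁, u₂, hu₂, rfl⟩ := h1
  have hb : u₁ ∈ Sy x τ fun r => l6 r.1 = 0 := Sy.mono x τ (fun r hr => hr.2) hu₁
  exact ⟨u₁ * u₂ * u₁⁻¹, ((nrm_mem h hτ hb).1 1 le_rfl _ hu₂).1, u₁, hu₁, by group⟩

private theorem jf_ht (v : Vec 6) : ht v = v.2 0 + 2 * v.2 1 + 3 * v.2 2 + 4 * v.2 3 + 5 * v.2 4 + 6 * v.2 5 - 5 * v.1 := by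
  unfold ht
  rw [Fin.sum_univ_six]
  have e0 : (((0 : Fin 6) : ℕ) : ℤ) = 0 := rfl
  have e1 : (((1 : Fin 6) : ℕ) : ℤ) = 1 := rfl
  have e2 : (((2 : Fin 6) : ℕ) : ℤ) = 2 := rfl
  have e3 : (((3 : Fin 6) : ℕ) : ℤ) = 3 := rfl
  have e4 : (((4 : Fin 6) : ℕ) : ℤ) = 4 := rfl
  have e5 : (((5 : Fin 6) : ℕ) : ℤ) = 5 := rfl
  rw [e0, e1, e2, e3, e4, e5]
  ring

private theorem jf_sum (i : Fin 3) (c d : ℤ) {f0 f1 f2 : ℤ} (h0 : f0 = if (0 : Fin 3) = i then c else d) (h1 : f1 = if (1 : Fin 3) = i then c else d)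
    (h2 : f2 = if (2 : Fin 3) = i then c else d) : f0 + 2 * f1 + 3 * f2 = 6 * d + (((i : ℕ) : ℤ) + 1) * (c - d) ∧ f0 + f1 + f2 = 2 * d + c := by
  subst h0 h1 h2
  fin_cases i <;> constructor <;> simp <;> ring

/-- a positive root has `l6 ≥ 0` (`l6` is the coefficient of `r3`): if `l6 r < 0` then `-r` is in one of the five cases of `cls6`, and all of them have positive height -/
theorem l6_nonneg {r : Root 6} (h : 0 < ht r.1) : 0 ≤ l6 r.1 := by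
  by_contra hcon
  have h1 : l6 (-r.1) = -l6 r.1 := addl6.neg _
  have h2 : 1 ≤ l6 (-r.1) := by omega
  have h3 : ht (-r.1) = -ht r.1 := ThE.ht_neg r.1
  have h4 : ht (-r.1) < 0 := by omega
  have h5 : IsR (-r.1) := isR_neg r.2
  generalize -r.1 = v at h2 h4 h5
  rw [jf_ht] at h4
  rcases cls6 h5 h2 with ⟨i, j, hd, hp, hq⟩ | ⟨i, j, hd, hp, hq⟩ | ⟨i, j, hd, hp, hq⟩ | ⟨hd, hp, hq⟩ | ⟨hd, hp, hq⟩
  · have s1 := jf_sum i _ _ (hp 0) (hp 1) (hp 2)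
    have s2 := jf_sum j _ _ (hq 0) (hq 1) (hq 2)
    have s3 : v.2 0 + 2 * v.2 1 + 3 * v.2 2 = 6 * 0 + (((i : ℕ) : ℤ) + 1) * (-1 - 0) := s1.1
    have s4 : v.2 3 + 2 * v.2 4 + 3 * v.2 5 = 6 * 0 + (((j : ℕ) : ℤ) + 1) * (1 - 0) := s2.1
    have s5 : v.2 3 + v.2 4 + v.2 5 = 2 * 0 + 1 := s2.2
    have hi := i.2
    omega
  · have s1 := jf_sum i _ _ (hp 0) (hp 1) (hp 2)
    have s2 := jf_sum j _ _ (hq 0) (hq 1) (hq 2)
    have s3 : v.2 0 + 2 * v.2 1 + 3 * v.2 2 = 6 * 1 + (((i : ℕ) : ℤ) + 1) * (0 - 1) := s1.1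
    have s4 : v.2 3 + 2 * v.2 4 + 3 * v.2 5 = 6 * 0 + (((j : ℕ) : ℤ) + 1) * (1 - 0) := s2.1
    have s5 : v.2 3 + v.2 4 + v.2 5 = 2 * 0 + 1 := s2.2
    have hi := i.2
    omega
  · have s1 := jf_sum i _ _ (hp 0) (hp 1) (hp 2)
    have s2 := jf_sum j _ _ (hq 0) (hq 1) (hq 2)
    have s3 : v.2 0 + 2 * v.2 1 + 3 * v.2 2 = 6 * 0 + (((i : ℕ) : ℤ) + 1) * (1 - 0) := s1.1
    have s4 : v.2 3 + 2 * v.2 4 + 3 * v.2 5 = 6 * 1 + (((j : ℕ) : ℤ) + 1) * (0 - 1) := s2.1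
    have s5 : v.2 3 + v.2 4 + v.2 5 = 2 * 1 + 0 := s2.2
    have hj := j.2
    omega
  · have p0 : v.2 0 = 0 := hp 0
    have p1 : v.2 1 = 0 := hp 1
    have p2 : v.2 2 = 0 := hp 2
    have q0 : v.2 3 = 1 := hq 0
    have q1 : v.2 4 = 1 := hq 1
    have q2 : v.2 5 = 1 := hq 2
    omega
  · have p0 : v.2 0 = 1 := hp 0
    have p1 : v.2 1 = 1 := hp 1
    have p2 : v.2 2 = 1 := hp 2
    have q0 : v.2 3 = 1 := hq 0
    have q1 : v.2 4 = 1 := hq 1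
    have q2 : v.2 5 = 1 := hq 2
    omega
-- END jf

/-- the indices of the nodes 2, 3 in `SL_3` -/
def ii : Fin 4 → Fin 3 := ![0, 0, 1, 0]
def jj : Fin 4 → Fin 3 := ![1, 1, 2, 1]

variable {F1 F2 : Matrix.SpecialLinearGroup (Fin 3) K →* G} {F3 : Matrix.SpecialLinearGroup (Fin 2) K →* G}

-- BEGIN jg
private theorem jg_pos {r : Root 6} (hd : 1 ≤ r.1.1) (h0 : l6 r.1 = 0) : r = gm := by
  have hb := (d_bound (by norm_num) r).2
  have hs := r.2.1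
  rw [Fin.sum_univ_six] at hs
  have h0' : r.1.2 3 + r.1.2 4 + r.1.2 5 = 0 := h0
  obtain h1 | h2 | h3 : r.1.1 = 1 ∨ r.1.1 = 2 ∨ r.1.1 = 3 := by omega
  · have c := fun i => cls_one_two r (Or.inl h1) i
    have c0 := c 0
    have c1 := c 1
    have c2 := c 2
    have c3 := c 3
    have c4 := c 4
    have c5 := c 5
    rw [h1] at hs
    have e3 : r.1.2 3 = 0 := by omega
    have e4 : r.1.2 4 = 0 := by omega
    have e5 : r.1.2 5 = 0 := by omega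
    have e0 : r.1.2 0 = 1 := by omega
    have e1 : r.1.2 1 = 1 := by omega
    have e2 : r.1.2 2 = 1 := by omega
    refine Subtype.ext (Prod.ext h1 (funext fun i => ?_))
    fin_cases i
    · exact e0
    · exact e1
    · exact e2
    · exact e3
    · exact e4
    · exact e5
  · exfalso
    have c := fun i => cls_one_two r (Or.inr h2) i
    have c0 := c 0
    have c1 := c 1
    have c2 := c 2
    have c3 := c 3
    have c4 := c 4
    have c5 := c 5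
    rw [h2] at hs
    omega
  · exact absurd (cls_three (by norm_num) r h3).1 (by norm_num)

private theorem jg_dec : ∀ i j : Fin 6,
    0 < ht (((0 : ℤ), fun k : Fin 6 => (if k = i then (1 : ℤ) else 0) - (if k = j then 1 else 0)) : Vec 6) →
    l6 (((0 : ℤ), fun k : Fin 6 => (if k = i then (1 : ℤ) else 0) - (if k = j then 1 else 0)) : Vec 6) = 0 →
    ∃ a b : Fin 3, b < a ∧ ((((0 : ℤ), fun k : Fin 6 => (if k = i then (1 : ℤ) else 0) - (if k = j then 1 else 0)) : Vec 6) = uA a - uA b ∨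
      sg (((0 : ℤ), fun k : Fin 6 => (if k = i then (1 : ℤ) else 0) - (if k = j then 1 else 0)) : Vec 6) = uA a - uA b) := by
  decide +kernel

/-- MODULE jg. The positive root vectors of level 0 are `gm`, `e_a - e_b` (`b < a ≤ 2`), and `sg` of them (`e_a - e_b`, `3 ≤ b < a`): `d = 0`: clear; `d = 1`: `m_3 + m_4 + m_5 = 0` and `m_i ∈ {0, 1}`; `d = 2`: level 3.  `e_a - e_b` has `gg (el K a b t) = yt x τ r (cf t)`. -/
theorem lev0 {r : Root 6} (h : 0 < ht r.1) (h0 : l6 r.1 = 0) : r = gm ∨ ∃ a b : Fin 3, b < a ∧ (r.1 = uA a - uA b ∨ sg r.1 = uA a - uA b) := by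
  rcases lt_trichotomy r.1.1 0 with hd | hd | hd
  · exfalso
    have h1 : -r = gm := jg_pos (r := -r) (by
      rw [neg_val, Prod.fst_neg]
      omega) (by
      rw [neg_val]
      show -r.1.2 3 + -r.1.2 4 + -r.1.2 5 = 0
      have h0' : r.1.2 3 + r.1.2 4 + r.1.2 5 = 0 := h0
      omega)
    have h2 : r = -gm := by rw [← h1, neg_neg']
    rw [h2] at h
    exact absurd h (by decide)
  · obtain ⟨i, j, -, hk⟩ := cls_zero r hd
    have hr : r.1 = ((0 : ℤ), fun k : Fin 6 => (if k = i then (1 : ℤ) else 0) - (if k = j then 1 else 0)) :=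
      Prod.ext hd (funext hk)
    rw [hr] at h h0 ⊢
    exact Or.inr (jg_dec i j h h0)
  · exact Or.inl (jg_pos hd h0)

private theorem jg_mov {s : Root 6} {a b : Fin 3} (hab : a ≠ b) (hs : s.1 = uA a - uA b) : sr s ≠ s := by
  intro e
  have e1 : sg s.1 = s.1 := congrArg Subtype.val e
  rw [hs] at e1
  revert e1
  have key : ∀ a b : Fin 3, a ≠ b → sg (uA a - uA b) ≠ uA a - uA b := by decide +kernel
  exact key a b hab

private theorem jg_gen (h : Stb K 6 x) (hτ : ∀ a, τ (τ a) = a) (H : L3 x F1 F2 F3) {s : Root 6} {a b : Fin 3} (hab : a ≠ b) (hs : s.1 = uA a - uA b ∨ sg s.1 = uA a - uA b) (t : K) :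
    ∃ c : K, yt x τ s t = gg τ F1 F2 (el K a b c) := by
  rcases hs with hs | hs
  · refine ⟨cf K uA a b * t, ?_⟩
    rw [gg_el h H hab hs, ← mul_assoc, cf_sq, one_mul]
  · have hs' : (sr s).1 = uA a - uA b := hs
    have hm : sr s ≠ s := by
      intro e
      have e1 := jg_mov hab hs'
      rw [sr_sr] at e1
      exact e1 e.symm
    refine ⟨cf K uA a b * (et K s.1 * τ t), ?_⟩
    rw [gg_el h H hab hs', ← mul_assoc, cf_sq, one_mul, yt_sr h hτ hm]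

private theorem jg_gm : sr gm = gm := (sn_fix 0).mpr (by decide)

private theorem jg_ngm : sr (-gm) = -gm := by
  rw [sr_neg, jg_gm]

private theorem jg_sn {j : Fin 4} (hj : 2 ≤ (j : ℕ)) {s : Root 6} {a b : Fin 3} (hs : s.1 = uA a - uA b) (hne : s ≠ sn j) : ¬ (a = jj j ∧ b = ii j) := by
  rintro ⟨rfl, rfl⟩
  apply hne
  apply Subtype.ext
  rw [hs]
  have key : ∀ j : Fin 4, 2 ≤ (j : ℕ) → uA (jj j) - uA (ii j) = (sn j).1 := by decide +kernel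
  exact key j hj

private theorem jg_pi {j : Fin 4} (hj : 2 ≤ (j : ℕ)) {r : Root 6} (hp : Pi' j r) {a b : Fin 3} (hr : r.1 = uA a - uA b ∨ sg r.1 = uA a - uA b) : ¬ (a = jj j ∧ b = ii j) := by
  obtain ⟨-, h1, h2⟩ := hp
  rcases hr with hr | hr
  · exact jg_sn hj hr h1
  · refine jg_sn (s := sr r) hj hr fun e => h2 ?_
    rw [← e, sr_sr]

private theorem jg_el {F : Type*} [Field F] {m : ℕ} {i j : Fin m} (hij : i ≠ j) (a b : F) : el F i j a * el F i j b = el F i j (a + b) :=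
  ((el_sta F m).add i j hij a b).symm

private theorem jg_el0 {F : Type*} [Field F] {m : ℕ} {i j : Fin m} (hij : i ≠ j) : el F i j 0 = 1 := by
  have e := jg_el (F := F) hij 0 0
  rw [add_zero] at e
  exact mul_eq_left.mp e

/-- `u` in the subgroup generated by the positive root elements of level 0 without the node `j`: closure induction; the elements `gf (el 0 1 a) * gg N'` form a subgroup (`gf_gg`); `yt x τ (sr r) a = yt x τ r (..)` (`yt_sr`) for the second kind; `(a, b) ≠ (jj j, ii j)` -/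
theorem lev_lowY (h : Stb K 6 x) (hτ : ∀ a, τ (τ a) = a) (H : L3 x F1 F2 F3) {j : Fin 4} (hj : 2 ≤ (j : ℕ)) {u : G} (hu : u ∈ Sy x τ fun r => Pi' j r ∧ l6 r.1 = 0) :
    ∃ a : Fx τ, ∃ N' ∈ LT K (fun a b : Fin 3 => b < a ∧ ¬ (a = jj j ∧ b = ii j)), u = gf τ F3 (el (Fx τ) 0 1 a) * gg τ F1 F2 N' := by
  have step : ∀ (r : Root 6) (t : K), (Pi' j r ∧ l6 r.1 = 0) → Ok τ r t → ∀ y : G,
      (∃ a : Fx τ, ∃ N' ∈ LT K (fun a b : Fin 3 => b < a ∧ ¬ (a = jj j ∧ b = ii j)), y = gf τ F3 (el (Fx τ) 0 1 a) * gg τ F1 F2 N') →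
      ∃ a : Fx τ, ∃ N' ∈ LT K (fun a b : Fin 3 => b < a ∧ ¬ (a = jj j ∧ b = ii j)), yt x τ r t * y = gf τ F3 (el (Fx τ) 0 1 a) * gg τ F1 F2 N' := by
    rintro r t ⟨hp, h0⟩ ht y ⟨a, N', hN', rfl⟩
    rcases lev0 hp.1 h0 with hr | ⟨p, q, hpq, hr⟩
    · have hrt : τ t = t := ht (by rw [hr]; exact jg_gm)
      refine ⟨⟨t, mem_Fx.mpr hrt⟩ + a, N', hN', ?_⟩
      rw [← mul_assoc, hr, ← jg_el (by decide : (0 : Fin 2) ≠ 1), gf_mul]
      congr 2
      exact (gf_el01 H ⟨t, mem_Fx.mpr hrt⟩).symm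
    · have hne : p ≠ q := ne_of_gt hpq
      obtain ⟨c, hc⟩ := jg_gen h hτ H hne hr t
      refine ⟨a, el K p q c * N', Subgroup.mul_mem _ (Subgroup.subset_closure ⟨p, q, c, hne, ⟨hpq, jg_pi hj hp hr⟩, rfl⟩) hN', ?_⟩
      rw [hc, gg_mul h H, ← mul_assoc, ← mul_assoc, gf_gg h H]
  unfold Sy at hu
  induction hu using Subgroup.closure_induction_left with
  | one =>
    refine ⟨0, 1, Subgroup.one_mem _, ?_⟩
    rw [jg_el0 (by decide : (0 : Fin 2) ≠ 1), gf_one, gg_one, mul_one]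
  | mul_left g hg y _ ih =>
    obtain ⟨r, t, hr, ht, rfl⟩ := hg
    exact step r t hr ht y ih
  | inv_mul_cancel g hg y _ ih =>
    obtain ⟨r, t, hr, ht, rfl⟩ := hg
    rw [yt_inv h]
    exact step r (-t) hr ht.neg y ih

theorem lev_uppY (h : Stb K 6 x) (hτ : ∀ a, τ (τ a) = a) (H : L3 x F1 F2 F3) {j : Fin 4} (hj : 2 ≤ (j : ℕ)) {v : G} (hv : v ∈ Sy (op x) τ fun r => Pi' j r ∧ l6 r.1 = 0) :
    ∃ a : Fx τ, ∃ N ∈ LT K (fun a b : Fin 3 => a < b ∧ ¬ (a = ii j ∧ b = jj j)), v = gf τ F3 (el (Fx τ) 1 0 a) * gg τ F1 F2 N := by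
  have step : ∀ (r : Root 6) (t : K), (Pi' j r ∧ l6 r.1 = 0) → Ok τ r t → ∀ y : G,
      (∃ a : Fx τ, ∃ N ∈ LT K (fun a b : Fin 3 => a < b ∧ ¬ (a = ii j ∧ b = jj j)), y = gf τ F3 (el (Fx τ) 1 0 a) * gg τ F1 F2 N) →
      ∃ a : Fx τ, ∃ N ∈ LT K (fun a b : Fin 3 => a < b ∧ ¬ (a = ii j ∧ b = jj j)), yt (op x) τ r t * y = gf τ F3 (el (Fx τ) 1 0 a) * gg τ F1 F2 N := by
    rintro r t ⟨hp, h0⟩ ht y ⟨a, N, hN, rfl⟩
    rw [yt_op]
    rcases lev0 hp.1 h0 with hr | ⟨p, q, hpq, hr⟩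
    · have hrt : τ t = t := ht (by rw [hr]; exact jg_gm)
      refine ⟨-⟨t, mem_Fx.mpr hrt⟩ + a, N, hN, ?_⟩
      rw [← mul_assoc, hr, ← jg_el (by decide : (1 : Fin 2) ≠ 0), gf_mul]
      congr 2
      rw [gf_el10 H (-⟨t, mem_Fx.mpr hrt⟩)]
      congr 1
      show t = -(-t)
      rw [neg_neg]
    · have hne : q ≠ p := ne_of_lt hpq
      have hr' : (-r).1 = uA q - uA p ∨ sg (-r).1 = uA q - uA p := by
        rcases hr with hr | hr
        · left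
          rw [neg_val, hr, neg_sub]
        · right
          rw [neg_val, sg_neg, hr, neg_sub]
      obtain ⟨c, hc⟩ := jg_gen h hτ H hne hr' t
      have hq : ¬ (q = ii j ∧ p = jj j) := fun e => jg_pi hj hp hr ⟨e.2, e.1⟩
      refine ⟨a, el K q p c * N, Subgroup.mul_mem _ (Subgroup.subset_closure ⟨q, p, c, hne, ⟨hpq, hq⟩, rfl⟩) hN, ?_⟩
      rw [hc, gg_mul h H, ← mul_assoc, ← mul_assoc, gf_gg h H]
  unfold Sy at hv
  induction hv using Subgroup.closure_induction_left with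
  | one =>
    refine ⟨0, 1, Subgroup.one_mem _, ?_⟩
    rw [jg_el0 (by decide : (1 : Fin 2) ≠ 0), gf_one, gg_one, mul_one]
  | mul_left g hg y _ ih =>
    obtain ⟨r, t, hr, ht, rfl⟩ := hg
    exact step r t hr ht y ih
  | inv_mul_cancel g hg y _ ih =>
    obtain ⟨r, t, hr, ht, rfl⟩ := hg
    rw [yt_inv h.op]
    exact step r (-t) hr ht.neg y ih
-- END jg

-- BEGIN jh
private theorem jh_el_val {m : ℕ} {F : Type*} [Field F] {i j : Fin m} (h : i ≠ j) (a : F) : (el F i j a).1 = Matrix.transvection i j a :=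
  congrArg Subtype.val (dif_pos h : el F i j a = ⟨Matrix.transvection i j a, Matrix.det_transvection_of_ne i j h a⟩)

private theorem jh_map_el {m : ℕ} {F E : Type*} [Field F] [Field E] (f : F →+* E) (i j : Fin m) (a : F) :
    Matrix.SpecialLinearGroup.map f (el F i j a) = el E i j (f a) := by
  by_cases h : i ≠ j
  · refine Matrix.SpecialLinearGroup.ext _ _ fun p q => ?_
    have e : (Matrix.SpecialLinearGroup.map f (el F i j a)).1 p q = f ((el F i j a).1 p q) := rfl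
    rw [e, jh_el_val h, jh_el_val h]
    unfold Matrix.transvection
    simp only [Matrix.add_apply, map_add, Matrix.one_apply, Matrix.single_apply]
    split_ifs <;> simp
  · have e1 : el F i j a = 1 := dif_neg h
    have e2 : el E i j (f a) = 1 := dif_neg h
    rw [e1, e2, map_one]

private theorem jh_map_hA {m : ℕ} {F E : Type*} [Field F] [Field E] (f : F →+* E) (i j : Fin m) (a : F) :
    Matrix.SpecialLinearGroup.map f (hA (el F) i j a) = hA (el E) i j (f a) := by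
  simp only [hA, nA, map_mul, jh_map_el, map_neg, map_inv₀, map_one]

private theorem jh_tm (τ : K →+* K) {i j : Fin 3} (h : i ≠ j) (c : Kˣ) :
    tm τ (hA (el K) i j (c : K)) = hA (el K) i j (τ (c : K)) := by
  have e : τ (c : K) = ((Units.map (τ : K →* K) c : Kˣ) : K) := rfl
  unfold tm
  rw [MonoidHom.comp_apply, jh_map_hA, e]
  refine Matrix.SpecialLinearGroup.ext _ _ fun p q => ?_
  rw [cjd_apply, ThR.hA_el h]
  by_cases hpq : p = q
  · subst hpq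
    rw [mul_right_comm, Units.mul_inv, one_mul]
  · rw [Matrix.diagonal_apply_ne _ hpq, mul_zero, zero_mul]

private theorem jh_gg (h : Stb K 6 x) (H : L3 x F1 F2 F3) {i j : Fin 3} (hij : i ≠ j) {r : Root 6} (hr : r.1 = uA i - uA j) (hs : sr r ≠ r) (c : Kˣ) :
    gg τ F1 F2 (hA (el K) i j (c : K)) = hy x τ r (c : K) := by
  have e : τ (c : K) = ((Units.map (τ : K →* K) c : Kˣ) : K) := rfl
  unfold gg hy
  rw [if_neg hs, jh_tm τ hij, HomF.hA (Or.inl rfl) h fam_uA H.h1 hij hr, e]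
  have hr' : (sr r).1 = uM i - uM j := by rw [sr_val, hr, sg_uA]
  rw [HomF.hA (Or.inl rfl) h fam_uM H.h2 hij hr']

private theorem jh_r1 : r1.1 = uA 1 - uA 0 ∧ sr r1 ≠ r1 := by
  refine ⟨by decide, fun h => ?_⟩
  have := congrArg (fun r : Root 6 => r.1.2 0) h
  revert this
  decide

private theorem jh_r2 : r2.1 = uA 2 - uA 1 ∧ sr r2 ≠ r2 := by
  refine ⟨by decide, fun h => ?_⟩
  have := congrArg (fun r : Root 6 => r.1.2 1) h
  revert this
  decide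

/-- MODULE jh. `hy x τ gm c = hh x gm c = F3 (hA (el K) 0 1 c)` (`HomF.hA`), `= gf (hA (el (Fx τ)) 0 1 c)`; `hy x τ r1 c = gg (hA (el K) 1 0 c)`, `hy x τ r2 c = gg (hA (el K) 2 1 c)` (`HomF.hA` for `F1`, `F2`: `sr r1 = uM 1 - uM 0`; `tm τ (hA (el K) i j c) = hA (el K) i j (τ c)`: `hA_el`, diagonal matrices);
`hA (el K) 1 0 z3 * hA (el K) 2 1 z2 = diag (z3⁻¹, z3 z2⁻¹, z2)` (`ThR.hA_el` or `ThK.hA_el`); `hy x τ r3 1 = 1`. -/
theorem hz_lev (h : Stb K 6 x) (hτ : ∀ a, τ (τ a) = a) (H : L3 x F1 F2 F3) {z : ∀ i : Fin 4, (Sf τ i)ˣ} (hz1 : z 1 = 1) :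
    ∃ (A : Matrix.SpecialLinearGroup (Fin 2) (Fx τ)) (D : Matrix.SpecialLinearGroup (Fin 3) K) (a b : Kˣ), (a : K) = ((z 2 : Sf τ 2) : K) ∧ (b : K) = ((z 3 : Sf τ 3) : K) ∧
      D.1 = Matrix.diagonal (fun k => (((![b⁻¹, b * a⁻¹, a] : Fin 3 → Kˣ) k : Kˣ) : K)) ∧ hz x τ z = gf τ F3 A * gg τ F1 F2 D := by
  have m0 : ((z 0 : Sf τ 0) : K) ∈ Fx τ := Sf_fix (by decide) (z 0 : Sf τ 0)
  have n0' : ((z 0 : Sf τ 0) : K) ≠ 0 := fun hh => (z 0).ne_zero (Subtype.ext hh)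
  set a : Kˣ := Units.map ((Sf τ 2).subtype : Sf τ 2 →* K) (z 2) with ha
  set b : Kˣ := Units.map ((Sf τ 3).subtype : Sf τ 3 →* K) (z 3) with hb
  have ea : (a : K) = ((z 2 : Sf τ 2) : K) := rfl
  have eb : (b : K) = ((z 3 : Sf τ 3) : K) := rfl
  refine ⟨hA (el (Fx τ)) 0 1 ⟨_, m0⟩, hA (el K) 2 1 (a : K) * hA (el K) 1 0 (b : K), a, b, ea, eb, ?_, ?_⟩
  · rw [Matrix.SpecialLinearGroup.coe_mul, ThR.hA_el (by decide), ThR.hA_el (by decide), Matrix.diagonal_mul_diagonal]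
    refine congrArg Matrix.diagonal (funext fun k => ?_)
    fin_cases k
    · simp
    · simp [mul_comm]
    · simp
  · have g0 : hy x τ (sn 0) ((z 0 : Sf τ 0) : K) = gf τ F3 (hA (el (Fx τ)) 0 1 ⟨_, m0⟩) := by
      show hy x τ gm _ = _
      unfold hy gf em
      rw [if_pos sr_gm, jh_map_hA]
      have hu : gm.1 = uC 0 - uC 1 := by decide
      exact (HomF.hA (Or.inl rfl) h fam_uC H.h3 (by decide) hu (Units.mk0 _ n0')).symm
    have g1 : hy x τ (sn 1) ((z 1 : Sf τ 1) : K) = 1 := by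
      rw [hz1]
      exact hy_one h _
    have g2 : hy x τ (sn 2) ((z 2 : Sf τ 2) : K) = gg τ F1 F2 (hA (el K) 2 1 (a : K)) :=
      (jh_gg h H (by decide) jh_r2.1 jh_r2.2 a).symm
    have g3 : hy x τ (sn 3) ((z 3 : Sf τ 3) : K) = gg τ F1 F2 (hA (el K) 1 0 (b : K)) :=
      (jh_gg h H (by decide) jh_r1.1 jh_r1.2 b).symm
    unfold hz
    rw [g0, g1, g2, g3, mul_one, mul_assoc, gg_mul h H]

/-- `gg (el K (ii j) (jj j) c')` for `yt x τ (-sn j) c`, `j ≥ 2` (`gg_el`; the sign `cf`), and `gg (el K (jj j) (ii j) b')` for `yt x τ (sn j) b`; `c' = 0 ↔ c = 0` -/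
theorem yt_lev (h : Stb K 6 x) (H : L3 x F1 F2 F3) {j : Fin 4} (hj : 2 ≤ (j : ℕ)) (c : K) :
    (∃ c', (c' = 0 ↔ c = 0) ∧ yt x τ (-sn j) c = gg τ F1 F2 (el K (ii j) (jj j) c')) ∧ ∃ c', (c' = 0 ↔ c = 0) ∧ yt x τ (sn j) c = gg τ F1 F2 (el K (jj j) (ii j) c') := by
  have hne : ii j ≠ jj j := by
    revert j
    decide
  have hs : (sn j).1 = uA (jj j) - uA (ii j) := by
    revert j
    decide
  have hn : (-sn j).1 = uA (ii j) - uA (jj j) := by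
    show -(sn j).1 = _
    rw [hs, neg_sub]
  have key : ∀ (i k : Fin 3), i ≠ k → ∀ r : Root 6, r.1 = uA i - uA k → ∃ c', (c' = 0 ↔ c = 0) ∧ yt x τ r c = gg τ F1 F2 (el K i k c') := by
    intro i k hik r hr
    have h0 : cf K uA i k ≠ 0 := by
      intro h0
      have := cf_sq (K := K) uA i k
      rw [h0, mul_zero] at this
      exact zero_ne_one this
    refine ⟨cf K uA i k * c, ⟨fun e => (mul_eq_zero.mp e).resolve_left h0, fun e => by rw [e, mul_zero]⟩, ?_⟩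
    rw [gg_el h H hik hr, ← mul_assoc, cf_sq, one_mul]
  exact ⟨key _ _ hne _ hn, key _ _ hne.symm _ hs⟩
-- END jh

-- BEGIN ji
private theorem ji_mov {s : Root 6} {a b : Fin 3} (hab : a ≠ b) (hs : s.1 = uA a - uA b) : sr s ≠ s := by
  intro e
  have e1 : sg s.1 = s.1 := congrArg Subtype.val e
  rw [hs] at e1
  revert e1
  have key : ∀ a b : Fin 3, a ≠ b → sg (uA a - uA b) ≠ uA a - uA b := by decide +kernel
  exact key a b hab

private theorem ji_gen (h : Stb K 6 x) (hτ : ∀ a, τ (τ a) = a) (H : L3 x F1 F2 F3) {s : Root 6} {a b : Fin 3} (hab : a ≠ b) (hs : s.1 = uA a - uA b ∨ sg s.1 = uA a - uA b) (t : K) :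
    ∃ c : K, yt x τ s t = gg τ F1 F2 (el K a b c) := by
  rcases hs with hs | hs
  · refine ⟨cf K uA a b * t, ?_⟩
    rw [gg_el h H hab hs, ← mul_assoc, cf_sq, one_mul]
  · have hs' : (sr s).1 = uA a - uA b := hs
    have hm : sr s ≠ s := by
      intro e
      have e1 := ji_mov hab hs'
      rw [sr_sr] at e1
      exact e1 e.symm
    refine ⟨cf K uA a b * (et K s.1 * τ t), ?_⟩
    rw [gg_el h H hab hs', ← mul_assoc, cf_sq, one_mul, yt_sr h hτ hm]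

private theorem ji_mid (h : Stb K 6 x) (H : L3 x F1 F2 F3) (A1 A2 A3 : Matrix.SpecialLinearGroup (Fin 2) (Fx τ)) (B1 B2 B3 : Matrix.SpecialLinearGroup (Fin 3) K) :
    (gf τ F3 A1 * gg τ F1 F2 B1) * (gf τ F3 A2 * gg τ F1 F2 B2) * (gf τ F3 A3 * gg τ F1 F2 B3) = gf τ F3 (A1 * A2 * A3) * gg τ F1 F2 (B1 * B2 * B3) := by
  have e (A A' : Matrix.SpecialLinearGroup (Fin 2) (Fx τ)) (B B' : Matrix.SpecialLinearGroup (Fin 3) K) :
      (gf τ F3 A * gg τ F1 F2 B) * (gf τ F3 A' * gg τ F1 F2 B') = gf τ F3 (A * A') * gg τ F1 F2 (B * B') := by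
    rw [gf_mul, gg_mul h H, mul_assoc, ← mul_assoc (gg τ F1 F2 B), ← gf_gg h H]
    simp only [mul_assoc]
  rw [e, e]

/-- MODULE ji. FROM `NY` TO THE LEVI SUBGROUP, `j ≥ 2`, `z 1 = 1`: `Sy_split` for `u` and for `v` (`op x`), `lev_lowY`, `lev_uppY`, `hz_lev`, `yt_lev`; `B = N * el (ii) (jj) c' * D * el (jj) (ii) b' * N'` is not scalar by `ThK.nonscalar`: if `δ_(ii) = δ_(jj)` then `chY (sn j) z = 1` (`chY_two`, `chY_three`, `z 1 = 1`). -/
theorem NY_lev (h : Stb K 6 x) (hτ : ∀ a, τ (τ a) = a) (H : L3 x F1 F2 F3) {j : Fin 4} (hj : 2 ≤ (j : ℕ)) {g : G} {z : ∀ i : Fin 4, (Sf τ i)ˣ} (hz1 : z 1 = 1) (hg : NY x τ j g z) :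
    ∃ v ∈ Uy (op x) τ l6 1, ∃ u ∈ Uy x τ l6 1, ∃ (A : Matrix.SpecialLinearGroup (Fin 2) (Fx τ)) (B : Matrix.SpecialLinearGroup (Fin 3) K),
      (∀ t : K, B.1 ≠ t • (1 : Matrix (Fin 3) (Fin 3) K)) ∧ g = v * (gf τ F3 A * gg τ F1 F2 B) * u := by
  obtain ⟨v, hv, u, hu, c, b, rfl, hcb⟩ := hg
  obtain ⟨v₂, hv₂, v₁, hv₁, rfl⟩ := (Sy_split h.op hτ (fun r hr => l6_nonneg hr.1) hv).2
  obtain ⟨u₁, hu₁, u₂, hu₂, rfl⟩ := (Sy_split h hτ (fun r hr => l6_nonneg hr.1) hu).1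
  obtain ⟨a₁, N, hN, rfl⟩ := lev_uppY h hτ H hj hv₁
  obtain ⟨a₂, N', hN', rfl⟩ := lev_lowY h hτ H hj hu₁
  obtain ⟨A, D, a, b₀, ha, hb₀, hD, hz⟩ := hz_lev h hτ H hz1
  obtain ⟨c', hc', ec⟩ := (yt_lev (τ := τ) h H hj (c : K)).1
  obtain ⟨b', hb', eb⟩ := (yt_lev (τ := τ) h H hj (b : K)).2
  have hij : ((ii j : Fin 3) : ℕ) + 1 = (jj j : ℕ) := by
    have key : ∀ j : Fin 4, 2 ≤ (j : ℕ) → ((ii j : Fin 3) : ℕ) + 1 = (jj j : ℕ) := by decide +kernel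
    exact key j hj
  have hne : ¬ (c' = 0 ∧ b' = 0 ∧ (![b₀⁻¹, b₀ * a⁻¹, a] : Fin 3 → Kˣ) (ii j) = (![b₀⁻¹, b₀ * a⁻¹, a] : Fin 3 → Kˣ) (jj j)) := by
    rintro ⟨e1, e2, e3⟩
    refine hcb ⟨Subtype.ext (hc'.mp e1), Subtype.ext (hb'.mp e2), ?_⟩
    have e0 : ((z 1 : Sf τ 1) : K) = 1 := by
      rw [hz1]
      rfl
    obtain rfl | rfl : j = 2 ∨ j = 3 := by
      have key : ∀ j : Fin 4, 2 ≤ (j : ℕ) → j = 2 ∨ j = 3 := by decide
      exact key j hj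
    · have e4 : b₀ * a⁻¹ = a := e3
      have e5 : b₀ = a * a := mul_inv_eq_iff_eq_mul.mp e4
      rw [chY_two, e0, ← ha, ← hb₀, e5, Units.val_mul, inv_one, mul_one]
      have ha0 : (a : K) ≠ 0 := a.ne_zero
      field_simp
    · have e4 : b₀⁻¹ = b₀ * a⁻¹ := e3
      have e5 : a = b₀ * b₀ := by
        have e6 : b₀⁻¹ * a = b₀ := by
          rw [e4, inv_mul_cancel_right]
        exact inv_mul_eq_iff_eq_mul.mp e6
      rw [chY_three, ← ha, ← hb₀, e5, Units.val_mul]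
      have hb0 : (b₀ : K) ≠ 0 := b₀.ne_zero
      field_simp
  refine ⟨v₂, hv₂, u₂, hu₂, el (Fx τ) 1 0 a₁ * A * el (Fx τ) 0 1 a₂, N * el K (ii j) (jj j) c' * D * el K (jj j) (ii j) b' * N', nonscalar hij hN hN' hD hne, ?_⟩
  rw [ec, eb, hz]
  have e1 : N * el K (ii j) (jj j) c' * D * el K (jj j) (ii j) b' * N' = (N * el K (ii j) (jj j) c') * D * (el K (jj j) (ii j) b' * N') := by
    group
  rw [e1, ← ji_mid h H, gg_mul h H N, gg_mul h H _ N']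
  have e2 : gf τ F3 (el (Fx τ) 0 1 a₂) * (gg τ F1 F2 (el K (jj j) (ii j) b') * gg τ F1 F2 N') = gg τ F1 F2 (el K (jj j) (ii j) b') * (gf τ F3 (el (Fx τ) 0 1 a₂) * gg τ F1 F2 N') := by
    rw [← mul_assoc, gf_gg h H, mul_assoc]
  rw [e2]
  simp only [mul_assoc]

/-- the subgroup generated by the root elements of level 0 consists of the `gf A * gg B` (closure induction; negative roots with `lev0` for `-r`; `ht_ne6`) -/
theorem lev_all (h : Stb K 6 x) (hτ : ∀ a, τ (τ a) = a) (H : L3 x F1 F2 F3) {u : G} (hu : u ∈ Sy x τ fun r => l6 r.1 = 0) :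
    ∃ (A : Matrix.SpecialLinearGroup (Fin 2) (Fx τ)) (B : Matrix.SpecialLinearGroup (Fin 3) K), u = gf τ F3 A * gg τ F1 F2 B := by
  have gen : ∀ (r : Root 6) (t : K), l6 r.1 = 0 → Ok τ r t → ∃ (A : Matrix.SpecialLinearGroup (Fin 2) (Fx τ)) (B : Matrix.SpecialLinearGroup (Fin 3) K), yt x τ r t = gf τ F3 A * gg τ F1 F2 B := by
    intro r t h0 hok
    rcases lt_or_gt_of_ne (ht_ne6 r) with hr | hr
    · have h1 : 0 < ht (-r).1 := by
        rw [neg_val, ThE.ht_neg]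
        omega
      have h2 : l6 (-r).1 = 0 := by
        rw [neg_val, addl6.neg, h0, neg_zero]
      rcases lev0 h1 h2 with e | ⟨p, q, hpq, e⟩
      · have e' : r = -gm := by rw [← e, neg_neg']
        have hrt : τ t = t := hok (by rw [e', sr_neg]; exact congrArg Neg.neg ((sn_fix 0).mpr (by decide)))
        refine ⟨el (Fx τ) 1 0 (-⟨t, mem_Fx.mpr hrt⟩), 1, ?_⟩
        rw [gg_one, mul_one, gf_el10 H, e']
        congr 1
        show t = -(-t)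
        rw [neg_neg]
      · have e' : r.1 = uA q - uA p ∨ sg r.1 = uA q - uA p := by
          rcases e with e | e
          · left
            rw [neg_val] at e
            rw [← neg_sub, ← e, neg_neg]
          · right
            rw [neg_val, sg_neg] at e
            rw [← neg_sub, ← e, neg_neg]
        obtain ⟨c, hc⟩ := ji_gen h hτ H (ne_of_lt hpq) e' t
        exact ⟨1, el K q p c, by rw [hc, gf_one, one_mul]⟩
    · rcases lev0 hr h0 with e | ⟨p, q, hpq, e⟩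
      · have hrt : τ t = t := hok (by rw [e]; exact (sn_fix 0).mpr (by decide))
        refine ⟨el (Fx τ) 0 1 ⟨t, mem_Fx.mpr hrt⟩, 1, ?_⟩
        rw [gg_one, mul_one, gf_el01 H, e]
      · obtain ⟨c, hc⟩ := ji_gen h hτ H (ne_of_gt hpq) e t
        exact ⟨1, el K p q c, by rw [hc, gf_one, one_mul]⟩
  have step : ∀ (r : Root 6) (t : K), l6 r.1 = 0 → Ok τ r t → ∀ y : G, (∃ (A : Matrix.SpecialLinearGroup (Fin 2) (Fx τ)) (B : Matrix.SpecialLinearGroup (Fin 3) K), y = gf τ F3 A * gg τ F1 F2 B) →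
      ∃ (A : Matrix.SpecialLinearGroup (Fin 2) (Fx τ)) (B : Matrix.SpecialLinearGroup (Fin 3) K), yt x τ r t * y = gf τ F3 A * gg τ F1 F2 B := by
    rintro r t h0 ht y ⟨A, B, rfl⟩
    obtain ⟨A', B', e⟩ := gen r t h0 ht
    refine ⟨1 * A' * A, 1 * B' * B, ?_⟩
    rw [e, ← ji_mid h H, gf_one, gg_one, one_mul, one_mul]
  unfold Sy at hu
  induction hu using Subgroup.closure_induction_left with
  | one => exact ⟨1, 1, by rw [gf_one, gg_one, one_mul]⟩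
  | mul_left g hg y _ ih =>
    obtain ⟨r, t, hr, ht, rfl⟩ := hg
    exact step r t hr ht y ih
  | inv_mul_cancel g hg y _ ih =>
    obtain ⟨r, t, hr, ht, rfl⟩ := hg
    rw [yt_inv h]
    exact step r (-t) hr ht.neg y ih

/-- the same without the condition on `j` and without `B` not scalar: `yt x τ (± sn j) c` is in the Levi subgroup or (`j = 1`) in `Uy` -/
theorem NY_lev' (h : Stb K 6 x) (hτ : ∀ a, τ (τ a) = a) (H : L3 x F1 F2 F3) {j : Fin 4} {g : G} {z : ∀ i : Fin 4, (Sf τ i)ˣ} (hz1 : z 1 = 1) (hg : NY x τ j g z) :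
    ∃ v ∈ Uy (op x) τ l6 1, ∃ u ∈ Uy x τ l6 1, ∃ (A : Matrix.SpecialLinearGroup (Fin 2) (Fx τ)) (B : Matrix.SpecialLinearGroup (Fin 3) K), g = v * (gf τ F3 A * gg τ F1 F2 B) * u := by
  obtain ⟨v, hv, u, hu, c, b, rfl, -⟩ := hg
  have hsn : 0 < ht (sn j).1 := by
    rw [sn_ht]
    exact one_pos
  have hv' : v * yt x τ (-sn j) (c : K) ∈ Sy (op x) τ fun r => 0 < ht r.1 := by
    refine Subgroup.mul_mem _ (Sy.mono (op x) τ (fun r hr => hr.1) hv) ?_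
    rw [← yt_op]
    exact Sy.mem (p := fun r : Root 6 => 0 < ht r.1) hsn (Sf_ok j c)
  have hu' : yt x τ (sn j) (b : K) * u ∈ Sy x τ fun r => 0 < ht r.1 :=
    Subgroup.mul_mem _ (Sy.mem (p := fun r : Root 6 => 0 < ht r.1) hsn (Sf_ok j b)) (Sy.mono x τ (fun r hr => hr.1) hu)
  obtain ⟨v₂, hv₂, v₁, hv₁, ev⟩ := (Sy_split h.op hτ (fun r hr => l6_nonneg hr) hv').2
  obtain ⟨u₁, hu₁, u₂, hu₂, eu⟩ := (Sy_split h hτ (fun r hr => l6_nonneg hr) hu').1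
  rw [Sy_op] at hv₁
  obtain ⟨A₁, B₁, rfl⟩ := lev_all h hτ H (Sy.mono x τ (fun r hr => by
    have h2 : l6 (-r).1 = 0 := hr.2
    rw [neg_val, addl6.neg] at h2
    omega) hv₁)
  obtain ⟨A₂, B₂, rfl⟩ := lev_all h hτ H (Sy.mono x τ (fun r hr => hr.2) hu₁)
  obtain ⟨A, D, -, -, -, -, -, hzz⟩ := hz_lev h hτ H hz1
  refine ⟨v₂, hv₂, u₂, hu₂, A₁ * A * A₂, B₁ * D * B₂, ?_⟩
  rw [← ji_mid h H, ← hzz]
  calc v * yt x τ (-sn j) (c : K) * hz x τ z * yt x τ (sn j) (b : K) * u = (v * yt x τ (-sn j) (c : K)) * hz x τ z * (yt x τ (sn j) (b : K) * u) := by simp only [mul_assoc]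
    _ = _ := by
      rw [ev, eu]
      simp only [mul_assoc]
-- END ji

-- BEGIN jj
/-- MODULE jj. GAUSS. `reachY` with `combA`, `NY_lev`. -/
theorem gaussA [Finite K] (h : Stb K 6 x) (hτ : ∀ a, τ (τ a) = a) (H : L3 x F1 F2 F3) (hK : 4 ≤ Nat.card (Fx τ)) {g : G} (hg : g ∈ Hh x τ) (hc : ∃ u ∈ Hh x τ, u * g ≠ g * u) :
    ∃ c ∈ Hh x τ, ∃ v ∈ Uy (op x) τ l6 1, ∃ u ∈ Uy x τ l6 1, ∃ (A : Matrix.SpecialLinearGroup (Fin 2) (Fx τ)) (B : Matrix.SpecialLinearGroup (Fin 3) K),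
      (∀ t : K, B.1 ≠ t • (1 : Matrix (Fin 3) (Fin 3) K)) ∧ c * g * c⁻¹ = v * (gf τ F3 A * gg τ F1 F2 B) * u := by
  obtain ⟨c, hc', j, z, ⟨hj, hz1⟩, hN⟩ := reachY (P := fun j z => 2 ≤ (j : ℕ) ∧ z 1 = 1) h hτ hg hc (fun S h1 h2 i z hS => combA hK S h1 h2 i z hS)
  exact ⟨c, hc', NY_lev h hτ H hj hz1 hN⟩

/-- `reachY` with `combB`, `NY_lev'` -/
theorem gaussB (h : Stb K 6 x) (hτ : ∀ a, τ (τ a) = a) (H : L3 x F1 F2 F3) (h3 : ∀ a : K, a ∈ Fx τ → a = 0 ∨ a = 1 ∨ a = -1) (h4 : (-1 : K) ≠ 1) {g : G} (hg : g ∈ Hh x τ)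
    (hc : ∃ u ∈ Hh x τ, u * g ≠ g * u) : ∃ c ∈ Hh x τ, ∃ v ∈ Uy (op x) τ l6 1, ∃ u ∈ Uy x τ l6 1, ∃ (A : Matrix.SpecialLinearGroup (Fin 2) (Fx τ)) (B : Matrix.SpecialLinearGroup (Fin 3) K),
      c * g * c⁻¹ = v * (gf τ F3 A * gg τ F1 F2 B) * u := by
  obtain ⟨c, hc', j, z, hz1, hN⟩ := reachY (P := fun _ z => z 1 = 1) h hτ hg hc (fun S h1 h2 i z hS => combB h3 h4 hτ S h1 h2 i z hS)
  exact ⟨c, hc', NY_lev' h hτ H hz1 hN⟩
-- END jj

end Pool.Agent.ThF
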