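import Pool.Agent.ThF.Lvi
import Pool.Agent.ThK.LevG

/-! # The nodes, the torus and the unipotent subgroups of the twisted group

Nodes: `0 ↦ gm = (1; 1,1,1,0,0,0)`, `1 ↦ r3 = e_3 - e_2` (fixed by the graph automorphism, fields `K_0`), `2 ↦ e_2 - e_1`, `3 ↦ e_1 - e_0` (moved, field `K`).  `Pool.Agent.ThF.sr` is the graph automorphism; `ThK.sr` are the simple roots of `E_6`. -/

namespace Pool.Agent.ThF

open ThE ThK ThR

variable {K : Type*} [Field K] {G : Type*} [Group G] {x : Root 6 → K → G} {τ : K →+* K}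

def r2 : Root 6 := ⟨(0, ![0, -1, 1, 0, 0, 0]), by decide⟩
def r1 : Root 6 := ⟨(0, ![-1, 1, 0, 0, 0, 0]), by decide⟩

/-- the nodes -/
def sn : Fin 4 → Root 6 := ![gm, r3, r2, r1]

/-- the field of a node -/
def Sf (τ : K →+* K) (i : Fin 4) : Subfield K := if (i : ℕ) < 2 then Fx τ else ⊤

/-- the twisted reflection -/
def wf (r s : Root 6) : Root 6 := if sr r = r then rf r s else rf r (rf (sr r) s)

-- BEGIN ga
/-- MODULE ga. Explicit vectors, `decide`. `sn_simple`: `ThK.eq_sr` (`Or.inl rfl`): the six simple roots are `gm`, `e_1 - e_0`, .., `e_5 - e_4` (`ThK.sr_zero`, `ThK.sr_succ`), and `e_4 - e_3 = sr r2`, `e_5 - e_4 = sr r1`. -/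
theorem sn_ht (i : Fin 4) : ht (sn i).1 = 1 := by
  revert i
  decide

theorem sn_fix (i : Fin 4) : sr (sn i) = sn i ↔ (i : ℕ) < 2 := by
  revert i
  decide

private theorem ga_0 : ThK.sr (n := 6) (Or.inl rfl) ⟨0, by omega⟩ = sn 0 := by
  apply Subtype.ext
  rw [ThK.sr_zero (n := 6) (Or.inl rfl) rfl]
  decide

private theorem ga_1 : ThK.sr (n := 6) (Or.inl rfl) ⟨1, by omega⟩ = sn 3 := by
  rw [ThK.sr_succ (n := 6) (Or.inl rfl) (i := ⟨1, by omega⟩) (j := ⟨0, by omega⟩) rfl (by decide)]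
  apply Subtype.ext
  decide

private theorem ga_2 : ThK.sr (n := 6) (Or.inl rfl) ⟨2, by omega⟩ = sn 2 := by
  rw [ThK.sr_succ (n := 6) (Or.inl rfl) (i := ⟨2, by omega⟩) (j := ⟨1, by omega⟩) rfl (by decide)]
  apply Subtype.ext
  decide

private theorem ga_3 : ThK.sr (n := 6) (Or.inl rfl) ⟨3, by omega⟩ = sn 1 := by
  rw [ThK.sr_succ (n := 6) (Or.inl rfl) (i := ⟨3, by omega⟩) (j := ⟨2, by omega⟩) rfl (by decide)]
  apply Subtype.ext
  decide

private theorem ga_4 : ThK.sr (n := 6) (Or.inl rfl) ⟨4, by omega⟩ = sr (sn 2) := by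
  rw [ThK.sr_succ (n := 6) (Or.inl rfl) (i := ⟨4, by omega⟩) (j := ⟨3, by omega⟩) rfl (by decide)]
  apply Subtype.ext
  decide

private theorem ga_5 : ThK.sr (n := 6) (Or.inl rfl) ⟨5, by omega⟩ = sr (sn 3) := by
  rw [ThK.sr_succ (n := 6) (Or.inl rfl) (i := ⟨5, by omega⟩) (j := ⟨4, by omega⟩) rfl (by decide)]
  apply Subtype.ext
  decide

private theorem ga_fin (i : Fin 6) : i = ⟨0, by omega⟩ ∨ i = ⟨1, by omega⟩ ∨ i = ⟨2, by omega⟩ ∨ i = ⟨3, by omega⟩ ∨ i = ⟨4, by omega⟩ ∨ i = ⟨5, by omega⟩ := by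
  revert i
  decide

theorem sn_simple {r : Root 6} (h : ht r.1 = 1) : ∃ i, r = sn i ∨ r = sr (sn i) := by
  obtain ⟨i, hi⟩ := ThK.eq_sr (n := 6) (Or.inl rfl) h
  rcases ga_fin i with h1 | h1 | h1 | h1 | h1 | h1
  · exact ⟨0, Or.inl (by rw [hi, h1]; exact ga_0)⟩
  · exact ⟨3, Or.inl (by rw [hi, h1]; exact ga_1)⟩
  · exact ⟨2, Or.inl (by rw [hi, h1]; exact ga_2)⟩
  · exact ⟨1, Or.inl (by rw [hi, h1]; exact ga_3)⟩
  · exact ⟨2, Or.inr (by rw [hi, h1]; exact ga_4)⟩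
  · exact ⟨3, Or.inr (by rw [hi, h1]; exact ga_5)⟩

theorem bf_sn (i j : Fin 4) : bf (sn i).1 (sn j).1 = if i = j then 2 else if (i : ℕ) + 1 = j ∨ (j : ℕ) + 1 = i then -1 else 0 := by
  revert i j
  decide

theorem bf_sg_sn (i j : Fin 4) : bf (sg (sn i).1) (sn j).1 = if (i : ℕ) < 2 then (if i = j then 2 else if (i : ℕ) + 1 = j ∨ (j : ℕ) + 1 = i then -1 else 0) else
    if (i : ℕ) = 2 ∧ (j : ℕ) = 1 then -1 else 0 := by
  revert i j
  decide
-- END ga

-- BEGIN gb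
private theorem gb_val (r s : Root 6) {r' : Root 6} (h : bf r.1 r'.1 = 0) : (rf r (rf r' s)).1 = s.1 - sv (bf r'.1 s.1) r'.1 - sv (bf r.1 s.1) r.1 := by
  rw [rf_val, rf_val, bf_sub_right, bf_sv_right, h, mul_zero, sub_zero]

private theorem gb_comm (r s : Root 6) {r' : Root 6} (h : bf r.1 r'.1 = 0) : rf r (rf r' s) = rf r' (rf r s) := by
  apply Subtype.ext
  rw [gb_val r s h, gb_val r' s (by rw [bf_comm, h])]
  abel

private theorem gb_zero {r r' : Root 6} (h : bf r.1 r'.1 = 0) : rf r r' = r' := by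
  apply Subtype.ext
  rw [rf_val, h]
  refine Prod.ext ?_ (funext fun i => ?_)
  · show r'.1.1 - 0 * r.1.1 = r'.1.1
    ring
  · show r'.1.2 i - 0 * r.1.2 i = r'.1.2 i
    ring

private theorem gb_orth {r : Root 6} (h : ¬sr r = r) : bf r.1 (sr r).1 = 0 := (bf_self_sr r).resolve_left h

private theorem gb_sr (r s : Root 6) : rf (sr r) (sr s) = sr (rf r s) := by
  apply Subtype.ext
  rw [rf_val, bf_sr, sr_val, sr_val, sr_val, rf_val, sg_sub]
  congr 1
  refine Prod.ext rfl (funext fun i => ?_)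
  show bf r.1 s.1 * (r.1.1 - r.1.2 (Fin.rev i)) = bf r.1 s.1 * r.1.1 - bf r.1 s.1 * r.1.2 (Fin.rev i)
  ring

/-- MODULE gb. `rf` is an involution (`rf_rf`), `rf (sr r) (sr s) = sr (rf r s)` (the value of `rf r s` is `s - (r, s) r`, `bf_sr`), `rf r`, `rf (sr r)` commute if `bf r (sr r) = 0`. -/
theorem wf_wf (r s : Root 6) : wf r (wf r s) = s := by
  unfold wf
  split_ifs with h
  · exact rf_rf r s
  · rw [gb_comm r (rf r (rf (sr r) s)) (gb_orth h), rf_rf r, rf_rf]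

theorem wf_neg (r s : Root 6) : wf r (-s) = -wf r s := by
  unfold wf
  split_ifs with h
  · exact rf_neg r s
  · rw [rf_neg, rf_neg]

theorem wf_sr (r s : Root 6) : wf r (sr s) = sr (wf r s) := by
  unfold wf
  split_ifs with h
  · rw [← gb_sr, h]
  · rw [gb_comm r s (gb_orth h), gb_sr, ← gb_sr (sr r), sr_sr]

theorem wf_ht (i : Fin 4) (s : Root 6) : ht (wf (sn i) s).1 = ht s.1 - bf (sn i).1 s.1 - if (i : ℕ) < 2 then 0 else bf (sg (sn i).1) s.1 := by
  unfold wf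
  by_cases h : sr (sn i) = sn i
  · rw [if_pos h, if_pos ((sn_fix i).1 h), rf_val, ht_sub, ht_sv, sn_ht, mul_one, sub_zero]
  · rw [if_neg h, if_neg (fun h2 => h ((sn_fix i).2 h2)), gb_val _ _ (gb_orth h), ht_sub, ht_sub, ht_sv, ht_sv, ht_sr, sn_ht, mul_one, mul_one, sr_val]
    ring

private theorem gb_pos {a s : Root 6} (ha : ht a.1 = 1) (h : 0 < ht s.1) (h1 : s ≠ a) : 0 < ht (rf a s).1 := by
  have h2 := bf_le (by norm_num) a s
  have h3 : bf a.1 s.1 ≠ 2 := fun h4 => h1 (h2.2 h4)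
  have h4 := ht_ne6 (rf a s)
  rw [rf_val, ht_sub, ht_sv, ha, mul_one] at h4 ⊢
  have h5 := h2.1
  omega

/-- `bf a s ≤ 1` for `s ≠ a` (`bf_le`), heights are not `0` (`ht_ne6`); in the moved case: `s' = rf (sr a) s` is positive and different from `a` (`rf (sr a) a = a`), then `rf a s'` is positive; `wf a s = a` would give `s = wf a a = -a`, of negative height -/
theorem wf_pos (i : Fin 4) {s : Root 6} (h : 0 < ht s.1) (h1 : s ≠ sn i) (h2 : s ≠ sr (sn i)) : 0 < ht (wf (sn i) s).1 ∧ wf (sn i) s ≠ sn i ∧ wf (sn i) s ≠ sr (sn i) := by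
  have ha := sn_ht i
  generalize sn i = a at ha h1 h2
  have ha' : ht (sr a).1 = 1 := by rw [ht_sr, ha]
  have h3 : wf a a = -a := by
    unfold wf
    split_ifs with h4
    · exact rf_self a
    · rw [gb_zero (r := sr a) (r' := a) (by rw [bf_comm, gb_orth h4]), rf_self]
  have h4 : ht (-a : Root 6).1 = -1 := by rw [neg_val, ht_neg, ha]
  have h5 : ht (-sr a : Root 6).1 = -1 := by rw [neg_val, ht_neg, ha']
  refine ⟨?_, ?_, ?_⟩
  · unfold wf
    split_ifs with h6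
    · exact gb_pos ha h h1
    · refine gb_pos ha (gb_pos ha' h h2) fun h7 => h1 ?_
      rw [← rf_rf (sr a) s, h7, gb_zero (by rw [bf_comm, gb_orth h6])]
  · intro h6
    have h7 : s = -a := by rw [← wf_wf a s, h6, h3]
    rw [h7, h4] at h
    omega
  · intro h6
    have h7 : s = -sr a := by rw [← wf_wf a s, h6, wf_sr, h3, sr_neg]
    rw [h7, h5] at h
    omega
-- END gb

-- BEGIN gc
/-- MODULE gc. DESCENT. `w = r + sg r`, `bf w w = 4 + 2 bf r (sg r) > 0` (`bf_self_sr`).  `w = d a_0 + c_1 a_1 + .. + c_5 a_5` with `d = w.1`, `c_j = m_j + .. + m_5 - d max(0, 3 - j)`, (`a_0 = gm`, `a_j = e_j - e_(j-1)`), `c_j ≥ 0` because `r`, `sg r` are positive roots (or avoid this: positive roots of `E_6` are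
`e_i - e_j` with `i > j`, `(1; three ones)`, `(2; 1, .., 1)`, 36 cases, finite check by `decide` over `Fin 6 → Fin 2`).  `bf w w = d (a_0, w) + ∑ c_j (a_j, w)`, so some `(a_j, w) > 0`; `(a_j, w) = (a_j, r) + (sg a_j, r)`; `sg a_1 = a_5`, `sg a_2 = a_4`.
So for some node `i`: `bf (sn i) r > 0` (fixed) or `bf (sn i) r + bf (sg (sn i)) r > 0` (moved); `wf_ht`. -/
theorem exists_desc {r : Root 6} (h : 0 < ht r.1) : ∃ i, ht (wf (sn i) r).1 < ht r.1 := by
  by_contra hcon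
  push Not at hcon
  have hs := r.2.1
  have e0 := hcon 0
  have e1 := hcon 1
  have e2 := hcon 2
  have e3 := hcon 3
  rw [wf_ht] at e0 e1 e2 e3
  have b0 : bf (sn 0).1 r.1 = r.1.2 0 + r.1.2 1 + r.1.2 2 - r.1.1 := by
    simp [sn, gm, bf, Fin.sum_univ_succ]
    ring
  have b1 : bf (sn 1).1 r.1 = r.1.2 3 - r.1.2 2 := by
    simp [sn, r3, bf, Fin.sum_univ_succ]
    ring
  have b2 : bf (sn 2).1 r.1 = r.1.2 2 - r.1.2 1 := by
    simp [sn, r2, bf, Fin.sum_univ_succ]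
    ring
  have b2' : bf (sg (sn 2).1) r.1 = r.1.2 4 - r.1.2 3 := by
    simp [sn, r2, sg, bf, Fin.sum_univ_succ]
    ring
  have b3 : bf (sn 3).1 r.1 = r.1.2 1 - r.1.2 0 := by
    simp [sn, r1, bf, Fin.sum_univ_succ]
    ring
  have b3' : bf (sg (sn 3).1) r.1 = r.1.2 5 - r.1.2 4 := by
    simp [sn, r1, sg, bf, Fin.sum_univ_succ]
    ring
  rw [b0] at e0
  rw [b1] at e1
  rw [b2, b2'] at e2
  rw [b3, b3'] at e3
  simp only [Fin.isValue, Fin.coe_ofNat_eq_mod, Nat.zero_mod, Nat.one_mod, Nat.reduceMod, Nat.ofNat_pos, Nat.one_lt_ofNat, lt_self_iff_false, if_true, if_false,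
    (by norm_num : ¬ (3 : ℕ) < 2)] at e0 e1 e2 e3
  have hht : ht r.1 = r.1.2 0 + 2 * r.1.2 1 + 3 * r.1.2 2 + 4 * r.1.2 3 + 5 * r.1.2 4 + 6 * r.1.2 5 - 5 * r.1.1 := by
    simp [ht, Fin.sum_univ_succ]
    ring
  rw [Fin.sum_univ_six] at hs
  linarith
-- END gc

/-- the homomorphism `SL_2(S) → G` of the root `r` -/
structure IsY (x : Root 6 → K → G) (τ : K →+* K) (r : Root 6) (S : Subfield K) (t : ThG.SL2 S →* G) : Prop where
  up : ∀ a : S, t (ThG.up a) = yt x τ r (a : K)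
  lo : ∀ a : S, t (ThG.lo a) = yt x τ (-r) (-(a : K))
  dg : ∀ c : Sˣ, t (ThG.dg c) = hy x τ r ((c : S) : K)

-- BEGIN gd
private theorem gd_map_up {F L : Type*} [Field F] [Field L] (f : F →+* L) (a : F) : Matrix.SpecialLinearGroup.map f (ThG.up a) = ThG.up (f a) := by
  apply Subtype.ext
  ext i j
  fin_cases i <;> fin_cases j <;> simp [ThG.up]

private theorem gd_map_lo {F L : Type*} [Field F] [Field L] (f : F →+* L) (a : F) : Matrix.SpecialLinearGroup.map f (ThG.lo a) = ThG.lo (f a) := by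
  apply Subtype.ext
  ext i j
  fin_cases i <;> fin_cases j <;> simp [ThG.lo]

private theorem gd_map_dg {F L : Type*} [Field F] [Field L] (f : F →+* L) (c : Fˣ) :
    Matrix.SpecialLinearGroup.map f (ThG.dg c) = ThG.dg (Units.map (f : F →* L) c) := by
  apply Subtype.ext
  ext i j
  fin_cases i <;> fin_cases j <;> simp [ThG.dg]

private theorem gd_comm (h : Stb K 6 x) {r s : Root 6} (hb : bf r.1 s.1 = 0) {t1 t2 : ThG.SL2 K →* G} (h1 : IsTh x r t1) (h2 : IsTh x s t2)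
    (M N : ThG.SL2 K) : Commute (t1 M) (t2 N) := by
  have hg : ∀ X : ThG.SL2 K, X ∈ Subgroup.closure {g : ThG.SL2 K | ∃ a, g = ThG.up a ∨ g = ThG.lo a} := by
    intro X
    rw [ThG.sl2_gen]
    exact Subgroup.mem_top X
  have key : ∀ a, ∀ Y : ThG.SL2 K, Commute (t1 (ThG.up a)) (t2 Y) ∧ Commute (t1 (ThG.lo a)) (t2 Y) := by
    intro a Y
    refine Subgroup.closure_induction (p := fun Y _ => Commute (t1 (ThG.up a)) (t2 Y) ∧ Commute (t1 (ThG.lo a)) (t2 Y)) ?_ ?_ ?_ ?_ (hg Y)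
    · rintro g ⟨b, rfl | rfl⟩
      · rw [h1.up, h1.lo, h2.up]
        exact ⟨h.commute (by rw [hb]) _ _, h.commute (by rw [neg_val, bf_neg_left, hb]; norm_num) _ _⟩
      · rw [h1.up, h1.lo, h2.lo]
        exact ⟨h.commute (by rw [neg_val, bf_neg_right, hb]; norm_num) _ _,
          h.commute (by rw [neg_val, neg_val, bf_neg_left, bf_neg_right, hb]; norm_num) _ _⟩
    · rw [map_one]
      exact ⟨Commute.one_right _, Commute.one_right _⟩
    · rintro X Z _ _ ⟨hX, hX'⟩ ⟨hZ, hZ'⟩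
      rw [map_mul]
      exact ⟨hX.mul_right hZ, hX'.mul_right hZ'⟩
    · rintro X _ ⟨hX, hX'⟩
      rw [map_inv]
      exact ⟨hX.inv_right, hX'.inv_right⟩
  refine Subgroup.closure_induction (p := fun M _ => Commute (t1 M) (t2 N)) ?_ ?_ ?_ ?_ (hg M)
  · rintro g ⟨a, rfl | rfl⟩
    · exact (key a N).1
    · exact (key a N).2
  · rw [map_one]
    exact Commute.one_left _
  · intro X Z _ _ hX hZ
    rw [map_mul]
    exact hX.mul_left hZ
  · intro X _ hX
    rw [map_inv]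
    exact hX.inv_left

/-- MODULE gd. `ThK.exists_th` for `r` (and `sr r`).  `r` fixed: compose with `SpecialLinearGroup.map S.subtype`.  `r` moved: `t M = t1 M * t2 (ThG.cj η (map τ M))`, `η` the unit `et K r`; `t1`, `t2` commute elementwise (`ThG.sl2_gen`, closure induction; `Stb.commute`: `bf_self_sr`); `et_neg`; `ThG.cj_up`, `cj_lo`, `cj_dg`. -/
theorem exists_isY (h : Stb K 6 x) (r : Root 6) (S : Subfield K) (hS : sr r = r → ∀ a ∈ S, τ a = a) : ∃ t : ThG.SL2 S →* G, IsY x τ r S t := by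
  obtain ⟨t1, h1⟩ := ThK.exists_th (Or.inl rfl) h r
  by_cases hr : sr r = r
  · refine ⟨t1.comp (Matrix.SpecialLinearGroup.map S.subtype), ⟨?_, ?_, ?_⟩⟩
    · intro a
      rw [MonoidHom.comp_apply, gd_map_up, h1.up, yt_fix x τ hr]
      rfl
    · intro a
      have hr' : sr (-r) = -r := by rw [sr_neg, hr]
      rw [MonoidHom.comp_apply, gd_map_lo, h1.lo, yt_fix x τ hr']
      rfl
    · intro c
      rw [MonoidHom.comp_apply, gd_map_dg, h1.dg, hy, if_pos hr]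
      rfl
  · obtain ⟨t2, h2⟩ := ThK.exists_th (Or.inl rfl) h (sr r)
    have hb : bf r.1 (sr r).1 = 0 := (bf_self_sr r).resolve_left hr
    have hη : et K r.1 ≠ 0 := et_ne r.1
    have hη' : (((Units.mk0 (et K r.1) hη)⁻¹ : Kˣ) : K) = et K r.1 := by
      rw [Units.val_inv_eq_inv_val, Units.val_mk0]
      exact inv_eq_of_mul_eq_one_left (et_sq r.1)
    have hc := gd_comm h hb h1 h2
    refine ⟨{ toFun := fun M => t1 (Matrix.SpecialLinearGroup.map S.subtype M) *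
                t2 (ThG.cj (Units.mk0 (et K r.1) hη) (Matrix.SpecialLinearGroup.map (τ.comp S.subtype) M))
              map_one' := by rw [map_one, map_one, map_one, map_one, map_one, mul_one]
              map_mul' := fun M N => by
                rw [map_mul, map_mul, map_mul, map_mul, map_mul]
                exact (hc _ _).mul_mul_mul_comm _ _ }, ⟨?_, ?_, ?_⟩⟩
    · intro a
      change t1 (Matrix.SpecialLinearGroup.map S.subtype (ThG.up a)) *
        t2 (ThG.cj (Units.mk0 (et K r.1) hη) (Matrix.SpecialLinearGroup.map (τ.comp S.subtype) (ThG.up a))) = yt x τ r (a : K)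
      rw [gd_map_up, gd_map_up, ThG.cj_up, h1.up, h2.up, yt_mov x τ hr, Units.val_mk0]
      rfl
    · intro a
      change t1 (Matrix.SpecialLinearGroup.map S.subtype (ThG.lo a)) *
        t2 (ThG.cj (Units.mk0 (et K r.1) hη) (Matrix.SpecialLinearGroup.map (τ.comp S.subtype) (ThG.lo a))) = yt x τ (-r) (-(a : K))
      have hr' : sr (-r) ≠ -r := by
        rw [sr_neg]
        intro e
        have e2 := congrArg (fun s : Root 6 => -s) e
        simp only [neg_neg'] at e2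
        exact hr e2
      rw [gd_map_lo, gd_map_lo, ThG.cj_lo, h1.lo, h2.lo, yt_mov x τ hr', hη', sr_neg, neg_val, et_neg, map_neg, mul_neg]
      rfl
    · intro c
      change t1 (Matrix.SpecialLinearGroup.map S.subtype (ThG.dg c)) *
        t2 (ThG.cj (Units.mk0 (et K r.1) hη) (Matrix.SpecialLinearGroup.map (τ.comp S.subtype) (ThG.dg c))) = hy x τ r ((c : S) : K)
      rw [gd_map_dg, gd_map_dg, ThG.cj_dg, h1.dg, h2.dg, hy, if_neg hr]
      rfl
-- END gd

/-- the representative of the reflection of a simple root -/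
def ny (x : Root 6 → K → G) (r : Root 6) : G := if sr r = r then ThK.nn x r 1 else ThK.nn x r 1 * ThK.nn x (sr r) 1

-- BEGIN ge
private theorem ge_conj_mul (n a b : G) : n * (a * b) * n⁻¹ = (n * a * n⁻¹) * (n * b * n⁻¹) := by group

private theorem ge_conj2 (n m g : G) : n * m * g * (n * m)⁻¹ = n * (m * g * m⁻¹) * n⁻¹ := by group

private theorem ge_rf_sr (β s : Root 6) : rf (sr β) (sr s) = sr (rf β s) := by
  apply Subtype.ext
  rw [rf_val, bf_sr, sr_val, sr_val, sr_val, rf_val, sg_sub]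
  have h3 : sg (sv (bf β.1 s.1) β.1) = sv (bf β.1 s.1) (sg β.1) := by
    apply Prod.ext
    · rfl
    · funext k
      simp only [sg, sv]
      ring
  rw [h3]

private theorem ge_zpow {e : K} (he : e * e = 1) (k : ℤ) : e ^ k * e ^ k = 1 := by
  rw [← mul_zpow, he, one_zpow]

private theorem ge_c (h : Stb K 6 x) (β s : Root 6) (b : K) :
    ThK.nn x β 1 * x s b * (ThK.nn x β 1)⁻¹ = x (rf β s) (eps K β.1 s.1 ^ bf β.1 s.1 * b) := by
  rw [nn_conj (Or.inl rfl) h β s one_ne_zero b, one_zpow, mul_one]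
  rfl

/-- the sign lemma for a root `β` with `η_β = 1` -/
private theorem ge_sign {β : Root 6} (hβ : et K β.1 = 1) (s : Root 6) :
    eps K (sg β.1) (sg s.1) ^ bf β.1 s.1 * et K s.1 = et K (rf β s).1 * eps K β.1 s.1 ^ bf β.1 s.1 := by
  have hge := bf_ge (by norm_num) β s
  have hle := bf_le (by norm_num) β s
  have hself : eps K β.1 β.1 = -1 := eps_self β.2
  have hself' : eps K (sg β.1) (sg β.1) = -1 := eps_self (sr β).2
  have hinv : ∀ v w : Vec 6, eps K v w ^ (-1 : ℤ) = eps K v w := by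
    intro v w
    rw [zpow_neg_one]
    exact inv_eq_of_mul_eq_one_left (eps_mul_self v w)
  by_cases hne1 : s = β
  · subst hne1
    have h1 : bf s.1 s.1 = 2 := bf_root s
    have h2 : (rf s s).1 = -s.1 := by
      rw [rf_val, h1]
      apply Prod.ext
      · simp [sv]
        ring
      · funext k
        simp [sv]
        ring
    rw [h1, hself, hself', h2, et_neg]
    ring
  by_cases hne2 : s = -β
  · subst hne2
    have h1 : bf β.1 (-β).1 = -2 := by rw [neg_val, bf_neg_right, bf_root]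
    have h2 : (rf β (-β)).1 = β.1 := by
      rw [rf_val, h1, neg_val]
      apply Prod.ext
      · simp [sv]
        ring
      · funext k
        simp [sv]
        ring
    rw [h1, h2, neg_val, sg_neg, eps_neg_right, eps_neg_right, hself, hself', et_neg, mul_comm]
  have hc : bf β.1 s.1 = 0 ∨ bf β.1 s.1 = -1 ∨ bf β.1 s.1 = 1 := by
    have h3 : bf β.1 s.1 ≠ -2 := fun h => hne2 (hge.2 h)
    have h4 : bf β.1 s.1 ≠ 2 := fun h => hne1 (hle.2 h)
    have h5 := hge.1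
    have h6 := hle.1
    omega
  rcases hc with hc | hc | hc
  · have hr : (rf β s).1 = s.1 := by
      rw [rf_val, hc]
      apply Prod.ext
      · simp [sv]
      · funext k
        simp [sv]
    rw [hc, zpow_zero, zpow_zero, hr, one_mul, mul_one]
  · obtain ⟨t, ht⟩ := root_add hc
    have hr : (rf β s).1 = t.1 := by
      rw [rf_val, hc, ht]
      apply Prod.ext
      · simp [sv]
        ring
      · funext k
        simp [sv]
        ring
    have hA := et_add (K := K) ht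
    rw [hβ, one_mul] at hA
    rw [hc, hinv, hinv, hr, hA]
    ring
  · obtain ⟨t, ht⟩ := root_sub hc
    have hr : (rf β s).1 = t.1 := by
      rw [rf_val, hc, ht]
      apply Prod.ext
      · simp [sv]
      · funext k
        simp [sv]
    have ht' : s.1 = β.1 + t.1 := by rw [ht]; abel
    have hA := et_add (K := K) ht'
    rw [hβ, one_mul] at hA
    have e1 : eps K β.1 s.1 = -eps K β.1 t.1 := by
      rw [ht', eps_add_right, hself]
      ring
    have e2 : eps K (sg β.1) (sg s.1) = -eps K (sg β.1) (sg t.1) := by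
      rw [ht', sg_add, eps_add_right, hself']
      ring
    have s1 := eps_mul_self (K := K) β.1 t.1
    have s2 := eps_mul_self (K := K) (sg β.1) (sg t.1)
    rw [hc, zpow_one, zpow_one, hr, e1, e2]
    have hB : et K s.1 = et K t.1 * eps K (sg β.1) (sg t.1) * eps K β.1 t.1 := by
      rw [← hA]
      linear_combination -(et K s.1) * s1
    rw [hB]
    linear_combination -(et K t.1 * eps K β.1 t.1) * s2

private theorem ge_fix (i : Fin 4) (s : Root 6) : sr (wf (sn i) s) = wf (sn i) s ↔ sr s = s := by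
  rw [← wf_sr]
  constructor
  · intro h1
    rw [← wf_wf (sn i) (sr s), h1, wf_wf]
  · intro h1
    rw [h1]

/-- MODULE ge. One factor: for ANY root `β` and any `s`: `nn x β 1 * x s b * (nn x β 1)⁻¹ = x (rf β s) (eps β s ^ bf β s * b)` (`nn_conj`).  For a simple fixed root: as in row `lf`.  For a moved simple root `a` (`et K a = 1`, `et_one`): the signs of `nn x a 1 * nn x (sr a) 1` at `s` and at `sg s` are
`e = ε(a', s)^(..) ε(a, s')^(..)` and the same with `a`, `a'` exchanged; they differ by `η_s η_(wf a s)` (checked by computer for all roots): use `et_add` for each step `s → s ± a'`, `→ ± a` (`et K (s + a) eps a s = et a et s eps (sg a) (sg s)`). -/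
theorem ny_conj (h : Stb K 6 x) (i : Fin 4) (s : Root 6) : ∃ c : K, c * c = 1 ∧ τ c = c ∧ ∀ b, ny x (sn i) * yt x τ s b * (ny x (sn i))⁻¹ = yt x τ (wf (sn i) s) (c * b) := by
  have hτe : ∀ v w : Vec 6, τ (eps K v w) = eps K v w := by
    intro v w
    simp only [eps, ep, Units.val_zpow_eq_zpow_val, Units.val_neg, Units.val_one, map_zpow₀, map_neg, map_one]
  have het : et K (sn i).1 = 1 := et_one (sn_ht i)
  by_cases hf : sr (sn i) = sn i
  · have hn : ny x (sn i) = ThK.nn x (sn i) 1 := if_pos hf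
    have hw : ∀ s, wf (sn i) s = rf (sn i) s := fun s => if_pos hf
    refine ⟨eps K (sn i).1 s.1 ^ bf (sn i).1 s.1, ge_zpow (eps_mul_self _ _) _, ?_, fun b => ?_⟩
    · rw [map_zpow₀, hτe]
    · by_cases hs : sr s = s
      · rw [yt_fix x τ hs, yt_fix x τ ((ge_fix i s).2 hs), hn, hw, ge_c h]
      · have h1 : bf (sn i).1 (sr s).1 = bf (sn i).1 s.1 := by rw [← bf_sr (sn i) s, hf]
        have h2 : sg (sn i).1 = (sn i).1 := by rw [← sr_val, hf]
        have h3 : rf (sn i) (sr s) = sr (rf (sn i) s) := by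
          have := ge_rf_sr (sn i) s
          rwa [hf] at this
        have h4 := ge_sign (K := K) het s
        rw [h2] at h4
        rw [yt_mov x τ hs, yt_mov x τ (fun hh => hs ((ge_fix i s).1 hh)), hn, hw, ge_conj_mul, ge_c h, ge_c h, h3, h1, map_mul, map_zpow₀, hτe]
        congr 2
        rw [sr_val]
        linear_combination τ b * h4
  · have hn : ny x (sn i) = ThK.nn x (sn i) 1 * ThK.nn x (sr (sn i)) 1 := if_neg hf
    have hw : ∀ s, wf (sn i) s = rf (sn i) (rf (sr (sn i)) s) := fun s => if_neg hf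
    have h0 : bf (sn i).1 (sr (sn i)).1 = 0 := (bf_self_sr (sn i)).resolve_left hf
    have het' : et K (sr (sn i)).1 = 1 := by rw [et_sr, het]
    have hcomm : ThK.nn x (sn i) 1 * ThK.nn x (sr (sn i)) 1 = ThK.nn x (sr (sn i)) 1 * ThK.nn x (sn i) 1 := by
      have hz : ∀ b, ThK.nn x (sn i) 1 * x (sr (sn i)) b = x (sr (sn i)) b * ThK.nn x (sn i) 1 := fun b =>
        mul_inv_eq_iff_eq_mul.1 (nn_conj_zero (by norm_num) h h0 1 b)
      have hz' : ∀ b, ThK.nn x (sn i) 1 * x (-sr (sn i)) b = x (-sr (sn i)) b * ThK.nn x (sn i) 1 := fun b =>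
        mul_inv_eq_iff_eq_mul.1 (nn_conj_zero (by norm_num) h (by rw [neg_val, bf_neg_right, h0, neg_zero]) 1 b)
      have e : ∀ b, ThK.nn x (sr (sn i)) b = x (sr (sn i)) b * x (-sr (sn i)) b⁻¹ * x (sr (sn i)) b := fun b => rfl
      rw [e, ← mul_assoc, ← mul_assoc, hz, mul_assoc (x (sr (sn i)) 1), hz', ← mul_assoc, mul_assoc _ _ (x (sr (sn i)) 1), hz, ← mul_assoc]
    refine ⟨eps K (sn i).1 (rf (sr (sn i)) s).1 ^ bf (sn i).1 (rf (sr (sn i)) s).1 * eps K (sr (sn i)).1 s.1 ^ bf (sr (sn i)).1 s.1, ?_, ?_, fun b => ?_⟩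
    · rw [mul_mul_mul_comm, ge_zpow (eps_mul_self _ _), ge_zpow (eps_mul_self _ _), one_mul]
    · rw [map_mul, map_zpow₀, map_zpow₀, hτe, hτe]
    · by_cases hs : sr s = s
      · rw [yt_fix x τ hs, yt_fix x τ ((ge_fix i s).2 hs), hn, hw, ge_conj2, ge_c h, ge_c h, mul_assoc]
      · have h3 : rf (sn i) (sr s) = sr (rf (sr (sn i)) s) := by
          have := ge_rf_sr (sr (sn i)) s
          rwa [sr_sr] at this
        have h4 : rf (sr (sn i)) (sr (rf (sr (sn i)) s)) = sr (rf (sn i) (rf (sr (sn i)) s)) := ge_rf_sr (sn i) _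
        have h5 : bf (sn i).1 (sr s).1 = bf (sr (sn i)).1 s.1 := (bf_sr_left (sn i) s).symm
        have h6 : bf (sr (sn i)).1 (sr (rf (sr (sn i)) s)).1 = bf (sn i).1 (rf (sr (sn i)) s).1 := bf_sr _ _
        have q1 := ge_sign (K := K) het' s
        have q2 := ge_sign (K := K) het (rf (sr (sn i)) s)
        rw [sr_val (sn i), sg_sg] at q1
        rw [yt_mov x τ hs, yt_mov x τ (fun hh => hs ((ge_fix i s).1 hh)), hn, hw, ge_conj_mul]
        have k1 : ThK.nn x (sn i) 1 * ThK.nn x (sr (sn i)) 1 * x s b * (ThK.nn x (sn i) 1 * ThK.nn x (sr (sn i)) 1)⁻¹ =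
            x (rf (sn i) (rf (sr (sn i)) s)) (eps K (sn i).1 (rf (sr (sn i)) s).1 ^ bf (sn i).1 (rf (sr (sn i)) s).1 * eps K (sr (sn i)).1 s.1 ^ bf (sr (sn i)).1 s.1 * b) := by
          rw [ge_conj2, ge_c h, ge_c h, mul_assoc]
        have k2 : ThK.nn x (sn i) 1 * ThK.nn x (sr (sn i)) 1 * x (sr s) (et K s.1 * τ b) * (ThK.nn x (sn i) 1 * ThK.nn x (sr (sn i)) 1)⁻¹ =
            x (sr (rf (sn i) (rf (sr (sn i)) s))) (et K (rf (sn i) (rf (sr (sn i)) s)).1 *
              τ (eps K (sn i).1 (rf (sr (sn i)) s).1 ^ bf (sn i).1 (rf (sr (sn i)) s).1 * eps K (sr (sn i)).1 s.1 ^ bf (sr (sn i)).1 s.1 * b)) := by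
          rw [hcomm, ge_conj2, ge_c h, h3, ge_c h, h4, h5, h6]
          congr 1
          rw [map_mul, map_mul, map_zpow₀, map_zpow₀, hτe, hτe]
          rw [sr_val (sn i), sr_val s, sr_val (rf (sr (sn i)) s)]
          linear_combination τ b * (eps K (sg (sn i).1) (sg (rf (sr (sn i)) s).1) ^ bf (sn i).1 (rf (sr (sn i)) s).1) * q1 +
            τ b * (eps K (sg (sn i).1) s.1 ^ bf (sg (sn i).1) s.1) * q2
        rw [k1, k2]
-- END ge

-- BEGIN gf
/-- MODULE gf. `ny x a = y_a(1) y_(-a)(1) y_a(1)` (moved: `et_one`, `et_neg`, the factors `x_(±a)`, `x_(±sg a)` commute). -/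
theorem ny_eq (h : Stb K 6 x) (i : Fin 4) : ny x (sn i) = yt x τ (sn i) 1 * yt x τ (-sn i) 1 * yt x τ (sn i) 1 := by
  have ha := sn_ht i
  generalize sn i = a at ha
  by_cases h1 : sr a = a
  · have h2 : sr (-a) = -a := by rw [sr_neg, h1]
    rw [ny, if_pos h1, yt_fix x τ h1, yt_fix x τ h2, ThK.nn, inv_one]
  · have h2 : sr (-a) ≠ -a := by
      rw [sr_neg]
      intro h3
      apply h1
      rw [← neg_neg' (sr a), h3, neg_neg']
    have h3 : bf a.1 (sr a).1 = 0 := (bf_self_sr a).resolve_left h1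
    rw [ny, if_neg h1, yt_mov x τ h1, yt_mov x τ h2, ThK.nn, ThK.nn, inv_one, sr_neg, neg_val, et_neg, et_one ha, map_one, mul_one]
    have c1 : x a 1 * x (sr a) 1 = x (sr a) 1 * x a 1 := h.commute (by rw [h3]) 1 1
    have c2 : x (-a) 1 * x (sr a) 1 = x (sr a) 1 * x (-a) 1 := h.commute (by rw [neg_val, bf_neg_left, h3, neg_zero]) 1 1
    have c3 : x a 1 * x (-sr a) 1 = x (-sr a) 1 * x a 1 := h.commute (by rw [neg_val, bf_neg_right, h3, neg_zero]) 1 1
    calc x a 1 * x (-a) 1 * x a 1 * (x (sr a) 1 * x (-sr a) 1 * x (sr a) 1)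
        = x a 1 * x (-a) 1 * (x a 1 * x (sr a) 1) * x (-sr a) 1 * x (sr a) 1 := by group
      _ = x a 1 * (x (-a) 1 * x (sr a) 1) * (x a 1 * x (-sr a) 1) * x (sr a) 1 := by rw [c1]; group
      _ = x a 1 * x (sr a) 1 * (x (-a) 1 * x (-sr a) 1) * (x a 1 * x (sr a) 1) := by rw [c2, c3]; group

private theorem gf_ok {r : Root 6} {a : K} (h : Ok τ r a) : Ok τ (-r) a := by
  intro h1
  apply h
  rw [sr_neg] at h1
  rw [← neg_neg' (sr r), h1, neg_neg']

/-- GENERATION.  Let `S` be the closure.  For positive `r`, induction on the height: height 1: `sn_simple` (`yt x τ (sr a) b = yt x τ a (η τ b)`, `yt_sr`); otherwise `exists_desc`: `r' = wf a r` is positive (`wf_pos`), `r = wf a r'`, `y_r(b) = n_a y_(r')(c b) n_a⁻¹` (`ny_conj`, `c c = 1`), `n_a ∈ S` (`ny_eq`).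
Negative roots the same (`wf_neg`); `ht_ne6`. -/
theorem gen_Sy (h : Stb K 6 x) (hτ : ∀ a, τ (τ a) = a) : (Sy x τ fun _ => True) = Subgroup.closure {g : G | ∃ (i : Fin 4) (a : K), Ok τ (sn i) a ∧ (g = yt x τ (sn i) a ∨ g = yt x τ (-sn i) a)} := by
  set S : Subgroup G := Subgroup.closure {g : G | ∃ (i : Fin 4) (a : K), Ok τ (sn i) a ∧ (g = yt x τ (sn i) a ∨ g = yt x τ (-sn i) a)} with hS
  have p1 : ∀ i a, Ok τ (sn i) a → yt x τ (sn i) a ∈ S := fun i a ha => Subgroup.subset_closure ⟨i, a, ha, Or.inl rfl⟩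
  have p2 : ∀ i a, Ok τ (sn i) a → yt x τ (-sn i) a ∈ S := fun i a ha => Subgroup.subset_closure ⟨i, a, ha, Or.inr rfl⟩
  have hn : ∀ i, ny x (sn i) ∈ S := by
    intro i
    rw [ny_eq (τ := τ) h i]
    exact S.mul_mem (S.mul_mem (p1 i 1 fun _ => map_one τ) (p2 i 1 fun _ => map_one τ)) (p1 i 1 fun _ => map_one τ)
  have key : ∀ N : ℕ, ∀ r : Root 6, 0 < ht r.1 → ht r.1 ≤ N → ∀ b, Ok τ r b → yt x τ r b ∈ S ∧ yt x τ (-r) b ∈ S := by
    intro N
    induction N with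
    | zero =>
      intro r h1 h2
      exfalso
      push_cast at h2
      omega
    | succ N ih =>
      intro r h1 h2 b hb
      by_cases h3 : ∃ i, r = sn i
      · obtain ⟨i, rfl⟩ := h3
        exact ⟨p1 i b hb, p2 i b hb⟩
      · by_cases h4 : ∃ i, r = sr (sn i)
        · obtain ⟨i, rfl⟩ := h4
          have h5 : sr (sn i) ≠ sn i := fun h6 => h3 ⟨i, h6⟩
          have h6 : sr (-sn i) ≠ -sn i := by
            rw [sr_neg]
            intro h7
            apply h5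
            rw [← neg_neg' (sr (sn i)), h7, neg_neg']
          have h7 := yt_sr h hτ h5 (τ b)
          rw [hτ, et_one (sn_ht i), one_mul] at h7
          have h8 := yt_sr h hτ h6 (τ b)
          rw [hτ, neg_val, et_neg, et_one (sn_ht i), one_mul, sr_neg] at h8
          rw [h7, h8]
          exact ⟨p1 i _ (Ok.of_ne h5 _), p2 i _ (Ok.of_ne h5 _)⟩
        · obtain ⟨i, hi⟩ := exists_desc h1
          have h5 := wf_pos i h1 (fun h6 => h3 ⟨i, h6⟩) (fun h6 => h4 ⟨i, h6⟩)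
          have h6 : ht (wf (sn i) r).1 ≤ N := by
            push_cast at h2
            omega
          have h7 : sr (wf (sn i) r) = wf (sn i) r → sr r = r := by
            intro h8
            rw [← wf_sr] at h8
            rw [← wf_wf (sn i) (sr r), h8, wf_wf]
          have h9 : ∀ c, c * c = 1 → τ c = c → Ok τ (wf (sn i) r) (c * b) := by
            intro c _ hc h8
            rw [map_mul, hc, hb (h7 h8)]
          constructor
          · obtain ⟨c, hc1, hc2, hc3⟩ := ny_conj (τ := τ) h i (wf (sn i) r)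
            have h10 := hc3 (c * b)
            rw [wf_wf, ← mul_assoc, hc1, one_mul] at h10
            rw [← h10]
            exact S.mul_mem (S.mul_mem (hn i) (ih _ h5.1 h6 _ (h9 c hc1 hc2)).1) (S.inv_mem (hn i))
          · obtain ⟨c, hc1, hc2, hc3⟩ := ny_conj (τ := τ) h i (-wf (sn i) r)
            have h10 := hc3 (c * b)
            rw [wf_neg, wf_wf, ← mul_assoc, hc1, one_mul] at h10
            rw [← h10]
            exact S.mul_mem (S.mul_mem (hn i) (ih _ h5.1 h6 _ (h9 c hc1 hc2)).2) (S.inv_mem (hn i))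
  apply le_antisymm
  · unfold Sy
    rw [Subgroup.closure_le]
    rintro g ⟨r, a, -, ha, rfl⟩
    show yt x τ r a ∈ S
    rcases lt_or_gt_of_ne (ht_ne6 r) with h1 | h1
    · have h2 : 0 < ht (-r : Root 6).1 := by
        rw [neg_val, ht_neg]
        omega
      have h3 := (key (ht (-r : Root 6).1).toNat (-r) h2 (by rw [Int.toNat_of_nonneg h2.le]) a (gf_ok ha)).2
      rwa [neg_neg'] at h3
    · exact (key (ht r.1).toNat r h1 (by rw [Int.toNat_of_nonneg h1.le]) a ha).1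
  · rw [hS, Subgroup.closure_le]
    rintro g ⟨i, a, ha, rfl | rfl⟩
    · exact Sy.mem trivial ha
    · exact Sy.mem trivial (gf_ok ha)
-- END gf

/-- positive roots without the node `i` -/
def Pi' (i : Fin 4) (r : Root 6) : Prop := 0 < ht r.1 ∧ r ≠ sn i ∧ r ≠ sr (sn i)

-- BEGIN gg
private theorem gg_ht1 (i : Fin 4) : ht (sr (sn i)).1 = 1 := by rw [ht_sr, sn_ht]

private theorem gg_hne {r : Root 6} {i : Fin 4} (h : ht r.1 ≠ 1) : r ≠ sn i ∧ r ≠ sr (sn i) := by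
  constructor
  · rintro rfl
    exact h (sn_ht i)
  · rintro rfl
    exact h (gg_ht1 i)

private theorem gg_srp {i : Fin 4} {s : Root 6} (h : Pi' i s) : Pi' i (sr s) := by
  refine ⟨by rw [ht_sr]; exact h.1, fun h1 => h.2.2 ?_, fun h1 => h.2.1 ?_⟩
  · rw [← h1, sr_sr]
  · rw [← sr_sr s, h1, sr_sr]

private theorem gg_padd {i : Fin 4} {s t u : Root 6} (hs : Pi' i s) (ht' : Pi' i t) (h : u.1 = s.1 + t.1) : Pi' i u := by
  have h1 : ht u.1 = ht s.1 + ht t.1 := by rw [h, ht_add]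
  have h2 := hs.1
  have h3 := ht'.1
  exact ⟨by omega, gg_hne (by omega)⟩

private theorem gg_pup {i : Fin 4} {s t : Root 6} (hs : Pi' i s) (h : t.1 = (sn i).1 + s.1 ∨ t.1 = (sr (sn i)).1 + s.1) : Pi' i t := by
  have h1 : ht t.1 = 1 + ht s.1 := by
    rcases h with h | h
    · rw [h, ht_add, sn_ht]
    · rw [h, ht_add, gg_ht1]
  have h2 := hs.1
  exact ⟨by omega, gg_hne (by omega)⟩

private theorem gg_pno {a b s : Root 6} (h1 : b = a ∨ b = sr a) (h : s.1 = a.1 + b.1) : False := by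
  have h2 := bf_of_add h
  rcases h1 with h1 | h1
  · rw [h1, bf_root] at h2
    omega
  · rw [h1] at h2
    rcases bf_self_sr a with h3 | h3
    · rw [h3, bf_root] at h2
      omega
    · omega

private theorem gg_plo {i : Fin 4} {s t : Root 6} (hs : Pi' i s) (h : t.1 = (-sn i).1 + s.1 ∨ t.1 = (sr (-sn i)).1 + s.1) : Pi' i t := by
  have h1 : ht t.1 = ht s.1 - 1 := by
    rcases h with h | h
    · rw [h, ht_add, neg_val, ht_neg, sn_ht]
      ring
    · rw [h, ht_add, ht_sr, neg_val, ht_neg, sn_ht]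
      ring
  have h2 := hs.1
  have h3 := ht_ne6 t
  have h4 : s.1 = (sn i).1 + t.1 ∨ s.1 = (sr (sn i)).1 + t.1 := by
    rcases h with h | h
    · left
      rw [h, neg_val]
      abel
    · right
      rw [h, sr_neg, neg_val]
      abel
  refine ⟨by omega, fun h5 => ?_, fun h5 => ?_⟩
  · rcases h4 with h4 | h4
    · exact gg_pno (Or.inl h5) h4
    · exact gg_pno (Or.inr (by rw [h5, sr_sr])) h4
  · rcases h4 with h4 | h4
    · exact gg_pno (Or.inr h5) h4
    · exact gg_pno (Or.inl h5) h4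

/-- MODULE gg. `Sy.conj` with `p = Pi' i`: it is stable under `sr`; sums of two positive roots have height `≥ 2`; `-sn i`, `-sr (sn i)` are not positive; `s ± a`, `s ± sr a` (if roots) are positive, not `a`, `sr a` (`a + a`, `a + sr a` are not roots: `bf a a = 2`, `bf a (sr a) = 0`: `isR_add_iff`). -/
theorem Pi_up (h : Stb K 6 x) (hτ : ∀ a, τ (τ a) = a) (i : Fin 4) {a : K} (ha : Ok τ (sn i) a) {u : G} (hu : u ∈ Sy x τ (Pi' i)) :
    yt x τ (sn i) a * u * (yt x τ (sn i) a)⁻¹ ∈ Sy x τ (Pi' i) := by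
  refine Sy.conj h hτ (fun s hs => gg_srp hs) (fun s t u hs ht' h1 => gg_padd hs ht' h1) (fun s hs => ⟨fun h1 => ?_, fun h1 => ?_⟩)
    (fun s t hs h1 => gg_pup hs h1) ha hu
  · have h2 := hs.1
    rw [h1, neg_val, ht_neg, sn_ht] at h2
    omega
  · have h2 := hs.1
    rw [h1, neg_val, ht_neg, gg_ht1] at h2
    omega

theorem Pi_lo (h : Stb K 6 x) (hτ : ∀ a, τ (τ a) = a) (i : Fin 4) {a : K} (ha : Ok τ (sn i) a) {u : G} (hu : u ∈ Sy x τ (Pi' i)) :
    yt x τ (-sn i) a * u * (yt x τ (-sn i) a)⁻¹ ∈ Sy x τ (Pi' i) := by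
  have ha' : Ok τ (-sn i) a := by
    intro h1
    apply ha
    rw [sr_neg] at h1
    rw [← neg_neg' (sr (sn i)), h1, neg_neg']
  refine Sy.conj h hτ (fun s hs => gg_srp hs) (fun s t u hs ht' h1 => gg_padd hs ht' h1) (fun s hs => ⟨fun h1 => ?_, fun h1 => ?_⟩)
    (fun s t hs h1 => gg_plo hs h1) ha' hu
  · rw [neg_neg'] at h1
    exact hs.2.1 h1
  · rw [sr_neg, neg_neg'] at h1
    exact hs.2.2 h1

/-- as `ThK.Up_split` -/
theorem Pi_split (h : Stb K 6 x) (hτ : ∀ a, τ (τ a) = a) (i : Fin 4) {u : G} (hu : u ∈ Sy x τ fun r => 0 < ht r.1) :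
    ∃ a, Ok τ (sn i) a ∧ ∃ u' ∈ Sy x τ (Pi' i), u = yt x τ (sn i) a * u' := by
  unfold Sy at hu
  induction hu using Subgroup.closure_induction with
  | mem g hg =>
    obtain ⟨r, a, hr, ha, rfl⟩ := hg
    by_cases h1 : r = sn i
    · subst h1
      exact ⟨a, ha, 1, Subgroup.one_mem _, (mul_one _).symm⟩
    · by_cases h2 : r = sr (sn i)
      · have h3 : sr (sn i) ≠ sn i := fun h4 => h1 (h2.trans h4)
        have h5 : sr r = sn i := by rw [h2, sr_sr]
        have h6 := yt_sr h hτ (r := r) (by rw [h5]; exact fun h7 => h1 h7.symm) a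
        rw [h5] at h6
        exact ⟨_, Ok.of_ne h3 _, 1, Subgroup.one_mem _, by rw [mul_one, h6]⟩
      · refine ⟨0, fun _ => map_zero τ, _, Sy.mem (p := Pi' i) ⟨hr, h1, h2⟩ ha, ?_⟩
        rw [yt_zero h, one_mul]
  | one => exact ⟨0, fun _ => map_zero τ, 1, Subgroup.one_mem _, by rw [yt_zero h, mul_one]⟩
  | mul g g' _ _ ih ih' =>
    obtain ⟨a, ha, u, hu, rfl⟩ := ih
    obtain ⟨b, hb, u', hu', rfl⟩ := ih'
    refine ⟨a + b, ha.add hb, _, Subgroup.mul_mem _ (Pi_up h hτ i hb.neg hu) hu', ?_⟩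
    rw [yt_add h, ← yt_inv h τ (sn i) b]
    group
  | inv g _ ih =>
    obtain ⟨a, ha, u, hu, rfl⟩ := ih
    refine ⟨-a, ha.neg, _, Pi_up h hτ i ha (Subgroup.inv_mem _ hu), ?_⟩
    rw [← yt_inv h τ (sn i) a]
    group
-- END gg

/-- the representative of the orbit -/
def rr (r : Root 6) : Root 6 := if rp r.1 then r else sr r

-- BEGIN gh
/-- MODULE gh. `rp_or`, `rp_and`. -/
theorem rr_rp (r : Root 6) : rp (rr r).1 := by
  unfold rr
  split_ifs with h
  · exact h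
  · exact (rp_or r.1).resolve_left h

theorem rr_or (r : Root 6) : rr r = r ∨ rr r = sr r := by
  unfold rr
  split_ifs with h
  · exact Or.inl rfl
  · exact Or.inr rfl

theorem rr_eq {r s : Root 6} (hr : rp r.1) (hs : rp s.1) (h : r = s ∨ r = sr s) : r = s := by
  rcases h with h | h
  · exact h
  · subst h
    exact Subtype.ext (rp_and s.2 hs hr)

theorem rr_iff (r s : Root 6) : rr r = rr s ↔ r = s ∨ r = sr s := by
  constructor
  · intro h
    rcases rr_or r with h1 | h1 <;> rcases rr_or s with h2 | h2 <;> rw [h1, h2] at h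
    · exact Or.inl h
    · exact Or.inr h
    · right
      rw [← h, sr_sr]
    · left
      rw [← sr_sr r, h, sr_sr]
  · intro h
    apply rr_eq (rr_rp r) (rr_rp s)
    rcases h with h | h
    · left
      rw [h]
    · have h3 : sr r = s := by rw [h, sr_sr]
      rcases rr_or r with h1 | h1 <;> rcases rr_or s with h2 | h2 <;> rw [h1, h2]
      · exact Or.inr h
      · exact Or.inl h
      · exact Or.inl h3
      · right
        rw [sr_sr, h3]

theorem rr_ht (r : Root 6) : ht (rr r).1 = ht r.1 := by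
  rcases rr_or r with h | h
  · rw [h]
  · rw [h, ht_sr]
-- END gh

-- BEGIN gi
private theorem gi_split (h : Stb K 6 x) (hτ : ∀ a, τ (τ a) = a) {p q : Root 6 → Prop} {r : Root 6} (hpq : ∀ s, p s → rr s = r ∨ q s) (hs : ∀ s, q s → q (sr s))
    (h3 : ∀ s t u : Root 6, q s → q t → u.1 = s.1 + t.1 → q u) (h1 : ∀ s, q s → s ≠ -r ∧ s ≠ -sr r)
    (h2 : ∀ s t : Root 6, q s → t.1 = r.1 + s.1 ∨ t.1 = (sr r).1 + s.1 → q t) {u : G} (hu : u ∈ Sy x τ p) :
    ∃ b, Ok τ r b ∧ ∃ u' ∈ Sy x τ q, u = yt x τ r b * u' := by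
  have key : ∀ (s : Root 6) (a : K), p s → Ok τ s a → ∀ y : G, (∃ b, Ok τ r b ∧ ∃ u' ∈ Sy x τ q, y = yt x τ r b * u') →
      ∃ b, Ok τ r b ∧ ∃ u' ∈ Sy x τ q, yt x τ s a * y = yt x τ r b * u' := by
    rintro s a hps hoa y ⟨b, hb, u', hu', rfl⟩
    rcases hpq s hps with hrs | hqs
    · have hcase : s = r ∨ (sr r ≠ r ∧ s = sr r) := by
        rcases rr_or s with h5 | h5
        · exact Or.inl (h5.symm.trans hrs)
        · have h6 : sr s = r := h5.symm.trans hrs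
          by_cases h7 : sr r = r
          · left
            rw [← h7, ← h6, sr_sr]
          · right
            exact ⟨h7, by rw [← h6, sr_sr]⟩
      rcases hcase with rfl | ⟨h7, rfl⟩
      · exact ⟨a + b, hoa.add hb, u', hu', by rw [yt_add h, mul_assoc]⟩
      · have h8 : yt x τ (sr r) a = yt x τ r (et K r.1 * τ a) := by
          rw [← yt_sr h hτ h7, map_mul, et_map, hτ, ← mul_assoc, et_sq, one_mul]
        exact ⟨et K r.1 * τ a + b, Ok.of_ne h7 _, u', hu', by rw [h8, yt_add h, mul_assoc]⟩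
    · refine ⟨b, hb, (yt x τ r (-b) * yt x τ s a * (yt x τ r (-b))⁻¹) * u', (Sy x τ q).mul_mem (Sy.conj h hτ hs h3 h1 h2 hb.neg (Sy.mem hqs hoa)) hu', ?_⟩
      have h9 : yt x τ r (-b) = (yt x τ r b)⁻¹ := (yt_inv h τ r b).symm
      rw [h9]
      group
  unfold Sy at hu
  induction hu using Subgroup.closure_induction_left with
  | one => exact ⟨0, fun _ => map_zero τ, 1, (Sy x τ q).one_mem, by rw [yt_zero h, mul_one]⟩
  | mul_left g hg y hy ih =>
    obtain ⟨s, a, hps, ha, rfl⟩ := hg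
    exact key s a hps ha y ih
  | inv_mul_cancel g hg y hy ih =>
    obtain ⟨s, a, hps, ha, rfl⟩ := hg
    rw [yt_inv h]
    exact key s (-a) hps ha.neg y ih

private theorem gi_aux (h : Stb K 6 x) (hτ : ∀ a, τ (τ a) = a) (m : ℕ) : ∀ F : Finset (Root 6), F.card = m → (∀ r ∈ F, 0 < ht r.1 ∧ rp r.1) →
    (∀ r s t : Root 6, rr r ∈ F → rr s ∈ F → t.1 = r.1 + s.1 → rr t ∈ F) → ∀ u ∈ Sy x τ (fun r => rr r ∈ F),
      ∃ L : List (Root 6 × K), (L.map Prod.fst).Nodup ∧ (∀ p ∈ L, p.1 ∈ F ∧ p.2 ≠ 0 ∧ Ok τ p.1 p.2) ∧ u = (L.map fun p => yt x τ p.1 p.2).prod := by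
  classical
  induction m with
  | zero =>
    intro F hF _ _ u hu
    rw [Finset.card_eq_zero] at hF
    subst hF
    have h3 : Sy x τ (fun r => rr r ∈ (∅ : Finset (Root 6))) = ⊥ := by
      unfold Sy
      rw [Subgroup.closure_eq_bot_iff]
      rintro g ⟨r, a, hr, -⟩
      exact absurd hr (Finset.notMem_empty _)
    rw [h3, Subgroup.mem_bot] at hu
    exact ⟨[], List.nodup_nil, fun p hp => absurd hp List.not_mem_nil, by rw [hu, List.map_nil, List.prod_nil]⟩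
  | succ m IH =>
    intro F hF h1 h2 u hu
    have hne : F.Nonempty := by
      rw [← Finset.card_pos, hF]
      exact Nat.succ_pos m
    obtain ⟨r, hr, hmin⟩ := Finset.exists_min_image F (fun r => ht r.1) hne
    have hrr : rr r = r := if_pos (h1 r hr).2
    have hrs : ∀ s, rr (sr s) = rr s := fun s => (rr_iff (sr s) s).2 (Or.inr rfl)
    have hge : ∀ s, rr s ∈ F → ht r.1 ≤ ht s.1 := by
      intro s hs
      rw [← rr_ht s]
      exact hmin _ hs
    have hr0 : 0 < ht r.1 := (h1 r hr).1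
    have h3 : ∀ t : Root 6, rr t ∈ F → ht r.1 < ht t.1 → rr t ∈ F.erase r := by
      intro t ht1 ht2
      refine Finset.mem_erase.2 ⟨?_, ht1⟩
      intro e
      rw [← rr_ht t, e] at ht2
      exact lt_irrefl _ ht2
    have h4 : ∀ s t w : Root 6, rr s ∈ F.erase r → rr t ∈ F.erase r → w.1 = s.1 + t.1 → rr w ∈ F.erase r := by
      intro s t w hs ht1 hw
      have hs' := (Finset.mem_erase.1 hs).2
      have ht' := (Finset.mem_erase.1 ht1).2
      refine h3 w (h2 s t w hs' ht' hw) ?_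
      rw [hw, ht_add]
      have := hge s hs'
      have := hge t ht'
      omega
    obtain ⟨b, hob, u', hu', rfl⟩ := gi_split h hτ (p := fun s => rr s ∈ F) (q := fun s => rr s ∈ F.erase r) (r := r)
      (fun s hs => by
        by_cases hsr : rr s = r
        · exact Or.inl hsr
        · exact Or.inr (Finset.mem_erase.2 ⟨hsr, hs⟩))
      (fun s hs => by
        rw [hrs]
        exact hs)
      h4
      (fun s hs => by
        have h5 := hge s (Finset.mem_erase.1 hs).2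
        constructor
        · intro e
          rw [e, neg_val, ht_neg] at h5
          omega
        · intro e
          rw [e, neg_val, ht_neg, ht_sr] at h5
          omega)
      (fun s t hs ht1 => by
        have hs' := (Finset.mem_erase.1 hs).2
        have h5 := hge s hs'
        rcases ht1 with ht1 | ht1
        · refine h3 t (h2 r s t (by rw [hrr]; exact hr) hs' ht1) ?_
          rw [ht1, ht_add]
          omega
        · refine h3 t (h2 (sr r) s t (by rw [hrs, hrr]; exact hr) hs' ht1) ?_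
          rw [ht1, ht_add, ht_sr]
          omega) hu
    obtain ⟨L, hL1, hL2, rfl⟩ := IH (F.erase r) (by rw [Finset.card_erase_of_mem hr, hF]; rfl)
      (fun s hs => h1 s (Finset.mem_erase.1 hs).2) h4 u' hu'
    by_cases hb : b = 0
    · refine ⟨L, hL1, fun p hp => ⟨(Finset.mem_erase.1 (hL2 p hp).1).2, (hL2 p hp).2⟩, ?_⟩
      rw [hb, yt_zero h, one_mul]
    · refine ⟨(r, b) :: L, ?_, ?_, ?_⟩
      · rw [List.map_cons, List.nodup_cons]
        refine ⟨?_, hL1⟩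
        intro hm
        obtain ⟨p, hp, hpr⟩ := List.mem_map.1 hm
        exact (Finset.mem_erase.1 (hL2 p hp).1).1 hpr
      · intro p hp
        rcases List.mem_cons.1 hp with rfl | hp
        · exact ⟨hr, hb, hob⟩
        · exact ⟨(Finset.mem_erase.1 (hL2 p hp).1).2, (hL2 p hp).2⟩
      · rw [List.map_cons, List.prod_cons]

/-- MODULE gi. NORMAL FORM, as `ThK.Sg_list` (row `vd` of mods_thg): induction on the number of elements of `F`; `r ∈ F` of minimal height, `F' = F.erase r`; `yt x τ r a` normalizes `Sy x τ (rr · ∈ F')` (`Sy.conj`), so every element of `Sy x τ (rr · ∈ F)` is `yt x τ r b * u'` (a generator `yt x τ s a` with `rr s = r`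
is `yt x τ r (..)`: `yt_sr`). -/
theorem Sy_list (h : Stb K 6 x) (hτ : ∀ a, τ (τ a) = a) (F : Finset (Root 6)) (h1 : ∀ r ∈ F, 0 < ht r.1 ∧ rp r.1) (h2 : ∀ r s t : Root 6, rr r ∈ F → rr s ∈ F → t.1 = r.1 + s.1 → rr t ∈ F) {u : G}
    (hu : u ∈ Sy x τ fun r => rr r ∈ F) : ∃ L : List (Root 6 × K), (L.map Prod.fst).Nodup ∧ (∀ p ∈ L, p.1 ∈ F ∧ p.2 ≠ 0 ∧ Ok τ p.1 p.2) ∧ u = (L.map fun p => yt x τ p.1 p.2).prod :=
  gi_aux h hτ F.card F rfl h1 h2 u hu

/-- `ThK.finite_root`: the finite set of the positive representatives -/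
theorem Up_listY (h : Stb K 6 x) (hτ : ∀ a, τ (τ a) = a) {u : G} (hu : u ∈ Sy x τ fun r => 0 < ht r.1) :
    ∃ L : List (Root 6 × K), (L.map Prod.fst).Nodup ∧ (∀ p ∈ L, (0 < ht p.1.1 ∧ rp p.1.1) ∧ p.2 ≠ 0 ∧ Ok τ p.1 p.2) ∧ u = (L.map fun p => yt x τ p.1 p.2).prod := by
  classical
  have hfin : Finite (Root 6) := finite_root (Or.inl rfl)
  have hf : Set.Finite {r : Root 6 | 0 < ht r.1 ∧ rp r.1} := Set.toFinite _
  have hm : ∀ r : Root 6, r ∈ hf.toFinset ↔ 0 < ht r.1 ∧ rp r.1 := fun r => hf.mem_toFinset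
  have hm2 : ∀ r : Root 6, rr r ∈ hf.toFinset ↔ 0 < ht r.1 := by
    intro r
    rw [hm, rr_ht]
    exact ⟨fun h => h.1, fun h => ⟨h, rr_rp r⟩⟩
  obtain ⟨L, h3, h4, h5⟩ := Sy_list h hτ hf.toFinset (fun r hr => (hm r).1 hr) (fun r s t hr hs ht1 => by
    rw [hm2] at hr hs ⊢
    rw [ht1, ht_add]
    omega) (Sy.mono x τ (fun r hr => (hm2 r).2 hr) hu)
  exact ⟨L, h3, fun p hp => ⟨(hm p.1).1 (h4 p hp).1, (h4 p hp).2⟩, h5⟩
-- END gi

/-- the torus element -/
def hz (x : Root 6 → K → G) (τ : K →+* K) (z : ∀ i : Fin 4, (Sf τ i)ˣ) : G :=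
  hy x τ (sn 0) ((z 0 : Sf τ 0) : K) * hy x τ (sn 1) ((z 1 : Sf τ 1) : K) * hy x τ (sn 2) ((z 2 : Sf τ 2) : K) * hy x τ (sn 3) ((z 3 : Sf τ 3) : K)

/-- the character of `s` on the torus -/
def chY (τ : K →+* K) (s : Vec 6) (z : ∀ i : Fin 4, (Sf τ i)ˣ) : K :=
  cy τ (sn 0).1 s ((z 0 : Sf τ 0) : K) * cy τ (sn 1).1 s ((z 1 : Sf τ 1) : K) * cy τ (sn 2).1 s ((z 2 : Sf τ 2) : K) * cy τ (sn 3).1 s ((z 3 : Sf τ 3) : K)

-- BEGIN gj
private theorem gj_ne {S : Subfield K} (z : Sˣ) : ((z : S) : K) ≠ 0 := by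
  intro h
  apply z.ne_zero
  exact Subtype.ext h

private theorem gj_shuffle {a1 a2 a3 a4 b1 b2 b3 b4 : G} (h12 : b1 * a2 = a2 * b1) (h13 : b1 * a3 = a3 * b1) (h14 : b1 * a4 = a4 * b1) (h23 : b2 * a3 = a3 * b2)
    (h24 : b2 * a4 = a4 * b2) (h34 : b3 * a4 = a4 * b3) : a1 * b1 * (a2 * b2) * (a3 * b3) * (a4 * b4) = a1 * a2 * a3 * a4 * (b1 * b2 * b3 * b4) := by
  calc a1 * b1 * (a2 * b2) * (a3 * b3) * (a4 * b4) = a1 * (b1 * a2) * b2 * (a3 * b3) * (a4 * b4) := by group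
    _ = a1 * a2 * b1 * (b2 * a3) * (b3 * a4) * b4 := by rw [h12]; group
    _ = a1 * a2 * (b1 * a3) * (b2 * a4) * b3 * b4 := by rw [h23, h34]; group
    _ = a1 * a2 * a3 * (b1 * a4) * b2 * b3 * b4 := by rw [h13, h24]; group
    _ = _ := by rw [h14]; group

private theorem gj_upd {T g0 g1 g2 g3 : G} (h0 : T * g0 = g0 * T) (h1 : T * g1 = g1 * T) (h2 : T * g2 = g2 * T) (i : Fin 4) :
    T * (g0 * g1 * g2 * g3) = (if 0 = i then T * g0 else g0) * (if 1 = i then T * g1 else g1) * (if 2 = i then T * g2 else g2) * (if 3 = i then T * g3 else g3) := by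
  have e1 : T * (g0 * g1 * g2 * g3) = T * g0 * g1 * g2 * g3 := by group
  have e2 : T * (g0 * g1 * g2 * g3) = g0 * (T * g1) * g2 * g3 := by
    rw [e1, h0]; group
  have e3 : T * (g0 * g1 * g2 * g3) = g0 * g1 * (T * g2) * g3 := by
    rw [e2, h1]; group
  have e4 : T * (g0 * g1 * g2 * g3) = g0 * g1 * g2 * (T * g3) := by
    rw [e3, h2]; group
  have hi : i = 0 ∨ i = 1 ∨ i = 2 ∨ i = 3 := by
    fin_cases i
    · exact Or.inl rfl
    · exact Or.inr (Or.inl rfl)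
    · exact Or.inr (Or.inr (Or.inl rfl))
    · exact Or.inr (Or.inr (Or.inr rfl))
  rcases hi with rfl | rfl | rfl | rfl
  · rw [if_pos rfl, if_neg (by decide), if_neg (by decide), if_neg (by decide)]
    exact e1
  · rw [if_neg (by decide), if_pos rfl, if_neg (by decide), if_neg (by decide)]
    exact e2
  · rw [if_neg (by decide), if_neg (by decide), if_pos rfl, if_neg (by decide)]
    exact e3
  · rw [if_neg (by decide), if_neg (by decide), if_neg (by decide), if_pos rfl]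
    exact e4

/-- MODULE gj. -/
theorem Sf_fix {i : Fin 4} (hi : (i : ℕ) < 2) (a : Sf τ i) : τ (a : K) = a := by
  have h2 : Sf τ i = Fx τ := if_pos hi
  have h3 : Sf τ i ≤ Fx τ := le_of_eq h2
  exact mem_Fx.1 (h3 a.2)

theorem Sf_ok (i : Fin 4) (a : Sf τ i) : Ok τ (sn i) (a : K) := by
  intro h
  exact Sf_fix ((sn_fix i).1 h) a

theorem Sf_of {i : Fin 4} {a : K} (h : Ok τ (sn i) a) : ∃ b : Sf τ i, (b : K) = a := by
  by_cases hi : (i : ℕ) < 2
  · have h1 : τ a = a := h ((sn_fix i).2 hi)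
    have h2 : Sf τ i = Fx τ := if_pos hi
    have h3 : a ∈ Sf τ i := by
      rw [h2]
      exact mem_Fx.2 h1
    exact ⟨⟨a, h3⟩, rfl⟩
  · have h2 : Sf τ i = ⊤ := if_neg hi
    have h3 : a ∈ Sf τ i := by
      rw [h2]
      exact Subfield.mem_top a
    exact ⟨⟨a, h3⟩, rfl⟩

/-- the torus is commutative and multiplicative (`hh_comm`, `h.tor`) -/
theorem hy_mul (h : Stb K 6 x) (r : Root 6) {a b : K} (ha : a ≠ 0) (hb : b ≠ 0) : hy x τ r (a * b) = hy x τ r a * hy x τ r b := by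
  have hτa : τ a ≠ 0 := (map_ne_zero τ).2 ha
  have hτb : τ b ≠ 0 := (map_ne_zero τ).2 hb
  unfold hy
  split_ifs with h1
  · exact h.tor r a b ha hb
  · rw [h.tor r a b ha hb, map_mul, h.tor (sr r) (τ a) (τ b) hτa hτb]
    have h2 := hh_comm (Or.inl rfl) h r (sr r) hb hτa
    calc hh x r a * hh x r b * (hh x (sr r) (τ a) * hh x (sr r) (τ b)) = hh x r a * (hh x r b * hh x (sr r) (τ a)) * hh x (sr r) (τ b) := by group
      _ = _ := by rw [h2]; group

theorem hy_comm (h : Stb K 6 x) (r s : Root 6) {a b : K} (ha : a ≠ 0) (hb : b ≠ 0) : hy x τ r a * hy x τ s b = hy x τ s b * hy x τ r a := by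
  have hτa : τ a ≠ 0 := (map_ne_zero τ).2 ha
  have hτb : τ b ≠ 0 := (map_ne_zero τ).2 hb
  have key : ∀ (r s : Root 6) {a b : K}, a ≠ 0 → b ≠ 0 → Commute (hh x r a) (hh x s b) := fun r s a b ha hb => hh_comm (Or.inl rfl) h r s ha hb
  have h1 : Commute (hy x τ r a) (hy x τ s b) := by
    unfold hy
    split_ifs
    · exact key r s ha hb
    · exact (key r s ha hb).mul_right (key r (sr s) ha hτb)
    · exact (key r s ha hb).mul_left (key (sr r) s hτa hb)
    · exact ((key r s ha hb).mul_right (key r (sr s) ha hτb)).mul_left ((key (sr r) s hτa hb).mul_right (key (sr r) (sr s) hτa hτb))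
  exact h1

theorem hy_one (h : Stb K 6 x) (r : Root 6) : hy x τ r 1 = 1 := by
  unfold hy
  split_ifs
  · exact hh_one h r
  · rw [map_one, hh_one h r, hh_one h (sr r), one_mul]

theorem hzY_mul (h : Stb K 6 x) (z w : ∀ i : Fin 4, (Sf τ i)ˣ) : hz x τ (z * w) = hz x τ z * hz x τ w := by
  have hm : ∀ i : Fin 4, hy x τ (sn i) (((z * w) i : Sf τ i) : K) = hy x τ (sn i) ((z i : Sf τ i) : K) * hy x τ (sn i) ((w i : Sf τ i) : K) := by
    intro i
    rw [← hy_mul h (sn i) (gj_ne (z i)) (gj_ne (w i))]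
    rfl
  have hc : ∀ i j : Fin 4, hy x τ (sn i) ((w i : Sf τ i) : K) * hy x τ (sn j) ((z j : Sf τ j) : K) = hy x τ (sn j) ((z j : Sf τ j) : K) * hy x τ (sn i) ((w i : Sf τ i) : K) :=
    fun i j => hy_comm h (sn i) (sn j) (gj_ne (w i)) (gj_ne (z j))
  unfold hz
  rw [hm 0, hm 1, hm 2, hm 3]
  exact gj_shuffle (hc 0 1) (hc 0 2) (hc 0 3) (hc 1 2) (hc 1 3) (hc 2 3)

/-- `hy_conj` four times, `cy_ok` -/
theorem hzY_conj (h : Stb K 6 x) (hτ : ∀ a, τ (τ a) = a) (z : ∀ i : Fin 4, (Sf τ i)ˣ) (s : Root 6) (b : K) : hz x τ z * yt x τ s b * (hz x τ z)⁻¹ = yt x τ s (chY τ s.1 z * b) := by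
  have hc : ∀ (i : Fin 4) (b : K), hy x τ (sn i) ((z i : Sf τ i) : K) * yt x τ s b * (hy x τ (sn i) ((z i : Sf τ i) : K))⁻¹ = yt x τ s (cy τ (sn i).1 s.1 ((z i : Sf τ i) : K) * b) :=
    fun i b => hy_conj h hτ (sn i) s (gj_ne (z i)) (Sf_ok i (z i : Sf τ i)) b
  unfold hz chY
  calc _ = hy x τ (sn 0) ((z 0 : Sf τ 0) : K) * (hy x τ (sn 1) ((z 1 : Sf τ 1) : K) * (hy x τ (sn 2) ((z 2 : Sf τ 2) : K) *
        (hy x τ (sn 3) ((z 3 : Sf τ 3) : K) * yt x τ s b * (hy x τ (sn 3) ((z 3 : Sf τ 3) : K))⁻¹) * (hy x τ (sn 2) ((z 2 : Sf τ 2) : K))⁻¹) *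
        (hy x τ (sn 1) ((z 1 : Sf τ 1) : K))⁻¹) * (hy x τ (sn 0) ((z 0 : Sf τ 0) : K))⁻¹ := by group
    _ = _ := by
      rw [hc 3, hc 2, hc 1, hc 0]
      congr 1
      ring

/-- `hy x τ (sn i) t * hz z = hz (update z i (t z_i))` -/
theorem hzY_upd (h : Stb K 6 x) (i : Fin 4) (t : (Sf τ i)ˣ) (z : ∀ i : Fin 4, (Sf τ i)ˣ) :
    hy x τ (sn i) ((t : Sf τ i) : K) * hz x τ z = hz x τ (Function.update z i (t * z i)) := by
  have hc : ∀ j : Fin 4, hy x τ (sn i) ((t : Sf τ i) : K) * hy x τ (sn j) ((z j : Sf τ j) : K) = hy x τ (sn j) ((z j : Sf τ j) : K) * hy x τ (sn i) ((t : Sf τ i) : K) :=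
    fun j => hy_comm h (sn i) (sn j) (gj_ne t) (gj_ne (z j))
  have hm : hy x τ (sn i) (((t * z i : (Sf τ i)ˣ) : Sf τ i) : K) = hy x τ (sn i) ((t : Sf τ i) : K) * hy x τ (sn i) ((z i : Sf τ i) : K) := by
    rw [← hy_mul h (sn i) (gj_ne t) (gj_ne (z i))]
    rfl
  have hs : ∀ j : Fin 4, hy x τ (sn j) ((Function.update z i (t * z i) j : Sf τ j) : K) =
      if j = i then hy x τ (sn i) ((t : Sf τ i) : K) * hy x τ (sn j) ((z j : Sf τ j) : K) else hy x τ (sn j) ((z j : Sf τ j) : K) := by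
    intro j
    by_cases hj : j = i
    · subst hj
      rw [if_pos rfl, Function.update_self, hm]
    · rw [if_neg hj, Function.update_of_ne hj]
  unfold hz
  rw [hs 0, hs 1, hs 2, hs 3]
  exact gj_upd (hc 0) (hc 1) (hc 2) i
-- END gj

-- BEGIN gk
private theorem gk_ne {S : Subfield K} (z : Sˣ) : ((z : S) : K) ≠ 0 := by
  intro h
  apply z.ne_zero
  exact Subtype.ext h

private theorem gk_sg (i : Fin 4) : sg (sn i).1 = (sn i).1 ↔ (i : ℕ) < 2 := by
  rw [← sn_fix i]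
  constructor
  · intro h
    exact Subtype.ext h
  · intro h
    exact congrArg Subtype.val h

private theorem gk_fix {i : Fin 4} (hi : (i : ℕ) < 2) (j : Fin 4) (c : K) : cy τ (sn i).1 (sn j).1 c = c ^ bf (sn i).1 (sn j).1 :=
  if_pos ((gk_sg i).2 hi)

private theorem gk_mov {i : Fin 4} (hi : ¬ (i : ℕ) < 2) (j : Fin 4) (c : K) : cy τ (sn i).1 (sn j).1 c = c ^ bf (sn i).1 (sn j).1 * τ c ^ bf (sg (sn i).1) (sn j).1 :=
  if_neg fun h => hi ((gk_sg i).1 h)

private theorem gk_val (z : ∀ i : Fin 4, (Sf τ i)ˣ) (j : Fin 4) : chY τ (sn j).1 z =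
    ((z 0 : Sf τ 0) : K) ^ bf (sn 0).1 (sn j).1 * ((z 1 : Sf τ 1) : K) ^ bf (sn 1).1 (sn j).1 *
      (((z 2 : Sf τ 2) : K) ^ bf (sn 2).1 (sn j).1 * τ ((z 2 : Sf τ 2) : K) ^ bf (sg (sn 2).1) (sn j).1) *
      (((z 3 : Sf τ 3) : K) ^ bf (sn 3).1 (sn j).1 * τ ((z 3 : Sf τ 3) : K) ^ bf (sg (sn 3).1) (sn j).1) := by
  unfold chY
  rw [gk_fix (by decide), gk_fix (by decide), gk_mov (by decide), gk_mov (by decide)]

private theorem gk_cy_neg (r s : Vec 6) (c : K) : cy τ r (-s) c = (cy τ r s c)⁻¹ := by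
  unfold cy
  rw [bf_neg_right, bf_neg_right]
  split_ifs
  · rw [zpow_neg]
  · rw [zpow_neg, zpow_neg, mul_inv]

private theorem gk_cy_ne (r s : Vec 6) {c : K} (hc : c ≠ 0) : cy τ r s c ≠ 0 := by
  have h1 : τ c ≠ 0 := (map_ne_zero τ).2 hc
  unfold cy
  split_ifs
  · exact zpow_ne_zero _ hc
  · exact mul_ne_zero (zpow_ne_zero _ hc) (zpow_ne_zero _ h1)

/-- MODULE gk. VALUES OF THE CHARACTERS (`bf_sn`, `bf_sg_sn`, `sn_fix`). -/
theorem chY_zero (z : ∀ i : Fin 4, (Sf τ i)ˣ) : chY τ (sn 0).1 z = ((z 0 : Sf τ 0) : K) ^ 2 * (((z 1 : Sf τ 1) : K))⁻¹ := by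
  have b0 : bf (sn 0).1 (sn 0).1 = 2 := (bf_sn 0 0).trans (by decide)
  have b1 : bf (sn 1).1 (sn 0).1 = -1 := (bf_sn 1 0).trans (by decide)
  have b2 : bf (sn 2).1 (sn 0).1 = 0 := (bf_sn 2 0).trans (by decide)
  have b3 : bf (sn 3).1 (sn 0).1 = 0 := (bf_sn 3 0).trans (by decide)
  have c2 : bf (sg (sn 2).1) (sn 0).1 = 0 := (bf_sg_sn 2 0).trans (by decide)
  have c3 : bf (sg (sn 3).1) (sn 0).1 = 0 := (bf_sg_sn 3 0).trans (by decide)
  rw [gk_val, b0, b1, b2, b3, c2, c3]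
  simp only [zpow_neg_one, zpow_ofNat]
  ring

theorem chY_one (z : ∀ i : Fin 4, (Sf τ i)ˣ) : chY τ (sn 1).1 z = ((z 1 : Sf τ 1) : K) ^ 2 * (((z 0 : Sf τ 0) : K))⁻¹ * (((z 2 : Sf τ 2) : K) * τ ((z 2 : Sf τ 2) : K))⁻¹ := by
  have b0 : bf (sn 0).1 (sn 1).1 = -1 := (bf_sn 0 1).trans (by decide)
  have b1 : bf (sn 1).1 (sn 1).1 = 2 := (bf_sn 1 1).trans (by decide)
  have b2 : bf (sn 2).1 (sn 1).1 = -1 := (bf_sn 2 1).trans (by decide)
  have b3 : bf (sn 3).1 (sn 1).1 = 0 := (bf_sn 3 1).trans (by decide)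
  have c2 : bf (sg (sn 2).1) (sn 1).1 = -1 := (bf_sg_sn 2 1).trans (by decide)
  have c3 : bf (sg (sn 3).1) (sn 1).1 = 0 := (bf_sg_sn 3 1).trans (by decide)
  rw [gk_val, b0, b1, b2, b3, c2, c3]
  simp only [zpow_neg_one, zpow_ofNat]
  ring

theorem chY_two (z : ∀ i : Fin 4, (Sf τ i)ˣ) : chY τ (sn 2).1 z = ((z 2 : Sf τ 2) : K) ^ 2 * (((z 1 : Sf τ 1) : K))⁻¹ * (((z 3 : Sf τ 3) : K))⁻¹ := by
  have b0 : bf (sn 0).1 (sn 2).1 = 0 := (bf_sn 0 2).trans (by decide)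
  have b1 : bf (sn 1).1 (sn 2).1 = -1 := (bf_sn 1 2).trans (by decide)
  have b2 : bf (sn 2).1 (sn 2).1 = 2 := (bf_sn 2 2).trans (by decide)
  have b3 : bf (sn 3).1 (sn 2).1 = -1 := (bf_sn 3 2).trans (by decide)
  have c2 : bf (sg (sn 2).1) (sn 2).1 = 0 := (bf_sg_sn 2 2).trans (by decide)
  have c3 : bf (sg (sn 3).1) (sn 2).1 = 0 := (bf_sg_sn 3 2).trans (by decide)
  rw [gk_val, b0, b1, b2, b3, c2, c3]
  simp only [zpow_neg_one, zpow_ofNat]
  ring

theorem chY_three (z : ∀ i : Fin 4, (Sf τ i)ˣ) : chY τ (sn 3).1 z = ((z 3 : Sf τ 3) : K) ^ 2 * (((z 2 : Sf τ 2) : K))⁻¹ := by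
  have b0 : bf (sn 0).1 (sn 3).1 = 0 := (bf_sn 0 3).trans (by decide)
  have b1 : bf (sn 1).1 (sn 3).1 = 0 := (bf_sn 1 3).trans (by decide)
  have b2 : bf (sn 2).1 (sn 3).1 = -1 := (bf_sn 2 3).trans (by decide)
  have b3 : bf (sn 3).1 (sn 3).1 = 2 := (bf_sn 3 3).trans (by decide)
  have c2 : bf (sg (sn 2).1) (sn 3).1 = 0 := (bf_sg_sn 2 3).trans (by decide)
  have c3 : bf (sg (sn 3).1) (sn 3).1 = 0 := (bf_sg_sn 3 3).trans (by decide)
  rw [gk_val, b0, b1, b2, b3, c2, c3]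
  simp only [zpow_neg_one, zpow_ofNat]
  ring

/-- the characters of the nodes as units of the fields of the nodes; `τ (N z) = N z` -/
theorem exists_ch (hτ : ∀ a, τ (τ a) = a) : ∃ χ : ∀ j : Fin 4, (∀ i : Fin 4, (Sf τ i)ˣ) → (Sf τ j)ˣ, ∀ j z, ((χ j z : Sf τ j) : K) = chY τ (sn j).1 z := by
  have key : ∀ (j : Fin 4) (z : ∀ i : Fin 4, (Sf τ i)ˣ), ∃ u : (Sf τ j)ˣ, ((u : Sf τ j) : K) = chY τ (sn j).1 z := by
    intro j z
    have hok : ∀ i : Fin 4, Ok τ (sn i) ((z i : Sf τ i) : K) := fun i => Sf_ok i (z i : Sf τ i)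
    have h1 : Ok τ (sn j) (1 : K) := fun _ => map_one τ
    have h2 : Ok τ (sn j) (chY τ (sn j).1 z) := by
      have h3 := cy_ok hτ (sn 0) (sn j) (hok 0) (cy_ok hτ (sn 1) (sn j) (hok 1) (cy_ok hτ (sn 2) (sn j) (hok 2) (cy_ok hτ (sn 3) (sn j) (hok 3) h1)))
      rw [mul_one, ← mul_assoc, ← mul_assoc] at h3
      exact h3
    obtain ⟨b, hb⟩ := Sf_of h2
    have h4 : chY τ (sn j).1 z ≠ 0 := by
      unfold chY
      exact mul_ne_zero (mul_ne_zero (mul_ne_zero (gk_cy_ne _ _ (gk_ne (z 0))) (gk_cy_ne _ _ (gk_ne (z 1)))) (gk_cy_ne _ _ (gk_ne (z 2)))) (gk_cy_ne _ _ (gk_ne (z 3)))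
    have h5 : b ≠ 0 := by
      rintro rfl
      exact h4 hb.symm
    exact ⟨Units.mk0 b h5, hb⟩
  choose χ hχ using key
  exact ⟨χ, hχ⟩

theorem chY_neg (hτ : ∀ a, τ (τ a) = a) (s : Vec 6) (z : ∀ i : Fin 4, (Sf τ i)ˣ) : chY τ (-s) z = (chY τ s z)⁻¹ := by
  unfold chY
  rw [gk_cy_neg, gk_cy_neg, gk_cy_neg, gk_cy_neg, mul_inv, mul_inv, mul_inv]
-- END gk

-- BEGIN gl
private theorem gl_val (i j : Fin 4) : wf (sn i) (sn j) = sn j ∨ wf (sn i) (sn j) = -sn j ∨
    (((i : ℕ) < 2 ↔ (j : ℕ) < 2) ∧ (wf (sn i) (sn j)).1 = (sn j).1 + (sn i).1) ∨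
    (i = 1 ∧ j = 2 ∧ (wf (sn 1) (sn 2)).1 = (sn 2).1 + (sn 1).1) ∨
    (i = 2 ∧ j = 1 ∧ (wf (sn 2) (sn 1)).1 = (sn 1).1 + ((sn 2).1 + (sr (sn 2)).1)) := by
  revert i j
  decide

private theorem gl_sum : ∃ t : Root 6, t.1 = (sn 2).1 + (sr (sn 2)).1 + (sn 1).1 ∧ ∃ u : Root 6, u.1 = (sr (sn 2)).1 + (sn 1).1 :=
  ⟨wf (sn 2) (sn 1), by decide, rf (sr (sn 2)) (sn 1), by decide⟩

private theorem gl_one (h : Stb K 6 x) : hz x τ (1 : ∀ i : Fin 4, (Sf τ i)ˣ) = 1 := by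
  have h1 : ∀ j : Fin 4, hy x τ (sn j) (((1 : ∀ i : Fin 4, (Sf τ i)ˣ) j : Sf τ j) : K) = 1 := fun j => hy_one h (sn j)
  unfold hz
  rw [h1 0, h1 1, h1 2, h1 3]
  group

private theorem gl_ok (h : Stb K 6 x) (j : Fin 4) {c : K} (hc : c ≠ 0) (ho : Ok τ (sn j) c) : ∃ z' : ∀ i : Fin 4, (Sf τ i)ˣ, hy x τ (sn j) c = hz x τ z' := by
  obtain ⟨b, hb⟩ := Sf_of ho
  have hb0 : b ≠ 0 := by
    rintro rfl
    exact hc hb.symm
  refine ⟨Function.update (1 : ∀ i : Fin 4, (Sf τ i)ˣ) j (Units.mk0 b hb0 * (1 : ∀ i : Fin 4, (Sf τ i)ˣ) j), ?_⟩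
  rw [← hzY_upd h j (Units.mk0 b hb0) 1, gl_one h, mul_one, ← hb]
  rfl

private theorem gl_mul (h : Stb K 6 x) {a b : G} (ha : ∃ z' : ∀ i : Fin 4, (Sf τ i)ˣ, a = hz x τ z') (hb : ∃ z' : ∀ i : Fin 4, (Sf τ i)ˣ, b = hz x τ z') :
    ∃ z' : ∀ i : Fin 4, (Sf τ i)ˣ, a * b = hz x τ z' := by
  obtain ⟨z, rfl⟩ := ha
  obtain ⟨w, rfl⟩ := hb
  exact ⟨z * w, (hzY_mul h z w).symm⟩

private theorem gl_nn (h : Stb K 6 x) (r s : Root 6) {c : K} (hc : c ≠ 0) : ny x r * hh x s c * (ny x r)⁻¹ = hh x (wf r s) c := by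
  unfold ny wf
  split_ifs with h1
  · exact nn_hh (Or.inl rfl) h r s one_ne_zero hc
  · calc ThK.nn x r 1 * ThK.nn x (sr r) 1 * hh x s c * (ThK.nn x r 1 * ThK.nn x (sr r) 1)⁻¹
        = ThK.nn x r 1 * (ThK.nn x (sr r) 1 * hh x s c * (ThK.nn x (sr r) 1)⁻¹) * (ThK.nn x r 1)⁻¹ := by group
      _ = _ := by rw [nn_hh (Or.inl rfl) h (sr r) s one_ne_zero hc, nn_hh (Or.inl rfl) h r _ one_ne_zero hc]

private theorem gl_hy (h : Stb K 6 x) (r s : Root 6) {c : K} (hc : c ≠ 0) : ny x r * hy x τ s c * (ny x r)⁻¹ = hy x τ (wf r s) c := by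
  have hτc : τ c ≠ 0 := (map_ne_zero τ).2 hc
  unfold hy
  by_cases h1 : sr s = s
  · have h2 : sr (wf r s) = wf r s := by rw [← wf_sr, h1]
    rw [if_pos h1, if_pos h2, gl_nn h r s hc]
  · have h2 : ¬ sr (wf r s) = wf r s := by
      intro h3
      rw [← wf_sr] at h3
      apply h1
      rw [← wf_wf r (sr s), h3, wf_wf]
    rw [if_neg h1, if_neg h2, ← wf_sr]
    calc ny x r * (hh x s c * hh x (sr s) (τ c)) * (ny x r)⁻¹
        = (ny x r * hh x s c * (ny x r)⁻¹) * (ny x r * hh x (sr s) (τ c) * (ny x r)⁻¹) := by group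
      _ = _ := by rw [gl_nn h r s hc, gl_nn h r (sr s) hτc]

private theorem gl_neg (h : Stb K 6 x) (s : Root 6) {c : K} (hc : c ≠ 0) : hy x τ (-s) c = hy x τ s c⁻¹ := by
  have hτc : τ c ≠ 0 := (map_ne_zero τ).2 hc
  unfold hy
  by_cases h1 : sr s = s
  · have h2 : sr (-s) = -s := by rw [sr_neg, h1]
    rw [if_pos h1, if_pos h2, hh_neg (Or.inl rfl) h s hc]
  · have h2 : ¬ sr (-s) = -s := by
      intro h3
      apply h1
      rw [sr_neg] at h3
      rw [← neg_neg' (sr s), h3, neg_neg']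
    rw [if_neg h1, if_neg h2, sr_neg, hh_neg (Or.inl rfl) h s hc, hh_neg (Or.inl rfl) h (sr s) hτc, map_inv₀]

/-- sums of two roots of the same type -/
private theorem gl_add (h : Stb K 6 x) {r s t : Root 6} (hrs : sr r = r ↔ sr s = s) (ht : t.1 = r.1 + s.1) (hts : sr t = t ↔ sr r = r) {c : K} (hc : c ≠ 0) :
    hy x τ t c = hy x τ r c * hy x τ s c := by
  have hτc : τ c ≠ 0 := (map_ne_zero τ).2 hc
  unfold hy
  by_cases h1 : sr r = r
  · rw [if_pos h1, if_pos (hrs.1 h1), if_pos (hts.2 h1), hh_add (Or.inl rfl) h ht hc]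
  · have h3 : (sr t).1 = (sr r).1 + (sr s).1 := by rw [sr_val, ht, sg_add, sr_val, sr_val]
    rw [if_neg h1, if_neg (fun h2 => h1 (hrs.2 h2)), if_neg (fun h2 => h1 (hts.1 h2)), hh_add (Or.inl rfl) h ht hc, hh_add (Or.inl rfl) h h3 hτc]
    have h2 := hh_comm (Or.inl rfl) h s (sr r) hc hτc
    calc hh x r c * hh x s c * (hh x (sr r) (τ c) * hh x (sr s) (τ c)) = hh x r c * (hh x s c * hh x (sr r) (τ c)) * hh x (sr s) (τ c) := by group
      _ = _ := by rw [h2]; group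

private theorem gl_step (h : Stb K 6 x) (hτ : ∀ a, τ (τ a) = a) (i j : Fin 4) {c : K} (hc : c ≠ 0) (ho : Ok τ (sn j) c) :
    ∃ z' : ∀ i : Fin 4, (Sf τ i)ˣ, ny x (sn i) * hy x τ (sn j) c * (ny x (sn i))⁻¹ = hz x τ z' := by
  have hτc : τ c ≠ 0 := (map_ne_zero τ).2 hc
  rw [gl_hy h (sn i) (sn j) hc]
  have hw : sr (wf (sn i) (sn j)) = wf (sn i) (sn j) ↔ sr (sn j) = sn j := by
    constructor
    · intro h3
      rw [← wf_sr] at h3
      rw [← wf_wf (sn i) (sr (sn j)), h3, wf_wf]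
    · intro h3
      rw [← wf_sr, h3]
  rcases gl_val i j with e | e | ⟨e1, e⟩ | ⟨rfl, rfl, e⟩ | ⟨rfl, rfl, e⟩
  · rw [e]
    exact gl_ok h j hc ho
  · rw [e, gl_neg h (sn j) hc]
    refine gl_ok h j (inv_ne_zero hc) fun h1 => ?_
    rw [map_inv₀, ho h1]
  · have h1 : sr (sn j) = sn j ↔ sr (sn i) = sn i := by rw [sn_fix, sn_fix, e1]
    rw [gl_add h h1 e hw hc]
    exact gl_mul h (gl_ok h j hc ho) (gl_ok h i hc fun h2 => ho (h1.2 h2))
  · have h2 : ¬ sr (sn 2) = sn 2 := fun h3 => absurd ((sn_fix 2).1 h3) (by decide)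
    have h1 : sr (sn 1) = sn 1 := (sn_fix 1).2 (by decide)
    have hk : Ok τ (sn 1) (c * τ c) := fun _ => by rw [map_mul, hτ, mul_comm]
    have e2 : (sr (wf (sn 1) (sn 2))).1 = (sr (sn 2)).1 + (sn 1).1 := by
      rw [sr_val, e, sg_add, sr_val, ← sr_val (sn 1), h1]
    have e3 : hy x τ (wf (sn 1) (sn 2)) c = hy x τ (sn 2) c * hy x τ (sn 1) (c * τ c) := by
      unfold hy
      rw [if_neg h2, if_pos h1, if_neg (fun h3 => h2 (hw.1 h3)), hh_add (Or.inl rfl) h e hc, hh_add (Or.inl rfl) h e2 hτc, h.tor (sn 1) c (τ c) hc hτc]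
      have h4 := hh_comm (Or.inl rfl) h (sn 1) (sr (sn 2)) hc hτc
      calc hh x (sn 2) c * hh x (sn 1) c * (hh x (sr (sn 2)) (τ c) * hh x (sn 1) (τ c))
          = hh x (sn 2) c * (hh x (sn 1) c * hh x (sr (sn 2)) (τ c)) * hh x (sn 1) (τ c) := by group
        _ = _ := by rw [h4]; group
    rw [e3]
    exact gl_mul h (gl_ok h 2 hc ho) (gl_ok h 1 (mul_ne_zero hc hτc) hk)
  · have h2 : ¬ sr (sn 2) = sn 2 := fun h3 => absurd ((sn_fix 2).1 h3) (by decide)
    have h1 : sr (sn 1) = sn 1 := (sn_fix 1).2 (by decide)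
    obtain ⟨t, ht, u, hu⟩ := gl_sum
    have e2 : (wf (sn 2) (sn 1)).1 = (sn 2).1 + u.1 := by
      rw [e, hu]
      abel
    have e3 : hy x τ (wf (sn 2) (sn 1)) c = hy x τ (sn 2) c * hy x τ (sn 1) c := by
      unfold hy
      rw [if_neg h2, if_pos h1, if_pos (hw.2 h1), hh_add (Or.inl rfl) h e2 hc, hh_add (Or.inl rfl) h hu hc, ho h1]
      group
    rw [e3]
    exact gl_mul h (gl_ok h 2 hc fun h3 => absurd h3 h2) (gl_ok h 1 hc ho)

/-- MODULE gl. `ny x (sn i) * hy x τ (sn j) c * (ny x (sn i))⁻¹ = hy x τ (wf (sn i) (sn j)) c` (`nn_hh`; in the moved case twice; the second factor with `wf_sr`), and `wf (sn i) (sn j)` is: `-sn i` (`j = i`; `hh_neg`), `sn j` (not joined), `sn i + sn j` (`{i, j} = {0, 1}`, `{2, 3}`),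
`i = 1, j = 2`: `r2 + r3`: `hh_add`: `hy (sn 2) c * hh x r3 (c τ c)`; `i = 2, j = 1`: `r3 + r2 + sr r2`: `hy (sn 1) c * hy (sn 2) c` (`τ c = c`).  So each factor of `hz z` becomes some `hz z''`; `hzY_mul`. -/
theorem ny_hz (h : Stb K 6 x) (hτ : ∀ a, τ (τ a) = a) (i : Fin 4) (z : ∀ i : Fin 4, (Sf τ i)ˣ) : ∃ z', ny x (sn i) * hz x τ z * (ny x (sn i))⁻¹ = hz x τ z' := by
  have hn : ∀ j : Fin 4, ((z j : Sf τ j) : K) ≠ 0 := by
    intro j h1
    apply (z j).ne_zero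
    exact Subtype.ext h1
  have hs : ∀ j : Fin 4, ∃ z' : ∀ i : Fin 4, (Sf τ i)ˣ, ny x (sn i) * hy x τ (sn j) ((z j : Sf τ j) : K) * (ny x (sn i))⁻¹ = hz x τ z' :=
    fun j => gl_step h hτ i j (hn j) (Sf_ok j (z j : Sf τ j))
  have e : ny x (sn i) * hz x τ z * (ny x (sn i))⁻¹ = ny x (sn i) * hy x τ (sn 0) ((z 0 : Sf τ 0) : K) * (ny x (sn i))⁻¹ *
      (ny x (sn i) * hy x τ (sn 1) ((z 1 : Sf τ 1) : K) * (ny x (sn i))⁻¹) * (ny x (sn i) * hy x τ (sn 2) ((z 2 : Sf τ 2) : K) * (ny x (sn i))⁻¹) *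
      (ny x (sn i) * hy x τ (sn 3) ((z 3 : Sf τ 3) : K) * (ny x (sn i))⁻¹) := by
    unfold hz
    group
  rw [e]
  exact gl_mul h (gl_mul h (gl_mul h (hs 0) (hs 1)) (hs 2)) (hs 3)
-- END gl

end Pool.Agent.ThF
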