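import Pool.Agent.ThF.NoF

/-! # The Levi subgroup `SL_2(K_0) SL_3(K)` of the twisted group, the elements `W`, the involution `n_0` -/

namespace Pool.Agent.ThF

open ThE ThK ThR

variable {K : Type*} [Field K] {G : Type*} [Group G] {x : Root 6 → K → G} {τ : K →+* K}

/-- the fixed field -/
def Fx (τ : K →+* K) : Subfield K := RingHom.eqLocusField τ (RingHom.id K)

theorem mem_Fx {a : K} : a ∈ Fx τ ↔ τ a = a := Iff.rfl

/-- the twisted map on `SL_3` -/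
def tm (τ : K →+* K) : Matrix.SpecialLinearGroup (Fin 3) K →* Matrix.SpecialLinearGroup (Fin 3) K := (cjd (sD K)).comp (Matrix.SpecialLinearGroup.map τ)

/-- the embedding of `SL_2(K_0)` -/
def em (τ : K →+* K) : Matrix.SpecialLinearGroup (Fin 2) (Fx τ) →* Matrix.SpecialLinearGroup (Fin 2) K := Matrix.SpecialLinearGroup.map (Fx τ).subtype

/-- the three homomorphisms -/
structure L3 (x : Root 6 → K → G) (F1 F2 : Matrix.SpecialLinearGroup (Fin 3) K →* G) (F3 : Matrix.SpecialLinearGroup (Fin 2) K →* G) : Prop where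
  h1 : HomF x uA F1
  h2 : HomF x uM F2
  h3 : HomF x uC F3

/-- `SL_3(K)` in the twisted group -/
def gg (τ : K →+* K) (F1 F2 : Matrix.SpecialLinearGroup (Fin 3) K →* G) (M : Matrix.SpecialLinearGroup (Fin 3) K) : G := F1 M * F2 (tm τ M)

/-- `SL_2(K_0)` in the twisted group -/
def gf (τ : K →+* K) (F3 : Matrix.SpecialLinearGroup (Fin 2) K →* G) (A : Matrix.SpecialLinearGroup (Fin 2) (Fx τ)) : G := F3 (em τ A)

/-- the elements `W` -/
def WW (x : Root 6 → K → G) (τ : K →+* K) (F1 F2 : Matrix.SpecialLinearGroup (Fin 3) K →* G) (F3 : Matrix.SpecialLinearGroup (Fin 2) K →* G) (A : Matrix.SpecialLinearGroup (Fin 2) (Fx τ))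
    (B : Matrix.SpecialLinearGroup (Fin 3) K) : G := gf τ F3 A * gg τ F1 F2 B * hh x r3 (-1)

variable {F1 F2 : Matrix.SpecialLinearGroup (Fin 3) K →* G} {F3 : Matrix.SpecialLinearGroup (Fin 2) K →* G}

-- BEGIN la
/-- MODULE la. `exists_HomF` with `fam_uA`, `fam_uM`, `fam_uC`. -/
theorem exists_L3 (h : Stb K 6 x) : ∃ (F1 F2 : Matrix.SpecialLinearGroup (Fin 3) K →* G) (F3 : Matrix.SpecialLinearGroup (Fin 2) K →* G), L3 x F1 F2 F3 := by
  obtain ⟨F1, h1⟩ := exists_HomF (Or.inl rfl) h fam_uA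
  obtain ⟨F2, h2⟩ := exists_HomF (Or.inl rfl) h fam_uM
  obtain ⟨F3, h3⟩ := exists_HomF (Or.inl rfl) h fam_uC
  exact ⟨F1, F2, F3, h1, h2, h3⟩

/-- `HomF.comm` with `orth_AM` -/
theorem gg_mul (h : Stb K 6 x) (H : L3 x F1 F2 F3) (M N : Matrix.SpecialLinearGroup (Fin 3) K) : gg τ F1 F2 (M * N) = gg τ F1 F2 M * gg τ F1 F2 N := by
  have hc : F1 N * F2 (tm τ M) = F2 (tm τ M) * F1 N := HomF.comm h orth_AM H.h1 H.h2 N (tm τ M)
  unfold gg
  rw [map_mul, map_mul, map_mul]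
  calc F1 M * F1 N * (F2 (tm τ M) * F2 (tm τ N)) = F1 M * (F1 N * F2 (tm τ M)) * F2 (tm τ N) := by simp only [mul_assoc]
    _ = F1 M * (F2 (tm τ M) * F1 N) * F2 (tm τ N) := by rw [hc]
    _ = F1 M * F2 (tm τ M) * (F1 N * F2 (tm τ N)) := by simp only [mul_assoc]

theorem gg_one : gg τ F1 F2 1 = 1 := by
  unfold gg
  rw [map_one, map_one, map_one, mul_one]

theorem gg_inv (h : Stb K 6 x) (H : L3 x F1 F2 F3) (M : Matrix.SpecialLinearGroup (Fin 3) K) : (gg τ F1 F2 M)⁻¹ = gg τ F1 F2 M⁻¹ := by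
  refine inv_eq_of_mul_eq_one_right ?_
  rw [← gg_mul h H, mul_inv_cancel, gg_one]

theorem gf_mul (A B : Matrix.SpecialLinearGroup (Fin 2) (Fx τ)) : gf τ F3 (A * B) = gf τ F3 A * gf τ F3 B := by
  unfold gf
  rw [map_mul, map_mul]

theorem gf_one : gf τ F3 1 = 1 := by
  unfold gf
  rw [map_one, map_one]

theorem gf_inv (A : Matrix.SpecialLinearGroup (Fin 2) (Fx τ)) : (gf τ F3 A)⁻¹ = gf τ F3 A⁻¹ := by
  refine inv_eq_of_mul_eq_one_right ?_
  rw [← gf_mul, mul_inv_cancel, gf_one]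

theorem gf_gg (h : Stb K 6 x) (H : L3 x F1 F2 F3) (A : Matrix.SpecialLinearGroup (Fin 2) (Fx τ)) (M : Matrix.SpecialLinearGroup (Fin 3) K) :
    gf τ F3 A * gg τ F1 F2 M = gg τ F1 F2 M * gf τ F3 A := by
  have h1 : F3 (em τ A) * F1 M = F1 M * F3 (em τ A) := HomF.comm h orth_CA H.h3 H.h1 (em τ A) M
  have h2 : F3 (em τ A) * F2 (tm τ M) = F2 (tm τ M) * F3 (em τ A) := HomF.comm h orth_CM H.h3 H.h2 (em τ A) (tm τ M)
  unfold gf gg
  rw [← mul_assoc, h1, mul_assoc, h2, ← mul_assoc]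
-- END la

-- BEGIN lb
private theorem lb_even : ∀ i j : Fin 3, i ≠ j →
    (bl (uM i - uM j) (uM j) + (![0, 1, 0] : Fin 3 → ℤ) i + (![0, 1, 0] : Fin 3 → ℤ) j + (1 + (uA i - uA j).1) * (1 + ht (uA i - uA j)) + bl (uA i - uA j) (uA j)) % 2 = 0 := by
  decide +kernel

private theorem lb_ne : ∀ i j : Fin 3, i ≠ j → sg (uA i - uA j) ≠ uA i - uA j := by
  decide +kernel

private theorem lb_sD (i : Fin 3) : sD K i = (-1 : Kˣ) ^ (![0, 1, 0] : Fin 3 → ℤ) i := by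
  fin_cases i <;> simp [sD]

private theorem lb_inv (n : ℤ) : ((-1 : Kˣ) ^ n)⁻¹ = (-1 : Kˣ) ^ n := by
  rcases Int.even_or_odd n with h | h
  · rw [h.neg_one_zpow, inv_one]
  · rw [h.neg_one_zpow, inv_neg, inv_one]

private theorem lb_pow {m n : ℤ} (h : (m + n) % 2 = 0) : (-1 : Kˣ) ^ m = (-1 : Kˣ) ^ n := by
  have h1 : (-1 : Kˣ) ^ (m + n) = 1 := (Int.even_iff.2 h).neg_one_zpow
  rw [zpow_add] at h1
  rw [← lb_inv n]
  exact eq_inv_of_mul_eq_one_left h1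

/-- the sign identity -/
private theorem lb_sign {i j : Fin 3} (h : i ≠ j) :
    cf K uM i j * ((sD K i : Kˣ) : K) * (((sD K j)⁻¹ : Kˣ) : K) = et K (uA i - uA j) * cf K uA i j := by
  have h1 : (-1 : Kˣ) ^ (bl (uM i - uM j) (uM j) + (![0, 1, 0] : Fin 3 → ℤ) i + (![0, 1, 0] : Fin 3 → ℤ) j) =
      (-1 : Kˣ) ^ ((1 + (uA i - uA j).1) * (1 + ht (uA i - uA j)) + bl (uA i - uA j) (uA j)) := by
    apply lb_pow
    have h2 := lb_even i j h
    rw [← add_assoc]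
    exact h2
  rw [zpow_add, zpow_add, zpow_add] at h1
  unfold cf eps et ep
  rw [lb_sD, lb_sD, lb_inv, ← Units.val_mul, ← Units.val_mul, ← Units.val_mul, h1]

private theorem lb_elv {F : Type*} [Field F] {m : ℕ} {i j : Fin m} (h : i ≠ j) (a : F) : (el F i j a).1 = Matrix.transvection i j a := by
  have h1 : el F i j a = ⟨Matrix.transvection i j a, Matrix.det_transvection_of_ne i j h a⟩ := dif_pos h
  rw [h1]

private theorem lb_mapf {F L : Type*} [Field F] [Field L] (f : F →+* L) {m : ℕ} {i j : Fin m} (h : i ≠ j) (a : F) :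
    Matrix.SpecialLinearGroup.map f (el F i j a) = el L i j (f a) := by
  apply Subtype.ext
  have h1 : (Matrix.SpecialLinearGroup.map f (el F i j a)).1 = ((el F i j a).1).map f := rfl
  rw [h1, lb_elv h, lb_elv h]
  ext p q
  rw [Matrix.map_apply]
  simp only [Matrix.transvection, Matrix.add_apply, Matrix.one_apply, Matrix.single_apply, map_add]
  split_ifs <;> simp

private theorem lb_map (τ : K →+* K) {m : ℕ} {i j : Fin m} (h : i ≠ j) (a : K) : Matrix.SpecialLinearGroup.map τ (el K i j a) = el K i j (τ a) := lb_mapf τ h a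

private theorem lb_em (a : Fx τ) {i j : Fin 2} (h : i ≠ j) : em τ (el (Fx τ) i j a) = el K i j (a : K) := lb_mapf (Fx τ).subtype h a

/-- MODULE lb. `r.1 = uA i - uA j = e_i - e_j`, `F1 (el i j a) = x r (cf a)`, `tm τ (el i j a) = el i j (δ_i δ_j τ a)` (`cjd_el`, `sD`), `F2` of it is `x (sr r) (cf K uM i j * δ_i δ_j * τ a)` (`sg_uA`), and `cf K uM i j * δ_i δ_j = et K r * cf K uA i j` (signs: `decide` for the six pairs, checked by computer;
`cf K u i j = eps K (u i - u j) (u j)`, `eps` and `et` are powers of `-1` with explicit exponents). -/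
theorem gg_el (h : Stb K 6 x) (H : L3 x F1 F2 F3) {i j : Fin 3} (hij : i ≠ j) {r : Root 6} (hr : r.1 = uA i - uA j) (a : K) :
    gg τ F1 F2 (el K i j a) = yt x τ r (cf K uA i j * a) := by
  have hrs : sr r ≠ r := by
    intro e
    have e1 : sg r.1 = r.1 := congrArg Subtype.val e
    rw [hr] at e1
    exact lb_ne i j hij e1
  have hs : (sr r).1 = uM i - uM j := by
    show sg r.1 = _
    rw [hr, sg_uA]
  have e1 : F1 (el K i j a) = x r (cf K uA i j * a) := by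
    have hR : IsR (uA i - uA j) := hr ▸ r.2
    rw [H.h1 i j hij a, X_of x hR]
    congr 1
    exact Subtype.ext hr.symm
  have e2 : tm τ (el K i j a) = el K i j ((sD K i : K) * τ a * (((sD K j)⁻¹ : Kˣ) : K)) := by
    show cjd (sD K) (Matrix.SpecialLinearGroup.map τ (el K i j a)) = _
    rw [lb_map τ hij, cjd_el _ _ _ hij]
  have e3 : F2 (tm τ (el K i j a)) = x (sr r) (et K r.1 * τ (cf K uA i j * a)) := by
    have hR : IsR (uM i - uM j) := hs ▸ (sr r).2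
    rw [e2, H.h2 i j hij, X_of x hR]
    have e4 : (⟨uM i - uM j, hR⟩ : Root 6) = sr r := Subtype.ext hs.symm
    rw [e4]
    congr 1
    have e5 := lb_sign (K := K) hij
    have e6 : τ (cf K uA i j) = cf K uA i j := eps_map τ _ _
    rw [map_mul, e6, hr]
    calc cf K uM i j * ((sD K i : K) * τ a * (((sD K j)⁻¹ : Kˣ) : K)) = (cf K uM i j * (sD K i : K) * (((sD K j)⁻¹ : Kˣ) : K)) * τ a := by ring
      _ = et K (uA i - uA j) * (cf K uA i j * τ a) := by rw [e5]; ring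
  rw [yt_mov x τ hrs, ← e3, ← e1]
  rfl

theorem gf_el01 (H : L3 x F1 F2 F3) (a : Fx τ) : gf τ F3 (el (Fx τ) 0 1 a) = yt x τ gm (a : K) := by
  have hR : IsR (uC 0 - uC 1) := by
    have e : uC 0 - uC 1 = gm.1 := by simp [uC]
    rw [e]
    exact gm.2
  have e1 : gf τ F3 (el (Fx τ) 0 1 a) = x gm (cf K uC 0 1 * (a : K)) := by
    show F3 (em τ (el (Fx τ) 0 1 a)) = _
    rw [lb_em a (by decide), H.h3 0 1 (by decide), X_of x hR]
    congr 1
    exact Subtype.ext (by simp [uC])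
  have e2 : cf K uC 0 1 = 1 := by
    unfold cf eps ep
    have : bl (uC 0 - uC 1) (uC 1) = 0 := by decide +kernel
    rw [this, zpow_zero, Units.val_one]
  rw [e1, e2, one_mul, yt_fix x τ sr_gm]

theorem gf_el10 (H : L3 x F1 F2 F3) (a : Fx τ) : gf τ F3 (el (Fx τ) 1 0 a) = yt x τ (-gm) (-(a : K)) := by
  have hR : IsR (uC 1 - uC 0) := by
    have e : uC 1 - uC 0 = (-gm).1 := by
      show uC 1 - uC 0 = -gm.1
      simp [uC]
    rw [e]
    exact (-gm).2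
  have e1 : gf τ F3 (el (Fx τ) 1 0 a) = x (-gm) (cf K uC 1 0 * (a : K)) := by
    show F3 (em τ (el (Fx τ) 1 0 a)) = _
    rw [lb_em a (by decide), H.h3 1 0 (by decide), X_of x hR]
    congr 1
    apply Subtype.ext
    show uC 1 - uC 0 = -gm.1
    simp [uC]
  have e2 : cf K uC 1 0 = -1 := by
    unfold cf eps ep
    have h1 : Odd (bl (uC 1 - uC 0) (uC 0)) := by
      rw [Int.odd_iff]
      decide +kernel
    rw [h1.neg_one_zpow, Units.val_neg, Units.val_one]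
  have e3 : sr (-gm) = -gm := by rw [sr_neg, sr_gm]
  rw [e1, e2, neg_one_mul, yt_fix x τ e3]

/-- `el_gen`, closure induction; `sr r ≠ r` for `r = e_i - e_j` (so every parameter is admissible) -/
theorem gg_mem (h : Stb K 6 x) (H : L3 x F1 F2 F3) (M : Matrix.SpecialLinearGroup (Fin 3) K) : gg τ F1 F2 M ∈ Sy x τ fun r => l6 r.1 = 0 := by
  have hM : M ∈ Subgroup.closure {g : Matrix.SpecialLinearGroup (Fin 3) K | ∃ i j a, i ≠ j ∧ g = el K i j a} := by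
    rw [el_gen]
    exact Subgroup.mem_top M
  induction hM using Subgroup.closure_induction with
  | mem g hg =>
    obtain ⟨i, j, a, hij, rfl⟩ := hg
    have h1 := fam_uA i j hij
    rw [gg_el h H hij (r := ⟨uA i - uA j, h1.1⟩) rfl]
    refine Sy.mem (p := fun r => l6 r.1 = 0) h1.2 (Ok.of_ne ?_ _)
    intro e
    exact lb_ne i j hij (congrArg Subtype.val e)
  | one =>
    rw [gg_one]
    exact Subgroup.one_mem _
  | mul g g' _ _ h1 h2 =>
    rw [gg_mul h H]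
    exact Subgroup.mul_mem _ h1 h2
  | inv g _ h1 =>
    rw [← gg_inv h H]
    exact Subgroup.inv_mem _ h1

theorem gf_mem (h : Stb K 6 x) (H : L3 x F1 F2 F3) (A : Matrix.SpecialLinearGroup (Fin 2) (Fx τ)) : gf τ F3 A ∈ Sy x τ fun r => l6 r.1 = 0 := by
  have hA : A ∈ Subgroup.closure {g : Matrix.SpecialLinearGroup (Fin 2) (Fx τ) | ∃ i j a, i ≠ j ∧ g = el (Fx τ) i j a} := by
    rw [el_gen]
    exact Subgroup.mem_top A
  induction hA using Subgroup.closure_induction with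
  | mem g hg =>
    obtain ⟨i, j, a, hij, rfl⟩ := hg
    have h0 : i = 0 ∧ j = 1 ∨ i = 1 ∧ j = 0 := by
      revert i j
      decide
    rcases h0 with ⟨rfl, rfl⟩ | ⟨rfl, rfl⟩
    · rw [gf_el01 H]
      exact Sy.mem (p := fun r => l6 r.1 = 0) (by decide +kernel) fun _ => a.2
    · rw [gf_el10 H]
      refine Sy.mem (p := fun r => l6 r.1 = 0) (by decide +kernel) fun _ => ?_
      rw [map_neg]
      exact congrArg Neg.neg a.2
  | one =>
    rw [gf_one]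
    exact Subgroup.one_mem _
  | mul g g' _ _ h1 h2 =>
    rw [gf_mul]
    exact Subgroup.mul_mem _ h1 h2
  | inv g _ h1 =>
    rw [← gf_inv]
    exact Subgroup.inv_mem _ h1
-- END lb

-- BEGIN lc
/-- MODULE lc. THE TORUS ELEMENT.  `hh_HomF`: `hh_conj`, `cjd_el`, `el_gen` and closure induction (or `pres_ext`). -/
theorem hh_HomF {m : ℕ} (h : Stb K 6 x) {u : Fin m → Vec 6} (hu : Fam l6 u) {F : Matrix.SpecialLinearGroup (Fin m) K →* G} (hF : HomF x u F) (r : Root 6) (t : Kˣ)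
    (M : Matrix.SpecialLinearGroup (Fin m) K) : hh x r (t : K) * F M * (hh x r (t : K))⁻¹ = F (cjd (fun i => t ^ bf r.1 (u i)) M) := by
  have e : ((MulAut.conj (hh x r (t : K))).toMonoidHom.comp F) = F.comp (cjd fun i => t ^ bf r.1 (u i)) := by
    refine pres_ext fun i j hij a => ?_
    show hh x r (t : K) * F (el K i j a) * (hh x r (t : K))⁻¹ = F (cjd _ (el K i j a))
    rw [cjd_el _ _ _ hij, hF i j hij, hF i j hij, X_of x (hu i j hij).1, X_of x (hu i j hij).1, hh_conj (Or.inl rfl) h r _ t.ne_zero]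
    refine congrArg (x _) ?_
    rw [bf_sub_right, zpow_sub₀ t.ne_zero, Units.val_inv_eq_inv_val, Units.val_zpow_eq_zpow_val, Units.val_zpow_eq_zpow_val]
    ring
  exact DFunLike.congr_fun e M

private theorem lc_map (B : Matrix.SpecialLinearGroup (Fin 3) K) : tm τ (cjd (d3 K) B) = cjd (d3 K) (tm τ B) := by
  have e1 : (fun i => Units.map (τ : K →* K) (d3 K i)) = d3 K := by
    funext i
    refine Units.ext ?_
    rw [Units.coe_map]
    show τ (d3 K i : K) = (d3 K i : K)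
    fin_cases i <;> simp [d3]
  show cjd (sD K) (Matrix.SpecialLinearGroup.map τ (cjd (d3 K) B)) = cjd (d3 K) (cjd (sD K) (Matrix.SpecialLinearGroup.map τ B))
  rw [cjd_map, e1, cjd_cjd, cjd_cjd, mul_comm]

private theorem lc_r3 (i : Fin 3) : (-1 : Kˣ) ^ bf r3.1 (uA i) = d3 K i ∧ (-1 : Kˣ) ^ bf r3.1 (uM i) = d3 K i := r3_char (-1 : Kˣ) (by simp) i

private theorem lc_r3C (i : Fin 2) : (-1 : Kˣ) ^ bf r3.1 (uC i) = d2 K i := by
  have e0 : bf r3.1 (uC 0) = -1 := by decide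
  have e1 : bf r3.1 (uC 1) = 0 := by decide
  fin_cases i
  · show (-1 : Kˣ) ^ bf r3.1 (uC 0) = d2 K 0
    rw [e0]; simp [d2]
  · show (-1 : Kˣ) ^ bf r3.1 (uC 1) = d2 K 1
    rw [e1]; simp [d2]

private theorem lc_hh {m : ℕ} (h : Stb K 6 x) {u : Fin m → Vec 6} (hu : Fam l6 u) {F : Matrix.SpecialLinearGroup (Fin m) K →* G} (hF : HomF x u F) {d : Fin m → Kˣ}
    (hd : ∀ i, (-1 : Kˣ) ^ bf r3.1 (u i) = d i) (M : Matrix.SpecialLinearGroup (Fin m) K) : hh x r3 (-1) * F M * (hh x r3 (-1))⁻¹ = F (cjd d M) := by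
  have e := hh_HomF h hu hF r3 (-1) M
  rw [Units.val_neg, Units.val_one, funext hd] at e
  exact e

/-- `r3_char` with `t = -1`; `cjd d3` commutes with `tm τ` (`cjd_map`, `cjd_cjd`, `τ (-1) = -1`) -/
theorem h3_gg (h : Stb K 6 x) (H : L3 x F1 F2 F3) (B : Matrix.SpecialLinearGroup (Fin 3) K) : hh x r3 (-1) * gg τ F1 F2 B * (hh x r3 (-1))⁻¹ = gg τ F1 F2 (cjd (d3 K) B) := by
  have e1 := lc_hh h fam_uA H.h1 (fun i => (lc_r3 i).1) B
  have e2 := lc_hh h fam_uM H.h2 (fun i => (lc_r3 i).2) (tm τ B)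
  show hh x r3 (-1) * (F1 B * F2 (tm τ B)) * (hh x r3 (-1))⁻¹ = F1 (cjd (d3 K) B) * F2 (tm τ (cjd (d3 K) B))
  rw [lc_map, ← e1, ← e2]
  group

theorem h3_gf (h : Stb K 6 x) (H : L3 x F1 F2 F3) (A : Matrix.SpecialLinearGroup (Fin 2) (Fx τ)) : hh x r3 (-1) * gf τ F3 A * (hh x r3 (-1))⁻¹ = gf τ F3 (cjd (d2 (Fx τ)) A) := by
  have e1 := lc_hh h fam_uC H.h3 lc_r3C (em τ A)
  have e2 : (fun i => Units.map ((Fx τ).subtype : Fx τ →* K) (d2 (Fx τ) i)) = d2 K := by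
    funext i
    refine Units.ext ?_
    rw [Units.coe_map]
    show ((d2 (Fx τ) i : Fx τ) : K) = (d2 K i : K)
    fin_cases i <;> simp [d2]
  show hh x r3 (-1) * F3 (em τ A) * (hh x r3 (-1))⁻¹ = F3 (Matrix.SpecialLinearGroup.map (Fx τ).subtype (cjd (d2 (Fx τ)) A))
  rw [cjd_map, e2]
  exact e1

/-- `h.tor`, `hh_one` -/
theorem h3_sq (h : Stb K 6 x) : hh x r3 (-1 : K) * hh x r3 (-1) = 1 := by
  have n1 : (-1 : K) ≠ 0 := neg_ne_zero.mpr one_ne_zero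
  rw [← h.tor r3 (-1) (-1) n1 n1, neg_mul_neg, one_mul, hh_one h]

/-- `sr r3 = r3`: `x r3 a = yt x τ r3 a` for `τ a = a` -/
theorem h3_mem (x : Root 6 → K → G) (τ : K →+* K) : hh x r3 (-1) ∈ Sy x τ fun _ => True := by
  have s1 : sr (-r3) = -r3 := by rw [sr_neg, sr_r3]
  have k1 : ∀ a : K, τ a = a → x r3 a ∈ Sy x τ fun _ => True := by
    intro a ha
    rw [← yt_fix x τ sr_r3 a]
    exact Sy.mem trivial fun _ => ha
  have k2 : ∀ a : K, τ a = a → x (-r3) a ∈ Sy x τ fun _ => True := by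
    intro a ha
    rw [← yt_fix x τ s1 a]
    exact Sy.mem trivial fun _ => ha
  have k3 : ∀ a : K, τ a = a → ThK.nn x r3 a ∈ Sy x τ fun _ => True := by
    intro a ha
    exact mul_mem (mul_mem (k1 a ha) (k2 _ (by rw [map_inv₀, ha]))) (k1 a ha)
  have hn1 : τ (-1) = -1 := by rw [map_neg, map_one]
  exact mul_mem (k3 _ hn1) (k3 _ hn1)
-- END lc

-- BEGIN ld
private theorem ld_hinv (h : Stb K 6 x) : (hh x r3 (-1 : K))⁻¹ = hh x r3 (-1) := inv_eq_of_mul_eq_one_right (h3_sq h)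

private theorem ld_gg (h : Stb K 6 x) (H : L3 x F1 F2 F3) (B : Matrix.SpecialLinearGroup (Fin 3) K) :
    hh x r3 (-1) * gg τ F1 F2 B = gg τ F1 F2 (cjd (d3 K) B) * hh x r3 (-1) := by
  rw [← h3_gg h H B, inv_mul_cancel_right]

private theorem ld_gf (h : Stb K 6 x) (H : L3 x F1 F2 F3) (A : Matrix.SpecialLinearGroup (Fin 2) (Fx τ)) :
    hh x r3 (-1) * gf τ F3 A = gf τ F3 (cjd (d2 (Fx τ)) A) * hh x r3 (-1) := by
  rw [← h3_gf h H A, inv_mul_cancel_right]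

/-- MODULE ld. From `h3_gg`, `h3_gf`, `h3_sq`, `gf_gg`, `gg_mul`, `gf_mul`, `cjd_cjd` (`d2 * d2 = 1`, `d3 * d3 = 1`). -/
theorem WW_mul (h : Stb K 6 x) (H : L3 x F1 F2 F3) (A A' : Matrix.SpecialLinearGroup (Fin 2) (Fx τ)) (B B' : Matrix.SpecialLinearGroup (Fin 3) K) :
    WW x τ F1 F2 F3 A B * WW x τ F1 F2 F3 A' B' = gf τ F3 (A * cjd (d2 (Fx τ)) A') * gg τ F1 F2 (B * cjd (d3 K) B') := by
  unfold WW
  calc gf τ F3 A * gg τ F1 F2 B * hh x r3 (-1) * (gf τ F3 A' * gg τ F1 F2 B' * hh x r3 (-1))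
      = gf τ F3 A * gg τ F1 F2 B * (hh x r3 (-1) * gf τ F3 A') * gg τ F1 F2 B' * hh x r3 (-1) := by simp only [mul_assoc]
    _ = gf τ F3 A * gg τ F1 F2 B * gf τ F3 (cjd (d2 (Fx τ)) A') * (hh x r3 (-1) * gg τ F1 F2 B') * hh x r3 (-1) := by rw [ld_gf h H]; simp only [mul_assoc]
    _ = gf τ F3 A * (gg τ F1 F2 B * gf τ F3 (cjd (d2 (Fx τ)) A')) * gg τ F1 F2 (cjd (d3 K) B') * (hh x r3 (-1) * hh x r3 (-1)) := by rw [ld_gg h H]; simp only [mul_assoc]
    _ = gf τ F3 (A * cjd (d2 (Fx τ)) A') * gg τ F1 F2 (B * cjd (d3 K) B') := by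
        rw [h3_sq h, mul_one, ← gf_gg h H, gf_mul, gg_mul h H]; simp only [mul_assoc]

theorem WW_conj (h : Stb K 6 x) (H : L3 x F1 F2 F3) (A P : Matrix.SpecialLinearGroup (Fin 2) (Fx τ)) (B Q : Matrix.SpecialLinearGroup (Fin 3) K) :
    gf τ F3 P * gg τ F1 F2 Q * WW x τ F1 F2 F3 A B * (gf τ F3 P * gg τ F1 F2 Q)⁻¹ = WW x τ F1 F2 F3 (P * A * cjd (d2 (Fx τ)) P⁻¹) (Q * B * cjd (d3 K) Q⁻¹) := by
  unfold WW
  calc gf τ F3 P * gg τ F1 F2 Q * (gf τ F3 A * gg τ F1 F2 B * hh x r3 (-1)) * (gf τ F3 P * gg τ F1 F2 Q)⁻¹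
      = gf τ F3 P * (gg τ F1 F2 Q * gf τ F3 A) * gg τ F1 F2 B * (hh x r3 (-1) * gg τ F1 F2 Q⁻¹) * gf τ F3 P⁻¹ := by
        rw [mul_inv_rev, gg_inv h H, gf_inv]; simp only [mul_assoc]
    _ = gf τ F3 P * gf τ F3 A * gg τ F1 F2 Q * gg τ F1 F2 B * gg τ F1 F2 (cjd (d3 K) Q⁻¹) * (hh x r3 (-1) * gf τ F3 P⁻¹) := by
        rw [ld_gg h H, ← gf_gg h H]; simp only [mul_assoc]
    _ = gf τ F3 P * gf τ F3 A * (gg τ F1 F2 (Q * B * cjd (d3 K) Q⁻¹) * gf τ F3 (cjd (d2 (Fx τ)) P⁻¹)) * hh x r3 (-1) := by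
        rw [ld_gf h H, gg_mul h H, gg_mul h H]; simp only [mul_assoc]
    _ = gf τ F3 (P * A * cjd (d2 (Fx τ)) P⁻¹) * gg τ F1 F2 (Q * B * cjd (d3 K) Q⁻¹) * hh x r3 (-1) := by
        rw [← gf_gg h H, gf_mul, gf_mul]; simp only [mul_assoc]

theorem WW_inv (h : Stb K 6 x) (H : L3 x F1 F2 F3) (A : Matrix.SpecialLinearGroup (Fin 2) (Fx τ)) (B : Matrix.SpecialLinearGroup (Fin 3) K) :
    (WW x τ F1 F2 F3 A B)⁻¹ = WW x τ F1 F2 F3 (cjd (d2 (Fx τ)) A⁻¹) (cjd (d3 K) B⁻¹) := by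
  unfold WW
  rw [mul_inv_rev, mul_inv_rev, ld_hinv h, gg_inv h H, gf_inv, ← mul_assoc, ld_gg h H, mul_assoc, ld_gf h H, ← mul_assoc, ← gf_gg h H]
-- END ld

-- BEGIN le
private theorem le_dd {m : ℕ} {F : Type*} [Field F] (d : Fin m → Fˣ) (hd : ∀ i, d i * d i = 1) :
    Matrix.diagonal (fun i => (d i : F)) * Matrix.diagonal (fun i => (d i : F)) = 1 := by
  rw [Matrix.diagonal_mul_diagonal, ← Matrix.diagonal_one]
  refine congrArg Matrix.diagonal (funext fun i => ?_)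
  rw [← Units.val_mul, hd i, Units.val_one]

private theorem le_inv {m : ℕ} {F : Type*} [Field F] (d : Fin m → Fˣ) (hd : ∀ i, d i * d i = 1) :
    Matrix.diagonal (fun i => (((d i)⁻¹ : Fˣ) : F)) = Matrix.diagonal (fun i => (d i : F)) := by
  refine congrArg Matrix.diagonal (funext fun i => ?_)
  rw [inv_eq_of_mul_eq_one_left (hd i)]

private theorem le_mul {m : ℕ} {F : Type*} [Field F] (d : Fin m → Fˣ) (hd : ∀ i, d i * d i = 1) (Z Z' : Matrix (Fin m) (Fin m) F) :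
    Z * Matrix.diagonal (fun i => (d i : F)) * (Matrix.diagonal (fun i => (d i : F)) * (Z' * Matrix.diagonal (fun i => (d i : F))) * Matrix.diagonal (fun i => (((d i)⁻¹ : Fˣ) : F))) = Z * Z' := by
  rw [le_inv d hd]
  have h := le_dd d hd
  calc _ = Z * (Matrix.diagonal (fun i => (d i : F)) * Matrix.diagonal (fun i => (d i : F))) * Z' * (Matrix.diagonal (fun i => (d i : F)) * Matrix.diagonal (fun i => (d i : F))) := by
        simp only [Matrix.mul_assoc]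
    _ = _ := by rw [h, Matrix.mul_one, Matrix.mul_one]

private theorem le_cj {m : ℕ} {F : Type*} [Field F] (d : Fin m → Fˣ) (hd : ∀ i, d i * d i = 1) (P Z Q : Matrix (Fin m) (Fin m) F) :
    P * (Z * Matrix.diagonal (fun i => (d i : F))) * (Matrix.diagonal (fun i => (d i : F)) * Q * Matrix.diagonal (fun i => (((d i)⁻¹ : Fˣ) : F))) =
      P * Z * Q * Matrix.diagonal (fun i => (d i : F)) := by
  rw [le_inv d hd]
  have h := le_dd d hd
  calc _ = P * Z * (Matrix.diagonal (fun i => (d i : F)) * Matrix.diagonal (fun i => (d i : F))) * Q * Matrix.diagonal (fun i => (d i : F)) := by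
        simp only [Matrix.mul_assoc]
    _ = _ := by rw [h, Matrix.mul_one]

private theorem le_d2 (F : Type*) [Field F] (i : Fin 2) : d2 F i * d2 F i = 1 := by
  fin_cases i <;> simp [d2]

private theorem le_d3 (F : Type*) [Field F] (i : Fin 3) : d3 F i * d3 F i = 1 := by
  fin_cases i <;> simp [d3]

/-- MODULE le. The matrix form: `m2 Z = Z δ`, `cjd d2 M = δ M δ`, `δ δ = 1`; so `m2 Z * cjd d2 (m2 Z') = Z Z'`, `P * m2 Z * cjd d2 P⁻¹ = (P Z P⁻¹) δ`, `cjd d2 (m2 Z)⁻¹ = δ (Z δ)⁻¹ δ = Z⁻¹ δ` (`Z⁻¹ = - adjugate Z`; `Matrix.nonsing_inv`). -/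
theorem m2_mul {F : Type*} [Field F] {Z Z' : Matrix (Fin 2) (Fin 2) F} (h : Z.det = -1) (h' : Z'.det = -1) {A : Matrix.SpecialLinearGroup (Fin 2) F} (hA : A.1 = Z * Z') :
    m2 Z h * cjd (d2 F) (m2 Z' h') = A := by
  refine Subtype.ext ?_
  rw [hA]
  exact le_mul (d2 F) (le_d2 F) Z Z'

theorem m3_mul {F : Type*} [Field F] {Z Z' : Matrix (Fin 3) (Fin 3) F} (h : Z.det = -1) (h' : Z'.det = -1) {A : Matrix.SpecialLinearGroup (Fin 3) F} (hA : A.1 = Z * Z') :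
    m3 Z h * cjd (d3 F) (m3 Z' h') = A := by
  refine Subtype.ext ?_
  rw [hA]
  exact le_mul (d3 F) (le_d3 F) Z Z'

theorem m2_cj {F : Type*} [Field F] {Z Z' : Matrix (Fin 2) (Fin 2) F} (h : Z.det = -1) (h' : Z'.det = -1) {P : Matrix.SpecialLinearGroup (Fin 2) F} (hP : Z' = P.1 * Z * (P⁻¹).1) :
    P * m2 Z h * cjd (d2 F) P⁻¹ = m2 Z' h' := by
  refine Subtype.ext ?_
  refine (le_cj (d2 F) (le_d2 F) P.1 Z (P⁻¹).1).trans ?_
  rw [← hP]
  rfl

theorem m3_cj {F : Type*} [Field F] {Z Z' : Matrix (Fin 3) (Fin 3) F} (h : Z.det = -1) (h' : Z'.det = -1) {P : Matrix.SpecialLinearGroup (Fin 3) F} (hP : Z' = P.1 * Z * (P⁻¹).1) :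
    P * m3 Z h * cjd (d3 F) P⁻¹ = m3 Z' h' := by
  refine Subtype.ext ?_
  refine (le_cj (d3 F) (le_d3 F) P.1 Z (P⁻¹).1).trans ?_
  rw [← hP]
  rfl

theorem m2_inv {F : Type*} [Field F] {Z Z' : Matrix (Fin 2) (Fin 2) F} (h : Z.det = -1) (h' : Z'.det = -1) (hZ : Z * Z' = 1) : cjd (d2 F) (m2 Z h)⁻¹ = m2 Z' h' := by
  have e : m2 Z h * cjd (d2 F) (m2 Z' h') = 1 := m2_mul h h' hZ.symm
  have e2 : (m2 Z h)⁻¹ = cjd (d2 F) (m2 Z' h') := inv_eq_of_mul_eq_one_right e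
  have e3 : d2 F * d2 F = 1 := funext (le_d2 F)
  rw [e2, cjd_cjd, e3, cjd_one]

theorem m3_inv {F : Type*} [Field F] {Z Z' : Matrix (Fin 3) (Fin 3) F} (h : Z.det = -1) (h' : Z'.det = -1) (hZ : Z * Z' = 1) : cjd (d3 F) (m3 Z h)⁻¹ = m3 Z' h' := by
  have e : m3 Z h * cjd (d3 F) (m3 Z' h') = 1 := m3_mul h h' hZ.symm
  have e2 : (m3 Z h)⁻¹ = cjd (d3 F) (m3 Z' h') := inv_eq_of_mul_eq_one_right e
  have e3 : d3 F * d3 F = 1 := funext (le_d3 F)
  rw [e2, cjd_cjd, e3, cjd_one]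
-- END le

/-- inverse transpose -/
def iT {F : Type*} [Field F] (m : ℕ) : Matrix.SpecialLinearGroup (Fin m) F →* Matrix.SpecialLinearGroup (Fin m) F where
  toFun M := ⟨(M⁻¹).1.transpose, by rw [Matrix.det_transpose]; exact (M⁻¹).2⟩
  map_one' := by
    refine Subtype.ext ?_
    show ((1 : Matrix.SpecialLinearGroup (Fin m) F)⁻¹).1.transpose = 1
    rw [inv_one]
    exact Matrix.transpose_one
  map_mul' M N := by
    refine Subtype.ext ?_
    show ((M * N)⁻¹).1.transpose = (M⁻¹).1.transpose * (N⁻¹).1.transpose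
    rw [mul_inv_rev, ← Matrix.transpose_mul]
    rfl

/-- the four fixed, pairwise orthogonal roots `e_5 - e_0`, `e_4 - e_1`, `e_3 - e_2`, `θ` -/
def bR : Fin 4 → Root 6 := ![⟨(0, ![-1, 0, 0, 0, 0, 1]), by decide⟩, ⟨(0, ![0, -1, 0, 0, 1, 0]), by decide⟩, r3, th6]

/-- `n_0` -/
def n0 (x : Root 6 → K → G) : G := ThK.nn x (bR 0) 1 * ThK.nn x (bR 1) 1 * ThK.nn x (bR 2) 1 * ThK.nn x (bR 3) 1

-- BEGIN lf
private theorem lf_conj_mul (n a b : G) : n * (a * b) * n⁻¹ = (n * a * n⁻¹) * (n * b * n⁻¹) := by group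

private theorem lf_rf_sr {β : Root 6} (hβ : sr β = β) (s : Root 6) : rf β (sr s) = sr (rf β s) := by
  apply Subtype.ext
  have h1 : bf β.1 (sr s).1 = bf β.1 s.1 := by rw [← bf_sr β s, hβ]
  have h2 : sg β.1 = β.1 := by rw [← sr_val, hβ]
  rw [rf_val, h1, sr_val, sr_val, rf_val, sg_sub]
  have h3 : sg (sv (bf β.1 s.1) β.1) = sv (bf β.1 s.1) (sg β.1) := by
    apply Prod.ext
    · rfl
    · funext k
      simp only [sg, sv]
      ring
  rw [h3, h2]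

private theorem lf_zpow {e : K} (he : e * e = 1) (k : ℤ) : e ^ k * e ^ k = 1 := by
  rw [← mul_zpow, he, one_zpow]

private theorem lf_c (h : Stb K 6 x) (β s : Root 6) (b : K) :
    ThK.nn x β 1 * x s b * (ThK.nn x β 1)⁻¹ = x (rf β s) (eps K β.1 s.1 ^ bf β.1 s.1 * b) := by
  rw [nn_conj (Or.inl rfl) h β s one_ne_zero b, one_zpow, mul_one]
  rfl

private theorem lf_sign {β : Root 6} (hβ : sr β = β) {s : Root 6} (hs : sr s ≠ s) :
    eps K β.1 (sr s).1 ^ bf β.1 s.1 * et K s.1 = et K (rf β s).1 * eps K β.1 s.1 ^ bf β.1 s.1 := by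
  have h2 : sg β.1 = β.1 := by rw [← sr_val, hβ]
  have hne1 : s ≠ β := by
    rintro rfl
    exact hs hβ
  have hne2 : s ≠ -β := by
    rintro rfl
    exact hs (by rw [sr_neg, hβ])
  have hbβ : et K β.1 = 1 := et_fix hβ
  have hge := bf_ge (by norm_num) β s
  have hle := bf_le (by norm_num) β s
  have hc : bf β.1 s.1 = 0 ∨ bf β.1 s.1 = -1 ∨ bf β.1 s.1 = 1 := by
    have h3 : bf β.1 s.1 ≠ -2 := fun h => hne2 (hge.2 h)
    have h4 : bf β.1 s.1 ≠ 2 := fun h => hne1 (hle.2 h)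
    have h5 := hge.1
    have h6 := hle.1
    omega
  have hinv : ∀ v w : Vec 6, eps K v w ^ (-1 : ℤ) = eps K v w := by
    intro v w
    rw [zpow_neg_one]
    exact inv_eq_of_mul_eq_one_left (eps_mul_self v w)
  rcases hc with hc | hc | hc
  · have hr : (rf β s).1 = s.1 := by
      rw [rf_val, hc]
      apply Prod.ext
      · simp [sv]
      · funext k
        simp [sv]
    rw [hc, zpow_zero, zpow_zero, hr, one_mul, mul_one]
  · obtain ⟨t, ht⟩ := root_add hc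
    have hr : (rf β s).1 = t.1 := by
      rw [rf_val, hc, ht]
      apply Prod.ext
      · simp [sv]
        ring
      · funext k
        simp [sv]
        ring
    have hA := et_add (K := K) ht
    rw [hbβ, one_mul, h2] at hA
    rw [hc, hinv, hinv, hr, hA, sr_val]
    ring
  · obtain ⟨t, ht⟩ := root_sub hc
    have hr : (rf β s).1 = t.1 := by
      rw [rf_val, hc, ht]
      apply Prod.ext
      · simp [sv]
      · funext k
        simp [sv]
    have ht' : s.1 = β.1 + t.1 := by rw [ht]; abel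
    have hA := et_add (K := K) ht'
    rw [hbβ, one_mul, h2] at hA
    have hself : eps K β.1 β.1 = -1 := eps_self β.2
    have e1 : eps K β.1 s.1 = -eps K β.1 t.1 := by
      rw [ht', eps_add_right, hself]
      ring
    have e2 : eps K β.1 (sr s).1 = -eps K β.1 (sg t.1) := by
      rw [sr_val, ht', sg_add, h2, eps_add_right, hself]
      ring
    have s1 := eps_mul_self (K := K) β.1 t.1
    have s2 := eps_mul_self (K := K) β.1 (sg t.1)
    rw [hc, zpow_one, zpow_one, hr, e1, e2]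
    have hB : et K s.1 = et K t.1 * eps K β.1 (sg t.1) * eps K β.1 t.1 := by
      rw [← hA]
      linear_combination -(et K s.1) * s1
    rw [hB]
    linear_combination -(et K t.1 * eps K β.1 t.1) * s2

private theorem lf_step (h : Stb K 6 x) {β : Root 6} (hβ : sr β = β) (s : Root 6) : ∃ c : K, c * c = 1 ∧ τ c = c ∧
    ∀ b, ThK.nn x β 1 * yt x τ s b * (ThK.nn x β 1)⁻¹ = yt x τ (rf β s) (c * b) := by
  have hτe : ∀ v w : Vec 6, τ (eps K v w) = eps K v w := by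
    intro v w
    simp only [eps, ep, Units.val_zpow_eq_zpow_val, Units.val_neg, Units.val_one, map_zpow₀, map_neg, map_one]
  refine ⟨eps K β.1 s.1 ^ bf β.1 s.1, lf_zpow (eps_mul_self _ _) _, ?_, fun b => ?_⟩
  · rw [map_zpow₀, hτe]
  · by_cases hs : sr s = s
    · have hs' : sr (rf β s) = rf β s := by rw [← lf_rf_sr hβ, hs]
      rw [yt_fix x τ hs, yt_fix x τ hs', lf_c h]
    · have hs' : sr (rf β s) ≠ rf β s := by
        rw [← lf_rf_sr hβ]
        intro he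
        apply hs
        rw [← rf_rf β (sr s), he, rf_rf]
      have h1 : bf β.1 (sr s).1 = bf β.1 s.1 := by rw [← bf_sr β s, hβ]
      rw [yt_mov x τ hs, yt_mov x τ hs', lf_conj_mul, lf_c h, lf_c h, lf_rf_sr hβ, h1, map_mul, map_zpow₀, hτe]
      congr 2
      linear_combination τ b * lf_sign (K := K) hβ hs

private theorem lf_bR (i : Fin 4) : sr (bR i) = bR i := by
  apply Subtype.ext
  fin_cases i <;> decide

private theorem lf_four (r : Root 6) : rf (bR 0) (rf (bR 1) (rf (bR 2) (rf (bR 3) r))) = -sr r := by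
  have hsum := r.2.1
  rw [Fin.sum_univ_six] at hsum
  apply Subtype.ext
  apply Prod.ext
  · simp [rf_val, bR, r3, th6, bf, sv, sr_val, sg, Fin.sum_univ_six]
    linarith
  · funext k
    fin_cases k <;> simp [rf_val, bR, r3, th6, bf, sv, sr_val, sg, Fin.sum_univ_six, Fin.rev] <;> linarith

private theorem lf_conj4 (a b c d g : G) : a * b * c * d * g * (a * b * c * d)⁻¹ = a * (b * (c * (d * g * d⁻¹) * c⁻¹) * b⁻¹) * a⁻¹ := by group

/-- MODULE lf. `nn_conj` four times (`ep ^ bf`, `a = 1`); the product of the four (commuting) reflections is `s ↦ s - ∑ (β, s) β = - sg s`: for `s = (d; m)`: `(e_5 - e_0, s) = m_5 - m_0`, .., `(θ, s) = ∑ m - 2 d = d`. -/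
theorem n0_conj (h : Stb K 6 x) (r : Root 6) : ∃ c : K, c * c = 1 ∧ ∀ b, n0 x * x r b * (n0 x)⁻¹ = x (-sr r) (c * b) := by
  have he : ∀ v w : Vec 6, ∀ k : ℤ, eps K v w ^ k * eps K v w ^ k = 1 := fun v w k => lf_zpow (eps_mul_self _ _) _
  refine ⟨eps K (bR 0).1 (rf (bR 1) (rf (bR 2) (rf (bR 3) r))).1 ^ bf (bR 0).1 (rf (bR 1) (rf (bR 2) (rf (bR 3) r))).1 *
    (eps K (bR 1).1 (rf (bR 2) (rf (bR 3) r)).1 ^ bf (bR 1).1 (rf (bR 2) (rf (bR 3) r)).1 *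
    (eps K (bR 2).1 (rf (bR 3) r).1 ^ bf (bR 2).1 (rf (bR 3) r).1 *
    (eps K (bR 3).1 r.1 ^ bf (bR 3).1 r.1))), ?_, fun b => ?_⟩
  · have h0 := he (bR 0).1 (rf (bR 1) (rf (bR 2) (rf (bR 3) r))).1 (bf (bR 0).1 (rf (bR 1) (rf (bR 2) (rf (bR 3) r))).1)
    have h1 := he (bR 1).1 (rf (bR 2) (rf (bR 3) r)).1 (bf (bR 1).1 (rf (bR 2) (rf (bR 3) r)).1)
    have h2 := he (bR 2).1 (rf (bR 3) r).1 (bf (bR 2).1 (rf (bR 3) r).1)
    have h3 := he (bR 3).1 r.1 (bf (bR 3).1 r.1)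
    rw [mul_mul_mul_comm, h0, mul_mul_mul_comm, h1, mul_mul_mul_comm, h2, h3]
    ring
  · rw [n0, lf_conj4, lf_c h, lf_c h, lf_c h, lf_c h, lf_four, mul_assoc, mul_assoc, mul_assoc]

/-- one fixed root `β` (`sr β = β`): `nn x β 1 * yt x τ s b * (nn x β 1)⁻¹ = yt x τ (rf β s) (± b)`: the signs `eps(β, s) ^ bf β s` and `eps(β, sg s) ^ bf β s` differ by `η_s η_(rf β s)` (`et_add`, `et_fix`: `bf β s = -1`: `t = β + s`; `bf β s = 1`: `s = β + t`; `0`, `± 2`: `rf β s = ± s`);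
then four times -/
theorem n0_yt (h : Stb K 6 x) (hτ : ∀ a, τ (τ a) = a) (r : Root 6) : ∃ c : K, c * c = 1 ∧ τ c = c ∧ ∀ b, n0 x * yt x τ r b * (n0 x)⁻¹ = yt x τ (-sr r) (c * b) := by
  obtain ⟨c3, q3, t3, e3⟩ := lf_step (τ := τ) h (lf_bR 3) r
  obtain ⟨c2, q2, t2, e2⟩ := lf_step (τ := τ) h (lf_bR 2) (rf (bR 3) r)
  obtain ⟨c1, q1, t1, e1⟩ := lf_step (τ := τ) h (lf_bR 1) (rf (bR 2) (rf (bR 3) r))
  obtain ⟨c0, q0, t0, e0⟩ := lf_step (τ := τ) h (lf_bR 0) (rf (bR 1) (rf (bR 2) (rf (bR 3) r)))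
  refine ⟨c0 * (c1 * (c2 * c3)), ?_, ?_, fun b => ?_⟩
  · rw [mul_mul_mul_comm, q0, mul_mul_mul_comm, q1, mul_mul_mul_comm, q2, q3]
    ring
  · rw [map_mul, map_mul, map_mul, t0, t1, t2, t3]
  · rw [n0, lf_conj4, e3, e2, e1, e0, lf_four, mul_assoc, mul_assoc, mul_assoc]

theorem n0_mem (x : Root 6 → K → G) (τ : K →+* K) : n0 x ∈ Sy x τ fun _ => True := by
  have hm : ∀ i, ThK.nn x (bR i) 1 ∈ Sy x τ fun _ => True := by
    intro i
    have hi : sr (bR i) = bR i := lf_bR i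
    have hi' : sr (-bR i) = -bR i := by rw [sr_neg, hi]
    have m1 : x (bR i) 1 ∈ Sy x τ fun _ => True := by
      rw [← yt_fix x τ hi]
      exact Sy.mem trivial fun _ => map_one τ
    have m2 : x (-bR i) 1⁻¹ ∈ Sy x τ fun _ => True := by
      rw [← yt_fix x τ hi']
      exact Sy.mem trivial fun _ => by rw [inv_one, map_one]
    exact mul_mem (mul_mem m1 m2) m1
  exact mul_mem (mul_mem (mul_mem (hm 0) (hm 1)) (hm 2)) (hm 3)
-- END lf

-- BEGIN lg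
/-- the reflection on vectors -/
private def lg_rv (β s : Vec 6) : Vec 6 := s - sv (bf β s) β

/-- the exponent of the sign of `n_0` -/
private def lg_E (v : Vec 6) : ℤ :=
  bl (bR 0).1 (lg_rv (bR 1).1 (lg_rv (bR 2).1 (lg_rv (bR 3).1 v))) * bf (bR 0).1 (lg_rv (bR 1).1 (lg_rv (bR 2).1 (lg_rv (bR 3).1 v))) +
  (bl (bR 1).1 (lg_rv (bR 2).1 (lg_rv (bR 3).1 v)) * bf (bR 1).1 (lg_rv (bR 2).1 (lg_rv (bR 3).1 v)) +
  (bl (bR 2).1 (lg_rv (bR 3).1 v) * bf (bR 2).1 (lg_rv (bR 3).1 v) + bl (bR 3).1 v * bf (bR 3).1 v))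

private theorem lg_four (r : Root 6) : rf (bR 0) (rf (bR 1) (rf (bR 2) (rf (bR 3) r))) = -sr r := by
  have hsum := r.2.1
  rw [Fin.sum_univ_six] at hsum
  apply Subtype.ext
  apply Prod.ext
  · simp [rf_val, bR, r3, th6, bf, sv, sr_val, sg, Fin.sum_univ_six]
    linarith
  · funext k
    fin_cases k <;> simp [rf_val, bR, r3, th6, bf, sv, sr_val, sg, Fin.sum_univ_six, Fin.rev] <;> linarith

private theorem lg_conj4 (a b c d g : G) : a * b * c * d * g * (a * b * c * d)⁻¹ = a * (b * (c * (d * g * d⁻¹) * c⁻¹) * b⁻¹) * a⁻¹ := by group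

private theorem lg_step (h : Stb K 6 x) (β s : Root 6) (b : K) :
    ThK.nn x β 1 * x s b * (ThK.nn x β 1)⁻¹ = x (rf β s) ((((-1 : Kˣ) ^ (bl β.1 s.1 * bf β.1 s.1) : Kˣ) : K) * b) := by
  rw [nn_conj (Or.inl rfl) h β s one_ne_zero b, one_zpow, mul_one, zpow_mul, Units.val_zpow_eq_zpow_val]
  rfl

private theorem lg_conj (h : Stb K 6 x) (r : Root 6) (b : K) : n0 x * x r b * (n0 x)⁻¹ = x (-sr r) ((((-1 : Kˣ) ^ lg_E r.1 : Kˣ) : K) * b) := by
  rw [n0, lg_conj4, lg_step h, lg_step h, lg_step h, lg_step h, lg_four]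
  refine congrArg (x _) ?_
  rw [← mul_assoc, ← mul_assoc, ← mul_assoc, ← Units.val_mul, ← Units.val_mul, ← Units.val_mul, ← zpow_add, ← zpow_add, ← zpow_add, add_assoc, add_assoc]
  rfl

private theorem lg_odd (h : Stb K 6 x) {r : Root 6} (hr : lg_E r.1 % 2 = 1) (b : K) : n0 x * x r b * (n0 x)⁻¹ = x (-sr r) (-b) := by
  rw [lg_conj h, (Int.odd_iff.2 hr).neg_one_zpow]
  refine congrArg (x _) ?_
  rw [Units.val_neg, Units.val_one, neg_one_mul]

private theorem lg_eA : ∀ i j : Fin 3, i ≠ j → lg_E (uA i - uA j) % 2 = 1 := by decide +kernel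

private theorem lg_eM : ∀ i j : Fin 3, i ≠ j → lg_E (sg (uA i - uA j)) % 2 = 1 := by decide +kernel

private theorem lg_eG : lg_E gm.1 % 2 = 1 ∧ lg_E (-gm.1) % 2 = 1 := by decide +kernel

private theorem lg_ne : ∀ i j : Fin 3, i ≠ j → sg (uA i - uA j) ≠ uA i - uA j := by decide +kernel

private theorem lg_el0 {F : Type*} [Field F] {m : ℕ} {i j : Fin m} (hij : i ≠ j) (a : F) : (el F i j a)⁻¹ = el F i j (-a) := by
  have s := el_sta F m
  have e0 : el F i j 0 = 1 := by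
    have := s.add i j hij 0 0
    rw [add_zero] at this
    exact (mul_eq_left.1 this.symm)
  refine inv_eq_of_mul_eq_one_right ?_
  rw [← s.add i j hij, add_neg_cancel, e0]

private theorem lg_elv {F : Type*} [Field F] {m : ℕ} {i j : Fin m} (h : i ≠ j) (a : F) : (el F i j a).1 = Matrix.transvection i j a := by
  have h1 : el F i j a = ⟨Matrix.transvection i j a, Matrix.det_transvection_of_ne i j h a⟩ := dif_pos h
  rw [h1]

private theorem lg_iT {F : Type*} [Field F] {m : ℕ} {i j : Fin m} (hij : i ≠ j) (a : F) : iT m (el F i j a) = el F j i (-a) := by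
  apply Subtype.ext
  show ((el F i j a)⁻¹).1.transpose = _
  rw [lg_el0 hij, lg_elv hij, lg_elv hij.symm]
  simp only [Matrix.transvection, Matrix.transpose_add, Matrix.transpose_one, Matrix.transpose_single]

private theorem lg_mapf {F L : Type*} [Field F] [Field L] (f : F →+* L) {m : ℕ} {i j : Fin m} (h : i ≠ j) (a : F) :
    Matrix.SpecialLinearGroup.map f (el F i j a) = el L i j (f a) := by
  apply Subtype.ext
  have h1 : (Matrix.SpecialLinearGroup.map f (el F i j a)).1 = ((el F i j a).1).map f := rfl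
  rw [h1, lg_elv h, lg_elv h]
  ext p q
  rw [Matrix.map_apply]
  simp only [Matrix.transvection, Matrix.add_apply, Matrix.one_apply, Matrix.single_apply, map_add]
  split_ifs <;> simp

private theorem lg_sg : ∀ i j : Fin 3, i ≠ j → ((1 + (uA i - uA j).1) * (1 + ht (uA i - uA j)) + (![0, 1, 0] : Fin 3 → ℤ) i + (![0, 1, 0] : Fin 3 → ℤ) j) % 2 = 1 := by
  decide +kernel

private theorem lg_sD (i : Fin 3) : sD K i = (-1 : Kˣ) ^ (![0, 1, 0] : Fin 3 → ℤ) i := by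
  fin_cases i <;> simp [sD]

private theorem lg_sq (n : ℤ) : (-1 : Kˣ) ^ n * (-1 : Kˣ) ^ n = 1 := by
  rw [← mul_zpow, neg_mul_neg, one_mul, one_zpow]

/-- `η = - δ_i δ_j` -/
private theorem lg_sign {i j : Fin 3} (h : i ≠ j) : (sD K j : K) * (((sD K i)⁻¹ : Kˣ) : K) = -et K (uA i - uA j) := by
  have h1 := (Int.odd_iff.2 (lg_sg i j h)).neg_one_zpow (α := Kˣ)
  rw [zpow_add, zpow_add] at h1
  have h2 : sD K j * (sD K i)⁻¹ = -(-1 : Kˣ) ^ ((1 + (uA i - uA j).1) * (1 + ht (uA i - uA j))) := by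
    rw [lg_sD, lg_sD]
    have e1 := lg_sq (K := K) ((![0, 1, 0] : Fin 3 → ℤ) i)
    have e2 := lg_sq (K := K) ((![0, 1, 0] : Fin 3 → ℤ) j)
    have e3 := lg_sq (K := K) ((1 + (uA i - uA j).1) * (1 + ht (uA i - uA j)))
    rw [inv_eq_of_mul_eq_one_right e1]
    calc (-1 : Kˣ) ^ (![0, 1, 0] : Fin 3 → ℤ) j * (-1 : Kˣ) ^ (![0, 1, 0] : Fin 3 → ℤ) i
        = ((-1 : Kˣ) ^ ((1 + (uA i - uA j).1) * (1 + ht (uA i - uA j))) * (-1 : Kˣ) ^ ((1 + (uA i - uA j).1) * (1 + ht (uA i - uA j)))) *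
          ((-1 : Kˣ) ^ (![0, 1, 0] : Fin 3 → ℤ) j * (-1 : Kˣ) ^ (![0, 1, 0] : Fin 3 → ℤ) i) := by rw [e3, one_mul]
      _ = (-1 : Kˣ) ^ ((1 + (uA i - uA j).1) * (1 + ht (uA i - uA j))) *
          ((-1 : Kˣ) ^ ((1 + (uA i - uA j).1) * (1 + ht (uA i - uA j))) * (-1 : Kˣ) ^ (![0, 1, 0] : Fin 3 → ℤ) i * (-1 : Kˣ) ^ (![0, 1, 0] : Fin 3 → ℤ) j) := by
        simp only [mul_assoc, mul_comm ((-1 : Kˣ) ^ (![0, 1, 0] : Fin 3 → ℤ) j)]
      _ = _ := by rw [h1, mul_neg, mul_one]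
  rw [← Units.val_mul, h2, Units.val_neg]
  rfl

/-- MODULE lg. The action of `n_0` on the Levi subgroup.  For `r = e_i - e_j` (`i, j ≤ 2`) the sign `c` of `n0_conj` is `-1` (checked by computer), the same for `sg r` and for `gm`; for `r3` it is `1`: `nn_conj` with explicit exponents (`decide`).  `n0 F1 (el i j a) n0⁻¹ = F2 (el j i (..))`, ...; both sides of the
claims are homomorphisms in `M` (`el_gen`, closure induction, or `pres_ext`).  On `el i j a`: `iT (el i j a) = el j i (-a)`; `n0 gg(el i j a) n0⁻¹ = yt (-sr r) (- cf a) = yt (-r) (- η_r τ(cf a))` (`yt_sr`) `= gg (el j i (- δ_i δ_j τ a))`, because `η_r = - δ_i δ_j`, `cf j i = - cf i j`. -/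
theorem n0_gg (h : Stb K 6 x) (hτ : ∀ a, τ (τ a) = a) (H : L3 x F1 F2 F3) (M : Matrix.SpecialLinearGroup (Fin 3) K) :
    n0 x * gg τ F1 F2 M * (n0 x)⁻¹ = gg τ F1 F2 (cjd (sD K) (iT 3 (Matrix.SpecialLinearGroup.map τ M))) := by
  have e : (MulAut.conj (n0 x)).toMonoidHom.comp (⟨⟨gg τ F1 F2, gg_one⟩, gg_mul h H⟩ : Matrix.SpecialLinearGroup (Fin 3) K →* G) =
      (⟨⟨gg τ F1 F2, gg_one⟩, gg_mul h H⟩ : Matrix.SpecialLinearGroup (Fin 3) K →* G).comp ((cjd (sD K)).comp ((iT 3).comp (Matrix.SpecialLinearGroup.map τ))) := by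
    refine pres_ext fun i j hij a => ?_
    show n0 x * gg τ F1 F2 (el K i j a) * (n0 x)⁻¹ = gg τ F1 F2 (cjd (sD K) (iT 3 (Matrix.SpecialLinearGroup.map τ (el K i j a))))
    have hR : IsR (uA i - uA j) := (fam_uA i j hij).1
    have hR' : (-(⟨uA i - uA j, hR⟩ : Root 6)).1 = uA j - uA i := by
      show -(uA i - uA j) = _
      rw [neg_sub]
    have hne : sr (⟨uA i - uA j, hR⟩ : Root 6) ≠ ⟨uA i - uA j, hR⟩ := fun e => lg_ne i j hij (congrArg Subtype.val e)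
    have hne' : sr (-(⟨uA i - uA j, hR⟩ : Root 6)) ≠ -⟨uA i - uA j, hR⟩ := by
      rw [sr_neg]
      intro e
      refine hne ?_
      have := congrArg (fun z : Root 6 => -z) e
      simpa using this
    rw [lg_mapf τ hij, lg_iT hij, cjd_el _ _ _ hij.symm, gg_el h H hij.symm hR', gg_el h H (r := ⟨uA i - uA j, hR⟩) hij rfl, yt_mov x τ hne, yt_mov x τ hne']
    have t1 : ∀ g k : G, n0 x * (g * k) * (n0 x)⁻¹ = (n0 x * g * (n0 x)⁻¹) * (n0 x * k * (n0 x)⁻¹) := fun g k => by group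
    have o1 := fun b : K => lg_odd h (r := ⟨uA i - uA j, hR⟩) (lg_eA i j hij) b
    have o2 := fun b : K => lg_odd h (r := sr ⟨uA i - uA j, hR⟩) (lg_eM i j hij) b
    rw [t1, o1, o2, sr_sr, sr_neg]
    have hc : 0 ≤ bf (-sr (⟨uA i - uA j, hR⟩ : Root 6)).1 (-(⟨uA i - uA j, hR⟩ : Root 6)).1 := by
      have e1 : bf (-sr (⟨uA i - uA j, hR⟩ : Root 6)).1 (-(⟨uA i - uA j, hR⟩ : Root 6)).1 = bf (⟨uA i - uA j, hR⟩ : Root 6).1 (sr (⟨uA i - uA j, hR⟩ : Root 6)).1 := by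
        rw [neg_val, neg_val, bf_neg_left, bf_neg_right, neg_neg, bf_comm]
      rw [e1]
      rcases bf_self_sr (⟨uA i - uA j, hR⟩ : Root 6) with h2 | h2
      · exact absurd h2 hne
      · rw [h2]
    rw [h.commute hc]
    have hs := lg_sign (K := K) hij
    have hsw : cf K uA j i = -cf K uA i j := cf_swap fam_uA hij
    have hcf : τ (cf K uA i j) = cf K uA i j := eps_map τ _ _
    have het : et K (-(⟨uA i - uA j, hR⟩ : Root 6)).1 = et K (uA i - uA j) := et_neg _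
    have hett : τ (et K (uA i - uA j)) = et K (uA i - uA j) := et_map τ _
    have hsq : et K (uA i - uA j) * et K (uA i - uA j) = 1 := et_sq _
    have k1 : cf K uA j i * ((sD K j : K) * -τ a * (((sD K i)⁻¹ : Kˣ) : K)) = -(et K (uA i - uA j) * τ (cf K uA i j * a)) := by
      rw [map_mul, hcf, hsw]
      calc -cf K uA i j * ((sD K j : K) * -τ a * (((sD K i)⁻¹ : Kˣ) : K)) = cf K uA i j * τ a * ((sD K j : K) * (((sD K i)⁻¹ : Kˣ) : K)) := by ring
        _ = _ := by rw [hs]; ring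
    have k2 : et K (uA i - uA j) * τ (-(et K (uA i - uA j) * τ (cf K uA i j * a))) = -(cf K uA i j * a) := by
      rw [map_neg, map_mul τ (et K (uA i - uA j)) (τ (cf K uA i j * a)), hett, hτ, mul_neg, ← mul_assoc, hsq, one_mul]
    rw [k1, het, k2]
  exact DFunLike.congr_fun e M

theorem n0_gf (h : Stb K 6 x) (H : L3 x F1 F2 F3) (A : Matrix.SpecialLinearGroup (Fin 2) (Fx τ)) : n0 x * gf τ F3 A * (n0 x)⁻¹ = gf τ F3 (cjd (d2 (Fx τ)) (iT 2 A)) := by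
  have e : (MulAut.conj (n0 x)).toMonoidHom.comp (F3.comp (em τ)) = (F3.comp (em τ)).comp ((cjd (d2 (Fx τ))).comp (iT 2)) := by
    refine pres_ext fun i j hij a => ?_
    show n0 x * gf τ F3 (el (Fx τ) i j a) * (n0 x)⁻¹ = gf τ F3 (cjd (d2 (Fx τ)) (iT 2 (el (Fx τ) i j a)))
    rw [lg_iT hij, cjd_el _ _ _ hij.symm]
    have sm : sr (-gm) = -gm := by rw [sr_neg, sr_gm]
    fin_cases i <;> fin_cases j
    · exact absurd rfl hij
    · show n0 x * gf τ F3 (el (Fx τ) 0 1 a) * (n0 x)⁻¹ = gf τ F3 (el (Fx τ) 1 0 _)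
      rw [gf_el01 H, gf_el10 H, yt_fix x τ sr_gm, yt_fix x τ sm, lg_odd h (r := gm) lg_eG.1, sr_gm]
      refine congrArg (x _) ?_
      simp [d2]
    · show n0 x * gf τ F3 (el (Fx τ) 1 0 a) * (n0 x)⁻¹ = gf τ F3 (el (Fx τ) 0 1 _)
      rw [gf_el01 H, gf_el10 H, yt_fix x τ sr_gm, yt_fix x τ sm, lg_odd h (r := -gm) lg_eG.2, sm, neg_neg', neg_neg]
      refine congrArg (x _) ?_
      simp [d2]
    · exact absurd rfl hij
  exact DFunLike.congr_fun e A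

/-- `nn_hh` four times and `hh_neg`: `hh x (-r3) (-1) = hh x r3 (-1)⁻¹` -/
theorem n0_h3 (h : Stb K 6 x) : n0 x * hh x r3 (-1) * (n0 x)⁻¹ = hh x r3 (-1) := by
  have n1 : (-1 : K) ≠ 0 := neg_ne_zero.mpr one_ne_zero
  have e1 : ∀ β s : Root 6, ThK.nn x β 1 * hh x s (-1) * (ThK.nn x β 1)⁻¹ = hh x (rf β s) (-1) := fun β s => nn_hh (Or.inl rfl) h β s one_ne_zero n1
  rw [n0, lg_conj4, e1, e1, e1, e1, lg_four, sr_r3, hh_neg (Or.inl rfl) h r3 n1, inv_neg, inv_one]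

theorem n0_WW (h : Stb K 6 x) (hτ : ∀ a, τ (τ a) = a) (H : L3 x F1 F2 F3) (A : Matrix.SpecialLinearGroup (Fin 2) (Fx τ)) (B : Matrix.SpecialLinearGroup (Fin 3) K) :
    n0 x * WW x τ F1 F2 F3 A B * (n0 x)⁻¹ = WW x τ F1 F2 F3 (cjd (d2 (Fx τ)) (iT 2 A)) (cjd (sD K) (iT 3 (Matrix.SpecialLinearGroup.map τ B))) := by
  show n0 x * (gf τ F3 A * gg τ F1 F2 B * hh x r3 (-1)) * (n0 x)⁻¹ = gf τ F3 _ * gg τ F1 F2 _ * hh x r3 (-1)
  rw [← n0_gf h H, ← n0_gg h hτ H]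
  conv_rhs => rw [← n0_h3 h]
  group
-- END lg

-- BEGIN lh
/-- MODULE lh. `n_0` exchanges the filtrations of `x` and `op x` (`n0_yt`; `yt_op`; `l6 (sg r) = l6 r`; `n0⁻¹` also: the map `r ↦ - sr r` is an involution and `n0⁻¹ yt (-sr r) b n0 = yt r (c⁻¹ b)`). -/
theorem n0_Uy (h : Stb K 6 x) (hτ : ∀ a, τ (τ a) = a) (k : ℕ) (g : G) : n0 x * g * (n0 x)⁻¹ ∈ Uy (op x) τ l6 k ↔ g ∈ Uy x τ l6 k := by
  have hA : ∀ g ∈ Uy x τ l6 k, n0 x * g * (n0 x)⁻¹ ∈ Uy (op x) τ l6 k := by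
    have key : Uy x τ l6 k ≤ (Uy (op x) τ l6 k).comap (MulAut.conj (n0 x)).toMonoidHom := by
      refine (Subgroup.closure_le _).mpr ?_
      rintro g ⟨r, a, hr, ha, rfl⟩
      obtain ⟨c, -, hc, hn⟩ := n0_yt h hτ r
      show n0 x * yt x τ r a * (n0 x)⁻¹ ∈ Uy (op x) τ l6 k
      rw [hn a, ← yt_op x τ (sr r)]
      refine Subgroup.subset_closure ⟨sr r, c * a, ?_, ?_, rfl⟩
      · show (k : ℤ) ≤ l6 (sr r).1
        rw [sr_val, sgl6]
        exact hr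
      · intro h2
        rw [sr_sr] at h2
        rw [map_mul, hc, ha h2.symm]
    exact fun g hg => key hg
  have hB : ∀ g ∈ Uy (op x) τ l6 k, (n0 x)⁻¹ * g * n0 x ∈ Uy x τ l6 k := by
    have key : Uy (op x) τ l6 k ≤ (Uy x τ l6 k).comap (MulAut.conj (n0 x)⁻¹).toMonoidHom := by
      refine (Subgroup.closure_le _).mpr ?_
      rintro g ⟨r, a, hr, ha, rfl⟩
      obtain ⟨c, hcc, hc, hn⟩ := n0_yt h hτ (sr r)
      show (n0 x)⁻¹ * yt (op x) τ r a * (n0 x)⁻¹⁻¹ ∈ Uy x τ l6 k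
      have e := hn (c * a)
      rw [sr_sr, ← mul_assoc, hcc, one_mul, ← yt_op x τ r] at e
      have e2 : (n0 x)⁻¹ * yt (op x) τ r a * (n0 x)⁻¹⁻¹ = yt x τ (sr r) (c * a) := by
        rw [← e]
        group
      rw [e2]
      refine Subgroup.subset_closure ⟨sr r, c * a, ?_, ?_, rfl⟩
      · show (k : ℤ) ≤ l6 (sr r).1
        rw [sr_val, sgl6]
        exact hr
      · intro h2
        rw [sr_sr] at h2
        rw [map_mul, hc, ha h2.symm]
    intro g hg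
    have h3 : (n0 x)⁻¹ * g * (n0 x)⁻¹⁻¹ ∈ Uy x τ l6 k := key hg
    rwa [inv_inv] at h3
  constructor
  · intro hg
    have h3 := hB _ hg
    have e : (n0 x)⁻¹ * (n0 x * g * (n0 x)⁻¹) * n0 x = g := by group
    rwa [e] at h3
  · exact hA g

/-- transport of `SurY` with `n0_Uy` -/
theorem surY_n0 (h : Stb K 6 x) (hτ : ∀ a, τ (τ a) = a) {b : G} {k : ℕ} (hs : SurY x τ l6 b k) : SurY (op x) τ l6 (n0 x * b * (n0 x)⁻¹) k := by
  intro v hv
  have e1 : v = n0 x * ((n0 x)⁻¹ * v * n0 x) * (n0 x)⁻¹ := by group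
  rw [e1, n0_Uy h hτ] at hv
  obtain ⟨y, hy, h3⟩ := hs _ hv
  refine ⟨n0 x * y * (n0 x)⁻¹, (n0_Uy h hτ k y).mpr hy, ?_⟩
  have e2 : (n0 x * y * (n0 x)⁻¹)⁻¹ * v * (n0 x * b * (n0 x)⁻¹ * (n0 x * y * (n0 x)⁻¹) * (n0 x * b * (n0 x)⁻¹)⁻¹) =
      n0 x * (y⁻¹ * ((n0 x)⁻¹ * v * n0 x) * (b * y * b⁻¹)) * (n0 x)⁻¹ := by group
  rw [e2]
  exact (n0_Uy h hτ (k + 1) _).mpr h3
-- END lh

section
variable {A : Type*} [CommGroup A] {k : ℕ}

-- BEGIN li
private theorem li_even : ∀ i j : Fin 3, i ≠ j →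
    (bl (uM i - uM j) (uM j) + (![0, 1, 0] : Fin 3 → ℤ) i + (![0, 1, 0] : Fin 3 → ℤ) j + (1 + (uA i - uA j).1) * (1 + ht (uA i - uA j)) + bl (uA i - uA j) (uA j)) % 2 = 0 := by
  decide +kernel

private theorem li_ne : ∀ i j : Fin 3, i ≠ j → sg (uA i - uA j) ≠ uA i - uA j := by
  decide +kernel

private theorem li_sD (i : Fin 3) : sD K i = (-1 : Kˣ) ^ (![0, 1, 0] : Fin 3 → ℤ) i := by
  fin_cases i <;> simp [sD]

private theorem li_inv (n : ℤ) : ((-1 : Kˣ) ^ n)⁻¹ = (-1 : Kˣ) ^ n := by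
  rcases Int.even_or_odd n with h | h
  · rw [h.neg_one_zpow, inv_one]
  · rw [h.neg_one_zpow, inv_neg, inv_one]

private theorem li_pow {m n : ℤ} (h : (m + n) % 2 = 0) : (-1 : Kˣ) ^ m = (-1 : Kˣ) ^ n := by
  have h1 : (-1 : Kˣ) ^ (m + n) = 1 := (Int.even_iff.2 h).neg_one_zpow
  rw [zpow_add] at h1
  rw [← li_inv n]
  exact eq_inv_of_mul_eq_one_left h1

/-- the sign identity -/
private theorem li_sign {i j : Fin 3} (h : i ≠ j) :
    cf K uM i j * ((sD K i : Kˣ) : K) * (((sD K j)⁻¹ : Kˣ) : K) = et K (uA i - uA j) * cf K uA i j := by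
  have h1 : (-1 : Kˣ) ^ (bl (uM i - uM j) (uM j) + (![0, 1, 0] : Fin 3 → ℤ) i + (![0, 1, 0] : Fin 3 → ℤ) j) =
      (-1 : Kˣ) ^ ((1 + (uA i - uA j).1) * (1 + ht (uA i - uA j)) + bl (uA i - uA j) (uA j)) := by
    apply li_pow
    have h2 := li_even i j h
    rw [← add_assoc]
    exact h2
  rw [zpow_add, zpow_add, zpow_add] at h1
  unfold cf eps et ep
  rw [li_sD, li_sD, li_inv, ← Units.val_mul, ← Units.val_mul, ← Units.val_mul, h1]

private theorem li_elv {F : Type*} [Field F] {m : ℕ} {i j : Fin m} (h : i ≠ j) (a : F) : (el F i j a).1 = Matrix.transvection i j a := by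
  have h1 : el F i j a = ⟨Matrix.transvection i j a, Matrix.det_transvection_of_ne i j h a⟩ := dif_pos h
  rw [h1]

private theorem li_mapf {F L : Type*} [Field F] [Field L] (f : F →+* L) {m : ℕ} {i j : Fin m} (h : i ≠ j) (a : F) :
    Matrix.SpecialLinearGroup.map f (el F i j a) = el L i j (f a) := by
  apply Subtype.ext
  have h1 : (Matrix.SpecialLinearGroup.map f (el F i j a)).1 = ((el F i j a).1).map f := rfl
  rw [h1, li_elv h, li_elv h]
  ext p q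
  rw [Matrix.map_apply]
  simp only [Matrix.transvection, Matrix.add_apply, Matrix.one_apply, Matrix.single_apply, map_add]
  split_ifs <;> simp

/-- the two commuting images -/
private theorem li_comm (hk : 1 ≤ k) {R1 R2 : Matrix.SpecialLinearGroup (Fin 3) K →* (Module.End K (Rk l6 (k : ℤ) → K))ˣ} (h1 : IsRep R1 uA) (h2 : IsRep R2 uM)
    (M N : Matrix.SpecialLinearGroup (Fin 3) K) : R1 M * R2 N = R2 N * R1 M :=
  IsRep.comm (by norm_num) addl6 (by exact_mod_cast (Nat.one_le_iff_ne_zero.1 hk)) fam_uA fam_uM orth_AM h1 h2 M N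

/-- MODULE li. THE ACTION ON THE SECTIONS.  `F1`, `F2`, `F3` one by one do not normalize the twisted filtration, so take the generators: `gg (el i j a) = yt x τ r (cf a)` (`gg_el`), `ActY_y`, and `Ay l6 k τ r (cf a) = Ao (uA i - uA j) (cf a) * Ao (uM i - uM j) (η τ (cf a)) = R1 (el i j a) * R2 (tm τ (el i j a))` (`sg_uA`, `IsRep`,
the sign identity of `gg_el`; `sr r ≠ r`).  The map `M ↦ R1 M * R2 (tm τ M)` is a homomorphism (`IsRep.comm`, `orth_AM`); `el_gen`, closure induction, `ActY.one`, `ActY.mul`, `ActY.inv`. -/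
theorem act_gg [Fintype (Rk l6 (k : ℤ))] (hk : 1 ≤ k) (h : Stb K 6 x) (hτ : ∀ a, τ (τ a) = a) {π : Uy x τ l6 k →* A} (hπ : ∀ v, π v = 1 ↔ (v : G) ∈ Uy x τ l6 (k + 1)) (H : L3 x F1 F2 F3)
    {R1 R2 : Matrix.SpecialLinearGroup (Fin 3) K →* (Module.End K (Rk l6 (k : ℤ) → K))ˣ} (h1 : IsRep R1 uA) (h2 : IsRep R2 uM) (M : Matrix.SpecialLinearGroup (Fin 3) K) :
    ActY x τ π (gg τ F1 F2 M) (R1 M * R2 (tm τ M)) := by
  have hM : M ∈ Subgroup.closure {g : Matrix.SpecialLinearGroup (Fin 3) K | ∃ i j a, i ≠ j ∧ g = el K i j a} := by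
    rw [el_gen]
    exact Subgroup.mem_top M
  induction hM using Subgroup.closure_induction with
  | mem g hg =>
    obtain ⟨i, j, a, hij, rfl⟩ := hg
    have hr := fam_uA i j hij
    have hrs : sr (⟨uA i - uA j, hr.1⟩ : Root 6) ≠ ⟨uA i - uA j, hr.1⟩ := fun e => li_ne i j hij (congrArg Subtype.val e)
    have e1 : gg τ F1 F2 (el K i j a) = yt x τ ⟨uA i - uA j, hr.1⟩ (cf K uA i j * a) := gg_el h H hij (r := ⟨uA i - uA j, hr.1⟩) rfl a
    have e2 : R1 (el K i j a) * R2 (tm τ (el K i j a)) = Ay l6 (k : ℤ) τ (uA i - uA j) (cf K uA i j * a) := by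
      have e3 : tm τ (el K i j a) = el K i j ((sD K i : K) * τ a * (((sD K j)⁻¹ : Kˣ) : K)) := by
        show cjd (sD K) (Matrix.SpecialLinearGroup.map τ (el K i j a)) = _
        rw [li_mapf τ hij, cjd_el _ _ _ hij]
      rw [e3, h1 i j hij, h2 i j hij, Ay, if_neg (li_ne i j hij), sg_uA]
      congr 2
      have e5 := li_sign (K := K) hij
      have e6 : τ (cf K uA i j) = cf K uA i j := eps_map τ _ _
      rw [map_mul, e6]
      calc cf K uM i j * ((sD K i : K) * τ a * (((sD K j)⁻¹ : Kˣ) : K)) = (cf K uM i j * (sD K i : K) * (((sD K j)⁻¹ : Kˣ) : K)) * τ a := by ring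
        _ = et K (uA i - uA j) * (cf K uA i j * τ a) := by rw [e5]; ring
    rw [e1, e2]
    exact ActY_y addl6 sgl6 hk h hτ hπ ⟨uA i - uA j, hr.1⟩ hr.2 (Ok.of_ne hrs _)
  | one =>
    rw [gg_one, map_one, map_one, map_one, mul_one]
    exact ActY.one x π
  | mul g g' _ _ h3 h4 =>
    have e : R1 (g * g') * R2 (tm τ (g * g')) = R1 g * R2 (tm τ g) * (R1 g' * R2 (tm τ g')) := by
      rw [map_mul, map_mul, map_mul]
      calc R1 g * R1 g' * (R2 (tm τ g) * R2 (tm τ g')) = R1 g * (R1 g' * R2 (tm τ g)) * R2 (tm τ g') := by group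
        _ = R1 g * (R2 (tm τ g) * R1 g') * R2 (tm τ g') := by rw [li_comm hk h1 h2]
        _ = _ := by group
    rw [gg_mul h H, e]
    exact ActY.mul hk h3 h4
  | inv g _ h3 =>
    have e : R1 g⁻¹ * R2 (tm τ g⁻¹) = (R1 g * R2 (tm τ g))⁻¹ := by
      rw [map_inv, map_inv, map_inv, li_comm hk h1 h2 g, mul_inv_rev]
    rw [← gg_inv h H, e]
    exact ActY.inv hk hπ h3

/-- `el_gen (Fx τ) 2`; `gf_el01`, `gf_el10`, `ActY_y` (`sr gm = gm`, `Ay = Ao`) -/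
theorem act_gf [Fintype (Rk l6 (k : ℤ))] (hk : 1 ≤ k) (h : Stb K 6 x) (hτ : ∀ a, τ (τ a) = a) {π : Uy x τ l6 k →* A} (hπ : ∀ v, π v = 1 ↔ (v : G) ∈ Uy x τ l6 (k + 1)) (H : L3 x F1 F2 F3)
    {R3 : Matrix.SpecialLinearGroup (Fin 2) K →* (Module.End K (Rk l6 (k : ℤ) → K))ˣ} (h3 : IsRep R3 uC) (B : Matrix.SpecialLinearGroup (Fin 2) (Fx τ)) : ActY x τ π (gf τ F3 B) (R3 (em τ B)) := by
  have hB : B ∈ Subgroup.closure {g : Matrix.SpecialLinearGroup (Fin 2) (Fx τ) | ∃ i j a, i ≠ j ∧ g = el (Fx τ) i j a} := by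
    rw [el_gen]
    exact Subgroup.mem_top B
  have hem : ∀ (a : Fx τ) {i j : Fin 2} (_ : i ≠ j), em τ (el (Fx τ) i j a) = el K i j (a : K) := fun a i j hij => li_mapf (Fx τ).subtype hij a
  have hg : sg gm.1 = gm.1 := congrArg Subtype.val sr_gm
  have hg' : sg (-gm.1) = -gm.1 := by rw [sg_neg, hg]
  induction hB using Subgroup.closure_induction with
  | mem g hg1 =>
    obtain ⟨i, j, a, hij, rfl⟩ := hg1
    have h0 : i = 0 ∧ j = 1 ∨ i = 1 ∧ j = 0 := by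
      revert i j
      decide
    rcases h0 with ⟨rfl, rfl⟩ | ⟨rfl, rfl⟩
    · have e2 : R3 (em τ (el (Fx τ) 0 1 a)) = Ay l6 (k : ℤ) τ gm.1 (a : K) := by
        have e : uC 0 - uC 1 = gm.1 := by simp [uC]
        have e3 : cf K uC 0 1 = 1 := by
          unfold cf eps ep
          have : bl (uC 0 - uC 1) (uC 1) = 0 := by decide +kernel
          rw [this, zpow_zero, Units.val_one]
        rw [hem a hij, h3 0 1 hij, e, e3, one_mul, Ay, if_pos hg]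
      rw [gf_el01 H, e2]
      exact ActY_y addl6 sgl6 hk h hτ hπ gm (by decide +kernel) fun _ => a.2
    · have e2 : R3 (em τ (el (Fx τ) 1 0 a)) = Ay l6 (k : ℤ) τ (-gm).1 (-(a : K)) := by
        have e : uC 1 - uC 0 = -gm.1 := by simp [uC]
        have e3 : cf K uC 1 0 = -1 := by
          unfold cf eps ep
          have h1 : Odd (bl (uC 1 - uC 0) (uC 0)) := by
            rw [Int.odd_iff]
            decide +kernel
          rw [h1.neg_one_zpow, Units.val_neg, Units.val_one]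
        show _ = Ay l6 (k : ℤ) τ (-gm.1) (-(a : K))
        rw [hem a hij, h3 1 0 hij, e, e3, neg_one_mul, Ay, if_pos hg']
      rw [gf_el10 H, e2]
      refine ActY_y addl6 sgl6 hk h hτ hπ (-gm) (by decide +kernel) fun _ => ?_
      rw [map_neg]
      exact congrArg Neg.neg a.2
  | one =>
    rw [gf_one, map_one, map_one]
    exact ActY.one x π
  | mul g g' _ _ h4 h5 =>
    rw [gf_mul, map_mul, map_mul]
    exact ActY.mul hk h4 h5
  | inv g _ h4 =>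
    rw [← gf_inv, map_inv, map_inv]
    exact ActY.inv hk hπ h4

/-- `act_gf`, `act_gg`, `ActY_h` (`hy x τ r3 (-1) = hh x r3 (-1)`, `Hy = Ho`), `ActY.mul` -/
theorem act_WW [Fintype (Rk l6 (k : ℤ))] (hk : 1 ≤ k) (h : Stb K 6 x) (hτ : ∀ a, τ (τ a) = a) {π : Uy x τ l6 k →* A} (hπ : ∀ v, π v = 1 ↔ (v : G) ∈ Uy x τ l6 (k + 1)) (H : L3 x F1 F2 F3)
    {R1 R2 : Matrix.SpecialLinearGroup (Fin 3) K →* (Module.End K (Rk l6 (k : ℤ) → K))ˣ} {R3 : Matrix.SpecialLinearGroup (Fin 2) K →* (Module.End K (Rk l6 (k : ℤ) → K))ˣ} (h1 : IsRep R1 uA) (h2 : IsRep R2 uM)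
    (h3 : IsRep R3 uC) (B : Matrix.SpecialLinearGroup (Fin 2) (Fx τ)) (M : Matrix.SpecialLinearGroup (Fin 3) K) :
    ActY x τ π (WW x τ F1 F2 F3 B M) (R3 (em τ B) * (R1 M * R2 (tm τ M)) * Ho l6 (k : ℤ) K r3.1 (-1)) := by
  have hr : sg r3.1 = r3.1 := congrArg Subtype.val sr_r3
  have e1 : ActY x τ π (hy x τ r3 (((-1 : Kˣ)) : K)) (Hy l6 (k : ℤ) τ r3.1 (-1)) := by
    refine ActY_h addl6 sgl6 hk h hτ hπ r3 (-1) fun _ => ?_
    rw [Units.val_neg, Units.val_one, map_neg, map_one]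
  have e2 : hy x τ r3 (((-1 : Kˣ)) : K) = hh x r3 (-1) := by
    rw [hy, if_pos sr_r3, Units.val_neg, Units.val_one]
  have e3 : Hy l6 (k : ℤ) τ r3.1 (-1) = Ho l6 (k : ℤ) K r3.1 (-1) := by
    rw [Hy, if_pos hr]
  rw [e2, e3] at e1
  exact ActY.mul hk (ActY.mul hk (act_gf hk h hτ hπ H h3 B) (act_gg hk h hτ hπ H h1 h2 M)) e1
-- END li

end

variable {L : Type*} [Field L]

-- BEGIN lj
/-- MODULE lj. `finite_Rk`, `Fintype.ofFinite`, `exists_piY`, `exists_rep` (three times), `act_WW`, `no_fixW`, `surY_of_act`; `em τ (m2 Z2) = m2 (Z2.map subtype)` (`m2_map`), `tm τ (m3 Z3) = cjd sD (m3 Z3)` because `Z3.map τ = Z3` (`m3_map`). -/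
theorem surY_W [Finite K] (h : Stb K 6 x) (hτ : ∀ a, τ (τ a) = a) (H : L3 x F1 F2 F3) (ι : K →+* L) {Z2 : Matrix (Fin 2) (Fin 2) (Fx τ)} (e2 : Z2.det = -1) {Z3 : Matrix (Fin 3) (Fin 3) K}
    (e3 : Z3.det = -1) (hZ : Z3.map τ = Z3) {P2 : Matrix.SpecialLinearGroup (Fin 2) L} {D2 : Fin 2 → Lˣ}
    (q2 : Z2.map (ι.comp (Fx τ).subtype) = P2.1 * Matrix.diagonal (fun i => (D2 i : L)) * (P2⁻¹).1)
    {P3 U : Matrix.SpecialLinearGroup (Fin 3) L} {D3 : Fin 3 → Lˣ} (hU : UT U) (q3 : Z3.map ι = P3.1 * (Matrix.diagonal (fun i => (D3 i : L)) * U.1) * (P3⁻¹).1)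
    (N1 : ∀ s i j, D2 s ≠ D3 i * D3 j) (N2 : ∀ i j, D3 i * D3 j ≠ -1) (N3 : ∀ s, D2 s ≠ 1) {k : ℕ} (hk : 1 ≤ k) : SurY x τ l6 (WW x τ F1 F2 F3 (m2 Z2 e2) (m3 Z3 e3)) k := by
  have : Finite (Rk l6 (k : ℤ)) := finite_Rk (by norm_num) l6 k
  let _ : Fintype (Rk l6 (k : ℤ)) := Fintype.ofFinite _
  have hk0 : (k : ℤ) ≠ 0 := by exact_mod_cast (Nat.one_le_iff_ne_zero.1 hk)
  obtain ⟨A, _, π, hπ⟩ := exists_piY h hτ addl6 sgl6 hk
  obtain ⟨R1, h1⟩ := exists_rep (K := K) (by norm_num) addl6 hk0 fam_uA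
  obtain ⟨R2, h2⟩ := exists_rep (K := K) (by norm_num) addl6 hk0 fam_uM
  obtain ⟨R3, h3⟩ := exists_rep (K := K) (by norm_num) addl6 hk0 fam_uC
  have hA := act_WW hk h hτ hπ H h1 h2 h3 (m2 Z2 e2) (m3 Z3 e3)
  refine surY_of_act hk h hτ sgl6 hπ hA fun f _ hf => ?_
  have e2' : (Z2.map (Fx τ).subtype).det = -1 := det_map_neg (Fx τ).subtype e2
  have e3' : (Z3.map τ).det = -1 := det_map_neg τ e3
  have e4 : em τ (m2 Z2 e2) = m2 (Z2.map (Fx τ).subtype) e2' := m2_map (Fx τ).subtype Z2 e2 e2'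
  have e5 : tm τ (m3 Z3 e3) = cjd (sD K) (m3 Z3 e3) := by
    show cjd (sD K) (Matrix.SpecialLinearGroup.map τ (m3 Z3 e3)) = _
    rw [m3_map τ Z3 e3 e3']
    refine congrArg (cjd (sD K)) (Subtype.ext ?_)
    show Z3.map τ * _ = Z3 * _
    rw [hZ]
  rw [e4, e5] at hf
  have q2' : (Z2.map (Fx τ).subtype).map ι = P2.1 * Matrix.diagonal (fun i => (D2 i : L)) * (P2⁻¹).1 := by
    rw [← q2, Matrix.map_map]
    rfl
  exact no_fixW ι (by exact_mod_cast hk) h1 h2 h3 e2' e3 q2' hU q3 N1 N2 N3 hf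
-- END lj

-- BEGIN lk
private theorem lk_mem (h : Stb K 6 x) (hτ : ∀ a, τ (τ a) = a) {b : G} (hb : b ∈ Sy x τ fun r => l6 r.1 = 0) : Nrm x τ l6 b := by
  refine Subgroup.closure_induction (p := fun b _ => Nrm x τ l6 b) ?_ ?_ ?_ ?_ hb
  · rintro _ ⟨r, a, hr, ha, rfl⟩
    exact Nrm.of_root h hτ addl6 sgl6 hr ha
  · exact Nrm.one x τ l6
  · intro a b _ _ ha hb
    exact ha.mul hb
  · intro a _ ha
    exact ha.inv

private theorem lk_h3 (h : Stb K 6 x) (hτ : ∀ a, τ (τ a) = a) : Nrm x τ l6 (hh x r3 (-1)) := by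
  have hy1 : hy x τ r3 (-1) = hh x r3 (-1) := by
    unfold hy
    rw [if_pos sr_r3]
  have hOk : Ok τ r3 (-1 : K) := fun _ => by rw [map_neg, map_one]
  have h1 : ∀ k : ℕ, ∀ g ∈ Uy x τ l6 k, hh x r3 (-1) * g * (hh x r3 (-1))⁻¹ ∈ Uy x τ l6 k := by
    intro k g hg
    have hle : Uy x τ l6 k ≤ (Uy x τ l6 k).comap (MulAut.conj (hh x r3 (-1))).toMonoidHom := by
      show Subgroup.closure _ ≤ _
      rw [Subgroup.closure_le]
      rintro _ ⟨s, b, hs, hb, rfl⟩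
      show hh x r3 (-1) * yt x τ s b * (hh x r3 (-1))⁻¹ ∈ Uy x τ l6 k
      rw [← hy1, hy_conj h hτ r3 s (neg_ne_zero.2 one_ne_zero) hOk b]
      exact Subgroup.subset_closure ⟨s, _, hs, cy_ok hτ r3 s hOk hb, rfl⟩
    exact hle hg
  have hinv : (hh x r3 (-1 : K))⁻¹ = hh x r3 (-1) := inv_eq_of_mul_eq_one_right (h3_sq h)
  intro k _ g hg
  have h2 := h1 k g hg
  refine ⟨h2, ?_⟩
  rw [hinv] at h2 ⊢
  exact h2

/-- MODULE lk. Closure induction with `Nrm.of_root`, `Nrm.one`, `Nrm.mul`, `Nrm.inv`; for `op x`: `Sy_op` (the condition `l6 r = 0` is symmetric), `Stb.op`. -/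
theorem nrm_mem (h : Stb K 6 x) (hτ : ∀ a, τ (τ a) = a) {b : G} (hb : b ∈ Sy x τ fun r => l6 r.1 = 0) : Nrm x τ l6 b ∧ Nrm (op x) τ l6 b := by
  refine ⟨lk_mem h hτ hb, lk_mem h.op hτ ?_⟩
  rw [Sy_op]
  have h1 : (fun r : Root 6 => l6 (-r).1 = 0) = fun r => l6 r.1 = 0 := by
    funext r
    have h2 : l6 (-r).1 = -l6 r.1 := addl6.neg r.1
    rw [h2, neg_eq_zero]
  show b ∈ Sy x τ fun r : Root 6 => l6 (-r).1 = 0
  rw [h1]
  exact hb

/-- `hy_conj` (`hy x τ r3 (-1) = hh x r3 (-1)`): it maps every generator `yt x τ s b` to `yt x τ s (± b)`, its inverse is itself (`h3_sq`); `yt_op` -/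
theorem nrm_h3 (h : Stb K 6 x) (hτ : ∀ a, τ (τ a) = a) : Nrm x τ l6 (hh x r3 (-1)) ∧ Nrm (op x) τ l6 (hh x r3 (-1)) := by
  refine ⟨lk_h3 h hτ, ?_⟩
  have h1 : hh (op x) r3 (-1) = hh x r3 (-1) := by
    have h2 : hh (op x) r3 (-1) = hh x (-r3) (-1) := rfl
    rw [h2, hh_neg (Or.inl rfl) h r3 (neg_ne_zero.2 one_ne_zero), inv_neg_one]
  have h3 := lk_h3 (τ := τ) h.op hτ
  rw [h1] at h3
  exact h3

theorem nrm_WW (h : Stb K 6 x) (hτ : ∀ a, τ (τ a) = a) (H : L3 x F1 F2 F3) (A : Matrix.SpecialLinearGroup (Fin 2) (Fx τ)) (B : Matrix.SpecialLinearGroup (Fin 3) K) :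
    Nrm x τ l6 (WW x τ F1 F2 F3 A B) ∧ Nrm (op x) τ l6 (WW x τ F1 F2 F3 A B) := by
  have h1 := nrm_mem h hτ (gf_mem h H A)
  have h2 := nrm_mem h hτ (gg_mem h H B)
  have h3 := nrm_h3 (τ := τ) h hτ
  exact ⟨(h1.1.mul h2.1).mul h3.1, (h1.2.mul h2.2).mul h3.2⟩

/-- `gf_mem`, `gg_mem`, `h3_mem`, `Sy.mono` -/
theorem WW_mem (h : Stb K 6 x) (H : L3 x F1 F2 F3) (A : Matrix.SpecialLinearGroup (Fin 2) (Fx τ)) (B : Matrix.SpecialLinearGroup (Fin 3) K) :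
    WW x τ F1 F2 F3 A B ∈ Sy x τ fun _ => True :=
  mul_mem (mul_mem (Sy.mono x τ (fun _ _ => trivial) (gf_mem h H A)) (Sy.mono x τ (fun _ _ => trivial) (gg_mem h H B))) (h3_mem x τ)
-- END lk

-- BEGIN ll
private theorem ll_sq {F : Type*} [Field F] {m : ℕ} (d : Fin m → Fˣ) (hd : ∀ i, d i * d i = 1) :
    Matrix.diagonal (fun i => (d i : F)) * Matrix.diagonal (fun i => (d i : F)) = 1 := by
  rw [Matrix.diagonal_mul_diagonal, ← Matrix.diagonal_one]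
  congr 1
  funext i
  rw [← Units.val_mul, hd, Units.val_one]

private theorem ll_dinv {F : Type*} [Field F] {m : ℕ} (d : Fin m → Fˣ) (hd : ∀ i, d i * d i = 1) :
    Matrix.diagonal (fun i => (((d i)⁻¹ : Fˣ) : F)) = Matrix.diagonal (fun i => (d i : F)) := by
  congr 1
  funext i
  rw [inv_eq_of_mul_eq_one_left (hd i)]

private theorem ll_inv {F : Type*} [Field F] {m : ℕ} {M : Matrix.SpecialLinearGroup (Fin m) F} {N : Matrix (Fin m) (Fin m) F} (h : M.1 * N = 1) : (M⁻¹).1 = N := by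
  have h1 : (M⁻¹).1 * M.1 = 1 := by
    have h2 : (M⁻¹ * M).1 = (1 : Matrix (Fin m) (Fin m) F) := by
      rw [inv_mul_cancel]
      rfl
    exact h2
  calc (M⁻¹).1 = (M⁻¹).1 * (M.1 * N) := by rw [h, mul_one]
    _ = ((M⁻¹).1 * M.1) * N := by rw [Matrix.mul_assoc]
    _ = N := by rw [h1, one_mul]

private theorem ll_d2 {F : Type*} [Field F] (i : Fin 2) : d2 F i * d2 F i = 1 := by
  fin_cases i <;> simp [d2]

private theorem ll_d3 {F : Type*} [Field F] (i : Fin 3) : d3 F i * d3 F i = 1 := by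
  fin_cases i <;> simp [d3]

private theorem ll_sD {F : Type*} [Field F] (i : Fin 3) : sD F i * sD F i = 1 := by
  fin_cases i <;> simp [sD]

private theorem ll_det {F : Type*} [Field F] {m : ℕ} {Z Z' : Matrix (Fin m) (Fin m) F} (h : Z.det = -1) (h' : Z * Z' = 1) : Z'.det = -1 := by
  have h1 : Z.det * Z'.det = 1 := by rw [← Matrix.det_mul, h', Matrix.det_one]
  rw [h, neg_one_mul] at h1
  rw [← h1, neg_neg]

private theorem ll_cdet {F : Type*} [Field F] {m : ℕ} {Z : Matrix (Fin m) (Fin m) F} (h : Z.det = -1) (P : Matrix.SpecialLinearGroup (Fin m) F) :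
    (P.1 * Z * (P⁻¹).1).det = -1 := by
  rw [Matrix.det_mul, Matrix.det_mul, P.2, (P⁻¹).2, h]
  ring

private theorem ll_m2 {F : Type*} [Field F] {Z Z' W : Matrix (Fin 2) (Fin 2) F} (h : Z.det = -1) (hi : Z * Z' = 1) (hW : W.det = -1)
    (hP : Matrix.diagonal (fun i => (d2 F i : F)) * Z'.transpose * Matrix.diagonal (fun i => (d2 F i : F)) = W) : cjd (d2 F) (iT 2 (m2 Z h)) = m2 W hW := by
  apply Subtype.ext
  have h1 : ((m2 Z h)⁻¹).1 = Matrix.diagonal (fun i => (d2 F i : F)) * Z' := by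
    apply ll_inv
    show Z * Matrix.diagonal (fun i => (d2 F i : F)) * (Matrix.diagonal (fun i => (d2 F i : F)) * Z') = 1
    rw [Matrix.mul_assoc, ← Matrix.mul_assoc (Matrix.diagonal _) (Matrix.diagonal _), ll_sq _ ll_d2, one_mul, hi]
  show Matrix.diagonal (fun i => (d2 F i : F)) * ((m2 Z h)⁻¹).1.transpose * Matrix.diagonal (fun i => (((d2 F i)⁻¹ : Fˣ) : F)) = W * Matrix.diagonal (fun i => (d2 F i : F))
  rw [h1, Matrix.transpose_mul, Matrix.diagonal_transpose, ll_dinv _ ll_d2, ← hP, Matrix.mul_assoc, Matrix.mul_assoc, Matrix.mul_assoc, Matrix.mul_assoc]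

private theorem ll_m3 {F : Type*} [Field F] {Z Z' W : Matrix (Fin 3) (Fin 3) F} (h : Z.det = -1) (hi : Z * Z' = 1) (hW : W.det = -1)
    (hP : Matrix.diagonal (fun i => (sD F i : F)) * Z'.transpose * Matrix.diagonal (fun i => (sD F i : F)) = W) : cjd (sD F) (iT 3 (m3 Z h)) = m3 W hW := by
  apply Subtype.ext
  have h1 : ((m3 Z h)⁻¹).1 = Matrix.diagonal (fun i => (d3 F i : F)) * Z' := by
    apply ll_inv
    show Z * Matrix.diagonal (fun i => (d3 F i : F)) * (Matrix.diagonal (fun i => (d3 F i : F)) * Z') = 1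
    rw [Matrix.mul_assoc, ← Matrix.mul_assoc (Matrix.diagonal _) (Matrix.diagonal _), ll_sq _ ll_d3, one_mul, hi]
  show Matrix.diagonal (fun i => (sD F i : F)) * ((m3 Z h)⁻¹).1.transpose * Matrix.diagonal (fun i => (((sD F i)⁻¹ : Fˣ) : F)) = W * Matrix.diagonal (fun i => (d3 F i : F))
  have h2 : Matrix.diagonal (fun i => (d3 F i : F)) * Matrix.diagonal (fun i => (sD F i : F)) = Matrix.diagonal (fun i => (sD F i : F)) * Matrix.diagonal (fun i => (d3 F i : F)) := by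
    rw [Matrix.diagonal_mul_diagonal, Matrix.diagonal_mul_diagonal]
    congr 1
    funext i
    exact mul_comm _ _
  rw [h1, Matrix.transpose_mul, Matrix.diagonal_transpose, ll_dinv _ ll_sD, ← hP, Matrix.mul_assoc, Matrix.mul_assoc, h2, Matrix.mul_assoc, Matrix.mul_assoc]

/-- MODULE ll. REALITY.  `n0_WW`: `cjd d2 (iT 2 (m2 Z2)) = m2 (δ (Z2')ᵀ δ)`, `cjd sD (iT 3 (map τ (m3 Z3))) = m3 (s (Z3')ᵀ s)` (`Z3.map τ = Z3`, `s = diag sD` commutes with `δ`), with `Z2' = Z2⁻¹`, `Z3' = Z3⁻¹`; `WW_inv`, `m2_inv`, `m3_inv`: `w⁻¹ = WW (m2 Z2') (m3 Z3')`; `WW_conj`, `m2_cj`, `m3_cj` with `P`, `Q`. -/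
theorem n0_real (h : Stb K 6 x) (hτ : ∀ a, τ (τ a) = a) (H : L3 x F1 F2 F3) {Z2 Z2' : Matrix (Fin 2) (Fin 2) (Fx τ)} (e2 : Z2.det = -1) (i2 : Z2 * Z2' = 1) {Z3 Z3' : Matrix (Fin 3) (Fin 3) K}
    (e3 : Z3.det = -1) (i3 : Z3 * Z3' = 1) (hZ : Z3.map τ = Z3) {P : Matrix.SpecialLinearGroup (Fin 2) (Fx τ)}
    (hP : Matrix.diagonal (fun i => (d2 (Fx τ) i : Fx τ)) * Z2'.transpose * Matrix.diagonal (fun i => (d2 (Fx τ) i : Fx τ)) = P.1 * Z2' * (P⁻¹).1)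
    {Q : Matrix.SpecialLinearGroup (Fin 3) K} (hQ : Matrix.diagonal (fun i => (sD K i : K)) * Z3'.transpose * Matrix.diagonal (fun i => (sD K i : K)) = Q.1 * Z3' * (Q⁻¹).1) :
    ∃ q ∈ Sy x τ fun r => l6 r.1 = 0, n0 x * WW x τ F1 F2 F3 (m2 Z2 e2) (m3 Z3 e3) * (n0 x)⁻¹ = q * (WW x τ F1 F2 F3 (m2 Z2 e2) (m3 Z3 e3))⁻¹ * q⁻¹ := by
  have g2 : Z2'.det = -1 := ll_det e2 i2
  have g3 : Z3'.det = -1 := ll_det e3 i3
  have k2 := ll_cdet g2 P
  have k3 := ll_cdet g3 Q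
  have e4 : Matrix.SpecialLinearGroup.map τ (m3 Z3 e3) = m3 Z3 e3 := by
    rw [m3_map τ Z3 e3 (by rw [hZ]; exact e3)]
    congr 1
  refine ⟨gf τ F3 P * gg τ F1 F2 Q, Subgroup.mul_mem _ (gf_mem h H P) (gg_mem h H Q), ?_⟩
  rw [n0_WW h hτ H, e4, ll_m2 e2 i2 k2 hP, ll_m3 e3 i3 k3 hQ, WW_inv h H, m2_inv e2 g2 i2, m3_inv e3 g3 i3, WW_conj h H, m2_cj g2 k2 rfl, m3_cj g3 k3 rfl]

/-- from `SurY x w` (all `k`) and `n0 w n0⁻¹ = q w⁻¹ q⁻¹`: `surY_n0`, `SurY.conj` (for `op x`, with `q⁻¹`), `SurY.inv` (for `op x`; `Stb.op`, `sgl6`, `addl6`) -/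
theorem surY_op (h : Stb K 6 x) (hτ : ∀ a, τ (τ a) = a) {w q : G} (hq : q ∈ Sy x τ fun r => l6 r.1 = 0) (hw : Nrm (op x) τ l6 w) (hn : n0 x * w * (n0 x)⁻¹ = q * w⁻¹ * q⁻¹) {k : ℕ} (hk : 1 ≤ k)
    (hs : SurY x τ l6 w k) : SurY (op x) τ l6 w k := by
  have h1 : SurY (op x) τ l6 (n0 x * w * (n0 x)⁻¹) k := surY_n0 h hτ hs
  rw [hn] at h1
  have h2 : Nrm (op x) τ l6 q⁻¹ := (nrm_mem h hτ (Subgroup.inv_mem _ hq)).2
  have h3 := SurY.conj hk h2 h1
  have e : q⁻¹ * (q * w⁻¹ * q⁻¹) * q⁻¹⁻¹ = w⁻¹ := by group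
  rw [e] at h3
  have h4 := SurY.inv (Stb.op h) hτ addl6 sgl6 hk (Nrm.inv hw) h3
  rwa [inv_inv] at h4
-- END ll

-- BEGIN lm
/-- MODULE lm. ABSORPTION. `SurY.conj`, `conj_leftY` for `op x`, `conj_rightY` for `x` (`l6_lt`); the conjugating elements are `y p` with `y ∈ Uy .. 1 ≤ Sy x τ True` (`Sy_op`, `Sy.mono`). -/
theorem absorbY (h : Stb K 6 x) (hτ : ∀ a, τ (τ a) = a) {w p : G} (hw : Nrm x τ l6 w) (hp : p ∈ Sy x τ fun r => l6 r.1 = 0)
    (hs : ∀ k, 1 ≤ k → SurY x τ l6 w k) (hs' : ∀ k, 1 ≤ k → SurY (op x) τ l6 w k) :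
    (∀ v ∈ Uy (op x) τ l6 1, ∃ c ∈ Sy x τ fun _ => True, v * (p * w * p⁻¹) = c * w * c⁻¹) ∧ ∀ u ∈ Uy x τ l6 1, ∃ c ∈ Sy x τ fun _ => True, (p * w * p⁻¹) * u = c * w * c⁻¹ := by
  have hN := nrm_mem h hτ hp
  have hpT : p ∈ Sy x τ fun _ => True := Sy.mono x τ (fun _ _ => trivial) hp
  refine ⟨fun v hv => ?_, fun u hu => ?_⟩
  · obtain ⟨y, hy, e⟩ := conj_leftY (x := op x) (τ := τ) (l := l6) (m := 4) l6_lt (b := p * w * p⁻¹) (fun k hk => SurY.conj hk hN.2 (hs' k hk)) hv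
    have hyT : y ∈ Sy x τ fun _ => True := by
      have hy2 : y ∈ Sy (op x) τ fun r => ((1 : ℕ) : ℤ) ≤ l6 r.1 := hy
      rw [Sy_op] at hy2
      exact Sy.mono x τ (fun _ _ => trivial) hy2
    refine ⟨y * p, mul_mem hyT hpT, ?_⟩
    have e2 : v * (p * w * p⁻¹) = y * (y⁻¹ * (v * (p * w * p⁻¹)) * y) * y⁻¹ := by group
    rw [e2, e]
    group
  · obtain ⟨y, hy, e⟩ := conj_rightY (x := x) (τ := τ) (l := l6) (m := 4) l6_lt (b := p * w * p⁻¹) ((hN.1.mul hw).mul hN.1.inv) (fun k hk => SurY.conj hk hN.1 (hs k hk)) hu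
    have hyT : y ∈ Sy x τ fun _ => True := Sy.mono x τ (fun _ _ => trivial) hy
    refine ⟨y * p, mul_mem hyT hpT, ?_⟩
    have e2 : p * w * p⁻¹ * u = y * (y⁻¹ * (p * w * p⁻¹ * u) * y) * y⁻¹ := by group
    rw [e2, e]
    group
-- END lm

end Pool.Agent.ThF
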