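import Pool.Agent.ThF.Sec
import Pool.Agent.ThR.Six

/-! # No fixed vectors on the sections (twisted case) -/

namespace Pool.Agent.ThF

open ThE ThK ThR

variable {K : Type*} [Field K] {L : Type*} [Field L] {l : Vec 6 → ℤ} {k : ℤ} {m : ℕ}

/-- `T` is triangular with the diagonal `w` with respect to the height: if `f` vanishes on the vectors higher than `v` then `(T f) v = w v * f v` -/
def Tri (T : Module.End K (Rk l k → K)) (w : Rk l k → K) : Prop := ∀ (f : Rk l k → K) (v : Rk l k), (∀ v' : Rk l k, ht v.1 < ht v'.1 → f v' = 0) → T f v = w v * f v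

-- BEGIN na
/-- MODULE na. -/
theorem Tri.one : Tri (1 : Module.End K (Rk l k → K)) fun _ => 1 := by
  intro f v _
  rw [one_mul]
  rfl

/-- if `f` vanishes above `v` then it vanishes above every `v'` above `v`, so `T' f` vanishes above `v` -/
theorem Tri.mul {T T' : Module.End K (Rk l k → K)} {w w' : Rk l k → K} (h : Tri T w) (h' : Tri T' w') : Tri (T * T') fun v => w v * w' v := by
  intro f v hf
  have h1 : ∀ v' : Rk l k, ht v.1 < ht v'.1 → T' f v' = 0 := by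
    intro v' hv'
    rw [h' f v' fun v'' hv'' => hf v'' (lt_trans hv' hv''), hf v' hv', mul_zero]
  have h2 : (T * T') f v = T (T' f) v := rfl
  rw [h2, h (T' f) v h1, h' f v hf, mul_assoc]

/-- `Ao_apply`; `ht (v - a) > ht v` -/
theorem Tri.ao {a : Vec 6} (ha : L0 l a) (h : ht a < 0) (c : K) : Tri (Ao l k K a c).1 fun _ => 1 := by
  intro f v hf
  rw [Ao_apply ha, one_mul]
  have h1 : ext f (v.1 - a) = 0 := by
    unfold ext
    split_ifs with h2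
    · refine hf _ ?_
      have h3 : ht v.1 = ht (v.1 - a) + ht a := by
        rw [← ht_add, sub_add_cancel]
      show ht v.1 < ht (v.1 - a)
      linarith
    · rfl
  rw [h1, mul_zero, mul_zero, add_zero]

theorem Tri.ho (a : Vec 6) (t : Kˣ) : Tri (Ho l k K a t).1 fun v => ((t ^ bf a v.1 : Kˣ) : K) := by
  intro f v _
  exact Ho_apply a t f v

/-- if `f ≠ 0` take `v` with `f v ≠ 0` of maximal height -/
theorem Tri.no_fix [Finite (Rk l k)] {T : Module.End K (Rk l k → K)} {w : Rk l k → K} (h : Tri T w) (hw : ∀ v, w v ≠ 1) {f : Rk l k → K} (hf : T f = f) : f = 0 := by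
  by_contra h0
  have hne : {v : Rk l k | f v ≠ 0}.Nonempty := by
    by_contra h1
    apply h0
    funext v
    by_contra h2
    exact h1 ⟨v, h2⟩
  obtain ⟨v, hv, hmax⟩ := Set.exists_max_image {v : Rk l k | f v ≠ 0} (fun v => ht v.1) (Set.toFinite _) hne
  have h1 := h f v fun v' hv' => by
    by_contra h2
    exact absurd (hmax v' h2) (not_le.2 hv')
  rw [hf] at h1
  apply hw v
  have h2 : (1 - w v) * f v = 0 := by rw [sub_mul, one_mul, ← h1, sub_self]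
  rcases mul_eq_zero.1 h2 with h3 | h3
  · exact (sub_eq_zero.1 h3).symm
  · exact absurd h3 hv
-- END na

/-- upper unitriangular -/
def UT (U : Matrix.SpecialLinearGroup (Fin m) K) : Prop := (∀ i j, j < i → U.1 i j = 0) ∧ ∀ i, U.1 i i = 1

-- BEGIN nb
/-- MODULE nb. `rep_dg` -/
theorem tri_dg (hl : Addl l) (hk : k ≠ 0) {u : Fin (m + 1) → Vec 6} (hu : Fam l u) {R : Matrix.SpecialLinearGroup (Fin (m + 1)) K →* (Module.End K (Rk l k → K))ˣ} (hR : IsRep R u)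
    (D : Fin (m + 1) → Kˣ) (hD : ∏ i, D i = 1) : Tri (R (dg D hD)).1 fun v => (wt u D v.1 : K) := by
  intro f v _
  exact rep_dg (by norm_num) hl hk hu hR D hD f v

/-- `U = el 0 2 (c - a b) * el 0 1 a * el 1 2 b` for `U = [[1, a, c], [0, 1, b], [0, 0, 1]]`; `Tri.ao`, `Tri.mul` -/
theorem tri_ut (hl : Addl l) (hk : k ≠ 0) {u : Fin 3 → Vec 6} (hu : Fam l u) (h1 : ht (u 0 - u 1) < 0) (h2 : ht (u 1 - u 2) < 0)
    {R : Matrix.SpecialLinearGroup (Fin 3) K →* (Module.End K (Rk l k → K))ˣ} (hR : IsRep R u) {U : Matrix.SpecialLinearGroup (Fin 3) K} (hU : UT U) :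
    Tri (R U).1 fun _ => 1 := by
  have h3 : ht (u 0 - u 2) < 0 := by
    have h4 : u 0 - u 2 = (u 0 - u 1) + (u 1 - u 2) := by abel
    rw [h4, ht_add]
    linarith
  have hval : ∀ (i j : Fin 3) (h : i ≠ j) (a : K), (el K i j a).1 = Matrix.transvection i j a := by
    intro i j h a
    unfold el
    rw [dif_pos h]
  have hfac : U = el K 0 2 (U.1 0 2 - U.1 0 1 * U.1 1 2) * el K 0 1 (U.1 0 1) * el K 1 2 (U.1 1 2) := by
    refine Subtype.ext ?_
    rw [Matrix.SpecialLinearGroup.coe_mul, Matrix.SpecialLinearGroup.coe_mul]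
    show U.1 = (el K 0 2 (U.1 0 2 - U.1 0 1 * U.1 1 2)).1 * (el K 0 1 (U.1 0 1)).1 * (el K 1 2 (U.1 1 2)).1
    rw [hval 0 2 (by decide), hval 0 1 (by decide), hval 1 2 (by decide)]
    have e00 := hU.2 0
    have e11 := hU.2 1
    have e22 := hU.2 2
    have e10 := hU.1 1 0 (by decide)
    have e20 := hU.1 2 0 (by decide)
    have e21 := hU.1 2 1 (by decide)
    ext i j
    fin_cases i <;> fin_cases j <;>
      simp [Matrix.transvection, Matrix.mul_apply, Fin.sum_univ_three, Matrix.one_apply, Matrix.single_apply, e00, e11, e22, e10, e20, e21]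
  have hR3 : (R U).1 = (Ao l k K (u 0 - u 2) (cf K u 0 2 * (U.1 0 2 - U.1 0 1 * U.1 1 2))).1 * (Ao l k K (u 0 - u 1) (cf K u 0 1 * U.1 0 1)).1 *
      (Ao l k K (u 1 - u 2) (cf K u 1 2 * U.1 1 2)).1 := by
    conv_lhs => rw [hfac]
    rw [map_mul, map_mul, hR 0 2 (by decide), hR 0 1 (by decide), hR 1 2 (by decide)]
    rfl
  rw [hR3]
  have h4 := ((Tri.ao (k := k) (hu 0 2 (by decide)) h3 (cf K u 0 2 * (U.1 0 2 - U.1 0 1 * U.1 1 2))).mul
    (Tri.ao (k := k) (hu 0 1 (by decide)) h1 (cf K u 0 1 * U.1 0 1))).mul (Tri.ao (k := k) (hu 1 2 (by decide)) h2 (cf K u 1 2 * U.1 1 2))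
  intro f v hf
  have h5 := h4 f v hf
  simpa using h5
-- END nb

/-- conjugation with the diagonal matrix `d` -/
def cjd (d : Fin m → Kˣ) : Matrix.SpecialLinearGroup (Fin m) K →* Matrix.SpecialLinearGroup (Fin m) K where
  toFun M := ⟨Matrix.diagonal (fun i => (d i : K)) * M.1 * Matrix.diagonal (fun i => (((d i)⁻¹ : Kˣ) : K)), by
    rw [Matrix.det_mul, Matrix.det_mul, M.2, Matrix.det_diagonal, Matrix.det_diagonal, mul_one, ← Finset.prod_mul_distrib]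
    exact Finset.prod_eq_one fun i _ => Units.mul_inv (d i)⟩
  map_one' := by
    refine Subtype.ext ?_
    show Matrix.diagonal (fun i => (d i : K)) * (1 : Matrix (Fin m) (Fin m) K) * Matrix.diagonal (fun i => (((d i)⁻¹ : Kˣ) : K)) = 1
    rw [mul_one, Matrix.diagonal_mul_diagonal]
    rw [← Matrix.diagonal_one]
    exact congrArg Matrix.diagonal (funext fun i => Units.mul_inv (d i))
  map_mul' M N := by
    refine Subtype.ext ?_
    show Matrix.diagonal (fun i => (d i : K)) * (M.1 * N.1) * Matrix.diagonal (fun i => (((d i)⁻¹ : Kˣ) : K)) =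
      Matrix.diagonal (fun i => (d i : K)) * M.1 * Matrix.diagonal (fun i => (((d i)⁻¹ : Kˣ) : K)) * (Matrix.diagonal (fun i => (d i : K)) * N.1 * Matrix.diagonal (fun i => (((d i)⁻¹ : Kˣ) : K)))
    have h : Matrix.diagonal (fun i => (((d i)⁻¹ : Kˣ) : K)) * Matrix.diagonal (fun i => (d i : K)) = 1 := by
      rw [Matrix.diagonal_mul_diagonal, ← Matrix.diagonal_one]
      exact congrArg Matrix.diagonal (funext fun i => Units.inv_mul (d i))
    calc _ = Matrix.diagonal (fun i => (d i : K)) * M.1 * 1 * N.1 * Matrix.diagonal (fun i => (((d i)⁻¹ : Kˣ) : K)) := by simp only [mul_one, Matrix.mul_assoc]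
      _ = _ := by rw [← h]; simp only [Matrix.mul_assoc]

-- BEGIN nc
/-- MODULE nc. Entries: `(cjd d M) i j = d i * M i j * (d j)⁻¹`. -/
theorem cjd_apply (d : Fin m → Kˣ) (M : Matrix.SpecialLinearGroup (Fin m) K) (i j : Fin m) : (cjd d M).1 i j = (d i : K) * M.1 i j * (((d j)⁻¹ : Kˣ) : K) := by
  change (Matrix.diagonal (fun i => (d i : K)) * M.1 * Matrix.diagonal (fun i => (((d i)⁻¹ : Kˣ) : K))) i j = _
  rw [Matrix.mul_diagonal, Matrix.diagonal_mul]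

theorem cjd_el (d : Fin m → Kˣ) (i j : Fin m) (h : i ≠ j) (a : K) : cjd d (el K i j a) = el K i j ((d i : K) * a * (((d j)⁻¹ : Kˣ) : K)) := by
  have he : ∀ b : K, (el K i j b).1 = Matrix.transvection i j b := fun b => congrArg Subtype.val (dif_pos h)
  refine Subtype.ext (Matrix.ext fun p q => ?_)
  rw [cjd_apply, he, he]
  simp only [Matrix.transvection, Matrix.add_apply, Matrix.one_apply, Matrix.single_apply]
  by_cases hpq : p = q
  · subst hpq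
    have h1 : ¬ (i = p ∧ j = p) := fun h2 => h (h2.1.trans h2.2.symm)
    rw [if_pos rfl, if_neg h1, if_neg h1, add_zero, mul_one, Units.mul_inv]
  · rw [if_neg hpq, zero_add, zero_add]
    by_cases h2 : i = p ∧ j = q
    · obtain ⟨rfl, rfl⟩ := h2
      rw [if_pos ⟨rfl, rfl⟩, if_pos ⟨rfl, rfl⟩]
    · rw [if_neg h2, if_neg h2, mul_zero, zero_mul]

theorem cjd_dg (d D : Fin m → Kˣ) (hD : ∏ i, D i = 1) : cjd d (dg D hD) = dg D hD := by
  refine Subtype.ext (Matrix.ext fun p q => ?_)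
  rw [cjd_apply]
  change (d p : K) * (Matrix.diagonal fun i => (D i : K)) p q * (((d q)⁻¹ : Kˣ) : K) = (Matrix.diagonal fun i => (D i : K)) p q
  by_cases hpq : p = q
  · subst hpq
    rw [Matrix.diagonal_apply_eq, mul_comm (d p : K), mul_assoc, Units.mul_inv, mul_one]
  · rw [Matrix.diagonal_apply_ne _ hpq, mul_zero, zero_mul]

theorem cjd_cjd (d d' : Fin m → Kˣ) (M : Matrix.SpecialLinearGroup (Fin m) K) : cjd d (cjd d' M) = cjd (d * d') M := by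
  refine Subtype.ext (Matrix.ext fun p q => ?_)
  rw [cjd_apply, cjd_apply, cjd_apply, Pi.mul_apply, Pi.mul_apply, mul_inv, Units.val_mul, Units.val_mul]
  ring

theorem cjd_one (M : Matrix.SpecialLinearGroup (Fin m) K) : cjd (1 : Fin m → Kˣ) M = M := by
  refine Subtype.ext (Matrix.ext fun p q => ?_)
  rw [cjd_apply, Pi.one_apply, Pi.one_apply, inv_one, Units.val_one, one_mul, mul_one]

theorem cjd_ut (d : Fin m → Kˣ) {U : Matrix.SpecialLinearGroup (Fin m) K} (hU : UT U) : UT (cjd d U) := by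
  refine ⟨fun i j h => ?_, fun i => ?_⟩
  · rw [cjd_apply, hU.1 i j h, mul_zero, zero_mul]
  · rw [cjd_apply, hU.2 i, mul_one, Units.mul_inv]

theorem cjd_map (f : K →+* L) (d : Fin m → Kˣ) (M : Matrix.SpecialLinearGroup (Fin m) K) :
    Matrix.SpecialLinearGroup.map f (cjd d M) = cjd (fun i => Units.map (f : K →* L) (d i)) (Matrix.SpecialLinearGroup.map f M) := by
  refine Subtype.ext (Matrix.ext fun p q => ?_)
  rw [cjd_apply]
  change f ((cjd d M).1 p q) = _ * f (M.1 p q) * _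
  rw [cjd_apply, map_mul, map_mul, Units.coe_map_inv, Units.coe_map]
  rfl

/-- both sides are homomorphisms in `M` (`pres_ext` or `el_gen` and closure induction); on `el`: `Ho_conj`, `cjd_el`; `bf c (u i - u j) = bf c (u i) - bf c (u j)` -/
theorem rep_cjd {u : Fin m → Vec 6} (hu : Fam l u) {R : Matrix.SpecialLinearGroup (Fin m) K →* (Module.End K (Rk l k → K))ˣ} (hR : IsRep R u) (c : Vec 6) (t : Kˣ)
    (M : Matrix.SpecialLinearGroup (Fin m) K) : Ho l k K c t * R M * (Ho l k K c t)⁻¹ = R (cjd (fun i => t ^ bf c (u i)) M) := by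
  have key : (MulAut.conj (Ho l k K c t)).toMonoidHom.comp R = R.comp (cjd (fun i => t ^ bf c (u i))) := by
    refine pres_ext fun i j h a => ?_
    change Ho l k K c t * R (el K i j a) * (Ho l k K c t)⁻¹ = R (cjd (fun i => t ^ bf c (u i)) (el K i j a))
    rw [cjd_el _ i j h, hR i j h, hR i j h, Ho_conj (hu i j h), bf_sub_right, zpow_sub, Units.val_mul]
    congr 1
    ring
  exact DFunLike.congr_fun key M
-- END nc

/-- the family `-e_5, -e_4, -e_3` -/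
def uM (i : Fin 3) : Vec 6 := -ue ((![5, 4, 3] : Fin 3 → Fin 6) i)

/-- the root `e_3 - e_2` -/
def r3 : Root 6 := ⟨(0, ![0, 0, -1, 1, 0, 0]), by decide⟩

/-- the signs `δ` -/
def d2 (K : Type*) [Field K] : Fin 2 → Kˣ := ![-1, 1]
def d3 (K : Type*) [Field K] : Fin 3 → Kˣ := ![1, 1, -1]
/-- the signs of the graph automorphism on `SL_3` -/
def sD (K : Type*) [Field K] : Fin 3 → Kˣ := ![1, -1, 1]

-- BEGIN nd
/-- MODULE nd. (`sg (uA i - uA j) = uM i - uM j`: `sg (e_i - e_j) = e_(5-j) - e_(5-i)`; `decide` on explicit vectors.) -/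
theorem fam_uM : Fam l6 uM := by
  unfold Fam L0
  decide +kernel

theorem sgl6 : Sgl l6 := by
  intro r
  obtain ⟨h1, -⟩ := r.2
  show (r.1.1 - r.1.2 2) + (r.1.1 - r.1.2 1) + (r.1.1 - r.1.2 0) = r.1.2 3 + r.1.2 4 + r.1.2 5
  have e1 : ∑ i : Fin 6, r.1.2 i = r.1.2 0 + r.1.2 1 + r.1.2 2 + r.1.2 3 + r.1.2 4 + r.1.2 5 := by
    simp only [Fin.sum_univ_succ, Fin.sum_univ_zero]
    simp only [add_zero, add_assoc]
    rfl
  rw [e1] at h1
  linarith

theorem orth_AM : Orth uA uM := by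
  unfold Orth
  decide +kernel

theorem orth_MC : Orth uM uC := by
  unfold Orth
  decide +kernel

theorem orth_MA : Orth uM uA := by
  unfold Orth
  decide +kernel

theorem orth_CA : Orth uC uA := by
  unfold Orth
  decide +kernel

theorem orth_CM : Orth uC uM := by
  unfold Orth
  decide +kernel

theorem ht_uA : ht (uA 0 - uA 1) < 0 ∧ ht (uA 1 - uA 2) < 0 := by
  decide +kernel

theorem ht_uM : ht (uM 0 - uM 1) < 0 ∧ ht (uM 1 - uM 2) < 0 := by
  decide +kernel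

theorem sg_uA (i j : Fin 3) : sg (uA i - uA j) = uM i - uM j := by
  revert i j
  decide +kernel

theorem sr_gm : sr gm = gm := by
  refine Subtype.ext ?_
  show sg gm.1 = gm.1
  decide +kernel

theorem sr_r3 : sr r3 = r3 := by
  refine Subtype.ext ?_
  show sg r3.1 = r3.1
  decide +kernel

private theorem nd_bf : ∀ i : Fin 3, bf r3.1 (uA i) = (![0, 0, -1] : Fin 3 → ℤ) i ∧ bf r3.1 (uM i) = (![0, 0, -1] : Fin 3 → ℤ) i := by
  decide +kernel

/-- the characters of `r3` on the three families: `d2`, `d3` (up to a common sign) -/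
theorem r3_char (t : Kˣ) (ht : t * t = 1) (i : Fin 3) : t ^ bf r3.1 (uA i) = (![1, 1, t] : Fin 3 → Kˣ) i ∧ t ^ bf r3.1 (uM i) = (![1, 1, t] : Fin 3 → Kˣ) i := by
  have hinv : t⁻¹ = t := inv_eq_of_mul_eq_one_left ht
  rw [(nd_bf i).1, (nd_bf i).2]
  fin_cases i
  · exact ⟨zpow_zero t, zpow_zero t⟩
  · exact ⟨zpow_zero t, zpow_zero t⟩
  · exact ⟨(zpow_neg_one t).trans hinv, (zpow_neg_one t).trans hinv⟩
-- END nd

/-- the weight of `v` -/
def ww (D2 : Fin 2 → Lˣ) (D3 : Fin 3 → Lˣ) (v : Vec 6) : Lˣ :=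
  (-D2 0) ^ bf gm.1 v * ∏ i : Fin 3, D3 i ^ (v.2 ((![0, 1, 2] : Fin 3 → Fin 6) i) - v.2 ((![5, 4, 3] : Fin 3 → Fin 6) i))

-- BEGIN ne
private theorem ne_bf (v : Vec 6) : bf gm.1 v = v.2 0 + v.2 1 + v.2 2 - v.1 := by
  simp only [bf, gm, Fin.sum_univ_six]
  simp [Matrix.cons_val_zero, Matrix.cons_val_one]

private theorem ne_split (D3 : Fin 3 → Lˣ) (v : Vec 6) :
    ∏ i : Fin 3, D3 i ^ (v.2 ((![0, 1, 2] : Fin 3 → Fin 6) i) - v.2 ((![5, 4, 3] : Fin 3 → Fin 6) i)) =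
      (∏ i : Fin 3, D3 i ^ v.2 ((![0, 1, 2] : Fin 3 → Fin 6) i)) * (∏ i : Fin 3, D3 (Fin.rev i) ^ v.2 ((![3, 4, 5] : Fin 3 → Fin 6) i))⁻¹ := by
  have e : ∏ i : Fin 3, D3 (Fin.rev i) ^ v.2 ((![3, 4, 5] : Fin 3 → Fin 6) i) = ∏ i : Fin 3, D3 i ^ v.2 ((![5, 4, 3] : Fin 3 → Fin 6) i) := by
    rw [Fin.prod_univ_three, Fin.prod_univ_three]
    show D3 2 ^ v.2 3 * D3 1 ^ v.2 4 * D3 0 ^ v.2 5 = D3 0 ^ v.2 5 * D3 1 ^ v.2 4 * D3 2 ^ v.2 3
    rw [mul_comm (D3 2 ^ v.2 3 * D3 1 ^ v.2 4), mul_comm (D3 2 ^ v.2 3), mul_assoc]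
  rw [e, ← Finset.prod_inv_distrib, ← Finset.prod_mul_distrib]
  exact Finset.prod_congr rfl fun i _ => zpow_sub _ _ _

private theorem ne_one (D : Fin 3 → Lˣ) (p : Fin 3 → ℤ) (i : Fin 3) (c : ℤ) (h : ∀ a, p a = if a = i then c else 0) : ∏ a, D a ^ p a = D i ^ c := by
  rw [Finset.prod_eq_single i]
  · rw [h, if_pos rfl]
  · intro a _ ha
    rw [h, if_neg ha, zpow_zero]
  · intro ha
    exact absurd (Finset.mem_univ i) ha

private theorem ne_two (D : Fin 3 → Lˣ) (p : Fin 3 → ℤ) (i : Fin 3) (h : ∀ a, p a = if a = i then 0 else 1) : ∏ a, D a ^ p a = (∏ a, D a) * (D i)⁻¹ := by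
  rw [eq_mul_inv_iff_mul_eq]
  have e : D i = ∏ a, D a ^ (if a = i then (1 : ℤ) else 0) := by
    rw [ne_one D _ i 1 fun a => rfl, zpow_one]
  rw [e, ← Finset.prod_mul_distrib]
  refine Finset.prod_congr rfl fun a _ => ?_
  rw [h]
  by_cases ha : a = i
  · rw [if_pos ha, if_pos ha, zpow_zero, zpow_one, one_mul]
  · rw [if_neg ha, if_neg ha, zpow_zero, zpow_one, mul_one]

/-- MODULE ne. The five cases of `cls6` (`bf gm v = m_0 + m_1 + m_2 - d`): with `j' = 2 - j`: `(0; -e_i, e_j)`: `bf = -1`, weight `(-D2 0)⁻¹ (D3 i D3 j')⁻¹ = D2 1 (D3 i D3 j')⁻¹`; `(1; 1 - e_i, e_j)`: `bf = 1`, `-D2 0 * (-1) * (D3 i)⁻¹ (D3 j')⁻¹ = D2 0 (D3 i D3 j')⁻¹`;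
`(1; e_i, 1 - e_j)`: `bf = 0`, `D3 i D3 j' * (-1)`; `(1; 0, 1)`: `bf = -1`, `D2 1 * (-1) = (D2 0)⁻¹`; `(2; 1, 1)`: `bf = 1`, `-D2 0 = (D2 1)⁻¹`. -/
theorem ww_ne {D2 : Fin 2 → Lˣ} {D3 : Fin 3 → Lˣ} (h2 : D2 0 * D2 1 = -1) (h3 : ∏ i, D3 i = -1) (N1 : ∀ s i j, D2 s ≠ D3 i * D3 j) (N2 : ∀ i j, D3 i * D3 j ≠ -1) (N3 : ∀ s, D2 s ≠ 1)
    {v : Vec 6} (hv : IsR v) (hk : 1 ≤ l6 v) : ww D2 D3 v ≠ 1 := by
  have hrev : ∏ i : Fin 3, D3 (Fin.rev i) = -1 := by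
    rw [← h3]
    exact Equiv.prod_comp Fin.revPerm D3
  have hb : -D2 0 = (D2 1)⁻¹ := by
    rw [eq_inv_iff_mul_eq_one, neg_mul, h2, neg_neg]
  intro h
  unfold ww at h
  rw [ne_split, ne_bf, hb] at h
  rcases cls6 hv hk with ⟨i, j, h0, hp, hq⟩ | ⟨i, j, h0, hp, hq⟩ | ⟨i, j, h0, hp, hq⟩ | ⟨h0, hp, hq⟩ | ⟨h0, hp, hq⟩
  · rw [ne_one D3 _ i (-1) hp, ne_one (fun a => D3 (Fin.rev a)) _ j 1 hq] at h
    have s : v.2 0 + v.2 1 + v.2 2 - v.1 = -1 := by
      have a0 : v.2 0 = _ := hp 0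
      have a1 : v.2 1 = _ := hp 1
      have a2 : v.2 2 = _ := hp 2
      rw [a0, a1, a2, h0]
      fin_cases i <;> rfl
    rw [s, zpow_neg_one, inv_inv, zpow_neg_one, zpow_one, ← mul_inv, mul_inv_eq_one] at h
    exact N1 1 _ _ h
  · rw [ne_two D3 _ i hp, ne_one (fun a => D3 (Fin.rev a)) _ j 1 hq, h3] at h
    have s : v.2 0 + v.2 1 + v.2 2 - v.1 = 1 := by
      have a0 : v.2 0 = _ := hp 0
      have a1 : v.2 1 = _ := hp 1
      have a2 : v.2 2 = _ := hp 2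
      rw [a0, a1, a2, h0]
      fin_cases i <;> rfl
    rw [s, zpow_one, zpow_one, ← hb, mul_assoc (-1 : Lˣ), ← mul_inv, ← mul_assoc, mul_neg, mul_one, neg_neg, mul_inv_eq_one] at h
    exact N1 0 _ _ h
  · rw [ne_one D3 _ i 1 hp, ne_two (fun a => D3 (Fin.rev a)) _ j hq, hrev] at h
    have s : v.2 0 + v.2 1 + v.2 2 - v.1 = 0 := by
      have a0 : v.2 0 = _ := hp 0
      have a1 : v.2 1 = _ := hp 1
      have a2 : v.2 2 = _ := hp 2
      rw [a0, a1, a2, h0]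
      fin_cases i <;> rfl
    rw [s, zpow_zero, zpow_one, one_mul, neg_mul, one_mul, inv_neg, inv_inv, mul_neg] at h
    exact N2 i (Fin.rev j) (neg_eq_iff_eq_neg.mp h)
  · have e1 : ∏ i : Fin 3, D3 i ^ v.2 ((![0, 1, 2] : Fin 3 → Fin 6) i) = 1 :=
      Finset.prod_eq_one fun a _ => by rw [hp a, zpow_zero]
    have e2 : ∏ i : Fin 3, D3 (Fin.rev i) ^ v.2 ((![3, 4, 5] : Fin 3 → Fin 6) i) = -1 := by
      rw [← hrev]
      exact Finset.prod_congr rfl fun a _ => by rw [hq a, zpow_one]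
    rw [e1, e2] at h
    have s : v.2 0 + v.2 1 + v.2 2 - v.1 = -1 := by
      have a0 : v.2 0 = _ := hp 0
      have a1 : v.2 1 = _ := hp 1
      have a2 : v.2 2 = _ := hp 2
      rw [a0, a1, a2, h0]
      rfl
    rw [s, zpow_neg_one, inv_inv, one_mul, mul_inv_eq_one] at h
    rw [h] at h2
    refine N3 0 ?_
    rw [mul_neg, mul_one] at h2
    exact neg_injective h2
  · have e1 : ∏ i : Fin 3, D3 i ^ v.2 ((![0, 1, 2] : Fin 3 → Fin 6) i) = -1 := by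
      rw [← h3]
      exact Finset.prod_congr rfl fun a _ => by rw [hp a, zpow_one]
    have e2 : ∏ i : Fin 3, D3 (Fin.rev i) ^ v.2 ((![3, 4, 5] : Fin 3 → Fin 6) i) = -1 := by
      rw [← hrev]
      exact Finset.prod_congr rfl fun a _ => by rw [hq a, zpow_one]
    rw [e1, e2] at h
    have s : v.2 0 + v.2 1 + v.2 2 - v.1 = 1 := by
      have a0 : v.2 0 = _ := hp 0
      have a1 : v.2 1 = _ := hp 1
      have a2 : v.2 2 = _ := hp 2
      rw [a0, a1, a2, h0]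
      rfl
    rw [s, zpow_one, mul_inv_cancel, mul_one, inv_eq_one] at h
    exact N3 1 h

private theorem ne_uA (i : Fin 3) (v : Vec 6) : bf (uA i) v = v.2 ((![0, 1, 2] : Fin 3 → Fin 6) i) := bf_ue _ v

private theorem ne_uM (i : Fin 3) (v : Vec 6) : bf (uM i) v = -v.2 ((![5, 4, 3] : Fin 3 → Fin 6) i) := by
  show bf (-ue _) v = _
  rw [bf_neg_left, bf_ue]

private theorem ne_r3 (v : Vec 6) : bf r3.1 v = v.2 3 - v.2 2 := by
  simp only [bf, r3, Fin.sum_univ_six]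
  simp [Matrix.cons_val_zero, Matrix.cons_val_one]
  ring

private theorem ne_d3 (v : Vec 6) : ∏ i : Fin 3, d3 L i ^ (v.2 ((![0, 1, 2] : Fin 3 → Fin 6) i) - v.2 ((![5, 4, 3] : Fin 3 → Fin 6) i)) = (-1) ^ (v.2 2 - v.2 3) := by
  rw [Fin.prod_univ_three]
  show (1 : Lˣ) ^ (v.2 0 - v.2 5) * (1 : Lˣ) ^ (v.2 1 - v.2 4) * (-1 : Lˣ) ^ (v.2 2 - v.2 3) = _
  rw [one_zpow, one_zpow, one_mul, one_mul]

/-- `bf_ue`; the signs of `d3` and of `r3` cancel: exponents `m_2`, `- m_3`, `m_3 - m_2` -/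
theorem wt_ww (D2 : Fin 2 → Lˣ) (D3 : Fin 3 → Lˣ) (v : Vec 6) :
    wt uC (fun i => D2 i * d2 L i) v * (wt uA (fun i => D3 i * d3 L i) v * wt uM (fun i => D3 i * d3 L i) v) * (-1) ^ bf r3.1 v = ww D2 D3 v := by
  have e1 : wt uC (fun i => D2 i * d2 L i) v = (-D2 0) ^ bf gm.1 v := by
    unfold wt
    rw [Fin.prod_univ_two]
    show (D2 0 * -1) ^ bf gm.1 v * (D2 1 * 1) ^ bf 0 v = _
    have z : bf (0 : Vec 6) v = 0 := by
      simp [bf]
    rw [z, zpow_zero, mul_one, mul_neg, mul_one]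
  have e2 : wt uA (fun i => D3 i * d3 L i) v * wt uM (fun i => D3 i * d3 L i) v =
      (∏ i : Fin 3, D3 i ^ (v.2 ((![0, 1, 2] : Fin 3 → Fin 6) i) - v.2 ((![5, 4, 3] : Fin 3 → Fin 6) i))) * (-1) ^ (v.2 2 - v.2 3) := by
    unfold wt
    rw [← ne_d3, ← Finset.prod_mul_distrib, ← Finset.prod_mul_distrib]
    refine Finset.prod_congr rfl fun i _ => ?_
    rw [ne_uA, ne_uM, ← zpow_add, ← sub_eq_add_neg, mul_zpow]
  have e3 : ((-1 : Lˣ)) ^ (v.2 2 - v.2 3) * (-1) ^ bf r3.1 v = 1 := by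
    rw [ne_r3, ← zpow_add]
    have z : v.2 2 - v.2 3 + (v.2 3 - v.2 2) = 0 := by ring
    rw [z, zpow_zero]
  rw [e1, e2]
  unfold ww
  rw [mul_assoc, mul_assoc, e3, mul_one]
-- END ne

/-- matrices of determinant `-1` as elements of `SL` -/
def m2 (Z : Matrix (Fin 2) (Fin 2) K) (h : Z.det = -1) : Matrix.SpecialLinearGroup (Fin 2) K :=
  ⟨Z * Matrix.diagonal (fun i => (d2 K i : K)), by rw [Matrix.det_mul, h, Matrix.det_diagonal, Fin.prod_univ_two]; simp [d2]⟩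

def m3 (Z : Matrix (Fin 3) (Fin 3) K) (h : Z.det = -1) : Matrix.SpecialLinearGroup (Fin 3) K :=
  ⟨Z * Matrix.diagonal (fun i => (d3 K i : K)), by rw [Matrix.det_mul, h, Matrix.det_diagonal, Fin.prod_univ_three]; simp [d3]⟩

-- BEGIN nf
private theorem nf_sq {d : Fin m → Kˣ} (hd : ∀ i, d i * d i = 1) :
    Matrix.diagonal (fun i => (d i : K)) * Matrix.diagonal (fun i => (d i : K)) = 1 := by
  rw [Matrix.diagonal_mul_diagonal, ← Matrix.diagonal_one]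
  refine congrArg Matrix.diagonal (funext fun i => ?_)
  rw [← Units.val_mul, hd, Units.val_one]

private theorem nf_inv {d : Fin m → Kˣ} (hd : ∀ i, d i * d i = 1) :
    Matrix.diagonal (fun i => (((d i)⁻¹ : Kˣ) : K)) = Matrix.diagonal (fun i => (d i : K)) := by
  refine congrArg Matrix.diagonal (funext fun i => ?_)
  rw [inv_eq_of_mul_eq_one_right (hd i)]

private theorem nf_dg (d D : Fin m → Kˣ) :
    Matrix.diagonal (fun i => ((D i * d i : Kˣ) : K)) =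
      Matrix.diagonal (fun i => (D i : K)) * Matrix.diagonal (fun i => (d i : K)) := by
  rw [Matrix.diagonal_mul_diagonal]
  rfl

private theorem nf_det {Z : Matrix (Fin m) (Fin m) K} {d D : Fin m → Kˣ} {U P : Matrix.SpecialLinearGroup (Fin m) K}
    (h : Z.det = -1) (hd : ∏ i, d i = -1) (hZ : Z = P.1 * (Matrix.diagonal (fun i => (D i : K)) * U.1) * (P⁻¹).1) :
    ∏ i, D i * d i = 1 := by
  have h1 : Z.det = ∏ i, (D i : K) := by
    rw [hZ, Matrix.det_mul, Matrix.det_mul, Matrix.det_mul, P.2, U.2, (P⁻¹).2, Matrix.det_diagonal, one_mul, mul_one, mul_one]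
  have h2 : ∏ i, D i = (-1 : Kˣ) := by
    refine Units.ext ?_
    rw [Units.coe_prod, ← h1, h, Units.val_neg, Units.val_one]
  rw [Finset.prod_mul_distrib, h2, hd, neg_mul_neg, one_mul]

private theorem nf_d2 (i : Fin 2) : d2 K i * d2 K i = 1 := by
  fin_cases i <;> simp [d2]

private theorem nf_d3 (i : Fin 3) : d3 K i * d3 K i = 1 := by
  fin_cases i <;> simp [d3]

private theorem nf_main {Z : Matrix (Fin m) (Fin m) K} {d D : Fin m → Kˣ} (hd : ∀ i, d i * d i = 1)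
    {U P : Matrix.SpecialLinearGroup (Fin m) K}
    (hZ : Z = P.1 * (Matrix.diagonal (fun i => (D i : K)) * U.1) * (P⁻¹).1) (hD : ∏ i, D i * d i = 1) :
    Z * Matrix.diagonal (fun i => (d i : K)) =
      (P * (dg (fun i => D i * d i) hD * cjd d U) * cjd d P⁻¹).1 := by
  show _ = P.1 * (Matrix.diagonal (fun i => ((D i * d i : Kˣ) : K)) *
    (Matrix.diagonal (fun i => (d i : K)) * U.1 * Matrix.diagonal (fun i => (((d i)⁻¹ : Kˣ) : K)))) *
    (Matrix.diagonal (fun i => (d i : K)) * (P⁻¹).1 * Matrix.diagonal (fun i => (((d i)⁻¹ : Kˣ) : K)))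
  rw [nf_inv hd, nf_dg, hZ]
  have h := nf_sq hd
  generalize Matrix.diagonal (fun i => (d i : K)) = δ at h ⊢
  generalize Matrix.diagonal (fun i => (D i : K)) = Δ
  generalize (P⁻¹).1 = Q
  calc P.1 * (Δ * U.1) * Q * δ = P.1 * (Δ * 1 * U.1 * 1) * Q * δ := by rw [Matrix.mul_one, Matrix.mul_one]
    _ = P.1 * (Δ * (δ * δ) * U.1 * (δ * δ)) * Q * δ := by rw [h]
    _ = _ := by simp only [Matrix.mul_assoc]

private theorem nf_map (f : K →+* L) (Z : Matrix (Fin m) (Fin m) K) {d : Fin m → K} {e : Fin m → L} (h : ∀ i, f (d i) = e i) :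
    (Z * Matrix.diagonal d).map f = Z.map f * Matrix.diagonal e := by
  rw [Matrix.map_mul, Matrix.diagonal_map (map_zero f)]
  exact congrArg (Z.map f * Matrix.diagonal ·) (funext h)

/-- MODULE nf. `P⁻¹ δ = δ (δ P⁻¹ δ)`; the determinants: `∏ D2 i * d2 i = 1`. -/
theorem m2_conj {Z : Matrix (Fin 2) (Fin 2) K} (h : Z.det = -1) {D : Fin 2 → Kˣ} {P : Matrix.SpecialLinearGroup (Fin 2) K}
    (hZ : Z = P.1 * Matrix.diagonal (fun i => (D i : K)) * (P⁻¹).1) : ∃ hD : ∏ i, D i * d2 K i = 1, m2 Z h = P * dg (fun i => D i * d2 K i) hD * cjd (d2 K) P⁻¹ := by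
  have hZ' : Z = P.1 * (Matrix.diagonal (fun i => (D i : K)) * (1 : Matrix.SpecialLinearGroup (Fin 2) K).1) * (P⁻¹).1 := by
    rw [show (1 : Matrix.SpecialLinearGroup (Fin 2) K).1 = 1 from rfl, Matrix.mul_one]
    exact hZ
  have hD : ∏ i, D i * d2 K i = 1 := nf_det h (by rw [Fin.prod_univ_two]; simp [d2]) hZ'
  refine ⟨hD, Subtype.ext ?_⟩
  have h1 := nf_main nf_d2 hZ' hD
  rw [map_one, mul_one] at h1
  exact h1

/-- `diag(D) U δ = diag(D δ) (δ U δ)` -/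
theorem m3_conj {Z : Matrix (Fin 3) (Fin 3) K} (h : Z.det = -1) {D : Fin 3 → Kˣ} {U P : Matrix.SpecialLinearGroup (Fin 3) K}
    (hZ : Z = P.1 * (Matrix.diagonal (fun i => (D i : K)) * U.1) * (P⁻¹).1) :
    ∃ hD : ∏ i, D i * d3 K i = 1, m3 Z h = P * (dg (fun i => D i * d3 K i) hD * cjd (d3 K) U) * cjd (d3 K) P⁻¹ := by
  have hD : ∏ i, D i * d3 K i = 1 := nf_det h (by rw [Fin.prod_univ_three]; simp [d3]) hZ
  exact ⟨hD, Subtype.ext (nf_main nf_d3 hZ hD)⟩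

theorem m2_map (f : K →+* L) (Z : Matrix (Fin 2) (Fin 2) K) (h : Z.det = -1) (h' : (Z.map f).det = -1) : Matrix.SpecialLinearGroup.map f (m2 Z h) = m2 (Z.map f) h' := by
  refine Subtype.ext (nf_map f Z fun i => ?_)
  fin_cases i <;> simp [d2]

theorem m3_map (f : K →+* L) (Z : Matrix (Fin 3) (Fin 3) K) (h : Z.det = -1) (h' : (Z.map f).det = -1) : Matrix.SpecialLinearGroup.map f (m3 Z h) = m3 (Z.map f) h' := by
  refine Subtype.ext (nf_map f Z fun i => ?_)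
  fin_cases i <;> simp [d3]

theorem det_map_neg {n : ℕ} (f : K →+* L) {Z : Matrix (Fin n) (Fin n) K} (h : Z.det = -1) : (Z.map f).det = -1 := by
  have h1 := f.map_det Z
  rw [h, map_neg, map_one] at h1
  exact h1.symm
-- END nf

-- BEGIN ng
private theorem ng_grp {Γ : Type*} [Group Γ] {a b c A3 A1 A2 H a' b' c' : Γ} (ha : a' = H * a⁻¹ * H⁻¹) (hb : b' = H * b⁻¹ * H⁻¹) (hc : c' = H * c⁻¹ * H⁻¹)
    (k1 : Commute a b) (k2 : Commute a c) (k3 : Commute b c) (k4 : Commute A3 b) (k5 : Commute A3 c) (k6 : Commute A1 c)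
    (k7 : Commute a' b) (k8 : Commute a' A1) (k9 : Commute a' c) (k10 : Commute a' A2) (k11 : Commute b' c) (k12 : Commute b' A2) :
    a * A3 * a' * ((b * A1 * b') * (c * A2 * c')) * H = (a * b * c) * (A3 * A1 * A2 * H) * (a * b * c)⁻¹ := by
  have e1 : a' * (b * A1) = b * A1 * a' := (k7.mul_right k8).eq
  have e2 : A3 * b = b * A3 := k4.eq
  have e3 : (a' * b') * (c * A2) = (c * A2) * (a' * b') := ((k9.mul_right k10).mul_left (k11.mul_right k12)).eq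
  have e4 : (A3 * A1) * c = c * (A3 * A1) := (k5.mul_left k6).eq
  have e5 : a' * b' * c' * H = H * (a * b * c)⁻¹ := by
    have e6 : (a * b * c)⁻¹ = a⁻¹ * b⁻¹ * c⁻¹ := by
      have e7 : a * b * c = c * (b * a) := by rw [(k2.mul_left k3).eq, k1.eq]
      rw [e7, mul_inv_rev, mul_inv_rev]
    rw [e6, ha, hb, hc]
    group
  calc a * A3 * a' * ((b * A1 * b') * (c * A2 * c')) * H = a * A3 * (a' * (b * A1)) * b' * (c * A2) * c' * H := by group
    _ = a * (A3 * b) * A1 * ((a' * b') * (c * A2)) * c' * H := by rw [e1]; group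
    _ = a * b * ((A3 * A1) * c) * A2 * (a' * b' * c' * H) := by rw [e2, e3]; group
    _ = (a * b * c) * (A3 * A1 * A2 * H) * (a * b * c)⁻¹ := by rw [e4, e5]; group

private theorem ng_c2 : (fun i => (-1 : Lˣ) ^ bf r3.1 (uC i)) = d2 L := by
  funext i
  have h0 : bf r3.1 (uC 0) = -1 := by decide
  have h1 : bf r3.1 (uC 1) = 0 := by decide
  fin_cases i
  · show (-1 : Lˣ) ^ bf r3.1 (uC 0) = -1
    rw [h0, zpow_neg_one, inv_neg, inv_one]
  · show (-1 : Lˣ) ^ bf r3.1 (uC 1) = 1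
    rw [h1, zpow_zero]

private theorem ng_c3 : (fun i => (-1 : Lˣ) ^ bf r3.1 (uA i)) = d3 L ∧ (fun i => (-1 : Lˣ) ^ bf r3.1 (uM i)) = d3 L := by
  have h : (-1 : Lˣ) * (-1) = 1 := by rw [neg_mul_neg, one_mul]
  exact ⟨funext fun i => (r3_char (-1 : Lˣ) h i).1, funext fun i => (r3_char (-1 : Lˣ) h i).2⟩

/-- MODULE ng. NO FIXED VECTOR over `L`.  `T = Q T0 Q⁻¹`, `Q = R3 P2 * R1 P3 * R2 (cjd sD P3)` (the three images commute: `IsRep.comm`), `T0 = R3 (dg ..) * (R1 (dg .. * cjd U) * R2 (cjd sD (..))) * Ho`, because `R3 (cjd d2 P2⁻¹) * Ho = Ho * R3 P2⁻¹` etc.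
(`rep_cjd` with `t = -1`: the character of `r3` on `uC` is `((-1)^(bf r3 gm), 1) = (-1, 1) = d2`, on `uA`, `uM` it is `d3` (`r3_char`); `cjd d (cjd d M) = M`; `cjd sD` and `cjd d3` commute).  `T0` is triangular with the diagonal `ww` (`tri_dg`, `tri_ut`, `Tri.ho`, `Tri.mul`, `wt_ww`, `cjd_dg`, `cjd_ut`),
so it has no fixed vector `≠ 0` (`ww_ne`, `Tri.no_fix`, `finite_Rk`). -/
theorem no_fixL (hk : 1 ≤ k) {R1 R2 : Matrix.SpecialLinearGroup (Fin 3) L →* (Module.End L (Rk l6 k → L))ˣ} {R3 : Matrix.SpecialLinearGroup (Fin 2) L →* (Module.End L (Rk l6 k → L))ˣ}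
    (h1 : IsRep R1 uA) (h2 : IsRep R2 uM) (h3 : IsRep R3 uC) {Z2 : Matrix (Fin 2) (Fin 2) L} (e2 : Z2.det = -1) {Z3 : Matrix (Fin 3) (Fin 3) L} (e3 : Z3.det = -1)
    {P2 : Matrix.SpecialLinearGroup (Fin 2) L} {D2 : Fin 2 → Lˣ} (q2 : Z2 = P2.1 * Matrix.diagonal (fun i => (D2 i : L)) * (P2⁻¹).1)
    {P3 U : Matrix.SpecialLinearGroup (Fin 3) L} {D3 : Fin 3 → Lˣ} (hU : UT U) (q3 : Z3 = P3.1 * (Matrix.diagonal (fun i => (D3 i : L)) * U.1) * (P3⁻¹).1)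
    (N1 : ∀ s i j, D2 s ≠ D3 i * D3 j) (N2 : ∀ i j, D3 i * D3 j ≠ -1) (N3 : ∀ s, D2 s ≠ 1) {f : Rk l6 k → L}
    (hf : (R3 (m2 Z2 e2) * (R1 (m3 Z3 e3) * R2 (cjd (sD L) (m3 Z3 e3))) * Ho l6 k L r3.1 (-1)).1 f = f) : f = 0 := by
  have hk0 : k ≠ 0 := by omega
  obtain ⟨hD2, z2⟩ := m2_conj e2 q2
  obtain ⟨hD3, z3⟩ := m3_conj e3 q3
  set Dd2 : Matrix.SpecialLinearGroup (Fin 2) L := dg (fun i => D2 i * d2 L i) hD2 with hDd2
  set Dd3 : Matrix.SpecialLinearGroup (Fin 3) L := dg (fun i => D3 i * d3 L i) hD3 with hDd3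
  set H : (Module.End L (Rk l6 k → L))ˣ := Ho l6 k L r3.1 (-1) with hH
  have c13 : ∀ M M', R3 M * R1 M' = R1 M' * R3 M := IsRep.comm (by norm_num) addl6 hk0 fam_uC fam_uA orth_CA h3 h1
  have c23 : ∀ M M', R3 M * R2 M' = R2 M' * R3 M := IsRep.comm (by norm_num) addl6 hk0 fam_uC fam_uM orth_CM h3 h2
  have c12 : ∀ M M', R1 M * R2 M' = R2 M' * R1 M := IsRep.comm (by norm_num) addl6 hk0 fam_uA fam_uM orth_AM h1 h2
  have j3 : ∀ M, R3 (cjd (d2 L) M) = H * R3 M * H⁻¹ := by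
    intro M
    rw [hH, rep_cjd fam_uC h3 r3.1 (-1) M, ng_c2]
  have j1 : ∀ M, R1 (cjd (d3 L) M) = H * R1 M * H⁻¹ := by
    intro M
    rw [hH, rep_cjd fam_uA h1 r3.1 (-1) M, ng_c3.1]
  have j2 : ∀ M, R2 (cjd (d3 L) M) = H * R2 M * H⁻¹ := by
    intro M
    rw [hH, rep_cjd fam_uM h2 r3.1 (-1) M, ng_c3.2]
  set A3 := R3 Dd2 with hA3
  set A1 := R1 (Dd3 * cjd (d3 L) U) with hA1
  set A2 := R2 (cjd (sD L) (Dd3 * cjd (d3 L) U)) with hA2
  set Q := R3 P2 * R1 P3 * R2 (cjd (sD L) P3) with hQ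
  have key : R3 (m2 Z2 e2) * (R1 (m3 Z3 e3) * R2 (cjd (sD L) (m3 Z3 e3))) * H = Q * (A3 * A1 * A2 * H) * Q⁻¹ := by
    have x3 : R3 (m2 Z2 e2) = R3 P2 * A3 * R3 (cjd (d2 L) P2⁻¹) := by rw [z2, map_mul, map_mul]
    have x1 : R1 (m3 Z3 e3) = R1 P3 * A1 * R1 (cjd (d3 L) P3⁻¹) := by rw [z3, map_mul, map_mul]
    have x2 : R2 (cjd (sD L) (m3 Z3 e3)) = R2 (cjd (sD L) P3) * A2 * R2 (cjd (d3 L) (cjd (sD L) P3)⁻¹) := by
      have y : cjd (sD L) (cjd (d3 L) P3⁻¹) = cjd (d3 L) (cjd (sD L) P3)⁻¹ := by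
        rw [← map_inv, cjd_cjd, cjd_cjd, mul_comm]
      rw [z3, map_mul, map_mul, y, map_mul, map_mul]
    rw [x3, x1, x2, hQ]
    refine ng_grp ?_ ?_ ?_ (c13 _ _) (c23 _ _) (c12 _ _) (c13 _ _) (c23 _ _) (c12 _ _) (c13 _ _) (c13 _ _) (c23 _ _) (c23 _ _) (c12 _ _) (c12 _ _)
    · rw [j3, map_inv]
    · rw [j1, map_inv]
    · rw [j2, map_inv]
  rw [key] at hf
  have tri : Tri (A3 * A1 * A2 * H).1 (fun v => ((ww D2 D3 v.1 : Lˣ) : L)) := by
    have t3 : Tri A3.1 (fun v => (wt uC (fun i => D2 i * d2 L i) v.1 : L)) := tri_dg (m := 1) addl6 hk0 fam_uC h3 _ hD2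
    have t1 : Tri A1.1 (fun v => (wt uA (fun i => D3 i * d3 L i) v.1 : L) * 1) := by
      rw [hA1, map_mul]
      exact (tri_dg (m := 2) addl6 hk0 fam_uA h1 _ hD3).mul (tri_ut addl6 hk0 fam_uA ht_uA.1 ht_uA.2 h1 (cjd_ut _ hU))
    have t2 : Tri A2.1 (fun v => (wt uM (fun i => D3 i * d3 L i) v.1 : L) * 1) := by
      rw [hA2, map_mul, map_mul, hDd3, cjd_dg]
      exact (tri_dg (m := 2) addl6 hk0 fam_uM h2 _ hD3).mul (tri_ut addl6 hk0 fam_uM ht_uM.1 ht_uM.2 h2 (cjd_ut _ (cjd_ut _ hU)))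
    have t := ((t3.mul t1).mul t2).mul (Tri.ho (l := l6) (k := k) (K := L) r3.1 (-1))
    have ew : (fun v : Rk l6 k => ((wt uC (fun i => D2 i * d2 L i) v.1 : L) * ((wt uA (fun i => D3 i * d3 L i) v.1 : L) * 1) * ((wt uM (fun i => D3 i * d3 L i) v.1 : L) * 1)) *
        (((-1 : Lˣ) ^ bf r3.1 v.1 : Lˣ) : L)) = fun v => ((ww D2 D3 v.1 : Lˣ) : L) := by
      funext v
      rw [← wt_ww]
      simp only [Units.val_mul, mul_one, mul_assoc]
    rw [← ew]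
    exact t
  have hg : (A3 * A1 * A2 * H).1 ((Q⁻¹).1 f) = (Q⁻¹).1 f := by
    have e : (A3 * A1 * A2 * H) * Q⁻¹ = Q⁻¹ * (Q * (A3 * A1 * A2 * H) * Q⁻¹) := by group
    calc (A3 * A1 * A2 * H).1 ((Q⁻¹).1 f) = ((A3 * A1 * A2 * H) * Q⁻¹).1 f := rfl
      _ = (Q⁻¹ * (Q * (A3 * A1 * A2 * H) * Q⁻¹)).1 f := by rw [e]
      _ = (Q⁻¹).1 ((Q * (A3 * A1 * A2 * H) * Q⁻¹).1 f) := rfl
      _ = (Q⁻¹).1 f := by rw [hf]
  have p2 : D2 0 * D2 1 = -1 := by
    have := hD2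
    rw [Fin.prod_univ_two] at this
    have e : D2 0 * (-1) * (D2 1 * 1) = 1 := this
    rw [mul_one, mul_neg_one, neg_mul] at e
    rw [← neg_neg (D2 0 * D2 1), e]
  have p3 : ∏ i, D3 i = -1 := by
    have := hD3
    rw [Fin.prod_univ_three] at this
    have e : D3 0 * 1 * (D3 1 * 1) * (D3 2 * (-1)) = 1 := this
    rw [mul_one, mul_one, mul_neg_one, mul_neg] at e
    rw [Fin.prod_univ_three, ← neg_neg (D3 0 * D3 1 * D3 2), e]
  have : Finite (Rk l6 k) := finite_Rk (by norm_num) l6 k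
  have g0 : (Q⁻¹).1 f = 0 := by
    refine tri.no_fix (fun v hv => ?_) hg
    exact ww_ne p2 p3 N1 N2 N3 v.2.1 (by rw [v.2.2]; exact hk) (Units.ext hv)
  calc f = (Q * Q⁻¹).1 f := by rw [mul_inv_cancel]; rfl
    _ = Q.1 ((Q⁻¹).1 f) := rfl
    _ = 0 := by rw [g0, map_zero]
-- END ng

-- BEGIN nh
private theorem nh_rep (ι : K →+* L) {m' : ℕ} {u : Fin m' → Vec 6} (hu : Fam l6 u) {R : Matrix.SpecialLinearGroup (Fin m') K →* (Module.End K (Rk l6 k → K))ˣ} (hR : IsRep R u)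
    {R' : Matrix.SpecialLinearGroup (Fin m') L →* (Module.End L (Rk l6 k → L))ˣ} (hR' : IsRep R' u) {M : Matrix.SpecialLinearGroup (Fin m') K} {M' : Matrix.SpecialLinearGroup (Fin m') L}
    (hM : Matrix.SpecialLinearGroup.map ι M = M') (f : Rk l6 k → K) : (R' M').1 (fun w => ι (f w)) = fun w => ι ((R M).1 f w) := by
  subst hM
  funext v
  exact rep_map ι hu hR hR' M f v

private theorem nh_ho (ι : K →+* L) (a : Vec 6) (f : Rk l6 k → K) : (Ho l6 k L a (-1)).1 (fun w => ι (f w)) = fun w => ι ((Ho l6 k K a (-1)).1 f w) := by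
  funext v
  rw [Ho_apply, Ho_apply, map_mul]
  congr 1
  have h : Units.map (ι : K →* L) ((-1 : Kˣ) ^ bf a v.1) = (-1 : Lˣ) ^ bf a v.1 := by
    rw [map_zpow]
    congr 1
    ext
    simp
  rw [← h]
  rfl

private theorem nh_sD (ι : K →+* L) : (fun i => Units.map (ι : K →* L) (sD K i)) = sD L := by
  funext i
  ext
  fin_cases i <;> simp [sD]

/-- MODULE nh. The same for `Z2`, `Z3` over `K` and the triangular form over an extension `L`: `exists_rep` over `L`, `rep_map` (three times), `Ho_apply` (`ι (-1) = -1`): `ι ∘ f` is fixed by the operator over `L` (`m2_map`, `m3_map`, `cjd_map`); `no_fixL`; `ι` is injective. -/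
theorem no_fixW (ι : K →+* L) (hk : 1 ≤ k) {R1 R2 : Matrix.SpecialLinearGroup (Fin 3) K →* (Module.End K (Rk l6 k → K))ˣ} {R3 : Matrix.SpecialLinearGroup (Fin 2) K →* (Module.End K (Rk l6 k → K))ˣ}
    (h1 : IsRep R1 uA) (h2 : IsRep R2 uM) (h3 : IsRep R3 uC) {Z2 : Matrix (Fin 2) (Fin 2) K} (e2 : Z2.det = -1) {Z3 : Matrix (Fin 3) (Fin 3) K} (e3 : Z3.det = -1)
    {P2 : Matrix.SpecialLinearGroup (Fin 2) L} {D2 : Fin 2 → Lˣ} (q2 : Z2.map ι = P2.1 * Matrix.diagonal (fun i => (D2 i : L)) * (P2⁻¹).1)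
    {P3 U : Matrix.SpecialLinearGroup (Fin 3) L} {D3 : Fin 3 → Lˣ} (hU : UT U) (q3 : Z3.map ι = P3.1 * (Matrix.diagonal (fun i => (D3 i : L)) * U.1) * (P3⁻¹).1)
    (N1 : ∀ s i j, D2 s ≠ D3 i * D3 j) (N2 : ∀ i j, D3 i * D3 j ≠ -1) (N3 : ∀ s, D2 s ≠ 1) {f : Rk l6 k → K}
    (hf : (R3 (m2 Z2 e2) * (R1 (m3 Z3 e3) * R2 (cjd (sD K) (m3 Z3 e3))) * Ho l6 k K r3.1 (-1)).1 f = f) : f = 0 := by
  have hk' : k ≠ 0 := by omega
  obtain ⟨R1', h1'⟩ := exists_rep (K := L) (n := 6) (by norm_num) addl6 hk' fam_uA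
  obtain ⟨R2', h2'⟩ := exists_rep (K := L) (n := 6) (by norm_num) addl6 hk' fam_uM
  obtain ⟨R3', h3'⟩ := exists_rep (K := L) (n := 6) (by norm_num) addl6 hk' fam_uC
  have e2' : (Z2.map ι).det = -1 := det_map_neg ι e2
  have e3' : (Z3.map ι).det = -1 := det_map_neg ι e3
  have hL : (R3' (m2 (Z2.map ι) e2') * (R1' (m3 (Z3.map ι) e3') * R2' (cjd (sD L) (m3 (Z3.map ι) e3'))) * Ho l6 k L r3.1 (-1)).1 (fun w => ι (f w)) = fun w => ι (f w) := by
    have c2 : Matrix.SpecialLinearGroup.map ι (cjd (sD K) (m3 Z3 e3)) = cjd (sD L) (m3 (Z3.map ι) e3') := by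
      rw [cjd_map, nh_sD, m3_map ι Z3 e3 e3']
    have hf' : (R3 (m2 Z2 e2)).1 ((R1 (m3 Z3 e3)).1 ((R2 (cjd (sD K) (m3 Z3 e3))).1 ((Ho l6 k K r3.1 (-1)).1 f))) = f := hf
    show (R3' (m2 (Z2.map ι) e2')).1 ((R1' (m3 (Z3.map ι) e3')).1 ((R2' (cjd (sD L) (m3 (Z3.map ι) e3'))).1 ((Ho l6 k L r3.1 (-1)).1 (fun w => ι (f w))))) = fun w => ι (f w)
    rw [nh_ho, nh_rep ι fam_uM h2 h2' c2, nh_rep ι fam_uA h1 h1' (m3_map ι Z3 e3 e3'), nh_rep ι fam_uC h3 h3' (m2_map ι Z2 e2 e2'), hf']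
  have h0 := no_fixL hk h1' h2' h3' e2' e3' q2 hU q3 N1 N2 N3 hL
  funext v
  have h5 : ι (f v) = 0 := congrFun h0 v
  exact (map_eq_zero ι).1 h5
-- END nh

end Pool.Agent.ThF
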