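import Pool.Agent.ThF.Fil

/-! # The sections of the twisted filtration: twisted functions on the root vectors of level `k` (compare `Pool/Agent/ThR/Int.lean`) -/

namespace Pool.Agent.ThF

open ThE ThK ThR

variable {K : Type*} [Field K] {l : Vec 6 → ℤ} {k : ℤ}

/-- the twisted functions: `f (sg v) = η_v τ (f v)` -/
def Tw (τ : K →+* K) (f : Rk l k → K) : Prop := ∀ v w : Rk l k, w.1 = sg v.1 → f w = et K v.1 * τ (f v)

/-- the function `a e_v + η_v τ(a) e_(sg v)` (`a e_v` if `sg v = v`) -/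
def bt (τ : K →+* K) (v : Rk l k) (a : K) : Rk l k → K := fun w => if w = v then a else if w.1 = sg v.1 then et K v.1 * τ a else 0

/-- admissible parameter for a root vector -/
def Okv (τ : K →+* K) (v : Vec 6) (a : K) : Prop := sg v = v → τ a = a

/-- the chosen representatives of the orbits `{v, sg v}`: the functional `m_1 + m_4 - m_0 - m_5` changes its sign under `sg`, and it is `0` only if `sg v = v` -/
def rp (v : Vec 6) : Prop := 0 ≤ v.2 1 + v.2 4 - v.2 0 - v.2 5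

instance (v : Vec 6) : Decidable (rp v) := by unfold rp; infer_instance

-- BEGIN ca
/-- MODULE ca. `sg v` has the value `-(..)`.  If the value is `0` for a root vector: with `p_i = d - m_i - m_(5-i)`, `p_0 + p_1 + p_2 = 0`, `p_0 = p_1`, and `p_0^2 + p_1^2 + p_2^2 = 2 - bf v (sg v) ∈ {0, 2}` (`bf_self_sr`), so `6 p_0^2 ∈ {0, 2}`, `p = 0`, `sg v = v`. -/
theorem rp_or (v : Vec 6) : rp v ∨ rp (sg v) := by
  have h1 : (sg v).2 1 = v.1 - v.2 4 := rfl
  have h2 : (sg v).2 4 = v.1 - v.2 1 := rfl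
  have h3 : (sg v).2 0 = v.1 - v.2 5 := rfl
  have h4 : (sg v).2 5 = v.1 - v.2 0 := rfl
  unfold rp
  rw [h1, h2, h3, h4]
  omega

theorem rp_and {v : Vec 6} (hv : IsR v) (h1 : rp v) (h2 : rp (sg v)) : sg v = v := by
  rcases bf_self_sr (⟨v, hv⟩ : Root 6) with h | h
  · exact congrArg Subtype.val h
  · exfalso
    have g1 : (sg v).2 1 = v.1 - v.2 4 := rfl
    have g2 : (sg v).2 4 = v.1 - v.2 1 := rfl
    have g3 : (sg v).2 0 = v.1 - v.2 5 := rfl
    have g4 : (sg v).2 5 = v.1 - v.2 0 := rfl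
    have g5 : (sg v).2 2 = v.1 - v.2 3 := rfl
    have g6 : (sg v).2 3 = v.1 - v.2 2 := rfl
    have g7 : (sg v).1 = v.1 := rfl
    unfold rp at h1 h2
    rw [g1, g2, g3, g4] at h2
    have e0 : v.2 1 + v.2 4 = v.2 0 + v.2 5 := by omega
    have h' : bf v (sg v) = 0 := h
    unfold bf at h'
    obtain ⟨s1, s2⟩ := hv
    rw [Fin.sum_univ_six] at h' s1 s2
    rw [g1, g2, g3, g4, g5, g6, g7] at h'
    set p := v.1 - v.2 0 - v.2 5 with hp
    have e1 : v.1 - v.2 1 - v.2 4 = p := by omega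
    have e2 : v.1 - v.2 2 - v.2 3 = -(2 * p) := by omega
    have key : p ^ 2 + p ^ 2 + (2 * p) ^ 2 = 2 := by
      have : (v.1 - v.2 0 - v.2 5) ^ 2 + (v.1 - v.2 1 - v.2 4) ^ 2 + (v.1 - v.2 2 - v.2 3) ^ 2 = 2 := by
        linear_combination s2 - h' - v.1 * s1
      rw [e1, e2, ← hp] at this
      linear_combination this
    have : 3 * p ^ 2 = 1 := by linarith
    omega
-- END ca

/-- the vector `sg v` of level `k` -/
def sk (hs : Sgl l) (v : Rk l k) : Rk l k := ⟨sg v.1, isR_sg v.2.1, (hs ⟨v.1, v.2.1⟩).trans v.2.2⟩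

-- BEGIN cb
private theorem cb_ne (v w : Rk l k) (h : v.1 = w.1) : v = w := Subtype.ext h

/-- MODULE cb. `Tw` is additive; `bt` is twisted and additive in `a`; a twisted function is the sum of `bt v (f v)` over the representatives (evaluate at `w`: if `sg w = w` only `v = w` contributes; otherwise exactly one of `w`, `sg w` is a representative). -/
theorem Tw.add {τ : K →+* K} {f g : Rk l k → K} (hf : Tw τ f) (hg : Tw τ g) : Tw τ (f + g) := by
  intro v w h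
  show f w + g w = et K v.1 * τ (f v + g v)
  rw [hf v w h, hg v w h, map_add]
  ring

theorem Tw.sub {τ : K →+* K} {f g : Rk l k → K} (hf : Tw τ f) (hg : Tw τ g) : Tw τ (f - g) := by
  intro v w h
  show f w - g w = et K v.1 * τ (f v - g v)
  rw [hf v w h, hg v w h, map_sub]
  ring

theorem Tw.zero (τ : K →+* K) : Tw τ (0 : Rk l k → K) := by
  intro v w _
  show (0 : K) = et K v.1 * τ 0
  rw [map_zero, mul_zero]

theorem Tw.ok {τ : K →+* K} {f : Rk l k → K} (hf : Tw τ f) (v : Rk l k) : Okv τ v.1 (f v) := by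
  intro h
  have h1 := hf v v h.symm
  have h2 : et K v.1 = 1 := et_fix (r := ⟨v.1, v.2.1⟩) (Subtype.ext h)
  rw [h2, one_mul] at h1
  exact h1.symm

theorem bt_tw {τ : K →+* K} (hτ : ∀ a, τ (τ a) = a) {v : Rk l k} {a : K} (ha : Okv τ v.1 a) : Tw τ (bt τ v a) := by
  intro u w h
  by_cases h1 : u = v
  · have h2 : w.1 = sg v.1 := by rw [h, h1]
    have h3 : bt τ v a u = a := by simp [bt, h1]
    rw [h3, h1]
    by_cases h4 : w = v
    · have h5 : sg v.1 = v.1 := by rw [← h2, h4]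
      have h6 : et K v.1 = 1 := et_fix (r := ⟨v.1, v.2.1⟩) (Subtype.ext h5)
      rw [h6, one_mul, ha h5]
      simp [bt, h4]
    · simp only [bt, if_neg h4, if_pos h2]
  · by_cases h2 : u.1 = sg v.1
    · have h3 : w = v := cb_ne _ _ (by rw [h, h2, sg_sg])
      have h4 : bt τ v a u = et K v.1 * τ a := by simp only [bt, if_neg h1, if_pos h2]
      have h5 : et K (sg v.1) = et K v.1 := et_sr (r := (⟨v.1, v.2.1⟩ : Root 6))
      rw [h4, h3, h2, map_mul, et_map, hτ, h5, ← mul_assoc, et_sq, one_mul]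
      simp [bt]
    · have h3 : bt τ v a u = 0 := by simp only [bt, if_neg h1, if_neg h2]
      have h4 : w ≠ v := by
        intro h5
        apply h2
        rw [← h5, h, sg_sg]
      have h6 : w.1 ≠ sg v.1 := by
        intro h5
        apply h1
        apply cb_ne
        rw [← sg_sg u.1, ← h, h5, sg_sg]
      rw [h3, map_zero, mul_zero]
      simp only [bt, if_neg h4, if_neg h6]

theorem bt_add (τ : K →+* K) (v : Rk l k) (a b : K) : bt τ v (a + b) = bt τ v a + bt τ v b := by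
  funext w
  show bt τ v (a + b) w = bt τ v a w + bt τ v b w
  unfold bt
  split_ifs
  · rfl
  · rw [map_add]; ring
  · rw [add_zero]

theorem tw_sum [Fintype (Rk l k)] (hs : Sgl l) {τ : K →+* K} (hτ : ∀ a, τ (τ a) = a) {f : Rk l k → K} (hf : Tw τ f) :
    f = ∑ v, if rp v.1 then bt τ v (f v) else 0 := by
  classical
  funext w
  rw [Finset.sum_apply]
  have hval : ∀ v : Rk l k, (if rp v.1 then bt τ v (f v) else (0 : Rk l k → K)) w =
      if rp v.1 then (if w = v then f v else if w.1 = sg v.1 then et K v.1 * τ (f v) else 0) else 0 := by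
    intro v
    split_ifs with h1 h2 h3
    · simp [bt, h2]
    · simp only [bt, if_neg h2, if_pos h3]
    · simp only [bt, if_neg h2, if_neg h3]
    · rfl
  rw [Finset.sum_congr rfl fun v _ => hval v]
  by_cases hw : rp w.1
  · rw [Finset.sum_eq_single w]
    · rw [if_pos hw, if_pos rfl]
    · intro v _ hv
      by_cases h1 : rp v.1
      · rw [if_pos h1, if_neg (Ne.symm hv), if_neg]
        intro h2
        have h3 : v.1 = sg w.1 := by rw [h2, sg_sg]
        have h4 := rp_and w.2.1 hw (h3 ▸ h1)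
        exact hv (cb_ne _ _ (by rw [h3, h4]))
      · rw [if_neg h1]
    · intro h1
      exact absurd (Finset.mem_univ w) h1
  · have h1 : rp (sg w.1) := (rp_or w.1).resolve_left hw
    rw [Finset.sum_eq_single (sk hs w)]
    · have h2 : w ≠ sk hs w := by
        intro h2
        apply hw
        have h3 : w.1 = sg w.1 := congrArg Subtype.val h2
        rw [h3]
        exact h1
      have h4 : w.1 = sg (sk hs w).1 := (sg_sg w.1).symm
      rw [if_pos (show rp (sk hs w).1 from h1), if_neg h2, if_pos h4]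
      exact hf _ _ h4
    · intro v _ hv
      by_cases h2 : rp v.1
      · rw [if_pos h2, if_neg, if_neg]
        · intro h3
          apply hv
          apply cb_ne
          show v.1 = sg w.1
          rw [h3, sg_sg]
        · intro h3
          exact hw (h3 ▸ h2)
      · rw [if_neg h2]
    · intro h2
      exact absurd (Finset.mem_univ _) h2
-- END cb

-- BEGIN cc
/-- MODULE cc. THE OPERATORS ARE COMPATIBLE WITH THE TWIST.  For `f'`, `f` with `f'(w) = η_w τ(f(sg w))` for all `w` the same holds for `Ao (sg a) (η_a τ c) f'` and `Ao a c f` (`Ao_apply`: at `w`: the vector `w - sg a = sg (sg w - a)`; `et_add` for `sg w - a`, `a`, `sg w`;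
if `sg w - a` is not a root vector of level `k` then `w - sg a` is not either, `ext_not`).  The function `f'` is `tws f`. -/
def tws (hs : Sgl l) (τ : K →+* K) (f : Rk l k → K) : Rk l k → K := fun w => et K w.1 * τ (f (sk hs w))

theorem tws_iff (hs : Sgl l) {τ : K →+* K} (hτ : ∀ a, τ (τ a) = a) (f : Rk l k → K) : Tw τ f ↔ tws hs τ f = f := by
  constructor
  · intro h
    funext w
    show et K w.1 * τ (f (sk hs w)) = f w
    rw [h w (sk hs w) rfl, map_mul, hτ, et_map, ← mul_assoc, et_sq, one_mul]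
  · intro h v w hw
    have h1 : sk hs w = v := Subtype.ext (by show sg w.1 = v.1; rw [hw, sg_sg])
    have h2 : f w = et K w.1 * τ (f (sk hs w)) := (congrFun h w).symm
    have h3 : et K (sg v.1) = et K v.1 := et_sr (⟨v.1, v.2.1⟩ : Root 6)
    rw [h2, h1, hw, h3]

theorem tws_Ao (hl : Addl l) (hs : Sgl l) {τ : K →+* K} (hτ : ∀ a, τ (τ a) = a) {a : Vec 6} (ha : L0 l a) (c : K) (f : Rk l k → K) :
    tws hs τ ((Ao l k K a c).1 f) = (Ao l k K (sg a) (et K a * τ c)).1 (tws hs τ f) := by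
  have ha' : L0 l (sg a) := ⟨isR_sg ha.1, (hs ⟨a, ha.1⟩).trans ha.2⟩
  funext w
  rw [Ao_apply ha']
  show et K w.1 * τ ((Ao l k K a c).1 f (sk hs w)) = _
  rw [Ao_apply ha]
  show et K w.1 * τ (f (sk hs w) + c * (eps K a (sg w.1 - a) * ext f (sg w.1 - a))) =
    et K w.1 * τ (f (sk hs w)) + et K a * τ c * (eps K (sg a) (w.1 - sg a) * ext (tws hs τ f) (w.1 - sg a))
  have hsub : w.1 - sg a = sg (sg w.1 - a) := by rw [sg_sub, sg_sg]
  rw [map_add, mul_add, map_mul, map_mul, eps_map, hsub]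
  by_cases hu : IsR (sg w.1 - a) ∧ l (sg w.1 - a) = k
  · have e1 : ext f (sg w.1 - a) = f ⟨_, hu⟩ := ext_val f ⟨_, hu⟩
    have e2 : ext (tws hs τ f) (sg (sg w.1 - a)) = et K (sg (sg w.1 - a)) * τ (f (sk hs (sk hs ⟨_, hu⟩))) :=
      ext_val (tws hs τ f) (sk hs ⟨_, hu⟩)
    have e3 : sk hs (sk hs (⟨_, hu⟩ : Rk l k)) = ⟨_, hu⟩ := Subtype.ext (sg_sg _)
    have e4 : et K (sg (sg w.1 - a)) = et K (sg w.1 - a) := et_sr (⟨_, hu.1⟩ : Root 6)
    have e5 : et K (sg w.1) = et K w.1 := et_sr (⟨w.1, w.2.1⟩ : Root 6)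
    have e6 := et_add (K := K) (r := ⟨a, ha.1⟩) (s := ⟨sg w.1 - a, hu.1⟩) (t := ⟨sg w.1, isR_sg w.2.1⟩)
      (show sg w.1 = a + (sg w.1 - a) by rw [add_sub_cancel])
    have e7 : et K w.1 * eps K a (sg w.1 - a) = et K a * et K (sg w.1 - a) * eps K (sg a) (sg (sg w.1 - a)) := by
      rw [← e5]; exact e6
    rw [e1, e2, e3, e4]
    linear_combination (τ c * τ (f ⟨_, hu⟩)) * e7
  · have hu' : ¬ (IsR (sg (sg w.1 - a)) ∧ l (sg (sg w.1 - a)) = k) := by
      rintro ⟨h1, h2⟩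
      have h3 := isR_sg h1
      rw [sg_sg] at h3
      exact hu ⟨h3, (hs ⟨_, h3⟩).symm.trans h2⟩
    rw [ext_not f hu, ext_not (tws hs τ f) hu']
    simp only [map_zero, mul_zero]

/-- `bf (sg a) w = bf a (sg w)` -/
theorem tws_Ho (hs : Sgl l) {τ : K →+* K} (hτ : ∀ a, τ (τ a) = a) {a : Vec 6} (ha : IsR a) (c : Kˣ) (f : Rk l k → K) :
    tws hs τ ((Ho l k K a c).1 f) = (Ho l k K (sg a) (Units.map τ.toMonoidHom c)).1 (tws hs τ f) := by
  funext w
  rw [Ho_apply]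
  show et K w.1 * τ (((c ^ bf a (sg w.1) : Kˣ) : K) * f (sk hs w)) =
    (((Units.map τ.toMonoidHom c) ^ bf (sg a) w.1 : Kˣ) : K) * (et K w.1 * τ (f (sk hs w)))
  have h1 : bf (sg a) w.1 = bf a (sg w.1) := bf_sr_left (⟨a, ha⟩ : Root 6) (⟨w.1, w.2.1⟩ : Root 6)
  rw [h1, ← map_zpow, map_mul]
  show _ = τ ((c ^ bf a (sg w.1) : Kˣ) : K) * _
  ring
-- END cc

variable (τ : K →+* K)

/-- the operator of `y_a(c)`, `a` of level zero -/
noncomputable def Ay (l : Vec 6 → ℤ) (k : ℤ) (τ : K →+* K) (a : Vec 6) (c : K) : (Module.End K (Rk l k → K))ˣ :=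
  if sg a = a then Ao l k K a c else Ao l k K a c * Ao l k K (sg a) (et K a * τ c)

/-- the operator of the torus element of `a` -/
def Hy (l : Vec 6 → ℤ) (k : ℤ) (τ : K →+* K) (a : Vec 6) (c : Kˣ) : (Module.End K (Rk l k → K))ˣ :=
  if sg a = a then Ho l k K a c else Ho l k K a c * Ho l k K (sg a) (Units.map τ.toMonoidHom c)

-- BEGIN cd
/-- MODULE cd. `tws_iff`, `tws_Ao`; in the second case the two factors commute (`Ao_cm`: `bf a (sg a) = 0`, so `a + sg a` is neither `0` nor a root vector) and `η_(sg a) τ(η_a τ c) = c`. -/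
theorem Ay_tw (hl : Addl l) (hs : Sgl l) (hk : k ≠ 0) {τ : K →+* K} (hτ : ∀ a, τ (τ a) = a) {a : Vec 6} (ha : L0 l a) {c : K} (hc : Okv τ a c) {f : Rk l k → K} (hf : Tw τ f) :
    Tw τ ((Ay l k τ a c).1 f) := by
  have hf' := (tws_iff hs hτ f).1 hf
  rw [tws_iff hs hτ]
  have ha' : L0 l (sg a) := ⟨isR_sg ha.1, (hs ⟨a, ha.1⟩).trans ha.2⟩
  by_cases hsa : sg a = a
  · have e1 : et K a = 1 := et_fix (r := ⟨a, ha.1⟩) (Subtype.ext hsa)
    have hA : Ay l k τ a c = Ao l k K a c := if_pos hsa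
    rw [hA, tws_Ao hl hs hτ ha c f, hf', hsa, e1, one_mul, hc hsa]
  · have hA : Ay l k τ a c = Ao l k K a c * Ao l k K (sg a) (et K a * τ c) := if_neg hsa
    have hb : bf a (sg a) = 0 := by
      rcases bf_self_sr ⟨a, ha.1⟩ with h1 | h1
      · exact absurd (congrArg Subtype.val h1) hsa
      · exact h1
    have h0 : a + sg a ≠ 0 := by
      intro e
      have e2 : sg a = -a := (neg_eq_of_add_eq_zero_right e).symm
      rw [e2, bf_neg_right, isR_bf ha.1] at hb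
      omega
    have hR : ¬ IsR (a + sg a) := by
      rw [isR_add_iff ha.1 ha'.1, hb]; omega
    have hcm := Ao_cm (K := K) (by norm_num : (6 : ℕ) ≤ 8) hl hk ha ha' h0 hR c (et K a * τ c)
    have hes : et K (sg a) = et K a := et_sr ⟨a, ha.1⟩
    have hcc : et K (sg a) * τ (et K a * τ c) = c := by
      rw [map_mul, hτ, et_map, hes, ← mul_assoc, et_sq, one_mul]
    have e3 : (Ao l k K a c * Ao l k K (sg a) (et K a * τ c)).1 f =
        (Ao l k K a c).1 ((Ao l k K (sg a) (et K a * τ c)).1 f) := rfl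
    have e4 : (Ao l k K (sg a) (et K a * τ c) * Ao l k K a c).1 f =
        (Ao l k K (sg a) (et K a * τ c)).1 ((Ao l k K a c).1 f) := rfl
    rw [hA, e3, tws_Ao hl hs hτ ha c, tws_Ao hl hs hτ ha' (et K a * τ c), hf', sg_sg, hcc, ← e4, ← hcm, e3]

theorem Hy_tw (hs : Sgl l) {τ : K →+* K} (hτ : ∀ a, τ (τ a) = a) {a : Vec 6} (ha : IsR a) {c : Kˣ} (hc : Okv τ a (c : K)) {f : Rk l k → K} (hf : Tw τ f) :
    Tw τ ((Hy l k τ a c).1 f) := by
  have hf' := (tws_iff hs hτ f).1 hf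
  rw [tws_iff hs hτ]
  by_cases hsa : sg a = a
  · have hA : Hy l k τ a c = Ho l k K a c := if_pos hsa
    have e : Units.map τ.toMonoidHom c = c := Units.ext (hc hsa)
    rw [hA, tws_Ho hs hτ ha c f, hf', hsa, e]
  · have hA : Hy l k τ a c = Ho l k K a c * Ho l k K (sg a) (Units.map τ.toMonoidHom c) := if_neg hsa
    have e : Units.map τ.toMonoidHom (Units.map τ.toMonoidHom c) = c := Units.ext (hτ c)
    have e3 : (Ho l k K a c * Ho l k K (sg a) (Units.map τ.toMonoidHom c)).1 f =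
        (Ho l k K a c).1 ((Ho l k K (sg a) (Units.map τ.toMonoidHom c)).1 f) := rfl
    rw [hA, e3, tws_Ho hs hτ ha c, tws_Ho hs hτ (isR_sg ha) (Units.map τ.toMonoidHom c), hf', sg_sg, e]
    funext v
    simp only [Ho_apply]
    ring
-- END cd

section
variable {G : Type*} [Group G] {A : Type*} [CommGroup A] {k : ℕ} {τ : K →+* K}

open Classical in
/-- the element `y_v(a)` of `Uy k` (`1` if `a` is not admissible) -/
noncomputable def yk (x : Root 6 → K → G) (l : Vec 6 → ℤ) (k : ℕ) (τ : K →+* K) (v : Rk l (k : ℤ)) (a : K) : Uy x τ l k :=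
  if h : Ok τ ⟨v.1, v.2.1⟩ a then ⟨yt x τ ⟨v.1, v.2.1⟩ a, Subgroup.subset_closure ⟨⟨v.1, v.2.1⟩, a, by show (k : ℤ) ≤ l v.1; rw [v.2.2], h, rfl⟩⟩ else 1

open Classical in
/-- the product over the representatives -/
noncomputable def FqY [Fintype (Rk l (k : ℤ))] (x : Root 6 → K → G) (τ : K →+* K) (π : Uy x τ l k →* A) (f : Rk l (k : ℤ) → K) : A :=
  ∏ v, if rp v.1 then π (yk x l k τ v (f v)) else 1

-- BEGIN ce
private theorem ce_ok {τ : K →+* K} {v : Rk l (k : ℤ)} {a : K} (ha : Okv τ v.1 a) : Ok τ (⟨v.1, v.2.1⟩ : Root 6) a :=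
  fun h => ha (congrArg Subtype.val h)

private theorem ce_val (x : Root 6 → K → G) {τ : K →+* K} {v : Rk l (k : ℤ)} {a : K} (ha : Okv τ v.1 a) :
    (yk x l k τ v a : G) = yt x τ (⟨v.1, v.2.1⟩ : Root 6) a := by
  unfold yk
  rw [dif_pos (ce_ok ha)]

private theorem ce_zero {x : Root 6 → K → G} (h : Stb K 6 x) (τ : K →+* K) (v : Rk l (k : ℤ)) : yk x l k τ v 0 = 1 := by
  apply Subtype.ext
  rw [ce_val x (fun _ => map_zero τ), yt_zero h]
  rfl

/-- MODULE ce. (Compare row `fd` of ThR.)  `FqY_add`: `yt_add`, `Tw.ok`.  `FqY_bt`: if `rp v`: the factor at `v` is `π (y_v a)`; the factor at `sg v` (if different) is `1` because `sg v` is not a representative (`rp_and`), all others have `f w = 0`.  If `v` is not a representative, `sg v` is, with parameter `η_v τ a`,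
`y_(sg v)(η_v τ a) = y_v(a)` (`yt_sr`).  `FqY_surj`: closure induction on the generators (`l r > k`: `π = 1`; `l r = k`: `FqY_bt`).  `FqY_lift`: induction over the finset. -/
theorem FqY_add [Fintype (Rk l (k : ℤ))] {x : Root 6 → K → G} (h : Stb K 6 x) (π : Uy x τ l k →* A) {f g : Rk l (k : ℤ) → K} (hf : Tw τ f) (hg : Tw τ g) :
    FqY x τ π (f + g) = FqY x τ π f * FqY x τ π g := by
  unfold FqY
  rw [← Finset.prod_mul_distrib]
  refine Finset.prod_congr rfl fun v _ => ?_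
  by_cases hv : rp v.1
  · rw [if_pos hv, if_pos hv, if_pos hv, ← map_mul]
    congr 1
    apply Subtype.ext
    rw [ce_val x ((Tw.add hf hg).ok v), Subgroup.coe_mul, ce_val x (hf.ok v), ce_val x (hg.ok v), Pi.add_apply, yt_add h]
  · rw [if_neg hv, if_neg hv, if_neg hv, one_mul]

theorem FqY_zero [Fintype (Rk l (k : ℤ))] {x : Root 6 → K → G} (h : Stb K 6 x) (π : Uy x τ l k →* A) : FqY x τ π (0 : Rk l (k : ℤ) → K) = 1 := by
  unfold FqY
  refine Finset.prod_eq_one fun v _ => ?_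
  split_ifs
  · rw [Pi.zero_apply, ce_zero h, map_one]
  · rfl

theorem FqY_bt [Fintype (Rk l (k : ℤ))] {x : Root 6 → K → G} (h : Stb K 6 x) (hτ : ∀ a, τ (τ a) = a) (hs : Sgl l) (π : Uy x τ l k →* A) (v : Rk l (k : ℤ)) {a : K} (ha : Okv τ v.1 a) :
    FqY x τ π (bt τ v a) = π (yk x l k τ v a) := by
  unfold FqY
  by_cases hv : rp v.1
  · rw [Finset.prod_eq_single v]
    · rw [if_pos hv]
      congr 2
      unfold bt
      rw [if_pos rfl]
    · intro w _ hw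
      split_ifs with hr
      · have h1 : w.1 ≠ sg v.1 := by
          intro h2
          rw [h2] at hr
          exact hw (Subtype.ext (h2.trans (rp_and v.2.1 hv hr)))
        have h2 : bt τ v a w = 0 := by
          unfold bt
          rw [if_neg hw, if_neg h1]
        rw [h2, ce_zero h, map_one]
      · rfl
    · intro h1
      exact absurd (Finset.mem_univ v) h1
  · have hv' : rp (sg v.1) := (rp_or v.1).resolve_left hv
    have hne : sg v.1 ≠ v.1 := fun h1 => hv (h1 ▸ hv')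
    rw [Finset.prod_eq_single (sk hs v)]
    · rw [if_pos (show rp (sk hs v).1 from hv')]
      congr 1
      apply Subtype.ext
      have h1 : bt τ v a (sk hs v) = et K v.1 * τ a := by
        unfold bt
        rw [if_neg (fun h2 => hne (congrArg Subtype.val h2)), if_pos (show (sk hs v).1 = sg v.1 from rfl)]
      have h3 : Okv τ (sk hs v).1 (et K v.1 * τ a) := by
        intro h4
        exfalso
        apply hne
        have h5 : sg (sg v.1) = sg v.1 := h4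
        rw [sg_sg] at h5
        exact h5.symm
      rw [h1, ce_val x h3, ce_val x ha]
      exact yt_sr (r := ⟨v.1, v.2.1⟩) h hτ (fun h6 => hne (congrArg Subtype.val h6)) a
    · intro w _ hw
      split_ifs with hr
      · have h1 : w.1 ≠ sg v.1 := fun h2 => hw (Subtype.ext h2)
        have h2 : w ≠ v := by
          rintro rfl
          exact hv hr
        have h3 : bt τ v a w = 0 := by
          unfold bt
          rw [if_neg h2, if_neg h1]
        rw [h3, ce_zero h, map_one]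
      · rfl
    · intro h1
      exact absurd (Finset.mem_univ _) h1

theorem FqY_surj [Fintype (Rk l (k : ℤ))] {x : Root 6 → K → G} (h : Stb K 6 x) (hτ : ∀ a, τ (τ a) = a) (hs : Sgl l) {π : Uy x τ l k →* A}
    (hπ : ∀ v, π v = 1 ↔ (v : G) ∈ Uy x τ l (k + 1)) (w : Uy x τ l k) : ∃ f, Tw τ f ∧ π w = FqY x τ π f := by
  obtain ⟨g, hg⟩ := w
  have key : ∀ g (hg : g ∈ Uy x τ l k), ∃ f, Tw τ f ∧ π ⟨g, hg⟩ = FqY x τ π f := by
    intro g hg
    refine Subgroup.closure_induction (p := fun g hg => ∃ f, Tw τ f ∧ π ⟨g, hg⟩ = FqY x τ π f) ?_ ?_ ?_ ?_ hg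
    · rintro g ⟨r, a, hr, ha, rfl⟩
      rcases eq_or_lt_of_le hr with he | hlt
      · have ha' : Okv τ r.1 a := fun h1 => ha (Subtype.ext h1)
        refine ⟨bt τ ⟨r.1, r.2, he.symm⟩ a, bt_tw hτ ha', ?_⟩
        rw [FqY_bt h hτ hs π ⟨r.1, r.2, he.symm⟩ ha']
        congr 1
        apply Subtype.ext
        rw [ce_val x ha']
      · refine ⟨0, Tw.zero τ, ?_⟩
        rw [FqY_zero h, hπ]
        refine Subgroup.subset_closure ⟨r, a, ?_, ha, rfl⟩
        push_cast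
        omega
    · exact ⟨0, Tw.zero τ, by rw [FqY_zero h]; exact map_one π⟩
    · rintro g g' hg hg' ⟨f, hf, hf1⟩ ⟨f', hf', hf1'⟩
      refine ⟨f + f', hf.add hf', ?_⟩
      rw [FqY_add h π hf hf', ← hf1, ← hf1', ← map_mul]
      rfl
    · rintro g hg ⟨f, hf, hf1⟩
      refine ⟨0 - f, (Tw.zero τ).sub hf, ?_⟩
      have e1 : FqY x τ π (0 - f) * FqY x τ π f = 1 := by
        rw [← FqY_add h π ((Tw.zero τ).sub hf) hf, sub_add_cancel, FqY_zero h]
      rw [eq_inv_of_mul_eq_one_left e1, ← hf1, ← map_inv]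
      rfl
  exact key g hg

theorem FqY_lift [Fintype (Rk l (k : ℤ))] (x : Root 6 → K → G) (π : Uy x τ l k →* A) (f : Rk l (k : ℤ) → K) : ∃ w, π w = FqY x τ π f := by
  have h : FqY x τ π f ∈ π.range := by
    unfold FqY
    refine Subgroup.prod_mem _ fun v _ => ?_
    split_ifs
    · exact ⟨yk x l k τ v (f v), rfl⟩
    · exact Subgroup.one_mem _
  exact h
-- END ce

/-- `g` normalizes the filtration and acts on the section `k` as the operator `T` -/
structure ActY [Fintype (Rk l (k : ℤ))] (x : Root 6 → K → G) (τ : K →+* K) (π : Uy x τ l k →* A) (g : G) (T : (Module.End K (Rk l (k : ℤ) → K))ˣ) : Prop where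
  nk : Nrm x τ l g
  tw : ∀ f, Tw τ f → Tw τ (T.1 f)
  tw' : ∀ f, Tw τ f → Tw τ ((T⁻¹).1 f)
  act : ∀ (w w' : Uy x τ l k) (f : Rk l (k : ℤ) → K), Tw τ f → (w' : G) = g * w * g⁻¹ → π w = FqY x τ π f → π w' = FqY x τ π (T.1 f)

-- BEGIN cf
/-- the conjugate -/
private def cf_cj {x : Root 6 → K → G} {g : G} (hk : 1 ≤ k) (nk : Nrm x τ l g) (w : Uy x τ l k) : Uy x τ l k := ⟨g * w * g⁻¹, (nk k hk w w.2).1⟩

private theorem cf_cj_mul {x : Root 6 → K → G} {g : G} (hk : 1 ≤ k) (nk : Nrm x τ l g) (v w : Uy x τ l k) :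
    cf_cj hk nk (v * w) = cf_cj hk nk v * cf_cj hk nk w := by
  apply Subtype.ext
  show g * ((v : G) * w) * g⁻¹ = (g * v * g⁻¹) * (g * w * g⁻¹)
  group

private theorem cf_cj_one {x : Root 6 → K → G} {g : G} (hk : 1 ≤ k) (nk : Nrm x τ l g) : cf_cj hk nk (1 : Uy x τ l k) = 1 := by
  apply Subtype.ext
  show g * (1 : G) * g⁻¹ = 1
  group

private theorem cf_eq {x : Root 6 → K → G} {π : Uy x τ l k →* A} (hπ : ∀ v, π v = 1 ↔ (v : G) ∈ Uy x τ l (k + 1)) {v w : Uy x τ l k} :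
    π v = π w ↔ (v : G)⁻¹ * w ∈ Uy x τ l (k + 1) := by
  have h1 := hπ (v⁻¹ * w)
  rw [map_mul, map_inv, inv_mul_eq_one] at h1
  exact h1

/-- MODULE cf. As rows `fe`, `ff` of ThR (`1 ≤ k`).  `of_gen`: every twisted `f` is the sum of the `bt v (f v)` over the representatives (`tw_sum`), `FqY_add`, `FqY_bt`. -/
theorem ActY.one [Fintype (Rk l (k : ℤ))] (x : Root 6 → K → G) (π : Uy x τ l k →* A) : ActY x τ π 1 1 := by
  refine ⟨Nrm.one x τ l, fun f hf => hf, fun f hf => ?_, fun w w' f hf hw hwf => ?_⟩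
  · rw [inv_one]; exact hf
  · have e : w' = w := Subtype.ext (by rw [hw]; group)
    rw [e]; exact hwf

theorem ActY.mul [Fintype (Rk l (k : ℤ))] (hk : 1 ≤ k) {x : Root 6 → K → G} {π : Uy x τ l k →* A} {g g' : G} {T T' : (Module.End K (Rk l (k : ℤ) → K))ˣ} (h : ActY x τ π g T)
    (h' : ActY x τ π g' T') : ActY x τ π (g * g') (T * T') := by
  refine ⟨h.nk.mul h'.nk, fun f hf => h.tw _ (h'.tw f hf), fun f hf => ?_, fun w w' f hf hw hwf => ?_⟩
  · rw [mul_inv_rev]; exact h'.tw' _ (h.tw' f hf)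
  · have h1 := h'.act w (cf_cj hk h'.nk w) f hf rfl hwf
    exact h.act (cf_cj hk h'.nk w) w' (T'.1 f) (h'.tw f hf) (by
      rw [hw]; show g * g' * (w : G) * (g * g')⁻¹ = g * (g' * w * g'⁻¹) * g⁻¹; group) h1

theorem ActY.inv [Fintype (Rk l (k : ℤ))] (hk : 1 ≤ k) {x : Root 6 → K → G} {π : Uy x τ l k →* A} (hπ : ∀ v, π v = 1 ↔ (v : G) ∈ Uy x τ l (k + 1)) {g : G}
    {T : (Module.End K (Rk l (k : ℤ) → K))ˣ} (h : ActY x τ π g T) : ActY x τ π g⁻¹ T⁻¹ := by
  refine ⟨h.nk.inv, h.tw', fun f hf => ?_, fun w w' f hf hw hwf => ?_⟩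
  · rw [inv_inv]; exact h.tw f hf
  · obtain ⟨w1, hw1⟩ := FqY_lift x π ((T⁻¹).1 f)
    have h1 := h.act w1 (cf_cj hk h.nk w1) _ (h.tw' f hf) rfl hw1
    have e1 : T.1 ((T⁻¹).1 f) = f := by
      have e2 : (T * T⁻¹).1 f = T.1 ((T⁻¹).1 f) := rfl
      rw [← e2, mul_inv_cancel]; rfl
    rw [e1, ← hwf] at h1
    have h2 := (cf_eq hπ).1 h1
    have h3 := (h.nk (k + 1) (by omega) _ h2).2
    rw [← hw1]
    refine ((cf_eq hπ).2 ?_).symm
    have e3 : (w1 : G)⁻¹ * w' = g⁻¹ * ((cf_cj hk h.nk w1 : G)⁻¹ * w) * g := by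
      rw [hw]; show (w1 : G)⁻¹ * (g⁻¹ * w * g⁻¹⁻¹) = g⁻¹ * ((g * w1 * g⁻¹)⁻¹ * w) * g; group
    rw [e3]; exact h3

theorem ActY.of_gen [Fintype (Rk l (k : ℤ))] (hk : 1 ≤ k) {x : Root 6 → K → G} (h : Stb K 6 x) (hτ : ∀ a, τ (τ a) = a) (hs : Sgl l) {π : Uy x τ l k →* A}
    (hπ : ∀ v, π v = 1 ↔ (v : G) ∈ Uy x τ l (k + 1)) {g : G} {T : (Module.End K (Rk l (k : ℤ) → K))ˣ} (nk : Nrm x τ l g) (tw : ∀ f, Tw τ f → Tw τ (T.1 f))
    (tw' : ∀ f, Tw τ f → Tw τ ((T⁻¹).1 f))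
    (hg : ∀ (v : Rk l (k : ℤ)) (a : K), Okv τ v.1 a → ∀ w' : Uy x τ l k, (w' : G) = g * (yk x l k τ v a : G) * g⁻¹ → π w' = FqY x τ π (T.1 (bt τ v a))) : ActY x τ π g T := by
  classical
  refine ⟨nk, tw, tw', fun w w' f hf hw hwf => ?_⟩
  have key : ∀ s : Finset (Rk l (k : ℤ)), Tw τ (∑ v ∈ s, if rp v.1 then bt τ v (f v) else 0) ∧
      ∃ w0 : Uy x τ l k, π w0 = FqY x τ π (∑ v ∈ s, if rp v.1 then bt τ v (f v) else 0) ∧
        π (cf_cj hk nk w0) = FqY x τ π (T.1 (∑ v ∈ s, if rp v.1 then bt τ v (f v) else 0)) := by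
    intro s
    induction s using Finset.induction_on with
    | empty =>
      refine ⟨by rw [Finset.sum_empty]; exact Tw.zero τ, 1, ?_, ?_⟩
      · rw [Finset.sum_empty, FqY_zero h, map_one]
      · rw [Finset.sum_empty, map_zero, FqY_zero h, cf_cj_one, map_one]
    | insert v s hv ih =>
      obtain ⟨h1, w0, h2, h3⟩ := ih
      rw [Finset.sum_insert hv]
      by_cases hr : rp v.1
      · rw [if_pos hr]
        have hok := hf.ok v
        have hb := bt_tw hτ hok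
        refine ⟨hb.add h1, yk x l k τ v (f v) * w0, ?_, ?_⟩
        · rw [map_mul, FqY_add h π hb h1, FqY_bt h hτ hs π v hok, h2]
        · rw [cf_cj_mul, map_mul, map_add, FqY_add h π (tw _ hb) (tw _ h1), h3, hg v (f v) hok _ rfl]
      · rw [if_neg hr, zero_add]
        exact ⟨h1, w0, h2, h3⟩
  obtain ⟨-, w0, h2, h3⟩ := key Finset.univ
  rw [← tw_sum hs hτ hf] at h2 h3
  rw [← h3]
  have h4 := (cf_eq hπ).1 (hwf.trans h2.symm)
  have h5 := (nk (k + 1) (by omega) _ h4).1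
  refine (cf_eq hπ).2 ?_
  have e3 : (w' : G)⁻¹ * (cf_cj hk nk w0 : G) = g * ((w : G)⁻¹ * w0) * g⁻¹ := by
    rw [hw]; show (g * (w : G) * g⁻¹)⁻¹ * (g * w0 * g⁻¹) = g * ((w : G)⁻¹ * w0) * g⁻¹; group
  rw [e3]; exact h5
-- END cf

-- BEGIN cg
private theorem cg_ok {τ : K →+* K} {v : Rk l (k : ℤ)} {a : K} (h : Okv τ v.1 a) : Ok τ ⟨v.1, v.2.1⟩ a :=
  fun e => h (congrArg Subtype.val e)

private theorem cg_okv {τ : K →+* K} {v : Rk l (k : ℤ)} {a : K} (h : Ok τ ⟨v.1, v.2.1⟩ a) : Okv τ v.1 a :=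
  fun e => h (Subtype.ext e)

private theorem cg_yk {x : Root 6 → K → G} {τ : K →+* K} {v : Rk l (k : ℤ)} {a : K} (h : Ok τ ⟨v.1, v.2.1⟩ a) :
    ((yk x l k τ v a : Uy x τ l k) : G) = yt x τ ⟨v.1, v.2.1⟩ a := by
  unfold yk
  rw [dif_pos h]

private theorem cg_single {a : Vec 6} (ha : L0 l a) (c : K) (v : Rk l (k : ℤ)) (t : K) (w : Rk l (k : ℤ)) :
    (Ao l (k : ℤ) K a c).1 (Pi.single v t) w = (Pi.single v t : Rk l (k : ℤ) → K) w + if w.1 - a = v.1 then c * (eps K a v.1 * t) else 0 := by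
  rw [Ao_apply ha]
  by_cases hw : w.1 - a = v.1
  · rw [if_pos hw, hw, ext_val, Pi.single_eq_same]
  · rw [if_neg hw]
    have h1 : ext (Pi.single v t : Rk l (k : ℤ) → K) (w.1 - a) = 0 := by
      unfold ext
      split_ifs with h1
      · rw [Pi.single_eq_of_ne]
        intro h2
        exact hw (congrArg Subtype.val h2)
      · rfl
    rw [h1, mul_zero, mul_zero]

private theorem cg_Am {a : Vec 6} (ha : L0 l a) (c : K) {v t : Rk l (k : ℤ)} (ht : t.1 = a + v.1) (b : K) :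
    (Ao l (k : ℤ) K a c).1 (Pi.single v b) = Pi.single t (eps K a v.1 * c * b) + Pi.single v b := by
  funext w
  rw [cg_single ha, Pi.add_apply]
  by_cases hw : w.1 - a = v.1
  · have h1 : w = t := by
      apply Subtype.ext
      rw [ht, ← hw]
      abel
    rw [if_pos hw, h1, Pi.single_eq_same]
    ring
  · have h1 : w ≠ t := by
      intro h1
      apply hw
      rw [h1, ht]
      abel
    rw [if_neg hw, Pi.single_eq_of_ne h1, zero_add, add_zero]

private theorem cg_A0 {a : Vec 6} (ha : L0 l a) (c : K) {v : Rk l (k : ℤ)} (hv : bf a v.1 ≠ -1) (b : K) :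
    (Ao l (k : ℤ) K a c).1 (Pi.single v b) = Pi.single v b := by
  funext w
  rw [cg_single ha]
  have hw : w.1 - a ≠ v.1 := by
    intro h1
    apply hv
    rw [← isR_add_iff ha.1 v.2.1, ← h1]
    have h2 : a + (w.1 - a) = w.1 := by abel
    rw [h2]
    exact w.2.1
  rw [if_neg hw, add_zero]

private theorem cg_btf {τ : K →+* K} {v : Rk l (k : ℤ)} (hv : sg v.1 = v.1) (a : K) : bt τ v a = Pi.single v a := by
  funext w
  unfold bt
  by_cases h1 : w = v
  · rw [if_pos h1, h1, Pi.single_eq_same]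
  · have h2 : w.1 ≠ sg v.1 := by
      rw [hv]
      exact fun e => h1 (Subtype.ext e)
    rw [if_neg h1, if_neg h2, Pi.single_eq_of_ne h1]

private theorem cg_btm {τ : K →+* K} {v u : Rk l (k : ℤ)} (hu : u.1 = sg v.1) (hv : sg v.1 ≠ v.1) (a : K) :
    bt τ v a = Pi.single v a + Pi.single u (et K v.1 * τ a) := by
  funext w
  unfold bt
  rw [Pi.add_apply]
  by_cases h1 : w = v
  · have h2 : w ≠ u := by
      intro h2
      apply hv
      rw [← hu, ← h2, h1]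
    rw [if_pos h1, h1, Pi.single_eq_same, Pi.single_eq_of_ne (h1 ▸ h2), add_zero]
  · rw [if_neg h1, Pi.single_eq_of_ne h1, zero_add]
    by_cases h2 : w = u
    · have h3 : w.1 = sg v.1 := by
        rw [h2, hu]
      rw [if_pos h3, h2, Pi.single_eq_same]
    · have h3 : w.1 ≠ sg v.1 := by
        rw [← hu]
        exact fun e => h2 (Subtype.ext e)
      rw [if_neg h3, Pi.single_eq_of_ne h2]

private theorem cg_self {a : Vec 6} (ha : IsR a) (h : sg a ≠ a) : bf a (sg a) = 0 := by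
  rcases bf_self_sr ⟨a, ha⟩ with h1 | h1
  · exact absurd (congrArg Subtype.val h1) h
  · exact h1

private theorem cg_cm (hl : Addl l) (hs : Sgl l) (hk : (k : ℤ) ≠ 0) {a : Vec 6} (ha : L0 l a) (h : sg a ≠ a) (c d : K) :
    Ao l (k : ℤ) K a c * Ao l (k : ℤ) K (sg a) d = Ao l (k : ℤ) K (sg a) d * Ao l (k : ℤ) K a c := by
  have hb : L0 l (sg a) := ⟨isR_sg ha.1, (hs ⟨a, ha.1⟩).trans ha.2⟩
  have h0 := cg_self ha.1 h
  refine Ao_cm (by norm_num) hl hk ha hb ?_ ?_ c d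
  · intro e
    have e1 : sg a = -a := by
      rw [← sub_eq_zero, sub_neg_eq_add, add_comm]
      exact e
    rw [e1, bf_neg_right, isR_bf ha.1] at h0
    norm_num at h0
  · rw [isR_add_iff ha.1 hb.1, h0]
    norm_num

private theorem cg_inv (hl : Addl l) (hs : Sgl l) (hk : (k : ℤ) ≠ 0) {τ : K →+* K} {a : Vec 6} (ha : L0 l a) (c : K) :
    (Ay l (k : ℤ) τ a c)⁻¹ = Ay l (k : ℤ) τ a (-c) := by
  have hb : L0 l (sg a) := ⟨isR_sg ha.1, (hs ⟨a, ha.1⟩).trans ha.2⟩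
  unfold Ay
  by_cases h : sg a = a
  · rw [if_pos h, if_pos h, Ao_neg ha]
  · rw [if_neg h, if_neg h, map_neg, mul_neg, Ao_neg ha, Ao_neg hb, mul_inv_rev]
    have h1 := cg_cm (K := K) hl hs hk ha h c (et K a * τ c)
    rw [← mul_inv_rev, h1, mul_inv_rev]

private theorem cg_Ayf {τ : K →+* K} {a : Vec 6} (h : sg a = a) (c : K) (f : Rk l (k : ℤ) → K) : (Ay l (k : ℤ) τ a c).1 f = (Ao l (k : ℤ) K a c).1 f := by
  unfold Ay
  rw [if_pos h]

private theorem cg_Aym {τ : K →+* K} {a : Vec 6} (h : sg a ≠ a) (c : K) (f : Rk l (k : ℤ) → K) :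
    (Ay l (k : ℤ) τ a c).1 f = (Ao l (k : ℤ) K a c).1 ((Ao l (k : ℤ) K (sg a) (et K a * τ c)).1 f) := by
  unfold Ay
  rw [if_neg h]
  rfl

private theorem cg_f2 [Fintype (Rk l (k : ℤ))] {x : Root 6 → K → G} (h : Stb K 6 x) (hτ : ∀ a, τ (τ a) = a) (hs : Sgl l) {π : Uy x τ l k →* A} {t v : Rk l (k : ℤ)} {b a : K}
    (hb : Okv τ t.1 b) (ha : Okv τ v.1 a) {w' : Uy x τ l k} (hw : (w' : G) = yt x τ ⟨t.1, t.2.1⟩ b * yt x τ ⟨v.1, v.2.1⟩ a) :
    π w' = FqY x τ π (bt τ t b + bt τ v a) := by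
  have h1 : w' = yk x l k τ t b * yk x l k τ v a := by
    apply Subtype.ext
    rw [hw, Subgroup.coe_mul, cg_yk (cg_ok hb), cg_yk (cg_ok ha)]
  rw [h1, map_mul, FqY_add h π (bt_tw hτ hb) (bt_tw hτ ha), FqY_bt h hτ hs π t hb, FqY_bt h hτ hs π v ha]

private theorem cg_f3 [Fintype (Rk l (k : ℤ))] {x : Root 6 → K → G} (h : Stb K 6 x) (hτ : ∀ a, τ (τ a) = a) (hs : Sgl l) {π : Uy x τ l k →* A} {t u v : Rk l (k : ℤ)} {b d a : K}
    (hb : Okv τ t.1 b) (hd : Okv τ u.1 d) (ha : Okv τ v.1 a) {w' : Uy x τ l k}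
    (hw : (w' : G) = yt x τ ⟨t.1, t.2.1⟩ b * yt x τ ⟨u.1, u.2.1⟩ d * yt x τ ⟨v.1, v.2.1⟩ a) :
    π w' = FqY x τ π (bt τ t b + bt τ u d + bt τ v a) := by
  have h1 : w' = yk x l k τ t b * yk x l k τ u d * yk x l k τ v a := by
    apply Subtype.ext
    rw [hw, Subgroup.coe_mul, Subgroup.coe_mul, cg_yk (cg_ok hb), cg_yk (cg_ok hd), cg_yk (cg_ok ha)]
  rw [h1, map_mul, map_mul, FqY_add h π (Tw.add (bt_tw hτ hb) (bt_tw hτ hd)) (bt_tw hτ ha), FqY_add h π (bt_tw hτ hb) (bt_tw hτ hd), FqY_bt h hτ hs π t hb,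
    FqY_bt h hτ hs π u hd, FqY_bt h hτ hs π v ha]

private theorem cg_f2k [Fintype (Rk l (k : ℤ))] {x : Root 6 → K → G} (h : Stb K 6 x) (hτ : ∀ a, τ (τ a) = a) (hs : Sgl l) {π : Uy x τ l k →* A}
    (hπ : ∀ v, π v = 1 ↔ (v : G) ∈ Uy x τ l (k + 1)) {t v : Rk l (k : ℤ)} {u : Root 6} (hu : ((k + 1 : ℕ) : ℤ) ≤ l u.1) {b d a : K}
    (hb : Okv τ t.1 b) (hd : Ok τ u d) (ha : Okv τ v.1 a) {w' : Uy x τ l k}
    (hw : (w' : G) = yt x τ ⟨t.1, t.2.1⟩ b * yt x τ u d * yt x τ ⟨v.1, v.2.1⟩ a) :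
    π w' = FqY x τ π (bt τ t b + bt τ v a) := by
  have hm : yt x τ u d ∈ Uy x τ l (k + 1) := Subgroup.subset_closure ⟨u, d, hu, hd, rfl⟩
  have hm' : yt x τ u d ∈ Uy x τ l k := Uy.anti x τ l (Nat.le_succ k) hm
  have h1 : w' = yk x l k τ t b * ⟨yt x τ u d, hm'⟩ * yk x l k τ v a := by
    apply Subtype.ext
    rw [hw, Subgroup.coe_mul, Subgroup.coe_mul, cg_yk (cg_ok hb), cg_yk (cg_ok ha)]
  rw [h1, map_mul, map_mul, (hπ ⟨yt x τ u d, hm'⟩).2 hm, mul_one, FqY_add h π (bt_tw hτ hb) (bt_tw hτ ha), FqY_bt h hτ hs π t hb, FqY_bt h hτ hs π v ha]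

private theorem cg_lv (hl : Addl l) {s : Root 6} (h0 : l s.1 = 0) {v : Rk l (k : ℤ)} {t : Root 6} (ht : t.1 = s.1 + v.1) : IsR t.1 ∧ l t.1 = (k : ℤ) :=
  ⟨t.2, by rw [ht, hl, h0, v.2.2, zero_add]⟩

private theorem cg_et {r s t : Root 6} (h : t.1 = r.1 + s.1) {τ : K →+* K} (c a : K) :
    et K t.1 * τ (eps K r.1 s.1 * c * a) = eps K (sg r.1) (sg s.1) * (et K r.1 * τ c) * (et K s.1 * τ a) := by
  have h1 := et_add (K := K) h
  rw [map_mul, map_mul, eps_map, ← mul_assoc, ← mul_assoc, h1]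
  ring

private theorem cg_neg [Fintype (Rk l (k : ℤ))] (hl : Addl l) (hs : Sgl l) (hk : 1 ≤ k) {x : Root 6 → K → G} (h : Stb K 6 x) (hτ : ∀ a, τ (τ a) = a) {π : Uy x τ l k →* A}
    (hπ : ∀ v, π v = 1 ↔ (v : G) ∈ Uy x τ l (k + 1)) {s : Root 6} (h0 : l s.1 = 0) {c : K} (hc : Ok τ s c) {v : Rk l (k : ℤ)} {a : K} (hv : Okv τ v.1 a) (hb : bf s.1 v.1 = -1)
    {w' : Uy x τ l k} (hw : (w' : G) = yt x τ s c * yt x τ ⟨v.1, v.2.1⟩ a * (yt x τ s c)⁻¹) : π w' = FqY x τ π ((Ay l (k : ℤ) τ s.1 c).1 (bt τ v a)) := by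
  have hk1 : (1 : ℤ) ≤ (k : ℤ) := by exact_mod_cast hk
  have ha : L0 l s.1 := ⟨s.2, h0⟩
  have ha' : L0 l (sg s.1) := ⟨isR_sg s.2, (hs s).trans h0⟩
  obtain ⟨t, ht⟩ := root_add (r := s) (s := ⟨v.1, v.2.1⟩) hb
  have ht' : t.1 = s.1 + v.1 := ht
  have htl := cg_lv hl h0 ht'
  obtain ⟨v', hv'⟩ : ∃ v' : Rk l (k : ℤ), v'.1 = sg v.1 := ⟨sk hs v, rfl⟩
  obtain ⟨t', ht''⟩ : ∃ t' : Rk l (k : ℤ), t'.1 = sg t.1 := ⟨sk hs ⟨t.1, htl⟩, rfl⟩
  have hst : t'.1 = sg s.1 + v'.1 := by rw [ht'', hv', ht', sg_add]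
  by_cases hsf : sr s = s
  · have hsf' : sg s.1 = s.1 := congrArg Subtype.val hsf
    by_cases hvf : sr ⟨v.1, v.2.1⟩ = ⟨v.1, v.2.1⟩
    · have hvf' : sg v.1 = v.1 := congrArg Subtype.val hvf
      obtain ⟨k1, k2⟩ := yt_c1 h τ hsf hvf ht c a
      have htf : sg t.1 = t.1 := congrArg Subtype.val k1
      have e1 : (Ay l (k : ℤ) τ s.1 c).1 (bt τ v a) = bt τ (⟨t.1, htl⟩ : Rk l (k : ℤ)) (eps K s.1 v.1 * c * a) + bt τ v a := by
        rw [cg_Ayf hsf', cg_btf hvf', cg_btf (v := (⟨t.1, htl⟩ : Rk l (k : ℤ))) htf]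
        exact cg_Am ha c ht' a
      rw [e1]
      refine cg_f2 h hτ hs (fun _ => ?_) hv (hw.trans k2)
      rw [map_mul, map_mul, eps_map, hc hsf, hv hvf']
    · have hvf' : sg v.1 ≠ v.1 := fun e => hvf (Subtype.ext e)
      have e1 : bf t.1 (sr ⟨v.1, v.2.1⟩).1 = -1 := by
        have e2 : bf s.1 (sg v.1) = -1 := by
          have e3 := bf_sr s ⟨v.1, v.2.1⟩
          rw [hsf] at e3
          exact e3.trans hb
        show bf t.1 (sg v.1) = -1
        rw [ht', bf_add_left, e2, cg_self v.2.1 hvf', add_zero]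
      obtain ⟨u, hu⟩ := root_add e1
      have hu' : u.1 = t.1 + sg v.1 := hu
      obtain ⟨k1, k2, d, hd, k3⟩ := yt_c2 h hτ hsf hvf ht hu' (hc hsf) a
      have htf : sg t.1 ≠ t.1 := fun e => k1 (Subtype.ext e)
      have hul : ((k + 1 : ℕ) : ℤ) ≤ l u.1 := by
        rw [hu', hl, htl.2]
        have h5 : l (sg v.1) = (k : ℤ) := (hs ⟨v.1, v.2.1⟩).trans v.2.2
        rw [h5]
        push_cast
        omega
      have e2 : (Ay l (k : ℤ) τ s.1 c).1 (bt τ v a) = bt τ (⟨t.1, htl⟩ : Rk l (k : ℤ)) (eps K s.1 v.1 * c * a) + bt τ v a := by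
        rw [cg_Ayf hsf', cg_btm hv' hvf', cg_btm (v := (⟨t.1, htl⟩ : Rk l (k : ℤ))) ht'' htf, map_add, cg_Am ha c (t := (⟨t.1, htl⟩ : Rk l (k : ℤ))) ht' a]
        have e3 : t'.1 = s.1 + v'.1 := by rw [hst, hsf']
        have e4 := cg_et (K := K) ht (τ := τ) c a
        have e5 : et K t.1 * τ (eps K s.1 v.1 * c * a) = eps K s.1 v'.1 * c * (et K v.1 * τ a) := by
          rw [e4, hsf', hv', et_fix hsf, hc hsf, one_mul]
        rw [cg_Am ha c e3 (et K v.1 * τ a), e5]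
        abel
      rw [e2]
      exact cg_f2k h hτ hs hπ hul (cg_okv (Ok.of_ne k1 _)) (fun _ => hd) hv (hw.trans k3)
  · have hsf' : sg s.1 ≠ s.1 := fun e => hsf (Subtype.ext e)
    by_cases hvf : sr ⟨v.1, v.2.1⟩ = ⟨v.1, v.2.1⟩
    · have hvf' : sg v.1 = v.1 := congrArg Subtype.val hvf
      have e0 : bf (sg s.1) v.1 = -1 := by
        have e3 := bf_sr s ⟨v.1, v.2.1⟩
        rw [hvf] at e3
        exact e3.trans hb
      have e1 : bf t.1 (sr s).1 = -1 := by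
        show bf t.1 (sg s.1) = -1
        rw [ht', bf_add_left, cg_self s.2 hsf', bf_comm v.1, e0, zero_add]
      obtain ⟨u, hu⟩ := root_add e1
      have hu' : u.1 = t.1 + sg s.1 := hu
      obtain ⟨k1, k2, hd, k3⟩ := yt_c3 h hτ hsf hvf ht hu' c (hv hvf')
      have htf : sg t.1 ≠ t.1 := fun e => k1 (Subtype.ext e)
      have huf : sg u.1 = u.1 := congrArg Subtype.val k2
      have hul : IsR u.1 ∧ l u.1 = (k : ℤ) := ⟨u.2, by rw [hu', hl, htl.2, ha'.2, add_zero]⟩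
      have hut : u.1 = s.1 + t'.1 := by
        rw [ht'', ht', sg_add, hvf', hu', ht']
        abel
      have e3 : t'.1 = sg s.1 + v.1 := by rw [hst, hv', hvf']
      have e4 := cg_et (K := K) ht (τ := τ) c a
      have e5 : et K t.1 * τ (eps K s.1 v.1 * c * a) = et K s.1 * eps K (sg s.1) v.1 * τ c * a := by
        rw [e4]
        show eps K (sg s.1) (sg v.1) * (et K s.1 * τ c) * (et K v.1 * τ a) = _
        rw [hvf', show et K v.1 = 1 from et_fix hvf, hv hvf']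
        ring
      have e2 : (Ay l (k : ℤ) τ s.1 c).1 (bt τ v a) = bt τ (⟨t.1, htl⟩ : Rk l (k : ℤ)) (eps K s.1 v.1 * c * a) +
          bt τ (⟨u.1, hul⟩ : Rk l (k : ℤ)) (eps K s.1 (sg t.1) * c * (et K s.1 * eps K (sg s.1) v.1 * τ c * a)) + bt τ v a := by
        rw [cg_Aym hsf', cg_btf hvf', cg_btf (v := (⟨u.1, hul⟩ : Rk l (k : ℤ))) huf, cg_btm (v := (⟨t.1, htl⟩ : Rk l (k : ℤ))) ht'' htf, cg_Am ha' (et K s.1 * τ c) e3 a, map_add,
          cg_Am ha c (t := (⟨t.1, htl⟩ : Rk l (k : ℤ))) ht' a, cg_Am ha c (t := (⟨u.1, hul⟩ : Rk l (k : ℤ))) hut, e5]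
        have e6 : eps K (sg s.1) v.1 * (et K s.1 * τ c) * a = et K s.1 * eps K (sg s.1) v.1 * τ c * a := by ring
        rw [e6, ht'']
        abel
      rw [e2]
      exact cg_f3 h hτ hs (cg_okv (Ok.of_ne k1 _)) (fun _ => hd) hv (hw.trans k3)
    · have hvf' : sg v.1 ≠ v.1 := fun e => hvf (Subtype.ext e)
      have e0 : bf (sg s.1) v.1 = bf s.1 (sg v.1) := bf_sr_left s ⟨v.1, v.2.1⟩
      have e1 : bf s.1 t'.1 = bf s.1 (sg v.1) := by
        rw [hst, bf_add_right, cg_self s.2 hsf', hv', zero_add]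
      have hne : bf s.1 (sg v.1) = 0 ∨ bf s.1 (sg v.1) = 1 := no_c6 hsf hvf hb
      have hne' : bf s.1 (sg v.1) ≠ -1 := by
        rcases hne with e | e
        · rw [e]
          norm_num
        · rw [e]
          norm_num
      have e4 := cg_et (K := K) ht (τ := τ) c a
      have e5 : et K t.1 * τ (eps K s.1 v.1 * c * a) = eps K (sg s.1) v'.1 * (et K s.1 * τ c) * (et K v.1 * τ a) := by
        rw [e4, hv']
      have e2 : (Ay l (k : ℤ) τ s.1 c).1 (bt τ v a) = Pi.single (⟨t.1, htl⟩ : Rk l (k : ℤ)) (eps K s.1 v.1 * c * a) +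
          Pi.single t' (et K t.1 * τ (eps K s.1 v.1 * c * a)) + bt τ v a := by
        rw [cg_Aym hsf', cg_btm hv' hvf', map_add, cg_A0 ha' (et K s.1 * τ c) (v := v) (by rw [e0]; exact hne') a, cg_Am ha' (et K s.1 * τ c) hst, map_add, map_add,
          cg_Am ha c (t := (⟨t.1, htl⟩ : Rk l (k : ℤ))) ht' a, cg_A0 ha c (v := t') (by rw [e1]; exact hne'), cg_A0 ha c (v := v') (by rw [hv']; exact hne'), e5]
        abel
      rcases hne with e | e
      · obtain ⟨k1, k2⟩ := yt_c4 h hτ hsf hvf ht e c a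
        have htf : sg t.1 ≠ t.1 := fun e => k1 (Subtype.ext e)
        rw [e2, ← cg_btm (v := (⟨t.1, htl⟩ : Rk l (k : ℤ))) ht'' htf]
        exact cg_f2 h hτ hs (cg_okv (Ok.of_ne k1 _)) hv (hw.trans k2)
      · obtain ⟨k1, k2⟩ := yt_c5 h hτ hsf hvf ht e c a
        have htf : sg t.1 = t.1 := congrArg Subtype.val k1
        have e6 : t' = (⟨t.1, htl⟩ : Rk l (k : ℤ)) := Subtype.ext (ht''.trans htf)
        have e7 : (Ay l (k : ℤ) τ s.1 c).1 (bt τ v a) = bt τ (⟨t.1, htl⟩ : Rk l (k : ℤ)) (eps K s.1 v.1 * c * a + τ (eps K s.1 v.1 * c * a)) + bt τ v a := by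
          rw [e2, e6, et_fix k1, one_mul, cg_btf (v := (⟨t.1, htl⟩ : Rk l (k : ℤ))) htf, Pi.single_add]
        rw [e7]
        refine cg_f2 h hτ hs (fun _ => ?_) hv (hw.trans k2)
        rw [map_add, hτ, add_comm]

/-- MODULE cg. The generators `y_s(c)`, `l s = 0` (operators `Ay`), by `ActY.of_gen`, `Nrm.of_root`, `Ay_tw` (for the inverse: `Ay a (-c) = (Ay a c)⁻¹`).  On `y_v(a)` (`bf s v`, `bf s (sg v) ∈ {-1, 0, 1}` by `L0.cases`):
both forms `≥ 0`: `yt_comm`, and `Ay s c (bt v a) = bt v a`; `bf s v = -1`: the cases `c1 .. c5` (`u` of `c2` has level `2 k`, `y_u` is in `Uy (k + 1)`), and `Ay s c (bt v a) = bt v a + bt t (..) + bt u (..)` (evaluate `Ao_apply`; `et_add` for the coefficient at `sg t`);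
`bf s (sg v) = -1`, `bf s v ≥ 0`: replace `v`, `a` by `sg v`, `η_v τ a` (`bt (sg v) (η_v τ a) = bt v a`, `yt_sr`). -/
theorem ActY_y [Fintype (Rk l (k : ℤ))] (hl : Addl l) (hs : Sgl l) (hk : 1 ≤ k) {x : Root 6 → K → G} (h : Stb K 6 x) (hτ : ∀ a, τ (τ a) = a) {π : Uy x τ l k →* A}
    (hπ : ∀ v, π v = 1 ↔ (v : G) ∈ Uy x τ l (k + 1)) (s : Root 6) (h0 : l s.1 = 0) {c : K} (hc : Ok τ s c) : ActY x τ π (yt x τ s c) (Ay l (k : ℤ) τ s.1 c) := by
  have hk0 : (k : ℤ) ≠ 0 := by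
    have : (1 : ℤ) ≤ (k : ℤ) := by exact_mod_cast hk
    omega
  have ha : L0 l s.1 := ⟨s.2, h0⟩
  have ha' : L0 l (sg s.1) := ⟨isR_sg s.2, (hs s).trans h0⟩
  have hc' : Okv τ s.1 c := fun e => hc (Subtype.ext e)
  have hcn : Okv τ s.1 (-c) := fun e => by rw [map_neg, hc' e]
  refine ActY.of_gen hk h hτ hs hπ (Nrm.of_root h hτ hl hs h0 hc) (fun f hf => Ay_tw hl hs hk0 hτ ha hc' hf) (fun f hf => ?_) ?_
  · rw [cg_inv hl hs hk0 ha]
    exact Ay_tw hl hs hk0 hτ ha hcn hf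
  · intro v a hv w' hw'
    rw [cg_yk (cg_ok hv)] at hw'
    obtain ⟨v', hv'⟩ : ∃ v' : Rk l (k : ℤ), v'.1 = sg v.1 := ⟨sk hs v, rfl⟩
    have g1 := L0.cases (by norm_num) hl hk0 ha v.2.1 v.2.2
    have g2 := L0.cases (by norm_num) hl hk0 ha v'.2.1 v'.2.2
    by_cases hA : bf s.1 v.1 = -1
    · exact cg_neg hl hs hk h hτ hπ h0 hc hv hA hw'
    · by_cases hB : bf s.1 v'.1 = -1
      · have hvf : sr ⟨v.1, v.2.1⟩ ≠ ⟨v.1, v.2.1⟩ := by
          intro e
          apply hA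
          have e1 : sg v.1 = v.1 := congrArg Subtype.val e
          rw [hv', e1] at hB
          exact hB
        have hvf' : sg v.1 ≠ v.1 := fun e => hvf (Subtype.ext e)
        have hvf2 : sg v'.1 ≠ v'.1 := by
          rw [hv', sg_sg]
          exact fun e => hvf' e.symm
        have e1 : yt x τ ⟨v'.1, v'.2.1⟩ (et K v.1 * τ a) = yt x τ ⟨v.1, v.2.1⟩ a := by
          have e2 := yt_sr h hτ hvf a
          have e3 : (⟨v'.1, v'.2.1⟩ : Root 6) = sr ⟨v.1, v.2.1⟩ := Subtype.ext hv'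
          rw [e3]
          exact e2
        have e2 : bt τ v' (et K v.1 * τ a) = bt τ v a := by
          have e3 : v.1 = sg v'.1 := by rw [hv', sg_sg]
          have e4 : et K v'.1 = et K v.1 := by
            rw [hv']
            exact et_sr ⟨v.1, v.2.1⟩
          rw [cg_btm e3 hvf2, cg_btm hv' hvf', e4, map_mul, et_map, hτ, ← mul_assoc, et_sq, one_mul]
          abel
        rw [← e2]
        rw [← e1] at hw'
        exact cg_neg hl hs hk h hτ hπ h0 hc (fun e => absurd e hvf2) hB hw'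
      · have g3 : 0 ≤ bf s.1 v.1 := by omega
        have g4 : 0 ≤ bf s.1 (sr ⟨v.1, v.2.1⟩).1 := by
          show 0 ≤ bf s.1 (sg v.1)
          rw [← hv']
          omega
        have h2 := yt_comm h τ (r := s) (s := ⟨v.1, v.2.1⟩) g3 g4 c a
        have h3 : w' = yk x l k τ v a := by
          apply Subtype.ext
          rw [hw', cg_yk (cg_ok hv), h2, mul_inv_cancel_right]
        have h4 : (Ay l (k : ℤ) τ s.1 c).1 (bt τ v a) = bt τ v a := by
          have e5 : ∀ w : Rk l (k : ℤ), (w = v ∨ w = v') → ∀ b : K, (Ao l (k : ℤ) K s.1 c).1 (Pi.single w b) = Pi.single w b := by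
            rintro w (rfl | rfl) b
            · exact cg_A0 ha c hA b
            · exact cg_A0 ha c hB b
          have e6 : ∀ w : Rk l (k : ℤ), (w = v ∨ w = v') → ∀ d b : K, (Ao l (k : ℤ) K (sg s.1) d).1 (Pi.single w b) = Pi.single w b := by
            rintro w (rfl | rfl) d b
            · refine cg_A0 ha' d ?_ b
              rw [show bf (sg s.1) w.1 = bf s.1 v'.1 by rw [hv']; exact bf_sr_left s ⟨w.1, w.2.1⟩]
              exact hB
            · refine cg_A0 ha' d ?_ b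
              rw [show bf (sg s.1) w.1 = bf s.1 v.1 by rw [hv']; exact bf_sr s ⟨v.1, v.2.1⟩]
              exact hA
          by_cases hsf : sg s.1 = s.1
          · rw [cg_Ayf hsf]
            by_cases hvf : sg v.1 = v.1
            · rw [cg_btf hvf, e5 v (Or.inl rfl)]
            · rw [cg_btm hv' hvf, map_add, e5 v (Or.inl rfl), e5 v' (Or.inr rfl)]
          · rw [cg_Aym hsf]
            by_cases hvf : sg v.1 = v.1
            · rw [cg_btf hvf, e6 v (Or.inl rfl), e5 v (Or.inl rfl)]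
            · rw [cg_btm hv' hvf, map_add, e6 v (Or.inl rfl), e6 v' (Or.inr rfl), map_add, e5 v (Or.inl rfl), e5 v' (Or.inr rfl)]
        rw [h4, h3, FqY_bt h hτ hs π v hv]
-- END cg

/-- the torus element -/
def hy (x : Root 6 → K → G) (τ : K →+* K) (r : Root 6) (c : K) : G := if sr r = r then hh x r c else hh x r c * hh x (sr r) (τ c)

/-- the character of the torus element -/
def cy (τ : K →+* K) (r s : Vec 6) (c : K) : K := if sg r = r then c ^ bf r s else c ^ bf r s * τ c ^ bf (sg r) s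

-- BEGIN ch
/-- MODULE ch. `hh_conj` (twice); for `s` not fixed the second factor: `cy τ r (sg s) c = τ (cy τ r s c)` (`bf_sg`; for `r` fixed: `τ c = c`). -/
private theorem ch_cy_sg {τ : K →+* K} (hτ : ∀ a, τ (τ a) = a) (r s : Root 6) {c : K} (hr : Ok τ r c) :
    cy τ r.1 (sr s).1 c = τ (cy τ r.1 s.1 c) := by
  have h1 : bf (sg r.1) s.1 = bf r.1 (sr s).1 := bf_sr_left r s
  have h2 : bf (sg r.1) (sr s).1 = bf r.1 s.1 := bf_sr r s
  unfold cy
  by_cases h : sg r.1 = r.1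
  · rw [if_pos h, if_pos h, map_zpow₀, hr (Subtype.ext h), ← h1, h]
  · rw [if_neg h, if_neg h, map_mul, map_zpow₀, map_zpow₀, hτ, h1, h2, mul_comm]

private theorem ch_x {x : Root 6 → K → G} (h : Stb K 6 x) (τ : K →+* K) (r s : Root 6) {c : K} (hc : c ≠ 0) (b : K) :
    hy x τ r c * x s b * (hy x τ r c)⁻¹ = x s (cy τ r.1 s.1 c * b) := by
  unfold hy cy
  by_cases hf : sr r = r
  · rw [if_pos hf, if_pos (show sg r.1 = r.1 from congrArg Subtype.val hf)]
    exact hh_conj (Or.inl rfl) h r s hc b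
  · rw [if_neg hf, if_neg (fun h' : sg r.1 = r.1 => hf (Subtype.ext h'))]
    have h1 := hh_conj (Or.inl rfl) h (sr r) s ((map_ne_zero τ).2 hc) b
    have h2 := hh_conj (Or.inl rfl) h r s hc (τ c ^ bf (sr r).1 s.1 * b)
    calc hh x r c * hh x (sr r) (τ c) * x s b * (hh x r c * hh x (sr r) (τ c))⁻¹
        = hh x r c * (hh x (sr r) (τ c) * x s b * (hh x (sr r) (τ c))⁻¹) * (hh x r c)⁻¹ := by group
      _ = x s (c ^ bf r.1 s.1 * τ c ^ bf (sg r.1) s.1 * b) := by rw [h1, h2, mul_assoc]; rfl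

private theorem ch_cy_ne (τ : K →+* K) (r s : Vec 6) {c : K} (hc : c ≠ 0) : cy τ r s c ≠ 0 := by
  unfold cy
  split_ifs
  · exact zpow_ne_zero _ hc
  · exact mul_ne_zero (zpow_ne_zero _ hc) (zpow_ne_zero _ ((map_ne_zero τ).2 hc))

theorem hy_conj {x : Root 6 → K → G} (h : Stb K 6 x) (hτ : ∀ a, τ (τ a) = a) (r s : Root 6) {c : K} (hc : c ≠ 0) (hr : Ok τ r c) (b : K) :
    hy x τ r c * yt x τ s b * (hy x τ r c)⁻¹ = yt x τ s (cy τ r.1 s.1 c * b) := by
  by_cases hs : sr s = s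
  · rw [yt_fix x τ hs, yt_fix x τ hs]
    exact ch_x h τ r s hc b
  · rw [yt_mov x τ hs, yt_mov x τ hs]
    have h1 := ch_x h τ r s hc b
    have h2 := ch_x h τ r (sr s) hc (et K s.1 * τ b)
    rw [ch_cy_sg hτ r s hr] at h2
    calc hy x τ r c * (x s b * x (sr s) (et K s.1 * τ b)) * (hy x τ r c)⁻¹
        = (hy x τ r c * x s b * (hy x τ r c)⁻¹) * (hy x τ r c * x (sr s) (et K s.1 * τ b) * (hy x τ r c)⁻¹) := by group
      _ = x s (cy τ r.1 s.1 c * b) * x (sr s) (et K s.1 * τ (cy τ r.1 s.1 c * b)) := by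
        rw [h1, h2, map_mul]
        congr 2
        ring

theorem cy_ok (hτ : ∀ a, τ (τ a) = a) (r s : Root 6) {c : K} (hr : Ok τ r c) {b : K} (hb : Ok τ s b) : Ok τ s (cy τ r.1 s.1 c * b) := by
  intro hs
  have h1 := ch_cy_sg hτ r s hr
  rw [hs] at h1
  rw [map_mul, hb hs, ← h1]

private theorem ch_ok_inv {τ : K →+* K} (hτ : ∀ a, τ (τ a) = a) (r s : Root 6) {c : K} (hr : Ok τ r c) {b : K} (hb : Ok τ s b) :
    Ok τ s ((cy τ r.1 s.1 c)⁻¹ * b) := by
  intro hs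
  have h1 := ch_cy_sg hτ r s hr
  rw [hs] at h1
  rw [map_mul, map_inv₀, hb hs, ← h1]

private theorem ch_nrm {x : Root 6 → K → G} (h : Stb K 6 x) {τ : K →+* K} (hτ : ∀ a, τ (τ a) = a) (l : Vec 6 → ℤ) (r : Root 6) {c : K} (hc : c ≠ 0) (hr : Ok τ r c) :
    Nrm x τ l (hy x τ r c) := by
  intro k _ g hg
  constructor
  · refine Subgroup.closure_induction (p := fun g _ => hy x τ r c * g * (hy x τ r c)⁻¹ ∈ Uy x τ l k) ?_ ?_ ?_ ?_ hg
    · rintro _ ⟨s, b, hs, hb, rfl⟩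
      rw [hy_conj h hτ r s hc hr b]
      exact Subgroup.subset_closure ⟨s, _, hs, cy_ok hτ r s hr hb, rfl⟩
    · rw [mul_one, mul_inv_cancel]
      exact one_mem _
    · intro g₁ g₂ _ _ h1 h2
      have h3 := mul_mem h1 h2
      have h4 : hy x τ r c * g₁ * (hy x τ r c)⁻¹ * (hy x τ r c * g₂ * (hy x τ r c)⁻¹) = hy x τ r c * (g₁ * g₂) * (hy x τ r c)⁻¹ := by group
      rwa [h4] at h3
    · intro g₁ _ h1
      have h3 := inv_mem h1
      have h4 : (hy x τ r c * g₁ * (hy x τ r c)⁻¹)⁻¹ = hy x τ r c * g₁⁻¹ * (hy x τ r c)⁻¹ := by group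
      rwa [h4] at h3
  · refine Subgroup.closure_induction (p := fun g _ => (hy x τ r c)⁻¹ * g * hy x τ r c ∈ Uy x τ l k) ?_ ?_ ?_ ?_ hg
    · rintro _ ⟨s, b, hs, hb, rfl⟩
      have h1 := hy_conj h hτ r s hc hr ((cy τ r.1 s.1 c)⁻¹ * b)
      rw [mul_inv_cancel_left₀ (ch_cy_ne τ r.1 s.1 hc)] at h1
      rw [← h1]
      have h2 : (hy x τ r c)⁻¹ * (hy x τ r c * yt x τ s ((cy τ r.1 s.1 c)⁻¹ * b) * (hy x τ r c)⁻¹) * hy x τ r c = yt x τ s ((cy τ r.1 s.1 c)⁻¹ * b) := by group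
      rw [h2]
      exact Subgroup.subset_closure ⟨s, _, hs, ch_ok_inv hτ r s hr hb, rfl⟩
    · rw [mul_one, inv_mul_cancel]
      exact one_mem _
    · intro g₁ g₂ _ _ h1 h2
      have h3 := mul_mem h1 h2
      have h4 : (hy x τ r c)⁻¹ * g₁ * hy x τ r c * ((hy x τ r c)⁻¹ * g₂ * hy x τ r c) = (hy x τ r c)⁻¹ * (g₁ * g₂) * hy x τ r c := by group
      rwa [h4] at h3
    · intro g₁ _ h1
      have h3 := inv_mem h1
      have h4 : ((hy x τ r c)⁻¹ * g₁ * hy x τ r c)⁻¹ = (hy x τ r c)⁻¹ * g₁⁻¹ * hy x τ r c := by group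
      rwa [h4] at h3

private theorem ch_Hy_apply {l : Vec 6 → ℤ} {k : ℤ} (τ : K →+* K) (a : Vec 6) (c : Kˣ) (f : Rk l k → K) (w : Rk l k) :
    (Hy l k τ a c).1 f w = cy τ a w.1 (c : K) * f w := by
  unfold Hy cy
  by_cases h : sg a = a
  · rw [if_pos h, if_pos h, Ho_apply, Units.val_zpow_eq_zpow_val]
  · rw [if_neg h, if_neg h]
    show (Ho l k K a c).1 ((Ho l k K (sg a) (Units.map τ.toMonoidHom c)).1 f) w = _
    rw [Ho_apply, Ho_apply, Units.val_zpow_eq_zpow_val, Units.val_zpow_eq_zpow_val, ← mul_assoc]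
    rfl

private theorem ch_Hy_inv {l : Vec 6 → ℤ} {k : ℤ} (τ : K →+* K) (a : Vec 6) (c : Kˣ) : (Hy l k τ a c)⁻¹ = Hy l k τ a c⁻¹ := by
  refine inv_eq_of_mul_eq_one_right (Units.ext (LinearMap.ext fun f => funext fun w => ?_))
  show (Hy l k τ a c).1 ((Hy l k τ a c⁻¹).1 f) w = f w
  have h1 : cy τ a w.1 (c : K) * cy τ a w.1 ((c⁻¹ : Kˣ) : K) = 1 := by
    unfold cy
    have hc : (c : K) ≠ 0 := c.ne_zero
    have hc' : τ (c : K) ≠ 0 := (map_ne_zero τ).2 hc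
    have e1 : (c : K) ^ bf a w.1 ≠ 0 := zpow_ne_zero _ hc
    have e2 : τ (c : K) ^ bf (sg a) w.1 ≠ 0 := zpow_ne_zero _ hc'
    split_ifs
    · rw [Units.val_inv_eq_inv_val, inv_zpow, mul_inv_cancel₀ e1]
    · rw [Units.val_inv_eq_inv_val, map_inv₀, inv_zpow, inv_zpow]
      field_simp
  rw [ch_Hy_apply, ch_Hy_apply, ← mul_assoc, h1, one_mul]

/-- as `Act_h` -/
theorem ActY_h [Fintype (Rk l (k : ℤ))] (hl : Addl l) (hs : Sgl l) (hk : 1 ≤ k) {x : Root 6 → K → G} (h : Stb K 6 x) (hτ : ∀ a, τ (τ a) = a) {π : Uy x τ l k →* A}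
    (hπ : ∀ v, π v = 1 ↔ (v : G) ∈ Uy x τ l (k + 1)) (r : Root 6) (c : Kˣ) (hc : Ok τ r (c : K)) : ActY x τ π (hy x τ r (c : K)) (Hy l (k : ℤ) τ r.1 c) := by
  have hcv : Okv τ r.1 (c : K) := fun h' => hc (Subtype.ext h')
  have hcv' : Okv τ r.1 ((c⁻¹ : Kˣ) : K) := fun h' => by
    rw [Units.val_inv_eq_inv_val, map_inv₀, hcv h']
  refine ActY.of_gen hk h hτ hs hπ (ch_nrm h hτ l r c.ne_zero hc) (fun f hf => Hy_tw hs hτ r.2 hcv hf)
    (fun f hf => ?_) ?_
  · rw [ch_Hy_inv]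
    exact Hy_tw hs hτ r.2 hcv' hf
  · intro v a ha w' hw'
    have ha' : Ok τ (⟨v.1, v.2.1⟩ : Root 6) a := fun h' => ha (congrArg Subtype.val h')
    have hb : Ok τ (⟨v.1, v.2.1⟩ : Root 6) (cy τ r.1 v.1 (c : K) * a) := cy_ok hτ r ⟨v.1, v.2.1⟩ hc ha'
    have hb' : Okv τ v.1 (cy τ r.1 v.1 (c : K) * a) := fun h' => hb (Subtype.ext h')
    have e1 : (Hy l (k : ℤ) τ r.1 c).1 (bt τ v a) = bt τ v (cy τ r.1 v.1 (c : K) * a) := by
      funext w
      rw [ch_Hy_apply]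
      show cy τ r.1 w.1 (c : K) * (if w = v then a else if w.1 = sg v.1 then et K v.1 * τ a else 0) =
        if w = v then cy τ r.1 v.1 (c : K) * a else if w.1 = sg v.1 then et K v.1 * τ (cy τ r.1 v.1 (c : K) * a) else 0
      by_cases h1 : w = v
      · rw [if_pos h1, if_pos h1, h1]
      · rw [if_neg h1, if_neg h1]
        by_cases h2 : w.1 = sg v.1
        · have h3 : cy τ r.1 (sg v.1) (c : K) = τ (cy τ r.1 v.1 (c : K)) := ch_cy_sg hτ r ⟨v.1, v.2.1⟩ hc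
          rw [if_pos h2, if_pos h2, h2, h3, map_mul]
          ring
        · rw [if_neg h2, if_neg h2, mul_zero]
    have e2 : w' = yk x l k τ v (cy τ r.1 v.1 (c : K) * a) := by
      apply Subtype.ext
      rw [hw']
      unfold yk
      rw [dif_pos ha', dif_pos hb]
      exact hy_conj h hτ r ⟨v.1, v.2.1⟩ c.ne_zero hc a
    rw [e1, FqY_bt h hτ hs π v hb', e2]
-- END ch

-- BEGIN ci
/-- MODULE ci. `1 - T` is injective on the finite set of the twisted functions (`K` finite, `Rk` finite), so it is surjective there.  `v ∈ Uy k`: `π v = FqY f` (`FqY_surj`), `f = g - T g`, `π y = FqY g` (`FqY_lift`), `π (y⁻¹ v (b y b⁻¹)) = FqY (-g + f + T g) = 1`. -/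
theorem surY_of_act [Finite K] [Fintype (Rk l (k : ℤ))] (hk : 1 ≤ k) {x : Root 6 → K → G} (h : Stb K 6 x) (hτ : ∀ a, τ (τ a) = a) (hs : Sgl l) {π : Uy x τ l k →* A}
    (hπ : ∀ v, π v = 1 ↔ (v : G) ∈ Uy x τ l (k + 1)) {b : G} {T : (Module.End K (Rk l (k : ℤ) → K))ˣ} (hb : ActY x τ π b T) (hT : ∀ f, Tw τ f → T.1 f = f → f = 0) :
    SurY x τ l b k := by
  classical
  have hfin : Finite {f : Rk l (k : ℤ) → K // Tw τ f} := inferInstance
  have hsurj : Function.Surjective (fun f : {f : Rk l (k : ℤ) → K // Tw τ f} =>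
      (⟨f.1 - T.1 f.1, f.2.sub (hb.tw f.1 f.2)⟩ : {f : Rk l (k : ℤ) → K // Tw τ f})) := by
    apply Finite.surjective_of_injective
    intro f g hfg
    have h1 : f.1 - T.1 f.1 = g.1 - T.1 g.1 := congrArg Subtype.val hfg
    have h2 : f.1 - g.1 = 0 := by
      apply hT _ (f.2.sub g.2)
      rw [map_sub]
      have h3 : f.1 - g.1 = T.1 f.1 - T.1 g.1 := by
        rw [sub_eq_sub_iff_add_eq_add] at h1 ⊢
        rw [h1]; abel
      exact h3.symm
    exact Subtype.ext (sub_eq_zero.1 h2)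
  intro v hv
  obtain ⟨f, hft, hf⟩ := FqY_surj h hτ hs hπ ⟨v, hv⟩
  obtain ⟨⟨g, hgt⟩, hg⟩ := hsurj ⟨f, hft⟩
  have hg' : g - T.1 g = f := congrArg Subtype.val hg
  obtain ⟨y, hy⟩ := FqY_lift x π g
  have hb1 : b * (y : G) * b⁻¹ ∈ Uy x τ l k := (hb.nk k hk _ y.2).1
  refine ⟨y, y.2, ?_⟩
  have h1 := hb.act y ⟨_, hb1⟩ g hgt rfl hy
  have h2 : π (y⁻¹ * ⟨v, hv⟩ * ⟨_, hb1⟩) = 1 := by
    rw [map_mul, map_mul, map_inv, hy, hf, h1, mul_assoc, ← FqY_add h π hft (hb.tw g hgt), ← hg', sub_add_cancel, inv_mul_cancel]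
  exact (hπ _).1 h2
-- END ci

end

end Pool.Agent.ThF
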