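import Pool.Agent.ThR.Int

/-! # The twisted group: `F_4(K)` (`τ = 1`) and `²E_6` (`τ` of order two) inside a group with the Steinberg relations of type `E_6`

`sg` = graph automorphism of the root lattice, `τ : K →+* K` with `τ (τ a) = a`.  `y_r(a) = x_r(a)` if `sg r = r` (only for `τ a = a`), `y_r(a) = x_r(a) x_(sg r)(η_r τ(a))` otherwise (`r`, `sg r` are orthogonal), `η_r = (-1)^((1 + d)(1 + ht r))`.
Everything has been checked by computer for the 72 roots. -/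

namespace Pool.Agent.ThF

open ThE ThK ThR

variable {K : Type*} [Field K] {G : Type*} [Group G]

/-- the graph automorphism on vectors `(d; m_0, .., m_5)` -/
def sg (v : Vec 6) : Vec 6 := (v.1, fun i => v.1 - v.2 (Fin.rev i))

-- BEGIN aa
/-- MODULE aa. Coordinates. `∑ i, v.2 (Fin.rev i) = ∑ i, v.2 i` (`Equiv.sum_comp Fin.revPerm`, or `Fin.sum_univ_six` everywhere and `ring` / `linarith`).
`IsR (sg v)`: `∑ (d - m_i) = 6 d - 3 d`, `∑ (d - m_i)^2 = 6 d^2 - 2 d (3 d) + d^2 + 2`. -/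
theorem sg_add (v w : Vec 6) : sg (v + w) = sg v + sg w := by
  refine Prod.ext rfl (funext fun i => ?_)
  simp only [sg, Prod.fst_add, Prod.snd_add, Pi.add_apply]
  ring

theorem sg_neg (v : Vec 6) : sg (-v) = -sg v := by
  refine Prod.ext rfl (funext fun i => ?_)
  simp only [sg, Prod.fst_neg, Prod.snd_neg, Pi.neg_apply]
  ring

theorem sg_sub (v w : Vec 6) : sg (v - w) = sg v - sg w := by
  refine Prod.ext rfl (funext fun i => ?_)
  simp only [sg, Prod.fst_sub, Prod.snd_sub, Pi.sub_apply]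
  ring

theorem sg_sg (v : Vec 6) : sg (sg v) = v := by
  refine Prod.ext rfl (funext fun i => ?_)
  simp only [sg, Fin.rev_rev]
  ring

private theorem aa_sum (v : Vec 6) (f : ℤ → ℤ) : ∑ i, f (v.2 (Fin.rev i)) = ∑ i, f (v.2 i) :=
  Equiv.sum_comp Fin.revPerm (fun i => f (v.2 i))

theorem isR_sg {v : Vec 6} (h : IsR v) : IsR (sg v) := by
  obtain ⟨h1, h2⟩ := h
  have h3 := aa_sum v (fun x => x)
  have h4 := aa_sum v (fun x => x ^ 2)
  have h5 : ∀ i, (sg v).2 i = v.1 - v.2 (Fin.rev i) := fun _ => rfl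
  have h6 : (sg v).1 = v.1 := rfl
  simp only [Fin.sum_univ_six] at h1 h2 h3 h4
  refine ⟨?_, ?_⟩
  · simp only [Fin.sum_univ_six, h5, h6]
    linarith
  · simp only [Fin.sum_univ_six, h5, h6]
    have h7 : (v.2 (Fin.rev 0) + v.2 (Fin.rev 1) + v.2 (Fin.rev 2) + v.2 (Fin.rev 3) + v.2 (Fin.rev 4) + v.2 (Fin.rev 5)) = 3 * v.1 := by
      linarith
    have h8 : v.1 * (v.2 (Fin.rev 0) + v.2 (Fin.rev 1) + v.2 (Fin.rev 2) + v.2 (Fin.rev 3) + v.2 (Fin.rev 4) + v.2 (Fin.rev 5)) = v.1 * (3 * v.1) := by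
      rw [h7]
    nlinarith [h8, h4, h2]

/-- `ht v = ∑ (i+1) m_i - 5 d`, `∑ (i+1) (d - m_(5-i)) = 21 d - ∑ (6 - i) m_i`, and `∑ m_i = 3 d` -/
theorem ht_sg {v : Vec 6} (h : ∑ i, v.2 i = 3 * v.1) : ht (sg v) = ht v := by
  have h5 : ∀ i, (sg v).2 i = v.1 - v.2 (Fin.rev i) := fun _ => rfl
  have h6 : (sg v).1 = v.1 := rfl
  have e0 : Fin.rev (0 : Fin 6) = 5 := rfl
  have e1 : Fin.rev (1 : Fin 6) = 4 := rfl
  have e2 : Fin.rev (2 : Fin 6) = 3 := rfl
  have e3 : Fin.rev (3 : Fin 6) = 2 := rfl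
  have e4 : Fin.rev (4 : Fin 6) = 1 := rfl
  have e5 : Fin.rev (5 : Fin 6) = 0 := rfl
  have f0 : (((0 : Fin 6) : ℕ) : ℤ) = 0 := rfl
  have f1 : (((1 : Fin 6) : ℕ) : ℤ) = 1 := rfl
  have f2 : (((2 : Fin 6) : ℕ) : ℤ) = 2 := rfl
  have f3 : (((3 : Fin 6) : ℕ) : ℤ) = 3 := rfl
  have f4 : (((4 : Fin 6) : ℕ) : ℤ) = 4 := rfl
  have f5 : (((5 : Fin 6) : ℕ) : ℤ) = 5 := rfl
  simp only [Fin.sum_univ_six] at h
  simp only [ht, Fin.sum_univ_six, h5, h6, e0, e1, e2, e3, e4, e5, f0, f1, f2, f3, f4, f5]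
  linarith

theorem bf_sg {v w : Vec 6} (hv : ∑ i, v.2 i = 3 * v.1) (hw : ∑ i, w.2 i = 3 * w.1) : bf (sg v) (sg w) = bf v w := by
  have h5 : ∀ i, (sg v).2 i = v.1 - v.2 (Fin.rev i) := fun _ => rfl
  have h6 : (sg v).1 = v.1 := rfl
  have h7 : ∀ i, (sg w).2 i = w.1 - w.2 (Fin.rev i) := fun _ => rfl
  have h8 : (sg w).1 = w.1 := rfl
  have e0 : Fin.rev (0 : Fin 6) = 5 := rfl
  have e1 : Fin.rev (1 : Fin 6) = 4 := rfl
  have e2 : Fin.rev (2 : Fin 6) = 3 := rfl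
  have e3 : Fin.rev (3 : Fin 6) = 2 := rfl
  have e4 : Fin.rev (4 : Fin 6) = 1 := rfl
  have e5 : Fin.rev (5 : Fin 6) = 0 := rfl
  simp only [Fin.sum_univ_six] at hv hw
  simp only [bf, Fin.sum_univ_six, h5, h6, h7, h8, e0, e1, e2, e3, e4, e5]
  linear_combination (-w.1) * hv - v.1 * hw
-- END aa

/-- the graph automorphism on roots -/
def sr (r : Root 6) : Root 6 := ⟨sg r.1, isR_sg r.2⟩

theorem sr_val (r : Root 6) : (sr r).1 = sg r.1 := rfl

theorem sr_sr (r : Root 6) : sr (sr r) = r := Subtype.ext (sg_sg r.1)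

theorem sr_neg (r : Root 6) : sr (-r) = -sr r := Subtype.ext (sg_neg r.1)

theorem ht_sr (r : Root 6) : ht (sr r).1 = ht r.1 := ht_sg r.2.1

theorem bf_sr (r s : Root 6) : bf (sr r).1 (sr s).1 = bf r.1 s.1 := bf_sg r.2.1 s.2.1

theorem bf_sr_left (r s : Root 6) : bf (sr r).1 s.1 = bf r.1 (sr s).1 := by
  rw [← bf_sr r (sr s), sr_sr]

-- BEGIN ab
/-- MODULE ab. `ThE.ht_ne` is the case `n = 7` (`4 + 3`): append a zero: `(d; m_0, .., m_5) ↦ (d; m_0, .., m_5, 0)` maps roots to roots (`Fin.snoc`, `Fin.sum_univ_castSucc`) and preserves `ht`.  Or directly with the classification (`d_bound`, `cls_zero`, `cls_one_two`, `cls_three`). -/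
theorem ht_ne6 (r : Root 6) : ht r.1 ≠ 0 := by
  have h1 : ∑ i, (Fin.snoc r.1.2 0 : Fin 7 → ℤ) i = 3 * r.1.1 := by
    rw [Fin.sum_univ_castSucc]
    simp only [Fin.snoc_castSucc, Fin.snoc_last, add_zero]
    exact r.2.1
  have h2 : ∑ i, (Fin.snoc r.1.2 0 : Fin 7 → ℤ) i ^ 2 = r.1.1 ^ 2 + 2 := by
    rw [Fin.sum_univ_castSucc]
    simp only [Fin.snoc_castSucc, Fin.snoc_last]
    rw [r.2.2]
    ring
  have h3 := ht_ne (m := 3) (Or.inl rfl) (⟨(r.1.1, (Fin.snoc r.1.2 0 : Fin 7 → ℤ)), h1, h2⟩ : Root 7)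
  intro h4
  apply h3
  have h5 : ∑ i : Fin 7, (((i : ℕ) : ℤ) + 1) * (Fin.snoc r.1.2 0 : Fin 7 → ℤ) i
      = ∑ i : Fin 6, (((i : ℕ) : ℤ) + 1) * r.1.2 i := by
    rw [Fin.sum_univ_castSucc]
    simp only [Fin.snoc_castSucc, Fin.snoc_last, mul_zero, add_zero, Fin.val_castSucc]
  have h6 : ∑ i : Fin 6, (((i : ℕ) : ℤ) + 1) * r.1.2 i - 5 * r.1.1 = 0 := h4
  change ∑ i : Fin 7, (((i : ℕ) : ℤ) + 1) * (Fin.snoc r.1.2 0 : Fin 7 → ℤ) i - 5 * r.1.1 = 0
  rw [h5]
  exact h6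

/-- `2 - bf r (sg r) = 2 (p_0^2 + p_1^2 + p_0 p_1)` -/
theorem ab_norm (r : Root 6) : 2 - bf r.1 (sr r).1 =
    2 * ((r.1.1 - r.1.2 0 - r.1.2 5) ^ 2 + (r.1.1 - r.1.2 1 - r.1.2 4) ^ 2 +
      (r.1.1 - r.1.2 0 - r.1.2 5) * (r.1.1 - r.1.2 1 - r.1.2 4)) := by
  have h1 := r.2.1
  have h2 := r.2.2
  have h3 : bf r.1 (sr r).1 = ∑ i, r.1.2 i * (r.1.1 - r.1.2 (Fin.rev i)) - r.1.1 * r.1.1 := rfl
  rw [h3]
  have e0 : Fin.rev (0 : Fin 6) = 5 := rfl
  have e1 : Fin.rev (1 : Fin 6) = 4 := rfl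
  have e2 : Fin.rev (2 : Fin 6) = 3 := rfl
  have e3 : Fin.rev (3 : Fin 6) = 2 := rfl
  have e4 : Fin.rev (4 : Fin 6) = 1 := rfl
  have e5 : Fin.rev (5 : Fin 6) = 0 := rfl
  simp only [Fin.sum_univ_six, e0, e1, e2, e3, e4, e5] at h1 h2 ⊢
  have h4 : r.1.2 2 + r.1.2 3 = 3 * r.1.1 - r.1.2 0 - r.1.2 1 - r.1.2 4 - r.1.2 5 := by
    linear_combination h1
  generalize r.1.2 0 = a at *
  generalize r.1.2 1 = b at *
  generalize r.1.2 2 = c at *
  generalize r.1.2 3 = e at *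
  generalize r.1.2 4 = f at *
  generalize r.1.2 5 = g at *
  generalize r.1.1 = d at *
  have h5 : c = 3 * d - a - b - f - g - e := by linear_combination h4
  rw [h5] at h2 ⊢
  linear_combination (-1) * h2

/-- `2 - bf r (sg r)` is half of the norm of `r - sg r = (0; -p_i)`, `p_i = d - m_i - m_(5-i)` (`p_i = p_(5-i)`): it is `p_0^2 + p_1^2 + p_2^2`, `p_0 + p_1 + p_2 = 0`.  The values `-2 .. 2` of the form: this sum is even, it is not `4` (`p_0^2 + p_1^2 + p_0 p_1 = 2` is impossible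
mod 4 / for `|p_i| ≤ 2`), so it is `0` (`sg r = r`) or `2`. -/
theorem bf_self_sr (r : Root 6) : sr r = r ∨ bf r.1 (sr r).1 = 0 := by
  have h1 := ab_norm r
  obtain ⟨h2, h3⟩ := bf_ge (by norm_num) r (sr r)
  obtain ⟨h4, h5⟩ := bf_le (by norm_num) r (sr r)
  generalize bf r.1 (sr r).1 = B at *
  generalize (r.1.1 - r.1.2 0 - r.1.2 5) = p at *
  generalize (r.1.1 - r.1.2 1 - r.1.2 4) = q at *
  have h6 : B = -2 ∨ B = 0 ∨ B = 2 := by omega
  rcases h6 with h6 | h6 | h6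
  · exfalso
    rw [h6] at h1
    have h7 : (2 * p + q) ^ 2 + 3 * q ^ 2 = 8 := by nlinarith
    have h8 : -1 ≤ q ∧ q ≤ 1 := by constructor <;> nlinarith [sq_nonneg (2 * p + q)]
    have h9 : -2 ≤ 2 * p + q ∧ 2 * p + q ≤ 2 := by constructor <;> nlinarith [sq_nonneg q]
    obtain ⟨ha, hb⟩ := h8
    obtain ⟨hc, hd⟩ := h9
    interval_cases q <;> [skip; skip; skip] <;>
      (have h10 : -2 ≤ p ∧ p ≤ 2 := by omega
       obtain ⟨he, hf⟩ := h10
       interval_cases p <;> omega)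
  · exact Or.inr h6
  · exact Or.inl (h5 h6)

theorem sr_ne_neg (r : Root 6) : sr r ≠ -r := by
  intro h
  have h1 : bf r.1 (sr r).1 = -2 := by
    rw [h, neg_val, bf_neg_right, bf_root]
  rcases bf_self_sr r with h2 | h2
  · rw [h2, bf_root] at h1
    omega
  · omega
-- END ab

/-- the signs -/
def et (K : Type*) [Field K] (v : Vec 6) : K := (((-1 : Kˣ) ^ ((1 + v.1) * (1 + ht v)) : Kˣ) : K)

-- BEGIN ac
theorem ac_pow {a b c : ℤ} (h : a = b + 2 * c) : (-1 : Kˣ) ^ a = (-1) ^ b := by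
  rw [h, zpow_add, zpow_mul]
  have h1 : (-1 : Kˣ) ^ (2 : ℤ) = 1 := by
    rw [zpow_ofNat]
    exact neg_one_sq
  rw [h1, one_zpow, mul_one]

theorem ac_bl (v w : Vec 6) : bl v w = v.2 0 * (w.2 1 + w.2 2 + w.2 3 + w.2 4 + w.2 5) +
    v.2 1 * (w.2 2 + w.2 3 + w.2 4 + w.2 5) + v.2 2 * (w.2 3 + w.2 4 + w.2 5) +
    v.2 3 * (w.2 4 + w.2 5) + v.2 4 * w.2 5 := by
  unfold bl
  simp only [Fin.sum_univ_six]
  simp only [Fin.lt_def, Fin.isValue, Fin.val_zero, Fin.val_one, Fin.val_two]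
  norm_num [Fin.lt_def]
  ring

theorem ac_ht (v : Vec 6) : ht v = v.2 0 + 2 * v.2 1 + 3 * v.2 2 + 4 * v.2 3 + 5 * v.2 4 +
    6 * v.2 5 - 5 * v.1 := by
  simp only [ht, Fin.sum_univ_six]
  norm_num

/-- MODULE ac. -/
theorem et_sq (v : Vec 6) : et K v * et K v = 1 := by
  unfold et
  rw [← Units.val_mul, ← zpow_add, ac_pow (b := 0) (c := (1 + v.1) * (1 + ht v)) (by ring), zpow_zero,
    Units.val_one]

theorem et_ne (v : Vec 6) : et K v ≠ 0 := Units.ne_zero _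

theorem et_map {L : Type*} [Field L] (f : K →+* L) (v : Vec 6) : f (et K v) = et L v := by
  simp only [et, Units.val_zpow_eq_zpow_val, map_zpow₀, Units.val_neg, Units.val_one, map_neg, map_one]

theorem et_sr (r : Root 6) : et K (sr r).1 = et K r.1 := by
  have h1 : (sr r).1.1 = r.1.1 := rfl
  unfold et
  rw [ht_sr, h1]

/-- `(1 - d)(1 - h) - (1 + d)(1 + h) = -2 (d + h)` -/
theorem et_neg (v : Vec 6) : et K (-v) = et K v := by
  have h1 : (-v).1 = -v.1 := rfl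
  unfold et
  rw [ht_neg, h1, ac_pow (b := (1 + v.1) * (1 + ht v)) (c := -(v.1 + ht v)) (by ring)]

theorem et_one {v : Vec 6} (h : ht v = 1) : et K v = 1 := by
  unfold et
  rw [h, ac_pow (b := 0) (c := 1 + v.1) (by ring), zpow_zero, Units.val_one]

/-- `m_i + m_(5-i) = d`.  `d` odd: clear.  `d` even: `ht v = ∑_(i<3) (2 i - 5) m_i + 10 d` is `≡ m_0 + m_1 + m_2`, and `2 (m_0^2 + m_1^2 + m_2^2) - 2 d (m_0 + m_1 + m_2) + 3 d^2 = d^2 + 2` shows that `m_0 + m_1 + m_2` is odd. -/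
theorem et_fix {r : Root 6} (h : sr r = r) : et K r.1 = 1 := by
  have h1 := r.2.2
  have h2 : ∀ i, r.1.1 - r.1.2 (Fin.rev i) = r.1.2 i := by
    intro i
    have h3 : (sr r).1.2 i = r.1.2 i := by rw [h]
    exact h3
  have f5 : r.1.2 5 = r.1.1 - r.1.2 0 := (h2 5).symm
  have f4 : r.1.2 4 = r.1.1 - r.1.2 1 := (h2 4).symm
  have f3 : r.1.2 3 = r.1.1 - r.1.2 2 := (h2 3).symm
  have h4 : ht r.1 = r.1.2 0 + 2 * r.1.2 1 + 3 * r.1.2 2 + 4 * r.1.2 3 + 5 * r.1.2 4 +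
      6 * r.1.2 5 - 5 * r.1.1 := by
    simp only [ht, Fin.sum_univ_six]
    norm_num
  rw [Fin.sum_univ_six] at h1
  rw [f3, f4, f5] at h1 h4
  have h5 : ∃ c : ℤ, (1 + r.1.1) * (1 + ht r.1) = 2 * c := by
    generalize r.1.2 0 = a at *
    generalize r.1.2 1 = b at *
    generalize r.1.2 2 = e at *
    generalize r.1.1 = d at *
    generalize ht r.1 = H at *
    rcases Int.even_or_odd d with ⟨k, hk⟩ | ⟨k, hk⟩
    · have h6 : a ^ 2 + b ^ 2 + e ^ 2 = 1 + 2 * (k * (a + b + e) - 2 * k ^ 2) := by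
        rw [hk] at h1
        nlinarith
      have h7 : ∃ c : ℤ, a + b + e = 1 + 2 * c := by
        have e1 : Even (a * (a - 1)) := Int.even_mul_pred_self a
        have e2 : Even (b * (b - 1)) := Int.even_mul_pred_self b
        have e3 : Even (e * (e - 1)) := Int.even_mul_pred_self e
        obtain ⟨x, hx⟩ := e1
        obtain ⟨y, hy⟩ := e2
        obtain ⟨w, hw⟩ := e3
        exact ⟨k * (a + b + e) - 2 * k ^ 2 - x - y - w, by linear_combination h6 - hx - hy - hw⟩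
      obtain ⟨c, hc⟩ := h7
      refine ⟨(1 + d) * (-2 * a - b - c + 5 * d), ?_⟩
      rw [h4]
      linear_combination (-(1 + d)) * hc
    · exact ⟨(k + 1) * (1 + H), by rw [hk]; ring⟩
  obtain ⟨c, hc⟩ := h5
  unfold et
  rw [ac_pow (b := 0) (c := c) (by rw [hc]; ring), zpow_zero, Units.val_one]

/-- MAIN SIGN LEMMA. `bl (sg v) (sg w) - bl v w ≡ bf v w + d κ(w) + d' κ(v)` mod 2, `κ(v) = ∑ (i+1) m_i = ht v + 5 d` (expand with `Fin.sum_univ_six`; `∑ v.2 = 3 d`); the exponents of `et` : `(1 + d + d')(1 + h + h') - (1 + d)(1 + h) - (1 + d')(1 + h') = d h' + d' h - 1`;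
`bf r s = -1` (`bf_of_add`). The parity of an integer decides `(-1) ^ ·` (`Even.neg_one_zpow` or: `(-1)^a = (-1)^b` if `a - b = 2 c`). -/
theorem et_add {r s t : Root 6} (h : t.1 = r.1 + s.1) : et K t.1 * eps K r.1 s.1 = et K r.1 * et K s.1 * eps K (sg r.1) (sg s.1) := by
  have h1 := r.2.1
  have h2 := s.2.1
  have h3 : ∑ i, r.1.2 i * s.1.2 i - r.1.1 * s.1.1 = -1 := bf_of_add h
  have h4 : t.1.1 = r.1.1 + s.1.1 := by rw [h]; rfl
  have h5 : ht t.1 = ht r.1 + ht s.1 := by rw [h, ht_add]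
  have key : (1 + t.1.1) * (1 + ht t.1) + bl r.1 s.1 = (1 + r.1.1) * (1 + ht r.1) +
      (1 + s.1.1) * (1 + ht s.1) + bl (sg r.1) (sg s.1) +
      2 * (s.1.1 * ht r.1 - 1 + bl r.1 s.1 - 4 * r.1.1 * s.1.1) := by
    rw [h4, h5]
    have e0 : Fin.rev (0 : Fin 6) = 5 := rfl
    have e1 : Fin.rev (1 : Fin 6) = 4 := rfl
    have e2 : Fin.rev (2 : Fin 6) = 3 := rfl
    have e3 : Fin.rev (3 : Fin 6) = 2 := rfl
    have e4 : Fin.rev (4 : Fin 6) = 1 := rfl
    have e5 : Fin.rev (5 : Fin 6) = 0 := rfl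
    have b1 : bl r.1 s.1 = r.1.2 0 * (s.1.2 1 + s.1.2 2 + s.1.2 3 + s.1.2 4 + s.1.2 5) +
        r.1.2 1 * (s.1.2 2 + s.1.2 3 + s.1.2 4 + s.1.2 5) +
        r.1.2 2 * (s.1.2 3 + s.1.2 4 + s.1.2 5) + r.1.2 3 * (s.1.2 4 + s.1.2 5) +
        r.1.2 4 * s.1.2 5 := ac_bl r.1 s.1
    have b2 : bl (sg r.1) (sg s.1) =
        (r.1.1 - r.1.2 5) * ((s.1.1 - s.1.2 4) + (s.1.1 - s.1.2 3) + (s.1.1 - s.1.2 2) +
          (s.1.1 - s.1.2 1) + (s.1.1 - s.1.2 0)) +
        (r.1.1 - r.1.2 4) * ((s.1.1 - s.1.2 3) + (s.1.1 - s.1.2 2) + (s.1.1 - s.1.2 1) +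
          (s.1.1 - s.1.2 0)) +
        (r.1.1 - r.1.2 3) * ((s.1.1 - s.1.2 2) + (s.1.1 - s.1.2 1) + (s.1.1 - s.1.2 0)) +
        (r.1.1 - r.1.2 2) * ((s.1.1 - s.1.2 1) + (s.1.1 - s.1.2 0)) +
        (r.1.1 - r.1.2 1) * (s.1.1 - s.1.2 0) := ac_bl (sg r.1) (sg s.1)
    rw [b1, b2, ac_ht r.1, ac_ht s.1]
    rw [Fin.sum_univ_six] at h1 h2 h3
    generalize r.1.2 0 = m0 at *
    generalize r.1.2 1 = m1 at *
    generalize r.1.2 2 = m2 at *
    generalize r.1.2 3 = m3 at *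
    generalize r.1.2 4 = m4 at *
    generalize r.1.2 5 = m5 at *
    generalize r.1.1 = d at *
    generalize s.1.2 0 = n0 at *
    generalize s.1.2 1 = n1 at *
    generalize s.1.2 2 = n2 at *
    generalize s.1.2 3 = n3 at *
    generalize s.1.2 4 = n4 at *
    generalize s.1.2 5 = n5 at *
    generalize s.1.1 = d' at *
    linear_combination (-(n0 + n1 + n2 + n3 + n4 + n5) - d') * h1 + 3 * d * h2 + h3
  unfold et eps ep
  rw [← Units.val_mul, ← Units.val_mul, ← Units.val_mul, ← zpow_add, ← zpow_add, ← zpow_add,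
    ac_pow key]
-- END ac

/-- `y_r(a)` -/
def yt (x : Root 6 → K → G) (τ : K →+* K) (r : Root 6) (a : K) : G :=
  if sr r = r then x r a else x r a * x (sr r) (et K r.1 * τ a)

/-- the admissible parameters -/
def Ok (τ : K →+* K) (r : Root 6) (a : K) : Prop := sr r = r → τ a = a

theorem yt_fix (x : Root 6 → K → G) (τ : K →+* K) {r : Root 6} (h : sr r = r) (a : K) : yt x τ r a = x r a := if_pos h

theorem yt_mov (x : Root 6 → K → G) (τ : K →+* K) {r : Root 6} (h : sr r ≠ r) (a : K) : yt x τ r a = x r a * x (sr r) (et K r.1 * τ a) := if_neg h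

-- BEGIN ad
private theorem ad_commute {x : Root 6 → K → G} (h : Stb K 6 x) {r : Root 6} (hr : sr r ≠ r) (a b : K) : x r a * x (sr r) b = x (sr r) b * x r a := by
  have h0 : bf r.1 (sr r).1 = 0 := by
    rcases bf_self_sr r with h1 | h1
    · exact absurd h1 hr
    · exact h1
  exact h.commute (by rw [h0]) a b

/-- MODULE ad. `x r`, `x (sr r)` commute (`Stb.commute`, `bf_self_sr`). -/
theorem yt_add {x : Root 6 → K → G} (h : Stb K 6 x) (τ : K →+* K) (r : Root 6) (a b : K) : yt x τ r (a + b) = yt x τ r a * yt x τ r b := by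
  by_cases hr : sr r = r
  · rw [yt_fix x τ hr, yt_fix x τ hr, yt_fix x τ hr, h.add]
  · rw [yt_mov x τ hr, yt_mov x τ hr, yt_mov x τ hr, map_add, mul_add, h.add, h.add]
    have h1 := ad_commute h hr b (et K r.1 * τ a)
    calc x r a * x r b * (x (sr r) (et K r.1 * τ a) * x (sr r) (et K r.1 * τ b))
        = x r a * (x r b * x (sr r) (et K r.1 * τ a)) * x (sr r) (et K r.1 * τ b) := by simp only [mul_assoc]
      _ = x r a * x (sr r) (et K r.1 * τ a) * (x r b * x (sr r) (et K r.1 * τ b)) := by rw [h1]; simp only [mul_assoc]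

theorem yt_zero {x : Root 6 → K → G} (h : Stb K 6 x) (τ : K →+* K) (r : Root 6) : yt x τ r 0 = 1 := by
  have h1 := yt_add h τ r 0 0
  rw [add_zero] at h1
  exact (mul_eq_left.mp h1.symm)

theorem yt_inv {x : Root 6 → K → G} (h : Stb K 6 x) (τ : K →+* K) (r : Root 6) (a : K) : (yt x τ r a)⁻¹ = yt x τ r (-a) := by
  apply inv_eq_of_mul_eq_one_right
  rw [← yt_add h, add_neg_cancel, yt_zero h]

/-- `η_(sg r) τ(η_r τ a) = a` -/
theorem yt_sr {x : Root 6 → K → G} (h : Stb K 6 x) {τ : K →+* K} (hτ : ∀ a, τ (τ a) = a) {r : Root 6} (hr : sr r ≠ r) (a : K) : yt x τ (sr r) (et K r.1 * τ a) = yt x τ r a := by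
  have h2 : sr (sr r) ≠ sr r := by
    intro h3
    rw [sr_sr] at h3
    exact hr h3.symm
  rw [yt_mov x τ h2, yt_mov x τ hr, sr_sr, et_sr, map_mul, hτ, et_map, ← mul_assoc, et_sq, one_mul]
  exact (ad_commute h hr a (et K r.1 * τ a)).symm

theorem Ok.add {τ : K →+* K} {r : Root 6} {a b : K} (ha : Ok τ r a) (hb : Ok τ r b) : Ok τ r (a + b) := by
  intro hr
  rw [map_add, ha hr, hb hr]

theorem Ok.neg {τ : K →+* K} {r : Root 6} {a : K} (ha : Ok τ r a) : Ok τ r (-a) := by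
  intro hr
  rw [map_neg, ha hr]

theorem Ok.of_ne {τ : K →+* K} {r : Root 6} (h : sr r ≠ r) (a : K) : Ok τ r a := fun hr => absurd hr h
-- END ad

-- BEGIN ae
private theorem ae_comm4 {a b c d : G} (h1 : a * c = c * a) (h2 : a * d = d * a) (h3 : b * c = c * b) (h4 : b * d = d * b) :
    a * b * (c * d) = c * d * (a * b) := by
  have h5 : Commute (a * b) (c * d) :=
    Commute.mul_left (Commute.mul_right (show Commute a c from h1) (show Commute a d from h2))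
      (Commute.mul_right (show Commute b c from h3) (show Commute b d from h4))
  exact h5.eq

/-- MODULE ae. All pairs commute (`Stb.commute`; `bf (sr r) s = bf r (sr s)`, `bf (sr r) (sr s) = bf r s`). -/
theorem yt_comm {x : Root 6 → K → G} (h : Stb K 6 x) (τ : K →+* K) {r s : Root 6} (h1 : 0 ≤ bf r.1 s.1) (h2 : 0 ≤ bf r.1 (sr s).1) (a b : K) :
    yt x τ r a * yt x τ s b = yt x τ s b * yt x τ r a := by
  have h3 : 0 ≤ bf (sr r).1 s.1 := by rw [bf_sr_left]; exact h2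
  have h4 : 0 ≤ bf (sr r).1 (sr s).1 := by rw [bf_sr]; exact h1
  by_cases hr : sr r = r
  · rw [yt_fix x τ hr]
    by_cases hs : sr s = s
    · rw [yt_fix x τ hs]
      exact h.commute h1 a b
    · rw [yt_mov x τ hs]
      exact (Commute.mul_right (show Commute (x r a) (x s b) from h.commute h1 a b)
        (show Commute (x r a) (x (sr s) (et K s.1 * τ b)) from h.commute h2 a _)).eq
  · rw [yt_mov x τ hr]
    by_cases hs : sr s = s
    · rw [yt_fix x τ hs]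
      exact (Commute.mul_left (show Commute (x r a) (x s b) from h.commute h1 a b)
        (show Commute (x (sr r) (et K r.1 * τ a)) (x s b) from h.commute h3 _ b)).eq
    · rw [yt_mov x τ hs]
      exact ae_comm4 (h.commute h1 a b) (h.commute h2 a _) (h.commute h3 _ b) (h.commute h4 _ _)

/-- both fixed: `Stb.conj_add` -/
theorem yt_c1 {x : Root 6 → K → G} (h : Stb K 6 x) (τ : K →+* K) {r s t : Root 6} (hr : sr r = r) (hs : sr s = s) (ht : t.1 = r.1 + s.1) (a b : K) :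
    sr t = t ∧ yt x τ r a * yt x τ s b * (yt x τ r a)⁻¹ = yt x τ t (eps K r.1 s.1 * a * b) * yt x τ s b := by
  have h1 : sr t = t := by
    apply Subtype.ext
    rw [sr_val, ht, sg_add, ← sr_val r, ← sr_val s, hr, hs]
  refine ⟨h1, ?_⟩
  rw [yt_fix x τ hr, yt_fix x τ hs, yt_fix x τ h1]
  exact h.conj_add ht a b
-- END ae

-- BEGIN af
/-- MODULE af. `r` fixed, `s` not: `t = r + s`, `u = t + sg s` (`bf t (sg s) = -1`).  `x_r(a) x_s(b) x_r(a)⁻¹ = x_t(v) x_s(b)`, `v = ep(r,s) a b`; with `b' = η_s τ b`: `x_r(a) x_(sg s)(b') x_r(a)⁻¹ = x_(sg t)(v') x_(sg s)(b')`, `v' = ep(r, sg s) a b' = η_t τ v` (`et_add`, `et_fix`, `τ a = a`);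
`x_s(b) x_(sg t)(v') = x_u(ep(s, sg t) b v') x_(sg t)(v') x_s(b)`; `x_u` commutes with `x_t`, `x_(sg t)`, `x_s` (forms `1`). `sr u = u`, `sr t ≠ t`. The parameter `c` of `x_u` satisfies `τ c = c` (it is `± a b τ(b)`, `ep(s, sg t)` and `η` are signs, fixed by `τ`: `et_map`, `eps_map`). -/
theorem yt_c2 {x : Root 6 → K → G} (h : Stb K 6 x) {τ : K →+* K} (hτ : ∀ a, τ (τ a) = a) {r s t u : Root 6} (hr : sr r = r) (hs : sr s ≠ s) (ht : t.1 = r.1 + s.1)
    (hu : u.1 = t.1 + sg s.1) {a : K} (ha : τ a = a) (b : K) :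
    sr t ≠ t ∧ sr u = u ∧ ∃ c, τ c = c ∧ yt x τ r a * yt x τ s b * (yt x τ r a)⁻¹ = yt x τ t (eps K r.1 s.1 * a * b) * yt x τ u c * yt x τ s b := by
  have hr' : sg r.1 = r.1 := congrArg Subtype.val hr
  have hs0 : bf s.1 (sr s).1 = 0 := (bf_self_sr s).resolve_left hs
  have hrs : bf r.1 s.1 = -1 := bf_of_add ht
  have hrs' : bf r.1 (sr s).1 = -1 := by rw [← bf_sr_left, hr, hrs]
  have hst : (sr t).1 = r.1 + (sr s).1 := by rw [sr_val, ht, sg_add, hr', sr_val]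
  have htt : bf t.1 (sr t).1 = 0 := by
    rw [hst, ht, bf_add_left, bf_add_right, bf_add_right, bf_root, hrs', bf_comm s.1 r.1, hrs, hs0]
    norm_num
  have htm : sr t ≠ t := by
    intro e
    rw [e, bf_root] at htt
    norm_num at htt
  have hut : u.1 = s.1 + (sr t).1 := by
    rw [hu, hst, ht, sr_val]
    abel
  have huf : sr u = u := by
    apply Subtype.ext
    rw [sr_val, hut, sg_add, sr_val, sg_sg, ← sr_val t, hst, ht, sr_val]
    abel
  have hut' : bf u.1 (sr t).1 = 1 := by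
    rw [hut, bf_add_left, bf_root, hst, bf_add_right, bf_comm s.1 r.1, hrs, hs0]
    norm_num
  refine ⟨htm, huf, eps K s.1 (sr t).1 * b * (eps K r.1 (sr s).1 * a * (et K s.1 * τ b)), ?_, ?_⟩
  · simp only [map_mul, eps_map, et_map, ha, hτ]
    ring
  · have hv : eps K r.1 (sr s).1 * a * (et K s.1 * τ b) = et K t.1 * τ (eps K r.1 s.1 * a * b) := by
      have h1 := et_add (K := K) ht
      rw [et_fix hr, hr', one_mul] at h1
      simp only [map_mul, eps_map, ha]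
      calc eps K r.1 (sr s).1 * a * (et K s.1 * τ b) = (et K s.1 * eps K r.1 (sg s.1)) * a * τ b := by
            rw [sr_val]
            ring
        _ = et K t.1 * (eps K r.1 s.1 * a * τ b) := by
            rw [← h1]
            ring
    rw [yt_fix x τ hr, yt_mov x τ hs, yt_fix x τ huf, yt_mov x τ htm, ← hv]
    set b' := et K s.1 * τ b with hb'
    set v' := eps K r.1 (sr s).1 * a * b' with hv'
    have e1 : x r a * x s b * (x r a)⁻¹ = x t (eps K r.1 s.1 * a * b) * x s b := h.conj_add ht a b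
    have e2 : x r a * x (sr s) b' * (x r a)⁻¹ = x (sr t) v' * x (sr s) b' := h.conj_add hst a b'
    have e3 : x s b * x (sr t) v' * (x s b)⁻¹ = x u (eps K s.1 (sr t).1 * b * v') * x (sr t) v' := h.conj_add hut b v'
    have e4 : x u (eps K s.1 (sr t).1 * b * v') * x (sr t) v' = x (sr t) v' * x u (eps K s.1 (sr t).1 * b * v') :=
      h.commute (by rw [hut']; norm_num) _ _
    have e5 : x s b * x (sr t) v' = x (sr t) v' * x u (eps K s.1 (sr t).1 * b * v') * x s b := by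
      rw [← e4, ← e3]
      group
    calc x r a * (x s b * x (sr s) b') * (x r a)⁻¹ = (x r a * x s b * (x r a)⁻¹) * (x r a * x (sr s) b' * (x r a)⁻¹) := by group
      _ = x t (eps K r.1 s.1 * a * b) * (x s b * x (sr t) v') * x (sr s) b' := by
          rw [e1, e2]
          group
      _ = _ := by
          rw [e5]
          group

/-- `r` not fixed, `s` fixed: `t = r + s`, `u = t + sg r`.  With `a' = η_r τ a`: `x_(sg r)(a')` maps `x_s(b)` to `x_(sg t)(v') x_s(b)`, `v' = ep(sg r, s) a' b = η_t τ(v)`, `v = ep(r,s) a b`; then `x_r(a)` maps this to `x_u(ep(r, sg t) a v') x_(sg t)(v') x_t(v) x_s(b)`. -/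
theorem yt_c3 {x : Root 6 → K → G} (h : Stb K 6 x) {τ : K →+* K} (hτ : ∀ a, τ (τ a) = a) {r s t u : Root 6} (hr : sr r ≠ r) (hs : sr s = s) (ht : t.1 = r.1 + s.1)
    (hu : u.1 = t.1 + sg r.1) (a : K) {b : K} (hb : τ b = b) :
    sr t ≠ t ∧ sr u = u ∧ τ (eps K r.1 (sg t.1) * a * (et K r.1 * eps K (sg r.1) s.1 * τ a * b)) = eps K r.1 (sg t.1) * a * (et K r.1 * eps K (sg r.1) s.1 * τ a * b) ∧
      yt x τ r a * yt x τ s b * (yt x τ r a)⁻¹ =
        yt x τ t (eps K r.1 s.1 * a * b) * yt x τ u (eps K r.1 (sg t.1) * a * (et K r.1 * eps K (sg r.1) s.1 * τ a * b)) * yt x τ s b := by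
  have hs' : sg s.1 = s.1 := congrArg Subtype.val hs
  have hr0 : bf r.1 (sr r).1 = 0 := (bf_self_sr r).resolve_left hr
  have hrs : bf r.1 s.1 = -1 := bf_of_add ht
  have hrs' : bf (sr r).1 s.1 = -1 := by rw [bf_sr_left, hs, hrs]
  have hst : (sr t).1 = (sr r).1 + s.1 := by rw [sr_val, ht, sg_add, hs', sr_val]
  have htt : bf t.1 (sr t).1 = 0 := by
    rw [hst, ht, bf_add_left, bf_add_right, bf_add_right, bf_root, hr0, hrs, bf_comm s.1 (sr r).1, hrs']
    norm_num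
  have htm : sr t ≠ t := by
    intro e
    rw [e, bf_root] at htt
    norm_num at htt
  have hut : u.1 = r.1 + (sr t).1 := by
    rw [hu, hst, ht, sr_val]
    abel
  have huf : sr u = u := by
    apply Subtype.ext
    rw [sr_val, hut, sg_add, sr_val, sg_sg, ← sr_val t, hst, ht, sr_val]
    abel
  have hut' : bf u.1 (sr t).1 = 1 := by
    rw [hut, bf_add_left, bf_root, hst, bf_add_right, hrs, hr0]
    norm_num
  have htu : bf u.1 t.1 = 1 := by
    rw [hu, bf_add_left, bf_root, ← sr_val, ht, bf_add_right, hrs', bf_comm (sr r).1 r.1, hr0]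
    norm_num
  refine ⟨htm, huf, ?_, ?_⟩
  · simp only [map_mul, eps_map, et_map, hb, hτ]
    ring
  · have hv : et K r.1 * eps K (sg r.1) s.1 * τ a * b = et K t.1 * τ (eps K r.1 s.1 * a * b) := by
      have h1 := et_add (K := K) ht
      rw [et_fix hs, hs', mul_one] at h1
      simp only [map_mul, eps_map, hb]
      calc et K r.1 * eps K (sg r.1) s.1 * τ a * b = (et K r.1 * eps K (sg r.1) s.1) * τ a * b := by ring
        _ = et K t.1 * (eps K r.1 s.1 * τ a * b) := by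
            rw [← h1]
            ring
    rw [yt_mov x τ hr, yt_fix x τ hs, yt_fix x τ huf, yt_mov x τ htm, ← hv, ← sr_val t, ← sr_val r]
    set a' := et K r.1 * τ a with ha'
    have hv2 : et K r.1 * eps K (sr r).1 s.1 * τ a * b = eps K (sr r).1 s.1 * a' * b := by
      rw [ha']
      ring
    rw [hv2]
    set v' := eps K (sr r).1 s.1 * a' * b with hv'
    have e1 : x r a * x s b * (x r a)⁻¹ = x t (eps K r.1 s.1 * a * b) * x s b := h.conj_add ht a b
    have e2 : x (sr r) a' * x s b * (x (sr r) a')⁻¹ = x (sr t) v' * x s b := h.conj_add hst a' b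
    have e3 : x r a * x (sr t) v' * (x r a)⁻¹ = x u (eps K r.1 (sr t).1 * a * v') * x (sr t) v' := h.conj_add hut a v'
    have e4 : x u (eps K r.1 (sr t).1 * a * v') * x (sr t) v' = x (sr t) v' * x u (eps K r.1 (sr t).1 * a * v') :=
      h.commute (by rw [hut']; norm_num) _ _
    have e5 : x u (eps K r.1 (sr t).1 * a * v') * x t (eps K r.1 s.1 * a * b) = x t (eps K r.1 s.1 * a * b) * x u (eps K r.1 (sr t).1 * a * v') :=
      h.commute (by rw [htu]; norm_num) _ _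
    have e6 : x t (eps K r.1 s.1 * a * b) * x (sr t) v' = x (sr t) v' * x t (eps K r.1 s.1 * a * b) :=
      h.commute (by rw [htt]) _ _
    calc x r a * x (sr r) a' * x s b * (x r a * x (sr r) a')⁻¹ = x r a * (x (sr r) a' * x s b * (x (sr r) a')⁻¹) * (x r a)⁻¹ := by group
      _ = (x r a * x (sr t) v' * (x r a)⁻¹) * (x r a * x s b * (x r a)⁻¹) := by
          rw [e2]
          group
      _ = x (sr t) v' * (x u (eps K r.1 (sr t).1 * a * v') * x t (eps K r.1 s.1 * a * b)) * x s b := by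
          rw [e3, e1, e4]
          group
      _ = (x (sr t) v' * x t (eps K r.1 s.1 * a * b)) * x u (eps K r.1 (sr t).1 * a * v') * x s b := by
          rw [e5]
          group
      _ = _ := by
          rw [← e6]
-- END af

-- BEGIN ag
theorem ag_perp {r : Root 6} (hr : sr r ≠ r) : bf r.1 (sr r).1 = 0 := (bf_self_sr r).resolve_left hr

theorem ag_sym (r s : Root 6) : bf s.1 (sr r).1 = bf r.1 (sr s).1 := by
  rw [bf_comm, bf_sr_left]

theorem ag_val {r s t : Root 6} (ht : t.1 = r.1 + s.1) : (sr t).1 = (sr r).1 + (sr s).1 := by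
  rw [sr_val, ht, sg_add]
  rfl

theorem ag_bt {r s t : Root 6} (hr : sr r ≠ r) (hs : sr s ≠ s) (ht : t.1 = r.1 + s.1) :
    bf t.1 (sr t).1 = 2 * bf r.1 (sr s).1 := by
  rw [ag_val ht, ht, bf_add_left, bf_add_right, bf_add_right, ag_perp hr, ag_perp hs, ag_sym r s]
  ring

theorem ag_comm {x : Root 6 → K → G} (h : Stb K 6 x) {r s : Root 6} (hb : 0 ≤ bf r.1 s.1) (a b : K) :
    x r a * x s b * (x r a)⁻¹ = x s b := by
  rw [h.commute hb, mul_inv_cancel_right]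

theorem ag_conj {x : Root 6 → K → G} (h : Stb K 6 x) {r s t : Root 6} (ht : t.1 = r.1 + s.1) (a b : K) :
    x r a * x s b * (x r a)⁻¹ = x t (eps K r.1 s.1 * a * b) * x s b := h.conj_add ht a b

theorem ag_sign (τ : K →+* K) {r s t : Root 6} (ht : t.1 = r.1 + s.1) (a b : K) :
    eps K (sr r).1 (sr s).1 * (et K r.1 * τ a) * (et K s.1 * τ b) = et K t.1 * τ (eps K r.1 s.1 * a * b) := by
  have h1 := et_add (K := K) ht
  rw [map_mul, map_mul, eps_map, sr_val, sr_val]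
  calc eps K (sg r.1) (sg s.1) * (et K r.1 * τ a) * (et K s.1 * τ b)
      = (et K r.1 * et K s.1 * eps K (sg r.1) (sg s.1)) * (τ a * τ b) := by ring
    _ = (et K t.1 * eps K r.1 s.1) * (τ a * τ b) := by rw [h1]
    _ = et K t.1 * (eps K r.1 s.1 * τ a * τ b) := by ring

theorem ag_split (p q u v : G) : p * q * (u * v) * (p * q)⁻¹ = p * ((q * u * q⁻¹) * (q * v * q⁻¹)) * p⁻¹ := by
  group

/-- MODULE ag. Both not fixed, `bf r (sg s) = 0`: `sg t ≠ t` (`bf t (sg t) = 2 bf r (sg s) = 0`). -/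
theorem yt_c4 {x : Root 6 → K → G} (h : Stb K 6 x) {τ : K →+* K} (hτ : ∀ a, τ (τ a) = a) {r s t : Root 6} (hr : sr r ≠ r) (hs : sr s ≠ s) (ht : t.1 = r.1 + s.1)
    (h0 : bf r.1 (sr s).1 = 0) (a b : K) :
    sr t ≠ t ∧ yt x τ r a * yt x τ s b * (yt x τ r a)⁻¹ = yt x τ t (eps K r.1 s.1 * a * b) * yt x τ s b := by
  have hbt := ag_bt hr hs ht
  have hne : sr t ≠ t := by
    intro hc
    rw [hc, bf_root, h0] at hbt
    norm_num at hbt
  refine ⟨hne, ?_⟩
  have k1 : 0 ≤ bf (sr r).1 s.1 := by rw [bf_sr_left, h0]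
  have k2 : 0 ≤ bf r.1 (sr t).1 := by rw [ag_val ht, bf_add_right, ag_perp hr, h0, add_zero]
  have k3 : 0 ≤ bf r.1 (sr s).1 := by rw [h0]
  have k4 : 0 ≤ bf s.1 (sr t).1 := by rw [ag_val ht, bf_add_right, ag_perp hs, ag_sym, h0, add_zero]
  have e1 : ∀ u v w p : G, p * (u * (v * w)) * p⁻¹ = (p * u * p⁻¹) * (p * v * p⁻¹) * (p * w * p⁻¹) :=
    fun u v w p => by group
  rw [yt_mov x τ hr, yt_mov x τ hs, yt_mov x τ hne, ag_split, ag_comm h k1, ag_conj h (ag_val ht), e1,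
    ag_conj h ht, ag_comm h k2, ag_comm h k3, ag_sign τ ht]
  have e2 : x s b * x (sr t) (et K t.1 * τ (eps K r.1 s.1 * a * b)) =
      x (sr t) (et K t.1 * τ (eps K r.1 s.1 * a * b)) * x s b := h.commute k4 _ _
  rw [mul_assoc (x t (eps K r.1 s.1 * a * b)), e2]
  group

/-- Both not fixed, `bf r (sg s) = 1`: then `bf t (sg t) = 2`, `sg t = t`, and the two contributions add up to a trace. -/
theorem yt_c5 {x : Root 6 → K → G} (h : Stb K 6 x) {τ : K →+* K} (hτ : ∀ a, τ (τ a) = a) {r s t : Root 6} (hr : sr r ≠ r) (hs : sr s ≠ s) (ht : t.1 = r.1 + s.1)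
    (h0 : bf r.1 (sr s).1 = 1) (a b : K) :
    sr t = t ∧ yt x τ r a * yt x τ s b * (yt x τ r a)⁻¹ = yt x τ t (eps K r.1 s.1 * a * b + τ (eps K r.1 s.1 * a * b)) * yt x τ s b := by
  have hbt := ag_bt hr hs ht
  rw [h0, mul_one] at hbt
  have heq : sr t = t := (bf_le (by norm_num) t (sr t)).2 hbt
  refine ⟨heq, ?_⟩
  have hbrs : bf r.1 s.1 = -1 := bf_of_add ht
  have k1 : 0 ≤ bf (sr r).1 s.1 := by rw [bf_sr_left, h0]; norm_num
  have k2 : 0 ≤ bf r.1 t.1 := by rw [ht, bf_add_right, bf_root, hbrs]; norm_num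
  have k3 : 0 ≤ bf r.1 (sr s).1 := by rw [h0]; norm_num
  have k4 : 0 ≤ bf s.1 t.1 := by rw [ht, bf_add_right, bf_root, bf_comm, hbrs]; norm_num
  have e1 : ∀ u v w p : G, p * (u * (v * w)) * p⁻¹ = (p * u * p⁻¹) * (p * v * p⁻¹) * (p * w * p⁻¹) :=
    fun u v w p => by group
  have hval : t.1 = (sr r).1 + (sr s).1 := by rw [← ag_val ht, heq]
  have hs1 := ag_sign τ ht a b
  rw [et_fix heq, one_mul] at hs1
  rw [yt_mov x τ hr, yt_mov x τ hs, yt_fix x τ heq, ag_split, ag_comm h k1, ag_conj h hval, e1,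
    ag_conj h ht, ag_comm h k2, ag_comm h k3, hs1]
  have e2 : x s b * x t (τ (eps K r.1 s.1 * a * b)) = x t (τ (eps K r.1 s.1 * a * b)) * x s b :=
    h.commute k4 _ _
  rw [mul_assoc (x t (eps K r.1 s.1 * a * b)), e2, h.add]
  group

/-- `bf r s = bf r (sg s) = -1` is impossible if both are not fixed: `t = r + s`, `bf t (sg t) = -2`, `sg t = -t` (`sr_ne_neg`). -/
theorem no_c6 {r s : Root 6} (hr : sr r ≠ r) (hs : sr s ≠ s) (h1 : bf r.1 s.1 = -1) : bf r.1 (sr s).1 = 0 ∨ bf r.1 (sr s).1 = 1 := by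
  have n1 : sr s ≠ r := by
    intro hc
    have h2 : s = sr r := by rw [← hc, sr_sr]
    rw [h2, ag_perp hr] at h1
    norm_num at h1
  have n2 : sr s ≠ -r := by
    intro hc
    have h2 : s = -sr r := by rw [← sr_neg, ← hc, sr_sr]
    rw [h2, neg_val, bf_neg_right, ag_perp hr] at h1
    norm_num at h1
  rcases bf_cases (by norm_num) n1 n2 with h2 | h2 | h2
  · exfalso
    obtain ⟨t, ht⟩ := root_add h1
    have hbt := ag_bt hr hs ht
    rw [h2] at hbt
    exact sr_ne_neg t ((bf_ge (by norm_num) t (sr t)).2 (by rw [hbt]; norm_num))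
  · exact Or.inl h2
  · exact Or.inr h2
-- END ag

/-- the subgroup generated by the `y_r(a)`, `p r` -/
def Sy (x : Root 6 → K → G) (τ : K →+* K) (p : Root 6 → Prop) : Subgroup G := Subgroup.closure {g | ∃ r a, p r ∧ Ok τ r a ∧ g = yt x τ r a}

-- BEGIN ah
/-- MODULE ah. -/
theorem Sy.mem {x : Root 6 → K → G} {τ : K →+* K} {p : Root 6 → Prop} {r : Root 6} (h : p r) {a : K} (ha : Ok τ r a) : yt x τ r a ∈ Sy x τ p :=
  Subgroup.subset_closure ⟨r, a, h, ha, rfl⟩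

theorem Sy.mono (x : Root 6 → K → G) (τ : K →+* K) {p q : Root 6 → Prop} (h : ∀ r, p r → q r) : Sy x τ p ≤ Sy x τ q := by
  refine Subgroup.closure_mono ?_
  rintro g ⟨r, a, hr, ha, rfl⟩
  exact ⟨r, a, h r hr, ha, rfl⟩

private theorem ah_one {A B D : G} (h : A * B * A⁻¹ = D * B) : A * B * A⁻¹ * B⁻¹ = D := by
  rw [h, mul_inv_cancel_right]

private theorem ah_fix {s r : Root 6} (hr : sr r = r) : bf r.1 (sr s).1 = bf r.1 s.1 := by
  rw [← bf_sr_left, hr]

private theorem ah_zero {s : Root 6} (hs : sr s ≠ s) : bf s.1 (sr s).1 = 0 := by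
  rcases bf_self_sr s with h | h
  · exact absurd h hs
  · exact h

/-- COMMUTATORS OF GENERATORS. If both forms `bf r s`, `bf r (sg s)` are `≥ 0`: `yt_comm`, the commutator is `1`. They are `≥ -1` (`bf_ge`, `s ≠ -r`, `s ≠ -sg r`). If `bf r s = -1`: `t = r + s` is a root (`root_add`); cases `c1 .. c5` (`no_c6`; `bf r (sg s) = bf r s` if `r` or `s` is fixed;
in `c2`, `c3` the sums `u = t + sg s`, `u = t + sg r` are roots because the forms are `-1`), all factors in front of `y_s(b)` are in `Sy q`. If `bf r (sg s) = -1` and `bf r s ≠ -1`, then `s`, `r` are not fixed: `y_s(b) = y_(sg s)(η τ b)` (`yt_sr`) reduces to `c4`, `c5` for `sg s`. -/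
theorem Sy.comm_gen {x : Root 6 → K → G} (h : Stb K 6 x) {τ : K →+* K} (hτ : ∀ a, τ (τ a) = a) {q : Root 6 → Prop} {r s : Root 6} (h1 : s ≠ -r) (h1' : s ≠ -sr r)
    (h2 : ∀ t : Root 6, t.1 = r.1 + s.1 ∨ t.1 = r.1 + sg s.1 → q t)
    (h3 : ∀ t u : Root 6, t.1 = r.1 + s.1 → u.1 = t.1 + sg s.1 ∨ u.1 = t.1 + sg r.1 → q u) {a b : K} (ha : Ok τ r a) (hb : Ok τ s b) :
    yt x τ r a * yt x τ s b * (yt x τ r a)⁻¹ * (yt x τ s b)⁻¹ ∈ Sy x τ q := by
  have h6 : (6 : ℕ) ≤ 8 := by norm_num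
  have g1 : -1 ≤ bf r.1 s.1 := by
    obtain ⟨k1, k2⟩ := bf_ge h6 r s
    have : bf r.1 s.1 ≠ -2 := fun e => h1 (k2 e)
    omega
  have g2 : -1 ≤ bf r.1 (sr s).1 := by
    obtain ⟨k1, k2⟩ := bf_ge h6 r (sr s)
    have : bf r.1 (sr s).1 ≠ -2 := by
      intro e
      have k3 := congrArg sr (k2 e)
      rw [sr_sr, sr_neg] at k3
      exact h1' k3
    omega
  by_cases hA : bf r.1 s.1 = -1
  · obtain ⟨t, ht⟩ := root_add hA
    have hq : q t := h2 t (Or.inl ht)
    by_cases hr : sr r = r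
    · by_cases hs : sr s = s
      · obtain ⟨k1, k2⟩ := yt_c1 h τ hr hs ht a b
        rw [ah_one k2]
        refine Sy.mem hq fun _ => ?_
        rw [map_mul, map_mul, eps_map, ha hr, hb hs]
      · have e1 : bf t.1 (sr s).1 = -1 := by
          rw [ht, bf_add_left, ah_fix hr, ah_zero hs, hA, add_zero]
        obtain ⟨u, hu⟩ := root_add e1
        have hu' : u.1 = t.1 + sg s.1 := hu
        obtain ⟨k1, k2, c, hc, k3⟩ := yt_c2 h hτ hr hs ht hu' (ha hr) b
        rw [ah_one k3]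
        exact Subgroup.mul_mem _ (Sy.mem hq (Ok.of_ne k1 _)) (Sy.mem (h3 t u ht (Or.inl hu')) fun _ => hc)
    · by_cases hs : sr s = s
      · have e1 : bf t.1 (sr r).1 = -1 := by
          rw [ht, bf_add_left, ah_zero hr, bf_comm s.1, bf_sr_left, hs, hA, zero_add]
        obtain ⟨u, hu⟩ := root_add e1
        have hu' : u.1 = t.1 + sg r.1 := hu
        obtain ⟨k1, k2, hc, k3⟩ := yt_c3 h hτ hr hs ht hu' a (hb hs)
        rw [ah_one k3]
        exact Subgroup.mul_mem _ (Sy.mem hq (Ok.of_ne k1 _)) (Sy.mem (h3 t u ht (Or.inr hu')) fun _ => hc)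
      · rcases no_c6 hr hs hA with h0 | h0
        · obtain ⟨k1, k2⟩ := yt_c4 h hτ hr hs ht h0 a b
          rw [ah_one k2]
          exact Sy.mem hq (Ok.of_ne k1 _)
        · obtain ⟨k1, k2⟩ := yt_c5 h hτ hr hs ht h0 a b
          rw [ah_one k2]
          refine Sy.mem hq fun _ => ?_
          rw [map_add, hτ, add_comm]
  · by_cases hB : bf r.1 (sr s).1 = -1
    · have hr : sr r ≠ r := fun e => hA ((ah_fix e).symm.trans hB)
      have hs : sr s ≠ s := fun e => hA (by rw [e] at hB; exact hB)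
      have hs' : sr (sr s) ≠ sr s := by
        rw [sr_sr]
        exact fun e => hs e.symm
      obtain ⟨t, ht⟩ := root_add hB
      have hq : q t := h2 t (Or.inr ht)
      rw [← yt_sr h hτ hs b]
      rcases no_c6 hr hs' hB with h0 | h0
      · obtain ⟨k1, k2⟩ := yt_c4 h hτ hr hs' ht h0 a (et K s.1 * τ b)
        rw [ah_one k2]
        exact Sy.mem hq (Ok.of_ne k1 _)
      · obtain ⟨k1, k2⟩ := yt_c5 h hτ hr hs' ht h0 a (et K s.1 * τ b)
        rw [ah_one k2]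
        refine Sy.mem hq fun _ => ?_
        rw [map_add, hτ, add_comm]
    · have k := yt_comm h τ (r := r) (s := s) (by omega) (by omega) a b
      have k2 : yt x τ r a * yt x τ s b * (yt x τ r a)⁻¹ * (yt x τ s b)⁻¹ = 1 := by
        rw [k]
        group
      rw [k2]
      exact Subgroup.one_mem _
-- END ah

-- BEGIN ai
/-- MODULE ai. CONJUGATION: closure induction, on generators `y_r(a) y_s(b) y_r(a)⁻¹ = [..] y_s(b)` with `Sy.comm_gen` for `q = p` (`h3`: `u = sg s + t`; `sg r + t` is covered by `h2`). -/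
theorem Sy.conj {x : Root 6 → K → G} (h : Stb K 6 x) {τ : K →+* K} (hτ : ∀ a, τ (τ a) = a) {p : Root 6 → Prop} (hp : ∀ s, p s → p (sr s))
    (h3 : ∀ s t u : Root 6, p s → p t → u.1 = s.1 + t.1 → p u) {r : Root 6} (h1 : ∀ s, p s → s ≠ -r ∧ s ≠ -sr r)
    (h2 : ∀ s t : Root 6, p s → t.1 = r.1 + s.1 ∨ t.1 = (sr r).1 + s.1 → p t) {a : K} (ha : Ok τ r a) {g : G} (hg : g ∈ Sy x τ p) :
    yt x τ r a * g * (yt x τ r a)⁻¹ ∈ Sy x τ p := by
  unfold Sy at hg
  induction hg using Subgroup.closure_induction with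
  | mem g hg =>
    obtain ⟨s, b, hs, hb, rfl⟩ := hg
    have h4 : yt x τ r a * yt x τ s b * (yt x τ r a)⁻¹ * (yt x τ s b)⁻¹ ∈ Sy x τ p := by
      refine Sy.comm_gen h hτ (h1 s hs).1 (h1 s hs).2 ?_ ?_ ha hb
      · rintro t (ht | ht)
        · exact h2 s t hs (Or.inl ht)
        · exact h2 (sr s) t (hp s hs) (Or.inl ht)
      · intro t u ht hu
        have h5 : p t := h2 s t hs (Or.inl ht)
        rcases hu with hu | hu
        · exact h3 (sr s) t u (hp s hs) h5 (by rw [hu, sr_val, add_comm])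
        · exact h2 t u h5 (Or.inr (by rw [hu, sr_val, add_comm]))
    have h5 := mul_mem h4 (Sy.mem (x := x) (τ := τ) (p := p) hs hb)
    have h6 : yt x τ r a * yt x τ s b * (yt x τ r a)⁻¹ * (yt x τ s b)⁻¹ * yt x τ s b = yt x τ r a * yt x τ s b * (yt x τ r a)⁻¹ := by group
    rwa [h6] at h5
  | one =>
    have h6 : yt x τ r a * 1 * (yt x τ r a)⁻¹ = 1 := by group
    rw [h6]
    exact one_mem _
  | mul g g' _ _ hg hg' =>
    have h6 : yt x τ r a * (g * g') * (yt x τ r a)⁻¹ = (yt x τ r a * g * (yt x τ r a)⁻¹) * (yt x τ r a * g' * (yt x τ r a)⁻¹) := by group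
    rw [h6]
    exact mul_mem hg hg'
  | inv g _ hg =>
    have h6 : yt x τ r a * g⁻¹ * (yt x τ r a)⁻¹ = (yt x τ r a * g * (yt x τ r a)⁻¹)⁻¹ := by group
    rw [h6]
    exact inv_mem hg

/-- from the generators to the whole group (`yt_inv`) -/
theorem Sy.conj_all {x : Root 6 → K → G} (h : Stb K 6 x) {τ : K →+* K} {p q : Root 6 → Prop}
    (h1 : ∀ r, q r → ∀ a, Ok τ r a → ∀ g ∈ Sy x τ p, yt x τ r a * g * (yt x τ r a)⁻¹ ∈ Sy x τ p) {u g : G} (hu : u ∈ Sy x τ q) (hg : g ∈ Sy x τ p) :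
    u * g * u⁻¹ ∈ Sy x τ p := by
  have key : (∀ g ∈ Sy x τ p, u * g * u⁻¹ ∈ Sy x τ p) ∧ ∀ g ∈ Sy x τ p, u⁻¹ * g * u ∈ Sy x τ p := by
    clear hg
    unfold Sy at hu
    induction hu using Subgroup.closure_induction with
    | mem u hu =>
      obtain ⟨r, a, hr, ha, rfl⟩ := hu
      refine ⟨h1 r hr a ha, fun g hg => ?_⟩
      have h4 := h1 r hr (-a) ha.neg g hg
      rw [← yt_inv h, inv_inv] at h4
      exact h4
    | one =>
      refine ⟨fun g hg => ?_, fun g hg => ?_⟩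
      · simpa using hg
      · simpa using hg
    | mul v w _ _ hv hw =>
      refine ⟨fun g hg => ?_, fun g hg => ?_⟩
      · have h6 : v * w * g * (v * w)⁻¹ = v * (w * g * w⁻¹) * v⁻¹ := by group
        rw [h6]
        exact hv.1 _ (hw.1 g hg)
      · have h6 : (v * w)⁻¹ * g * (v * w) = w⁻¹ * (v⁻¹ * g * v) * w := by group
        rw [h6]
        exact hw.2 _ (hv.2 g hg)
    | inv v _ hv =>
      refine ⟨fun g hg => ?_, fun g hg => ?_⟩
      · have h6 := hv.2 g hg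
        rwa [inv_inv]
      · have h6 := hv.1 g hg
        rwa [inv_inv]
  exact key.1 g hg
-- END ai

end Pool.Agent.ThF
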