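import Pool.Agent.ThF.Fin

/-! # The fixed field with two elements: `F_4(2)` and `²E_6(2)`

`T2 τ`: the fixed field `K_0` of `τ` is `{0, 1}`; `K` has 2 or 4 elements.  The only obstruction is the parity of the component in `SL_2(2)` of an element of the Levi subgroup: only `1` and the elements of order 3 are products of two elements of order 3. -/

namespace Pool.Agent.ThF

open ThE ThK Polynomial
open ThR hiding X

variable {K : Type*} [Field K] {L : Type*} [Field L] {G : Type*} [Group G] {x : Root 6 → K → G} {τ : K →+* K}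

/-- the fixed field of `τ` has two elements -/
def T2 (τ : K →+* K) : Prop := ∀ a : K, a ∈ Fx τ → a = 0 ∨ a = 1

-- BEGIN sa
/-- MODULE sa. `1 + 1 ∈ Fx τ`, and `1 + 1 = 1` gives `1 = 0`. -/
theorem T2.two (hT : T2 τ) : (2 : K) = 0 := by
  rcases hT 2 (by rw [mem_Fx]; exact map_ofNat τ 2) with h | h
  · exact h
  · exfalso
    have h1 : (1 : K) = 0 := by linear_combination h
    exact one_ne_zero h1

/-- `a τ(a)` is fixed and not 0 -/
theorem T2.nrm (hT : T2 τ) (hτ : ∀ a, τ (τ a) = a) {a : K} (ha : a ≠ 0) : a * τ a = 1 := by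
  have hf : a * τ a ∈ Fx τ := by
    rw [mem_Fx, map_mul, hτ, mul_comm]
  rcases hT _ hf with h | h
  · exfalso
    rcases mul_eq_zero.1 h with h1 | h1
    · exact ha h1
    · exact ha ((map_eq_zero τ).1 h1)
  · exact h

/-- `a^2 = (a + τ a) a - a τ(a)`, `a + τ a ∈ {0, 1}`: `a^2 = 1` (then `(a - 1)^2 = 0`, `a = 1`) or `a^2 = a + 1` (characteristic 2) -/
theorem T2.cube (hT : T2 τ) (hτ : ∀ a, τ (τ a) = a) {a : K} (ha : a ≠ 0) : a * a * a = 1 := by
  have h2 := hT.two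
  have hn := hT.nrm hτ ha
  have hf : a + τ a ∈ Fx τ := by
    rw [mem_Fx, map_add, hτ, add_comm]
  rcases hT _ hf with h | h
  · have h3 : τ a = - a := by linear_combination h
    rw [h3] at hn
    have h4 : (a - 1) * (a - 1) = 0 := by linear_combination (-1) * hn - a * h2
    have h5 : a = 1 := sub_eq_zero.1 (mul_self_eq_zero.1 h4)
    rw [h5]; ring
  · have h3 : τ a = 1 - a := by linear_combination h
    rw [h3] at hn
    linear_combination (-(a + 1)) * hn - h2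

/-- the units satisfy `a^3 = 1`: the cyclic group `Kˣ` has 1 or 3 elements (`IsCyclic.exponent_eq_card` or: the roots of `X^3 - 1`, at most 3, and if there are two units `1`, `a`, then `a^2` is a third one) -/
theorem T2.card [Finite K] (hT : T2 τ) (hτ : ∀ a, τ (τ a) = a) : Nat.card K = 2 ∨ Nat.card K = 4 := by
  have h1 : Monoid.exponent Kˣ ∣ 3 := by
    apply Monoid.exponent_dvd_of_forall_pow_eq_one
    intro u
    have h3 := hT.cube hτ u.ne_zero
    apply Units.ext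
    push_cast
    rw [pow_three, ← mul_assoc]
    exact h3
  rw [IsCyclic.exponent_eq_card, Nat.card_units] at h1
  have h0 : 1 < Nat.card K := Finite.one_lt_card
  rcases (Nat.dvd_prime Nat.prime_three).1 h1 with h | h
  · left; omega
  · right; omega

theorem T2.unit (hT : T2 τ) {i : Fin 4} (hi : (i : ℕ) < 2) (z : (Sf τ i)ˣ) : z = 1 := by
  have h1 : (((z : Sf τ i) : K)) ∈ Fx τ := mem_Fx.2 (Sf_fix hi _)
  rcases hT _ h1 with h | h
  · exfalso
    apply z.ne_zero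
    exact Subtype.ext h
  · exact Units.ext (Subtype.ext h)

theorem T2.of_card (h : Nat.card (Fx τ) = 2) : T2 τ := by
  obtain ⟨u, v, -, hu⟩ := Nat.card_eq_two_iff.1 h
  have hz : ∀ z : Fx τ, z = u ∨ z = v := fun z => by
    have h1 := Set.mem_univ z
    rw [← hu] at h1
    simpa using h1
  intro a ha
  have h01 : (0 : Fx τ) ≠ 1 := zero_ne_one
  have key : (⟨a, ha⟩ : Fx τ) = 0 ∨ (⟨a, ha⟩ : Fx τ) = 1 := by
    rcases hz 0 with h0 | h0 <;> rcases hz 1 with h1 | h1 <;> rcases hz ⟨a, ha⟩ with h2 | h2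
    · exact absurd (h0.trans h1.symm) h01
    · exact absurd (h0.trans h1.symm) h01
    · exact Or.inl (h2.trans h0.symm)
    · exact Or.inr (h2.trans h1.symm)
    · exact Or.inr (h2.trans h1.symm)
    · exact Or.inl (h2.trans h0.symm)
    · exact absurd (h0.trans h1.symm) h01
    · exact absurd (h0.trans h1.symm) h01
  rcases key with h3 | h3
  · left; exact congrArg Subtype.val h3
  · right; exact congrArg Subtype.val h3
-- END sa

-- BEGIN sb
/-- MODULE sb. BIRKHOFF. `exists_thH`, `exists_ch`, `datY`, `ThG.Dat.big` for `⟨g, hg⟩ : Hh x τ`: `g = u₁ v h(z) u₂`, `c = u₁⁻¹`. -/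
theorem bigY (h : Stb K 6 x) (hτ : ∀ a, τ (τ a) = a) {g : G} (hg : g ∈ Hh x τ) :
    ∃ c ∈ Hh x τ, ∃ v ∈ Sy (op x) τ (fun r => 0 < ht r.1), ∃ z : ∀ i : Fin 4, (Sf τ i)ˣ, ∃ u ∈ Sy x τ (fun r => 0 < ht r.1), c * g * c⁻¹ = v * hz x τ z * u := by
  obtain ⟨th, hth⟩ := exists_thH (τ := τ) h
  obtain ⟨χ, hχ⟩ := exists_ch hτ
  obtain ⟨c, v, hv, z, u, hu, e⟩ := (datY h hτ hth hχ).tri ⟨g, hg⟩
  exact ⟨c.1, c.2, v.1, hv, z, u.1, hu, congrArg Subtype.val e⟩
-- END sb

/-- the level function of the Levi subgroup of the nodes `0`, `1`: the sum of the coefficients of the other four simple roots -/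
def l01 (v : Vec 6) : ℤ := 3 * v.1 - 2 * v.2 0 - v.2 1 + v.2 4 + 2 * v.2 5

-- BEGIN sc
/-- MODULE sc. -/
theorem addl01 : Addl l01 := by
  intro v w
  show 3 * (v.1 + w.1) - 2 * (v.2 0 + w.2 0) - (v.2 1 + w.2 1) + (v.2 4 + w.2 4) + 2 * (v.2 5 + w.2 5) =
    (3 * v.1 - 2 * v.2 0 - v.2 1 + v.2 4 + 2 * v.2 5) + (3 * w.1 - 2 * w.2 0 - w.2 1 + w.2 4 + 2 * w.2 5)
  ring

/-- `∑ m_i = 3 d` is not needed: `3 d - 2 (d - m_5) - (d - m_4) + (d - m_1) + 2 (d - m_0)` -/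
theorem sgl01 : Sgl l01 := by
  intro r
  show 3 * r.1.1 - 2 * (r.1.1 - r.1.2 5) - (r.1.1 - r.1.2 4) + (r.1.1 - r.1.2 1) + 2 * (r.1.1 - r.1.2 0) =
    3 * r.1.1 - 2 * r.1.2 0 - r.1.2 1 + r.1.2 4 + 2 * r.1.2 5
  ring

private theorem sc_ht (v : Vec 6) : ht v = v.2 0 + 2 * v.2 1 + 3 * v.2 2 + 4 * v.2 3 + 5 * v.2 4 + 6 * v.2 5 - 5 * v.1 := by
  unfold ht
  rw [Fin.sum_univ_six]
  have e0 : (((0 : Fin 6) : ℕ) : ℤ) = 0 := rfl
  have e1 : (((1 : Fin 6) : ℕ) : ℤ) = 1 := rfl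
  have e2 : (((2 : Fin 6) : ℕ) : ℤ) = 2 := rfl
  have e3 : (((3 : Fin 6) : ℕ) : ℤ) = 3 := rfl
  have e4 : (((4 : Fin 6) : ℕ) : ℤ) = 4 := rfl
  have e5 : (((5 : Fin 6) : ℕ) : ℤ) = 5 := rfl
  rw [e0, e1, e2, e3, e4, e5]
  ring

private theorem sc_dec : ∀ i j : Fin 6,
    0 < ht (((0 : ℤ), fun k : Fin 6 => (if k = i then (1 : ℤ) else 0) - (if k = j then 1 else 0)) : Vec 6) →
    0 ≤ l01 (((0 : ℤ), fun k : Fin 6 => (if k = i then (1 : ℤ) else 0) - (if k = j then 1 else 0)) : Vec 6) ∧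
    (l01 (((0 : ℤ), fun k : Fin 6 => (if k = i then (1 : ℤ) else 0) - (if k = j then 1 else 0)) : Vec 6) = 0 →
      (((0 : ℤ), fun k : Fin 6 => (if k = i then (1 : ℤ) else 0) - (if k = j then 1 else 0)) : Vec 6) = r3.1) := by
  decide

/-- the coordinates of a root with `d ≥ 1` -/
private theorem sc_pos {r : Root 6} (hd : 1 ≤ r.1.1) : (∀ i, r.1.2 i = 0 ∨ r.1.2 i = 1) ∧ r.1.1 ≤ 2 ∧
    r.1.2 0 + r.1.2 1 + r.1.2 2 + r.1.2 3 + r.1.2 4 + r.1.2 5 = 3 * r.1.1 := by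
  have hb := (d_bound (by norm_num) r).2
  have hs := r.2.1
  rw [Fin.sum_univ_six] at hs
  obtain h1 | h2 | h3 : r.1.1 = 1 ∨ r.1.1 = 2 ∨ r.1.1 = 3 := by omega
  · exact ⟨fun i => cls_one_two r (Or.inl h1) i, by omega, hs⟩
  · exact ⟨fun i => cls_one_two r (Or.inr h2) i, by omega, hs⟩
  · exact absurd (cls_three (by norm_num) r h3).1 (by norm_num)

private theorem sc_neg {r : Root 6} (h : 0 < ht r.1) : 0 ≤ r.1.1 := by
  by_contra hc
  have h1 : (-r).1 = -r.1 := neg_val r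
  have h2 : (1 : ℤ) ≤ (-r).1.1 := by
    rw [h1, Prod.fst_neg]
    omega
  obtain ⟨c, hb, hs⟩ := sc_pos h2
  have h3 : ht (-r).1 = -ht r.1 := by
    rw [h1]
    exact ThE.ht_neg r.1
  rw [sc_ht (-r).1] at h3
  have c0 := c 0
  have c1 := c 1
  have c2 := c 2
  have c3 := c 3
  have c4 := c 4
  have c5 := c 5
  omega

/-- CLASSIFICATION (`d_bound`, `cls_zero`, `cls_one_two`, ..: `d = 0`: `e_i - e_j`, `i > j`; `d = 1`: three of the `m_i` are 1, the others 0; `d = 2`: all are 1 (`n = 6`); `d < 0`: negative height).  The weights `(-2, -1, 0, 0, 1, 2)` are increasing; `d = 1`: `3 +` the sum of three different weights `≥ -3`. -/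
theorem l01_nonneg {r : Root 6} (h : 0 < ht r.1) : 0 ≤ l01 r.1 := by
  rcases (sc_neg h).eq_or_lt with hd | hd
  · obtain ⟨i, j, -, hk⟩ := cls_zero r hd.symm
    have hr : r.1 = ((0 : ℤ), fun k : Fin 6 => (if k = i then (1 : ℤ) else 0) - (if k = j then 1 else 0)) :=
      Prod.ext hd.symm (funext hk)
    rw [hr] at h ⊢
    exact (sc_dec i j h).1
  · obtain ⟨c, hb, hs⟩ := sc_pos (r := r) hd
    have c0 := c 0
    have c1 := c 1
    have c2 := c 2
    have c3 := c 3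
    have c4 := c 4
    have c5 := c 5
    show 0 ≤ 3 * r.1.1 - 2 * r.1.2 0 - r.1.2 1 + r.1.2 4 + 2 * r.1.2 5
    omega

theorem l01_zero {r : Root 6} (h : 0 < ht r.1) (h0 : l01 r.1 = 0) : r = gm ∨ r = r3 ∨ r.1 = gm.1 + r3.1 := by
  rcases (sc_neg h).eq_or_lt with hd | hd
  · obtain ⟨i, j, -, hk⟩ := cls_zero r hd.symm
    have hr : r.1 = ((0 : ℤ), fun k : Fin 6 => (if k = i then (1 : ℤ) else 0) - (if k = j then 1 else 0)) :=
      Prod.ext hd.symm (funext hk)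
    rw [hr] at h h0
    exact Or.inr (Or.inl (Subtype.ext (hr.trans ((sc_dec i j h).2 h0))))
  · obtain ⟨c, hb, hs⟩ := sc_pos (r := r) hd
    have c0 := c 0
    have c1 := c 1
    have c2 := c 2
    have c3 := c 3
    have c4 := c 4
    have c5 := c 5
    have h0' : 3 * r.1.1 - 2 * r.1.2 0 - r.1.2 1 + r.1.2 4 + 2 * r.1.2 5 = 0 := h0
    have e : r.1.1 = 1 := by omega
    have e0 : r.1.2 0 = 1 := by omega
    have e1 : r.1.2 1 = 1 := by omega
    have e4 : r.1.2 4 = 0 := by omega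
    have e5 : r.1.2 5 = 0 := by omega
    rcases c2 with e2 | e2
    · have e3 : r.1.2 3 = 1 := by omega
      refine Or.inr (Or.inr (Prod.ext ?_ (funext fun i => ?_)))
      · rw [e]
        rfl
      · fin_cases i
        · exact e0
        · exact e1
        · exact e2
        · exact e3
        · exact e4
        · exact e5
    · have e3 : r.1.2 3 = 0 := by omega
      refine Or.inl (Subtype.ext (Prod.ext e (funext fun i => ?_)))
      fin_cases i
      · exact e0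
      · exact e1
      · exact e2
      · exact e3
      · exact e4
      · exact e5
-- END sc

-- BEGIN sd
/-- MODULE sd. As `nrm_mem` (closure induction, `Nrm.of_root`, `Nrm.one`, `Nrm.mul`, `Nrm.inv`) and as row `jf` (`Sy_split`), for any level function. -/
theorem nrm_l (h : Stb K 6 x) (hτ : ∀ a, τ (τ a) = a) {l : Vec 6 → ℤ} (hl : Addl l) (hs : Sgl l) {b : G} (hb : b ∈ Sy x τ fun r => l r.1 = 0) : Nrm x τ l b := by
  refine Subgroup.closure_induction (p := fun b _ => Nrm x τ l b) ?_ ?_ ?_ ?_ hb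
  · rintro _ ⟨r, a, hr, ha, rfl⟩
    exact Nrm.of_root h hτ hl hs hr ha
  · exact Nrm.one x τ l
  · intro a b _ _ ha hb
    exact ha.mul hb
  · intro a _ ha
    exact ha.inv

private theorem sd_split (h : Stb K 6 x) (hτ : ∀ a, τ (τ a) = a) {l : Vec 6 → ℤ} (hl : Addl l) (hs : Sgl l) {p : Root 6 → Prop} (hp : ∀ r, p r → 0 ≤ l r.1) {u : G} (hu : u ∈ Sy x τ p) :
    ∃ u₁ ∈ Sy x τ (fun r => p r ∧ l r.1 = 0), ∃ u₂ ∈ Uy x τ l 1, u = u₁ * u₂ := by
  have step : ∀ r a, p r → Ok τ r a → ∀ y : G, (∃ u₁ ∈ Sy x τ (fun r => p r ∧ l r.1 = 0), ∃ u₂ ∈ Uy x τ l 1, y = u₁ * u₂) →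
      ∃ u₁ ∈ Sy x τ (fun r => p r ∧ l r.1 = 0), ∃ u₂ ∈ Uy x τ l 1, yt x τ r a * y = u₁ * u₂ := by
    rintro r a hr ha y ⟨u₁, hu₁, u₂, hu₂, rfl⟩
    rcases (hp r hr).eq_or_lt with h0 | h0
    · exact ⟨yt x τ r a * u₁, Subgroup.mul_mem _ (Sy.mem (p := fun r => p r ∧ l r.1 = 0) ⟨hr, h0.symm⟩ ha) hu₁, u₂, hu₂, by rw [mul_assoc]⟩
    · have hx : yt x τ r a ∈ Uy x τ l 1 := by
        refine Sy.mem (p := fun r : Root 6 => (((1 : ℕ) : ℤ) ≤ l r.1)) ?_ ha
        push_cast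
        omega
      have hb : u₁ ∈ Sy x τ fun r => l r.1 = 0 := Sy.mono x τ (fun r hr => hr.2) hu₁
      have hc := ((nrm_l h hτ hl hs hb) 1 le_rfl _ hx).2
      refine ⟨u₁, hu₁, u₁⁻¹ * yt x τ r a * u₁ * u₂, Subgroup.mul_mem _ hc hu₂, ?_⟩
      group
  unfold Sy at hu
  induction hu using Subgroup.closure_induction_left with
  | one => exact ⟨1, Subgroup.one_mem _, 1, Subgroup.one_mem _, (mul_one 1).symm⟩
  | mul_left g hg y _ ih =>
    obtain ⟨r, a, hr, ha, rfl⟩ := hg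
    exact step r a hr ha y ih
  | inv_mul_cancel g hg y _ ih =>
    obtain ⟨r, a, hr, ha, rfl⟩ := hg
    rw [yt_inv h]
    exact step r (-a) hr ha.neg y ih

theorem Sy_splitL (h : Stb K 6 x) (hτ : ∀ a, τ (τ a) = a) {l : Vec 6 → ℤ} (hl : Addl l) (hs : Sgl l) {p : Root 6 → Prop} (hp : ∀ r, p r → 0 ≤ l r.1) {u : G} (hu : u ∈ Sy x τ p) :
    (∃ u₁ ∈ Sy x τ (fun r => p r ∧ l r.1 = 0), ∃ u₂ ∈ Uy x τ l 1, u = u₁ * u₂) ∧ ∃ u₂ ∈ Uy x τ l 1, ∃ u₁ ∈ Sy x τ (fun r => p r ∧ l r.1 = 0), u = u₂ * u₁ := by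
  have h1 := sd_split h hτ hl hs hp hu
  refine ⟨h1, ?_⟩
  obtain ⟨u₁, hu₁, u₂, hu₂, rfl⟩ := h1
  have hb : u₁ ∈ Sy x τ fun r => l r.1 = 0 := Sy.mono x τ (fun r hr => hr.2) hu₁
  exact ⟨u₁ * u₂ * u₁⁻¹, ((nrm_l h hτ hl hs hb) 1 le_rfl _ hu₂).1, u₁, hu₁, by group⟩
-- END sd

/-- the family of the nodes `0`, `1` -/
def uD : Fin 3 → Vec 6 := ![gm.1 + r3.1, r3.1, 0]

/-- `SL_3(K_0)` of the nodes `0`, `1` -/
def ge (τ : K →+* K) (F4 : Matrix.SpecialLinearGroup (Fin 3) K →* G) : Matrix.SpecialLinearGroup (Fin 3) (Fx τ) →* G := F4.comp (Matrix.SpecialLinearGroup.map (Fx τ).subtype)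

-- BEGIN se
private theorem se_sr : ∀ i j : Fin 3, i ≠ j → sg (uD i - uD j) = uD i - uD j := by
  decide +kernel

private theorem se_elv {F : Type*} [Field F] {m : ℕ} {i j : Fin m} (h : i ≠ j) (a : F) : (el F i j a).1 = Matrix.transvection i j a := by
  have h1 : el F i j a = ⟨Matrix.transvection i j a, Matrix.det_transvection_of_ne i j h a⟩ := dif_pos h
  rw [h1]

private theorem se_mapf {F L : Type*} [Field F] [Field L] (f : F →+* L) {m : ℕ} {i j : Fin m} (h : i ≠ j) (a : F) :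
    Matrix.SpecialLinearGroup.map f (el F i j a) = el L i j (f a) := by
  apply Subtype.ext
  have h1 : (Matrix.SpecialLinearGroup.map f (el F i j a)).1 = ((el F i j a).1).map f := rfl
  rw [h1, se_elv h, se_elv h]
  ext p q
  rw [Matrix.map_apply]
  simp only [Matrix.transvection, Matrix.add_apply, Matrix.one_apply, Matrix.single_apply, map_add]
  split_ifs <;> simp

private theorem se_cf (h2 : (2 : K) = 0) (i j : Fin 3) : cf K uD i j = 1 := by
  have h1 := cf_sq (K := K) uD i j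
  have h3 : (cf K uD i j - 1) ^ 2 = 0 := by linear_combination h1 - (cf K uD i j - 1) * h2
  exact sub_eq_zero.1 (pow_eq_zero_iff (two_ne_zero) |>.1 h3)

private theorem se_clos {P : Subgroup G} {F : Matrix.SpecialLinearGroup (Fin 3) (Fx τ) →* G} (h : ∀ i j a, i ≠ j → F (el (Fx τ) i j a) ∈ P)
    (M : Matrix.SpecialLinearGroup (Fin 3) (Fx τ)) : F M ∈ P := by
  have h1 : (⊤ : Subgroup (Matrix.SpecialLinearGroup (Fin 3) (Fx τ))) ≤ P.comap F := by
    rw [← el_gen (Fx τ) 3, Subgroup.closure_le]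
    rintro g ⟨i, j, a, hij, rfl⟩
    exact h i j a hij
  exact h1 (Subgroup.mem_top M)

/-- MODULE se. `Fam l01 uD`: `uD i - uD j` are `± gm`, `± r3`, `± (gm + r3)`, explicit vectors, level 0. -/
theorem fam_uD : Fam l01 uD := by
  unfold Fam L0
  decide +kernel

theorem exists_F4 (h : Stb K 6 x) : ∃ F4 : Matrix.SpecialLinearGroup (Fin 3) K →* G, HomF x uD F4 :=
  exists_HomF (Or.inl rfl) h fam_uD

/-- all signs are 1 in characteristic 2 -/
theorem ge_el (hT : T2 τ) {F4 : Matrix.SpecialLinearGroup (Fin 3) K →* G} (H4 : HomF x uD F4) {i j : Fin 3} (hij : i ≠ j) {r : Root 6} (hr : r.1 = uD i - uD j) (a : Fx τ) :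
    ge τ F4 (el (Fx τ) i j a) = yt x τ r (a : K) := by
  have h1 : ge τ F4 (el (Fx τ) i j a) = F4 (el K i j (a : K)) := by
    show F4 (Matrix.SpecialLinearGroup.map (Fx τ).subtype (el (Fx τ) i j a)) = _
    rw [se_mapf _ hij]
    rfl
  have h2 : sr r = r := Subtype.ext (by rw [sr_val, hr]; exact se_sr i j hij)
  rw [h1, H4 i j hij, se_cf hT.two i j, one_mul, yt_fix x τ h2]
  obtain ⟨v, hv⟩ := r
  change v = _ at hr
  subst hr
  exact X_of x hv _

/-- `SL_3` is generated by the elementary matrices (as in `HomF.mem`), all roots are fixed by `sr` and have level 0 -/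
theorem ge_mem (hT : T2 τ) {F4 : Matrix.SpecialLinearGroup (Fin 3) K →* G} (H4 : HomF x uD F4) (M : Matrix.SpecialLinearGroup (Fin 3) (Fx τ)) :
    (ge τ F4 M ∈ Sy x τ fun r => l01 r.1 = 0) ∧ (ge τ F4 M ∈ Sy (op x) τ fun r => l01 r.1 = 0) ∧ ge τ F4 M ∈ Hh x τ := by
  have h1 : ge τ F4 M ∈ Sy x τ fun r => l01 r.1 = 0 := by
    refine se_clos (fun i j a hij => ?_) M
    rw [ge_el hT H4 hij (r := ⟨uD i - uD j, (fam_uD i j hij).1⟩) rfl a]
    exact Sy.mem (fam_uD i j hij).2 fun _ => a.2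
  have h2 : ge τ F4 M ∈ Sy (op x) τ fun r => l01 r.1 = 0 := by
    refine se_clos (fun i j a hij => ?_) M
    rw [ge_el hT H4 hij (r := ⟨uD i - uD j, (fam_uD i j hij).1⟩) rfl a, Sy_op]
    refine Sy.mem ?_ fun _ => a.2
    have h3 : (-(⟨uD i - uD j, (fam_uD i j hij).1⟩ : Root 6)).1 = uD j - uD i := by
      rw [neg_val]
      show -(uD i - uD j) = uD j - uD i
      abel
    rw [h3]
    exact (fam_uD j i hij.symm).2
  exact ⟨h1, h2, Sy_le_Hh x τ _ h1⟩
-- END se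

-- BEGIN sf
private theorem sf_cy (r s : Vec 6) {c : K} (hc : c ≠ 0) : cy τ r s c ≠ 0 := by
  unfold cy
  split_ifs
  · exact zpow_ne_zero _ hc
  · exact mul_ne_zero (zpow_ne_zero _ hc) (zpow_ne_zero _ ((map_ne_zero τ).2 hc))

private theorem sf_ne {S : Subfield K} (z : Sˣ) : ((z : S) : K) ≠ 0 := by
  intro h
  apply z.ne_zero
  exact Subtype.ext h

/-- MODULE sf. THE TORUS COMMUTES WITH THE NODES 0, 1: `s` fixed by `sr`: `chY τ s z` is fixed by `τ` (each factor of `cy_ok`, or: `c ^ k`, `c ∈ K_0`, and norms) and not 0, so it is 1; `hzY_conj`. -/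
theorem chY_fix (hτ : ∀ a, τ (τ a) = a) (hT : T2 τ) (z : ∀ i : Fin 4, (Sf τ i)ˣ) {s : Root 6} (hs : sr s = s) : chY τ s.1 z = 1 := by
  have h0 : chY τ s.1 z ≠ 0 := by
    unfold chY
    exact mul_ne_zero (mul_ne_zero (mul_ne_zero (sf_cy _ _ (sf_ne (z 0))) (sf_cy _ _ (sf_ne (z 1)))) (sf_cy _ _ (sf_ne (z 2)))) (sf_cy _ _ (sf_ne (z 3)))
  have h1 : Ok τ s (chY τ s.1 z * 1) := by
    unfold chY
    rw [mul_assoc, mul_assoc, mul_assoc]
    exact cy_ok hτ _ _ (Sf_ok 0 _) (cy_ok hτ _ _ (Sf_ok 1 _) (cy_ok hτ _ _ (Sf_ok 2 _) (cy_ok hτ _ _ (Sf_ok 3 _) fun _ => map_one τ)))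
  rw [mul_one] at h1
  rcases hT _ (mem_Fx.2 (h1 hs)) with h2 | h2
  · exact absurd h2 h0
  · exact h2

private theorem sf_clos {P : Subgroup G} {F : Matrix.SpecialLinearGroup (Fin 3) (Fx τ) →* G} (h : ∀ i j a, i ≠ j → F (el (Fx τ) i j a) ∈ P)
    (M : Matrix.SpecialLinearGroup (Fin 3) (Fx τ)) : F M ∈ P := by
  have h1 : (⊤ : Subgroup (Matrix.SpecialLinearGroup (Fin 3) (Fx τ))) ≤ P.comap F := by
    rw [← el_gen (Fx τ) 3, Subgroup.closure_le]
    rintro g ⟨i, j, a, hij, rfl⟩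
    exact h i j a hij
  exact h1 (Subgroup.mem_top M)

private theorem sf_sr : ∀ i j : Fin 3, i ≠ j → sg (uD i - uD j) = uD i - uD j := by
  decide +kernel

theorem ge_hz (h : Stb K 6 x) (hτ : ∀ a, τ (τ a) = a) (hT : T2 τ) {F4 : Matrix.SpecialLinearGroup (Fin 3) K →* G} (H4 : HomF x uD F4) (M : Matrix.SpecialLinearGroup (Fin 3) (Fx τ)) (z : ∀ i : Fin 4, (Sf τ i)ˣ) :
    ge τ F4 M * hz x τ z = hz x τ z * ge τ F4 M := by
  have h1 : ge τ F4 M ∈ Subgroup.centralizer {hz x τ z} := by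
    refine sf_clos (fun i j a hij => ?_) M
    rw [ge_el hT H4 hij (r := ⟨uD i - uD j, (fam_uD i j hij).1⟩) rfl a, Subgroup.mem_centralizer_iff]
    intro y hy
    rw [Set.mem_singleton_iff.1 hy]
    have h2 := hzY_conj h hτ z ⟨uD i - uD j, (fam_uD i j hij).1⟩ (a : K)
    have h3 : sr ⟨uD i - uD j, (fam_uD i j hij).1⟩ = ⟨uD i - uD j, (fam_uD i j hij).1⟩ := Subtype.ext (sf_sr i j hij)
    rw [chY_fix hτ hT z h3, one_mul, mul_inv_eq_iff_eq_mul] at h2
    exact h2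
  rw [Subgroup.mem_centralizer_iff] at h1
  exact (h1 _ rfl).symm
-- END sf

-- BEGIN sg
private theorem sg_lev {r : Root 6} (h : 0 < ht r.1) (h0 : l01 r.1 = 0) : ∃ i j : Fin 3, i ≠ j ∧ r.1 = uD i - uD j := by
  rcases l01_zero h h0 with h1 | h1 | h1
  · refine ⟨0, 1, by decide, ?_⟩
    rw [h1]
    show gm.1 = (gm.1 + r3.1) - r3.1
    abel
  · refine ⟨1, 2, by decide, ?_⟩
    rw [h1]
    show r3.1 = r3.1 - 0
    abel
  · refine ⟨0, 2, by decide, ?_⟩
    rw [h1]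
    show gm.1 + r3.1 = (gm.1 + r3.1) - 0
    abel

private theorem sg_sr : ∀ i j : Fin 3, i ≠ j → sg (uD i - uD j) = uD i - uD j := by
  decide +kernel

private theorem sg_gen (hT : T2 τ) {F4 : Matrix.SpecialLinearGroup (Fin 3) K →* G} (H4 : HomF x uD F4) {i j : Fin 3} (hij : i ≠ j) {r : Root 6} (hr : r.1 = uD i - uD j) {a : K} (ha : Ok τ r a) :
    yt x τ r a ∈ (ge τ F4).range := by
  have h2 : sr r = r := Subtype.ext (by rw [sr_val, hr]; exact sg_sr i j hij)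
  exact ⟨el (Fx τ) i j ⟨a, ha h2⟩, ge_el hT H4 hij hr ⟨a, ha h2⟩⟩

/-- MODULE sg. The subgroups of level 0 (`l01_zero`; the three roots are `uD 1 - uD 2 = r3`, `uD 0 - uD 1 = gm`, `uD 0 - uD 2`; `ge_el`; the images of a subgroup are a subgroup; for `op x`: `yt (op x) τ r a = yt x τ (-r) a`). -/
theorem lev01 (h : Stb K 6 x) (hT : T2 τ) {F4 : Matrix.SpecialLinearGroup (Fin 3) K →* G} (H4 : HomF x uD F4) {u : G}
    (hu : (u ∈ Sy x τ fun r => 0 < ht r.1 ∧ l01 r.1 = 0) ∨ u ∈ Sy (op x) τ fun r => 0 < ht r.1 ∧ l01 r.1 = 0) : ∃ M, u = ge τ F4 M := by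
  have key : u ∈ (ge τ F4).range := by
    rcases hu with hu | hu
    · have h1 : (Sy x τ fun r => 0 < ht r.1 ∧ l01 r.1 = 0) ≤ (ge τ F4).range := by
        unfold Sy
        rw [Subgroup.closure_le]
        rintro g ⟨r, a, ⟨hp, h0⟩, ha, rfl⟩
        obtain ⟨i, j, hij, hr⟩ := sg_lev hp h0
        exact sg_gen hT H4 hij hr ha
      exact h1 hu
    · rw [Sy_op] at hu
      have h1 : (Sy x τ fun r => 0 < ht (-r).1 ∧ l01 (-r).1 = 0) ≤ (ge τ F4).range := by
        unfold Sy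
        rw [Subgroup.closure_le]
        rintro g ⟨r, a, ⟨hp, h0⟩, ha, rfl⟩
        obtain ⟨i, j, hij, hr⟩ := sg_lev hp h0
        have hr' : r.1 = uD j - uD i := by
          have e : -(r.1) = uD i - uD j := hr
          rw [← neg_neg r.1, e]
          abel
        exact sg_gen hT H4 hij.symm hr' ha
      exact h1 hu
  obtain ⟨M, hM⟩ := key
  exact ⟨M, hM.symm⟩
-- END sg

-- BEGIN sh
set_option synthInstance.maxSize 100000 in
set_option maxRecDepth 100000 in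
private theorem sh_core : ∀ a b c d e f g h i : ZMod 2,
    a * (e * i - f * h) - b * (d * i - f * g) + c * (d * h - e * g) = 1 →
      (b + e + h = 1 ∧ b + c + e + f + h + i = h ∧ h + i = 1 + (b + c + e + f + h + i)) ∨
      (c + f + i = 1 ∧ b + c + e + f + h + i = f ∧ e + f = 1 + (b + c + e + f + h + i)) ∨
      (e = 1 ∧ f = h ∧ i = 1 + (f)) ∨
      (c + i = 1 ∧ b + h = c + f ∧ b + e = 1 + (b + h)) ∨
      (a + d = 1 ∧ a + b + c + d + e + f = d ∧ d + e + f = 1 + (a + b + c + d + e + f)) ∨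
      (d + e = 1 ∧ d = a + b + d + e ∧ a + d = 1 + (d)) ∨
      (a + c + d + f = 1 ∧ a + b + d + e = d + f ∧ d + e = 1 + (a + b + d + e)) ∨
      (a + c = 1 ∧ b = d + f ∧ e = 1 + (b)) ∨
      (c + f + i = 1 ∧ a + c + d + f + g + i = c ∧ a + c = 1 + (a + c + d + f + g + i)) ∨
      (b + e = 1 ∧ a + b + c + d + e + f = h ∧ g + h + i = 1 + (a + b + c + d + e + f)) := by
  decide

/-- a conjugate by one of ten explicit matrices -/
private theorem sh_two (A : Matrix.SpecialLinearGroup (Fin 3) (ZMod 2)) :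
    ∃ q : Matrix.SpecialLinearGroup (Fin 3) (ZMod 2), (q * A * q⁻¹).1 0 0 = 1 ∧ (q * A * q⁻¹).1 0 1 = (q * A * q⁻¹).1 1 0 ∧
      (q * A * q⁻¹).1 1 1 = 1 + (q * A * q⁻¹).1 0 1 := by
  have key : ∀ Q R : Matrix (Fin 3) (Fin 3) (ZMod 2), Q.det = 1 → R.det = 1 → Q * R = 1 →
      ((Q * A.1 * R) 0 0 = 1 ∧ (Q * A.1 * R) 0 1 = (Q * A.1 * R) 1 0 ∧ (Q * A.1 * R) 1 1 = 1 + (Q * A.1 * R) 0 1) →
      ∃ q : Matrix.SpecialLinearGroup (Fin 3) (ZMod 2), (q * A * q⁻¹).1 0 0 = 1 ∧ (q * A * q⁻¹).1 0 1 = (q * A * q⁻¹).1 1 0 ∧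
      (q * A * q⁻¹).1 1 1 = 1 + (q * A * q⁻¹).1 0 1 := by
    intro Q R hQ hR hQR H
    obtain ⟨q, hq⟩ : ∃ q : Matrix.SpecialLinearGroup (Fin 3) (ZMod 2), q.1 = Q := ⟨⟨Q, hQ⟩, rfl⟩
    obtain ⟨r, hr⟩ : ∃ q : Matrix.SpecialLinearGroup (Fin 3) (ZMod 2), q.1 = R := ⟨⟨R, hR⟩, rfl⟩
    have hi : q⁻¹ = r := by
      refine inv_eq_of_mul_eq_one_right ?_
      apply Subtype.ext
      show q.1 * r.1 = 1
      rw [hq, hr, hQR]
    have h1 : (q * A * q⁻¹).1 = Q * A.1 * R := by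
      rw [hi, ← hq, ← hr]
      rfl
    refine ⟨q, ?_⟩
    rw [h1]
    exact H
  have hdet : A.1.det = 1 := A.2
  generalize A.1 = B at key hdet
  rw [Matrix.det_fin_three] at hdet
  have h0 := sh_core (B 0 0) (B 0 1) (B 0 2) (B 1 0) (B 1 1) (B 1 2) (B 2 0) (B 2 1) (B 2 2)
    (by linear_combination hdet)
  rcases h0 with ⟨h1, h2, h3⟩ | ⟨h1, h2, h3⟩ | ⟨h1, h2, h3⟩ | ⟨h1, h2, h3⟩ | ⟨h1, h2, h3⟩ | ⟨h1, h2, h3⟩ | ⟨h1, h2, h3⟩ | ⟨h1, h2, h3⟩ | ⟨h1, h2, h3⟩ | ⟨h1, h2, h3⟩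
  · refine key !![1, 1, 1; 0, 0, 1; 1, 0, 0] !![0, 0, 1; 1, 1, 1; 0, 1, 0] (by decide) (by decide) (by decide) ⟨?_, ?_, ?_⟩ <;>
      simp only [Matrix.mul_apply, Fin.sum_univ_three] <;> simp
    · linear_combination h1
    · linear_combination h2
    · linear_combination h3
  · refine key !![1, 1, 1; 0, 1, 0; 1, 0, 0] !![0, 0, 1; 0, 1, 0; 1, 1, 1] (by decide) (by decide) (by decide) ⟨?_, ?_, ?_⟩ <;>
      simp only [Matrix.mul_apply, Fin.sum_univ_three] <;> simp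
    · linear_combination h1
    · linear_combination h2
    · linear_combination h3
  · refine key !![0, 1, 0; 0, 0, 1; 1, 0, 0] !![0, 0, 1; 1, 0, 0; 0, 1, 0] (by decide) (by decide) (by decide) ⟨?_, ?_, ?_⟩ <;>
      simp only [Matrix.mul_apply, Fin.sum_univ_three] <;> simp
    · linear_combination h1
    · linear_combination h2
    · linear_combination h3
  · refine key !![1, 0, 1; 1, 1, 0; 1, 0, 0] !![0, 0, 1; 0, 1, 1; 1, 0, 1] (by decide) (by decide) (by decide) ⟨?_, ?_, ?_⟩ <;>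
      simp only [Matrix.mul_apply, Fin.sum_univ_three] <;> simp
    · linear_combination h1
    · linear_combination h2
    · linear_combination h3
  · refine key !![1, 1, 0; 0, 1, 0; 0, 1, 1] !![1, 1, 0; 0, 1, 0; 0, 1, 1] (by decide) (by decide) (by decide) ⟨?_, ?_, ?_⟩ <;>
      simp only [Matrix.mul_apply, Fin.sum_univ_three] <;> simp
    · linear_combination h1
    · linear_combination h2
    · linear_combination h3
  · refine key !![0, 1, 0; 1, 1, 0; 0, 0, 1] !![1, 1, 0; 1, 0, 0; 0, 0, 1] (by decide) (by decide) (by decide) ⟨?_, ?_, ?_⟩ <;>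
      simp only [Matrix.mul_apply, Fin.sum_univ_three] <;> simp
    · linear_combination h1
    · linear_combination h2
    · linear_combination h3
  · refine key !![1, 1, 0; 0, 1, 0; 1, 1, 1] !![1, 1, 0; 0, 1, 0; 1, 0, 1] (by decide) (by decide) (by decide) ⟨?_, ?_, ?_⟩ <;>
      simp only [Matrix.mul_apply, Fin.sum_univ_three] <;> simp
    · linear_combination h1
    · linear_combination h2
    · linear_combination h3
  · refine key !![1, 0, 0; 0, 1, 0; 1, 0, 1] !![1, 0, 0; 0, 1, 0; 1, 0, 1] (by decide) (by decide) (by decide) ⟨?_, ?_, ?_⟩ <;>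
      simp only [Matrix.mul_apply, Fin.sum_univ_three] <;> simp
    · linear_combination h1
    · linear_combination h2
    · linear_combination h3
  · refine key !![1, 1, 1; 1, 0, 0; 0, 1, 0] !![0, 1, 0; 0, 0, 1; 1, 1, 1] (by decide) (by decide) (by decide) ⟨?_, ?_, ?_⟩ <;>
      simp only [Matrix.mul_apply, Fin.sum_univ_three] <;> simp
    · linear_combination h1
    · linear_combination h2
    · linear_combination h3
  · refine key !![1, 1, 0; 0, 0, 1; 1, 0, 1] !![0, 1, 1; 1, 1, 1; 0, 1, 0] (by decide) (by decide) (by decide) ⟨?_, ?_, ?_⟩ <;>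
      simp only [Matrix.mul_apply, Fin.sum_univ_three] <;> simp
    · linear_combination h1
    · linear_combination h2
    · linear_combination h3

/-- if the upper left block is `lo t * up t` -/
private theorem sh_fin {F : Type*} [Field F] (B : Matrix.SpecialLinearGroup (Fin 3) F) (t : F) (h00 : B.1 0 0 = 1) (h01 : B.1 0 1 = t)
    (h10 : B.1 1 0 = t) (h11 : B.1 1 1 = 1 + t * t) :
    ∃ a b a' b' : F, B = el F 2 0 a * el F 2 1 b * el F 1 0 t * (el F 0 1 t * el F 0 2 a' * el F 1 2 b') := by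
  have hdet : B.1.det = 1 := B.2
  rw [Matrix.det_fin_three, h00, h01, h10, h11] at hdet
  refine ⟨B.1 2 0 * (1 + t * t) - B.1 2 1 * t, B.1 2 1 - B.1 2 0 * t, (1 + t * t) * B.1 0 2 - t * B.1 1 2, B.1 1 2 - t * B.1 0 2, ?_⟩
  have e : ∀ (i j : Fin 3) (hij : i ≠ j) (a : F), (el F i j a).1 = Matrix.transvection i j a := by
    intro i j hij a
    have h1 : el F i j a = ⟨Matrix.transvection i j a, Matrix.det_transvection_of_ne i j hij a⟩ := dif_pos hij
    rw [h1]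
  apply Subtype.ext
  show B.1 = (el F 2 0 _).1 * (el F 2 1 _).1 * (el F 1 0 _).1 * ((el F 0 1 _).1 * (el F 0 2 _).1 * (el F 1 2 _).1)
  rw [e 2 0 (by decide), e 2 1 (by decide), e 1 0 (by decide), e 0 1 (by decide), e 0 2 (by decide), e 1 2 (by decide)]
  have m : ∀ a b s t' a' b' : F, Matrix.transvection 2 0 a * Matrix.transvection 2 1 b * Matrix.transvection 1 0 s *
      (Matrix.transvection 0 1 t' * Matrix.transvection 0 2 a' * Matrix.transvection 1 2 b') =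
      !![1, t', a' + t' * b'; s, 1 + s * t', s * a' + (1 + s * t') * b'; a + b * s, (a + b * s) * t' + b,
        (a + b * s) * a' + ((a + b * s) * t' + b) * b' + 1] := by
    intro a b s t' a' b'
    ext i j
    fin_cases i <;> fin_cases j <;>
      simp [Matrix.transvection, Matrix.mul_apply, Fin.sum_univ_three, Matrix.single, Matrix.one_apply] <;> ring
  rw [m]
  ext i j
  fin_cases i <;> fin_cases j
  · simpa using h00
  · simpa using h01
  · simp
    ring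
  · simpa using h10
  · simpa using h11
  · simp
    ring
  · simp
    ring
  · simp
    ring
  · simp
    linear_combination hdet

/-- MODULE sh. THE PARITY TRICK (checked by computer): every matrix in `SL_3(2)` is conjugate to one with upper left block `1` or `[[1, 1], [1, 0]]`.  `F` is isomorphic to `ZMod 2`; or every element is `0` or `1`; `decide` for `ZMod 2` (168 matrices, or 512 with `det ≠ 1` excluded); or the classes by the rational canonical form.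
If the block of `B` is `P = lo t * up t` (rows and columns 0, 1) then `B = el 2 0 a * el 2 1 b * (el 1 0 t * el 0 1 t) * el 0 2 a' * el 1 2 b'`. -/
theorem par3 {F : Type*} [Field F] (hF : ∀ a : F, a = 0 ∨ a = 1) (A : Matrix.SpecialLinearGroup (Fin 3) F) :
    ∃ (q : Matrix.SpecialLinearGroup (Fin 3) F) (t a b a' b' : F), q * A * q⁻¹ = el F 2 0 a * el F 2 1 b * el F 1 0 t * (el F 0 1 t * el F 0 2 a' * el F 1 2 b') := by
  classical
  have h2 : (2 : F) = 0 := by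
    rcases hF 2 with h | h
    · exact h
    · exfalso
      have h3 : (1 : F) = 0 := by linear_combination h
      exact one_ne_zero h3
  have hc : CharP F 2 := by
    refine (CharP.charP_iff_prime_eq_zero Nat.prime_two).2 ?_
    exact_mod_cast h2
  obtain ⟨f, hf⟩ : ∃ f : ZMod 2 →+* F, Function.Surjective f := by
    refine ⟨ZMod.castHom (dvd_refl 2) F, ?_⟩
    intro a
    rcases hF a with h | h
    · exact ⟨0, by rw [h, map_zero]⟩
    · exact ⟨1, by rw [h, map_one]⟩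
  obtain ⟨e, he⟩ : ∃ e : ZMod 2 ≃+* F, ∀ a, e a = f a :=
    ⟨RingEquiv.ofBijective f ⟨f.injective, hf⟩, fun a => rfl⟩
  obtain ⟨q, h00, h01, h11⟩ := sh_two (Matrix.SpecialLinearGroup.map (e.symm : F →+* ZMod 2) A)
  have hA : Matrix.SpecialLinearGroup.map (e : ZMod 2 →+* F) (Matrix.SpecialLinearGroup.map (e.symm : F →+* ZMod 2) A) = A := by
    apply Subtype.ext
    ext i j
    show e (e.symm (A.1 i j)) = A.1 i j
    exact e.apply_symm_apply _
  have hB : ∀ i j, (Matrix.SpecialLinearGroup.map (e : ZMod 2 →+* F) q * A * (Matrix.SpecialLinearGroup.map (e : ZMod 2 →+* F) q)⁻¹).1 i j =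
      e ((q * (Matrix.SpecialLinearGroup.map (e.symm : F →+* ZMod 2) A) * q⁻¹).1 i j) := by
    intro i j
    have h1 : Matrix.SpecialLinearGroup.map (e : ZMod 2 →+* F) q * A * (Matrix.SpecialLinearGroup.map (e : ZMod 2 →+* F) q)⁻¹ =
        Matrix.SpecialLinearGroup.map (e : ZMod 2 →+* F) (q * (Matrix.SpecialLinearGroup.map (e.symm : F →+* ZMod 2) A) * q⁻¹) := by
      rw [map_mul, map_mul, map_inv, hA]
    rw [h1]
    rfl
  generalize hBB : q * (Matrix.SpecialLinearGroup.map (e.symm : F →+* ZMod 2) A) * q⁻¹ = B at h00 h01 h11 hB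
  have ht : ∀ t : F, t * t = t := by
    intro t
    rcases hF t with h | h
    · rw [h, mul_zero]
    · rw [h, mul_one]
  obtain ⟨a, b, a', b', h⟩ := sh_fin (Matrix.SpecialLinearGroup.map (e : ZMod 2 →+* F) q * A * (Matrix.SpecialLinearGroup.map (e : ZMod 2 →+* F) q)⁻¹)
    (e (B.1 0 1)) (by rw [hB, h00, map_one]) (by rw [hB]) (by rw [hB, h01]) (by rw [hB, h11, map_add, map_one, ht])
  exact ⟨_, _, a, b, a', b', h⟩
-- END sh

-- BEGIN si
private def si_g : Root 6 := ⟨gm.1 + r3.1, by decide⟩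

private theorem si_fx (r : Root 6) (a : Fx τ) : Ok τ r (a : K) := fun _ => a.2

private theorem si_pos {r : Root 6} (hr : 1 ≤ l01 r.1) : Pi' 0 r := by
  have hg0 : l01 gm.1 = 0 := by decide
  have hs : sr gm = gm := (sn_fix 0).mpr (by decide)
  have hne : r ≠ gm := by
    rintro rfl
    omega
  refine ⟨?_, hne, ?_⟩
  · by_contra hcon
    have h1 := ht_ne6 r
    have h3 : ht (-r).1 = -ht r.1 := ThE.ht_neg r.1
    have h4 : 0 < ht (-r).1 := by omega
    have h5 := l01_nonneg h4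
    have h6 : l01 (-r).1 = -l01 r.1 := addl01.neg _
    omega
  · show r ≠ sr gm
    rw [hs]
    exact hne

private theorem si_U (x : Root 6 → K → G) (τ : K →+* K) {w : G} (hw : w ∈ Uy x τ l01 1) : w ∈ Sy x τ (Pi' 0) :=
  Sy.mono x τ (fun r hr => si_pos (by exact_mod_cast hr)) hw

private theorem si_g_pi : Pi' 0 si_g := by
  refine ⟨by decide, by decide, by decide⟩

private theorem si_r3_pi : Pi' 0 r3 := by
  refine ⟨by decide, by decide, by decide⟩

/-- MODULE si. GAUSS DECOMPOSITION WITH PARITY. `bigY`; `Sy_splitL` with `l01`: `v = v₂ v₁`, `u = u₁ u₂`, `v₁ u₁ = ge A` (`lev01`); `ge_hz`: `v hz u = v₂ (ge A) hz u₂`; `par3` for `A`, conjugate by `ge q` (`ge_mem`, `nrm_l` for `x` and `op x`: `Uy (op x) τ l01 1` is normalized; `ge_hz`): `v₂' ge(..) yt(-gm, t) hz yt(gm, t) ge(..) u₂'`;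
`ge (el 2 0 a * el 2 1 b)` and `Uy (op x) τ l01 1` are in `Sy (op x) τ (Pi' 0)` (the roots `uD 2 - uD 0 = -(gm + r3)`, `uD 2 - uD 1 = -r3`; a root with `l01 r ≥ 1` has positive height: otherwise `l01_nonneg` for `-r`, and is not `gm`: `l01 gm = 0`); the same on the right. -/
theorem parY (h : Stb K 6 x) (hτ : ∀ a, τ (τ a) = a) (hT : T2 τ) {g : G} (hg : g ∈ Hh x τ) :
    ∃ c ∈ Hh x τ, ∃ v ∈ Sy (op x) τ (Pi' 0), ∃ (t : Fx τ) (z : ∀ i : Fin 4, (Sf τ i)ˣ), ∃ u ∈ Sy x τ (Pi' 0), c * g * c⁻¹ = v * yt x τ (-gm) (t : K) * hz x τ z * yt x τ gm (t : K) * u := by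
  obtain ⟨c, hc, v, hv, z, u, hu, e⟩ := bigY h hτ hg
  obtain ⟨F4, H4⟩ := exists_F4 (G := G) h
  obtain ⟨-, v₂, hv₂, v₁, hv₁, hve⟩ := Sy_splitL (Stb.op h) hτ addl01 sgl01 (p := fun r => 0 < ht r.1) (fun r hr => l01_nonneg hr) hv
  obtain ⟨⟨u₁, hu₁, u₂, hu₂, hue⟩, -⟩ := Sy_splitL h hτ addl01 sgl01 (p := fun r => 0 < ht r.1) (fun r hr => l01_nonneg hr) hu
  obtain ⟨M1, hM1⟩ := lev01 h hT H4 (Or.inr hv₁)
  obtain ⟨M2, hM2⟩ := lev01 h hT H4 (Or.inl hu₁)
  obtain ⟨q, t, a, b, a', b', hq⟩ := par3 (F := Fx τ) (fun s => (hT s.1 s.2).imp (fun h => Subtype.ext h) (fun h => Subtype.ext h)) (M1 * M2)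
  obtain ⟨m1, m2, m3⟩ := ge_mem (x := x) hT H4 q
  have n1 := (nrm_l h hτ addl01 sgl01 m1 1 le_rfl u₂ hu₂).1
  have n2 := (nrm_l (Stb.op h) hτ addl01 sgl01 m2 1 le_rfl v₂ hv₂).1
  have hz1 := ge_hz h hτ hT H4 M2 z
  have hz2 := ge_hz h hτ hT H4 q z
  have hz3 := ge_hz h hτ hT H4 (el (Fx τ) 0 1 t * el (Fx τ) 0 2 a' * el (Fx τ) 1 2 b') z
  have e20 : ge τ F4 (el (Fx τ) 2 0 a) = yt (op x) τ si_g (a : K) := by
    rw [yt_op]
    exact ge_el hT H4 (by decide) (by decide) a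
  have e21 : ge τ F4 (el (Fx τ) 2 1 b) = yt (op x) τ r3 (b : K) := by
    rw [yt_op]
    exact ge_el hT H4 (by decide) (by decide) b
  have e10 : ge τ F4 (el (Fx τ) 1 0 t) = yt x τ (-gm) (t : K) := ge_el hT H4 (by decide) (by decide) t
  have e01 : ge τ F4 (el (Fx τ) 0 1 t) = yt x τ gm (t : K) := ge_el hT H4 (by decide) (by decide) t
  have e02 : ge τ F4 (el (Fx τ) 0 2 a') = yt x τ si_g (a' : K) := ge_el hT H4 (by decide) (by decide) a'
  have e12 : ge τ F4 (el (Fx τ) 1 2 b') = yt x τ r3 (b' : K) := ge_el hT H4 (by decide) (by decide) b'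
  have hA : ge τ F4 q * (ge τ F4 M1 * ge τ F4 M2) * (ge τ F4 q)⁻¹ =
      ge τ F4 (el (Fx τ) 2 0 a) * ge τ F4 (el (Fx τ) 2 1 b) * ge τ F4 (el (Fx τ) 1 0 t) * ge τ F4 (el (Fx τ) 0 1 t * el (Fx τ) 0 2 a' * el (Fx τ) 1 2 b') := by
    rw [← map_mul, ← map_mul, ← map_inv, ← map_mul, hq, map_mul, map_mul, map_mul]
  refine ⟨ge τ F4 q * c, Subgroup.mul_mem _ m3 hc, ge τ F4 q * v₂ * (ge τ F4 q)⁻¹ * yt (op x) τ si_g (a : K) * yt (op x) τ r3 (b : K), ?_, t, z,
    yt x τ si_g (a' : K) * yt x τ r3 (b' : K) * (ge τ F4 q * u₂ * (ge τ F4 q)⁻¹), ?_, ?_⟩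
  · exact Subgroup.mul_mem _ (Subgroup.mul_mem _ (si_U (op x) τ n2) (Sy.mem si_g_pi (si_fx _ a))) (Sy.mem si_r3_pi (si_fx _ b))
  · exact Subgroup.mul_mem _ (Subgroup.mul_mem _ (Sy.mem si_g_pi (si_fx _ a')) (Sy.mem si_r3_pi (si_fx _ b'))) (si_U x τ n1)
  · have e' : c * g * c⁻¹ = v₂ * (ge τ F4 M1 * ge τ F4 M2) * hz x τ z * u₂ := by
      rw [e, hve, hue, hM1, hM2]
      calc v₂ * ge τ F4 M1 * hz x τ z * (ge τ F4 M2 * u₂) = v₂ * ge τ F4 M1 * (hz x τ z * ge τ F4 M2) * u₂ := by group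
        _ = v₂ * ge τ F4 M1 * (ge τ F4 M2 * hz x τ z) * u₂ := by rw [hz1]
        _ = _ := by group
    calc ge τ F4 q * c * g * (ge τ F4 q * c)⁻¹ = ge τ F4 q * (c * g * c⁻¹) * (ge τ F4 q)⁻¹ := by group
      _ = ge τ F4 q * v₂ * (ge τ F4 q)⁻¹ * (ge τ F4 q * (ge τ F4 M1 * ge τ F4 M2) * (ge τ F4 q)⁻¹) * (ge τ F4 q * hz x τ z * (ge τ F4 q)⁻¹) * (ge τ F4 q * u₂ * (ge τ F4 q)⁻¹) := by
        rw [e']
        group
      _ = ge τ F4 q * v₂ * (ge τ F4 q)⁻¹ * (ge τ F4 (el (Fx τ) 2 0 a) * ge τ F4 (el (Fx τ) 2 1 b) * ge τ F4 (el (Fx τ) 1 0 t)) *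
          (ge τ F4 (el (Fx τ) 0 1 t * el (Fx τ) 0 2 a' * el (Fx τ) 1 2 b') * hz x τ z) * (ge τ F4 q * u₂ * (ge τ F4 q)⁻¹) := by
        rw [hA, hz2]
        group
      _ = _ := by
        rw [hz3, map_mul, map_mul, e20, e21, e10, e01, e02, e12]
        simp only [mul_assoc]
-- END si

variable {F1 F2 : Matrix.SpecialLinearGroup (Fin 3) K →* G} {F3 : Matrix.SpecialLinearGroup (Fin 2) K →* G}

-- BEGIN sj
private theorem sj_mov {s : Root 6} {a b : Fin 3} (hab : a ≠ b) (hs : s.1 = uA a - uA b) : sr s ≠ s := by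
  intro e
  have e1 : sg s.1 = s.1 := congrArg Subtype.val e
  rw [hs] at e1
  revert e1
  have key : ∀ a b : Fin 3, a ≠ b → sg (uA a - uA b) ≠ uA a - uA b := by decide +kernel
  exact key a b hab

private theorem sj_gen (h : Stb K 6 x) (hτ : ∀ a, τ (τ a) = a) (H : L3 x F1 F2 F3) {s : Root 6} {a b : Fin 3} (hab : a ≠ b) (hs : s.1 = uA a - uA b ∨ sg s.1 = uA a - uA b) (t : K) :
    ∃ c : K, yt x τ s t = gg τ F1 F2 (el K a b c) := by
  rcases hs with hs | hs
  · refine ⟨cf K uA a b * t, ?_⟩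
    rw [gg_el h H hab hs, ← mul_assoc, cf_sq, one_mul]
  · have hs' : (sr s).1 = uA a - uA b := hs
    have hm : sr s ≠ s := by
      intro e
      have e1 := sj_mov hab hs'
      rw [sr_sr] at e1
      exact e1 e.symm
    refine ⟨cf K uA a b * (et K s.1 * τ t), ?_⟩
    rw [gg_el h H hab hs', ← mul_assoc, cf_sq, one_mul, yt_sr h hτ hm]

/-- MODULE sj. As row `jg` (`lev0`; `Pi' 0` excludes `gm`). -/
theorem lev_low0 (h : Stb K 6 x) (hτ : ∀ a, τ (τ a) = a) (H : L3 x F1 F2 F3) {u : G} (hu : u ∈ Sy x τ fun r => Pi' 0 r ∧ l6 r.1 = 0) : ∃ N' ∈ LT K (fun a b : Fin 3 => b < a), u = gg τ F1 F2 N' := by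
  have step : ∀ (r : Root 6) (t : K), (Pi' 0 r ∧ l6 r.1 = 0) → ∀ y : G,
      (∃ N' ∈ LT K (fun a b : Fin 3 => b < a), y = gg τ F1 F2 N') →
      ∃ N' ∈ LT K (fun a b : Fin 3 => b < a), yt x τ r t * y = gg τ F1 F2 N' := by
    rintro r t ⟨hp, h0⟩ y ⟨N', hN', rfl⟩
    rcases lev0 hp.1 h0 with hr | ⟨p, q, hpq, hr⟩
    · exact absurd hr hp.2.1
    · have hne : p ≠ q := ne_of_gt hpq
      obtain ⟨c, hc⟩ := sj_gen h hτ H hne hr t
      refine ⟨el K p q c * N', Subgroup.mul_mem _ (Subgroup.subset_closure ⟨p, q, c, hne, hpq, rfl⟩) hN', ?_⟩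
      rw [hc, gg_mul h H]
  unfold Sy at hu
  induction hu using Subgroup.closure_induction_left with
  | one => exact ⟨1, Subgroup.one_mem _, by rw [gg_one]⟩
  | mul_left g hg y _ ih =>
    obtain ⟨r, t, hr, ht, rfl⟩ := hg
    exact step r t hr y ih
  | inv_mul_cancel g hg y _ ih =>
    obtain ⟨r, t, hr, ht, rfl⟩ := hg
    rw [yt_inv h]
    exact step r (-t) hr y ih

theorem lev_upp0 (h : Stb K 6 x) (hτ : ∀ a, τ (τ a) = a) (H : L3 x F1 F2 F3) {v : G} (hv : v ∈ Sy (op x) τ fun r => Pi' 0 r ∧ l6 r.1 = 0) : ∃ N ∈ LT K (fun a b : Fin 3 => a < b), v = gg τ F1 F2 N := by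
  have step : ∀ (r : Root 6) (t : K), (Pi' 0 r ∧ l6 r.1 = 0) → ∀ y : G,
      (∃ N ∈ LT K (fun a b : Fin 3 => a < b), y = gg τ F1 F2 N) →
      ∃ N ∈ LT K (fun a b : Fin 3 => a < b), yt (op x) τ r t * y = gg τ F1 F2 N := by
    rintro r t ⟨hp, h0⟩ y ⟨N, hN, rfl⟩
    rw [yt_op]
    rcases lev0 hp.1 h0 with hr | ⟨p, q, hpq, hr⟩
    · exact absurd hr hp.2.1
    · have hne : q ≠ p := ne_of_lt hpq
      have hr' : (-r).1 = uA q - uA p ∨ sg (-r).1 = uA q - uA p := by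
        rcases hr with hr | hr
        · left
          rw [neg_val, hr, neg_sub]
        · right
          rw [neg_val, sg_neg, hr, neg_sub]
      obtain ⟨c, hc⟩ := sj_gen h hτ H hne hr' t
      refine ⟨el K q p c * N, Subgroup.mul_mem _ (Subgroup.subset_closure ⟨q, p, c, hne, hpq, rfl⟩) hN, ?_⟩
      rw [hc, gg_mul h H]
  unfold Sy at hv
  induction hv using Subgroup.closure_induction_left with
  | one => exact ⟨1, Subgroup.one_mem _, by rw [gg_one]⟩
  | mul_left g hg y _ ih =>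
    obtain ⟨r, t, hr, ht, rfl⟩ := hg
    exact step r t hr y ih
  | inv_mul_cancel g hg y _ ih =>
    obtain ⟨r, t, hr, ht, rfl⟩ := hg
    rw [yt_inv h.op]
    exact step r (-t) hr y ih

/-- the root elements of `gm` (`gf_el01`, `gf_el10`; all signs are 1 in characteristic 2) -/
theorem gf_two (hT : T2 τ) (H : L3 x F1 F2 F3) (t : Fx τ) : yt x τ (-gm) (t : K) = gf τ F3 (el (Fx τ) 1 0 t) ∧ yt x τ gm (t : K) = gf τ F3 (el (Fx τ) 0 1 t) := by
  have e : -(t : K) = (t : K) := by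
    rw [neg_eq_iff_add_eq_zero, ← two_mul, hT.two, zero_mul]
  refine ⟨?_, (gf_el01 H t).symm⟩
  rw [gf_el10 H t, e]
-- END sj

-- BEGIN sk
private theorem sk_el_val {m : ℕ} {F : Type*} [Field F] {i j : Fin m} (h : i ≠ j) (a : F) : (el F i j a).1 = Matrix.transvection i j a :=
  congrArg Subtype.val (dif_pos h : el F i j a = ⟨Matrix.transvection i j a, Matrix.det_transvection_of_ne i j h a⟩)

private theorem sk_map_el {m : ℕ} {F E : Type*} [Field F] [Field E] (f : F →+* E) (i j : Fin m) (a : F) :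
    Matrix.SpecialLinearGroup.map f (el F i j a) = el E i j (f a) := by
  by_cases h : i ≠ j
  · refine Matrix.SpecialLinearGroup.ext _ _ fun p q => ?_
    have e : (Matrix.SpecialLinearGroup.map f (el F i j a)).1 p q = f ((el F i j a).1 p q) := rfl
    rw [e, sk_el_val h, sk_el_val h]
    unfold Matrix.transvection
    simp only [Matrix.add_apply, map_add, Matrix.one_apply, Matrix.single_apply]
    split_ifs <;> simp
  · have e1 : el F i j a = 1 := dif_neg h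
    have e2 : el E i j (f a) = 1 := dif_neg h
    rw [e1, e2, map_one]

private theorem sk_map_hA {m : ℕ} {F E : Type*} [Field F] [Field E] (f : F →+* E) (i j : Fin m) (a : F) :
    Matrix.SpecialLinearGroup.map f (hA (el F) i j a) = hA (el E) i j (f a) := by
  simp only [hA, nA, map_mul, sk_map_el, map_neg, map_inv₀, map_one]

private theorem sk_tm (τ : K →+* K) {i j : Fin 3} (h : i ≠ j) (c : Kˣ) :
    tm τ (hA (el K) i j (c : K)) = hA (el K) i j (τ (c : K)) := by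
  have e : τ (c : K) = ((Units.map (τ : K →* K) c : Kˣ) : K) := rfl
  unfold tm
  rw [MonoidHom.comp_apply, sk_map_hA, e]
  refine Matrix.SpecialLinearGroup.ext _ _ fun p q => ?_
  rw [cjd_apply, ThR.hA_el h]
  by_cases hpq : p = q
  · subst hpq
    rw [mul_right_comm, Units.mul_inv, one_mul]
  · rw [Matrix.diagonal_apply_ne _ hpq, mul_zero, zero_mul]

private theorem sk_gg (h : Stb K 6 x) (H : L3 x F1 F2 F3) {i j : Fin 3} (hij : i ≠ j) {r : Root 6} (hr : r.1 = uA i - uA j) (hs : sr r ≠ r) (c : Kˣ) :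
    gg τ F1 F2 (hA (el K) i j (c : K)) = hy x τ r (c : K) := by
  have e : τ (c : K) = ((Units.map (τ : K →* K) c : Kˣ) : K) := rfl
  unfold gg hy
  rw [if_neg hs, sk_tm τ hij, HomF.hA (Or.inl rfl) h fam_uA H.h1 hij hr, e]
  have hr' : (sr r).1 = uM i - uM j := by rw [sr_val, hr, sg_uA]
  rw [HomF.hA (Or.inl rfl) h fam_uM H.h2 hij hr']

private theorem sk_r1 : r1.1 = uA 1 - uA 0 ∧ sr r1 ≠ r1 := by
  refine ⟨by decide, fun h => ?_⟩
  have := congrArg (fun r : Root 6 => r.1.2 0) h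
  revert this
  decide

private theorem sk_r2 : r2.1 = uA 2 - uA 1 ∧ sr r2 ≠ r2 := by
  refine ⟨by decide, fun h => ?_⟩
  have := congrArg (fun r : Root 6 => r.1.2 1) h
  revert this
  decide

/-- MODULE sk. As row `jh` (`hz_lev`), with `z 0 = 1`, `z 1 = 1` (`T2.unit`). -/
theorem hz_two (h : Stb K 6 x) (hτ : ∀ a, τ (τ a) = a) (hT : T2 τ) (H : L3 x F1 F2 F3) (z : ∀ i : Fin 4, (Sf τ i)ˣ) :
    ∃ (D : Matrix.SpecialLinearGroup (Fin 3) K) (a b : Kˣ), (a : K) = ((z 2 : Sf τ 2) : K) ∧ (b : K) = ((z 3 : Sf τ 3) : K) ∧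
      D.1 = Matrix.diagonal (fun k => (((![b⁻¹, b * a⁻¹, a] : Fin 3 → Kˣ) k : Kˣ) : K)) ∧ hz x τ z = gg τ F1 F2 D := by
  set a : Kˣ := Units.map ((Sf τ 2).subtype : Sf τ 2 →* K) (z 2) with ha
  set b : Kˣ := Units.map ((Sf τ 3).subtype : Sf τ 3 →* K) (z 3) with hb
  have ea : (a : K) = ((z 2 : Sf τ 2) : K) := rfl
  have eb : (b : K) = ((z 3 : Sf τ 3) : K) := rfl
  refine ⟨hA (el K) 2 1 (a : K) * hA (el K) 1 0 (b : K), a, b, ea, eb, ?_, ?_⟩
  · rw [Matrix.SpecialLinearGroup.coe_mul, ThR.hA_el (by decide), ThR.hA_el (by decide), Matrix.diagonal_mul_diagonal]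
    refine congrArg Matrix.diagonal (funext fun k => ?_)
    fin_cases k
    · simp
    · simp [mul_comm]
    · simp
  · have g0 : hy x τ (sn 0) ((z 0 : Sf τ 0) : K) = 1 := by
      rw [T2.unit hT (by decide) (z 0)]
      exact hy_one h _
    have g1 : hy x τ (sn 1) ((z 1 : Sf τ 1) : K) = 1 := by
      rw [T2.unit hT (by decide) (z 1)]
      exact hy_one h _
    have g2 : hy x τ (sn 2) ((z 2 : Sf τ 2) : K) = gg τ F1 F2 (hA (el K) 2 1 (a : K)) :=
      (sk_gg h H (by decide) sk_r2.1 sk_r2.2 a).symm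
    have g3 : hy x τ (sn 3) ((z 3 : Sf τ 3) : K) = gg τ F1 F2 (hA (el K) 1 0 (b : K)) :=
      (sk_gg h H (by decide) sk_r1.1 sk_r1.2 b).symm
    unfold hz
    rw [g0, g1, g2, g3, mul_one, one_mul, gg_mul h H]

/-- CENTRE. `hzY_conj`, `chY_neg`, `gen_Sy`. -/
theorem hz_central (h : Stb K 6 x) (hτ : ∀ a, τ (τ a) = a) {z : ∀ i : Fin 4, (Sf τ i)ˣ} (hc : ∀ i, chY τ (sn i).1 z = 1) : ∀ u ∈ Hh x τ, u * hz x τ z = hz x τ z * u := by
  intro u hu
  have hle : Hh x τ ≤ Subgroup.centralizer {hz x τ z} := by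
    unfold Hh
    rw [gen_Sy h hτ, Subgroup.closure_le]
    rintro g ⟨i, a, -, hg | hg⟩
    · rw [SetLike.mem_coe, Subgroup.mem_centralizer_singleton_iff, hg]
      have e := hzY_conj h hτ z (sn i) a
      rw [hc i, one_mul] at e
      exact (mul_inv_eq_iff_eq_mul.mp e).symm
    · rw [SetLike.mem_coe, Subgroup.mem_centralizer_singleton_iff, hg]
      have e := hzY_conj h hτ z (-sn i) a
      have e2 : chY τ (-sn i).1 z = 1 := by
        rw [neg_val, chY_neg hτ, hc i, inv_one]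
      rw [e2, one_mul] at e
      exact (mul_inv_eq_iff_eq_mul.mp e).symm
  exact Subgroup.mem_centralizer_singleton_iff.mp (hle hu)

/-- `b⁻¹ = b a⁻¹ = a`: all characters are 1 (`chY_zero` .. `chY_three`, `T2.unit`, `T2.nrm`, `T2.cube`) -/
theorem ch_scalar (hτ : ∀ a, τ (τ a) = a) (hT : T2 τ) {z : ∀ i : Fin 4, (Sf τ i)ˣ} {a b : Kˣ} (ha : (a : K) = ((z 2 : Sf τ 2) : K)) (hb : (b : K) = ((z 3 : Sf τ 3) : K)) (h1 : b⁻¹ = a) (h2 : b * a⁻¹ = a) :
    ∀ i, chY τ (sn i).1 z = 1 := by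
  have e0 : ((z 0 : Sf τ 0) : K) = 1 := by
    rw [T2.unit hT (by decide) (z 0)]
    rfl
  have e1 : ((z 1 : Sf τ 1) : K) = 1 := by
    rw [T2.unit hT (by decide) (z 1)]
    rfl
  have hn : (a : K) * τ (a : K) = 1 := hT.nrm hτ a.ne_zero
  have h3 : (a : K) * a * a = 1 := hT.cube hτ a.ne_zero
  have hbi : ((b : K))⁻¹ = (a : K) := by
    rw [← Units.val_inv_eq_inv_val, h1]
  have hba : (b : K) * (a : K)⁻¹ = (a : K) := by
    rw [← Units.val_inv_eq_inv_val, ← Units.val_mul, h2]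
  have hab : (b : K) * (a : K) = 1 := by
    rw [← hbi]
    exact mul_inv_cancel₀ b.ne_zero
  intro i
  fin_cases i
  · show chY τ (sn 0).1 z = 1
    rw [chY_zero, e0, e1, inv_one, mul_one, one_pow]
  · show chY τ (sn 1).1 z = 1
    rw [chY_one, e0, e1, ← ha, hn, inv_one, mul_one, mul_one, one_pow]
  · show chY τ (sn 2).1 z = 1
    rw [chY_two, e1, ← ha, ← hb, inv_one, mul_one, hbi, pow_two, h3]
  · show chY τ (sn 3).1 z = 1
    rw [chY_three, ← ha, ← hb, pow_two, mul_assoc, hba, hab]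
-- END sk

-- BEGIN sl
private theorem sl_el {a b : Fin 3} (h : a ≠ b) (t : K) : (el K a b t).1 = Matrix.transvection a b t := congrArg Subtype.val
    (dif_pos h : el K a b t = ⟨Matrix.transvection a b t, Matrix.det_transvection_of_ne a b h t⟩)

private theorem sl_inv {a b : Fin 3} (h : a ≠ b) (t : K) : (el K a b t)⁻¹ = el K a b (-t) := by
  refine inv_eq_of_mul_eq_one_right (Subtype.ext ?_)
  rw [Matrix.SpecialLinearGroup.coe_mul, sl_el h, sl_el h, Matrix.transvection_mul_transvection_same a b h, add_neg_cancel,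
    Matrix.transvection_zero, Matrix.SpecialLinearGroup.coe_one]

private theorem sl_low {g : Matrix.SpecialLinearGroup (Fin 3) K} (hg : g ∈ LT K (fun a b : Fin 3 => b < a)) :
    (∀ p q, p < q → g.1 p q = 0) ∧ (∀ p, g.1 p p = 1) := by
  have step : ∀ (a b : Fin 3) (t : K), a ≠ b → b < a → ∀ g : Matrix.SpecialLinearGroup (Fin 3) K,
      ((∀ p q, p < q → g.1 p q = 0) ∧ (∀ p, g.1 p p = 1)) →
      ((∀ p q, p < q → (el K a b t * g).1 p q = 0) ∧ (∀ p, (el K a b t * g).1 p p = 1)) := by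
    rintro a b t hab hba g ⟨h1, h2⟩
    have hs : ∀ q, (el K a b t * g).1 a q = g.1 a q + t * g.1 b q := fun q => by
      rw [Matrix.SpecialLinearGroup.coe_mul, sl_el hab, Matrix.transvection_mul_apply_same]
    have ho : ∀ p q, p ≠ a → (el K a b t * g).1 p q = g.1 p q := fun p q hp => by
      rw [Matrix.SpecialLinearGroup.coe_mul, sl_el hab, Matrix.transvection_mul_apply_of_ne _ _ _ _ hp]
    refine ⟨fun p q hpq => ?_, fun p => ?_⟩
    · by_cases hp : p = a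
      · subst hp
        rw [hs, h1 p q hpq, h1 b q (hba.trans hpq), mul_zero, add_zero]
      · rw [ho p q hp, h1 p q hpq]
    · by_cases hp : p = a
      · subst hp
        rw [hs, h2 p, h1 b p hba, mul_zero, add_zero]
      · rw [ho p p hp, h2 p]
  unfold ThK.LT at hg
  induction hg using Subgroup.closure_induction_left with
  | one =>
    refine ⟨fun p q hpq => ?_, fun p => ?_⟩
    · rw [Matrix.SpecialLinearGroup.coe_one, Matrix.one_apply_ne hpq.ne]
    · rw [Matrix.SpecialLinearGroup.coe_one, Matrix.one_apply_eq]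
  | mul_left g hg y _ ih =>
    obtain ⟨a, b, t, hab, hr, rfl⟩ := hg
    exact step a b t hab hr y ih
  | inv_mul_cancel g hg y _ ih =>
    obtain ⟨a, b, t, hab, hr, rfl⟩ := hg
    rw [sl_inv hab]
    exact step a b (-t) hab hr y ih

private theorem sl_upp {g : Matrix.SpecialLinearGroup (Fin 3) K} (hg : g ∈ LT K (fun a b : Fin 3 => a < b)) :
    (∀ p q, q < p → g.1 p q = 0) ∧ (∀ p, g.1 p p = 1) := by
  have step : ∀ (a b : Fin 3) (t : K), a ≠ b → a < b → ∀ g : Matrix.SpecialLinearGroup (Fin 3) K,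
      ((∀ p q, q < p → g.1 p q = 0) ∧ (∀ p, g.1 p p = 1)) →
      ((∀ p q, q < p → (el K a b t * g).1 p q = 0) ∧ (∀ p, (el K a b t * g).1 p p = 1)) := by
    rintro a b t hab hba g ⟨h1, h2⟩
    have hs : ∀ q, (el K a b t * g).1 a q = g.1 a q + t * g.1 b q := fun q => by
      rw [Matrix.SpecialLinearGroup.coe_mul, sl_el hab, Matrix.transvection_mul_apply_same]
    have ho : ∀ p q, p ≠ a → (el K a b t * g).1 p q = g.1 p q := fun p q hp => by
      rw [Matrix.SpecialLinearGroup.coe_mul, sl_el hab, Matrix.transvection_mul_apply_of_ne _ _ _ _ hp]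
    refine ⟨fun p q hpq => ?_, fun p => ?_⟩
    · by_cases hp : p = a
      · subst hp
        rw [hs, h1 p q hpq, h1 b q (hpq.trans hba), mul_zero, add_zero]
      · rw [ho p q hp, h1 p q hpq]
    · by_cases hp : p = a
      · subst hp
        rw [hs, h2 p, h1 b p hba, mul_zero, add_zero]
      · rw [ho p p hp, h2 p]
  unfold ThK.LT at hg
  induction hg using Subgroup.closure_induction_left with
  | one =>
    refine ⟨fun p q hpq => ?_, fun p => ?_⟩
    · rw [Matrix.SpecialLinearGroup.coe_one, Matrix.one_apply_ne hpq.ne']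
    · rw [Matrix.SpecialLinearGroup.coe_one, Matrix.one_apply_eq]
  | mul_left g hg y _ ih =>
    obtain ⟨a, b, t, hab, hr, rfl⟩ := hg
    exact step a b t hab hr y ih
  | inv_mul_cancel g hg y _ ih =>
    obtain ⟨a, b, t, hab, hr, rfl⟩ := hg
    rw [sl_inv hab]
    exact step a b (-t) hab hr y ih

/-- MODULE sl. UNIQUENESS OF `U D L`: `N` upper unitriangular, `N'` lower unitriangular (`LT_upp`, `LT_low` or closure induction), `δ` invertible: `N D N' = t` gives `D N' = t N⁻¹`, lower = upper, so both are diagonal. -/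
theorem udl {N D N' : Matrix.SpecialLinearGroup (Fin 3) K} (hN : N ∈ LT K (fun a b : Fin 3 => a < b)) (hN' : N' ∈ LT K (fun a b : Fin 3 => b < a)) {δ : Fin 3 → Kˣ}
    (hD : D.1 = Matrix.diagonal fun k => ((δ k : Kˣ) : K)) {t : K} (h : (N * D * N').1 = t • (1 : Matrix (Fin 3) (Fin 3) K)) : N = 1 ∧ N' = 1 ∧ ∀ k, ((δ k : Kˣ) : K) = t := by
  obtain ⟨u1, u2⟩ := sl_upp (inv_mem hN)
  obtain ⟨l1, l2⟩ := sl_low hN'
  have h1 : (D * N').1 = t • (N⁻¹).1 := by
    have e : D * N' = N⁻¹ * (N * D * N') := by group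
    rw [e, Matrix.SpecialLinearGroup.coe_mul, h, Matrix.mul_smul, Matrix.mul_one]
  have h2 : ∀ p q, ((δ p : Kˣ) : K) * N'.1 p q = t * (N⁻¹).1 p q := fun p q => by
    have e := congrFun (congrFun h1 p) q
    rw [Matrix.SpecialLinearGroup.coe_mul, hD, Matrix.diagonal_mul, Matrix.smul_apply, smul_eq_mul] at e
    exact e
  have h3 : ∀ k, ((δ k : Kˣ) : K) = t := fun k => by
    have e := h2 k k
    rw [l2, u2, mul_one, mul_one] at e
    exact e
  have hN1 : N' = 1 := by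
    refine Subtype.ext (Matrix.ext fun p q => ?_)
    rw [Matrix.SpecialLinearGroup.coe_one]
    rcases lt_trichotomy p q with hpq | hpq | hpq
    · rw [l1 p q hpq, Matrix.one_apply_ne hpq.ne]
    · subst hpq
      rw [l2, Matrix.one_apply_eq]
    · have e := h2 p q
      rw [u1 p q hpq, mul_zero] at e
      rw [(mul_eq_zero.mp e).resolve_left (δ p).ne_zero, Matrix.one_apply_ne hpq.ne']
  have hN2 : N⁻¹ = 1 := by
    refine Subtype.ext (Matrix.ext fun p q => ?_)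
    have ht : t ≠ 0 := by
      rw [← h3 0]
      exact (δ 0).ne_zero
    have e := h2 p q
    rw [hN1, h3 p] at e
    exact (mul_left_cancel₀ ht e).symm
  exact ⟨inv_eq_one.mp hN2, hN1, h3⟩
-- END sl

-- BEGIN sm
private theorem sm_mid (h : Stb K 6 x) (H : L3 x F1 F2 F3) (A A' : Matrix.SpecialLinearGroup (Fin 2) (Fx τ)) (N D N' : Matrix.SpecialLinearGroup (Fin 3) K) :
    gg τ F1 F2 N * gf τ F3 A * gg τ F1 F2 D * gf τ F3 A' * gg τ F1 F2 N' = gf τ F3 (A * A') * gg τ F1 F2 (N * D * N') := by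
  rw [gf_mul, gg_mul h H, gg_mul h H, ← gf_gg h H A N]
  have e1 : gg τ F1 F2 D * gf τ F3 A' = gf τ F3 A' * gg τ F1 F2 D := (gf_gg h H A' D).symm
  have e2 : gg τ F1 F2 N * gf τ F3 A' = gf τ F3 A' * gg τ F1 F2 N := (gf_gg h H A' N).symm
  calc gf τ F3 A * gg τ F1 F2 N * gg τ F1 F2 D * gf τ F3 A' * gg τ F1 F2 N'
      = gf τ F3 A * gg τ F1 F2 N * (gg τ F1 F2 D * gf τ F3 A') * gg τ F1 F2 N' := by simp only [mul_assoc]
    _ = gf τ F3 A * (gg τ F1 F2 N * gf τ F3 A') * gg τ F1 F2 D * gg τ F1 F2 N' := by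
      rw [e1]
      simp only [mul_assoc]
    _ = _ := by
      rw [e2]
      simp only [mul_assoc]

/-- MODULE sm. GAUSS, FINAL FORM.  `parY`; `Sy_split` (level `l6`, `l6_nonneg`) for `v` (`op x`) and `u`; `lev_low0`, `lev_upp0`, `gf_two`, `hz_two`, `gf_gg`: `c g c⁻¹ = v₂ (gf (el 1 0 t * el 0 1 t) * gg (N D N')) u₂`.  If `D` is not scalar (`δ = ![b⁻¹, b a⁻¹, a]`): `ζ = 1`, `udl`.
If `D` is scalar: `ζ = (hz x τ z)⁻¹` (`hz_central`, `ch_scalar`), `c (g ζ) c⁻¹ = v₂ (gf .. * gg (N N')) u₂` and `N N' = 1` or not scalar (`udl` with `D = 1`: scalar gives `N = N' = 1`). -/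
theorem gaussT (h : Stb K 6 x) (hτ : ∀ a, τ (τ a) = a) (hT : T2 τ) (H : L3 x F1 F2 F3) {g : G} (hg : g ∈ Hh x τ) :
    ∃ ζ ∈ Hh x τ, (∀ u ∈ Hh x τ, u * ζ = ζ * u) ∧ ∃ c ∈ Hh x τ, ∃ v ∈ Uy (op x) τ l6 1, ∃ u ∈ Uy x τ l6 1, ∃ (t : Fx τ) (B : Matrix.SpecialLinearGroup (Fin 3) K),
      (B = 1 ∨ ∀ s : K, B.1 ≠ s • (1 : Matrix (Fin 3) (Fin 3) K)) ∧ c * (g * ζ) * c⁻¹ = v * (gf τ F3 (el (Fx τ) 1 0 t * el (Fx τ) 0 1 t) * gg τ F1 F2 B) * u := by
  obtain ⟨c, hc, v, hv, t, z, u, hu, e⟩ := parY h hτ hT hg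
  obtain ⟨v₂, hv₂, v₁, hv₁, rfl⟩ := (Sy_split h.op hτ (fun r hr => l6_nonneg hr.1) hv).2
  obtain ⟨u₁, hu₁, u₂, hu₂, rfl⟩ := (Sy_split h hτ (fun r hr => l6_nonneg hr.1) hu).1
  obtain ⟨N', hN', rfl⟩ := lev_low0 h hτ H hu₁
  obtain ⟨N, hN, rfl⟩ := lev_upp0 h hτ H hv₁
  obtain ⟨D, a, b, ha, hb, hD, hzD⟩ := hz_two h hτ hT H z
  obtain ⟨g1, g2⟩ := gf_two hT H t
  have hu₂H : u₂ ∈ Hh x τ := Sy_le_Hh x τ _ hu₂
  by_cases hs : ∃ s : K, D.1 = s • (1 : Matrix (Fin 3) (Fin 3) K)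
  · obtain ⟨s, hs⟩ := hs
    have hd : ∀ k : Fin 3, (((![b⁻¹, b * a⁻¹, a] : Fin 3 → Kˣ) k : Kˣ) : K) = s := by
      intro k
      have h1 := congrFun (congrFun hs k) k
      rw [hD, Matrix.diagonal_apply_eq, Matrix.smul_apply, Matrix.one_apply_eq, smul_eq_mul, mul_one] at h1
      exact h1
    have h0 : ((b⁻¹ : Kˣ) : K) = s := hd 0
    have h1 : ((b * a⁻¹ : Kˣ) : K) = s := hd 1
    have h2 : ((a : Kˣ) : K) = s := hd 2
    have k1 : b⁻¹ = a := Units.ext (h0.trans h2.symm)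
    have k2 : b * a⁻¹ = a := Units.ext (h1.trans h2.symm)
    have hcen := hz_central h hτ (ch_scalar hτ hT ha hb k1 k2)
    have hzm : hz x τ z ∈ Hh x τ := hz_mem h z
    have hcen' : ∀ w ∈ Hh x τ, w * (hz x τ z)⁻¹ = (hz x τ z)⁻¹ * w := by
      intro w hw
      rw [mul_inv_eq_iff_eq_mul, mul_assoc, hcen w hw, inv_mul_cancel_left]
    have hB : N * N' = 1 ∨ ∀ s : K, (N * N').1 ≠ s • (1 : Matrix (Fin 3) (Fin 3) K) := by
      by_cases hq : ∃ s : K, (N * N').1 = s • (1 : Matrix (Fin 3) (Fin 3) K)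
      · left
        obtain ⟨s', hs'⟩ := hq
        have h3 : (N * 1 * N').1 = s' • (1 : Matrix (Fin 3) (Fin 3) K) := by
          rw [mul_one]
          exact hs'
        have h4 : (1 : Matrix.SpecialLinearGroup (Fin 3) K).1 = Matrix.diagonal fun k => (((fun _ => (1 : Kˣ)) : Fin 3 → Kˣ) k : K) := by
          rw [show ((1 : Matrix.SpecialLinearGroup (Fin 3) K).1 : Matrix (Fin 3) (Fin 3) K) = 1 from rfl]
          simp
        obtain ⟨e1, e2, -⟩ := udl hN hN' h4 h3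
        rw [e1, e2, mul_one]
      · right
        intro s' hs'
        exact hq ⟨s', hs'⟩
    refine ⟨(hz x τ z)⁻¹, inv_mem hzm, hcen', c, hc, v₂, hv₂, u₂, hu₂, t, N * N', hB, ?_⟩
    have e1 : c * (g * (hz x τ z)⁻¹) * c⁻¹ = c * g * c⁻¹ * (hz x τ z)⁻¹ := by
      rw [mul_assoc (c * g) c⁻¹, hcen' c⁻¹ (inv_mem hc)]
      simp only [mul_assoc]
    have e3 := sm_mid (τ := τ) h H (el (Fx τ) 1 0 t) (el (Fx τ) 0 1 t) N 1 N'
    rw [gg_one, mul_one, mul_one] at e3
    have hgu : gf τ F3 (el (Fx τ) 0 1 t) * gg τ F1 F2 N' * u₂ ∈ Hh x τ :=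
      mul_mem (mul_mem (Sy_le_Hh x τ _ (gf_mem h H _)) (Sy_le_Hh x τ _ (gg_mem h H _))) hu₂H
    have e4 : hz x τ z * (gf τ F3 (el (Fx τ) 0 1 t) * gg τ F1 F2 N' * u₂) * (hz x τ z)⁻¹ = gf τ F3 (el (Fx τ) 0 1 t) * gg τ F1 F2 N' * u₂ := by
      rw [← hcen _ hgu, mul_inv_cancel_right]
    rw [e1, e, g1, g2, ← e3]
    calc v₂ * gg τ F1 F2 N * gf τ F3 (el (Fx τ) 1 0 t) * hz x τ z * gf τ F3 (el (Fx τ) 0 1 t) * (gg τ F1 F2 N' * u₂) * (hz x τ z)⁻¹
        = v₂ * gg τ F1 F2 N * gf τ F3 (el (Fx τ) 1 0 t) * (hz x τ z * (gf τ F3 (el (Fx τ) 0 1 t) * gg τ F1 F2 N' * u₂) * (hz x τ z)⁻¹) := by simp only [mul_assoc]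
      _ = _ := by
        rw [e4]
        simp only [mul_assoc]
  · refine ⟨1, one_mem _, fun w _ => by rw [mul_one, one_mul], c, hc, v₂, hv₂, u₂, hu₂, t, N * D * N', Or.inr fun s' hs' => hs ⟨s', ?_⟩, ?_⟩
    · obtain ⟨-, -, e3⟩ := udl hN hN' hD hs'
      rw [hD]
      ext i j
      rw [Matrix.diagonal_apply, Matrix.smul_apply, Matrix.one_apply]
      split_ifs with hij
      · rw [e3 i, smul_eq_mul, mul_one]
      · rw [smul_zero]
    · rw [mul_one, e, g1, g2, hzD, ← sm_mid h H]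
      simp only [mul_assoc]
-- END sm

-- BEGIN sn
private def sn_b (F : Type*) [Field F] (b : Bool) : F := if b then 1 else 0

private theorem sn_xor {F : Type*} [Field F] (h2 : (2 : F) = 0) (x y : Bool) : sn_b F (xor x y) = sn_b F x + sn_b F y := by
  have h : (1 : F) + 1 = 0 := by rw [one_add_one_eq_two, h2]
  cases x <;> cases y <;> simp [sn_b, h]

private theorem sn_and {F : Type*} [Field F] (x y : Bool) : sn_b F (x && y) = sn_b F x * sn_b F y := by
  cases x <;> cases y <;> simp [sn_b]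

private def sn_T (a e i : Bool) : Bool := xor (xor a e) i

private def sn_E (a b c d e f g h i : Bool) : Bool :=
  xor (xor (xor (a && e) (b && d)) (xor (a && i) (c && g))) (xor (e && i) (f && h))

private def sn_D (a b c d e f g h i : Bool) : Bool :=
  xor (xor (a && xor (e && i) (f && h)) (b && xor (d && i) (f && g))) (c && xor (d && h) (e && g))

private def sn_m (F : Type*) [Field F] (a b c d e f g h i : Bool) : Matrix (Fin 3) (Fin 3) F :=
  !![sn_b F a, sn_b F b, sn_b F c; sn_b F d, sn_b F e, sn_b F f; sn_b F g, sn_b F h, sn_b F i]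

private def sn_e (x y z p q r : Bool) : Bool := xor (xor (x && p) (y && q)) (z && r)

/-- the matrix `(p, ..)` has the characteristic polynomial `X^3 + X^2 + 1`, its inverse times `(a, ..)` has `X^3 + X^2 + 1` or `X^3 + X + 1` -/
private def sn_ok (a b c d e f g h i : Bool) (y : Bool × Bool × Bool × Bool × Bool × Bool × Bool × Bool × Bool) : Bool :=
  match y with
  | (p, q, r, s, t, u, v, w, z) =>
    let p' := xor (t && z) (u && w)
    let q' := xor (q && z) (r && w)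
    let r' := xor (q && u) (r && t)
    let s' := xor (s && z) (u && v)
    let t' := xor (p && z) (r && v)
    let u' := xor (p && u) (r && s)
    let v' := xor (s && w) (t && v)
    let w' := xor (p && w) (q && v)
    let z' := xor (p && t) (q && s)
    let m := sn_T (sn_e p' q' r' a d g) (sn_e s' t' u' b e h) (sn_e v' w' z' c f i)
    let n := sn_E (sn_e p' q' r' a d g) (sn_e p' q' r' b e h) (sn_e p' q' r' c f i)
      (sn_e s' t' u' a d g) (sn_e s' t' u' b e h) (sn_e s' t' u' c f i)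
      (sn_e v' w' z' a d g) (sn_e v' w' z' b e h) (sn_e v' w' z' c f i)
    sn_D p q r s t u v w z && sn_T p t z && !(sn_E p q r s t u v w z) && xor m n

private def sn_L : List (Bool × Bool × Bool × Bool × Bool × Bool × Bool × Bool × Bool) :=
  [(false, false, true, false, true, true, true, true, false),
   (false, false, true, true, false, false, false, true, true),
   (false, true, true, true, true, true, false, true, false),
   (false, true, false, true, true, true, true, true, false),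
   (false, false, true, true, false, true, true, true, true),
   (false, true, false, false, true, true, true, false, false),
   (false, true, false, true, false, true, false, true, true),
   (false, true, true, true, false, false, true, false, true),
   (true, false, true, true, false, false, false, true, false),
   (true, false, true, true, true, true, false, true, true),
   (false, false, true, true, true, false, false, true, false),
   (false, true, false, false, false, true, true, false, true),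
   (false, true, true, false, false, true, true, true, true),
   (false, true, true, true, true, false, true, false, false),
   (true, true, false, false, false, true, true, false, false),
   (true, true, false, false, true, true, true, true, true)]

private theorem sn_all : ∀ a b c d e f g h i : Bool, (!(sn_D a b c d e f g h i) || sn_L.any (sn_ok a b c d e f g h i)) = true := by
  decide

private theorem sn_cp {F : Type*} [Field F] (M : Matrix (Fin 3) (Fin 3) F) :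
    M.charpoly = X ^ 3 - C (M 0 0 + M 1 1 + M 2 2) * X ^ 2
      + C (M 0 0 * M 1 1 - M 0 1 * M 1 0 + (M 0 0 * M 2 2 - M 0 2 * M 2 0) + (M 1 1 * M 2 2 - M 1 2 * M 2 1)) * X
      - C M.det := by
  rw [Matrix.charpoly, Matrix.det_fin_three, Matrix.det_fin_three]
  simp only [Matrix.charmatrix_apply, Matrix.diagonal_apply, map_add, map_sub, map_mul]
  simp
  ring

private theorem sn_cpm {F : Type*} [Field F] (h2 : (2 : F) = 0) {a b c d e f g h i : Bool} (hD : sn_D a b c d e f g h i = true) :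
    (sn_T a e i = true → sn_E a b c d e f g h i = false → (sn_m F a b c d e f g h i).charpoly = X ^ 3 + X ^ 2 + 1) ∧
    (sn_T a e i = false → sn_E a b c d e f g h i = true → (sn_m F a b c d e f g h i).charpoly = X ^ 3 + X + 1) := by
  have h2' : (2 : F[X]) = 0 := by
    rw [← map_ofNat C 2, h2, map_zero]
  have hT : (sn_m F a b c d e f g h i) 0 0 + (sn_m F a b c d e f g h i) 1 1 + (sn_m F a b c d e f g h i) 2 2 = sn_b F (sn_T a e i) := by
    simp only [sn_T, sn_xor h2]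
    simp [sn_m]
  have hE : (sn_m F a b c d e f g h i) 0 0 * (sn_m F a b c d e f g h i) 1 1 - (sn_m F a b c d e f g h i) 0 1 * (sn_m F a b c d e f g h i) 1 0
      + ((sn_m F a b c d e f g h i) 0 0 * (sn_m F a b c d e f g h i) 2 2 - (sn_m F a b c d e f g h i) 0 2 * (sn_m F a b c d e f g h i) 2 0)
      + ((sn_m F a b c d e f g h i) 1 1 * (sn_m F a b c d e f g h i) 2 2 - (sn_m F a b c d e f g h i) 1 2 * (sn_m F a b c d e f g h i) 2 1)
      = sn_b F (sn_E a b c d e f g h i) := by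
    simp only [sn_E, sn_xor h2, sn_and]
    simp [sn_m]
    linear_combination (-(sn_b F b * sn_b F d) - sn_b F c * sn_b F g - sn_b F f * sn_b F h) * h2
  have hd : (sn_m F a b c d e f g h i).det = sn_b F (sn_D a b c d e f g h i) := by
    simp only [sn_D, sn_xor h2, sn_and]
    rw [Matrix.det_fin_three]
    simp [sn_m]
    linear_combination (-(sn_b F a * sn_b F f * sn_b F h) - sn_b F b * sn_b F d * sn_b F i - sn_b F c * sn_b F e * sn_b F g) * h2
  rw [sn_cp, hT, hE, hd, hD]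
  constructor
  · intro h3 h4
    rw [h3, h4]
    simp only [sn_b, if_true, map_one, Bool.false_eq_true, if_false, map_zero]
    linear_combination (-X ^ 2 - 1) * h2'
  · intro h3 h4
    rw [h3, h4]
    simp only [sn_b, if_true, map_one, Bool.false_eq_true, if_false, map_zero]
    linear_combination (-1) * h2'

private theorem sn_det {F : Type*} [Field F] (h2 : (2 : F) = 0) (a b c d e f g h i : Bool) :
    (sn_m F a b c d e f g h i).det = sn_b F (sn_D a b c d e f g h i) := by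
  simp only [sn_D, sn_xor h2, sn_and]
  rw [Matrix.det_fin_three]
  simp [sn_m]
  linear_combination (-(sn_b F a * sn_b F f * sn_b F h) - sn_b F b * sn_b F d * sn_b F i - sn_b F c * sn_b F e * sn_b F g) * h2

private theorem sn_b_true {F : Type*} [Field F] {x : Bool} (h : sn_b F x = 1) : x = true := by
  by_contra hcon
  rw [Bool.not_eq_true] at hcon
  rw [hcon] at h
  simp [sn_b] at h

private theorem sn_adj {F : Type*} [Field F] (h2 : (2 : F) = 0) (p q r s t u v w z : Bool) :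
    sn_m F (xor (t && z) (u && w)) (xor (q && z) (r && w)) (xor (q && u) (r && t))
      (xor (s && z) (u && v)) (xor (p && z) (r && v)) (xor (p && u) (r && s))
      (xor (s && w) (t && v)) (xor (p && w) (q && v)) (xor (p && t) (q && s)) = (sn_m F p q r s t u v w z).adjugate := by
  have hneg : ∀ a : F, -a = a := fun a => by linear_combination (-a) * h2
  have hsub : ∀ a b : F, a - b = a + b := fun a b => by linear_combination (-b) * h2
  rw [Matrix.adjugate_fin_three]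
  ext i j
  fin_cases i <;> fin_cases j <;> simp [sn_m, sn_xor h2, sn_and, hneg, hsub]

private theorem sn_mul {F : Type*} [Field F] (h2 : (2 : F) = 0) (p q r s t u v w z a b c d e f g h i : Bool) :
    sn_m F p q r s t u v w z * sn_m F a b c d e f g h i = sn_m F (sn_e p q r a d g) (sn_e p q r b e h) (sn_e p q r c f i)
      (sn_e s t u a d g) (sn_e s t u b e h) (sn_e s t u c f i) (sn_e v w z a d g) (sn_e v w z b e h) (sn_e v w z c f i) := by
  ext i j
  fin_cases i <;> fin_cases j <;> simp [sn_m, sn_e, sn_xor h2, sn_and, Matrix.mul_apply, Fin.sum_univ_three] <;> ring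

private theorem sn_el {F : Type*} [Field F] (i j : Fin 2) (h : i ≠ j) (t : F) :
    (el F i j t : Matrix.SpecialLinearGroup (Fin 2) F).1 = Matrix.transvection i j t := by
  have h1 : (el F i j t : Matrix.SpecialLinearGroup (Fin 2) F) = ⟨Matrix.transvection i j t, Matrix.det_transvection_of_ne i j h t⟩ := dif_pos h
  rw [h1]

/-- MODULE sn. `t = 0`: `1 = [[0, 1], [1, 1]] [[1, 1], [1, 0]]`; `t = 1`: `[[1, 1], [1, 0]] = P P` with `P = [[0, 1], [1, 1]]`; `p2 1 = X^2 + X + 1` (`p2_iff`: trace 1, determinant `-1 = 1`). -/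
theorem even2 (hT : T2 τ) (t : Fx τ) : ∃ A1 A2 : Matrix (Fin 2) (Fin 2) (Fx τ), A1.charpoly = p2 1 ∧ A2.charpoly = p2 1 ∧ (el (Fx τ) 1 0 t * el (Fx τ) 0 1 t).1 = A1 * A2 := by
  have h2 : (2 : Fx τ) = 0 := by
    apply Subtype.ext
    have h := hT.two
    push_cast
    exact h
  have h11 : (1 : Fx τ) + 1 = 0 := by rw [one_add_one_eq_two, h2]
  have hm : (-1 : Fx τ) = 1 := by linear_combination -h2
  have hA : (!![0, 1; 1, 1] : Matrix (Fin 2) (Fin 2) (Fx τ)).charpoly = p2 1 := by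
    rw [p2_iff]
    simp [Matrix.trace_fin_two, Matrix.det_fin_two]
  have hB : (!![1, 1; 1, 0] : Matrix (Fin 2) (Fin 2) (Fx τ)).charpoly = p2 1 := by
    rw [p2_iff]
    simp [Matrix.trace_fin_two, Matrix.det_fin_two]
  have ht : t = 0 ∨ t = 1 := by
    rcases hT t.1 t.2 with h | h
    · left; exact Subtype.ext h
    · right; exact Subtype.ext h
  have hm1 : (el (Fx τ) 1 0 t * el (Fx τ) 0 1 t : Matrix.SpecialLinearGroup (Fin 2) (Fx τ)).1 =
      (Matrix.transvection 1 0 t * Matrix.transvection 0 1 t : Matrix (Fin 2) (Fin 2) (Fx τ)) := by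
    have e1 := sn_el (F := Fx τ) 1 0 (by decide) t
    have e2 := sn_el (F := Fx τ) 0 1 (by decide) t
    rw [← e1, ← e2]
    rfl
  rw [hm1]
  rcases ht with rfl | rfl
  · refine ⟨_, _, hA, hB, ?_⟩
    ext i j
    fin_cases i <;> fin_cases j <;> simp [Matrix.transvection, Matrix.mul_apply, Fin.sum_univ_two, h11]
  · refine ⟨_, _, hA, hA, ?_⟩
    ext i j
    fin_cases i <;> fin_cases j <;> simp [Matrix.transvection, Matrix.mul_apply, Fin.sum_univ_two, h11]

/-- `SL_3(2)` (checked by computer, also for `B = 1`): `decide` for `ZMod 2`, or companion matrices: it is enough to treat one matrix of each class (`conj_GLm`) -/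
theorem tab3 {F : Type*} [Field F] (hF : ∀ a : F, a = 0 ∨ a = 1) (B : Matrix.SpecialLinearGroup (Fin 3) F) :
    ∃ Y1 Y2 : Matrix (Fin 3) (Fin 3) F, Y1.charpoly = X ^ 3 + X ^ 2 + 1 ∧ (Y2.charpoly = X ^ 3 + X ^ 2 + 1 ∨ Y2.charpoly = X ^ 3 + X + 1) ∧ B.1 = Y1 * Y2 := by
  have h2 : (2 : F) = 0 := by
    rcases hF 2 with h | h
    · exact h
    · exfalso
      have : (1 : F) = 0 := by linear_combination h
      exact one_ne_zero this
  have hbool : ∀ a : F, ∃ b : Bool, a = sn_b F b := by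
    intro a
    rcases hF a with h | h
    · exact ⟨false, by simp [sn_b, h]⟩
    · exact ⟨true, by simp [sn_b, h]⟩
  obtain ⟨a, ha⟩ := hbool (B.1 0 0)
  obtain ⟨b, hb⟩ := hbool (B.1 0 1)
  obtain ⟨c, hc⟩ := hbool (B.1 0 2)
  obtain ⟨d, hd⟩ := hbool (B.1 1 0)
  obtain ⟨e, he⟩ := hbool (B.1 1 1)
  obtain ⟨f, hf⟩ := hbool (B.1 1 2)
  obtain ⟨g, hg⟩ := hbool (B.1 2 0)
  obtain ⟨h, hh⟩ := hbool (B.1 2 1)
  obtain ⟨i, hi⟩ := hbool (B.1 2 2)
  have hB : B.1 = sn_m F a b c d e f g h i := by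
    rw [Matrix.eta_fin_three B.1, ha, hb, hc, hd, he, hf, hg, hh, hi]
    rfl
  have hD : sn_D a b c d e f g h i = true := by
    have h1 := B.2
    rw [hB, sn_det h2] at h1
    by_contra hcon
    rw [Bool.not_eq_true] at hcon
    rw [hcon] at h1
    simp [sn_b] at h1
  have hall := sn_all a b c d e f g h i
  rw [hD, Bool.not_true, Bool.false_or, List.any_eq_true] at hall
  obtain ⟨⟨p, q, r, s, t, u, v, w, z⟩, -, hy⟩ := hall
  simp only [sn_ok, Bool.and_eq_true, Bool.not_eq_true'] at hy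
  obtain ⟨⟨⟨h1, h3⟩, h4⟩, h5⟩ := hy
  have hadj := sn_adj h2 p q r s t u v w z
  have hY1 : (sn_m F p q r s t u v w z).det = 1 := by
    rw [sn_det h2, h1]
    simp [sn_b]
  have hYY : sn_m F p q r s t u v w z * (sn_m F p q r s t u v w z).adjugate = 1 := by
    rw [Matrix.mul_adjugate, hY1, one_smul]
  rw [← hadj] at hYY
  have hmul := sn_mul h2 (xor (t && z) (u && w)) (xor (q && z) (r && w)) (xor (q && u) (r && t))
    (xor (s && z) (u && v)) (xor (p && z) (r && v)) (xor (p && u) (r && s))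
    (xor (s && w) (t && v)) (xor (p && w) (q && v)) (xor (p && t) (q && s)) a b c d e f g h i
  have hBY : B.1 = sn_m F p q r s t u v w z * (sn_m F (xor (t && z) (u && w)) (xor (q && z) (r && w)) (xor (q && u) (r && t))
      (xor (s && z) (u && v)) (xor (p && z) (r && v)) (xor (p && u) (r && s))
      (xor (s && w) (t && v)) (xor (p && w) (q && v)) (xor (p && t) (q && s)) * sn_m F a b c d e f g h i) := by
    rw [← Matrix.mul_assoc, hYY, Matrix.one_mul, hB]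
  have hd2 := congrArg Matrix.det hBY
  rw [B.2, Matrix.det_mul, hY1, one_mul, hmul, sn_det h2] at hd2
  refine ⟨_, _, (sn_cpm h2 h1).1 h3 h4, ?_, hBY⟩
  rw [hmul]
  have hD2 := sn_b_true hd2.symm
  rcases Bool.eq_false_or_eq_true (sn_T (sn_e (xor (t && z) (u && w)) (xor (q && z) (r && w)) (xor (q && u) (r && t)) a d g)
    (sn_e (xor (s && z) (u && v)) (xor (p && z) (r && v)) (xor (p && u) (r && s)) b e h)
    (sn_e (xor (s && w) (t && v)) (xor (p && w) (q && v)) (xor (p && t) (q && s)) c f i)) with h6 | h6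
  · left
    rw [h6, Bool.true_xor, Bool.not_eq_true'] at h5
    exact (sn_cpm h2 hD2).1 h6 h5
  · right
    rw [h6, Bool.false_xor] at h5
    exact (sn_cpm h2 hD2).2 h6 h5
-- END sn

/-- the matrix with characteristic polynomial `X^3 + X^2 + 1` (characteristic 2) and its inverse -/
def zT (K : Type*) [Field K] : Matrix (Fin 3) (Fin 3) K := !![0, 0, 1; 1, 0, 0; 0, 1, 1]
def zT' (K : Type*) [Field K] : Matrix (Fin 3) (Fin 3) K := !![0, 1, 0; -1, 0, 1; 1, 0, 0]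

-- BEGIN so
private theorem so_cube [Finite K] (hK : Nat.card K = 2 ∨ Nat.card K = 4) {a : K} (ha : a ≠ 0) : a ^ 3 = 1 := by
  classical
  have := Fintype.ofFinite K
  have hq := FiniteField.pow_card_sub_one_eq_one a ha
  rw [← Nat.card_eq_fintype_card] at hq
  rcases hK with hK | hK <;> rw [hK] at hq
  · have h1 : a = 1 := by simpa using hq
    rw [h1, one_pow]
  · exact hq

private theorem so_two (h2 : (2 : K) = 0) : (2 : K[X]) = 0 := by
  calc (2 : K[X]) = C (2 : K) := (map_ofNat C 2).symm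
    _ = 0 := by rw [h2, C_0]

private theorem so_min {Z : Matrix (Fin 3) (Fin 3) K} (h : Irreducible Z.charpoly) : minpoly K Z = Z.charpoly :=
  (minpoly.eq_of_irreducible_of_monic h (Matrix.aeval_self_charpoly Z) (Matrix.charpoly_monic Z)).symm

/-- MODULE so. As in `caseIV` (`pm_charpoly`, `irr_cubic`; over the field with 2 elements `X^3 + X^2 + 1` has no root). -/
theorem zT_inv : zT K * zT' K = 1 := by
  ext i j
  fin_cases i <;> fin_cases j <;> simp [zT, zT', Matrix.mul_apply, Fin.sum_univ_three]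

theorem zT_det (h2 : (2 : K) = 0) : (zT K).det = -1 := by
  rw [Matrix.det_fin_three]
  simp [zT]
  linear_combination h2

theorem zT_cp (h2 : (2 : K) = 0) : (zT K).charpoly = X ^ 3 + X ^ 2 + 1 ∧ (zT' K).charpoly = X ^ 3 + X + 1 := by
  have h2X := so_two h2
  constructor
  · rw [Matrix.charpoly, Matrix.det_fin_three]
    simp [zT]
    linear_combination -(X ^ 2 + 1) * h2X
  · rw [Matrix.charpoly, Matrix.det_fin_three]
    simp [zT']
    linear_combination -1 * h2X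

theorem zT_irr [Finite K] (h2 : (2 : K) = 0) (hK : Nat.card K = 2 ∨ Nat.card K = 4) : Irreducible (X ^ 3 + X ^ 2 + 1 : K[X]) ∧ Irreducible (X ^ 3 + X + 1 : K[X]) := by
  have hd1 : (X ^ 3 + X ^ 2 + 1 : K[X]).natDegree = 3 := by compute_degree!
  have hd2 : (X ^ 3 + X + 1 : K[X]).natDegree = 3 := by compute_degree!
  constructor
  · refine irreducible_of_degree_le_three_of_not_isRoot (by rw [hd1]; simp) ?_
    intro a ha
    have ha' : a ^ 3 + a ^ 2 + 1 = 0 := by simpa [IsRoot] using ha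
    have ha0 : a ≠ 0 := by
      rintro rfl
      norm_num at ha'
    have h3 := so_cube hK ha0
    have h4 : a ^ 2 = 0 := by linear_combination ha' - h3 - h2
    exact ha0 (pow_eq_zero_iff (two_ne_zero) |>.mp h4)
  · refine irreducible_of_degree_le_three_of_not_isRoot (by rw [hd2]; simp) ?_
    intro a ha
    have ha' : a ^ 3 + a + 1 = 0 := by simpa [IsRoot] using ha
    have ha0 : a ≠ 0 := by
      rintro rfl
      norm_num at ha'
    have h3 := so_cube hK ha0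
    exact ha0 (by linear_combination ha' - h3 - h2)

/-- matrices with these characteristic polynomials are conjugate in `SL_3(K)`: `conj_SLm`, `cd_irr`, the minimal polynomial is the irreducible characteristic polynomial -/
theorem zT_sim [Finite K] (h2 : (2 : K) = 0) (hK : Nat.card K = 2 ∨ Nat.card K = 4) {Y : Matrix (Fin 3) (Fin 3) K} :
    (Y.charpoly = X ^ 3 + X ^ 2 + 1 → Sim (zT K) Y) ∧ (Y.charpoly = X ^ 3 + X + 1 → Sim (zT' K) Y) := by
  obtain ⟨c1, c2⟩ := zT_cp h2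
  obtain ⟨i1, i2⟩ := zT_irr h2 hK
  constructor
  · intro hY
    have hz : Irreducible (zT K).charpoly := by rw [c1]; exact i1
    have hy : Irreducible Y.charpoly := by rw [hY]; exact i1
    exact conj_SLm (so_min hz) (so_min hy) (by rw [c1, hY]) (cd_irr _ hz)
  · intro hY
    have hz : Irreducible (zT' K).charpoly := by rw [c2]; exact i2
    have hy : Irreducible Y.charpoly := by rw [hY]; exact i2
    exact conj_SLm (so_min hz) (so_min hy) (by rw [c2, hY]) (cd_irr _ hz)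
-- END so

-- BEGIN sp
private theorem sp_conj (h : Stb K 6 x) (H : L3 x F1 F2 F3) {Z Z' : Matrix (Fin 2) (Fin 2) (Fx τ)} {Y Y' : Matrix (Fin 3) (Fin 3) K} (hZ : Z.det = -1) (hZ' : Z'.det = -1) (hY : Y.det = -1)
    (hY' : Y'.det = -1) (hs : Sim Z Z') (ht : Sim Y Y') :
    ∃ q ∈ Sy x τ fun r => l6 r.1 = 0, WW x τ F1 F2 F3 (m2 Z' hZ') (m3 Y' hY') = q * WW x τ F1 F2 F3 (m2 Z hZ) (m3 Y hY) * q⁻¹ := by
  obtain ⟨P, hP⟩ := hs
  obtain ⟨Q, hQ⟩ := ht
  refine ⟨gf τ F3 P * gg τ F1 F2 Q, Subgroup.mul_mem _ (gf_mem h H P) (gg_mem h H Q), ?_⟩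
  rw [WW_conj h H, m2_cj hZ hZ' hP, m3_cj hY hY' hQ]

private theorem sp_char (s : Fx τ) : (z2 s).charpoly = p2 s :=
  (p2_iff _ _).2 ⟨by simp [z2, Matrix.trace_fin_two], z2_det s⟩

private theorem sp_two (s : Fx τ) : (!![-s, 1; 1, 0] : Matrix (Fin 2) (Fin 2) (Fx τ)).charpoly = p2 (-s) :=
  (p2_iff _ _).2 ⟨by simp [Matrix.trace_fin_two], by simp [Matrix.det_fin_two]⟩

private theorem sp_mul (s : Fx τ) : z2 s * (!![-s, 1; 1, 0] : Matrix (Fin 2) (Fin 2) (Fx τ)) = 1 := by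
  ext i j
  fin_cases i <;> fin_cases j <;> simp [z2, Matrix.mul_apply, Fin.sum_univ_two]

/-- MODULE sp. THE PRODUCT, as row `pe` (`wT_prod`) with given factors of `A` (`s = 1`, characteristic 2; `good2` for `p2 1`): `gf A * gg B = WW (m2 A1) (m3 Y1) * WW (m2 A2) (m3 Y2)`; `Y2 ~ zT`: the second factor is conjugate to `w`; `Y2 ~ zT'`: to `w⁻¹` (`WW_inv`, `m2_inv`, `m3_inv`; the inverse of `z2 1` has characteristic polynomial `p2 (-1) = p2 1`). -/
theorem wT_prodT [Finite K] (h : Stb K 6 x) (H : L3 x F1 F2 F3) (hT : T2 τ) (e3 : (zT K).det = -1) {A : Matrix.SpecialLinearGroup (Fin 2) (Fx τ)} {B : Matrix.SpecialLinearGroup (Fin 3) K}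
    {A1 A2 : Matrix (Fin 2) (Fin 2) (Fx τ)} (a1 : A1.charpoly = p2 1) (a2 : A2.charpoly = p2 1) (hA : A.1 = A1 * A2) {Y1 Y2 : Matrix (Fin 3) (Fin 3) K} (s1 : Sim (zT K) Y1) (s2 : Sim (zT K) Y2 ∨ Sim (zT' K) Y2)
    (hB : B.1 = Y1 * Y2) :
    ∃ p ∈ Sy x τ fun r => l6 r.1 = 0, ∃ q ∈ Sy x τ fun r => l6 r.1 = 0, gf τ F3 A * gg τ F1 F2 B = p * wT x F1 F2 F3 (1 : Fx τ) (zT K) e3 * p⁻¹ * (q * wT x F1 F2 F3 (1 : Fx τ) (zT K) e3 * q⁻¹) ∨
      gf τ F3 A * gg τ F1 F2 B = p * wT x F1 F2 F3 (1 : Fx τ) (zT K) e3 * p⁻¹ * (q * (wT x F1 F2 F3 (1 : Fx τ) (zT K) e3)⁻¹ * q⁻¹) := by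
  have h2K : (2 : K) = 0 := hT.two
  have h2 : (2 : Fx τ) = 0 := Subtype.ext h2K
  have hneg : (-1 : Fx τ) = 1 := by
    refine (eq_neg_of_add_eq_zero_left ?_).symm
    rw [one_add_one_eq_two, h2]
  have hs4 : (1 : Fx τ) * 1 + 4 ≠ 0 := by
    have h4 : (4 : Fx τ) = 0 := by
      have : (4 : Fx τ) = 2 * 2 := by norm_num
      rw [this, h2, mul_zero]
    rw [h4, mul_one, add_zero]
    exact one_ne_zero
  have z3 : (zT' K).det = -1 := by
    have h5 := congrArg Matrix.det (zT_inv (K := K))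
    rw [Matrix.det_mul, e3, Matrix.det_one] at h5
    linear_combination -h5
  have d1 : A1.det = -1 := ((p2_iff _ _).1 a1).2
  have d2' : A2.det = -1 := ((p2_iff _ _).1 a2).2
  have y1 : Y1.det = -1 := s1.det.trans e3
  have y2 : Y2.det = -1 := by
    rcases s2 with s | s
    · exact s.det.trans e3
    · exact s.det.trans z3
  have hprod : gf τ F3 A * gg τ F1 F2 B = WW x τ F1 F2 F3 (m2 A1 d1) (m3 Y1 y1) * WW x τ F1 F2 F3 (m2 A2 d2') (m3 Y2 y2) := by
    rw [WW_mul h H, m2_mul d1 d2' hA, m3_mul y1 y2 hB]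
  obtain ⟨p, hp, ep⟩ := sp_conj h H (z2_det (1 : Fx τ)) d1 e3 y1 (good2 hs4 (sp_char 1) a1) s1
  rcases s2 with s | s
  · obtain ⟨q, hq, eq⟩ := sp_conj h H (z2_det (1 : Fx τ)) d2' e3 y2 (good2 hs4 (sp_char 1) a2) s
    refine ⟨p, hp, q, hq, Or.inl ?_⟩
    rw [hprod, ep, eq]
    rfl
  · have z2' : (!![-1, 1; 1, 0] : Matrix (Fin 2) (Fin 2) (Fx τ)).det = -1 := ((p2_iff _ _).1 (sp_two 1)).2
    have hc : (!![-1, 1; 1, 0] : Matrix (Fin 2) (Fin 2) (Fx τ)).charpoly = p2 1 := by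
      have h6 := sp_two (1 : Fx τ)
      have h7 : p2 (-1 : Fx τ) = p2 1 := congrArg p2 hneg
      exact h6.trans h7
    obtain ⟨q, hq, eq⟩ := sp_conj h H z2' d2' z3 y2 (good2 hs4 hc a2) s
    refine ⟨p, hp, q, hq, Or.inr ?_⟩
    have hinv : (wT x F1 F2 F3 (1 : Fx τ) (zT K) e3)⁻¹ = WW x τ F1 F2 F3 (m2 _ z2') (m3 (zT' K) z3) := by
      unfold wT
      rw [WW_inv h H, m2_inv (z2_det (1 : Fx τ)) z2' (sp_mul 1), m3_inv e3 z3 zT_inv]
    rw [hprod, ep, eq, hinv]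
    rfl
-- END sp

-- BEGIN sq
private theorem sq_seven {F : Type*} [CommRing F] (h2 : (2 : F) = 0) {a : F} (ha : a ^ 3 + a ^ 2 + 1 = 0) : a ^ 7 = 1 := by
  linear_combination (a ^ 4 + a ^ 3 + a ^ 2 + 1) * ha - (a ^ 6 + a ^ 5 + a ^ 4 + a ^ 3 + a ^ 2 + 1) * h2

/-- MODULE sq. The data of the class, as in `caseIV`: `wT_real`, `wT_sur` (`L` = algebraic closure of `K`, eigenvalues `a, a^2, a^4`, `a^7 = 1`; `N1`: a root `u` of `X^2 + X + 1` has `u^3 = 1`, `u ≠ 1`, so `u^7 = u ≠ 1`). -/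
theorem dataT [Finite K] (h : Stb K 6 x) (hτ : ∀ a, τ (τ a) = a) (hT : T2 τ) (H : L3 x F1 F2 F3) (e3 : (zT K).det = -1) :
    (∃ q ∈ Sy x τ fun r => l6 r.1 = 0, n0 x * wT x F1 F2 F3 (1 : Fx τ) (zT K) e3 * (n0 x)⁻¹ = q * (wT x F1 F2 F3 (1 : Fx τ) (zT K) e3)⁻¹ * q⁻¹) ∧
      ∀ k : ℕ, 1 ≤ k → SurY x τ l6 (wT x F1 F2 F3 (1 : Fx τ) (zT K) e3) k ∧ SurY (op x) τ l6 (wT x F1 F2 F3 (1 : Fx τ) (zT K) e3) k := by
  classical
  have h2 : (2 : K) = 0 := hT.two
  have h2F : (2 : Fx τ) = 0 := Subtype.ext h2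
  have hirr := (zT_irr h2 (hT.card hτ)).1
  let L := AlgebraicClosure K
  let ι : K →+* L := algebraMap K L
  have h2L : (2 : L) = 0 := by
    have h := congrArg ι h2
    rwa [map_ofNat, map_zero] at h
  obtain ⟨a, ha⟩ : ∃ a : L, a ^ 3 + a ^ 2 + 1 = 0 := by
    obtain ⟨a, ha⟩ := IsAlgClosed.exists_root (X ^ 3 + X ^ 2 + 1 : L[X]) (by
      have hd : (X ^ 3 + X ^ 2 + 1 : L[X]).degree = 3 := by compute_degree!
      rw [hd]
      norm_num)
    exact ⟨a, by simpa [IsRoot] using ha⟩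
  have ha7 := sq_seven h2L ha
  have ha0 : a ≠ 0 := by
    rintro rfl
    norm_num at ha
  have hone : (1 : L) + 1 + 1 ≠ 0 := by
    intro h
    have : (1 : L) = 0 := by linear_combination h - h2L
    exact one_ne_zero this
  let u : Lˣ := Units.mk0 a ha0
  have hu1 : u ≠ 1 := by
    intro h
    have : a = 1 := congrArg Units.val h
    rw [this] at ha
    exact hone (by linear_combination ha)
  have hu7 : u ^ 7 = 1 := Units.ext (by simpa [u] using ha7)
  have hord : orderOf u = 7 := by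
    have := Fact.mk (by norm_num : Nat.Prime 7)
    exact orderOf_eq_prime hu7 hu1
  have hpow : ∀ k : ℕ, u ^ k = 1 → 7 ∣ k := fun k hk => hord ▸ orderOf_dvd_of_pow_eq_one hk
  set D : Fin 3 → Lˣ := ![u, u ^ 2, u ^ 4] with hDdef
  have hDinj : Function.Injective (fun i => (D i : L)) := by
    have key : ∀ m k : ℕ, u ^ (m + k) = u ^ m → 7 ∣ k := fun m k hmk => hpow k (by
      rw [pow_add] at hmk
      exact mul_eq_left.mp hmk)
    intro i j hij
    have hij' : D i = D j := Units.ext hij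
    fin_cases i <;> fin_cases j <;> simp only [hDdef] at hij' ⊢
    · exact absurd (key 1 1 (by simpa using hij'.symm)) (by decide)
    · exact absurd (key 1 3 (by simpa using hij'.symm)) (by decide)
    · exact absurd (key 1 1 (by simpa using hij')) (by decide)
    · exact absurd (key 2 2 (by simpa using hij'.symm)) (by decide)
    · exact absurd (key 1 3 (by simpa using hij')) (by decide)
    · exact absurd (key 2 2 (by simpa using hij')) (by decide)
  have hprod : ∀ i j, ∃ k : ℕ, D i * D j = u ^ k ∧ ¬ 7 ∣ k := by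
    intro i j
    fin_cases i <;> fin_cases j
    · exact ⟨2, Units.ext (by simp [hDdef]; ring), by decide⟩
    · exact ⟨3, Units.ext (by simp [hDdef]; ring), by decide⟩
    · exact ⟨5, Units.ext (by simp [hDdef]; ring), by decide⟩
    · exact ⟨3, Units.ext (by simp [hDdef]; ring), by decide⟩
    · exact ⟨4, Units.ext (by simp [hDdef]; ring), by decide⟩
    · exact ⟨6, Units.ext (by simp [hDdef]; ring), by decide⟩
    · exact ⟨5, Units.ext (by simp [hDdef]; ring), by decide⟩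
    · exact ⟨6, Units.ext (by simp [hDdef]; ring), by decide⟩
    · exact ⟨8, Units.ext (by simp [hDdef]; ring), by decide⟩
  have hcp : (zT K).charpoly = X ^ 3 + X ^ 2 + 1 := (zT_cp h2).1
  have hsplit : (zT K).charpoly.map ι = ∏ i, (X - C ((D i : Lˣ) : L)) := by
    rw [hcp, Fin.prod_univ_three]
    have e1 : a + a ^ 2 + a ^ 4 = -1 := by linear_combination (a - 1) * ha + (a ^ 2 + 1) * h2L
    have e2 : a ^ 3 + a ^ 5 + a ^ 6 = 0 := by linear_combination a ^ 3 * ha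
    have c1 : (C a + C a ^ 2 + C a ^ 4 : L[X]) = -1 := by
      rw [← C_pow, ← C_pow, ← C_add, ← C_add, e1, C_neg, C_1]
    have c2 : (C a ^ 3 + C a ^ 5 + C a ^ 6 : L[X]) = 0 := by
      rw [← C_pow, ← C_pow, ← C_pow, ← C_add, ← C_add, e2, C_0]
    have c3 : (C a ^ 7 : L[X]) = 1 := by rw [← C_pow, ha7, C_1]
    have c4 : (2 : L[X]) = 0 := by
      calc (2 : L[X]) = C (2 : L) := (map_ofNat C 2).symm
        _ = 0 := by rw [h2L, C_0]
    have d0 : ((D 0 : Lˣ) : L) = a := rfl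
    have d1 : ((D 1 : Lˣ) : L) = a ^ 2 := rfl
    have d2 : ((D 2 : Lˣ) : L) = a ^ 4 := rfl
    rw [d0, d1, d2, C_pow, C_pow, Polynomial.map_add, Polynomial.map_add, Polynomial.map_pow, Polynomial.map_pow, map_X, Polynomial.map_one]
    linear_combination X ^ 2 * c1 - X * c2 + c3 + c4
  have hmin := minpoly_sep (zT K) ι hDinj hsplit
  have hcd : CD (zT K) := cd_irr _ (by rw [hcp]; exact hirr)
  obtain ⟨P3, q3⟩ := diag_sep (n := 2) (ι := ι) (Z := zT K) (D := D) (fun i j hij => hDinj (congrArg Units.val hij)) hsplit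
  have hmap : (zT K).map τ = zT K := by
    ext i j
    fin_cases i <;> fin_cases j <;> simp [zT]
  have hs4 : (1 : Fx τ) * 1 + 4 ≠ 0 := by
    intro h
    have : (1 : Fx τ) = 0 := by linear_combination h - 2 * h2F
    exact one_ne_zero this
  refine ⟨wT_real h hτ H hs4 e3 zT_inv hmap hmin hcd, fun k hk => wT_sur (L := L) h hτ H one_ne_zero hs4 e3 zT_inv hmap hmin hcd ι ut_one q3 ?_ ?_ hk⟩
  · intro i j hij
    obtain ⟨k, hk, h7⟩ := hprod i j
    apply h7
    apply hpow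
    rw [← hk, hij]
    apply Units.ext
    rw [Units.val_neg, Units.val_one]
    linear_combination -h2L
  · intro v hv i j hvij
    obtain ⟨k, hk, -⟩ := hprod i j
    have hv' : (v : L) * v - v - 1 = 0 := by
      rw [OneMemClass.coe_one, map_one] at hv
      linear_combination hv
    have hv7 : v ^ 7 = 1 := by
      rw [hvij, hk, ← pow_mul, mul_comm, pow_mul, hu7, one_pow]
    have hv3 : (v : L) ^ 3 = 1 := by linear_combination ((v : L) - 1) * hv' + ((v : L) ^ 2 - 1) * h2L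
    have hv7' : (v : L) ^ 7 = 1 := by rw [← Units.val_pow_eq_pow_val, hv7, Units.val_one]
    have hv1 : (v : L) = 1 := by
      calc (v : L) = (v : L) ^ 7 := by rw [show (v : L) ^ 7 = (v : L) ^ 3 * (v : L) ^ 3 * v by ring, hv3]; ring
        _ = 1 := hv7'
    rw [hv1] at hv'
    exact one_ne_zero (by linear_combination -hv' : (1 : L) = 0)
-- END sq

-- BEGIN sr
private theorem sr_01 [Finite K] (hK : Nat.card K = 2) (a : K) : a = 0 ∨ a = 1 := by
  classical
  have : Fintype K := Fintype.ofFinite K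
  by_contra h
  push Not at h
  have h1 : ({0, 1, a} : Finset K).card = 3 := by
    rw [Finset.card_eq_three]
    exact ⟨0, 1, a, zero_ne_one, h.1.symm, h.2.symm, rfl⟩
  have h2 := Finset.card_le_univ ({0, 1, a} : Finset K)
  rw [h1, ← Nat.card_eq_fintype_card, hK] at h2
  omega

private theorem sr_fac [Finite K] (h2 : (2 : K) = 0) (hK : Nat.card K = 2 ∨ Nat.card K = 4) (B : Matrix.SpecialLinearGroup (Fin 3) K)
    (hB : B = 1 ∨ ∀ s : K, B.1 ≠ s • (1 : Matrix (Fin 3) (Fin 3) K)) :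
    ∃ Y1 Y2 : Matrix (Fin 3) (Fin 3) K, Sim (zT K) Y1 ∧ (Sim (zT K) Y2 ∨ Sim (zT' K) Y2) ∧ B.1 = Y1 * Y2 := by
  rcases hK with hK | hK
  · obtain ⟨Y1, Y2, h1, h3, h4⟩ := tab3 (sr_01 hK) B
    refine ⟨Y1, Y2, (zT_sim h2 (Or.inl hK)).1 h1, ?_, h4⟩
    rcases h3 with h3 | h3
    · exact Or.inl ((zT_sim h2 (Or.inl hK)).1 h3)
    · exact Or.inr ((zT_sim h2 (Or.inl hK)).2 h3)
  · rcases hB with rfl | hB
    · exact ⟨zT K, zT' K, (zT_sim h2 (Or.inr hK)).1 (zT_cp h2).1, Or.inr ((zT_sim h2 (Or.inr hK)).2 (zT_cp h2).2), zT_inv.symm⟩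
    · obtain ⟨Y1, Y2, h1, h3, h4⟩ := px_two h2 (by omega) B hB
      exact ⟨Y1, Y2, (zT_sim h2 (Or.inr hK)).1 h1, Or.inl ((zT_sim h2 (Or.inr hK)).1 h3), h4⟩

/-- MODULE sr. THE MAIN THEOREM for `T2 τ`.  As row `pf` (`mainT`): `gaussT`; `even2`; `B = Y1 Y2`: `|K| = 2`: `tab3`; `|K| = 4`: `B = 1`: `zT * zT'`; `B` not scalar: `px_two`; `zT_sim`, `wT_prodT`; `absorbY` for `w` and `w⁻¹`; `w⁻¹` is conjugate to `w` (`n0_mem`). -/
theorem goodT [Finite K] (h : Stb K 6 x) (hτ : ∀ a, τ (τ a) = a) (hT : T2 τ) :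
    ∃ w ∈ Hh x τ, ∀ g ∈ Hh x τ, ∃ ζ ∈ Hh x τ, (∀ u ∈ Hh x τ, u * ζ = ζ * u) ∧ ∃ a ∈ Hh x τ, ∃ c ∈ Hh x τ, g * ζ = a * w * a⁻¹ * (c * w * c⁻¹) := by
  obtain ⟨F1, F2, F3, H⟩ := exists_L3 h
  have h2 : (2 : K) = 0 := T2.two hT
  have e3 : (zT K).det = -1 := zT_det h2
  obtain ⟨hreal0, hsur⟩ := dataT h hτ hT H e3
  have hN : Nrm x τ l6 (wT x F1 F2 F3 (1 : Fx τ) (zT K) e3) ∧ Nrm (op x) τ l6 (wT x F1 F2 F3 (1 : Fx τ) (zT K) e3) := nrm_WW h hτ H _ _
  have hw : wT x F1 F2 F3 (1 : Fx τ) (zT K) e3 ∈ Hh x τ := WW_mem h H _ _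
  obtain ⟨q0, hq0, hreal⟩ := hreal0
  generalize hwdef : wT x F1 F2 F3 (1 : Fx τ) (zT K) e3 = w at hsur hN hw hreal
  have hq0' : q0 ∈ Hh x τ := Sy.mono x τ (fun _ _ => trivial) hq0
  have hn0 : n0 x ∈ Hh x τ := n0_mem x τ
  have hc0 : q0⁻¹ * n0 x ∈ Hh x τ := mul_mem (inv_mem hq0') hn0
  have hinv : q0⁻¹ * n0 x * w * (q0⁻¹ * n0 x)⁻¹ = w⁻¹ := by
    calc q0⁻¹ * n0 x * w * (q0⁻¹ * n0 x)⁻¹ = q0⁻¹ * (n0 x * w * (n0 x)⁻¹) * q0 := by group
      _ = w⁻¹ := by rw [hreal]; group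
  refine ⟨w, hw, fun g hg => ?_⟩
  obtain ⟨ζ, hζ, hζc, c, hc, v, hv, u, hu, t, B, hB, he⟩ := gaussT h hτ hT H hg
  refine ⟨ζ, hζ, hζc, ?_⟩
  obtain ⟨A1, A2, a1, a2, hA⟩ := even2 hT t
  obtain ⟨Y1, Y2, s1, s2, hBe⟩ := sr_fac h2 (T2.card hT hτ) B hB
  obtain ⟨p, hp, q, hq, hor⟩ := wT_prodT h H hT e3 a1 a2 hA s1 s2 hBe
  rw [hwdef] at hor
  obtain ⟨c1, hc1, e1⟩ := (absorbY h hτ hN.1 hp (fun k hk => (hsur k hk).1) (fun k hk => (hsur k hk).2)).1 v hv
  have hg : g * ζ = c⁻¹ * (c * (g * ζ) * c⁻¹) * c := by group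
  rcases hor with ho | ho
  · obtain ⟨c2, hc2, e2⟩ := (absorbY h hτ hN.1 hq (fun k hk => (hsur k hk).1) (fun k hk => (hsur k hk).2)).2 u hu
    refine ⟨c⁻¹ * c1, mul_mem (inv_mem hc) hc1, c⁻¹ * c2, mul_mem (inv_mem hc) hc2, ?_⟩
    calc g * ζ = c⁻¹ * (c * (g * ζ) * c⁻¹) * c := hg
      _ = c⁻¹ * ((v * (p * w * p⁻¹)) * (q * w * q⁻¹ * u)) * c := by rw [he, ho]; group
      _ = c⁻¹ * ((c1 * w * c1⁻¹) * (c2 * w * c2⁻¹)) * c := by rw [e1, e2]
      _ = _ := by group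
  · obtain ⟨c2, hc2, e2⟩ := (absorbY h hτ (Nrm.inv hN.1) hq (fun k hk => SurY.inv h hτ addl6 sgl6 hk hN.1 (hsur k hk).1)
      (fun k hk => SurY.inv (Stb.op h) hτ addl6 sgl6 hk hN.2 (hsur k hk).2)).2 u hu
    refine ⟨c⁻¹ * c1, mul_mem (inv_mem hc) hc1, c⁻¹ * (c2 * (q0⁻¹ * n0 x)), mul_mem (inv_mem hc) (mul_mem hc2 hc0), ?_⟩
    calc g * ζ = c⁻¹ * (c * (g * ζ) * c⁻¹) * c := hg
      _ = c⁻¹ * ((v * (p * w * p⁻¹)) * (q * w⁻¹ * q⁻¹ * u)) * c := by rw [he, ho]; group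
      _ = c⁻¹ * ((c1 * w * c1⁻¹) * (c2 * w⁻¹ * c2⁻¹)) * c := by rw [e1, e2]
      _ = c⁻¹ * ((c1 * w * c1⁻¹) * (c2 * (q0⁻¹ * n0 x * w * (q0⁻¹ * n0 x)⁻¹) * c2⁻¹)) * c := by rw [hinv]
      _ = _ := by group
-- END sr

-- BEGIN ss
/-- MODULE ss. The quotient by the centre, as row `pn` (`quot_good`). -/
theorem quotT [Finite K] (h : Stb K 6 x) (hτ : ∀ a, τ (τ a) = a) (hT : T2 τ) :
    ∃ g : Hh x τ ⧸ Subgroup.center (Hh x τ), ∀ z : Hh x τ ⧸ Subgroup.center (Hh x τ), ∃ a b, IsConj g a ∧ IsConj g b ∧ a * b = z := by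
  obtain ⟨w, hw, hall⟩ := goodT h hτ hT
  refine ⟨QuotientGroup.mk ⟨w, hw⟩, fun z => ?_⟩
  obtain ⟨y, rfl⟩ := QuotientGroup.mk_surjective z
  obtain ⟨ζ, hζ, hc, a, ha, b, hb, e⟩ := hall y.1 y.2
  have hz : (⟨ζ, hζ⟩ : Hh x τ) ∈ Subgroup.center (Hh x τ) := by
    rw [Subgroup.mem_center_iff]
    intro u
    exact Subtype.ext (hc u.1 u.2)
  refine ⟨QuotientGroup.mk (⟨a, ha⟩ * ⟨w, hw⟩ * ⟨a, ha⟩⁻¹), QuotientGroup.mk (⟨b, hb⟩ * ⟨w, hw⟩ * ⟨b, hb⟩⁻¹), ?_, ?_, ?_⟩
  · rw [isConj_iff]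
    exact ⟨QuotientGroup.mk ⟨a, ha⟩, rfl⟩
  · rw [isConj_iff]
    exact ⟨QuotientGroup.mk ⟨b, hb⟩, rfl⟩
  · have h1 : (QuotientGroup.mk y : Hh x τ ⧸ Subgroup.center (Hh x τ)) = QuotientGroup.mk (y * ⟨ζ, hζ⟩) := by
      rw [QuotientGroup.mk_mul, (QuotientGroup.eq_one_iff _).2 hz, mul_one]
    rw [h1, ← QuotientGroup.mk_mul]
    exact congrArg _ (Subtype.ext e.symm)

/-- ALL FIELDS: `Nat.card (Fx τ) ≥ 2`; 2: `quotT` (`T2.of_card`); otherwise `twisted_main`. -/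
theorem twisted_all [Finite K] (h : Stb K 6 x) (hτ : ∀ a, τ (τ a) = a) :
    ∃ g : Hh x τ ⧸ Subgroup.center (Hh x τ), ∀ z : Hh x τ ⧸ Subgroup.center (Hh x τ), ∃ a b, IsConj g a ∧ IsConj g b ∧ a * b = z := by
  have h1 : 1 < Nat.card (Fx τ) := Finite.one_lt_card
  by_cases h2 : Nat.card (Fx τ) = 2
  · exact quotT h hτ (T2.of_card h2)
  · exact twisted_main h hτ (by omega)
-- END ss

end Pool.Agent.ThF
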